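import Pool.Agent.MP_b04567_ag.Ch.Move

section PartH39cDefs

set_option autoImplicit false

open MvPolynomial

namespace H39c

universe u

abbrev P4 (K : Type u) [CommRing K] := MvPolynomial (Fin 4) K
abbrev P3 (K : Type u) [CommRing K] := MvPolynomial (Fin 3) K

/-- `Z` is the common zero set of two `w`-weighted homogeneous polynomials. -/
def Cut {K : Type u} [Field K] (w : Fin 4 → ℕ) (Z : Set (Fin 4 → K)) : Prop :=
  ∃ (f g : P4 K) (a b : ℕ), f.IsWeightedHomogeneous w a ∧ g.IsWeightedHomogeneous w b ∧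
    Z = {v | eval v f = 0 ∧ eval v g = 0}

/-- zero set of an ideal -/
def V {K : Type u} [Field K] (I : Ideal (P4 K)) : Set (Fin 4 → K) := {v | ∀ f ∈ I, eval v f = 0}

/-- a form (homogeneous of some degree) -/
def Form {K : Type u} [CommRing K] (h : P4 K) : Prop := ∃ d, h.IsHomogeneous d

section branch
variable {k : Type u} [Field k] (ξ : Fin 4 → PowerSeries k)

/-- evaluation of polynomials over `L` on the branch `ξ` -/
noncomputable def iota (L : Type u) [CommRing L] [Algebra k L] : P4 L →ₐ[L] PowerSeries L :=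
  aeval (fun i => PowerSeries.map (algebraMap k L) (ξ i))

/-- `R`-points of the affine cone over the curve with branch `ξ` -/
def cone (R : Type u) [CommRing R] [Algebra k R] : Set (Fin 4 → R) :=
  {v | ∀ h : P4 k, Form h → aeval ξ h = 0 → aeval v h = 0}

/-- the homogeneous ideal of the curve over `L` -/
noncomputable def idl (L : Type u) [CommRing L] [Algebra k L] : Ideal (P4 L) :=
  Ideal.span {h | Form h ∧ iota ξ L h = 0}

/-- the point of the branch -/
noncomputable def P1 : Fin 4 → k := fun i => PowerSeries.constantCoeff (ξ i)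

/-- `v + ε w` is a point of the cone, `w` normalised -/
def Tan {R : Type u} [CommRing R] [Algebra k R] (v w : Fin 4 → R) : Prop :=
  w 0 = 0 ∧ w 3 = 1 ∧
    (fun i => (TrivSqZeroExt.inl (v i) + TrivSqZeroExt.inr (w i) : DualNumber R)) ∈
      cone ξ (DualNumber R)
end branch

/-- normalised representative of a point off the line `x0 = x3 = 0` -/
def Nrm {K : Type u} [Field K] (z : Fin 4 → K) : Prop := z 0 = 1 ∨ (z 0 = 0 ∧ z 3 = 1)

/-- binary form in `x0, x3` -/
def Bin {K : Type u} [Field K] (h : P4 K) : Prop :=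
  Form h ∧ ∀ i ∈ h.vars, i = 0 ∨ i = 3

/-- What the rest of the proof uses about the curve (output of PART C). -/
structure Good {k : Type u} [Field k] (ξ : Fin 4 → PowerSeries k) (D c : ℕ) (δ : P4 k) : Prop where
  h0 : ξ 0 = 1
  h3 : ξ 3 = PowerSeries.X
  hD : 0 < D
  /-- base change -/
  prime : ∀ (L : Type u) [Field L] [Algebra k L], (idl ξ L).IsPrime
  mem : ∀ (L : Type u) [Field L] [Algebra k L] (h : P4 L), Form h → (h ∈ idl ξ L ↔ iota ξ L h = 0)
  comp : ∀ (L : Type u) [Field L] [Algebra k L] (h : P4 L), h ∈ idl ξ L →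
    ∀ d, homogeneousComponent d h ∈ idl ξ L
  ev : ∀ (L R : Type u) [Field L] [Algebra k L] [CommRing R] [Algebra k R] [Algebra L R]
    [IsScalarTower k L R] (v : Fin 4 → R), v ∈ cone ξ R → ∀ h ∈ idl ξ L, aeval v h = 0
  coneV : ∀ (L : Type u) [Field L] [Algebra k L], cone ξ L = V (idl ξ L)
  spanmap : ∀ (L : Type u) [Field L] [Algebra k L],
    idl ξ L = (idl ξ k).map (MvPolynomial.map (algebraMap k L))
  /-- `x0, x3` have no common zero -/
  ncz : ∀ (L : Type u) [Field L] [Algebra k L], ∀ v ∈ cone ξ L, v 0 = 0 → v 3 = 0 → v = 0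
  /-- order of vanishing at `P1` -/
  maxv : ∀ (h : P4 k) (j : ℕ), h.IsHomogeneous j → aeval ξ h ≠ 0 →
    (aeval ξ h : PowerSeries k).order ≤ (D * j : ℕ)
  /-- forms with given values on a finite set and given high order at `P1` -/
  form : ∀ (K : ℕ), 0 < K → ∀ (Z : Finset (Fin 4 → k)),
    (∀ z ∈ Z, z ∈ cone ξ k ∧ Nrm z ∧ z ≠ P1 ξ) → ∃ N0 : ℕ, ∀ N, N0 ≤ N → ∀ e : ℕ,
      K * e ≤ (K - 1) * (D * N) → ∀ val : (Fin 4 → k) → k, ∃ s : P4 k, s.IsHomogeneous N ∧
        (∀ z ∈ Z, eval z s = val z) ∧ (aeval ξ s : PowerSeries k).order = (e : ℕ)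
  /-- zeros of a nonzero form over `k` are finitely many `k`-points -/
  finz : ∀ (h : P4 k), Form h → aeval ξ h ≠ 0 → ∃ Z : Finset (Fin 4 → k),
    (∀ z ∈ Z, z ∈ cone ξ k ∧ Nrm z ∧ eval z h = 0) ∧
    ∀ (L : Type u) [Field L] [Algebra k L], ∀ v ∈ cone ξ L, aeval v h = 0 →
      v = 0 ∨ ∃ z ∈ Z, ∃ l : L, v = fun i => l * algebraMap k L (z i)
  δbin : Bin δ
  δP1 : eval (P1 ξ) δ ≠ 0
  /-- the projection to `(x0,x1,x3)` is injective off `δ = 0` -/
  bir : ∀ (L : Type u) [Field L] [Algebra k L], ∀ v ∈ cone ξ L, ∀ v' ∈ cone ξ L,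
    v 0 = v' 0 → v 1 = v' 1 → v 3 = v' 3 → aeval v δ ≠ 0 → v = v'
  /-- a form separating the fibre `x3 = 0` separates almost all fibres of `(x0,x3)` -/
  prim : ∀ (s : P4 k), Form s →
    (∀ z ∈ cone ξ k, ∀ z' ∈ cone ξ k, z 0 = 1 → z' 0 = 1 → z 3 = 0 → z' 3 = 0 →
      eval z s = eval z' s → z = z') →
    ∃ h : P4 k, Bin h ∧ eval (P1 ξ) h ≠ 0 ∧
      ∀ (L : Type u) [Field L] [Algebra k L], ∀ v ∈ cone ξ L, ∀ v' ∈ cone ξ L,
        v 0 = v' 0 → v 3 = v' 3 → aeval v s = aeval v' s → aeval v h ≠ 0 → v = v'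
  /-- tangent vectors exist on the chart -/
  tan : ∀ (L : Type u) [Field L] [Algebra k L], ∀ v ∈ cone ξ L, v 0 = 1 → aeval v δ ≠ 0 →
    ∃ w, Tan ξ v w
  /-- and are given by a formula -/
  tanf : ∃ (r : ℕ) (τ : Fin 4 → P4 k), ∀ (R : Type u) [CommRing R] [Algebra k R] (v w : Fin 4 → R),
    v 0 = 1 → Tan ξ v w → ∀ i, aeval v δ ^ r * w i = aeval v (τ i)
  /-- `x3 - v3 x0` is a local parameter -/
  loc : ∀ (L : Type u) [Field L] [Algebra k L], ∀ v ∈ cone ξ L, v 0 = 1 → aeval v δ ≠ 0 →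
    ∀ g : P4 L, Form g → eval v g = 0 → ∃ h1 h2 : P4 L, Form h1 ∧ Form h2 ∧ eval v h1 ≠ 0 ∧
      h1 * g - h2 * (X 3 - C (v 3) * X 0) ∈ idl ξ L
  /-- normalised points are algebraic over their `x`-coordinate -/
  alg : ∀ (L : Type u) [Field L] [Algebra k L], ∀ v ∈ cone ξ L, v 0 = 1 → ∀ i,
    IsIntegral (Algebra.adjoin k {v 3}) (v i)
  /-- a point with transcendental `x`-coordinate is generic -/
  inj : ∀ (L M : Type u) [Field L] [Algebra k L] [Field M] [Algebra k M] [Algebra L M]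
    [IsScalarTower k L M], ∀ v ∈ cone ξ M, v 0 = 1 → Transcendental L (v 3) →
      ∀ g : P4 L, aeval v g = 0 → iota ξ L g = 0
  /-- conversely every relation on the branch holds at every normalised point -/
  spec : ∀ (L R : Type u) [Field L] [Algebra k L] [CommRing R] [Algebra k R] [Algebra L R]
    [IsScalarTower k L R], ∀ v ∈ cone ξ R, v 0 = 1 → ∀ g : P4 L, iota ξ L g = 0 → aeval v g = 0
  /-- number of zeros of a form -/
  zero : ∀ (L : Type u) [Field L] [Algebra k L] (h : P4 L) (j : ℕ), h.IsHomogeneous j →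
    iota ξ L h ≠ 0 → ∀ Z : Finset (Fin 4 → L),
      (∀ z ∈ Z, z ∈ cone ξ L ∧ Nrm z ∧ eval z h = 0) → Z.card ≤ D * j + c

/-- PART C. -/
def C_s : Prop := ∀ (k : Type u) [Field k] [IsAlgClosed k] (p : ℕ) [Fact p.Prime] [CharP k p]
  (P : Ideal (P4 k)), P.IsPrime → ringKrullDim (P4 k ⧸ P) = 2 →
  (∀ h ∈ P, ∀ d, homogeneousComponent d h ∈ P) →
  ∃ (A : P4 k ≃ₐ[k] P4 k) (ξ : Fin 4 → PowerSeries k) (D c : ℕ) (δ : P4 k),
    (∀ h d, h.IsHomogeneous d → (A h).IsHomogeneous d) ∧ Good ξ D c δ ∧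
    P = (idl ξ k).map (A : P4 k →+* P4 k)

/-- values of three polynomials -/
noncomputable def val3 {K : Type u} [Field K] (a : Fin 3 → P4 K) (v : Fin 4 → K) : Fin 3 → K :=
  fun i => eval v (a i)

/-- the weights of the plane -/
def wt (Q : ℕ) : Fin 3 → ℕ := ![1, 1, Q]

/-- projection of the cone `V I` to the weighted plane, with image `F = 0`. -/
structure Plane {K : Type u} [Field K] (p : ℕ) (I : Ideal (P4 K)) (m Q : ℕ) (a : Fin 3 → P4 K)
    (F : P3 K) (n' : ℕ) : Prop where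
  prime : I.IsPrime
  comp : ∀ h ∈ I, ∀ d, homogeneousComponent d h ∈ I
  hm : ∃ i, m = p ^ i
  hQ : ∃ i, Q = p ^ (i + 1)
  ha : ∀ i, (a i).IsHomogeneous (m * wt Q i)
  ncz : ∀ v ∈ V I, eval v (a 0) = 0 → eval v (a 1) = 0 → v = 0
  hF : F.IsWeightedHomogeneous (wt Q) (n' * Q)
  monic : coeff (Finsupp.single 2 n') F = 1
  npos : 0 < n'
  ker : ∀ g : P3 K, aeval a g ∈ I ↔ F ∣ g

/-- two different points of the cone with the same image -/
def Node {K : Type u} [Field K] (I : Ideal (P4 K)) (a : Fin 3 → P4 K) (v v' : Fin 4 → K) : Prop :=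
  v ∈ V I ∧ v' ∈ V I ∧ v ≠ v' ∧ val3 a v = val3 a v'

/-- all multiple points are ordinary nodes and `Γ` is a local parameter on every branch. -/
structure Nodal {K : Type u} [Field K] (I : Ideal (P4 K)) (Q : ℕ) (a : Fin 3 → P4 K) (Γ : P3 K)
    (γ : ℕ) : Prop where
  hΓ : Γ.IsWeightedHomogeneous (wt Q) γ
  notin : aeval a Γ ∉ I
  two : ∀ v v', Node I a v v' → ∀ v'' ∈ V I, val3 a v'' = val3 a v → v'' = v ∨ v'' = v'
  a0 : ∀ v v', Node I a v v' → eval v (a 0) ≠ 0
  van : ∀ v v', Node I a v v' → eval (val3 a v) Γ = 0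
  loc : ∀ v v', Node I a v v' → ∀ g : P4 K, Form g → eval v g = 0 →
    ∃ h1 h2 : P4 K, Form h1 ∧ Form h2 ∧ eval v h1 ≠ 0 ∧ h1 * g - h2 * aeval a Γ ∈ I
  sep : ∀ v v', Node I a v v' → ∃ (e : P3 K) (j : ℕ) (h1 h2 h1' h2' : P4 K),
    e.IsWeightedHomogeneous (wt Q) j ∧ eval v h1 ≠ 0 ∧ eval v' h1' ≠ 0 ∧
    h1 * aeval a e - h2 * aeval a Γ ∈ I ∧ h1' * aeval a e - h2' * aeval a Γ ∈ I ∧
    eval v h2 * eval v' h1' ≠ eval v' h2' * eval v h1

/-- PART E (all `p`). -/
def E_s (p : ℕ) : Prop := ∀ (K : Type u) [Field K] [IsAlgClosed K] [Fact p.Prime] [CharP K p]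
  (I : Ideal (P4 K)) (m Q : ℕ) (a : Fin 3 → P4 K) (F Γ : P3 K) (n' γ n c : ℕ),
  Plane p I m Q a F n' → Nodal I Q a Γ γ →
  (∀ v v', Node I a v v' → v 0 ≠ v' 0) →
  100 * p * γ ≤ n' * Q → 100 * c ≤ n' → 10 * n ≤ 11 * n' → 100 * p ^ 2 ≤ n' →
  (∀ (g : P3 K) (j : ℕ), g.IsWeightedHomogeneous (wt Q) j → ¬ F ∣ g →
    ∀ T : Finset (Fin 4 → K), (∀ v ∈ T, v ∈ V I ∧ eval v (a 0) = 1 ∧ eval (val3 a v) g = 0) →
      T.card ≤ n * j + c) →
  Cut ![m, m, m * Q, 1]
    (Set.range fun v : V I => ![eval v.1 (a 0), eval v.1 (a 1), eval v.1 (a 2), v.1 0])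

/-- the five cubics `x0^3, x0^2 x3, x0 x3^2, x3^3, x0^2 x1` -/
noncomputable def cub (K : Type u) [CommRing K] : Fin 5 → P4 K :=
  ![X 0 ^ 3, X 0 ^ 2 * X 3, X 0 * X 3 ^ 2, X 3 ^ 3, X 0 ^ 2 * X 1]

/-- the generic triple `(s0, x3^m + σ x0^m, y0 + G * Σ τ_i cub_i)` -/
noncomputable def trip {k : Type u} [Field k] (Ω : Type u) [Field Ω] [Algebra k Ω] (m : ℕ)
    (s0 y0 G : P4 k) (σ : Ω) (τ : Fin 5 → Ω) : Fin 3 → P4 Ω :=
  ![MvPolynomial.map (algebraMap k Ω) s0, X 3 ^ m + C σ * X 0 ^ m,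
    MvPolynomial.map (algebraMap k Ω) y0 +
      MvPolynomial.map (algebraMap k Ω) G * ∑ i, C (τ i) * cub Ω i]

/-- the data PART M hands to PART N. `e none = σ`, `e (some i) = τ i`. -/
structure Data {k : Type u} [Field k] (p : ℕ) (ξ : Fin 4 → PowerSeries k) (D : ℕ)
    (Ω : Type u) [Field Ω] [Algebra k Ω] (e : Option (Fin 5) → Ω) (m Q a e0 dG : ℕ)
    (s0 y0 G : P4 k) : Prop where
  ind : AlgebraicIndependent k e
  algΩ : Algebra.IsAlgebraic (Algebra.adjoin k (Set.range e)) Ω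
  hm : ∃ i, m = p ^ (i + 1)
  hQ : ∃ i, Q = p ^ (i + 1)
  hs : s0.IsHomogeneous m
  hy : y0.IsHomogeneous (m * Q)
  hG : G.IsHomogeneous dG
  hdG : dG + 3 = m * Q
  os : (aeval ξ s0 : PowerSeries k).order = (a : ℕ)
  oy : (aeval ξ y0 : PowerSeries k).order = (e0 : ℕ)
  oG : (aeval ξ G : PowerSeries k).order = (e0 + 1 : ℕ)
  a3 : 3 ≤ a
  pa : ¬ p ∣ a
  e1 : e0 % a = 1
  big : 10 ^ 6 * p ^ 2 * (D * m * Q - min e0 (a * Q)) ≤ D * m * Q
  mbig : 10 ^ 6 * p ^ 2 ≤ m
  /-- the state `(s0, x0, x3, y)` is injective -/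
  injS : ∀ v ∈ cone ξ Ω, ∀ v' ∈ cone ξ Ω, v 0 = v' 0 → v 3 = v' 3 →
    val3 (trip Ω m s0 y0 G (e none) (fun i => e (some i))) v =
      val3 (trip Ω m s0 y0 G (e none) (fun i => e (some i))) v' → v = v'
  /-- multiples of `k`-points are never nodes -/
  rat : ∀ z ∈ cone ξ k, ∀ z' ∈ cone ξ k, ∀ l l' : Ω,
    val3 (trip Ω m s0 y0 G (e none) (fun i => e (some i))) (fun i => l * algebraMap k Ω (z i)) =
      val3 (trip Ω m s0 y0 G (e none) (fun i => e (some i))) (fun i => l' * algebraMap k Ω (z' i)) →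
    (fun i => l * algebraMap k Ω (z i)) = (fun i => l' * algebraMap k Ω (z' i))

/-- PART N. -/
def N_s : Prop := ∀ (k : Type u) [Field k] [IsAlgClosed k] (p : ℕ) [Fact p.Prime] [CharP k p]
  (ξ : Fin 4 → PowerSeries k) (D c : ℕ) (δ : P4 k) (Ω : Type u) [Field Ω] [IsAlgClosed Ω]
  [Algebra k Ω] (e : Option (Fin 5) → Ω) (m Q a e0 dG : ℕ) (s0 y0 G : P4 k),
  Good ξ D c δ → Data p ξ D Ω e m Q a e0 dG s0 y0 G →
  ∃ (F Γ : P3 Ω) (n' γ : ℕ),
    Plane p (idl ξ Ω) m Q (trip Ω m s0 y0 G (e none) (fun i => e (some i))) F n' ∧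
    Nodal (idl ξ Ω) Q (trip Ω m s0 y0 G (e none) (fun i => e (some i))) Γ γ ∧
    a ≤ n' ∧ 100 * p * γ ≤ n' * Q

/-- PART M: everything else over `Ω`, then descent. -/
def M_s (p : ℕ) : Prop := N_s.{u} → E_s.{u} p →
  ∀ (k : Type u) [Field k] [IsAlgClosed k] [Fact p.Prime] [CharP k p]
    (ξ : Fin 4 → PowerSeries k) (D c : ℕ) (δ : P4 k), Good ξ D c δ →
    ∃ f g : P4 k, Form f ∧ Form g ∧ (Ideal.span {f, g}).radical = idl ξ k

/-- The theorem. -/
def Main_s (p : ℕ) : Prop := ∀ (k : Type u) [Field k] [IsAlgClosed k] [Fact p.Prime] [CharP k p]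
  (P : Ideal (P4 k)) (s : Finset (P4 k)), P.IsPrime → ringKrullDim (P4 k ⧸ P) = 2 →
  (∀ f ∈ s, ∃ d : ℕ, f.IsHomogeneous d) → Ideal.span (s : Set (P4 k)) = P →
  ∃ F G : P4 k, (∃ d : ℕ, F.IsHomogeneous d) ∧ (∃ e : ℕ, G.IsHomogeneous e) ∧
    (Ideal.span ({F, G} : Set (P4 k))).radical = P

def TOP_s : Prop := ∀ p, C_s.{u} → N_s.{u} → E_s.{u} p → M_s.{u} p → Main_s.{u} p

end H39c

end PartH39cDefs

section PartH39cTop

set_option autoImplicit false

open MvPolynomial

namespace H39c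

universe u

theorem top_comp {k : Type u} [Field k] (s : Finset (P4 k))
    (hs : ∀ f ∈ s, ∃ d : ℕ, f.IsHomogeneous d) (h : P4 k)
    (hh : h ∈ Ideal.span (s : Set (P4 k))) (d : ℕ) :
    homogeneousComponent d h ∈ Ideal.span (s : Set (P4 k)) := by
  classical
  let _ : GradedAlgebra (homogeneousSubmodule (Fin 4) k) := MvPolynomial.gradedAlgebra
  have hI : (Ideal.span (s : Set (P4 k))).IsHomogeneous (homogeneousSubmodule (Fin 4) k) := by
    apply Ideal.homogeneous_span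
    intro x hx
    obtain ⟨d, hd⟩ := hs x hx
    exact ⟨d, hd⟩
  have h1 := hI d hh
  have h2 : ((DirectSum.decompose (homogeneousSubmodule (Fin 4) k) h d : _) : P4 k) =
      homogeneousComponent d h := MvPolynomial.decomposition.decompose'_apply h d
  rwa [h2] at h1

theorem top_part : TOP_s.{u} := by
  intro p hC hN hE hM k _ _ _ _ P s hP hdim hs hspan
  obtain ⟨A, ξ, D, c, δ, hA, hG, hPA⟩ := hC k p P hP hdim (by
    intro h hh d
    rw [← hspan] at hh ⊢
    exact top_comp s hs h hh d)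
  obtain ⟨f, g, ⟨d, hf⟩, ⟨e, hg⟩, hr⟩ := hM hN hE k ξ D c δ hG
  refine ⟨A f, A g, ⟨d, hA f d hf⟩, ⟨e, hA g e hg⟩, ?_⟩
  rw [hPA, ← hr]
  have hsurj : Function.Surjective (A : P4 k →+* P4 k) := A.surjective
  have hker : RingHom.ker (A : P4 k →+* P4 k) = ⊥ :=
    (RingHom.injective_iff_ker_eq_bot _).1 A.injective
  rw [Ideal.map_radical_of_surjective hsurj (by rw [hker]; exact bot_le), Ideal.map_span]
  congr 2
  ext x
  simp [eq_comm]

end H39c

end PartH39cTop

section PartH39cMStm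

set_option autoImplicit false

open MvPolynomial

namespace H39c

universe u

/-- Pull back along an injective weighted map after a Frobenius twist. -/
def PULL_s : Prop := ∀ (K : Type u) [Field K] [IsAlgClosed K] (p : ℕ) [Fact p.Prime] [CharP K p]
  (T : Type u) (Φ Φ' : T → Fin 4 → K) (w w' : Fin 4 → ℕ) (j : ℕ) (θ : Fin 4 → P4 K),
  (∀ i, (θ i).IsWeightedHomogeneous w (p ^ j * w' i)) →
  (∀ x y : Fin 4 → K, (∀ i, eval x (θ i) = eval y (θ i)) → x = y) →
  (∀ t i, eval (Φ t) (θ i) = Φ' t i ^ p ^ j) →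
  Cut w' (Set.range Φ') → Cut w (Set.range Φ)

/-- A form constant on the fibres of three forms has a power which is a weighted form in them. -/
def MOVE_s : Prop := ∀ (K : Type u) [Field K] [IsAlgClosed K] (p : ℕ) [Fact p.Prime] [CharP K p]
  (I : Ideal (P4 K)) (a : Fin 3 → P4 K) (w : Fin 3 → ℕ) (b : P4 K) (N : ℕ),
  (∀ h ∈ I, ∀ d, homogeneousComponent d h ∈ I) → (∀ i, 0 < w i) →
  (∀ i, (a i).IsHomogeneous (w i)) → (∀ v ∈ V I, val3 a v = 0 → v = 0) → b.IsHomogeneous N →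
  (∀ v ∈ V I, ∀ v' ∈ V I, val3 a v = val3 a v' → eval v b = eval v' b) →
  ∃ (j : ℕ) (g : P3 K), g.IsWeightedHomogeneous w (p ^ j * N) ∧
    ∀ v ∈ V I, eval v b ^ p ^ j = eval (val3 a v) g

/-- The three moves, as a statement on an arbitrary homogeneous ideal. -/
def BACK_s : Prop := PULL_s.{u} → MOVE_s.{u} →
  ∀ (K : Type u) [Field K] [IsAlgClosed K] (p : ℕ) [Fact p.Prime] [CharP K p]
  (I : Ideal (P4 K)) (i1 i2 : ℕ) (s y : P4 K) (σ : K),
  (∀ h ∈ I, ∀ d, homogeneousComponent d h ∈ I) → (∀ v ∈ V I, v 0 = 0 → v 3 = 0 → v = 0) →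
  s.IsHomogeneous (p ^ i1) → y.IsHomogeneous (p ^ i1 * p ^ i2) →
  (∀ v ∈ V I, ∀ v' ∈ V I, v 0 = v' 0 → v 1 = v' 1 → v 3 = v' 3 →
    eval v s - v 2 ^ p ^ i1 = eval v' s - v' 2 ^ p ^ i1) →
  (∀ v ∈ V I, ∀ v' ∈ V I, v 0 = v' 0 → v 3 = v' 3 → eval v s = eval v' s →
    eval v y - v 1 ^ (p ^ i1 * p ^ i2) = eval v' y - v' 1 ^ (p ^ i1 * p ^ i2)) →
  Cut ![p ^ i1, p ^ i1, p ^ i1 * p ^ i2, 1] (Set.range fun v : V I =>
    ![eval v.1 s, eval v.1 (X 3 ^ p ^ i1 + C σ * X 0 ^ p ^ i1), eval v.1 y, v.1 0]) →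
  Cut ![1, 1, 1, 1] (V I)

/-- choice of `m` and `a` -/
def NUM1_s : Prop := ∀ (p K D B : ℕ), p.Prime → 3 ≤ K → 0 < D → ∃ i a : ℕ, B ≤ p ^ (i + 1) ∧ B ≤ a ∧
  K * a ≤ (K - 1) * (D * p ^ (i + 1)) ∧ (K - 2) * (D * p ^ (i + 1)) ≤ K * a ∧ ¬ p ∣ a

/-- choice of `Q` and `e0` -/
def NUM2_s : Prop := ∀ (p K D m a B : ℕ), p.Prime → 3 ≤ K → 0 < D → 0 < m → 3 ≤ a →
  ∃ i e0 dG : ℕ, dG + 3 = m * p ^ (i + 1) ∧ B ≤ dG ∧ e0 % a = 1 ∧
    K * (e0 + 1) ≤ (K - 1) * (D * dG) ∧ (K - 2) * (D * m * p ^ (i + 1)) ≤ K * e0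

/-- the field of the generic parameters -/
def OMEGA_s : Prop := ∀ (k : Type u) [Field k], ∃ (Ω : Type u) (_ : Field Ω) (_ : IsAlgClosed Ω)
  (_ : Algebra k Ω) (e : Option (Fin 5) → Ω), AlgebraicIndependent k e ∧
    Algebra.IsAlgebraic (Algebra.adjoin k (Set.range e)) Ω

/-- descent to the ground field -/
def DESC_s : Prop := ∀ (k : Type u) [Field k] [IsAlgClosed k] (Ω : Type u) [Field Ω] [IsAlgClosed Ω]
  [Algebra k Ω] (I : Ideal (P4 k)), I.IsPrime →
  Cut ![1, 1, 1, 1] (V (I.map (MvPolynomial.map (algebraMap k Ω)))) →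
  ∃ f g : P4 k, Form f ∧ Form g ∧ (Ideal.span {f, g}).radical = I

/-- first form: order `a`, moves `x2`, and separates almost all fibres of `(x0,x3)` -/
def S0_s : Prop := ∀ (k : Type u) [Field k] [IsAlgClosed k] (p : ℕ) [Fact p.Prime] [CharP k p]
  (ξ : Fin 4 → PowerSeries k) (D c : ℕ) (δ : P4 k), Good ξ D c δ → ∀ K : ℕ, 0 < K →
  ∃ N0 : ℕ, ∀ m a : ℕ, N0 ≤ m → 0 < a → K * a ≤ (K - 1) * (D * m) →
    ∃ s0 h : P4 k, s0.IsHomogeneous m ∧ (aeval ξ s0 : PowerSeries k).order = (a : ℕ) ∧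
      Bin h ∧ eval (P1 ξ) h ≠ 0 ∧
      ∀ (L : Type u) [Field L] [Algebra k L],
        (∀ v ∈ cone ξ L, ∀ v' ∈ cone ξ L, v 0 = v' 0 → v 1 = v' 1 → v 3 = v' 3 →
          aeval v s0 - v 2 ^ m = aeval v' s0 - v' 2 ^ m) ∧
        (∀ v ∈ cone ξ L, ∀ v' ∈ cone ξ L, v 0 = v' 0 → v 3 = v' 3 →
          aeval v s0 = aeval v' s0 → aeval v h ≠ 0 → v = v')

/-- What the second form does at the zeros of `s0` and of `h`. -/
def Ydata {k : Type u} [Field k] (ξ : Fin 4 → PowerSeries k) (s0 h y0 G : P4 k) (N : ℕ)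
    (l0 l3 : k) : Prop :=
  ∀ (L : Type u) [Field L] [Algebra k L], ∀ v ∈ cone ξ L, aeval v (s0 * h) = 0 →
    v = 0 ∨ ∃ z ∈ cone ξ k, ∃ l : L, v = (fun i => l * algebraMap k L (z i)) ∧
      (z = P1 ξ ∨ (z 1 + l0 * z 0 + l3 * z 3 ≠ 0 ∧
        eval z y0 = (z 1 + l0 * z 0 + l3 * z 3) ^ N ∧ eval z G = 0))

/-- second forms -/
def Y0_s : Prop := ∀ (k : Type u) [Field k] [IsAlgClosed k]
  (ξ : Fin 4 → PowerSeries k) (D c : ℕ) (δ : P4 k), Good ξ D c δ → ∀ K : ℕ, 0 < K →
  ∀ s0 h : P4 k, Form s0 → Form h → (aeval ξ s0 : PowerSeries k) ≠ 0 → eval (P1 ξ) h ≠ 0 →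
  ∃ (N0 : ℕ) (l0 l3 : k), ∀ dG e0 : ℕ, N0 ≤ dG → K * (e0 + 1) ≤ (K - 1) * (D * dG) →
    ∃ y0 G : P4 k, y0.IsHomogeneous (dG + 3) ∧ G.IsHomogeneous dG ∧
      (aeval ξ y0 : PowerSeries k).order = (e0 : ℕ) ∧
      (aeval ξ G : PowerSeries k).order = (e0 + 1 : ℕ) ∧ Ydata ξ s0 h y0 G (dG + 3) l0 l3

/-- the check for the second move -/
def MV2_s : Prop := ∀ (k : Type u) [Field k] (p : ℕ) [Fact p.Prime] [CharP k p]
  (ξ : Fin 4 → PowerSeries k) (D c : ℕ) (δ : P4 k), Good ξ D c δ →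
  ∀ (Ω : Type u) [Field Ω] [Algebra k Ω] (m i dG : ℕ) (s0 h y0 G : P4 k) (l0 l3 : k) (σ : Ω)
    (τ : Fin 5 → Ω), y0.IsHomogeneous (p ^ i) → G.IsHomogeneous dG → Bin h → eval (P1 ξ) h ≠ 0 →
    Ydata ξ s0 h y0 G (p ^ i) l0 l3 →
    (∀ v ∈ cone ξ Ω, ∀ v' ∈ cone ξ Ω, v 0 = v' 0 → v 3 = v' 3 →
      aeval v s0 = aeval v' s0 → aeval v h ≠ 0 → v = v') →
    ∀ v ∈ cone ξ Ω, ∀ v' ∈ cone ξ Ω, v 0 = v' 0 → v 3 = v' 3 → aeval v s0 = aeval v' s0 →
      eval v (trip Ω m s0 y0 G σ τ 2) - v 1 ^ p ^ i =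
        eval v' (trip Ω m s0 y0 G σ τ 2) - v' 1 ^ p ^ i

/-- multiples of rational points are not nodes -/
def RAT_s : Prop := ∀ (k : Type u) [Field k] [IsAlgClosed k] (p : ℕ) [Fact p.Prime] [CharP k p]
  (ξ : Fin 4 → PowerSeries k) (D c : ℕ) (δ : P4 k), Good ξ D c δ →
  ∀ (Ω : Type u) [Field Ω] [Algebra k Ω] (i1 i dG : ℕ) (s0 h y0 G : P4 k) (l0 l3 : k) (σ : Ω)
    (τ : Fin 5 → Ω), Transcendental k σ → s0.IsHomogeneous (p ^ i1) → y0.IsHomogeneous (p ^ i) →
    G.IsHomogeneous dG → eval (P1 ξ) y0 = 0 → eval (P1 ξ) G = 0 →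
    Ydata ξ s0 h y0 G (p ^ i) l0 l3 →
    (∀ v ∈ cone ξ Ω, ∀ v' ∈ cone ξ Ω, v 0 = v' 0 → v 3 = v' 3 →
      val3 (trip Ω (p ^ i1) s0 y0 G σ τ) v = val3 (trip Ω (p ^ i1) s0 y0 G σ τ) v' → v = v') →
    ∀ z ∈ cone ξ k, ∀ z' ∈ cone ξ k, ∀ l l' : Ω,
      val3 (trip Ω (p ^ i1) s0 y0 G σ τ) (fun i => l * algebraMap k Ω (z i)) =
        val3 (trip Ω (p ^ i1) s0 y0 G σ τ) (fun i => l' * algebraMap k Ω (z' i)) →
      (fun i => l * algebraMap k Ω (z i)) = (fun i => l' * algebraMap k Ω (z' i))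

/-- the count of zeros handed to PART E -/
def ZERO_s : Prop := ∀ (k : Type u) [Field k] (p : ℕ) [Fact p.Prime] [CharP k p]
  (ξ : Fin 4 → PowerSeries k) (D c : ℕ) (δ : P4 k), Good ξ D c δ →
  ∀ (Ω : Type u) [Field Ω] [Algebra k Ω] (m Q n' : ℕ) (a : Fin 3 → P4 Ω) (F : P3 Ω),
    Plane p (idl ξ Ω) m Q a F n' →
    ∀ (g : P3 Ω) (j : ℕ), g.IsWeightedHomogeneous (wt Q) j → ¬ F ∣ g →
      ∀ T : Finset (Fin 4 → Ω), (∀ v ∈ T, v ∈ V (idl ξ Ω) ∧ eval v (a 0) = 1 ∧
        eval (val3 a v) g = 0) → T.card ≤ D * m * j + c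

def MMAIN_s : Prop := PULL_s.{u} → MOVE_s.{u} → BACK_s.{u} → NUM1_s → NUM2_s → OMEGA_s.{u} →
  DESC_s.{u} → S0_s.{u} → Y0_s.{u} → MV2_s.{u} → RAT_s.{u} → ZERO_s.{u} → ∀ p, M_s.{u} p

end H39c

end PartH39cMStm

section PartH39cMMain

set_option autoImplicit false

open MvPolynomial

namespace H39c

universe u

theorem mm_P1 {k : Type u} [Field k] (ξ : Fin 4 → PowerSeries k) (h : P4 k) :
    eval (P1 ξ) h = PowerSeries.constantCoeff (aeval ξ h : PowerSeries k) := by
  induction h using MvPolynomial.induction_on with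
  | C r => simp
  | add f g hf hg => simp only [map_add, hf, hg]
  | mul_X f i hf => simp only [map_mul, hf, aeval_X, eval_X, P1]

theorem mm_P1_zero {k : Type u} [Field k] (ξ : Fin 4 → PowerSeries k) (h : P4 k) (e : ℕ)
    (he : 0 < e) (ho : (aeval ξ h : PowerSeries k).order = (e : ℕ)) : eval (P1 ξ) h = 0 := by
  rw [mm_P1, ← PowerSeries.coeff_zero_eq_constantCoeff_apply]
  apply PowerSeries.coeff_of_lt_order
  rw [ho]; exact_mod_cast he

theorem mm_big (P n Q a e0 : ℕ) (h1 : (10 * P - 2) * n ≤ 10 * P * a)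
    (h2 : (10 * P - 2) * (n * Q) ≤ 10 * P * e0) (hP : 0 < P) :
    P * (n * Q - min e0 (a * Q)) ≤ n * Q := by
  have h3 : (10 * P - 2) * (n * Q) ≤ 10 * P * min e0 (a * Q) := by
    rcases le_total e0 (a * Q) with h | h
    · rwa [min_eq_left h]
    · rw [min_eq_right h]
      calc (10 * P - 2) * (n * Q) = (10 * P - 2) * n * Q := by ring
        _ ≤ 10 * P * a * Q := Nat.mul_le_mul_right _ h1
        _ = 10 * P * (a * Q) := by ring
  generalize min e0 (a * Q) = μ at h3
  generalize n * Q = N at h3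
  obtain ⟨R, hR⟩ : ∃ R, 10 * P = R + 2 := ⟨10 * P - 2, by omega⟩
  rw [hR, Nat.add_sub_cancel, ← hR] at h3
  rcases le_total N μ with h | h
  · rw [Nat.sub_eq_zero_of_le h]; simp
  · obtain ⟨t, rfl⟩ := Nat.exists_eq_add_of_le h
    rw [Nat.add_sub_cancel_left]
    have : 10 * P * (μ + t) = R * (μ + t) + 2 * (μ + t) := by rw [hR]; ring
    nlinarith

theorem m_main : MMAIN_s.{u} := by
  intro hPULL hMOVE hBACK hN1 hN2 hOM hDESC hS0 hY0 hMV2 hRAT hZERO p hN hE k _ _ _ _ ξ D c δ hG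
  classical
  have hp : p.Prime := Fact.out
  set P : ℕ := 10 ^ 6 * p ^ 2 with hP
  have hp2 : 4 ≤ p ^ 2 := by nlinarith [hp.two_le]
  have hP0 : 0 < P := by rw [hP]; positivity
  have hP1 : 10 ^ 6 * 4 ≤ P := Nat.mul_le_mul_left _ hp2
  obtain ⟨N0, hS⟩ := hS0 k p ξ D c δ hG (10 * P) (by omega)
  obtain ⟨i1, a, hm1, ha1, ha2, ha3, hpa⟩ :=
    hN1 p (10 * P) D (N0 + P + 100 * c + 3) hp (by omega) hG.hD
  set m : ℕ := p ^ (i1 + 1) with hm
  have hm0 : 0 < m := pow_pos hp.pos _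
  obtain ⟨s0, h, hs0, os, hbin, hP1h, hL⟩ := hS m a (by omega) (by omega) ha2
  have hs0ne : (aeval ξ s0 : PowerSeries k) ≠ 0 := by
    intro h0
    rw [h0, PowerSeries.order_zero] at os
    exact ENat.top_ne_natCast _ os
  obtain ⟨N1, l0, l3, hY⟩ := hY0 k ξ D c δ hG (10 * P) (by omega) s0 h ⟨m, hs0⟩ hbin.1 hs0ne hP1h
  obtain ⟨i2, e0, dG, hdG, hB, he1, he2, he3⟩ :=
    hN2 p (10 * P) D m a N1 hp (by omega) hG.hD hm0 (by omega)
  set Q : ℕ := p ^ (i2 + 1) with hQ
  obtain ⟨y0, G, hy0, hGh, oy, oG, hYd⟩ := hY dG e0 hB he2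
  rw [hdG] at hy0 hYd
  have hmQ : m * Q = p ^ (i1 + 1 + (i2 + 1)) := by rw [pow_add]
  obtain ⟨Ω, _, _, _, e, hind, halg⟩ := hOM k
  have : CharP Ω p := charP_of_injective_algebraMap (algebraMap k Ω).injective p
  have he0 : 0 < e0 := by
    rcases Nat.eq_zero_or_pos e0 with h0 | h0
    · rw [h0, Nat.zero_mod] at he1; omega
    · exact h0
  set A := trip Ω m s0 y0 G (e none) (fun i => e (some i)) with hA
  have hA0 : ∀ v : Fin 4 → Ω, eval v (A 0) = aeval v s0 := fun v => by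
    simp only [hA, trip, Matrix.cons_val_zero, eval_map, aeval_def]
  have hA1 : ∀ v : Fin 4 → Ω, eval v (A 1) = v 3 ^ m + e none * v 0 ^ m := fun v => by
    simp [hA, trip]
  have hmv1 := (hL Ω).1
  have hmv2 : ∀ v ∈ cone ξ Ω, ∀ v' ∈ cone ξ Ω, v 0 = v' 0 → v 3 = v' 3 →
      aeval v s0 = aeval v' s0 →
      eval v (A 2) - v 1 ^ (m * Q) = eval v' (A 2) - v' 1 ^ (m * Q) := by
    rw [hmQ]
    exact hMV2 k p ξ D c δ hG Ω m _ dG s0 h y0 G l0 l3 (e none) (fun i => e (some i))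
      (hmQ ▸ hy0) hGh hbin hP1h (hmQ ▸ hYd) (hL Ω).2
  have hinjS : ∀ v ∈ cone ξ Ω, ∀ v' ∈ cone ξ Ω, v 0 = v' 0 → v 3 = v' 3 →
      val3 A v = val3 A v' → v = v' := by
    intro v hv v' hv' h0 h3 hval
    have e0' : aeval v s0 = aeval v' s0 := by
      rw [← hA0, ← hA0]; exact congrFun hval 0
    have e2' : eval v (A 2) = eval v' (A 2) := congrFun hval 2
    have h1 : v 1 = v' 1 := by
      have := hmv2 v hv v' hv' h0 h3 e0'
      rw [e2', sub_right_inj, hmQ] at this
      exact H33s.pow_q_inj p _ this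
    have h2 : v 2 = v' 2 := by
      have := hmv1 v hv v' hv' h0 h1 h3
      rw [e0', sub_right_inj] at this
      exact H33s.pow_q_inj p _ this
    funext i
    fin_cases i <;> assumption
  have hdata : Data p ξ D Ω e m Q a e0 dG s0 y0 G :=
    { ind := hind, algΩ := halg, hm := ⟨i1, rfl⟩, hQ := ⟨i2, rfl⟩, hs := hs0, hy := hy0,
      hG := hGh, hdG := hdG, os := os, oy := oy, oG := oG, a3 := by omega, pa := hpa, e1 := he1,
      big := mm_big P (D * m) Q a e0 ha3 he3 hP0, mbig := by omega, injS := hinjS,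
      rat := hRAT k p ξ D c δ hG Ω (i1 + 1) _ dG s0 h y0 G l0 l3 (e none) (fun i => e (some i))
        (hind.transcendental none) hs0 (hmQ ▸ hy0) hGh (mm_P1_zero ξ y0 e0 he0 oy)
        (mm_P1_zero ξ G (e0 + 1) (by omega) oG) (hmQ ▸ hYd) hinjS }
  obtain ⟨F, Γ, n', γ, hPl, hNod, han, hγ⟩ := hN k p ξ D c δ Ω e m Q a e0 dG s0 y0 G hG hdata
  have hV : cone ξ Ω = V (idl ξ Ω) := hG.coneV Ω
  have hcut := hE Ω (idl ξ Ω) m Q A F Γ n' γ (D * m) c hPl hNod (by
      rintro v v' ⟨hv, hv', hne, hval⟩ h0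
      rw [← hV] at hv hv'
      refine hne (hinjS v hv v' hv' h0 ?_ hval)
      have := congrFun hval 1
      change eval v (A 1) = eval v' (A 1) at this
      rw [hA1, hA1, h0, add_left_inj] at this
      exact H33s.pow_q_inj p _ this) hγ (by omega) (by
      obtain ⟨R, hR⟩ : ∃ R, 10 * P = R + 2 := ⟨10 * P - 2, by omega⟩
      rw [hR, Nat.add_sub_cancel] at ha3
      have hR' : 20 ≤ R := by omega
      generalize D * m = n at ha3
      by_contra hcon
      push Not at hcon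
      nlinarith) (by omega)
    (hZERO k p ξ D c δ hG Ω m Q n' A F hPl)
  have hback := hBACK hPULL hMOVE Ω p (idl ξ Ω) (i1 + 1) (i2 + 1) (A 0) (A 2) (e none)
    (hG.comp Ω) (by rw [← hV]; exact hG.ncz Ω) (by simpa [wt] using hPl.ha 0)
    (by simpa [wt] using hPl.ha 2)
    (by rw [← hV]; intro v hv v' hv' h0 h1 h3; rw [hA0, hA0]; exact hmv1 v hv v' hv' h0 h1 h3)
    (by
      rw [← hV]; intro v hv v' hv' h0 h3 hs
      rw [hA0, hA0] at hs
      exact hmv2 v hv v' hv' h0 h3 hs) hcut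
  rw [hG.spanmap Ω] at hback
  exact hDESC k Ω (idl ξ k) (hG.prime k) hback

end H39c

end PartH39cMMain

section PartH39cMMove

set_option autoImplicit false

open MvPolynomial

namespace H39c

universe u

/-- Substituting weighted forms in a weighted form. -/
theorem mv_aeval_hom {R σ τ : Type*} [CommRing R] (w' : σ → ℕ) (w : τ → ℕ) (q : ℕ)
    (Ψ : σ → MvPolynomial τ R) (hΨ : ∀ j, (Ψ j).IsWeightedHomogeneous w (q * w' j))
    {f : MvPolynomial σ R} {a : ℕ} (hf : f.IsWeightedHomogeneous w' a) :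
    (aeval Ψ f).IsWeightedHomogeneous w (q * a) := by
  classical
  rw [f.as_sum, map_sum]
  refine IsWeightedHomogeneous.sum _ _ _ fun s hs => ?_
  rw [aeval_monomial, algebraMap_eq]
  refine IsWeightedHomogeneous.C_mul ?_ _
  have h1 := IsWeightedHomogeneous.prod (w := w) s.support (fun i => Ψ i ^ s i)
    (fun i => s i • (q * w' i)) (fun i _ => (hΨ i).pow _)
  have h2 : ∑ i ∈ s.support, s i • (q * w' i) = q * a := by
    rw [← hf (mem_support_iff.1 hs), Finsupp.weight_apply, Finsupp.sum, Finset.mul_sum]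
    exact Finset.sum_congr rfl fun i _ => by simp only [smul_eq_mul]; ring
  rw [h2] at h1
  exact h1

theorem mv_map_hom {R S σ : Type*} [CommRing R] [CommRing S] (φ : R →+* S) (w : σ → ℕ)
    {f : MvPolynomial σ R} {a : ℕ} (hf : f.IsWeightedHomogeneous w a) :
    (MvPolynomial.map φ f).IsWeightedHomogeneous w a := by
  intro d hd
  apply hf
  intro h0
  apply hd
  rw [coeff_map, h0, map_zero]

theorem mv_eval_frob {K σ : Type*} [Field K] (p : ℕ) [Fact p.Prime] [CharP K p] (n : ℕ)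
    (x : σ → K) (H : MvPolynomial σ K) :
    eval (fun i => x i ^ p ^ n) (MvPolynomial.map (iterateFrobenius K p n) H) =
      eval x H ^ p ^ n := by
  induction H using MvPolynomial.induction_on with
  | C r => simp [iterateFrobenius_def]
  | add f g hf hg => simp only [map_add, hf, hg, add_pow_char_pow]
  | mul_X f i hf => simp only [map_mul, hf, map_X, eval_X, mul_pow]

/-- PULL: pull back along an injective weighted polynomial map onto a Frobenius twist. -/
theorem cut_pull {K : Type u} [Field K] [IsAlgClosed K] (p : ℕ) [Fact p.Prime] [CharP K p]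
    {T : Type*} (w w' : Fin 4 → ℕ) (Φ Φ' : T → Fin 4 → K) (n : ℕ) (Ψ : Fin 4 → P4 K)
    (hΨ : ∀ j, (Ψ j).IsWeightedHomogeneous w (p ^ n * w' j))
    (hinj : ∀ v v' : Fin 4 → K, (∀ j, eval v (Ψ j) = eval v' (Ψ j)) → v = v')
    (h : ∀ t j, eval (Φ t) (Ψ j) = Φ' t j ^ p ^ n)
    (hc : Cut w' (Set.range Φ')) : Cut w (Set.range Φ) := by
  obtain ⟨f, g, a, b, hf, hg, hZ⟩ := hc
  have hq : p ^ n ≠ 0 := pow_ne_zero _ (Fact.out : p.Prime).ne_zero
  have key : ∀ (H : P4 K) (v x : Fin 4 → K), (∀ j, eval v (Ψ j) = x j ^ p ^ n) →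
      eval v (aeval Ψ (MvPolynomial.map (iterateFrobenius K p n) H)) = eval x H ^ p ^ n := by
    intro H v x hx
    rw [H33s.eval_aeval', ← mv_eval_frob p n x H, funext hx]
  refine ⟨aeval Ψ (MvPolynomial.map (iterateFrobenius K p n) f),
    aeval Ψ (MvPolynomial.map (iterateFrobenius K p n) g), p ^ n * a, p ^ n * b,
    mv_aeval_hom w' w _ Ψ hΨ (mv_map_hom _ w' hf), mv_aeval_hom w' w _ Ψ hΨ (mv_map_hom _ w' hg),
    ?_⟩
  ext v
  constructor
  · rintro ⟨t, rfl⟩
    have ht : Φ' t ∈ Set.range Φ' := ⟨t, rfl⟩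
    rw [hZ] at ht
    obtain ⟨h1, h2⟩ := ht
    refine ⟨?_, ?_⟩
    · rw [key f _ _ (h t), h1, zero_pow hq]
    · rw [key g _ _ (h t), h2, zero_pow hq]
  · rintro ⟨h1, h2⟩
    choose x hx using fun j => IsAlgClosed.exists_pow_nat_eq (eval v (Ψ j)) (Nat.pos_of_ne_zero hq)
    rw [key f v x fun j => (hx j).symm, pow_eq_zero_iff hq] at h1
    rw [key g v x fun j => (hx j).symm, pow_eq_zero_iff hq] at h2
    have hx' : x ∈ Set.range Φ' := by
      rw [hZ]
      exact ⟨h1, h2⟩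
    obtain ⟨t, rfl⟩ := hx'
    exact ⟨t, hinj _ _ fun j => by rw [h t j, hx j]⟩

/-- PERM: permutation of the four coordinates. -/
theorem cut_perm {K : Type u} [Field K] [IsAlgClosed K] (p : ℕ) [Fact p.Prime] [CharP K p]
    {T : Type*} (w w' : Fin 4 → ℕ) (Φ Φ' : T → Fin 4 → K) (e : Equiv.Perm (Fin 4))
    (hw : ∀ j, w' j = w (e j)) (h : ∀ t j, Φ' t j = Φ t (e j))
    (hc : Cut w' (Set.range Φ')) : Cut w (Set.range Φ) := by
  refine cut_pull p w w' Φ Φ' 0 (fun j => X (e j)) (fun j => ?_) (fun v v' hv => ?_)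
    (fun t j => ?_) hc
  · rw [pow_zero, one_mul, hw]
    exact isWeightedHomogeneous_X K w (e j)
  · funext i
    have := hv (e.symm i)
    simpa using this
  · simp [h]

theorem mv_eval_congr {K : Type*} [CommRing K] {σ : Type*} (g : MvPolynomial σ K) (i : σ)
    (hgi : i ∉ g.vars) (v v' : σ → K) (h : ∀ j, j ≠ i → v j = v' j) : eval v g = eval v' g := by
  refine eval₂Hom_congr' rfl (fun j hj _ => h j ?_) rfl
  rintro rfl
  exact hgi hj

/-- MOVE'(i), with the correction term given as a polynomial whose value does not depend on the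
coordinate `i`. -/
theorem cut_move' {K : Type u} [Field K] [IsAlgClosed K] (p : ℕ) [Fact p.Prime] [CharP K p]
    {T : Type*} (w w' : Fin 4 → ℕ) (Φ Φ' : T → Fin 4 → K) (i : Fin 4) (n1 n2 : ℕ) (g : P4 K)
    (hoff : ∀ t j, j ≠ i → Φ' t j = Φ t j) (hw : ∀ j, j ≠ i → w' j = w j)
    (hwi : p ^ n1 * w i = p ^ n2 * w' i)
    (hg : g.IsWeightedHomogeneous w (p ^ n1 * w i))
    (hgi : ∀ v v' : Fin 4 → K, (∀ j, j ≠ i → v j = v' j) → eval v g = eval v' g)
    (h : ∀ t, Φ' t i ^ p ^ n2 = Φ t i ^ p ^ n1 + eval (Φ t) g)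
    (hc : Cut w' (Set.range Φ')) : Cut w (Set.range Φ) := by
  classical
  refine cut_pull p w w' Φ Φ' n2
    (fun j => if j = i then X i ^ p ^ n1 + g else X j ^ p ^ n2) (fun j => ?_) (fun v v' hv => ?_)
    (fun t j => ?_) hc
  · by_cases hj : j = i
    · rw [if_pos hj, hj, ← hwi]
      exact ((isWeightedHomogeneous_X K w i).pow _).add hg
    · rw [if_neg hj, hw j hj]
      exact (isWeightedHomogeneous_X K w j).pow _
  · have h1 : ∀ j, j ≠ i → v j = v' j := by
      intro j hj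
      have := hv j
      rw [if_neg hj] at this
      exact H33s.pow_q_inj p n2 (by simpa using this)
    funext j
    by_cases hj : j = i
    · have := hv i
      rw [if_pos rfl, map_add, map_add, hgi v v' h1, add_left_inj] at this
      rw [hj]
      exact H33s.pow_q_inj p n1 (by simpa using this)
    · exact h1 j hj
  · by_cases hj : j = i
    · rw [if_pos hj, hj, h t]
      simp
    · rw [if_neg hj, hoff t j hj]
      simp

/-- FIN: the coordinate ring of a cone is finite over forms without common zero on it. -/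
theorem mv_fin_quot {K : Type u} [Field K] [IsAlgClosed K] {ι : Type} [Fintype ι]
    (I : Ideal (P4 K)) (hI : ∀ h ∈ I, ∀ d, homogeneousComponent d h ∈ I)
    (b : ι → P4 K) (d : ι → ℕ) (hd : ∀ j, 0 < d j) (hb : ∀ j, (b j).IsHomogeneous (d j))
    (hz : ∀ v ∈ V I, (∀ j, eval v (b j) = 0) → v = 0) :
    ((Ideal.Quotient.mkₐ K I).comp
      (aeval b : MvPolynomial ι K →ₐ[K] P4 K)).toRingHom.Finite := by
  classical
  obtain ⟨S, hS⟩ : I.FG := IsNoetherian.noetherian I
  let M : ℕ := S.sup totalDegree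
  let N : ℕ := (M + 1 + ∑ j, d j).factorial
  have hN : 0 < N := Nat.factorial_pos _
  have hdN : ∀ j, d j ∣ N := fun j => Nat.dvd_factorial (hd j) (by
    have := Finset.single_le_sum (f := d) (fun i _ => Nat.zero_le _) (Finset.mem_univ j)
    omega)
  have heN : ∀ e : Fin (M + 1), (e : ℕ) + 1 ∣ N := fun e =>
    Nat.dvd_factorial (Nat.succ_pos _) (by have := e.2; omega)
  let a : ι ⊕ (S × Fin (M + 1) × Fin 4) → P4 K := Sum.elim (fun j => b j ^ (N / d j))
    (fun x => (homogeneousComponent (x.2.1 : ℕ) (x.1 : P4 K) * X x.2.2) ^ (N / ((x.2.1 : ℕ) + 1)))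
  have hpos : ∀ e : Fin (M + 1), N / ((e : ℕ) + 1) ≠ 0 := fun e =>
    (Nat.div_pos (Nat.le_of_dvd hN (heN e)) (Nat.succ_pos _)).ne'
  have hfin := H33s.finite_of_no_common_zero a hN (fun i => by
      rcases i with j | x
      · have := (hb j).pow (N / d j)
        rwa [Nat.mul_div_cancel' (hdN j)] at this
      · have := ((homogeneousComponent_isHomogeneous (x.2.1 : ℕ) (x.1 : P4 K)).mul
          (isHomogeneous_X K x.2.2)).pow (N / ((x.2.1 : ℕ) + 1))
        rwa [Nat.mul_div_cancel' (heN _)] at this) (fun x hx => by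
      by_contra hx0
      obtain ⟨j0, hj0⟩ : ∃ j, x j ≠ 0 := Function.ne_iff.1 hx0
      apply hx0
      refine hz x (fun f hf => ?_) (fun j => ?_)
      · have hS' : ∀ f ∈ S, eval x f = 0 := by
          intro f hf
          rw [← sum_homogeneousComponent f, map_sum]
          refine Finset.sum_eq_zero fun e he => ?_
          have hle : f.totalDegree ≤ M := Finset.le_sup (f := totalDegree) hf
          have he' : e < M + 1 := by have := Finset.mem_range.1 he; omega
          have := hx (Sum.inr (⟨f, hf⟩, ⟨e, he'⟩, j0))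
          simp only [a, Sum.elim_inr, map_pow, map_mul, eval_X] at this
          exact (mul_eq_zero.1 (pow_eq_zero_iff (hpos ⟨e, he'⟩) |>.1 this)).resolve_right hj0
        rw [← hS] at hf
        have hle : Ideal.span (S : Set (P4 K)) ≤ RingHom.ker (eval x) :=
          Ideal.span_le.2 fun f hf => hS' f hf
        exact hle hf
      · have := hx (Sum.inl j)
        simp only [a, Sum.elim_inl, map_pow] at this
        exact (pow_eq_zero_iff'.1 this).1)
  let ρ : ι ⊕ (S × Fin (M + 1) × Fin 4) → MvPolynomial ι K :=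
    Sum.elim (fun j => X j ^ (N / d j)) (fun _ => 0)
  have hcomp : ((Ideal.Quotient.mkₐ K I).comp
      (aeval b : MvPolynomial ι K →ₐ[K] P4 K)).comp (aeval ρ) =
      (Ideal.Quotient.mkₐ K I).comp (aeval a) := by
    refine MvPolynomial.algHom_ext fun i => ?_
    rcases i with j | x
    · simp [ρ, a]
    · simp only [ρ, a, AlgHom.comp_apply, aeval_X, Sum.elim_inr, map_zero,
        Ideal.Quotient.mkₐ_eq_mk]
      symm
      rw [Ideal.Quotient.eq_zero_iff_mem]
      refine Ideal.pow_mem_of_mem _ (Ideal.mul_mem_right _ _ (hI _ ?_ _)) _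
        (Nat.pos_of_ne_zero (hpos _))
      rw [← hS]
      exact Ideal.subset_span x.1.2
  have h2 : ((Ideal.Quotient.mkₐ K I).comp (aeval a)).toRingHom.Finite :=
    RingHom.Finite.comp (g := (Ideal.Quotient.mkₐ K I).toRingHom)
      (RingHom.Finite.of_surjective _ Ideal.Quotient.mk_surjective) hfin
  rw [← hcomp] at h2
  exact RingHom.Finite.of_comp_finite
    (f := (aeval ρ : MvPolynomial _ K →ₐ[K] MvPolynomial ι K).toRingHom) h2

theorem mv_aeval_component {K σ ι : Type*} [CommRing K] (b : ι → MvPolynomial σ K) (d : ι → ℕ)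
    (hb : ∀ j, (b j).IsHomogeneous (d j)) (g : MvPolynomial ι K) (n : ℕ) :
    homogeneousComponent n (aeval b g) = aeval b (weightedHomogeneousComponent d n g) := by
  classical
  induction g using MvPolynomial.induction_on' with
  | monomial s r =>
    have h1 : (monomial s r : MvPolynomial ι K).IsWeightedHomogeneous d (Finsupp.weight d s) :=
      isWeightedHomogeneous_monomial d s r rfl
    have h2 : (aeval b (monomial s r : MvPolynomial ι K)).IsHomogeneous (Finsupp.weight d s) := by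
      have := mv_aeval_hom d (1 : σ → ℕ) 1 b (fun j => by rw [one_mul]; exact hb j) h1
      rwa [one_mul] at this
    rw [homogeneousComponent_of_mem h2, weightedHomogeneousComponent_of_mem h1]
    split_ifs
    · rfl
    · rw [map_zero]
  | add f g hf hg => simp only [map_add, hf, hg]

/-- FIB: a form constant on the fibres of forms without common zero on the cone has a `p^n`-th
power equal, modulo the ideal, to a weighted form in them. -/
theorem mv_fib {K : Type u} [Field K] [IsAlgClosed K] (p : ℕ) [Fact p.Prime] [CharP K p]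
    {ι : Type} [Fintype ι]
    (I : Ideal (P4 K)) (hI : ∀ h ∈ I, ∀ d, homogeneousComponent d h ∈ I)
    (b : ι → P4 K) (d : ι → ℕ) (hd : ∀ j, 0 < d j) (hb : ∀ j, (b j).IsHomogeneous (d j))
    (hz : ∀ v ∈ V I, (∀ j, eval v (b j) = 0) → v = 0) (h : P4 K) (e : ℕ) (hh : h.IsHomogeneous e)
    (hsep : ∀ v ∈ V I, ∀ v' ∈ V I, (∀ j, eval v (b j) = eval v' (b j)) → eval v h = eval v' h) :
    ∃ (n : ℕ) (g : MvPolynomial ι K), g.IsWeightedHomogeneous d (p ^ n * e) ∧
      h ^ p ^ n - aeval b g ∈ I := by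
  classical
  let _ : Algebra (MvPolynomial ι K) (P4 K ⧸ I) := ((Ideal.Quotient.mkₐ K I).comp
      (aeval b : MvPolynomial ι K →ₐ[K] P4 K)).toRingHom.toAlgebra
  have hmap : ∀ f : MvPolynomial ι K,
      algebraMap (MvPolynomial ι K) (P4 K ⧸ I) f = Ideal.Quotient.mk I (aeval b f) := fun _ => rfl
  have : IsScalarTower K (MvPolynomial ι K) (P4 K ⧸ I) :=
    IsScalarTower.of_algebraMap_eq fun r => by
      rw [hmap, AlgHom.commutes]
      rfl
  have : Module.Finite (MvPolynomial ι K) (P4 K ⧸ I) := mv_fin_quot I hI b d hd hb hz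
  obtain ⟨n, f, hf⟩ := H33s.move_affine (k := K) (A := MvPolynomial ι K) p
    (Ideal.Quotient.mk I h) fun φ ψ hφ => by
      have e1 : ∀ (χ : (P4 K ⧸ I) →ₐ[K] K) (w : P4 K),
          χ (Ideal.Quotient.mk I w) = eval (fun j => χ (Ideal.Quotient.mk I (X j))) w := by
        intro χ w
        have := aeval_unique (χ.comp (Ideal.Quotient.mkₐ K I))
        exact congrArg (fun F : P4 K →ₐ[K] K => F w) this
      have e2 : ∀ (χ : (P4 K ⧸ I) →ₐ[K] K), (fun j => χ (Ideal.Quotient.mk I (X j))) ∈ V I := by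
        intro χ w hw
        rw [← e1, Ideal.Quotient.eq_zero_iff_mem.2 hw, map_zero]
      rw [e1 φ, e1 ψ]
      refine hsep _ (e2 φ) _ (e2 ψ) fun j => ?_
      have := hφ (X j)
      rw [hmap, aeval_X] at this
      rw [← e1 φ, ← e1 ψ, this]
  refine ⟨n, weightedHomogeneousComponent d (p ^ n * e) f,
    weightedHomogeneousComponent_isWeightedHomogeneous _ _, ?_⟩
  rw [hmap, ← map_pow, Ideal.Quotient.eq] at hf
  have := hI _ hf (p ^ n * e)
  rwa [map_sub, mv_aeval_component b d hb, mul_comm (p ^ n) e,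
    homogeneousComponent_eq_self (hh.pow _), mul_comm e (p ^ n)] at this

/-- MOVE(i): a state is four forms on the cone `V I`; the form number `i` is replaced. -/
theorem cut_move {K : Type u} [Field K] [IsAlgClosed K] (p : ℕ) [Fact p.Prime] [CharP K p]
    (I : Ideal (P4 K)) (hI : ∀ h ∈ I, ∀ d, homogeneousComponent d h ∈ I)
    (w w' : Fin 4 → ℕ) (b b' : Fin 4 → P4 K) (i : Fin 4) (n1 n2 : ℕ)
    (hoff : ∀ j, j ≠ i → b' j = b j) (hw : ∀ j, j ≠ i → w' j = w j)
    (hpos : ∀ j, j ≠ i → 0 < w j)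
    (hb : ∀ j, (b j).IsHomogeneous (w j)) (hb' : (b' i).IsHomogeneous (w' i))
    (hwi : p ^ n1 * w i = p ^ n2 * w' i)
    (hz : ∀ v ∈ V I, (∀ j, j ≠ i → eval v (b j) = 0) → v = 0)
    (hsep : ∀ v ∈ V I, ∀ v' ∈ V I, (∀ j, j ≠ i → eval v (b j) = eval v' (b j)) →
      eval v (b' i) ^ p ^ n2 - eval v (b i) ^ p ^ n1 =
        eval v' (b' i) ^ p ^ n2 - eval v' (b i) ^ p ^ n1)
    (hc : Cut w' (Set.range fun (v : V I) (j : Fin 4) => eval v.1 (b' j))) :
    Cut w (Set.range fun (v : V I) (j : Fin 4) => eval v.1 (b j)) := by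
  classical
  obtain ⟨n, g, hg, hgI⟩ := mv_fib p (ι := {j : Fin 4 // j ≠ i}) I hI (fun j => b j.1)
    (fun j => w j.1) (fun j => hpos j.1 j.2) (fun j => hb j.1)
    (fun v hv h => hz v hv fun j hj => h ⟨j, hj⟩) (b' i ^ p ^ n2 - b i ^ p ^ n1) (p ^ n1 * w i)
    (by
      refine IsHomogeneous.sub ?_ ?_
      · rw [hwi, mul_comm]
        exact hb'.pow _
      · rw [mul_comm]
        exact (hb i).pow _)
    (fun v hv v' hv' h => by
      simp only [map_sub, map_pow]
      exact hsep v hv v' hv' fun j hj => h ⟨j, hj⟩)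
  have hev : ∀ x : Fin 4 → K, eval x (aeval (fun j : {j : Fin 4 // j ≠ i} => (X j.1 : P4 K)) g) =
      eval (fun j : {j : Fin 4 // j ≠ i} => x j.1) g := by
    intro x
    rw [H33s.eval_aeval']
    simp only [eval_X]
  refine cut_move' p w w' _ _ i (n1 + n) (n2 + n)
    (aeval (fun j : {j : Fin 4 // j ≠ i} => (X j.1 : P4 K)) g) (fun t j hj => by rw [hoff j hj]) hw
    ?_ ?_ (fun v v' h => ?_) (fun t => ?_) hc
  · rw [pow_add, pow_add, mul_right_comm, hwi, mul_right_comm]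
  · have := mv_aeval_hom (fun j : {j : Fin 4 // j ≠ i} => w j.1) w 1
      (fun j : {j : Fin 4 // j ≠ i} => (X j.1 : P4 K))
      (fun j => by rw [one_mul]; exact isWeightedHomogeneous_X K w j.1) hg
    rwa [one_mul, ← mul_assoc, ← pow_add, add_comm n n1] at this
  · rw [hev, hev, funext fun j : {j : Fin 4 // j ≠ i} => h j.1 j.2]
  · have h1 := t.2 _ hgI
    rw [map_sub, map_pow, map_sub, map_pow, map_pow, sub_pow_char_pow, H33s.eval_aeval',
      ← pow_mul, ← pow_mul, ← pow_add, ← pow_add] at h1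
    rw [hev]
    linear_combination h1

end H39c

end PartH39cMMove

section PartH39cMBack

set_option autoImplicit false

open MvPolynomial

namespace H39c

universe u

theorem m_pull : PULL_s.{u} := by
  intro K _ _ p _ _ T Φ Φ' w w' j θ h1 h2 h3 hc
  exact cut_pull p w w' Φ Φ' j θ h1 h2 h3 hc

theorem m_move : MOVE_s.{u} := by
  intro K _ _ p _ _ I a w b N hI hw ha hz hb hsep
  obtain ⟨n, g, hg, hgI⟩ := mv_fib p I hI a w hw ha (fun v hv h => hz v hv (funext h)) b N hb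
    (fun v hv v' hv' h => hsep v hv v' hv' (funext h))
  refine ⟨n, g, hg, fun v hv => ?_⟩
  have h1 := hv _ hgI
  rw [map_sub, map_pow, H33s.eval_aeval', sub_eq_zero] at h1
  exact h1

theorem m_back : BACK_s.{u} := by
  intro _ _ K _ _ p hp _ I i1 i2 s y σ hI hz hs hy h1 h2 hc
  have hq : ∀ n, 0 < p ^ n := fun n => pow_pos hp.out.pos n
  -- state `(x0, y, s, x3)`
  have c3 : Cut ![1, p ^ i1 * p ^ i2, p ^ i1, 1] (Set.range fun (v : V I) (j : Fin 4) =>
      eval v.1 ((![X 0, y, s, X 3] : Fin 4 → P4 K) j)) := by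
    refine cut_pull p _ _ _ _ 0 ![X 2, X 3 ^ p ^ i1 + C σ * X 0 ^ p ^ i1, X 1, X 0]
      (fun j => ?_) (fun v v' h => ?_) (fun t j => ?_) hc
    · rw [pow_zero, one_mul]
      fin_cases j
      · exact isWeightedHomogeneous_X K _ 2
      · have a3 := (isWeightedHomogeneous_X K ![1, p ^ i1 * p ^ i2, p ^ i1, 1] 3).pow (p ^ i1)
        have a0 := ((isWeightedHomogeneous_X K ![1, p ^ i1 * p ^ i2, p ^ i1, 1] 0).pow
          (p ^ i1)).C_mul σ
        simp only [Matrix.cons_val, smul_eq_mul, mul_one, Matrix.cons_val_zero] at a3 a0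
        exact a3.add a0
      · exact isWeightedHomogeneous_X K _ 1
      · exact isWeightedHomogeneous_X K _ 0
    · have e2 : v 2 = v' 2 := by simpa using h 0
      have e1 : v 1 = v' 1 := by simpa using h 2
      have e0 : v 0 = v' 0 := by simpa using h 3
      have e3 : v 3 = v' 3 := by
        refine H33s.pow_q_inj p i1 ?_
        simpa [e0] using h 1
      funext j
      fin_cases j
      · exact e0
      · exact e1
      · exact e2
      · exact e3
    · fin_cases j <;> simp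
  -- state `(x0, x1, s, x3)`
  have c2 : Cut ![1, 1, p ^ i1, 1] (Set.range fun (v : V I) (j : Fin 4) =>
      eval v.1 ((![X 0, X 1, s, X 3] : Fin 4 → P4 K) j)) := by
    refine cut_move p I hI _ _ _ _ 1 (i1 + i2) 0 (fun j hj => ?_) (fun j hj => ?_)
      (fun j _ => ?_) (fun j => ?_) hy ?_ (fun v hv h => ?_) (fun v hv v' hv' h => ?_) c3
    · fin_cases j
      · rfl
      · exact absurd rfl hj
      · rfl
      · rfl
    · fin_cases j
      · rfl
      · exact absurd rfl hj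
      · rfl
      · rfl
    · fin_cases j
      · exact one_pos
      · exact one_pos
      · exact hq i1
      · exact one_pos
    · fin_cases j
      · exact isHomogeneous_X K 0
      · exact isHomogeneous_X K 1
      · exact hs
      · exact isHomogeneous_X K 3
    · simp [pow_add]
    · exact hz v hv (by simpa using h 0 (by decide)) (by simpa using h 3 (by decide))
    · have := h2 v hv v' hv' (by simpa using h 0 (by decide)) (by simpa using h 3 (by decide))
        (by simpa using h 2 (by decide))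
      simpa [pow_add] using this
  -- state `(x0, x1, x2, x3)`
  have c1 : Cut ![1, 1, 1, 1] (Set.range fun (v : V I) (j : Fin 4) =>
      eval v.1 ((![X 0, X 1, X 2, X 3] : Fin 4 → P4 K) j)) := by
    refine cut_move p I hI _ _ _ _ 2 i1 0 (fun j hj => ?_) (fun j hj => ?_)
      (fun j _ => ?_) (fun j => ?_) hs ?_ (fun v hv h => ?_) (fun v hv v' hv' h => ?_) c2
    · fin_cases j
      · rfl
      · rfl
      · exact absurd rfl hj
      · rfl
    · fin_cases j
      · rfl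
      · rfl
      · exact absurd rfl hj
      · rfl
    · fin_cases j <;> exact one_pos
    · fin_cases j
      · exact isHomogeneous_X K 0
      · exact isHomogeneous_X K 1
      · exact isHomogeneous_X K 2
      · exact isHomogeneous_X K 3
    · simp
    · exact hz v hv (by simpa using h 0 (by decide)) (by simpa using h 3 (by decide))
    · have := h1 v hv v' hv' (by simpa using h 0 (by decide)) (by simpa using h 1 (by decide))
        (by simpa using h 3 (by decide))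
      simpa using this
  have e : (Set.range fun (v : V I) (j : Fin 4) =>
      eval v.1 ((![X 0, X 1, X 2, X 3] : Fin 4 → P4 K) j)) = V I := by
    have e' : ∀ v : Fin 4 → K,
        (fun j : Fin 4 => eval v ((![X 0, X 1, X 2, X 3] : Fin 4 → P4 K) j)) = v := by
      intro v
      funext j
      fin_cases j <;> simp
    ext v
    constructor
    · rintro ⟨t, rfl⟩
      show (fun j : Fin 4 => eval t.1 ((![X 0, X 1, X 2, X 3] : Fin 4 → P4 K) j)) ∈ V I
      rw [e']
      exact t.2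
    · intro hv
      exact ⟨⟨v, hv⟩, e' v⟩
  rwa [e] at c1

end H39c

end PartH39cMBack

section PartH39cMNum

set_option autoImplicit false

namespace H39c

theorem mnum_pow {p : ℕ} (hp : p.Prime) (N : ℕ) : N ≤ p ^ (N + 1) :=
  (Nat.le_succ N).trans (Nat.lt_pow_self hp.one_lt).le

theorem m_num1 : NUM1_s := by
  intro p K D B hp hK hD
  have h1 := mnum_pow hp (K * (B + 2))
  have h2 : K * (B + 2) ≤ D * p ^ (K * (B + 2) + 1) := h1.trans (Nat.le_mul_of_pos_left _ hD)
  have hB : B ≤ p ^ (K * (B + 2) + 1) :=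
    le_trans (le_trans (by omega) (Nat.le_mul_of_pos_left (B + 2) (show 0 < K by omega))) h1
  obtain ⟨J, rfl⟩ : ∃ J, K = J + 2 := ⟨K - 2, by omega⟩
  have key : ∀ n : ℕ, (J + 2) * (B + 2) ≤ n → ∃ a : ℕ, B ≤ a ∧
      (J + 2) * a ≤ (J + 2 - 1) * n ∧ (J + 2 - 2) * n ≤ (J + 2) * a ∧ ¬ p ∣ a := by
    intro n hn
    rw [show J + 2 - 1 = J + 1 by omega, show J + 2 - 2 = J by omega]
    obtain ⟨t, ht⟩ : ∃ t, t = (J + 1) * n / (J + 2) := ⟨_, rfl⟩
    have a1 : (J + 2) * t ≤ (J + 1) * n := by rw [ht]; exact Nat.mul_div_le _ _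
    have a2 : (J + 1) * n < (J + 2) * (t + 1) := by
      rw [ht]; exact Nat.lt_mul_div_succ _ (by omega)
    have a3 : B + 1 ≤ t := by
      by_contra h
      have : t + 1 ≤ B + 2 := by omega
      have := Nat.mul_le_mul_left (J + 2) this
      nlinarith
    obtain ⟨s, rfl⟩ : ∃ s, t = s + 1 := ⟨t - 1, by omega⟩
    have a4 : J * n ≤ (J + 2) * s := by nlinarith
    by_cases h : p ∣ s
    · exact ⟨s + 1, by omega, a1, by nlinarith, fun h' =>
        hp.one_lt.ne' (Nat.dvd_one.1 ((Nat.dvd_add_right h).1 h'))⟩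
    · exact ⟨s, by omega, by nlinarith, a4, h⟩
  obtain ⟨a, ha⟩ := key _ h2
  exact ⟨_, a, hB, ha⟩

theorem m_num2 : NUM2_s := by
  intro p K D m a B hp hK hD hm ha
  have h1 := (mnum_pow hp (K * (a + 4) + B + 3)).trans (Nat.le_mul_of_pos_left _ hm)
  refine ⟨K * (a + 4) + B + 3, ?_⟩
  rw [mul_assoc D]
  generalize m * p ^ (K * (a + 4) + B + 3 + 1) = M at h1 ⊢
  obtain ⟨G, rfl⟩ : ∃ G, M = G + 3 := ⟨M - 3, by omega⟩
  obtain ⟨J, rfl⟩ : ∃ J, K = J + 2 := ⟨K - 2, by omega⟩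
  obtain ⟨E, rfl⟩ : ∃ E, D = E + 1 := ⟨D - 1, by omega⟩
  rw [show J + 2 - 1 = J + 1 by omega, show J + 2 - 2 = J by omega]
  have hG : (J + 2) * (a + 4) ≤ G := by omega
  obtain ⟨t, ht⟩ : ∃ t, t = (J + 1) * ((E + 1) * G) / (J + 2) := ⟨_, rfl⟩
  have a1 : (J + 2) * t ≤ (J + 1) * ((E + 1) * G) := by rw [ht]; exact Nat.mul_div_le _ _
  have a2 : (J + 1) * ((E + 1) * G) < (J + 2) * (t + 1) := by
    rw [ht]; exact Nat.lt_mul_div_succ _ (by omega)
  have a0 : G ≤ (J + 1) * ((E + 1) * G) :=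
    (Nat.le_mul_of_pos_left G (by omega)).trans (Nat.le_mul_of_pos_left _ (by omega))
  have a3 : 2 ≤ t := by
    by_contra h
    have : t + 1 ≤ a + 4 := by omega
    have := Nat.mul_le_mul_left (J + 2) this
    omega
  obtain ⟨s, rfl⟩ : ∃ s, t = s + 2 := ⟨t - 2, by omega⟩
  have b1 := Nat.mul_div_le s a
  have b2 := Nat.lt_mul_div_succ s (show 0 < a by omega)
  refine ⟨a * (s / a) + 1, G, rfl, by omega, ?_, ?_, ?_⟩
  · rw [Nat.mul_add_mod, Nat.mod_eq_of_lt (by omega)]
  · exact (Nat.mul_le_mul_left _ (by omega)).trans a1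
  · rw [mul_add a, mul_one] at b2
    generalize a * (s / a) = u at b1 b2 ⊢
    have c1 : (J + 2) * (s + 2 + 1) ≤ (J + 2) * (u + 1 + (a + 1)) :=
      Nat.mul_le_mul_left _ (by omega)
    have c2 : E * (3 * J) ≤ E * G := Nat.mul_le_mul_left _ (by nlinarith)
    nlinarith

end H39c

end PartH39cMNum

section PartH39cMOmega

set_option autoImplicit false

open MvPolynomial

namespace H39c

universe u

theorem m_omega : OMEGA_s.{u} := by
  intro k _
  let R := MvPolynomial (Option (Fin 5)) k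
  let F := FractionRing R
  have h0 : IsTranscendenceBasis k (X : Option (Fin 5) → R) :=
    IsTranscendenceBasis.mvPolynomial _ _
  have hRF : Algebra.IsAlgebraic R F := IsLocalization.isAlgebraic F (nonZeroDivisors R)
  have h1 : IsTranscendenceBasis k (algebraMap R F ∘ (X : Option (Fin 5) → R)) :=
    h0.algebraMap_comp
  have h2 : IsTranscendenceBasis k
      (algebraMap F (AlgebraicClosure F) ∘ (algebraMap R F ∘ (X : Option (Fin 5) → R))) :=
    h1.algebraMap_comp
  exact ⟨AlgebraicClosure F, inferInstance, inferInstance, inferInstance, _, h2.1, h2.isAlgebraic⟩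

end H39c

end PartH39cMOmega

section PartH39cMDesc

set_option autoImplicit false

open MvPolynomial

namespace H39c

universe u

/-- Finitely many polynomials over `Ω` are defined over a subalgebra with a `k`-point. -/
theorem md_spec {k Ω σ : Type*} [Field k] [IsAlgClosed k] [Field Ω] [Algebra k Ω]
    (S : Finset (MvPolynomial σ Ω)) :
    ∃ (A : Subalgebra k Ω) (_ : A →ₐ[k] k), ∀ f ∈ S, ∃ f' : MvPolynomial σ A,
      MvPolynomial.map (algebraMap A Ω) f' = f := by
  classical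
  let T : Finset Ω := S.biUnion fun f => f.coeffs
  let A : Subalgebra k Ω := Algebra.adjoin k (T : Set Ω)
  have hA : Algebra.FiniteType k A :=
    (Subalgebra.fg_iff_finiteType A).1 (Subalgebra.fg_adjoin_finset T)
  obtain ⟨𝔫, h𝔫⟩ := Ideal.exists_maximal A
  obtain ⟨χ, -⟩ := H33s.point_of_maximal (k := k) 𝔫 (h := h𝔫)
  refine ⟨A, χ, fun f hf => ?_⟩
  have : f ∈ Set.range (MvPolynomial.map (σ := σ) (algebraMap A Ω)) := by
    rw [mem_range_map_iff_coeffs_subset]
    intro x hx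
    exact ⟨⟨x, Algebra.subset_adjoin (Finset.mem_coe.2 (Finset.mem_biUnion.2 ⟨f, hf, hx⟩))⟩, rfl⟩
  exact this

/-- DESCENT: a radical ideal over `k` whose zero set over an algebraically closed extension is cut
by two forms is the radical of an ideal generated by two forms over `k`. -/
theorem md_descent {k : Type u} [Field k] [IsAlgClosed k] (Ω : Type u) [Field Ω] [IsAlgClosed Ω]
    [Algebra k Ω] (P : Ideal (P4 k)) (hP : P.IsRadical)
    (hc : Cut (fun _ => 1) (V (P.map (MvPolynomial.map (algebraMap k Ω))))) :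
    ∃ f g : P4 k, Form f ∧ Form g ∧ (Ideal.span {f, g}).radical = P := by
  classical
  obtain ⟨f, g, a, b, hf, hg, hZ⟩ := hc
  obtain ⟨r, h, hh⟩ := Submodule.fg_iff_exists_fin_generating_family.1
    (IsNoetherian.noetherian P : P.FG)
  have hh' : Ideal.span (Set.range h) = P := hh
  have hJ : P.map (MvPolynomial.map (algebraMap k Ω)) =
      Ideal.span (Set.range fun i => MvPolynomial.map (algebraMap k Ω) (h i)) := by
    rw [← hh', Ideal.map_span, ← Set.range_comp]
    rfl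
  have hnull : ∀ (J : Ideal (P4 Ω)) (x : P4 Ω), (∀ v ∈ V J, eval v x = 0) → ∃ n, x ^ n ∈ J := by
    intro J x hx
    have : x ∈ J.radical := by
      rw [← vanishingIdeal_zeroLocus_eq_radical (K := Ω), mem_vanishingIdeal_iff]
      intro v hv
      exact hx v fun y hy => hv y hy
    exact this
  obtain ⟨n1, h1⟩ := hnull _ f fun v hv => by
    rw [hZ] at hv
    exact hv.1
  obtain ⟨n2, h2⟩ := hnull _ g fun v hv => by
    rw [hZ] at hv
    exact hv.2
  rw [hJ] at h1 h2
  obtain ⟨c1, hc1⟩ := Ideal.mem_span_range_iff_exists_fun.1 h1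
  obtain ⟨c2, hc2⟩ := Ideal.mem_span_range_iff_exists_fun.1 h2
  have h3 : ∀ i, ∃ (n : ℕ) (x y : P4 Ω),
      x * f + y * g = MvPolynomial.map (algebraMap k Ω) (h i) ^ n := by
    intro i
    obtain ⟨n, hn⟩ := hnull (Ideal.span {f, g}) (MvPolynomial.map (algebraMap k Ω) (h i))
      fun v hv => by
        have hv' : v ∈ V (P.map (MvPolynomial.map (algebraMap k Ω))) := by
          rw [hZ]
          exact ⟨hv f (Ideal.subset_span (by simp)), hv g (Ideal.subset_span (by simp))⟩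
        refine hv' _ (Ideal.mem_map_of_mem _ ?_)
        rw [← hh']
        exact Ideal.subset_span ⟨i, rfl⟩
    obtain ⟨x, y, hxy⟩ := Ideal.mem_span_pair.1 hn
    exact ⟨n, x, y, hxy⟩
  choose n x y hxy using h3
  obtain ⟨A, χ, hA⟩ := md_spec (k := k) (insert f (insert g
    (Finset.univ.image c1 ∪ Finset.univ.image c2 ∪ Finset.univ.image x ∪ Finset.univ.image y)))
  obtain ⟨f', hf'⟩ := hA f (by simp)
  obtain ⟨g', hg'⟩ := hA g (by simp)
  choose c1' hc1' using fun i => hA (c1 i) (by simp)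
  choose c2' hc2' using fun i => hA (c2 i) (by simp)
  choose x' hx' using fun i => hA (x i) (by simp)
  choose y' hy' using fun i => hA (y i) (by simp)
  have hinj : Function.Injective (MvPolynomial.map (σ := Fin 4) (algebraMap A Ω)) :=
    map_injective _ Subtype.val_injective
  have hk : ∀ z : P4 k, MvPolynomial.map (algebraMap A Ω) (MvPolynomial.map (algebraMap k A) z) =
      MvPolynomial.map (algebraMap k Ω) z := by
    intro z
    rw [MvPolynomial.map_map, ← IsScalarTower.algebraMap_eq]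
  have hχ : ∀ z : P4 k,
      MvPolynomial.map (χ : A →+* k) (MvPolynomial.map (algebraMap k A) z) = z := by
    intro z
    rw [MvPolynomial.map_map, AlgHom.comp_algebraMap, Algebra.algebraMap_self, map_id]
  have hmem : ∀ (z : P4 Ω) (z' : P4 A) (c : Fin r → P4 Ω) (c' : Fin r → P4 A) (N : ℕ),
      MvPolynomial.map (algebraMap A Ω) z' = z →
      (∀ i, MvPolynomial.map (algebraMap A Ω) (c' i) = c i) →
      ∑ i, c i * MvPolynomial.map (algebraMap k Ω) (h i) = z ^ N →
      MvPolynomial.map (χ : A →+* k) z' ∈ P := by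
    intro z z' c c' N hz hc hs
    have e1 : ∑ i, c' i * MvPolynomial.map (algebraMap k A) (h i) = z' ^ N := by
      apply hinj
      rw [map_sum, map_pow, hz, ← hs]
      exact Finset.sum_congr rfl fun i _ => by rw [map_mul, hc, hk]
    have e2 := congrArg (MvPolynomial.map (σ := Fin 4) (χ : A →+* k)) e1
    rw [map_sum, map_pow] at e2
    refine hP ⟨N, ?_⟩
    rw [← e2]
    refine Ideal.sum_mem _ fun i _ => ?_
    rw [map_mul, hχ]
    refine Ideal.mul_mem_left _ _ ?_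
    rw [← hh']
    exact Ideal.subset_span ⟨i, rfl⟩
  have hform : ∀ (z : P4 Ω) (z' : P4 A) (d : ℕ), MvPolynomial.map (algebraMap A Ω) z' = z →
      z.IsWeightedHomogeneous (fun _ => 1) d → Form (MvPolynomial.map (χ : A →+* k) z') := by
    intro z z' d hz hd
    have h0 : z'.IsHomogeneous d := by
      refine IsHomogeneous.of_map (f := algebraMap A Ω) Subtype.val_injective ?_
      rw [hz]
      exact hd
    exact ⟨d, h0.map _⟩
  refine ⟨MvPolynomial.map (χ : A →+* k) f', MvPolynomial.map (χ : A →+* k) g',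
    hform f f' a hf' hf, hform g g' b hg' hg, le_antisymm ?_ ?_⟩
  · rw [hP.radical_le_iff, Ideal.span_le]
    rintro z (rfl | rfl)
    · exact hmem f f' c1 c1' n1 hf' hc1' hc1
    · exact hmem g g' c2 c2' n2 hg' hc2' hc2
  · rw [← hh', Ideal.span_le]
    rintro _ ⟨i, rfl⟩
    have e1 : x' i * f' + y' i * g' = MvPolynomial.map (algebraMap k A) (h i) ^ n i := by
      apply hinj
      rw [map_add, map_mul, map_mul, map_pow, hx', hy', hf', hg', hk, hxy]
    have e2 := congrArg (MvPolynomial.map (σ := Fin 4) (χ : A →+* k)) e1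
    rw [map_add, map_mul, map_mul, map_pow, hχ] at e2
    exact ⟨n i, Ideal.mem_span_pair.2 ⟨_, _, e2⟩⟩

theorem m_desc : DESC_s.{u} := by
  intro k _ _ Ω _ _ _ I hI hc
  refine md_descent Ω I hI.isRadical ?_
  have : (![1, 1, 1, 1] : Fin 4 → ℕ) = fun _ => 1 := by
    funext i
    fin_cases i <;> rfl
  rwa [this] at hc

end H39c

end PartH39cMDesc

section PartH39cMS0

set_option autoImplicit false

open MvPolynomial

namespace H39c

universe u

theorem s0_cc {k : Type u} [Field k] (ξ : Fin 4 → PowerSeries k) (g : P4 k) :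
    PowerSeries.constantCoeff (aeval ξ g : PowerSeries k) = eval (P1 ξ) g := by
  induction g using MvPolynomial.induction_on with
  | C a => simp
  | add p q hp hq => simp [hp, hq]
  | mul_X p i hp => simp [hp, P1]

theorem s0_scale {k L : Type u} [Field k] [Field L] [Algebra k L] (g : P4 k) (d : ℕ)
    (hg : g.IsHomogeneous d) (z : Fin 4 → k) (l : L) :
    aeval (fun i => l * algebraMap k L (z i)) g = l ^ d * algebraMap k L (eval z g) := by
  rw [aeval_def, eval₂_eq', eval_eq', map_sum, Finset.mul_sum]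
  refine Finset.sum_congr rfl fun s hs => ?_
  have hd : ∑ i, s i = d := by
    have := hg (mem_support_iff.1 hs)
    simpa [Finsupp.weight_apply, Finsupp.sum_fintype] using this
  simp only [mul_pow, Finset.prod_mul_distrib, Finset.prod_pow_eq_pow_sum, hd, map_mul, map_prod,
    map_pow]
  ring

theorem s0_bin {k L : Type u} [Field k] [Field L] [Algebra k L] (g : P4 k) (hg : Bin g)
    (v v' : Fin 4 → L) (h0 : v 0 = v' 0) (h3 : v 3 = v' 3) : aeval v g = aeval v' g := by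
  rw [aeval_eq_eval₂Hom, aeval_eq_eval₂Hom]
  refine eval₂Hom_congr' rfl (fun i hi _ => ?_) rfl
  rcases hg.2 i hi with rfl | rfl
  · exact h0
  · exact h3

theorem s0_vals {k : Type u} [Field k] [Infinite k] (Z : Finset (Fin 4 → k)) :
    ∃ f : (Fin 4 → k) → k, (∀ z ∈ Z, f z ≠ 0) ∧ ∀ z ∈ Z, ∀ z' ∈ Z, f z = f z' → z = z' := by
  classical
  have hinf : ({x : k | x ≠ 0} : Set k).Infinite := by
    have := (Set.finite_singleton (0 : k)).infinite_compl
    simpa [Set.compl_def] using this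
  let e := hinf.natEmbedding
  refine ⟨fun z => if h : z ∈ Z then (e (Z.equivFin ⟨z, h⟩ : ℕ) : k) else 0, ?_, ?_⟩
  · intro z hz
    simp only [hz, dif_pos]
    exact (e _).2
  · intro z hz z' hz' h
    simp only [hz, hz', dif_pos] at h
    have h1 := e.injective (Subtype.ext h)
    have h2 := Z.equivFin.injective (Fin.ext h1)
    exact congrArg Subtype.val h2

theorem m_s0 : S0_s.{u} := by
  classical
  intro k _ _ p _ _ ξ D c δ hG K hK
  obtain ⟨dδ, hδ⟩ := hG.δbin.1
  have hP0 : P1 ξ 0 = 1 := by simp [P1, hG.h0]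
  have hP3 : P1 ξ 3 = 0 := by simp [P1, hG.h3]
  have hform : Form (X 3 * δ : P4 k) := ⟨1 + dδ, (isHomogeneous_X k 3).mul hδ⟩
  have hne : (aeval ξ (X 3 * δ : P4 k) : PowerSeries k) ≠ 0 := by
    rw [map_mul, aeval_X, hG.h3]
    refine mul_ne_zero PowerSeries.X_ne_zero fun h => hG.δP1 ?_
    rw [← s0_cc, h, map_zero]
  obtain ⟨Z, hZ, hZ'⟩ := hG.finz _ hform hne
  obtain ⟨f, hf0, hf⟩ := s0_vals Z
  obtain ⟨N0, hN0⟩ := hG.form K hK (Z.erase (P1 ξ)) (fun z hz =>
    ⟨(hZ z (Finset.mem_of_mem_erase hz)).1, (hZ z (Finset.mem_of_mem_erase hz)).2.1,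
      Finset.ne_of_mem_erase hz⟩)
  refine ⟨N0, fun m a hm ha hKa => ?_⟩
  have hm0 : m ≠ 0 := by
    rintro rfl
    have : 0 < K * a := Nat.mul_pos hK ha
    simp at hKa
    omega
  obtain ⟨s0, hs0, hval, hord⟩ := hN0 m hm a hKa (fun z => if z 3 = 0 then f z else z 2 ^ m)
  have hP1 : eval (P1 ξ) s0 = 0 := by
    rw [← s0_cc, ← PowerSeries.coeff_zero_eq_constantCoeff_apply]
    apply PowerSeries.coeff_of_lt_order
    rw [hord]
    exact_mod_cast ha
  -- the fibre `x3 = 0`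
  have hfib : ∀ z ∈ cone ξ k, z 0 = 1 → z 3 = 0 → z ∈ Z := by
    intro z hz h0 h3
    rcases hZ' k z hz (by rw [map_mul, aeval_X, h3, zero_mul]) with h | ⟨y, hy, l, h⟩
    · rw [h] at h0
      exact absurd h0 (by simp)
    · have e0 : l * y 0 = 1 := by simpa [h] using h0
      have e3 : l * y 3 = 0 := by simpa only [h, Algebra.algebraMap_self, RingHom.id_apply] using h3
      have hl : l ≠ 0 := left_ne_zero_of_mul_eq_one e0
      have y3 : y 3 = 0 := (mul_eq_zero.1 e3).resolve_left hl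
      have y0 : y 0 = 1 := by
        rcases (hZ y hy).2.1 with h' | h'
        · exact h'
        · rw [y3] at h'
          exact absurd h'.2 zero_ne_one
      have l1 : l = 1 := by simpa [y0] using e0
      have : z = y := by
        rw [h, l1]
        funext i
        simp
      rwa [this]
  have hsep : ∀ z ∈ cone ξ k, ∀ z' ∈ cone ξ k, z 0 = 1 → z' 0 = 1 → z 3 = 0 → z' 3 = 0 →
      eval z s0 = eval z' s0 → z = z' := by
    intro z hz z' hz' h0 h0' h3 h3' he
    have hzZ := hfib z hz h0 h3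
    have hzZ' := hfib z' hz' h0' h3'
    have key : ∀ y ∈ Z, y 3 = 0 → y ≠ P1 ξ → eval y s0 = f y := by
      intro y hy y3 hyP
      rw [hval y (Finset.mem_erase.2 ⟨hyP, hy⟩), if_pos y3]
    by_cases h1 : z = P1 ξ
    · by_cases h2 : z' = P1 ξ
      · rw [h1, h2]
      · rw [key z' hzZ' h3' h2, h1, hP1] at he
        exact absurd he.symm (hf0 z' hzZ')
    · by_cases h2 : z' = P1 ξ
      · rw [key z hzZ h3 h1, h2, hP1] at he
        exact absurd he (hf0 z hzZ)
      · rw [key z hzZ h3 h1, key z' hzZ' h3' h2] at he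
        exact hf z hzZ z' hzZ' he
  obtain ⟨h, hb, hhP, hprim⟩ := hG.prim s0 ⟨m, hs0⟩ hsep
  refine ⟨s0, h, hs0, hord, hb, hhP, fun L _ _ => ⟨?_, hprim L⟩⟩
  have hzero : ∀ v ∈ cone ξ L, aeval v δ = 0 → aeval v s0 - v 2 ^ m = 0 := by
    intro v hv hvδ
    have hz0 : ∀ z : Fin 4 → k, v = (fun i => (0 : L) * algebraMap k L (z i)) →
        aeval v s0 - v 2 ^ m = 0 := by
      intro z h
      rw [h, s0_scale s0 m hs0]
      simp [hm0]
    rcases hZ' L v hv (by rw [map_mul, hvδ, mul_zero]) with h | ⟨z, hz, l, h⟩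
    · exact hz0 0 (by rw [h]; funext i; simp)
    · by_cases hl : l = 0
      · exact hz0 z (by rw [h, hl])
      · have hzδ : eval z δ = 0 := by
          rw [h, s0_scale δ dδ hδ] at hvδ
          have := (mul_eq_zero.1 hvδ).resolve_left (pow_ne_zero _ hl)
          exact (map_eq_zero _).1 this
        have hzP : z ≠ P1 ξ := fun e => hG.δP1 (e ▸ hzδ)
        have z3 : z 3 ≠ 0 := by
          intro z3
          have z0 : z 0 = 1 := by
            rcases (hZ z hz).2.1 with h' | h'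
            · exact h'
            · rw [z3] at h'
              exact absurd h'.2 zero_ne_one
          have h1' := s0_bin δ hG.δbin z (P1 ξ) (z0.trans hP0.symm) (z3.trans hP3.symm)
          have h2' : eval z δ = eval (P1 ξ) δ := h1'
          rw [hzδ] at h2'
          exact hG.δP1 h2'.symm
        rw [h, s0_scale s0 m hs0, hval z (Finset.mem_erase.2 ⟨hzP, hz⟩), if_neg z3, map_pow,
          mul_pow, sub_self]
  intro v hv v' hv' h0 h1 h3
  by_cases hvδ : aeval v δ = 0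
  · rw [hzero v hv hvδ, hzero v' hv' ((s0_bin δ hG.δbin v v' h0 h3).symm.trans hvδ)]
  · rw [hG.bir L v hv v' hv' h0 h1 h3 hvδ]

end H39c

end PartH39cMS0

section PartH39cMY0

set_option autoImplicit false

open MvPolynomial

namespace H39c

universe u

theorem y0_cc {k : Type u} [Field k] (ξ : Fin 4 → PowerSeries k) (h : P4 k) :
    PowerSeries.constantCoeff (aeval ξ h : PowerSeries k) = eval (P1 ξ) h := by
  induction h using MvPolynomial.induction_on with
  | C a => simp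
  | add p q hp hq => simp [hp, hq]
  | mul_X p i hp => simp [hp, P1]

theorem y0_lin {k : Type u} [Field k] [Infinite k] (Z : Finset (Fin 4 → k))
    (hZ : ∀ z ∈ Z, Nrm z) : ∃ l0 l3 : k, ∀ z ∈ Z, z 1 + l0 * z 0 + l3 * z 3 ≠ 0 := by
  classical
  obtain ⟨l3, h3⟩ := Infinite.exists_notMem_finset (Z.image fun z => -z 1)
  obtain ⟨l0, h0⟩ := Infinite.exists_notMem_finset (Z.image fun z => -(z 1 + l3 * z 3))
  refine ⟨l0, l3, fun z hz he => ?_⟩
  rcases hZ z hz with h | ⟨h, h'⟩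
  · apply h0
    refine Finset.mem_image.2 ⟨z, hz, ?_⟩
    rw [h] at he
    linear_combination -he
  · apply h3
    refine Finset.mem_image.2 ⟨z, hz, ?_⟩
    rw [h, h'] at he
    linear_combination -he

theorem m_y0 : Y0_s.{u} := by
  classical
  intro k _ _ ξ D c δ hG K hK s0 h hs0 hh hs0ne hhne
  have hform : Form (s0 * h) := by
    obtain ⟨d1, h1⟩ := hs0
    obtain ⟨d2, h2⟩ := hh
    exact ⟨d1 + d2, h1.mul h2⟩
  have hhne' : (aeval ξ h : PowerSeries k) ≠ 0 := by
    intro h0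
    apply hhne
    rw [← y0_cc, h0, map_zero]
  have hne : (aeval ξ (s0 * h) : PowerSeries k) ≠ 0 := by
    rw [map_mul]
    exact mul_ne_zero hs0ne hhne'
  obtain ⟨Z, hZ, hZall⟩ := hG.finz (s0 * h) hform hne
  obtain ⟨l0, l3, hl⟩ := y0_lin Z (fun z hz => (hZ z hz).2.1)
  obtain ⟨N0, hN0⟩ := hG.form K hK (Z.erase (P1 ξ)) (fun z hz =>
    ⟨(hZ z (Finset.mem_of_mem_erase hz)).1, (hZ z (Finset.mem_of_mem_erase hz)).2.1,
      Finset.ne_of_mem_erase hz⟩)
  refine ⟨N0, l0, l3, fun dG e0 hd he => ?_⟩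
  have he1 : K * e0 ≤ (K - 1) * (D * (dG + 3)) :=
    calc K * e0 ≤ K * (e0 + 1) := Nat.mul_le_mul_left _ (Nat.le_succ _)
      _ ≤ (K - 1) * (D * dG) := he
      _ ≤ (K - 1) * (D * (dG + 3)) :=
        Nat.mul_le_mul_left _ (Nat.mul_le_mul_left _ (Nat.le_add_right _ _))
  obtain ⟨y0, hy1, hy2, hy3⟩ := hN0 (dG + 3) (le_trans hd (Nat.le_add_right _ _)) e0 he1
    (fun z => (z 1 + l0 * z 0 + l3 * z 3) ^ (dG + 3))
  obtain ⟨G, hG1, hG2, hG3⟩ := hN0 dG hd (e0 + 1) he (fun _ => 0)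
  refine ⟨y0, G, hy1, hG1, hy3, hG3, ?_⟩
  intro L _ _ v hv hv0
  rcases hZall L v hv hv0 with h0 | ⟨z, hz, l, hl'⟩
  · exact Or.inl h0
  · refine Or.inr ⟨z, (hZ z hz).1, l, hl', ?_⟩
    by_cases hp : z = P1 ξ
    · exact Or.inl hp
    · have hz' : z ∈ Z.erase (P1 ξ) := Finset.mem_erase.2 ⟨hp, hz⟩
      exact Or.inr ⟨hl z hz, hy2 z hz', hG2 z hz'⟩

end H39c

end PartH39cMY0

section PartH39cMMv2

set_option autoImplicit false

open MvPolynomial

namespace H39c

universe u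

theorem hom_mv2 {k Ω : Type u} [Field k] [Field Ω] [Algebra k Ω] {f : P4 k} {d : ℕ}
    (hf : f.IsHomogeneous d) (z : Fin 4 → k) (l : Ω) :
    aeval (fun i => l * algebraMap k Ω (z i)) f = l ^ d * algebraMap k Ω (eval z f) := by
  rw [aeval_def, eval₂_eq', eval_eq', map_sum, Finset.mul_sum]
  refine Finset.sum_congr rfl fun e he => ?_
  have h : ∑ i, e i = d := by
    rw [hf.degree_eq_sum_deg_support he]
    exact (Finset.sum_subset (Finset.subset_univ _) fun i _ hi =>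
      Finsupp.notMem_support_iff.1 hi).symm
  simp only [mul_pow, Finset.prod_mul_distrib, Finset.prod_pow_eq_pow_sum, h, map_mul, map_prod,
    map_pow]
  ring

theorem bin_mv2 {k Ω : Type u} [Field k] [Field Ω] [Algebra k Ω] {h : P4 k} (hb : Bin h)
    {v v' : Fin 4 → Ω} (h0 : v 0 = v' 0) (h3 : v 3 = v' 3) : aeval v h = aeval v' h := by
  rw [aeval_def, aeval_def]
  refine eval₂_congr _ _ _ fun {i c} hi hc => ?_
  rcases hb.2 i ((mem_vars_iff_mem_support i).2 ⟨c, mem_support_iff.2 hc, hi⟩) with rfl | rfl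
  exacts [h0, h3]

theorem m_mv2 : MV2_s.{u} := by
  intro k _ p _ _ ξ D c δ hG Ω _ _ m i dG s0 h y0 G l0 l3 σ τ hy hg hb hP hY hs v hv v' hv' e0 e3 es
  by_cases hh : aeval v h = 0
  swap
  · rw [hs v hv v' hv' e0 e3 es hh]
  have : CharP Ω p := charP_of_injective_algebraMap (algebraMap k Ω).injective p
  have hq : p ^ i ≠ 0 := pow_ne_zero _ (Fact.out : p.Prime).ne_zero
  have ev : ∀ w : Fin 4 → Ω, eval w (trip Ω m s0 y0 G σ τ 2) =
      aeval w y0 + aeval w G * eval w (∑ i, C (τ i) * cub Ω i) := fun w => by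
    change eval w (MvPolynomial.map (algebraMap k Ω) y0 +
      MvPolynomial.map (algebraMap k Ω) G * ∑ i, C (τ i) * cub Ω i) = _
    rw [map_add, map_mul, eval_map, eval_map, aeval_def, aeval_def]
  have key : ∀ w ∈ cone ξ Ω, aeval w h = 0 → eval w (trip Ω m s0 y0 G σ τ 2) - w 1 ^ p ^ i =
      (algebraMap k Ω l0 * w 0 + algebraMap k Ω l3 * w 3) ^ p ^ i := fun w hw h0 => by
    have z0 : w = 0 → eval w (trip Ω m s0 y0 G σ τ 2) - w 1 ^ p ^ i =
        (algebraMap k Ω l0 * w 0 + algebraMap k Ω l3 * w 3) ^ p ^ i := fun hz => by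
      have a1 : aeval w y0 = 0 := by
        have := hom_mv2 hy 0 (0 : Ω)
        rw [zero_pow hq, zero_mul] at this
        rw [← this, hz]
        congr 2
        exact _root_.funext fun i => (zero_mul _).symm
      rw [ev, a1, hz]
      simp [cub, Fin.sum_univ_five, zero_pow hq]
    rcases hY Ω w hw (by rw [map_mul, h0, mul_zero]) with hz | ⟨z, -, l, hl, hz | ⟨-, h1, h2⟩⟩
    · exact z0 hz
    · obtain ⟨d, hd⟩ := hb.1
      rw [hl, hom_mv2 hd, hz, mul_eq_zero] at h0
      rcases h0 with h0 | h0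
      · refine z0 ?_
        rw [hl, eq_zero_of_pow_eq_zero h0]
        exact _root_.funext fun i => zero_mul _
      · exact absurd ((algebraMap k Ω).injective (h0.trans (map_zero _).symm)) hP
    · rw [ev, hl, hom_mv2 hy, hom_mv2 hg, h1, h2, map_zero, mul_zero, zero_mul, add_zero, map_pow,
        ← mul_pow, sub_eq_iff_eq_add, ← add_pow_char_pow]
      simp only [map_add, map_mul]
      congr 1
      ring
  rw [key v hv hh, key v' hv' (bin_mv2 hb e0 e3 ▸ hh), e0, e3]

end H39c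

end PartH39cMMv2

section PartH39cMRat

set_option autoImplicit false

open MvPolynomial

namespace H39c

universe u

theorem rat_smul {k R : Type u} [Field k] [CommRing R] [Algebra k R] {h : P4 k} {d : ℕ}
    (hh : h.IsHomogeneous d) (l : R) (z : Fin 4 → k) :
    aeval (fun i => l * algebraMap k R (z i)) h = l ^ d * algebraMap k R (eval z h) := by
  rw [aeval_def, eval₂_eq', eval_eq', map_sum, Finset.mul_sum]
  refine Finset.sum_congr rfl fun s hs => ?_
  have e : ∑ i, s i = d := by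
    have := hh (mem_support_iff.1 hs)
    rw [← this, Finsupp.weight_apply, Finsupp.sum_fintype _ _ (by simp)]
    simp
  simp only [mul_pow, Finset.prod_mul_distrib, Finset.prod_pow_eq_pow_sum, e, map_mul, map_prod,
    map_pow]
  ring

theorem rat_cone {k R : Type u} [Field k] [CommRing R] [Algebra k R] {ξ : Fin 4 → PowerSeries k}
    {z : Fin 4 → k} (hz : z ∈ cone ξ k) (l : R) :
    (fun i => l * algebraMap k R (z i)) ∈ cone ξ R := by
  rintro h ⟨d, hd⟩ h0
  have := hz h ⟨d, hd⟩ h0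
  rw [rat_smul hd, show eval z h = 0 from this, map_zero, mul_zero]

theorem rat_inj {K : Type u} [Field K] (p : ℕ) [Fact p.Prime] [CharP K p] (j : ℕ) {x y : K}
    (h : x ^ p ^ j = y ^ p ^ j) : x = y := by
  have : (x - y) ^ p ^ j = 0 := by rw [sub_pow_char_pow, h, sub_self]
  exact sub_eq_zero.1 (pow_eq_zero_iff (pow_pos (Fact.out : p.Prime).pos j).ne' |>.1 this)

theorem rat_root {k Ω : Type u} [Field k] [IsAlgClosed k] [Field Ω] [Algebra k Ω] (p : ℕ)
    [Fact p.Prime] [CharP k p] (j : ℕ) {l l' : Ω} {a b : k} (hb : b ≠ 0)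
    (h : l ^ p ^ j * algebraMap k Ω a = l' ^ p ^ j * algebraMap k Ω b) :
    ∃ μ : k, l' = l * algebraMap k Ω μ := by
  have : CharP Ω p := charP_of_injective_algebraMap (algebraMap k Ω).injective p
  obtain ⟨μ, hμ⟩ := IsAlgClosed.exists_pow_nat_eq (a / b) (pow_pos (Fact.out : p.Prime).pos j)
  refine ⟨μ, rat_inj p j ?_⟩
  have b0 : algebraMap k Ω b ≠ 0 := by simpa using hb
  rw [mul_pow, ← map_pow, hμ, map_div₀, ← mul_div_assoc, h, mul_div_assoc, div_self b0, mul_one]

theorem rat_tr {k Ω : Type u} [Field k] [Field Ω] [Algebra k Ω] {σ : Ω} (hσ : Transcendental k σ)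
    {a b : k} (h : algebraMap k Ω a + σ * algebraMap k Ω b = 0) : a = 0 ∧ b = 0 := by
  have hb : b = 0 := by
    by_contra hb
    have b0 : algebraMap k Ω b ≠ 0 := by simpa using hb
    refine hσ ?_
    have : σ = algebraMap k Ω (-a / b) := by
      rw [map_div₀, map_neg, eq_div_iff b0]
      linear_combination h
    rw [this]
    exact isAlgebraic_algebraMap _
  refine ⟨?_, hb⟩
  simpa [hb] using h

theorem m_rat : RAT_s.{u} := by
  intro k _ _ p _ _ ξ D c δ hG Ω _ _ i1 i dG s0 h y0 G l0 l3 σ τ hσ hs hy hGG y1 G1 hY hinj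
  have t0 : ∀ v : Fin 4 → Ω, val3 (trip Ω (p ^ i1) s0 y0 G σ τ) v 0 = aeval v s0 := fun v => by
    simp [val3, trip, eval_map, aeval_def]
  have t1 : ∀ v : Fin 4 → Ω, val3 (trip Ω (p ^ i1) s0 y0 G σ τ) v 1 =
      v 3 ^ p ^ i1 + σ * v 0 ^ p ^ i1 := fun v => by
    simp [val3, trip]
  have t2 : ∀ v : Fin 4 → Ω, aeval v G = 0 →
      val3 (trip Ω (p ^ i1) s0 y0 G σ τ) v 2 = aeval v y0 := fun v hv => by
    rw [aeval_def] at hv
    simp [val3, trip, eval_map, aeval_def, hv]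
  have key : ∀ w ∈ cone ξ k, ∀ w' ∈ cone ξ k, ∀ l : Ω,
      val3 (trip Ω (p ^ i1) s0 y0 G σ τ) (fun i => l * algebraMap k Ω (w i)) =
        val3 (trip Ω (p ^ i1) s0 y0 G σ τ) (fun i => l * algebraMap k Ω (w' i)) →
      (fun i => l * algebraMap k Ω (w i)) = (fun i => l * algebraMap k Ω (w' i)) := by
    intro w hw w' hw' l e
    by_cases l0 : l = 0
    · simp [l0]
    have e1 := congrFun e 1
    rw [t1, t1] at e1
    have lp : l ^ p ^ i1 ≠ 0 := pow_ne_zero _ l0
    obtain ⟨a, b⟩ := rat_tr hσ (a := w 3 ^ p ^ i1 - w' 3 ^ p ^ i1)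
      (b := w 0 ^ p ^ i1 - w' 0 ^ p ^ i1) (by
        refine mul_left_cancel₀ lp ?_
        simp only [mul_pow] at e1
        simp only [map_sub, map_pow]
        linear_combination e1)
    have a' := rat_inj p i1 (sub_eq_zero.1 a)
    have b' := rat_inj p i1 (sub_eq_zero.1 b)
    exact hinj _ (rat_cone hw l) _ (rat_cone hw' l) (by simp only [b']) (by simp only [a']) e
  have key2 : ∀ w ∈ cone ξ k, ∀ w' ∈ cone ξ k, ∀ (l l' : Ω) (μ : k), l' = l * algebraMap k Ω μ →
      val3 (trip Ω (p ^ i1) s0 y0 G σ τ) (fun i => l * algebraMap k Ω (w i)) =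
        val3 (trip Ω (p ^ i1) s0 y0 G σ τ) (fun i => l' * algebraMap k Ω (w' i)) →
      (fun i => l * algebraMap k Ω (w i)) = (fun i => l' * algebraMap k Ω (w' i)) := by
    intro w hw w' hw' l l' μ hl e
    have f : (fun i => l' * algebraMap k Ω (w' i)) =
        fun i => l * algebraMap k Ω (μ * algebraMap k k (w' i)) := by
      funext i
      simp [hl, mul_assoc]
    rw [f] at e ⊢
    exact key w hw _ (rat_cone hw' μ) l e
  have zero : ∀ w ∈ cone ξ k, ∀ l : Ω, val3 (trip Ω (p ^ i1) s0 y0 G σ τ) 0 =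
      val3 (trip Ω (p ^ i1) s0 y0 G σ τ) (fun i => l * algebraMap k Ω (w i)) →
      0 = fun i => l * algebraMap k Ω (w i) := by
    intro w hw l e
    have f : (0 : Fin 4 → Ω) = fun i => 0 * algebraMap k Ω (w i) := by
      funext i
      simp
    rw [f] at e ⊢
    exact (key2 w hw w hw l 0 0 (by simp) e.symm).symm
  intro z hz z' hz' l l' e
  have e0 := congrFun e 0
  rw [t0, t0] at e0
  by_cases hz0 : aeval (fun i => l' * algebraMap k Ω (z' i)) s0 = 0
  · have Y := hY Ω _ (rat_cone hz l) (by rw [map_mul, e0, hz0, zero_mul])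
    have Y' := hY Ω _ (rat_cone hz' l') (by rw [map_mul, hz0, zero_mul])
    rcases Y with Y | ⟨w, hw, a, ha, Y⟩
    · rw [Y] at e ⊢
      exact zero z' hz' l' e
    rcases Y' with Y' | ⟨w', hw', a', ha', Y'⟩
    · rw [Y'] at e ⊢
      exact (zero z hz l e.symm).symm
    rw [ha, ha'] at e ⊢
    have g : eval w G = 0 := by
      rcases Y with rfl | Y
      exacts [G1, Y.2.2]
    have g' : eval w' G = 0 := by
      rcases Y' with rfl | Y'
      exacts [G1, Y'.2.2]
    have e2 := congrFun e 2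
    rw [t2 _ (by rw [rat_smul hGG, g, map_zero, mul_zero]),
      t2 _ (by rw [rat_smul hGG, g', map_zero, mul_zero]), rat_smul hy, rat_smul hy] at e2
    by_cases n' : eval w' y0 = 0
    · by_cases n : eval w y0 = 0
      · have w1 : w = P1 ξ := Y.resolve_right fun Y => pow_ne_zero _ Y.1 (Y.2.1.symm.trans n)
        have w2 : w' = P1 ξ := Y'.resolve_right fun Y => pow_ne_zero _ Y.1 (Y.2.1.symm.trans n')
        have e1 := congrFun e 1
        have σ0 : σ ≠ 0 := fun s => hσ (s ▸ isAlgebraic_zero)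
        have q0 : P1 ξ 0 = 1 := by simp [P1, hG.h0]
        have q3 : P1 ξ 3 = 0 := by simp [P1, hG.h3]
        rw [t1, t1, w1, w2, q0, q3] at e1
        obtain ⟨μ, hμ⟩ := rat_root p i1 (l := a) (l' := a') (a := (1 : k)) one_ne_zero (by
          refine mul_left_cancel₀ σ0 ?_
          simp only [map_zero, map_one, mul_zero, mul_one] at e1 ⊢
          linear_combination e1)
        exact key2 w hw w' hw' a a' μ hμ e
      · obtain ⟨μ, hμ⟩ := rat_root p i n e2.symm
        exact (key2 w' hw' w hw a' a μ hμ e.symm).symm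
    · obtain ⟨μ, hμ⟩ := rat_root p i n' e2
      exact key2 w hw w' hw' a a' μ hμ e
  · rw [rat_smul hs, rat_smul hs] at e0
    rw [rat_smul hs] at hz0
    obtain ⟨μ, hμ⟩ := rat_root p i1 (fun s => hz0 (by rw [s, map_zero, mul_zero])) e0
    exact key2 z hz z' hz' l l' μ hμ e

end H39c

end PartH39cMRat

section PartH39cMZero

set_option autoImplicit false

open MvPolynomial

namespace H39c

universe u

/-- substituting forms of degrees `m * w i` in a `w`-weighted form of weight `j`. -/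
theorem zero_hom {K : Type u} [Field K] (w : Fin 3 → ℕ) (m j : ℕ) (a : Fin 3 → P4 K)
    (ha : ∀ i, (a i).IsHomogeneous (m * w i)) (g : P3 K) (hg : g.IsWeightedHomogeneous w j) :
    (aeval a g : P4 K).IsHomogeneous (m * j) := by
  classical
  rw [g.as_sum, map_sum]
  refine IsHomogeneous.sum _ _ _ ?_
  intro d hd
  have hw : Finsupp.weight w d = j := hg (mem_support_iff.mp hd)
  rw [aeval_monomial, Finsupp.prod_fintype _ _ (fun i => pow_zero _)]
  have h1 : (∏ i, a i ^ d i).IsHomogeneous (∑ i, m * w i * d i) :=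
    IsHomogeneous.prod _ _ _ (fun i _ => (ha i).pow (d i))
  have h2 : ∑ i, m * w i * d i = m * j := by
    rw [← hw, Finsupp.weight_apply, Finsupp.sum_fintype _ _ (fun i => by simp), Finset.mul_sum]
    refine Finset.sum_congr rfl fun i _ => ?_
    rw [smul_eq_mul]; ring
  rw [h2] at h1
  have h3 := (isHomogeneous_C (Fin 4) (coeff d g)).mul h1
  rw [zero_add] at h3
  exact h3

theorem zero_scale {k L : Type u} [Field k] [Field L] [Algebra k L] (h : P4 k) (d : ℕ)
    (hh : h.IsHomogeneous d) (t : L) (v : Fin 4 → L) :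
    aeval (fun i => t * v i) h = t ^ d * aeval v h := by
  classical
  conv_lhs => rw [h.as_sum]
  conv_rhs => rw [h.as_sum]
  rw [map_sum, map_sum, Finset.mul_sum]
  refine Finset.sum_congr rfl fun e he => ?_
  have hw : Finsupp.weight (1 : Fin 4 → ℕ) e = d := hh (mem_support_iff.mp he)
  rw [aeval_monomial, aeval_monomial, Finsupp.prod_fintype _ _ (fun i => pow_zero _),
    Finsupp.prod_fintype _ _ (fun i => pow_zero _)]
  have h2 : ∑ i, e i = d := by
    rw [← hw, Finsupp.weight_apply, Finsupp.sum_fintype _ _ (fun i => by simp)]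
    simp
  simp only [mul_pow, Finset.prod_mul_distrib, Finset.prod_pow_eq_pow_sum, h2]
  ring

theorem zero_scale' {L : Type u} [Field L] (h : P4 L) (d : ℕ)
    (hh : h.IsHomogeneous d) (t : L) (v : Fin 4 → L) :
    eval (fun i => t * v i) h = t ^ d * eval v h := by
  exact zero_scale h d hh t v

theorem m_zero : ZERO_s.{u} := by
  intro k _ p _ _ ξ D c δ hG Ω _ _ m Q n' a F hP g j hg hFg T hT
  classical
  have : CharP Ω p := charP_of_injective_algebraMap (algebraMap k Ω).injective p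
  obtain ⟨i, hi⟩ := hP.hm
  have hm0 : m ≠ 0 := by rw [hi]; exact pow_ne_zero _ (Fact.out : p.Prime).ne_zero
  have ha0 : (a 0).IsHomogeneous m := by simpa [wt] using hP.ha 0
  have hh : (aeval a g : P4 Ω).IsHomogeneous (m * j) := zero_hom (wt Q) m j a hP.ha g hg
  have hne : iota ξ Ω (aeval a g) ≠ 0 := by
    intro h0
    exact hFg ((hP.ker g).mp ((hG.mem Ω _ ⟨_, hh⟩).mpr h0))
  let t : (Fin 4 → Ω) → Ω := fun v => if v 0 = 0 then (v 3)⁻¹ else (v 0)⁻¹
  let N : (Fin 4 → Ω) → Fin 4 → Ω := fun v i => t v * v i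
  have hcone : ∀ v ∈ T, v ∈ cone ξ Ω := fun v hv => by rw [hG.coneV Ω]; exact (hT v hv).1
  have hv3 : ∀ v ∈ T, v 0 = 0 → v 3 ≠ 0 := by
    intro v hv h0 h3
    have hz := hG.ncz Ω v (hcone v hv) h0 h3
    have h1 := (hT v hv).2.1
    have h2 := zero_scale' (a 0) m ha0 0 v
    have h4 : (fun i => (0 : Ω) * v i) = v := by rw [hz]; funext i; simp
    rw [h4, h1, zero_pow hm0] at h2
    simp at h2
  have ht : ∀ v ∈ T, t v ≠ 0 := by
    intro v hv
    by_cases h0 : v 0 = 0
    · simp only [t, h0, if_true]; exact inv_ne_zero (hv3 v hv h0)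
    · simp only [t, h0, if_false]; exact inv_ne_zero h0
  have hinj : Set.InjOn N (T : Set (Fin 4 → Ω)) := by
    intro v hv v' hv' he
    have e1 : eval (N v) (a 0) = t v ^ m := by
      rw [show N v = fun i => t v * v i from rfl, zero_scale' (a 0) m ha0, (hT v hv).2.1, mul_one]
    have e2 : eval (N v') (a 0) = t v' ^ m := by
      rw [show N v' = fun i => t v' * v' i from rfl, zero_scale' (a 0) m ha0, (hT v' hv').2.1,
        mul_one]
    have e3 : t v ^ m = t v' ^ m := by rw [← e1, ← e2, he]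
    have e4 : t v = t v' := by
      rw [hi] at e3
      have e5 : (t v - t v') ^ p ^ i = 0 := by rw [sub_pow_char_pow, e3, sub_self]
      exact sub_eq_zero.mp (pow_eq_zero_iff (pow_ne_zero _ (Fact.out : p.Prime).ne_zero) |>.mp e5)
    funext r
    have e6 : t v * v r = t v' * v' r := congrFun he r
    rw [← e4] at e6
    exact mul_left_cancel₀ (ht v hv) e6
  have hz := hG.zero Ω (aeval a g) (m * j) hh hne (T.image N) (by
    intro z hz
    obtain ⟨v, hv, rfl⟩ := Finset.mem_image.mp hz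
    refine ⟨?_, ?_, ?_⟩
    · rintro h ⟨d, hd⟩ h0
      rw [show N v = fun i => t v * v i from rfl, zero_scale h d hd, hcone v hv h ⟨d, hd⟩ h0,
        mul_zero]
    · by_cases h0 : v 0 = 0
      · right
        refine ⟨by simp [N, h0], ?_⟩
        simp only [N, t, h0, if_true]
        exact inv_mul_cancel₀ (hv3 v hv h0)
      · left
        simp only [N, t, h0, if_false]
        exact inv_mul_cancel₀ h0
    · rw [show N v = fun i => t v * v i from rfl, zero_scale' _ _ hh]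
      have e : eval v (aeval a g : P4 Ω) = eval (val3 a v) g := by
        rw [← coe_aeval_eq_eval, ← coe_aeval_eq_eval]
        change aeval v (aeval a g) = aeval (val3 a v) g
        rw [← AlgHom.comp_apply, comp_aeval]
        rfl
      rw [e, (hT v hv).2.2, mul_zero])
  rw [Finset.card_image_of_injOn hinj] at hz
  rw [mul_assoc]
  exact hz

end H39c

end PartH39cMZero

section PartH39cMPart

set_option autoImplicit false

namespace H39c

universe u

theorem m_part (p : ℕ) : M_s.{u} p :=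
  m_main m_pull m_move m_back m_num1 m_num2 m_omega m_desc m_s0 m_y0 m_mv2 m_rat m_zero p

end H39c

end PartH39cMPart
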