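import Pool.Agent.MP_b04567_ag.Cp.Base

section PartH39cCDefs

/-! Part C, row CDefs. -/

set_option autoImplicit false

open MvPolynomial

namespace H39c

universe u

/-- a form of degree `D` in `x0, x_i, x3`, monic in `x_i` -/
structure Mon {K : Type u} [CommRing K] (i : Fin 4) (D : ℕ) (φ : P4 K) : Prop where
  hom : φ.IsHomogeneous D
  sup : φ ∈ supported K ({0, i, 3} : Set (Fin 4))
  one : eval (Pi.single i 1) φ = 1

/-- a polynomial as a polynomial in `x_i`, the other variables set to `u` -/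
noncomputable def mp {K R : Type u} [CommRing K] [CommRing R] [Algebra K R] (i : Fin 4) (φ : P4 K)
    (u : Fin 4 → R) : Polynomial R :=
  aeval (Function.update (fun j => Polynomial.C (u j)) i Polynomial.X) φ

/-- the equations of a chart -/
structure Ch {k : Type u} [Field k] (I : Ideal (P4 k)) (D r d0 : ℕ) (φ φ2 δ0 ψ Δ b : P4 k) :
    Prop where
  hD : 0 < D
  hr : 0 < r
  m1 : Mon 1 D φ
  i1 : φ ∈ I
  m2 : Mon 2 r φ2
  i2 : φ2 ∈ I
  min : ∀ g ∈ supported k ({0, 1, 3} : Set (Fin 4)), g ∈ I → φ ∣ g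
  hδ : δ0.IsHomogeneous d0
  sδ : δ0 ∈ supported k ({0, 3} : Set (Fin 4))
  hψ : ψ.IsHomogeneous (d0 + 1)
  sψ : ψ ∈ supported k ({0, 1, 3} : Set (Fin 4))
  i3 : δ0 * X 2 - ψ ∈ I
  bΔ : Bin Δ
  i4 : Δ - b * pderiv 1 φ ∈ I

/-- a chart with a normalised branch -/
structure Nch {k : Type u} [Field k] (ξ : Fin 4 → PowerSeries k) (D r d0 : ℕ)
    (φ φ2 δ0 ψ Δ b : P4 k) : Prop where
  h0 : ξ 0 = 1
  h3 : ξ 3 = PowerSeries.X
  ch : Ch (idl ξ k) D r d0 φ φ2 δ0 ψ Δ b
  ne : eval ![1, 0, 0, 0] (Δ * δ0) ≠ 0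

/-- forms of degree `N` in `x0, x1, x3` -/
noncomputable def F3 (L : Type u) [Field L] (N : ℕ) : Submodule L (P4 L) :=
  homogeneousSubmodule (Fin 4) L N ⊓
    Subalgebra.toSubmodule (supported L ({0, 1, 3} : Set (Fin 4)))

/-- their values on the branch -/
noncomputable def BN {k : Type u} [Field k] (ξ : Fin 4 → PowerSeries k) (L : Type u) [Field L]
    [Algebra k L] (N : ℕ) : Submodule L (PowerSeries L) :=
  (F3 L N).map (iota ξ L).toLinearMap

/-- the dimension of `BN` -/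
def bb (D N : ℕ) : ℕ := ∑ j ∈ Finset.range D, (N + 1 - j)

/-- equal up to a graded automorphism -/
def Eqv {k : Type u} [Field k] (P P' : Ideal (P4 k)) : Prop :=
  ∃ A : P4 k ≃ₐ[k] P4 k, (∀ h d, h.IsHomogeneous d → (A h).IsHomogeneous d) ∧
    P = P'.map (A : P4 k →+* P4 k)

/-- any three polynomials are dependent -/
def Tr {k : Type u} [Field k] (I : Ideal (P4 k)) : Prop :=
  ∀ u : Fin 3 → P4 k, ∃ G : P3 k, G ≠ 0 ∧ aeval u G ∈ I

/-- the Wronskian of the coordinates `0` and `3` at the origin -/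
noncomputable def Wr {k : Type u} [Field k] (η : Fin 4 → PowerSeries k) : k :=
  PowerSeries.coeff 0 (η 0) * PowerSeries.coeff 1 (η 3) -
    PowerSeries.coeff 0 (η 3) * PowerSeries.coeff 1 (η 0)

/-- integral over `k[x0,x3]` modulo `I` -/
def Itg {k : Type u} [Field k] (I : Ideal (P4 k)) (h : P4 k) : Prop :=
  ∃ q : Polynomial (MvPolynomial (Fin 2) k), q.Monic ∧
    q.eval₂ (rename ![(0 : Fin 4), 3] : MvPolynomial (Fin 2) k →ₐ[k] P4 k).toRingHom h ∈ I

end H39c

end PartH39cCDefs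

section PartH39cCBc

/-! Part C, row Bc: base change, any branch. -/

set_option autoImplicit false

open MvPolynomial

namespace H39c

universe u

variable {k : Type u} [Field k] (ξ : Fin 4 → PowerSeries k)

/-- the graded evaluation `h ↦ Σ iota (h_d) T ^ d` -/
noncomputable def cbc_gr74 (L : Type u) [CommRing L] [Algebra k L] :
    P4 L →ₐ[L] Polynomial (PowerSeries L) :=
  aeval (fun i => Polynomial.C (PowerSeries.map (algebraMap k L) (ξ i)) * Polynomial.X)

theorem cbc_gr74_form (L : Type u) [CommRing L] [Algebra k L] {h : P4 L} {d : ℕ}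
    (hh : h.IsHomogeneous d) :
    cbc_gr74 ξ L h = Polynomial.C (iota ξ L h) * Polynomial.X ^ d := by
  classical
  conv_lhs => rw [h.as_sum]
  conv_rhs => rw [h.as_sum]
  rw [map_sum, map_sum, map_sum, Finset.sum_mul]
  refine Finset.sum_congr rfl fun s hs => ?_
  rw [cbc_gr74, iota, aeval_monomial, aeval_monomial, hh.degree_eq_sum_deg_support hs, Finsupp.prod,
    Finsupp.prod]
  simp only [mul_pow, map_mul, map_prod, map_pow]
  rw [Finset.prod_mul_distrib, Finset.prod_pow_eq_pow_sum, mul_assoc]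
  rfl

theorem cbc_gr74_coeff (L : Type u) [CommRing L] [Algebra k L] (h : P4 L) (d : ℕ) :
    (cbc_gr74 ξ L h).coeff d = iota ξ L (homogeneousComponent d h) := by
  classical
  conv_lhs => rw [← sum_homogeneousComponent h, map_sum, Polynomial.finsetSum_coeff]
  have : ∀ i, (cbc_gr74 ξ L (homogeneousComponent i h)).coeff d =
      if d = i then iota ξ L (homogeneousComponent i h) else 0 := fun i => by
    rw [cbc_gr74_form ξ L (homogeneousComponent_isHomogeneous i h), Polynomial.coeff_C_mul_X_pow]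
  simp only [this]
  rw [Finset.sum_ite_eq]
  split_ifs with h1
  · rfl
  · rw [homogeneousComponent_eq_zero, map_zero]
    simpa using h1

theorem cbc_mem_idl_iff74 (L : Type u) [CommRing L] [Algebra k L] (h : P4 L) :
    h ∈ idl ξ L ↔ cbc_gr74 ξ L h = 0 := by
  constructor
  · intro hh
    have : idl ξ L ≤ RingHom.ker (cbc_gr74 ξ L).toRingHom := by
      refine Ideal.span_le.2 ?_
      rintro g ⟨⟨d, hd⟩, hg⟩
      show cbc_gr74 ξ L g = 0
      rw [cbc_gr74_form ξ L hd, hg, map_zero, zero_mul]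
    exact this hh
  · intro hh
    rw [← sum_homogeneousComponent h]
    refine Ideal.sum_mem _ fun i _ => Ideal.subset_span
      ⟨⟨i, homogeneousComponent_isHomogeneous i h⟩, ?_⟩
    rw [← cbc_gr74_coeff, hh, Polynomial.coeff_zero]

theorem cbc_good_prime74 (L : Type u) [Field L] [Algebra k L] : (idl ξ L).IsPrime := by
  have : idl ξ L = RingHom.ker (cbc_gr74 ξ L).toRingHom := Ideal.ext fun h => cbc_mem_idl_iff74 ξ L h
  rw [this]
  exact RingHom.ker_isPrime _

theorem cbc_good_mem74 (L : Type u) [CommRing L] [Algebra k L] (h : P4 L) (hh : Form h) :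
    h ∈ idl ξ L ↔ iota ξ L h = 0 := by
  refine ⟨fun h1 => ?_, fun h1 => Ideal.subset_span ⟨hh, h1⟩⟩
  obtain ⟨d, hd⟩ := hh
  rw [← homogeneousComponent_eq_self hd, ← cbc_gr74_coeff, (cbc_mem_idl_iff74 ξ L h).1 h1,
    Polynomial.coeff_zero]

theorem cbc_good_comp74 (L : Type u) [CommRing L] [Algebra k L] (h : P4 L) (hh : h ∈ idl ξ L)
    (d : ℕ) : homogeneousComponent d h ∈ idl ξ L := by
  refine Ideal.subset_span ⟨⟨d, homogeneousComponent_isHomogeneous d h⟩, ?_⟩
  rw [← cbc_gr74_coeff, (cbc_mem_idl_iff74 ξ L h).1 hh, Polynomial.coeff_zero]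

theorem cbc_iota_self74 (h : P4 k) : iota ξ k h = aeval ξ h := by
  have : (fun i => PowerSeries.map (algebraMap k k) (ξ i)) = ξ := by
    funext i
    simp
  rw [iota, this]

theorem cbc_iota_map74 (L : Type u) [CommRing L] [Algebra k L] (h : P4 k) :
    iota ξ L (MvPolynomial.map (algebraMap k L) h) =
      PowerSeries.map (algebraMap k L) (aeval ξ h) := by
  induction h using MvPolynomial.induction_on with
  | C a =>
    rw [map_C, iota, aeval_C, aeval_C]
    simp
  | add p q hp hq => simp only [map_add, hp, hq]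
  | mul_X p i hp =>
    rw [map_mul, map_mul, hp, map_mul, map_mul, map_X, aeval_X, iota, aeval_X]

/-- A polynomial over `L` killed by `iota` is an `L`-combination of polynomials over `k` killed by
the branch, whose monomials occur in it. -/
theorem cbc_decomp74 (L : Type u) [Field L] [Algebra k L] (h : P4 L) (hh : iota ξ L h = 0) :
    ∃ (ι : Type u) (t : Finset ι) (b : ι → L) (g : ι → P4 k),
      h = ∑ i ∈ t, C (b i) * MvPolynomial.map (algebraMap k L) (g i) ∧
      (∀ i, (g i).support ⊆ h.support) ∧ ∀ i ∈ t, aeval ξ (g i) = 0 := by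
  classical
  let B := Module.Basis.ofVectorSpace k L
  let g : Module.Basis.ofVectorSpaceIndex k L → P4 k := fun i =>
    ∑ s ∈ h.support, monomial s (B.repr (coeff s h) i)
  let t : Finset (Module.Basis.ofVectorSpaceIndex k L) :=
    h.support.biUnion fun s => (B.repr (coeff s h)).support
  have hc : ∀ i s, coeff s (g i) = B.repr (coeff s h) i := fun i s => by
    simp only [g, coeff_sum, coeff_monomial]
    rw [Finset.sum_ite_eq']
    split_ifs with h1
    · rfl
    · rw [notMem_support_iff.1 h1]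
      simp
  have e : h = ∑ i ∈ t, C (B i) * MvPolynomial.map (algebraMap k L) (g i) := by
    ext s
    simp only [coeff_sum, coeff_C_mul, coeff_map, hc]
    conv_lhs => rw [← B.linearCombination_repr (coeff s h), Finsupp.linearCombination_apply]
    rw [Finsupp.sum_of_support_subset (s := t)]
    · refine Finset.sum_congr rfl fun i _ => ?_
      rw [Algebra.smul_def, mul_comm]
    · intro i hi
      refine Finset.mem_biUnion.2 ⟨s, ?_, hi⟩
      by_contra h1
      rw [notMem_support_iff.1 h1] at hi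
      simp at hi
    · intro i _
      simp
  refine ⟨_, t, B, g, e, fun i s hs => ?_, fun i hi => ?_⟩
  · rw [mem_support_iff] at hs ⊢
    intro h1
    rw [hc, h1] at hs
    simp at hs
  · ext n
    have h1 := congrArg (PowerSeries.coeff n) hh
    rw [e, map_sum, map_sum, map_zero] at h1
    have h2 : ∑ j ∈ t, (PowerSeries.coeff n (aeval ξ (g j) : PowerSeries k)) • B j = 0 := by
      rw [← h1]
      refine Finset.sum_congr rfl fun j _ => ?_
      rw [map_mul, cbc_iota_map74, ← algebraMap_eq, AlgHom.commutes, PowerSeries.algebraMap_apply,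
        PowerSeries.coeff_C_mul, PowerSeries.coeff_map, Algebra.smul_def, mul_comm]
      rfl
    rw [map_zero]
    exact linearIndependent_iff'.1 B.linearIndependent t _ h2 i hi

theorem cbc_homog_of_support74 {R S : Type u} [CommRing R] [CommRing S] {g : P4 R} {h : P4 S} {d : ℕ}
    (hh : h.IsHomogeneous d) (hs : g.support ⊆ h.support) : g.IsHomogeneous d :=
  fun _ hc => hh (mem_support_iff.1 (hs (mem_support_iff.2 hc)))

theorem cbc_good_spanmap74 (L : Type u) [Field L] [Algebra k L] :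
    idl ξ L = (idl ξ k).map (MvPolynomial.map (algebraMap k L)) := by
  apply le_antisymm
  · refine Ideal.span_le.2 ?_
    rintro h ⟨⟨d, hd⟩, hh⟩
    obtain ⟨ι, t, b, g, e, hs, hg⟩ := cbc_decomp74 ξ L h hh
    rw [e]
    refine Ideal.sum_mem _ fun i hi => Ideal.mul_mem_left _ _ (Ideal.mem_map_of_mem _ ?_)
    exact Ideal.subset_span ⟨⟨d, cbc_homog_of_support74 hd (hs i)⟩, by rw [cbc_iota_self74, hg i hi]⟩
  · rw [idl, Ideal.map_span]
    refine Ideal.span_le.2 ?_
    rintro _ ⟨h, ⟨⟨d, hd⟩, hh⟩, rfl⟩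
    refine Ideal.subset_span ⟨⟨d, hd.map _⟩, ?_⟩
    rw [cbc_iota_map74, ← cbc_iota_self74, hh, map_zero]

theorem cbc_good_ev74 (L R : Type u) [Field L] [Algebra k L] [CommRing R] [Algebra k R] [Algebra L R]
    [IsScalarTower k L R] (v : Fin 4 → R) (hv : v ∈ cone ξ R) (h : P4 L) (hh : h ∈ idl ξ L) :
    aeval v h = 0 := by
  have : idl ξ L ≤ RingHom.ker (aeval v : P4 L →ₐ[L] R).toRingHom := by
    rw [cbc_good_spanmap74, idl, Ideal.map_span]
    refine Ideal.span_le.2 ?_
    rintro _ ⟨g, ⟨hf, hg⟩, rfl⟩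
    show aeval v (MvPolynomial.map (algebraMap k L) g) = 0
    rw [aeval_map_algebraMap]
    exact hv g hf (by rw [← cbc_iota_self74, hg])
  exact this hh

theorem cbc_good_coneV74 (L : Type u) [Field L] [Algebra k L] : cone ξ L = V (idl ξ L) := by
  ext v
  constructor
  · intro hv h hh
    exact cbc_good_ev74 ξ L L v hv h hh
  · intro hv h hf hh
    have h1 : MvPolynomial.map (algebraMap k L) h ∈ idl ξ L := by
      obtain ⟨d, hd⟩ := hf
      exact Ideal.subset_span ⟨⟨d, hd.map _⟩, by rw [cbc_iota_map74, hh, map_zero]⟩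
    rw [← aeval_map_algebraMap L]
    exact hv _ h1

theorem iota_k (h : P4 k) : iota ξ k h = aeval ξ h := by
  exact cbc_iota_self74 ξ h

theorem iota_map (L : Type u) [Field L] [Algebra k L] (h : P4 k) :
    iota ξ L (MvPolynomial.map (algebraMap k L) h) =
      PowerSeries.map (algebraMap k L) (aeval ξ h) := by
  exact cbc_iota_map74 ξ L h

theorem idl_ker (L : Type u) [Field L] [Algebra k L] {h : P4 L} (hh : h ∈ idl ξ L) :
    iota ξ L h = 0 := by
  have : idl ξ L ≤ RingHom.ker (iota ξ L).toRingHom := by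
    refine Ideal.span_le.2 ?_
    rintro g ⟨-, hg⟩
    exact hg
  exact this hh

theorem idl_mem (L : Type u) [Field L] [Algebra k L] (h : P4 L) (hf : Form h) :
    h ∈ idl ξ L ↔ iota ξ L h = 0 := by
  exact cbc_good_mem74 ξ L h hf

theorem idl_comp (L : Type u) [Field L] [Algebra k L] (h : P4 L) (hh : h ∈ idl ξ L) (d : ℕ) :
    homogeneousComponent d h ∈ idl ξ L := by
  exact cbc_good_comp74 ξ L h hh d

theorem idl_prime (L : Type u) [Field L] [Algebra k L] : (idl ξ L).IsPrime := by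
  exact cbc_good_prime74 ξ L

theorem idl_span (L : Type u) [Field L] [Algebra k L] :
    idl ξ L = (idl ξ k).map (MvPolynomial.map (algebraMap k L)) := by
  exact cbc_good_spanmap74 ξ L

theorem idl_ev (L R : Type u) [Field L] [Algebra k L] [CommRing R] [Algebra k R] [Algebra L R]
    [IsScalarTower k L R] (v : Fin 4 → R) (hv : v ∈ cone ξ R) : ∀ h ∈ idl ξ L, aeval v h = 0 := by
  exact cbc_good_ev74 ξ L R v hv

theorem cone_V (L : Type u) [Field L] [Algebra k L] : cone ξ L = V (idl ξ L) := by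
  exact cbc_good_coneV74 ξ L

theorem cone_smul {R : Type u} [CommRing R] [Algebra k R] {v : Fin 4 → R} (hv : v ∈ cone ξ R)
    (l : R) : (fun i => l * v i) ∈ cone ξ R := by
  classical
  intro h hf hh
  obtain ⟨d, hd⟩ := hf
  have e : aeval (fun i => l * v i) h = l ^ d * aeval v h := by
    conv_lhs => rw [h.as_sum]
    conv_rhs => rw [h.as_sum]
    rw [map_sum, map_sum, Finset.mul_sum]
    refine Finset.sum_congr rfl fun s hs => ?_
    rw [aeval_monomial, aeval_monomial, hd.degree_eq_sum_deg_support hs, Finsupp.prod,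
      Finsupp.prod]
    simp only [mul_pow]
    rw [Finset.prod_mul_distrib, Finset.prod_pow_eq_pow_sum]
    ring
  rw [e, hv h ⟨d, hd⟩ hh, mul_zero]

theorem cone_map {R R' : Type u} [CommRing R] [Algebra k R] [CommRing R'] [Algebra k R']
    (f : R →ₐ[k] R') {v : Fin 4 → R} (hv : v ∈ cone ξ R) : (fun i => f (v i)) ∈ cone ξ R' := by
  intro h hf hh
  rw [← comp_aeval_apply, hv h hf hh, map_zero]

theorem cone_of_map {R R' : Type u} [CommRing R] [Algebra k R] [CommRing R'] [Algebra k R']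
    (f : R →ₐ[k] R') (hf : Function.Injective f) {v : Fin 4 → R}
    (hv : (fun i => f (v i)) ∈ cone ξ R') : v ∈ cone ξ R := by
  intro h hf' hh
  apply hf
  rw [map_zero, comp_aeval_apply]
  exact hv h hf' hh

theorem cone_of_idl {R : Type u} [CommRing R] [Algebra k R] {v : Fin 4 → R}
    (hv : ∀ g ∈ idl ξ k, aeval v g = 0) : v ∈ cone ξ R := by
  intro h hf hh
  exact hv h (Ideal.subset_span ⟨hf, by rw [iota_k, hh]⟩)

theorem eval_P1 (h : P4 k) : eval (P1 ξ) h = PowerSeries.constantCoeff (aeval ξ h) := by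
  induction h using MvPolynomial.induction_on with
  | C a => simp
  | add p q hp hq => simp only [map_add, hp, hq]
  | mul_X p i hp => simp only [map_mul, hp, eval_X, aeval_X, P1]

theorem P1_mem : P1 ξ ∈ cone ξ k := by
  intro h _ hh
  show eval (P1 ξ) h = 0
  rw [eval_P1, hh, map_zero]

theorem idl_eq {I : Ideal (P4 k)} (hc : ∀ h ∈ I, ∀ d, homogeneousComponent d h ∈ I)
    (hm : ∀ h : P4 k, Form h → (h ∈ I ↔ aeval ξ h = 0)) : idl ξ k = I := by
  apply le_antisymm
  · refine Ideal.span_le.2 ?_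
    rintro h ⟨hf, hh⟩
    exact (hm h hf).2 (by rw [← iota_k, hh])
  · intro h hh
    rw [← sum_homogeneousComponent h]
    refine Ideal.sum_mem _ fun d _ => Ideal.subset_span ?_
    have hf : Form (homogeneousComponent d h) := ⟨d, homogeneousComponent_isHomogeneous d h⟩
    exact ⟨hf, by rw [iota_k]; exact (hm _ hf).1 (hc h hh d)⟩

end H39c

end PartH39cCBc

section PartH39cCHom

/-! Part C, row Hom: homogenisation, binary forms, interpolation. -/

set_option autoImplicit false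

open MvPolynomial

namespace H39c

universe u

theorem sup_congr {K R : Type u} [CommRing K] [CommRing R] [Algebra K R] {s : Set (Fin 4)}
    {g : P4 K} (hg : g ∈ supported K s) {v v' : Fin 4 → R} (h : ∀ j ∈ s, v j = v' j) :
    aeval v g = aeval v' g := by
  exact hom_congr_vars (f₁ := (aeval v : P4 K →ₐ[K] R).toRingHom)
    (f₂ := (aeval v' : P4 K →ₐ[K] R).toRingHom) (by ext; simp)
    (fun i hi _ => by simpa using h i (mem_supported.1 hg hi)) rfl

theorem bin_iff {K : Type u} [Field K] {g : P4 K} :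
    Bin g ↔ Form g ∧ g ∈ supported K ({0, 3} : Set (Fin 4)) := by
  unfold Bin
  rw [mem_supported]
  exact and_congr_right fun _ => ⟨fun h i hi => h i hi, fun h i hi => h hi⟩

theorem hom_smul {K R : Type u} [CommRing K] [CommRing R] [Algebra K R] {g : P4 K} {n : ℕ}
    (hg : g.IsHomogeneous n) (v : Fin 4 → R) (l : R) :
    aeval (fun i => l * v i) g = l ^ n * aeval v g := by
  rw [aeval_def, aeval_def, eval₂_eq', eval₂_eq', Finset.mul_sum]
  refine Finset.sum_congr rfl fun m hm => ?_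
  have e : ∑ i, m i = n := by
    rw [← Finsupp.degree_eq_sum]
    by_contra c
    exact mem_support_iff.1 hm (hg.coeff_eq_zero c)
  simp only [mul_pow, Finset.prod_mul_distrib, Finset.prod_pow_eq_pow_sum, e]
  ring

theorem hom_ex {L : Type u} [CommRing L] (s : Set (Fin 4)) (hs : (0 : Fin 4) ∈ s) (g : P4 L)
    (hg : g ∈ supported L s) (n : ℕ) (hn : g.totalDegree ≤ n) :
    ∃ h : P4 L, h.IsHomogeneous n ∧ h ∈ supported L s ∧
      ∀ (R : Type u) [CommRing R] [Algebra L R] (v : Fin 4 → R), v 0 = 1 →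
        aeval v h = aeval v g := by
  refine ⟨∑ m ∈ g.support, monomial m (coeff m g) * X 0 ^ (n - m.degree),
    IsHomogeneous.sum _ _ _ fun m hm => ?_, Subalgebra.sum_mem _ fun m hm => ?_, fun R _ _ v hv => ?_⟩
  · have e : m.degree ≤ n := le_trans (le_totalDegree hm) hn
    have := (isHomogeneous_monomial (coeff m g) (rfl : m.degree = m.degree)).mul
      (isHomogeneous_X_pow (R := L) (0 : Fin 4) (n - m.degree))
    rwa [Nat.add_sub_cancel' e] at this
  · refine Subalgebra.mul_mem _ (mem_supported.2 fun i hi => mem_supported.1 hg ?_)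
      (Subalgebra.pow_mem _ (Algebra.subset_adjoin (Set.mem_image_of_mem X hs)) _)
    rw [vars_monomial (mem_support_iff.1 hm)] at hi
    exact (mem_vars_iff_mem_support i).2 ⟨m, hm, hi⟩
  · conv_rhs => rw [g.as_sum]
    simp only [map_sum, map_mul, map_pow, aeval_X, hv, one_pow, mul_one]

theorem spec_of {k : Type u} [Field k] {ξ : Fin 4 → PowerSeries k} (h0 : ξ 0 = 1)
    (L R : Type u) [Field L] [Algebra k L] [CommRing R] [Algebra k R] [Algebra L R]
    [IsScalarTower k L R] : ∀ v ∈ cone ξ R, v 0 = 1 → ∀ g : P4 L, iota ξ L g = 0 →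
      aeval v g = 0 := by
  intro v hv v0 g hg
  obtain ⟨h, h1, -, h3⟩ := hom_ex Set.univ (Set.mem_univ _) g (mem_supported.2 fun _ _ => trivial)
    _ le_rfl
  rw [← h3 R v v0]
  refine idl_ev ξ L R v hv h ((idl_mem ξ L h ⟨_, h1⟩).2 ?_)
  rw [← hg]
  exact h3 _ _ (by rw [h0, map_one])

theorem bin_poly {L : Type u} [Field L] {N : P4 L} (hb : Bin N) (h0 : N ≠ 0) :
    ∃ q : Polynomial L, q ≠ 0 ∧ ∀ (R : Type u) [CommRing R] [Algebra L R] (v : Fin 4 → R),
      v 0 = 1 → aeval v N = Polynomial.aeval (v 3) q := by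
  obtain ⟨⟨d, hd⟩, hs⟩ := bin_iff.1 hb
  have key : ∀ (R : Type u) [CommRing R] [Algebra L R] (v : Fin 4 → R), v 0 = 1 →
      aeval v N = Polynomial.aeval (v 3) (aeval ![1, 0, 0, (Polynomial.X : Polynomial L)] N) := by
    intro R _ _ v hv
    rw [← AlgHom.comp_apply, comp_aeval]
    refine sup_congr hs fun j hj => ?_
    rcases hj with rfl | rfl
    · simp [hv]
    · simp
  refine ⟨_, fun e => h0 ?_, key⟩
  have inj := IsFractionRing.injective (P4 L) (FractionRing (P4 L))
  have x0 : algebraMap (P4 L) (FractionRing (P4 L)) (X 0) ≠ 0 := fun c =>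
    X_ne_zero (R := L) (0 : Fin 4) (inj (c.trans (map_zero _).symm))
  have a := key (FractionRing (P4 L)) (fun i => (algebraMap (P4 L) _ (X 0))⁻¹ *
    algebraMap (P4 L) _ (X i)) (inv_mul_cancel₀ x0)
  have b := aeval_algebraMap_apply (FractionRing (P4 L)) (X : Fin 4 → P4 L) N
  rw [aeval_X_left_apply] at b
  rw [e, map_zero, hom_smul hd] at a
  replace a := (congrArg (_ * ·) b).symm.trans a
  exact inj (((mul_eq_zero.1 a).resolve_left (pow_ne_zero _ (inv_ne_zero x0))).trans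
    (map_zero _).symm)

theorem poly_bin {L : Type u} [Field L] (q : Polynomial L) :
    ∃ N : P4 L, Bin N ∧ ∀ (R : Type u) [CommRing R] [Algebra L R] (v : Fin 4 → R),
      v 0 = 1 → aeval v N = Polynomial.aeval (v 3) q := by
  obtain ⟨h, h1, h2, h3⟩ := hom_ex ({0, 3} : Set (Fin 4)) (by simp)
    (Polynomial.aeval (X 3 : P4 L) q) (Algebra.adjoin_mono (Set.singleton_subset_iff.2
      (Set.mem_image_of_mem X (by simp))) (Polynomial.aeval_mem_adjoin_singleton L _)) _ le_rfl
  refine ⟨h, bin_iff.2 ⟨⟨_, h1⟩, h2⟩, fun R _ _ v hv => ?_⟩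
  rw [h3 R v hv, ← Polynomial.aeval_algHom_apply, aeval_X]

theorem chom_lin {K : Type u} [Field K] (i j : Fin 4) (c : K) :
    (X i - C c * X j : P4 K).IsHomogeneous 1 :=
  (isHomogeneous_X _ _).sub ((isHomogeneous_X _ _).C_mul _)

theorem chom_interp {K : Type u} [Field K] (S : Subalgebra K (P4 K)) (T : Finset (Fin 4 → K))
    (n : ℕ) (hn : T.card ≤ n) (val : (Fin 4 → K) → K)
    (h1 : ∀ z ∈ T, ∀ z' ∈ T, z ≠ z' → ∃ l ∈ S, l.IsHomogeneous 1 ∧ eval z' l = 0 ∧ eval z l ≠ 0)
    (h2 : ∀ z ∈ T, ∃ l ∈ S, l.IsHomogeneous 1 ∧ eval z l ≠ 0) :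
    ∃ s ∈ S, s.IsHomogeneous n ∧ ∀ z ∈ T, eval z s = val z := by
  classical
  have one : ∀ z ∈ T, ∃ s ∈ S, s.IsHomogeneous n ∧ eval z s = val z ∧
      ∀ z' ∈ T, z' ≠ z → eval z' s = 0 := fun z hz => by
    choose! l l1 l2 l3 l4 using h1 z hz
    obtain ⟨m, m1, m2, m3⟩ := h2 z hz
    have e : ∀ y ∈ T.erase z, y ∈ T ∧ z ≠ y := fun y hy =>
      ⟨(Finset.mem_erase.1 hy).2, (Finset.mem_erase.1 hy).1.symm⟩
    have p1 := IsHomogeneous.prod (T.erase z) l (fun _ => 1) fun y hy => l2 y (e y hy).1 (e y hy).2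
    have p2 : eval z ((∏ y ∈ T.erase z, l y) * m ^ (n - (T.erase z).card)) ≠ 0 := by
      rw [map_mul, map_prod, map_pow]
      exact mul_ne_zero (Finset.prod_ne_zero_iff.2 fun y hy => l4 y (e y hy).1 (e y hy).2)
        (pow_ne_zero _ m3)
    refine ⟨C (val z / eval z ((∏ y ∈ T.erase z, l y) * m ^ (n - (T.erase z).card))) *
      ((∏ y ∈ T.erase z, l y) * m ^ (n - (T.erase z).card)), S.mul_mem (S.algebraMap_mem _)
      (S.mul_mem (S.prod_mem fun y hy => l1 y (e y hy).1 (e y hy).2) (S.pow_mem m1 _)), ?_, ?_,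
      fun y hy hne => ?_⟩
    · have := (p1.mul (m2.pow (n - (T.erase z).card))).C_mul
        (val z / eval z ((∏ y ∈ T.erase z, l y) * m ^ (n - (T.erase z).card)))
      rwa [Finset.sum_const, smul_eq_mul, mul_one, one_mul,
        Nat.add_sub_cancel' (Finset.card_erase_le.trans hn)] at this
    · rw [map_mul, eval_C, div_mul_cancel₀ _ p2]
    · rw [map_mul (eval y), map_mul (eval y), map_prod (eval y), Finset.prod_eq_zero
        (f := fun w => eval y (l w)) (Finset.mem_erase.2 ⟨hne, hy⟩) (l3 y hy hne.symm), zero_mul,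
        mul_zero]
  choose! s s1 s2 s3 s4 using one
  refine ⟨∑ z ∈ T, s z, S.sum_mem s1, IsHomogeneous.sum _ _ _ s2, fun z hz => ?_⟩
  rw [map_sum, Finset.sum_eq_single_of_mem z hz fun y hy hne => s4 y hy z hz hne.symm, s3 z hz]

theorem interp {K : Type u} [Field K] [Infinite K] (T : Finset (Fin 4 → K))
    (hT : ∀ z ∈ T, Nrm z) (n : ℕ) (hn : T.card ≤ n) (val : (Fin 4 → K) → K) :
    ∃ s : P4 K, s.IsHomogeneous n ∧ ∀ z ∈ T, eval z s = val z := by
  obtain ⟨s, -, h⟩ := chom_interp ⊤ T n hn val (fun z hz z' hz' hne => by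
      obtain ⟨i, hi⟩ := Function.ne_iff.1 hne
      rcases hT z hz with a | ⟨a, a'⟩ <;> rcases hT z' hz' with b | ⟨b, b'⟩
      · exact ⟨X i - C (z' i) * X 0, trivial, chom_lin _ _ _, by simp [b],
          by simpa [a, sub_eq_zero] using hi⟩
      · exact ⟨X 0, trivial, isHomogeneous_X _ _, by simp [b], by simp [a]⟩
      · exact ⟨X 3 - C (z' 3) * X 0, trivial, chom_lin _ _ _, by simp [b], by simp [a, a']⟩
      · exact ⟨X i - C (z' i) * X 3, trivial, chom_lin _ _ _, by simp [b'],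
          by simpa [a', sub_eq_zero] using hi⟩) fun z hz => by
      rcases hT z hz with a | ⟨-, a⟩
      · exact ⟨X 0, trivial, isHomogeneous_X _ _, by simp [a]⟩
      · exact ⟨X 3, trivial, isHomogeneous_X _ _, by simp [a]⟩
  exact ⟨s, h⟩

theorem interp3 {K : Type u} [Field K] (T : Finset (Fin 4 → K)) (hT : ∀ z ∈ T, z 0 = 1)
    (hi : ∀ z ∈ T, ∀ z' ∈ T, z 1 = z' 1 → z 3 = z' 3 → z = z') (n : ℕ) (hn : T.card ≤ n)
    (val : (Fin 4 → K) → K) : ∃ s ∈ F3 K n, ∀ z ∈ T, eval z s = val z := by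
  have x : ∀ i ∈ ({0, 1, 3} : Set (Fin 4)), (X i : P4 K) ∈ supported K ({0, 1, 3} : Set (Fin 4)) :=
    fun i hi => Algebra.subset_adjoin (Set.mem_image_of_mem X hi)
  obtain ⟨s, h1, h2, h3⟩ := chom_interp (supported K ({0, 1, 3} : Set (Fin 4))) T n hn val
    (fun z hz z' hz' hne => by
      obtain ⟨i, i1, i2⟩ : ∃ i ∈ ({0, 1, 3} : Set (Fin 4)), z i ≠ z' i := by
        by_contra c
        push Not at c
        exact hne (hi z hz z' hz' (c 1 (by simp)) (c 3 (by simp)))
      exact ⟨X i - C (z' i) * X 0, Subalgebra.sub_mem _ (x i i1) (Subalgebra.mul_mem _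
        (Subalgebra.algebraMap_mem _ _) (x 0 (by simp))), chom_lin _ _ _, by simp [hT z' hz'],
        by simpa [hT z hz, sub_eq_zero] using i2⟩)
    fun z hz => ⟨X 0, x 0 (by simp), isHomogeneous_X _ _, by simp [hT z hz]⟩
  exact ⟨s, ⟨h2, h1⟩, h3⟩

theorem lin_ne {K : Type u} [Field K] [Infinite K] (T : Finset (Fin 4 → K))
    (hT : ∀ z ∈ T, Nrm z) : ∃ c : K, ∀ z ∈ T, z 0 + c * z 3 ≠ 0 := by
  classical
  obtain ⟨c, hc⟩ := Infinite.exists_notMem_finset (T.image fun z => -z 0 / z 3)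
  refine ⟨c, fun z hz e => hc (Finset.mem_image.2 ⟨z, hz, ?_⟩)⟩
  have h3 : z 3 ≠ 0 := fun h => by
    rcases hT z hz with a | ⟨-, a⟩
    · simp [a, h] at e
    · simp [a] at h
  rw [div_eq_iff h3]
  linear_combination -e

end H39c

end PartH39cCHom

section PartH39cCMon

/-! Part C, row Mon: monic forms, dual numbers. -/

set_option autoImplicit false

open MvPolynomial

namespace H39c

universe u

section
variable {K R : Type u} [CommRing K] [CommRing R] [Algebra K R] {i : Fin 4} {D : ℕ} {φ : P4 K}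

theorem cmon_C (a : K) (u : Fin 4 → R) : mp i (C a) u = Polynomial.C (algebraMap K R a) := by
  simp [mp]

theorem cmon_add (p q : P4 K) (u : Fin 4 → R) : mp i (p + q) u = mp i p u + mp i q u :=
  map_add _ _ _

theorem cmon_mul (p q : P4 K) (u : Fin 4 → R) : mp i (p * q) u = mp i p u * mp i q u :=
  map_mul _ _ _

theorem cmon_X (j : Fin 4) (u : Fin 4 → R) :
    mp i (X j : P4 K) u = if j = i then Polynomial.X else Polynomial.C (u j) := by
  simp only [mp, aeval_X, Function.update_apply]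

theorem cmon_mono (d : Fin 4 →₀ ℕ) (a : K) (u : Fin 4 → R) : mp i (monomial d a) u =
    Polynomial.C (algebraMap K R a * ∏ j ∈ Finset.univ.erase i, u j ^ d j) *
      Polynomial.X ^ d i := by
  rw [mp, aeval_monomial, Finsupp.prod_fintype _ _ (fun _ => pow_zero _),
    ← Finset.mul_prod_erase _ _ (Finset.mem_univ i), Function.update_self,
    Finset.prod_congr rfl fun j hj => by
      rw [Function.update_of_ne (Finset.ne_of_mem_erase hj)]]
  simp only [map_mul, map_prod, map_pow, Polynomial.algebraMap_apply]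
  ring

theorem cmon_coeff (u : Fin 4 → R) (n : ℕ) : (mp i φ u).coeff n = ∑ d ∈ φ.support,
    if n = d i then algebraMap K R (coeff d φ) * ∏ j ∈ Finset.univ.erase i, u j ^ d j else 0 := by
  have h : mp i φ u = ∑ d ∈ φ.support, mp i (monomial d (coeff d φ)) u := by
    conv_lhs => rw [φ.as_sum]
    exact map_sum _ _ _
  rw [h, Polynomial.finsetSum_coeff]
  exact Finset.sum_congr rfl fun d _ => by rw [cmon_mono, Polynomial.coeff_C_mul_X_pow]

theorem cmon_deg (hh : φ.IsHomogeneous D) {d : Fin 4 →₀ ℕ} (hd : d ∈ φ.support) :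
    d i + ∑ j ∈ Finset.univ.erase i, d j = D := by
  rw [Finset.add_sum_erase _ _ (Finset.mem_univ i)]
  have h := hh (mem_support_iff.1 hd)
  rw [Finsupp.weight_apply, Finsupp.sum_fintype _ _ (fun _ => by simp)] at h
  simpa using h

theorem cmon_le (hh : φ.IsHomogeneous D) (u : Fin 4 → R) : (mp i φ u).natDegree ≤ D := by
  refine Polynomial.natDegree_le_iff_coeff_eq_zero.2 fun n hn => ?_
  rw [cmon_coeff]
  refine Finset.sum_eq_zero fun d hd => if_neg ?_
  have := cmon_deg (i := i) hh hd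
  omega

theorem cmon_top (hh : φ.IsHomogeneous D) (h1 : eval (Pi.single i 1) φ = 1) (u : Fin 4 → R) :
    (mp i φ u).coeff D = 1 := by
  rw [cmon_coeff, ← map_one (algebraMap K R), ← h1, eval_eq', map_sum]
  refine Finset.sum_congr rfl fun d hd => ?_
  have h := cmon_deg (i := i) hh hd
  rw [← Finset.mul_prod_erase _ _ (Finset.mem_univ i), Pi.single_eq_same, one_pow, one_mul]
  split_ifs with hD
  · have h0 : ∀ j ∈ Finset.univ.erase i, d j = 0 :=
      Finset.sum_eq_zero_iff.1 (by omega)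
    rw [Finset.prod_eq_one fun j hj => by rw [h0 j hj, pow_zero],
      Finset.prod_eq_one fun j hj => by rw [h0 j hj, pow_zero], mul_one, mul_one]
  · obtain ⟨j, hj, hj0⟩ := Finset.exists_ne_zero_of_sum_ne_zero
      (s := Finset.univ.erase i) (f := fun j => d j) (by omega)
    rw [Finset.prod_eq_zero hj
      (by rw [Pi.single_eq_of_ne (Finset.ne_of_mem_erase hj), zero_pow hj0]), mul_zero, map_zero]

theorem mp_monic (hh : φ.IsHomogeneous D) (h1 : eval (Pi.single i 1) φ = 1) (u : Fin 4 → R) :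
    (mp i φ u).Monic := by
  exact Polynomial.monic_of_natDegree_le_of_coeff_eq_one D (cmon_le hh u) (cmon_top hh h1 u)

theorem mp_deg [Nontrivial R] (hh : φ.IsHomogeneous D) (h1 : eval (Pi.single i 1) φ = 1)
    (u : Fin 4 → R) : (mp i φ u).natDegree = D := by
  exact Polynomial.natDegree_eq_of_le_of_coeff_ne_zero (cmon_le hh u)
    (by rw [cmon_top hh h1 u]; exact one_ne_zero)

theorem mp_eval (u : Fin 4 → R) (t : R) :
    (mp i φ u).eval t = aeval (Function.update u i t) φ := by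
  induction φ using MvPolynomial.induction_on with
  | C a => rw [cmon_C, Polynomial.eval_C, aeval_C]
  | add p q hp hq => rw [cmon_add, Polynomial.eval_add, hp, hq, map_add]
  | mul_X p j hp =>
    rw [cmon_mul, Polynomial.eval_mul, hp, map_mul, cmon_X, aeval_X, Function.update_apply]
    split_ifs <;> simp

theorem mp_deriv (u : Fin 4 → R) :
    Polynomial.derivative (mp i φ u) = mp i (pderiv i φ) u := by
  induction φ using MvPolynomial.induction_on with
  | C a => rw [cmon_C, Polynomial.derivative_C, pderiv_C, mp, map_zero]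
  | add p q hp hq => rw [cmon_add, map_add, hp, hq, map_add, cmon_add]
  | mul_X p j hp =>
    rw [cmon_mul, Polynomial.derivative_mul, hp, pderiv_mul, cmon_add, cmon_mul, cmon_mul, cmon_X]
    congr 2
    split_ifs with h
    · rw [h, pderiv_X_self, Polynomial.derivative_X, mp, map_one]
    · rw [pderiv_X_of_ne h, Polynomial.derivative_C, mp, map_zero]

theorem mp_map {R' : Type u} [CommRing R'] [Algebra K R'] (f : R →ₐ[K] R') (u : Fin 4 → R) :
    (mp i φ u).map (f : R →+* R') = mp i φ (fun j => f (u j)) := by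
  induction φ using MvPolynomial.induction_on with
  | C a => rw [cmon_C, cmon_C, Polynomial.map_C, RingHom.coe_coe, f.commutes]
  | add p q hp hq => rw [cmon_add, cmon_add, Polynomial.map_add, hp, hq]
  | mul_X p j hp =>
    rw [cmon_mul, cmon_mul, Polynomial.map_mul, hp, cmon_X, cmon_X]
    split_ifs <;> simp

theorem Mon.map (h : Mon i D φ) : Mon i D (MvPolynomial.map (algebraMap K R) φ) := by
  refine ⟨h.hom.map _, mem_supported.2 ?_, ?_⟩
  · exact (Finset.coe_subset.2 (vars_map _ _)).trans (mem_supported.1 h.sup)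
  · have h2 : (Pi.single i 1 : Fin 4 → R) = algebraMap K R ∘ (Pi.single i 1 : Fin 4 → K) := by
      funext j
      simp only [Function.comp, Pi.single_apply]
      split_ifs <;> simp
    rw [eval_map, h2, ← eval₂_comp, h.one, map_one]

theorem Mon.dec (h : Mon i D φ) (hi : i = 1 ∨ i = 2) : ∃ c : ℕ → P4 K,
    (∀ j, j < D → (c j).IsHomogeneous (D - j) ∧ c j ∈ supported K ({0, 3} : Set (Fin 4))) ∧
    φ = X i ^ D + ∑ j ∈ Finset.range D, c j * X i ^ j := by
  refine ⟨fun j => (mp i φ (X : Fin 4 → P4 K)).coeff j, fun j _ => ⟨?_, ?_⟩, ?_⟩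
  · simp only [cmon_coeff]
    refine IsHomogeneous.sum _ _ _ fun d hd => ?_
    split_ifs with hj
    · have h2 := cmon_deg (i := i) h.hom hd
      have h3 := (isHomogeneous_C (Fin 4) (coeff d φ)).mul
        (IsHomogeneous.prod (Finset.univ.erase i) (fun l => (X l : P4 K) ^ d l) (fun l => d l)
          fun l _ => isHomogeneous_X_pow l (d l))
      rw [show 0 + ∑ l ∈ Finset.univ.erase i, d l = D - j by omega] at h3
      exact h3
    · exact isHomogeneous_zero _ _ _
  · simp only [cmon_coeff]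
    refine Subalgebra.sum_mem _ fun d hd => ?_
    split_ifs with hj
    · refine mul_mem (Subalgebra.algebraMap_mem _ _) (Subalgebra.prod_mem _ fun l hl => ?_)
      by_cases h0 : d l = 0
      · rw [h0, pow_zero]
        exact one_mem _
      · refine pow_mem (Algebra.subset_adjoin (Set.mem_image_of_mem X ?_)) _
        have h2 := mem_supported.1 h.sup
          ((mem_vars_iff_mem_support l).2 ⟨d, hd, Finsupp.mem_support_iff.2 h0⟩)
        have h3 := Finset.ne_of_mem_erase hl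
        simp only [Set.mem_insert_iff, Set.mem_singleton_iff] at h2 ⊢
        tauto
    · exact zero_mem _
  · have h2 := mp_eval (i := i) (φ := φ) (X : Fin 4 → P4 K) (X i)
    rw [Function.update_eq_self, aeval_X_left_apply,
      Polynomial.eval_eq_sum_range' (Nat.lt_succ_of_le (cmon_le h.hom _)), Finset.sum_range_succ,
      cmon_top h.hom h.one, one_mul, add_comm] at h2
    exact h2.symm

theorem dual_ev (v w : Fin 4 → R) (h : P4 K) :
    aeval (fun j => (TrivSqZeroExt.inl (v j) + TrivSqZeroExt.inr (w j) : DualNumber R)) h =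
      (TrivSqZeroExt.inl (aeval v h) +
        TrivSqZeroExt.inr (∑ j, aeval v (pderiv j h) * w j) : DualNumber R) := by
  induction h using MvPolynomial.induction_on with
  | C a => simp [TrivSqZeroExt.algebraMap_eq_inl']
  | add p q hp hq =>
    simp only [map_add, hp, hq, add_mul, Finset.sum_add_distrib, TrivSqZeroExt.inl_add,
      TrivSqZeroExt.inr_add]
    abel
  | mul_X p l hp =>
    have h2 : ∑ j, aeval v (pderiv j (p * X l)) * w j =
        (∑ j, aeval v (pderiv j p) * w j) * v l + aeval v p * w l := by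
      simp only [pderiv_mul, map_add, map_mul, aeval_X, add_mul, Finset.sum_add_distrib,
        Finset.sum_mul]
      congr 1
      · exact Finset.sum_congr rfl fun j _ => by ring
      · rw [Finset.sum_eq_single l (fun j _ hj => by rw [pderiv_X_of_ne hj.symm]; simp) (by simp),
          pderiv_X_self, map_one, mul_one]
    rw [map_mul, hp, h2, aeval_X, map_mul, aeval_X]
    ext
    · simp
    · simp [add_comm]

theorem pderiv_sup {s : Set (Fin 4)} (h : φ ∈ supported K s) (j : Fin 4) :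
    pderiv j φ ∈ supported K s ∧ (j ∉ s → pderiv j φ = 0) := by
  refine ⟨?_, fun hj => pderiv_eq_zero_of_notMem_vars fun hv => hj (mem_supported.1 h hv)⟩
  induction h using Algebra.adjoin_induction with
  | mem x hx =>
    obtain ⟨l, _, rfl⟩ := hx
    by_cases hl : l = j
    · rw [hl, pderiv_X_self]
      exact one_mem _
    · rw [pderiv_X_of_ne hl]
      exact zero_mem _
  | algebraMap a =>
    rw [algebraMap_eq, pderiv_C]
    exact zero_mem _
  | add x y _ _ hx hy =>
    rw [map_add]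
    exact add_mem hx hy
  | mul x y hx' hy' hx hy =>
    rw [pderiv_mul]
    exact add_mem (mul_mem hx hy') (mul_mem hx' hy)

end

end H39c

end PartH39cCMon

section PartH39cCNorm

/-! Part C, row Norm: norms and points of the chart. -/

set_option autoImplicit false

open MvPolynomial

namespace H39c

universe u

theorem cnorm_comp {L : Type u} [Field L] (g a : P4 L) {D : ℕ} (ha : a.IsHomogeneous D) (d : ℕ) :
    ∃ g' : P4 L, homogeneousComponent d (g * a) = g' * a := by
  induction g using MvPolynomial.induction_on' with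
  | monomial s c =>
    have h1 : (monomial s c * a).IsHomogeneous (s.degree + D) :=
      (isHomogeneous_monomial c rfl).mul ha
    rw [homogeneousComponent_of_mem h1]
    split_ifs
    exacts [⟨_, rfl⟩, ⟨0, (zero_mul _).symm⟩]
  | add f g hf hg =>
    obtain ⟨f', hf⟩ := hf
    obtain ⟨g', hg⟩ := hg
    exact ⟨f' + g', by rw [add_mul, map_add, hf, hg, add_mul]⟩

theorem cnorm_int {L : Type u} [Field L] {I : Ideal (P4 L)} {i : Fin 4} {D : ℕ} {φ : P4 L}
    (m : Mon i D φ) (hi : φ ∈ I) :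
    IsIntegral (supported L ({0, 3} : Set (Fin 4))) (Ideal.Quotient.mk I (X i : P4 L)) := by
  let u : Fin 4 → supported L ({0, 3} : Set (Fin 4)) :=
    ![⟨X 0, X_mem_supported.2 (by simp)⟩, 0, 0, ⟨X 3, X_mem_supported.2 (by simp)⟩]
  let f : supported L ({0, 3} : Set (Fin 4)) →ₐ[L] P4 L ⧸ I :=
    (Ideal.Quotient.mkₐ L I).comp (Subalgebra.val _)
  refine ⟨mp i φ u, mp_monic m.hom m.one u, ?_⟩
  have e : algebraMap (supported L ({0, 3} : Set (Fin 4))) (P4 L ⧸ I) = (f : _ →+* _) := rfl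
  rw [Polynomial.eval₂_eq_eval_map, e, mp_map, mp_eval,
    sup_congr m.sup (v' := fun j => Ideal.Quotient.mkₐ L I (X j)), ← comp_aeval_apply,
    aeval_X_left_apply]
  · exact Ideal.Quotient.eq_zero_iff_mem.2 hi
  · intro j hj
    by_cases e : j = i
    · rw [e, Function.update_self]
      rfl
    · rw [Function.update_of_ne e]
      rcases hj with rfl | rfl | rfl
      exacts [rfl, absurd rfl e, rfl]

theorem norm_ex {L : Type u} [Field L] {I : Ideal (P4 L)} (hI : I.IsPrime)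
    (hc : ∀ h ∈ I, ∀ d, homogeneousComponent d h ∈ I) {D r : ℕ} {φ φ2 : P4 L} (m1 : Mon 1 D φ)
    (i1 : φ ∈ I) (m2 : Mon 2 r φ2) (i2 : φ2 ∈ I) {h : P4 L} (hf : Form h) (hn : h ∉ I) :
    ∃ N h' : P4 L, N ≠ 0 ∧ Bin N ∧ N - h' * h ∈ I := by
  have base : ∀ g ∈ supported L ({0, 3} : Set (Fin 4)),
      IsIntegral (supported L ({0, 3} : Set (Fin 4))) (Ideal.Quotient.mk I g) := fun g hg =>
    isIntegral_algebraMap (x := (⟨g, hg⟩ : supported L ({0, 3} : Set (Fin 4))))
  have int : ∀ g : P4 L,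
      IsIntegral (supported L ({0, 3} : Set (Fin 4))) (Ideal.Quotient.mk I g) := by
    intro g
    induction g using MvPolynomial.induction_on with
    | C a => exact base _ (Subalgebra.algebraMap_mem _ a)
    | add f g hf hg => rw [map_add]; exact hf.add hg
    | mul_X f i hf =>
      rw [map_mul]
      refine hf.mul ?_
      fin_cases i
      exacts [base _ (X_mem_supported.2 (by simp)), cnorm_int m1 i1, cnorm_int m2 i2,
        base _ (X_mem_supported.2 (by simp))]
  obtain ⟨⟨N, hN⟩, N0, s, hs⟩ := (int h).isAlgebraic.exists_nonzero_dvd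
    (mem_nonZeroDivisors_of_ne_zero (mt Ideal.Quotient.eq_zero_iff_mem.1 hn))
  obtain ⟨s, rfl⟩ := Ideal.Quotient.mk_surjective s
  have m : N - s * h ∈ I := by
    rw [← Ideal.Quotient.eq, map_mul, mul_comm]
    exact hs
  have N1 : N ≠ 0 := fun z => N0 (Subtype.ext z)
  obtain ⟨d, hd⟩ : ∃ d, homogeneousComponent d N ≠ 0 := by
    by_contra z
    push Not at z
    exact N1 (by rw [← sum_homogeneousComponent N]; simp [z])
  obtain ⟨e, he⟩ := hf
  obtain ⟨g', hg'⟩ := cnorm_comp s h he d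
  refine ⟨homogeneousComponent d N, g', hd, ⟨⟨d, homogeneousComponent_isHomogeneous d N⟩,
    fun i hi => ?_⟩, ?_⟩
  · obtain ⟨t, ht, it⟩ := (mem_vars_iff_mem_support i).1 hi
    have : t ∈ N.support := by
      rw [mem_support_iff, coeff_homogeneousComponent] at ht
      exact mem_support_iff.2 fun z => ht (by simp [z])
    exact mem_supported.1 hN ((mem_vars_iff_mem_support i).2 ⟨t, this, it⟩)
  · rw [← hg', ← map_sub]
    exact hc _ m d

theorem Ch.pt {k : Type u} [Field k] {I : Ideal (P4 k)} {D r d0 : ℕ} {φ φ2 δ0 ψ Δ b : P4 k}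
    (h : Ch I D r d0 φ φ2 δ0 ψ Δ b) {R : Type u} [CommRing R] [Algebra k R] (v : Fin 4 → R)
    (h1 : aeval v φ = 0) (h2 : IsUnit (aeval v δ0)) (h3 : aeval v (δ0 * X 2 - ψ) = 0) :
    ∀ g ∈ I, aeval v g = 0 := by
  have sδ : δ0 ∈ supported k ({0, 1, 3} : Set (Fin 4)) :=
    supported_mono (by intro j; simp only [Set.mem_insert_iff, Set.mem_singleton_iff]; tauto) h.sδ
  have red : ∀ g : P4 k, ∃ (n : ℕ) (g3 q : P4 k), g3 ∈ supported k ({0, 1, 3} : Set (Fin 4)) ∧
      δ0 ^ n * g = g3 + q * (δ0 * X 2 - ψ) := by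
    intro g
    induction g using MvPolynomial.induction_on with
    | C a => exact ⟨0, C a, 0, Subalgebra.algebraMap_mem _ a, by simp⟩
    | add f g hf hg =>
      obtain ⟨n, f3, q, s, e⟩ := hf
      obtain ⟨n', g3, q', s', e'⟩ := hg
      exact ⟨n + n', δ0 ^ n' * f3 + δ0 ^ n * g3, δ0 ^ n' * q + δ0 ^ n * q',
        add_mem (mul_mem (pow_mem sδ _) s) (mul_mem (pow_mem sδ _) s'),
        by linear_combination δ0 ^ n' * e + δ0 ^ n * e'⟩
    | mul_X f i hf =>
      obtain ⟨n, f3, q, s, e⟩ := hf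
      by_cases hi : i = 2
      · subst hi
        exact ⟨n + 1, f3 * ψ, f3 + q * δ0 * X 2, mul_mem s h.sψ,
          by linear_combination δ0 * X 2 * e⟩
      · refine ⟨n, f3 * X i, q * X i, mul_mem s (X_mem_supported.2 ?_),
          by linear_combination X i * e⟩
        fin_cases i
        exacts [by simp, by simp, absurd rfl hi, by simp]
  intro g hg
  obtain ⟨n, g3, q, s, e⟩ := red g
  have m : g3 ∈ I := by
    rw [show g3 = δ0 ^ n * g - q * (δ0 * X 2 - ψ) by linear_combination -e]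
    exact I.sub_mem (I.mul_mem_left _ hg) (I.mul_mem_left _ h.i3)
  obtain ⟨t, ht⟩ := h.min g3 s m
  have := congrArg (aeval v) e
  rw [map_mul, map_add, map_mul _ q, h3, ht, map_mul _ φ, h1, map_pow, zero_mul, mul_zero,
    add_zero] at this
  exact ((h2.pow n).mul_right_eq_zero).1 this

end H39c

end PartH39cCNorm

section PartH39cCDim

/-! Part C, row Dim: dimension of BN. -/

set_option autoImplicit false

open MvPolynomial

namespace H39c

universe u

variable {k : Type u} [Field k] [IsAlgClosed k] {ξ : Fin 4 → PowerSeries k} {D r d0 : ℕ}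
  {φ φ2 δ0 ψ Δ b : P4 k}

theorem F3_fin (L : Type u) [Field L] (N : ℕ) : FiniteDimensional L (F3 L N) := by
  have h1 : F3 L N ≤ restrictTotalDegree (Fin 4) L N := by
    intro g hg
    rw [mem_restrictTotalDegree]
    exact (hg.1 : g.IsHomogeneous N).totalDegree_le
  exact Submodule.finiteDimensional_of_le h1

theorem F3_mul {L : Type u} [Field L] {M N : ℕ} {g h : P4 L} (hg : g ∈ F3 L M) (hh : h ∈ F3 L N) :
    g * h ∈ F3 L (M + N) := by
  refine ⟨(hg.1 : g.IsHomogeneous M).mul (hh.1 : h.IsHomogeneous N), ?_⟩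
  exact (supported L ({0, 1, 3} : Set (Fin 4))).mul_mem hg.2 hh.2

theorem bb_add (D N j : ℕ) : bb D (N + j) ≤ bb D N + D * j := by
  unfold bb
  calc ∑ l ∈ Finset.range D, (N + j + 1 - l) ≤ ∑ l ∈ Finset.range D, ((N + 1 - l) + j) :=
        Finset.sum_le_sum (fun l _ => by omega)
    _ = ∑ l ∈ Finset.range D, (N + 1 - l) + D * j := by
        rw [Finset.sum_add_distrib, Finset.sum_const, Finset.card_range, smul_eq_mul]

theorem bb_ge (D N : ℕ) : D * (N + 2) ≤ bb D N + D * D := by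
  unfold bb
  calc D * (N + 2) = ∑ _l ∈ Finset.range D, (N + 2) := by
        rw [Finset.sum_const, Finset.card_range, smul_eq_mul]
    _ ≤ ∑ l ∈ Finset.range D, ((N + 1 - l) + D) :=
        Finset.sum_le_sum (fun l hl => by have := Finset.mem_range.1 hl; omega)
    _ = ∑ l ∈ Finset.range D, (N + 1 - l) + D * D := by
        rw [Finset.sum_add_distrib, Finset.sum_const, Finset.card_range, smul_eq_mul]

/-- value of a form on a normalised branch, monomial by monomial -/
theorem cdim_mem {L : Type u} [Field L] (η : Fin 4 → PowerSeries L) (h0 : η 0 = 1)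
    (h3 : η 3 = PowerSeries.X) (s : Set (Fin 4)) (h2 : (2 : Fin 4) ∉ s) {n : ℕ} {g : P4 L}
    (hg : g.IsHomogeneous n) (hs : g ∈ supported L s) (W : Submodule L (PowerSeries L))
    (hW : ∀ i j : ℕ, i + j ≤ n → ((1 : Fin 4) ∉ s → j = 0) →
      PowerSeries.X ^ i * η 1 ^ j ∈ W) : aeval η g ∈ W := by
  classical
  rw [g.as_sum, map_sum]
  refine W.sum_mem (fun m hm => ?_)
  have hv : ∀ i : Fin 4, i ∉ s → m i = 0 := by
    intro i hi
    by_contra hne
    exact hi (mem_supported.1 hs ((mem_vars_iff_mem_support i).2 ⟨m, hm, Finsupp.mem_support_iff.2 hne⟩))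
  have hd : m 0 + m 1 + m 2 + m 3 = n := by
    have h1 := hg (mem_support_iff.1 hm)
    rw [Finsupp.weight_apply, Finsupp.sum_fintype _ _ (by simp), Fin.sum_univ_four] at h1
    simpa using h1
  rw [aeval_monomial, Finsupp.prod_fintype _ _ (by simp), Fin.prod_univ_four, h0, h3, hv 2 h2,
    one_pow, pow_zero, one_mul, mul_one, ← Algebra.smul_def, mul_comm]
  exact W.smul_mem _ (hW _ _ (by omega) (fun h1 => hv 1 h1))

/-- the spanning family -/
noncomputable def cdimE {L : Type u} [Field L] (t : PowerSeries L) (D N : ℕ)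
    (x : Σ j : Fin D, Fin (N + 1 - (j : ℕ))) : PowerSeries L :=
  PowerSeries.X ^ (x.2 : ℕ) * t ^ (x.1 : ℕ)

/-- the forms giving the family -/
noncomputable def cdimG (L : Type u) [Field L] (D N : ℕ)
    (x : Σ j : Fin D, Fin (N + 1 - (j : ℕ))) : P4 L :=
  X 0 ^ (N - x.1 - x.2) * (X 3 ^ (x.2 : ℕ) * X 1 ^ (x.1 : ℕ))

theorem cdimG_mem (L : Type u) [Field L] (D N : ℕ) (x : Σ j : Fin D, Fin (N + 1 - (j : ℕ))) :
    cdimG L D N x ∈ F3 L N := by
  have hx := x.2.2
  refine ⟨?_, ?_⟩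
  · have h1 := (isHomogeneous_X_pow (R := L) (0 : Fin 4) (N - x.1 - x.2)).mul
      ((isHomogeneous_X_pow (R := L) (3 : Fin 4) (x.2 : ℕ)).mul
        (isHomogeneous_X_pow (R := L) (1 : Fin 4) (x.1 : ℕ)))
    have h2 : N - x.1 - x.2 + ((x.2 : ℕ) + (x.1 : ℕ)) = N := by omega
    rw [h2] at h1
    exact h1
  · have hX : ∀ i : Fin 4, i ∈ ({0, 1, 3} : Set (Fin 4)) →
        (X i : P4 L) ∈ supported L ({0, 1, 3} : Set (Fin 4)) := fun i hi => X_mem_supported.2 hi
    exact (supported L _).mul_mem ((supported L _).pow_mem (hX 0 (by simp)) _)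
      ((supported L _).mul_mem ((supported L _).pow_mem (hX 3 (by simp)) _)
        ((supported L _).pow_mem (hX 1 (by simp)) _))

theorem cdimG_ev {L : Type u} [Field L] (η : Fin 4 → PowerSeries L) (h0 : η 0 = 1)
    (h3 : η 3 = PowerSeries.X) (D N : ℕ) (x : Σ j : Fin D, Fin (N + 1 - (j : ℕ))) :
    aeval η (cdimG L D N x) = cdimE (η 1) D N x := by
  simp [cdimG, cdimE, h0, h3]

theorem cdim_span {L : Type u} [Field L] (η : Fin 4 → PowerSeries L) (h0 : η 0 = 1)
    (h3 : η 3 = PowerSeries.X) {D : ℕ} {f : P4 L} (hm : Mon 1 D f) (hf : aeval η f = 0) (N : ℕ) :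
    ∀ j i : ℕ, i + j ≤ N →
      PowerSeries.X ^ i * η 1 ^ j ∈ Submodule.span L (Set.range (cdimE (η 1) D N)) := by
  obtain ⟨c, hc, hdec⟩ := hm.dec (Or.inl rfl)
  intro j
  induction j using Nat.strong_induction_on with
  | _ j ih =>
    intro i hij
    by_cases hj : j < D
    · exact Submodule.subset_span ⟨⟨⟨j, hj⟩, ⟨i, by simp only; omega⟩⟩, rfl⟩
    · have ht : η 1 ^ D = -∑ l ∈ Finset.range D, aeval η (c l) * η 1 ^ l := by
        have h1 := hf
        rw [hdec] at h1
        simp only [map_add, map_pow, aeval_X, map_sum, map_mul] at h1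
        exact eq_neg_of_add_eq_zero_left h1
      have hj' : j = (j - D) + D := by omega
      rw [hj', pow_add, ht, mul_neg, mul_neg, Finset.mul_sum, Finset.mul_sum]
      refine Submodule.neg_mem _ (Submodule.sum_mem _ (fun l hl => ?_))
      have hl' := Finset.mem_range.1 hl
      have h2 := cdim_mem η h0 h3 ({0, 3} : Set (Fin 4)) (by simp) (hc l hl').1 (hc l hl').2
        ((Submodule.span L (Set.range (cdimE (η 1) D N))).comap
          (LinearMap.mulLeft L (PowerSeries.X ^ i * η 1 ^ (j - D + l)))) (by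
            intro a e hae he
            have he0 : e = 0 := he (by simp)
            subst he0
            rw [Submodule.mem_comap, LinearMap.mulLeft_apply]
            have h4 : PowerSeries.X ^ i * η 1 ^ (j - D + l) * (PowerSeries.X ^ a * η 1 ^ 0) =
                PowerSeries.X ^ (i + a) * η 1 ^ (j - D + l) := by ring
            rw [h4]
            exact ih _ (by omega) _ (by omega))
      rw [Submodule.mem_comap, LinearMap.mulLeft_apply] at h2
      have h5 : PowerSeries.X ^ i * (η 1 ^ (j - D) * (aeval η (c l) * η 1 ^ l)) =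
          PowerSeries.X ^ i * η 1 ^ (j - D + l) * aeval η (c l) := by ring
      rw [h5]
      exact h2

omit [IsAlgClosed k] in
theorem cdim_ind_k (h : Nch ξ D r d0 φ φ2 δ0 ψ Δ b) (N : ℕ)
    (c : (Σ j : Fin D, Fin (N + 1 - (j : ℕ))) → k) (hc : ∑ x, c x • cdimE (ξ 1) D N x = 0) :
    ∀ x, c x = 0 := by
  classical
  set g : P4 k := ∑ x, c x • cdimG k D N x with hg
  have hF : g ∈ F3 k N := Submodule.sum_mem _ (fun x _ => Submodule.smul_mem _ _ (cdimG_mem k D N x))
  have hev : aeval ξ g = 0 := by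
    rw [hg, map_sum, ← hc]
    refine Finset.sum_congr rfl (fun x _ => ?_)
    rw [map_smul, cdimG_ev ξ h.h0 h.h3]
  have hI : g ∈ idl ξ k := (idl_mem ξ k g ⟨N, hF.1⟩).2 (by rw [iota_k]; exact hev)
  obtain ⟨q, hq⟩ := h.ch.min g hF.2 hI
  let w : Fin 4 → Polynomial k := ![1, 0, 0, Polynomial.X]
  have hdvd : mp 1 φ w ∣ mp 1 g w := ⟨mp 1 q w, by rw [hq]; simp only [mp, map_mul]⟩
  have hval : mp 1 g w = ∑ x, Polynomial.monomial (x.1 : ℕ) (Polynomial.monomial (x.2 : ℕ) (c x)) := by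
    simp only [hg, mp, map_sum, map_smul]
    refine Finset.sum_congr rfl (fun x _ => ?_)
    have e0 : Function.update (fun j => Polynomial.C (w j)) 1 Polynomial.X (0 : Fin 4) = 1 := by
      rw [Function.update_of_ne (by decide)]; simp [w]
    have e3 : Function.update (fun j => Polynomial.C (w j)) 1 Polynomial.X (3 : Fin 4) =
        Polynomial.C Polynomial.X := by
      rw [Function.update_of_ne (by decide)]; simp [w]
    simp only [cdimG, map_mul, map_pow, aeval_X, e0, e3, Function.update_self, one_pow, one_mul]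
    rw [← Polynomial.C_mul_X_pow_eq_monomial, ← Polynomial.C_mul_X_pow_eq_monomial, ← map_pow,
      ← smul_mul_assoc, Polynomial.smul_C, Polynomial.smul_eq_C_mul]
  have hco : ∀ (j i : ℕ), ((mp 1 g w).coeff j).coeff i =
      ∑ x, if (x.1 : ℕ) = j ∧ (x.2 : ℕ) = i then c x else 0 := by
    intro j i
    rw [hval, Polynomial.finsetSum_coeff, Polynomial.finsetSum_coeff]
    refine Finset.sum_congr rfl (fun x _ => ?_)
    by_cases h1 : (x.1 : ℕ) = j
    · by_cases h2 : (x.2 : ℕ) = i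
      · simp [Polynomial.coeff_monomial, h1, h2]
      · simp [Polynomial.coeff_monomial, h1, h2]
    · simp [Polynomial.coeff_monomial, h1]
  have hz : mp 1 g w = 0 := by
    refine Polynomial.eq_zero_of_dvd_of_degree_lt hdvd ?_
    rw [Polynomial.degree_eq_natDegree (mp_monic h.ch.m1.hom h.ch.m1.one w).ne_zero,
      mp_deg h.ch.m1.hom h.ch.m1.one w, Polynomial.degree_lt_iff_coeff_zero]
    intro j hj
    ext i
    rw [hco, Polynomial.coeff_zero]
    refine Finset.sum_eq_zero (fun x _ => if_neg ?_)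
    have := x.1.2
    omega
  intro x
  have h1 := hco x.1 x.2
  rw [hz, Polynomial.coeff_zero, Polynomial.coeff_zero, Finset.sum_eq_single x] at h1
  · simpa using h1.symm
  · intro y _ hy
    refine if_neg (fun hh => hy ?_)
    obtain ⟨y1, y2⟩ := y
    obtain ⟨x1, x2⟩ := x
    have e1 : y1 = x1 := Fin.ext hh.1
    subst e1
    have e2 : y2 = x2 := Fin.ext hh.2
    rw [e2]
  · intro hx
    exact absurd (Finset.mem_univ x) hx

theorem dim_BN (h : Nch ξ D r d0 φ φ2 δ0 ψ Δ b) (L : Type u) [Field L] [Algebra k L] (N : ℕ) :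
    Module.finrank L (BN ξ L N) = bb D N := by
  classical
  let η : Fin 4 → PowerSeries L := fun i => PowerSeries.map (algebraMap k L) (ξ i)
  have h0 : η 0 = 1 := by simp only [η, h.h0, map_one]
  have h3 : η 3 = PowerSeries.X := by simp only [η, h.h3, PowerSeries.map_X]
  have hio : ∀ g : P4 L, iota ξ L g = aeval η g := fun g => rfl
  have hφ : aeval η (MvPolynomial.map (algebraMap k L) φ) = 0 := by
    rw [← hio, iota_map, ← iota_k, idl_ker ξ k h.ch.i1, map_zero]
  have hsp : BN ξ L N = Submodule.span L (Set.range (cdimE (η 1) D N)) := by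
    refine le_antisymm ?_ ?_
    · rintro _ ⟨g, hg, rfl⟩
      exact cdim_mem η h0 h3 ({0, 1, 3} : Set (Fin 4)) (by simp) hg.1 hg.2 _
        (fun i j hij _ => cdim_span η h0 h3 (h.ch.m1.map (R := L)) hφ N j i hij)
    · rw [Submodule.span_le]
      rintro _ ⟨x, rfl⟩
      exact ⟨cdimG L D N x, cdimG_mem L D N x, cdimG_ev η h0 h3 D N x⟩
  have hli : LinearIndependent L (cdimE (η 1) D N) := by
    rw [Fintype.linearIndependent_iff]
    intro c hc x
    refine (Module.forall_dual_apply_eq_zero_iff k (c x)).1 (fun lam => ?_)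
    refine cdim_ind_k h N (fun y => lam (c y)) ?_ x
    ext n
    have h1 := congrArg (fun f => lam (PowerSeries.coeff n f)) hc
    simp only [map_sum, map_zero, map_smul] at h1 ⊢
    rw [← h1]
    refine Finset.sum_congr rfl (fun y _ => ?_)
    have h2 : cdimE (η 1) D N y = PowerSeries.map (algebraMap k L) (cdimE (ξ 1) D N y) := by
      simp only [cdimE, η, map_mul, map_pow, PowerSeries.map_X]
    rw [h2, PowerSeries.coeff_map, smul_eq_mul, smul_eq_mul, mul_comm (c y), ← Algebra.smul_def,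
      map_smul, smul_eq_mul, mul_comm]
  rw [hsp, finrank_span_eq_card hli, Fintype.card_sigma]
  simp only [Fintype.card_fin]
  exact Fin.sum_univ_eq_sum_range (fun j => N + 1 - j) D

end H39c

end PartH39cCDim

section PartH39cCRed

/-! Part C, row Red: removing x2. -/

set_option autoImplicit false

open MvPolynomial

namespace H39c

universe u

variable {k : Type u} [Field k] [IsAlgClosed k] {ξ : Fin 4 → PowerSeries k} {D r d0 : ℕ}
  {φ φ2 δ0 ψ Δ b : P4 k}

theorem cred_memF3 {L : Type u} [Field L] {N : ℕ} {g : P4 L} :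
    g ∈ F3 L N ↔ g.IsHomogeneous N ∧ g ∈ supported L ({0, 1, 3} : Set (Fin 4)) := Iff.rfl

theorem cred_sup {L : Type u} [Field L] {g : P4 L}
    (hg : g ∈ supported L ({0, 3} : Set (Fin 4))) : g ∈ supported L ({0, 1, 3} : Set (Fin 4)) := by
  refine supported_mono ?_ hg
  intro x hx
  rcases hx with hx | hx
  · exact Or.inl hx
  · exact Or.inr (Or.inr hx)

omit [IsAlgClosed k] in
theorem cred_supmap (L : Type u) [Field L] [Algebra k L] {s : Set (Fin 4)} {g : P4 k}
    (hg : g ∈ supported k s) : MvPolynomial.map (algebraMap k L) g ∈ supported L s := by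
  rw [mem_supported] at hg ⊢
  exact Set.Subset.trans (Finset.coe_subset.2 (vars_map g (algebraMap k L))) hg

omit [IsAlgClosed k] in
theorem cred_of (L : Type u) [Field L] [Algebra k L] {N : ℕ} {g : P4 L} (hg : g ∈ F3 L N) :
    iota ξ L g ∈ BN ξ L N := ⟨g, hg, rfl⟩

omit [IsAlgClosed k] in
theorem cred_mul (L : Type u) [Field L] [Algebra k L] {M N : ℕ} {y z : PowerSeries L}
    (hy : y ∈ BN ξ L M) (hz : z ∈ BN ξ L N) : y * z ∈ BN ξ L (M + N) := by
  obtain ⟨g, hg, rfl⟩ := hy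
  obtain ⟨g', hg', rfl⟩ := hz
  exact ⟨g * g', F3_mul hg hg', map_mul (iota ξ L) g g'⟩

omit [IsAlgClosed k] in
theorem cred_pow (L : Type u) [Field L] [Algebra k L] {M : ℕ} {y : PowerSeries L}
    (hy : y ∈ BN ξ L M) (n : ℕ) : y ^ n ∈ BN ξ L (M * n) := by
  induction n with
  | zero =>
    refine ⟨1, cred_memF3.2 ⟨?_, one_mem _⟩, ?_⟩
    · rw [Nat.mul_zero]; exact isHomogeneous_one (Fin 4) L
    · rw [pow_zero]; exact map_one (iota ξ L)
  | succ n ih => rw [pow_succ, Nat.mul_succ]; exact cred_mul L ih hy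

omit [IsAlgClosed k] in
theorem cred_zero (L : Type u) [Field L] [Algebra k L] {g : P4 k} (hg : g ∈ idl ξ k) :
    iota ξ L (MvPolynomial.map (algebraMap k L) g) = 0 := by
  have h1 := idl_ker ξ k hg
  rw [iota_k] at h1
  rw [iota_map, h1, map_zero]

omit [IsAlgClosed k] in
theorem cred_key (h : Nch ξ D r d0 φ φ2 δ0 ψ Δ b) (L : Type u) [Field L] [Algebra k L] (l : ℕ) :
    iota ξ L (MvPolynomial.map (algebraMap k L) δ0) ^ (r - 1) * iota ξ L (X 2) ^ l ∈
      BN ξ L (l + d0 * (r - 1)) := by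
  have hδ : iota ξ L (MvPolynomial.map (algebraMap k L) δ0) ∈ BN ξ L d0 :=
    cred_of L (cred_memF3.2 ⟨h.ch.hδ.map _, cred_sup (cred_supmap L h.ch.sδ)⟩)
  have hψ : iota ξ L (MvPolynomial.map (algebraMap k L) ψ) ∈ BN ξ L (d0 + 1) :=
    cred_of L (cred_memF3.2 ⟨h.ch.hψ.map _, cred_supmap L h.ch.sψ⟩)
  have h3 : iota ξ L (MvPolynomial.map (algebraMap k L) δ0) * iota ξ L (X 2) =
      iota ξ L (MvPolynomial.map (algebraMap k L) ψ) := by
    have := cred_zero L h.ch.i3
    rw [map_sub, map_mul, map_X, map_sub, map_mul] at this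
    exact sub_eq_zero.1 this
  obtain ⟨c, hc, hφ⟩ := (h.ch.m2.map (R := L)).dec (Or.inr rfl)
  have h2 : iota ξ L (X 2) ^ r =
      -∑ j ∈ Finset.range r, iota ξ L (c j) * iota ξ L (X 2) ^ j := by
    have := cred_zero L h.ch.i2
    rw [hφ, map_add, map_pow, map_sum] at this
    simp only [map_mul, map_pow] at this
    exact eq_neg_of_add_eq_zero_left this
  have hr := h.ch.hr
  generalize iota ξ L (MvPolynomial.map (algebraMap k L) δ0) = dd at hδ h3 ⊢
  generalize iota ξ L (MvPolynomial.map (algebraMap k L) ψ) = ps at hψ h3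
  generalize iota ξ L (X 2) = z at h3 h2 ⊢
  induction l using Nat.strong_induction_on with
  | _ l ih =>
    by_cases hl : l < r
    · obtain ⟨e, he⟩ : ∃ e, r - 1 = e + l := ⟨r - 1 - l, by omega⟩
      have e1 : dd ^ (r - 1) * z ^ l = dd ^ e * ps ^ l := by
        rw [he, ← h3]; ring
      have e2 : l + d0 * (r - 1) = d0 * e + (d0 + 1) * l := by rw [he]; ring
      rw [e1, e2]
      exact cred_mul L (cred_pow L hδ e) (cred_pow L hψ l)
    · obtain ⟨e, rfl⟩ : ∃ e, l = e + r := ⟨l - r, by omega⟩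
      have e1 : dd ^ (r - 1) * z ^ (e + r) =
          -∑ j ∈ Finset.range r, iota ξ L (c j) * (dd ^ (r - 1) * z ^ (e + j)) := by
        rw [pow_add, h2, mul_neg, mul_neg, Finset.mul_sum, Finset.mul_sum]
        refine congrArg Neg.neg (Finset.sum_congr rfl fun j _ => ?_)
        ring
      rw [e1]
      refine Submodule.neg_mem _ (Submodule.sum_mem _ fun j hj => ?_)
      have hj' := Finset.mem_range.1 hj
      have e2 : e + r + d0 * (r - 1) = (r - j) + (e + j + d0 * (r - 1)) := by omega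
      rw [e2]
      exact cred_mul L (cred_of L (cred_memF3.2 ⟨(hc j hj').1, cred_sup (hc j hj').2⟩))
        (ih (e + j) (by omega))

omit [IsAlgClosed k] in
theorem cred_X (L : Type u) [Field L] [Algebra k L] (i : Fin 4)
    (hi : i ∈ ({0, 1, 3} : Set (Fin 4))) (n : ℕ) : iota ξ L (X i) ^ n ∈ BN ξ L n := by
  have := cred_pow (ξ := ξ) L
    (cred_of L (cred_memF3.2 ⟨isHomogeneous_X L i, X_mem_supported.2 hi⟩)) n
  rwa [Nat.one_mul] at this

theorem red (h : Nch ξ D r d0 φ φ2 δ0 ψ Δ b) (L : Type u) [Field L] [Algebra k L] (N : ℕ)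
    (g : P4 L) (hg : g.IsHomogeneous N) : ∃ g' ∈ F3 L (N + d0 * (r - 1)),
      iota ξ L g' = iota ξ L (MvPolynomial.map (algebraMap k L) δ0 ^ (r - 1) * g) := by
  have main : iota ξ L (MvPolynomial.map (algebraMap k L) δ0 ^ (r - 1) * g) ∈
      BN ξ L (N + d0 * (r - 1)) := by
    rw [g.as_sum, Finset.mul_sum, map_sum]
    refine Submodule.sum_mem _ fun m hm => ?_
    have hd : m 0 + m 1 + m 2 + m 3 = N := by
      have := hg (mem_support_iff.1 hm)
      rw [Finsupp.weight_apply, Finsupp.sum_fintype _ _ (fun _ => by simp),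
        Fin.sum_univ_four] at this
      simpa using this
    have e1 : iota ξ L (MvPolynomial.map (algebraMap k L) δ0 ^ (r - 1) *
        monomial m (coeff m g)) = coeff m g • (iota ξ L (X 0) ^ m 0 * iota ξ L (X 1) ^ m 1 *
          iota ξ L (X 3) ^ m 3 *
          (iota ξ L (MvPolynomial.map (algebraMap k L) δ0) ^ (r - 1) * iota ξ L (X 2) ^ m 2)) := by
      rw [monomial_eq, Finsupp.prod_fintype _ _ (fun _ => pow_zero _), Fin.prod_univ_four,
        ← smul_eq_C_mul, mul_smul_comm, map_smul]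
      simp only [map_mul, map_pow]
      refine congrArg _ ?_
      ring
    have e2 : N + d0 * (r - 1) = m 0 + m 1 + m 3 + (m 2 + d0 * (r - 1)) := by omega
    rw [e1, e2]
    refine Submodule.smul_mem _ _ (cred_mul L (cred_mul L (cred_mul L ?_ ?_) ?_) (cred_key h L _))
    · exact cred_X L 0 (by simp) _
    · exact cred_X L 1 (by simp) _
    · exact cred_X L 3 (by simp) _
  obtain ⟨g', hg', e⟩ := main
  exact ⟨g', hg', e⟩

theorem cred_gen {L V U W : Type u} [Field L] [AddCommGroup V] [Module L V]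
    [FiniteDimensional L V] [AddCommGroup U] [Module L U] [AddCommGroup W] [Module L W]
    (i' : V →ₗ[L] U) (l' : V →ₗ[L] W) (hle : LinearMap.ker i' ≤ LinearMap.ker l')
    (b2 : LinearMap.range l' = ⊤) (T : Submodule L U)
    (hT : ∀ t ∈ T, ∃ s, l' s = 0 ∧ i' s = t) :
    Module.finrank L W + Module.finrank L T ≤ Module.finrank L (LinearMap.range i') := by
  have a1 := LinearMap.finrank_range_add_finrank_ker i'
  have a2 := LinearMap.finrank_range_add_finrank_ker l'
  have a3 := LinearMap.finrank_range_add_finrank_ker (i'.domRestrict (LinearMap.ker l'))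
  have b3 : Module.finrank L (LinearMap.ker (i'.domRestrict (LinearMap.ker l'))) =
      Module.finrank L (LinearMap.ker i') := by
    rw [LinearMap.ker_domRestrict]
    exact (Submodule.comapSubtypeEquivOfLe hle).finrank_eq
  have b4 : T ≤ LinearMap.range (i'.domRestrict (LinearMap.ker l')) := by
    intro t ht
    obtain ⟨s, h1, h2⟩ := hT t ht
    exact ⟨⟨s, h1⟩, h2⟩
  have b5 := Submodule.finrank_mono b4
  rw [b2, finrank_top] at a2
  omega

theorem cnt (h : Nch ξ D r d0 φ φ2 δ0 ψ Δ b) (L : Type u) [Field L] [Algebra k L] {W : Type u}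
    [AddCommGroup W] [Module L W] {j M : ℕ} {g : P4 L} (hg : g ∈ F3 L j) (hne : iota ξ L g ≠ 0)
    (lam : P4 L →ₗ[L] W) (hk : ∀ s ∈ F3 L (j + M), iota ξ L s = 0 → lam s = 0)
    (hg0 : ∀ s ∈ F3 L M, lam (g * s) = 0) (hs : ∀ w, ∃ s ∈ F3 L (j + M), lam s = w) :
    Module.finrank L W ≤ D * j := by
  have := F3_fin L (j + M)
  have hinj : Function.Injective (LinearMap.mulLeft L (iota ξ L g)) :=
    fun x y hxy => mul_left_cancel₀ hne hxy
  have a := cred_gen (L := L) (V := F3 L (j + M)) (U := PowerSeries L) (W := W)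
    ((iota ξ L).toLinearMap.domRestrict (F3 L (j + M))) (lam.domRestrict (F3 L (j + M)))
    (fun s hs' => hk s.1 s.2 hs') (by
      rw [LinearMap.range_eq_top]
      intro w
      obtain ⟨s, h1, h2⟩ := hs w
      exact ⟨⟨s, h1⟩, h2⟩) ((BN ξ L M).map (LinearMap.mulLeft L (iota ξ L g))) (by
      rintro _ ⟨_, ⟨s, h1, rfl⟩, rfl⟩
      exact ⟨⟨g * s, F3_mul hg h1⟩, hg0 s h1, map_mul (iota ξ L) g s⟩)
  have b1 : LinearMap.range ((iota ξ L).toLinearMap.domRestrict (F3 L (j + M))) =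
      BN ξ L (j + M) := LinearMap.range_domRestrict _ _
  have b2 := (Submodule.equivMapOfInjective _ hinj (BN ξ L M)).finrank_eq
  have b3 := dim_BN h L M
  have b4 := dim_BN h L (j + M)
  have b6 := bb_add D M j
  rw [Nat.add_comm M j] at b6
  rw [← b1] at b4
  have a' : Module.finrank L W + bb D M ≤ bb D (j + M) := by
    rw [← b3, ← b4, b2]; exact a
  omega

end H39c

end PartH39cCRed

section PartH39cCFin

/-! Part C, row Fin: fibres and zeros. -/

set_option autoImplicit false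

open MvPolynomial

namespace H39c

universe u

variable {k : Type u} [Field k] [IsAlgClosed k] {ξ : Fin 4 → PowerSeries k} {D r d0 : ℕ}
  {φ φ2 δ0 ψ Δ b : P4 k}

omit [IsAlgClosed k] in
theorem cfin_zero {i : Fin 4} (hi : i = 1 ∨ i = 2) (m : Mon i D φ) {L : Type u} [Field L]
    [Algebra k L] {v : Fin 4 → L} (hv : aeval v φ = 0) (h0 : v 0 = 0) (h3 : v 3 = 0) :
    v i = 0 := by
  have e1 : aeval v φ =
      aeval (fun j => v i * (algebraMap k L ∘ (Pi.single i 1 : Fin 4 → k)) j) φ := by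
    refine sup_congr m.sup fun j hj => ?_
    rcases hi with rfl | rfl <;> rcases hj with rfl | rfl | rfl <;> simp [h0, h3]
  have e2 : aeval (Pi.single i 1 : Fin 4 → k) φ = 1 := m.one
  rw [e1, hom_smul m.hom, aeval_algebraMap_apply, e2, map_one, mul_one] at hv
  exact eq_zero_of_pow_eq_zero hv

omit [IsAlgClosed k] in
theorem cfin_root {i : Fin 4} (hi : i = 1 ∨ i = 2) (m : Mon i D φ) {A L : Type u} [CommRing A]
    [Algebra k A] [CommRing L] [Algebra k L] (f : A →ₐ[k] L) {v : Fin 4 → L} (hv : aeval v φ = 0)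
    (a0 a3 : A) (h0 : f a0 = v 0) (h3 : f a3 = v 3) :
    (mp i φ ![a0, 0, 0, a3]).eval₂ (f : A →+* L) (v i) = 0 := by
  rw [← Polynomial.eval_map, mp_map, mp_eval, ← hv]
  refine sup_congr m.sup fun j hj => ?_
  rcases hi with rfl | rfl <;> rcases hj with rfl | rfl | rfl <;> simp [h0, h3]

theorem cfin_rng {L : Type u} [Field L] [Algebra k L] {x : L} (hx : IsIntegral k x) :
    ∃ a, algebraMap k L a = x :=
  minpoly.mem_range_of_degree_eq_one k x
    (IsAlgClosed.degree_eq_one_of_irreducible k (minpoly.irreducible hx))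

theorem cfin_rat (h : Nch ξ D r d0 φ φ2 δ0 ψ Δ b) {L : Type u} [Field L] [Algebra k L]
    {v : Fin 4 → L} (hv : v ∈ cone ξ L) (a0 a3 : k) (h0 : algebraMap k L a0 = v 0)
    (h3 : algebraMap k L a3 = v 3) : ∃ z ∈ cone ξ k, ∀ i, algebraMap k L (z i) = v i := by
  have e : ∀ i, ∃ a, algebraMap k L a = v i := by
    intro i
    fin_cases i
    · exact ⟨a0, h0⟩
    · exact cfin_rng ⟨_, mp_monic h.ch.m1.hom h.ch.m1.one _, cfin_root (.inl rfl) h.ch.m1
        (Algebra.ofId k L) (idl_ev ξ k L v hv φ h.ch.i1) a0 a3 h0 h3⟩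
    · exact cfin_rng ⟨_, mp_monic h.ch.m2.hom h.ch.m2.one _, cfin_root (.inr rfl) h.ch.m2
        (Algebra.ofId k L) (idl_ev ξ k L v hv φ2 h.ch.i2) a0 a3 h0 h3⟩
    · exact ⟨a3, h3⟩
  choose z hz using e
  refine ⟨z, cone_of_map ξ (Algebra.ofId k L) (algebraMap k L).injective ?_, hz⟩
  have e2 : (fun i => Algebra.ofId k L (z i)) = v := funext hz
  rw [e2]
  exact hv

omit [IsAlgClosed k] in
theorem cfin_nrm (h : Nch ξ D r d0 φ φ2 δ0 ψ Δ b) (L : Type u) [Field L] [Algebra k L]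
    {g : P4 L} (hg : Form g) (hn : iota ξ L g ≠ 0) : ∃ q : Polynomial L, q ≠ 0 ∧
      ∀ (M : Type u) [Field M] [Algebra k M] [Algebra L M] [IsScalarTower k L M],
        ∀ v ∈ cone ξ M, v 0 = 1 → aeval v g = 0 → Polynomial.aeval (v 3) q = 0 := by
  have hm : ∀ f ∈ idl ξ k, MvPolynomial.map (algebraMap k L) f ∈ idl ξ L := fun f hf => by
    rw [idl_span ξ L]
    exact Ideal.mem_map_of_mem _ hf
  obtain ⟨N, g', n0, nb, ni⟩ := norm_ex (idl_prime ξ L) (idl_comp ξ L) (h.ch.m1.map (R := L))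
    (hm _ h.ch.i1) (h.ch.m2.map (R := L)) (hm _ h.ch.i2) hg fun hi => hn (idl_ker ξ L hi)
  obtain ⟨q, q0, hq⟩ := bin_poly nb n0
  refine ⟨q, q0, fun M _ _ _ _ v hv v0 hz => ?_⟩
  have e := idl_ev ξ L M v hv _ ni
  rw [map_sub, map_mul, hz, mul_zero, sub_zero, hq M v v0] at e
  exact e

theorem δbin_of (h : Nch ξ D r d0 φ φ2 δ0 ψ Δ b) : Bin (Δ * δ0) := by
  obtain ⟨⟨d, hd⟩, hs⟩ := bin_iff.mp h.ch.bΔ
  exact bin_iff.mpr ⟨⟨_, hd.mul h.ch.hδ⟩, Subalgebra.mul_mem _ hs h.ch.sδ⟩

theorem δP1_of (h : Nch ξ D r d0 φ φ2 δ0 ψ Δ b) : eval (P1 ξ) (Δ * δ0) ≠ 0 := by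
  have e : aeval (P1 ξ) (Δ * δ0) = aeval (![1, 0, 0, 0] : Fin 4 → k) (Δ * δ0) := by
    refine sup_congr (bin_iff.mp (δbin_of h)).2 fun j hj => ?_
    rcases hj with rfl | rfl <;> simp [P1, h.h0, h.h3]
  intro h0
  exact h.ne (e.symm.trans h0)

theorem ncz_of (h : Nch ξ D r d0 φ φ2 δ0 ψ Δ b) (L : Type u) [Field L] [Algebra k L] :
    ∀ v ∈ cone ξ L, v 0 = 0 → v 3 = 0 → v = 0 := by
  intro v hv h0 h3
  funext i
  fin_cases i
  · exact h0
  · exact cfin_zero (.inl rfl) h.ch.m1 (idl_ev ξ k L v hv φ h.ch.i1) h0 h3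
  · exact cfin_zero (.inr rfl) h.ch.m2 (idl_ev ξ k L v hv φ2 h.ch.i2) h0 h3
  · exact h3

theorem bir_of (h : Nch ξ D r d0 φ φ2 δ0 ψ Δ b) (L : Type u) [Field L] [Algebra k L] :
    ∀ v ∈ cone ξ L, ∀ v' ∈ cone ξ L,
      v 0 = v' 0 → v 1 = v' 1 → v 3 = v' 3 → aeval v (Δ * δ0) ≠ 0 → v = v' := by
  intro v hv v' hv' h0 h1 h3 hn
  have e := idl_ev ξ k L v hv _ h.ch.i3
  have e' := idl_ev ξ k L v' hv' _ h.ch.i3
  have a1 : aeval v δ0 = aeval v' δ0 := by
    refine sup_congr h.ch.sδ fun j hj => ?_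
    rcases hj with rfl | rfl
    exacts [h0, h3]
  have a2 : aeval v ψ = aeval v' ψ := by
    refine sup_congr h.ch.sψ fun j hj => ?_
    rcases hj with rfl | rfl | rfl
    exacts [h0, h1, h3]
  rw [map_mul] at hn
  rw [map_sub, map_mul, aeval_X, sub_eq_zero] at e e'
  have h2 : v 2 = v' 2 :=
    mul_left_cancel₀ (right_ne_zero_of_mul hn) (by rw [e, a1, e', a2])
  funext i
  fin_cases i
  exacts [h0, h1, h2, h3]

theorem alg_of (h : Nch ξ D r d0 φ φ2 δ0 ψ Δ b) (L : Type u) [Field L] [Algebra k L] :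
    ∀ v ∈ cone ξ L, v 0 = 1 → ∀ i, IsIntegral (Algebra.adjoin k {v 3}) (v i) := by
  intro v hv h0 i
  have h3 : v 3 ∈ Algebra.adjoin k {v 3} := Algebra.subset_adjoin rfl
  fin_cases i
  · show IsIntegral _ (v 0)
    rw [h0]
    exact isIntegral_one
  · exact ⟨_, mp_monic h.ch.m1.hom h.ch.m1.one _, cfin_root (.inl rfl) h.ch.m1
      (Algebra.adjoin k {v 3}).val (idl_ev ξ k L v hv φ h.ch.i1) 1 ⟨v 3, h3⟩ h0.symm rfl⟩
  · exact ⟨_, mp_monic h.ch.m2.hom h.ch.m2.one _, cfin_root (.inr rfl) h.ch.m2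
      (Algebra.adjoin k {v 3}).val (idl_ev ξ k L v hv φ2 h.ch.i2) 1 ⟨v 3, h3⟩ h0.symm rfl⟩
  · exact isIntegral_algebraMap (x := (⟨v 3, h3⟩ : Algebra.adjoin k {v 3}))

theorem inj_of (h : Nch ξ D r d0 φ φ2 δ0 ψ Δ b) (L M : Type u) [Field L] [Algebra k L] [Field M]
    [Algebra k M] [Algebra L M] [IsScalarTower k L M] : ∀ v ∈ cone ξ M, v 0 = 1 →
      Transcendental L (v 3) → ∀ g : P4 L, aeval v g = 0 → iota ξ L g = 0 := by
  intro v hv h0 ht g hg
  obtain ⟨g', g1, -, g3⟩ := hom_ex Set.univ (Set.mem_univ _) g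
    (by rw [supported_univ]; exact Algebra.mem_top) _ le_rfl
  have e : iota ξ L g' = iota ξ L g := g3 (PowerSeries L) _ (by simp [h.h0])
  by_contra hn
  obtain ⟨q, q0, hq⟩ := cfin_nrm h L ⟨_, g1⟩ (e ▸ hn)
  exact ht ⟨q, q0, hq M v hv h0 ((g3 M v h0).trans hg)⟩

theorem finz_of (h : Nch ξ D r d0 φ φ2 δ0 ψ Δ b) : ∀ (g : P4 k), Form g → aeval ξ g ≠ 0 →
    ∃ Z : Finset (Fin 4 → k), (∀ z ∈ Z, z ∈ cone ξ k ∧ Nrm z ∧ eval z g = 0) ∧
    ∀ (L : Type u) [Field L] [Algebra k L], ∀ v ∈ cone ξ L, aeval v g = 0 →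
      v = 0 ∨ ∃ z ∈ Z, ∃ l : L, v = fun i => l * algebraMap k L (z i) := by
  intro g hg hn
  obtain ⟨q, q0, hq⟩ := cfin_nrm h k hg (by rwa [iota_k])
  have hU : ({0, 1} ∪ {t | q.IsRoot t} : Set k).Finite :=
    (Set.toFinite _).union (Polynomial.finite_setOfPred_isRoot q0)
  have hT : ∀ (i : Fin 4) (n : ℕ) (f : P4 k), Mon i n f →
      (⋃ a ∈ ({0, 1} ∪ {t | q.IsRoot t} : Set k), ⋃ c ∈ ({0, 1} ∪ {t | q.IsRoot t} : Set k),
        {t | (mp i f ![a, 0, 0, c]).IsRoot t}).Finite := fun i n f m =>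
    hU.biUnion fun a _ => hU.biUnion fun c _ =>
      Polynomial.finite_setOfPred_isRoot (mp_monic m.hom m.one _).ne_zero
  have hfin : {z : Fin 4 → k | z ∈ cone ξ k ∧ Nrm z ∧ eval z g = 0}.Finite := by
    refine (Set.Finite.pi' fun _ : Fin 4 =>
      (hU.union (hT 1 D φ h.ch.m1)).union (hT 2 r φ2 h.ch.m2)).subset ?_
    rintro z ⟨z1, z2, z3⟩ i
    have u0 : z 0 ∈ ({0, 1} ∪ {t | q.IsRoot t} : Set k) := by
      rcases z2 with e | ⟨e, -⟩ <;> simp [e]
    have u3 : z 3 ∈ ({0, 1} ∪ {t | q.IsRoot t} : Set k) := by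
      rcases z2 with e | ⟨-, e⟩
      · exact Or.inr (hq k z z1 e z3)
      · simp [e]
    fin_cases i
    · exact Or.inl (Or.inl u0)
    · exact Or.inl (Or.inr (Set.mem_biUnion u0 (Set.mem_biUnion u3
        (cfin_root (.inl rfl) h.ch.m1 (AlgHom.id k k) (idl_ev ξ k k z z1 φ h.ch.i1) _ _ rfl rfl))))
    · exact Or.inr (Set.mem_biUnion u0 (Set.mem_biUnion u3
        (cfin_root (.inr rfl) h.ch.m2 (AlgHom.id k k) (idl_ev ξ k k z z1 φ2 h.ch.i2) _ _ rfl rfl)))
    · exact Or.inl (Or.inl u3)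
  refine ⟨hfin.toFinset, fun z hz => hfin.mem_toFinset.mp hz, fun L _ _ v hv hz => ?_⟩
  obtain ⟨n, hg⟩ := hg
  have key : ∀ l : L, l ≠ 0 → ∀ z ∈ cone ξ k, (∀ i, algebraMap k L (z i) = l⁻¹ * v i) → Nrm z →
      ∃ z ∈ hfin.toFinset, ∃ l : L, v = fun i => l * algebraMap k L (z i) := by
    intro l hl z z1 z2 z3
    refine ⟨z, hfin.mem_toFinset.mpr ⟨z1, z3, (algebraMap k L).injective ?_⟩, l, ?_⟩
    · have e1 : algebraMap k L (eval z g) = aeval (algebraMap k L ∘ z) g :=
        (aeval_algebraMap_apply L z g).symm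
      have e2 : algebraMap k L ∘ z = fun i => l⁻¹ * v i := funext z2
      rw [e1, e2, hom_smul hg, hz, mul_zero, map_zero]
    · funext i
      rw [z2, mul_inv_cancel_left₀ hl]
  by_cases h0 : v 0 = 0
  · by_cases h3 : v 3 = 0
    · exact Or.inl (ncz_of h L v hv h0 h3)
    · obtain ⟨z, z1, z2⟩ := cfin_rat h (cone_smul ξ hv (v 3)⁻¹) 0 1 (by simp [h0]) (by simp [h3])
      refine Or.inr (key _ h3 z z1 z2 (Or.inr ⟨(algebraMap k L).injective ?_,
        (algebraMap k L).injective ?_⟩))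
      · rw [z2]; simp [h0]
      · rw [z2]; simp [h3]
  · have c1 := cone_smul ξ hv (v 0)⁻¹
    have c2 := hq L _ c1 (inv_mul_cancel₀ h0) (by rw [hom_smul hg, hz, mul_zero])
    obtain ⟨a, ha⟩ := cfin_rng (IsAlgebraic.isIntegral (K := k) ⟨q, q0, c2⟩)
    obtain ⟨z, z1, z2⟩ := cfin_rat h c1 1 a (by simp [h0]) ha
    refine Or.inr (key _ h0 z z1 z2 (Or.inl ((algebraMap k L).injective ?_)))
    rw [z2]; simp [h0]

end H39c

end PartH39cCFin

section PartH39cCMax

/-! Part C, row Max: order of vanishing and number of zeros. -/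

set_option autoImplicit false

open MvPolynomial

namespace H39c

universe u

variable {k : Type u} [Field k] [IsAlgClosed k] {ξ : Fin 4 → PowerSeries k} {D r d0 : ℕ}
  {φ φ2 δ0 ψ Δ b : P4 k}

omit [IsAlgClosed k] in
theorem cmax_mon (L : Type u) [Field L] (N i : ℕ) (hi : i ≤ N) (c : L) :
    (C c * (X 0 ^ (N - i) * X 3 ^ i) : P4 L) ∈ F3 L N := by
  refine ⟨?_, ?_⟩
  · have := (isHomogeneous_C (Fin 4) c).mul
      (((isHomogeneous_X L (0 : Fin 4)).pow (N - i)).mul ((isHomogeneous_X L (3 : Fin 4)).pow i))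
    rw [show 0 + (1 * (N - i) + 1 * i) = N by omega] at this
    exact this
  · refine Subalgebra.mul_mem _ (Subalgebra.algebraMap_mem _ c) (Subalgebra.mul_mem _
      (Subalgebra.pow_mem _ ?_ _) (Subalgebra.pow_mem _ ?_ _))
    · exact X_mem_supported.2 (by simp)
    · exact X_mem_supported.2 (by simp)

theorem cmax_δ (h : Nch ξ D r d0 φ φ2 δ0 ψ Δ b) : (aeval ξ (Δ * δ0) : PowerSeries k) ≠ 0 := by
  intro h0
  have := δP1_of h
  rw [eval_P1, h0, map_zero] at this
  exact this rfl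

theorem cmax_δ0 (h : Nch ξ D r d0 φ φ2 δ0 ψ Δ b) (L : Type u) [Field L] [Algebra k L] :
    iota ξ L (MvPolynomial.map (algebraMap k L) δ0) ≠ 0 := by
  rw [iota_map]
  intro h0
  have h1 : (aeval ξ δ0 : PowerSeries k) = 0 :=
    PowerSeries.map_injective _ (algebraMap k L).injective (h0.trans (map_zero _).symm)
  exact cmax_δ h (by rw [map_mul, h1, mul_zero])

theorem cmax_ord (h : Nch ξ D r d0 φ φ2 δ0 ψ Δ b) {g : P4 k} {j w : ℕ} (hg : g ∈ F3 k j)
    (hne : iota ξ k g ≠ 0) (hw : (w : ℕ∞) ≤ (iota ξ k g).order) : w ≤ D * j := by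
  let lam : P4 k →ₗ[k] (Fin w → k) :=
    LinearMap.pi fun i => (PowerSeries.coeff (i : ℕ)).comp (iota ξ k).toLinearMap
  have hl : ∀ s i, lam s i = PowerSeries.coeff (i : ℕ) (iota ξ k s) := fun _ _ => rfl
  have := cnt h k (M := w) hg hne lam (fun s _ hs => by
      funext i
      rw [hl, hs, map_zero]
      rfl) (fun s _ => by
      funext i
      rw [hl, map_mul]
      refine PowerSeries.coeff_of_lt_order _ ?_
      refine lt_of_lt_of_le ?_ (PowerSeries.le_order_mul _ _)
      exact lt_of_lt_of_le (by exact_mod_cast i.2) (hw.trans le_self_add)) (fun t => by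
      refine ⟨∑ i : Fin w, C (t i) * (X 0 ^ (j + w - i) * X 3 ^ (i : ℕ)),
        Submodule.sum_mem _ fun i _ => cmax_mon k _ _ (by have := i.2; omega) _, ?_⟩
      funext i
      rw [hl, iota_k, map_sum, map_sum]
      simp only [map_mul, map_pow, aeval_X, aeval_C, h.h0, h.h3, one_pow, one_mul]
      rw [Finset.sum_eq_single i]
      · simp [PowerSeries.coeff_X_pow]
      · intro a _ ha
        have : (i : ℕ) ≠ a := fun e => ha (Fin.ext e.symm)
        simp [PowerSeries.coeff_X_pow, this]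
      · simp)
  simpa using this

theorem maxv_of (h : Nch ξ D r d0 φ φ2 δ0 ψ Δ b) : ∀ (g : P4 k) (j : ℕ), g.IsHomogeneous j →
    aeval ξ g ≠ 0 → (aeval ξ g : PowerSeries k).order ≤ (D * j : ℕ) := by
  intro g j hg hne
  obtain ⟨w, hw⟩ : ∃ w : ℕ, (aeval ξ g : PowerSeries k).order = w :=
    ⟨_, (PowerSeries.coe_toNat_order hne).symm⟩
  rw [hw, Nat.cast_le]
  have key : ∀ s : ℕ, s * w ≤ D * (j * s + d0 * (r - 1)) := fun s => by
    obtain ⟨g', h1, h2⟩ := red h k (j * s) (g ^ s) (hg.pow s)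
    rw [map_mul, map_pow, map_pow, iota_k ξ g] at h2
    refine cmax_ord h h1 ?_ ?_
    · rw [h2]
      exact mul_ne_zero (pow_ne_zero _ (cmax_δ0 h k)) (pow_ne_zero _ hne)
    · rw [h2]
      refine le_trans ?_ (PowerSeries.le_order_mul _ _)
      refine le_trans ?_ le_add_self
      rw [PowerSeries.order_pow, hw]
      simp
  have := key (D * (d0 * (r - 1)) + 1)
  by_contra hlt
  have h3 : D * j + 1 ≤ w := by omega
  nlinarith [Nat.mul_le_mul_left (D * (d0 * (r - 1)) + 1) h3]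

theorem zero_of (h : Nch ξ D r d0 φ φ2 δ0 ψ Δ b) : ∃ c : ℕ,
    ∀ (L : Type u) [Field L] [Algebra k L] (g : P4 L) (j : ℕ), g.IsHomogeneous j →
      iota ξ L g ≠ 0 → ∀ Z : Finset (Fin 4 → L),
        (∀ z ∈ Z, z ∈ cone ξ L ∧ Nrm z ∧ eval z g = 0) → Z.card ≤ D * j + c := by
  classical
  obtain ⟨n, hn⟩ := (δbin_of h).1
  obtain ⟨Z0, hZ0, hZ1⟩ := finz_of h (X 0 * (Δ * δ0)) ⟨_, (isHomogeneous_X k 0).mul hn⟩ (by
    rw [map_mul, aeval_X, h.h0, one_mul]
    exact cmax_δ h)
  refine ⟨D * (d0 * (r - 1)) + Z0.card, fun L _ _ g j hg hne Z hZ => ?_⟩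
  let Z1 := Z.filter fun z => aeval z (X 0 * (Δ * δ0) : P4 k) ≠ 0
  let Z2 := Z.filter fun z => ¬ aeval z (X 0 * (Δ * δ0) : P4 k) ≠ 0
  have hc : Z1.card + Z2.card = Z.card := Finset.card_filter_add_card_filter_not _
  have h2 : Z2.card ≤ Z0.card := by
    refine le_trans (Finset.card_le_card (t := Z0.image fun z i => algebraMap k L (z i))
      fun z hz => ?_) Finset.card_image_le
    obtain ⟨hz1, hz2⟩ := Finset.mem_filter.1 hz
    obtain ⟨c1, n1, -⟩ := hZ z hz1
    rcases hZ1 L z c1 (not_not.1 hz2) with e | ⟨y, hy, l, e⟩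
    · subst e
      rcases n1 with n1 | ⟨-, n1⟩ <;> simp at n1
    · have e0 := congrFun e 0
      have e3 := congrFun e 3
      have hl : l = 1 := by
        rcases (hZ0 y hy).2.1 with n0 | ⟨n0, n3⟩
        · rw [n0, map_one, mul_one] at e0
          rcases n1 with n1 | ⟨n1, n2⟩
          · exact e0.symm.trans n1
          · rw [← e0, n1, zero_mul, n2] at e3
            exact absurd e3 one_ne_zero
        · rw [n0, map_zero, mul_zero] at e0
          rw [n3, map_one, mul_one] at e3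
          rcases n1 with n1 | ⟨-, n2⟩
          · exact absurd (n1.symm.trans e0) one_ne_zero
          · exact e3.symm.trans n2
      refine Finset.mem_image.2 ⟨y, hy, ?_⟩
      rw [e, hl]
      simp
  have hZ1' : ∀ z ∈ Z1, z ∈ cone ξ L ∧ z 0 = 1 ∧ aeval z (Δ * δ0) ≠ 0 ∧ eval z g = 0 := by
    intro z hz
    obtain ⟨hz1, hz2⟩ := Finset.mem_filter.1 hz
    obtain ⟨c1, n1, e1⟩ := hZ z hz1
    rw [map_mul, aeval_X] at hz2
    refine ⟨c1, ?_, right_ne_zero_of_mul hz2, e1⟩
    rcases n1 with n1 | ⟨n1, -⟩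
    · exact n1
    · exact absurd n1 (left_ne_zero_of_mul hz2)
  obtain ⟨g', h3, h4⟩ := red h L j g hg
  let lam : P4 L →ₗ[L] (Z1 → L) := LinearMap.pi fun z => (aeval (z : Fin 4 → L)).toLinearMap
  have hl : ∀ s z, lam s z = aeval (z : Fin 4 → L) s := fun _ _ => rfl
  have h1 := cnt h L (M := Z1.card) h3 (by
      rw [h4, map_mul, map_pow]
      exact mul_ne_zero (pow_ne_zero _ (cmax_δ0 h L)) hne) lam (fun s _ hs => by
      funext z
      rw [hl]
      exact spec_of h.h0 L L z (hZ1' z z.2).1 (hZ1' z z.2).2.1 s hs) (fun s _ => by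
      funext z
      have h5 := spec_of h.h0 L L z (hZ1' z z.2).1 (hZ1' z z.2).2.1
        (g' - MvPolynomial.map (algebraMap k L) δ0 ^ (r - 1) * g) (by rw [map_sub, h4, sub_self])
      have h6 : aeval (z : Fin 4 → L) g = 0 := (hZ1' z z.2).2.2.2
      rw [map_sub, map_mul, h6, mul_zero, sub_zero] at h5
      rw [hl, map_mul, h5, zero_mul]
      rfl) (fun t => by
      obtain ⟨s, hs1, hs2⟩ := interp3 Z1 (fun z hz => (hZ1' z hz).2.1) (fun z hz z' hz' e1 e3 =>
        bir_of h L z (hZ1' z hz).1 z' (hZ1' z' hz').1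
          ((hZ1' z hz).2.1.trans (hZ1' z' hz').2.1.symm) e1 e3 (hZ1' z hz).2.2.1)
        (j + d0 * (r - 1) + Z1.card) (Nat.le_add_left _ _)
        fun z => if hz : z ∈ Z1 then t ⟨z, hz⟩ else 0
      refine ⟨s, hs1, ?_⟩
      funext z
      have := hs2 z z.2
      rw [dif_pos z.2] at this
      exact this)
  rw [Module.finrank_fintype_fun_eq_card, Fintype.card_coe, mul_add] at h1
  omega

end H39c

end PartH39cCMax

section PartH39cCHv

/-! Part C, row Hv: forms of high order at P1. -/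

set_option autoImplicit false

open MvPolynomial

namespace H39c

universe u

/-- series of order at least `o` -/
noncomputable def chv_O (k : Type u) [Field k] (o : ℕ) : Submodule k (PowerSeries k) :=
  LinearMap.ker (LinearMap.pi fun i : Fin o => PowerSeries.coeff (R := k) (i : ℕ))

variable {k : Type u} [Field k]

theorem chv_mem {o : ℕ} {f : PowerSeries k} : f ∈ chv_O k o ↔ (o : ℕ∞) ≤ f.order := by
  unfold chv_O
  rw [LinearMap.mem_ker]
  constructor
  · intro h
    exact PowerSeries.nat_le_order _ _ fun i hi => congrFun h ⟨i, hi⟩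
  · intro h
    funext i
    exact PowerSeries.coeff_of_lt_order _ (lt_of_lt_of_le (by exact_mod_cast i.2) h)

theorem chv_dim (B : Submodule k (PowerSeries k)) [FiniteDimensional k B] (o : ℕ) :
    Module.finrank k B ≤ o + Module.finrank k ↥(B ⊓ chv_O k o) := by
  let T := (LinearMap.pi fun i : Fin o => PowerSeries.coeff (R := k) (i : ℕ)).domRestrict B
  have h1 := T.finrank_range_add_finrank_ker
  have h2 : Module.finrank k (LinearMap.range T) ≤ o := by
    simpa using (LinearMap.range T).finrank_le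
  have h3 : Module.finrank k (LinearMap.ker T) = Module.finrank k ↥(B ⊓ chv_O k o) := by
    rw [← Submodule.finrank_map_subtype_eq, LinearMap.ker_domRestrict, Submodule.map_comap_subtype]
    rfl
  omega

theorem chv_F3 {N : ℕ} {g : P4 k} : g ∈ F3 k N ↔
    g.IsHomogeneous N ∧ g ∈ supported k ({0, 1, 3} : Set (Fin 4)) := Iff.rfl

theorem chv_X (i : Fin 4) (hi : i = 0 ∨ i = 1 ∨ i = 3) : (X i : P4 k) ∈ F3 k 1 :=
  chv_F3.2 ⟨isHomogeneous_X k i, X_mem_supported.2 hi⟩

theorem chv_pow (i : Fin 4) (hi : i = 0 ∨ i = 1 ∨ i = 3) (N : ℕ) : (X i ^ N : P4 k) ∈ F3 k N :=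
  chv_F3.2 ⟨isHomogeneous_X_pow i N, pow_mem (chv_F3.1 (chv_X i hi)).2 N⟩

theorem chv_fin (ξ : Fin 4 → PowerSeries k) (N : ℕ) : FiniteDimensional k (BN ξ k N) := by
  have := F3_fin k N
  unfold BN
  infer_instance

theorem chv_BN {ξ : Fin 4 → PowerSeries k} {N : ℕ} {f : PowerSeries k} :
    f ∈ BN ξ k N ↔ ∃ g ∈ F3 k N, aeval ξ g = f := by
  unfold BN
  simp only [Submodule.mem_map, AlgHom.toLinearMap_apply, iota_k]

variable [IsAlgClosed k] {ξ : Fin 4 → PowerSeries k} {D r d0 : ℕ} {φ φ2 δ0 ψ Δ b : P4 k}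

theorem chv_lin (h : Nch ξ D r d0 φ φ2 δ0 ψ Δ b) (u : Fin 4 → k) (hu : u ∈ cone ξ k) (hn : Nrm u)
    (hp : u ≠ P1 ξ) : ∃ l ∈ F3 k 1, eval u l = 0 ∧ eval (P1 ξ) l ≠ 0 := by
  have p0 : P1 ξ 0 = 1 := by simp [P1, h.h0]
  have p3 : P1 ξ 3 = 0 := by simp [P1, h.h3]
  have x0 := chv_X (k := k) 0 (.inl rfl)
  rcases hn with h0 | ⟨h0, -⟩
  · by_cases h3 : u 3 = 0
    · refine ⟨X 1 - u 1 • X 0, sub_mem (chv_X 1 (.inr (.inl rfl))) (Submodule.smul_mem _ _ x0),
        by simp [h0], fun e => hp (bir_of h k _ (P1_mem ξ) u hu (p0.trans h0.symm) ?_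
          (p3.trans h3.symm) (δP1_of h)).symm⟩
      simpa [p0, sub_eq_zero] using e
    · exact ⟨X 3 - u 3 • X 0, sub_mem (chv_X 3 (.inr (.inr rfl))) (Submodule.smul_mem _ _ x0),
        by simp [h0], by simpa [p0, p3] using h3⟩
  · exact ⟨X 0, x0, by simp [h0], by simp [p0]⟩

theorem chv_step (h : Nch ξ D r d0 φ φ2 δ0 ψ Δ b) (u : Fin 4 → k) (hu : u ∈ cone ξ k) (hn : Nrm u)
    (hp : u ≠ P1 ξ) (o N : ℕ) (hv : ∀ g ∈ F3 k (N + 1),
      (o : ℕ∞) ≤ (aeval ξ g : PowerSeries k).order → eval u g = 0) :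
    Module.finrank k ↥(BN ξ k (N + 1) ⊓ chv_O k o) + 1 ≤
      Module.finrank k ↥(BN ξ k N ⊓ chv_O k o) + D := by
  obtain ⟨l, hl, l0, l1⟩ := chv_lin h u hu hn hp
  have f0 := chv_fin ξ N
  have f1 := chv_fin ξ (N + 1)
  rw [eval_P1] at l1
  have lo : (aeval ξ l : PowerSeries k).order = 0 := by
    by_contra e
    exact l1 (PowerSeries.order_ne_zero_iff_constCoeff_eq_zero.1 e)
  have ln : (aeval ξ l : PowerSeries k) ≠ 0 := fun e => l1 (by rw [e, map_zero])
  let m : PowerSeries k →ₗ[k] PowerSeries k := LinearMap.mulLeft k (aeval ξ l)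
  have mi : Function.Injective m := fun a c e => mul_left_cancel₀ ln e
  let B0 : Submodule k (PowerSeries k) :=
    (F3 k (N + 1) ⊓ LinearMap.ker (aeval u : P4 k →ₐ[k] k).toLinearMap).map
      (aeval ξ : P4 k →ₐ[k] PowerSeries k).toLinearMap
  have hB0 : ∀ f, f ∈ B0 ↔ ∃ g, (g ∈ F3 k (N + 1) ∧ eval u g = 0) ∧ aeval ξ g = f := fun f => Iff.rfl
  have lt : B0 < BN ξ k (N + 1) := by
    obtain ⟨i, hi, ui⟩ : ∃ i : Fin 4, (i = 0 ∨ i = 1 ∨ i = 3) ∧ u i = 1 := by
      rcases hn with h0 | ⟨-, h3⟩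
      exacts [⟨0, .inl rfl, h0⟩, ⟨3, .inr (.inr rfl), h3⟩]
    refine lt_of_le_of_ne (fun f hf => ?_) fun e => ?_
    · obtain ⟨g, hg, e⟩ := (hB0 f).1 hf
      exact chv_BN.2 ⟨g, hg.1, e⟩
    · have hx := chv_pow (k := k) i hi (N + 1)
      have : aeval ξ (X i ^ (N + 1) : P4 k) ∈ B0 := e ▸ chv_BN.2 ⟨_, hx, rfl⟩
      obtain ⟨g, hg, e⟩ := (hB0 _).1 this
      have h1 : eval u (g - X i ^ (N + 1)) = 0 :=
        hu _ ⟨N + 1, (chv_F3.1 (sub_mem hg.1 hx)).1⟩ (by rw [map_sub, e, sub_self])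
      simp [hg.2, ui] at h1
  have d0 := Submodule.finrank_lt_finrank_of_lt lt
  have fB0 : FiniteDimensional k B0 := Submodule.finiteDimensional_of_le lt.le
  have s1 : BN ξ k (N + 1) ⊓ chv_O k o ⊔ (BN ξ k N).map m ≤ B0 := by
    refine sup_le (fun f hf => ?_) ?_
    · obtain ⟨g, hg, rfl⟩ := chv_BN.1 hf.1
      exact (hB0 _).2 ⟨g, ⟨hg, hv g hg (chv_mem.1 hf.2)⟩, rfl⟩
    · rintro _ ⟨f, hf, rfl⟩
      obtain ⟨g, hg, rfl⟩ := chv_BN.1 hf
      exact (hB0 _).2 ⟨l * g, ⟨add_comm 1 N ▸ F3_mul hl hg, by rw [map_mul, l0, zero_mul]⟩,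
        map_mul _ _ _⟩
  have s2 : BN ξ k (N + 1) ⊓ chv_O k o ⊓ (BN ξ k N).map m ≤ (BN ξ k N ⊓ chv_O k o).map m := by
    rintro _ ⟨⟨-, h2⟩, f, hf, rfl⟩
    refine ⟨f, ⟨hf, chv_mem.2 ?_⟩, rfl⟩
    have := chv_mem.1 h2
    rwa [show m f = aeval ξ l * f from rfl, PowerSeries.order_mul, lo, zero_add] at this
  have e1 := Submodule.finrank_sup_add_finrank_inf_eq (BN ξ k (N + 1) ⊓ chv_O k o)
    ((BN ξ k N).map m)
  have e2 := Submodule.finrank_mono s1
  have e3 := (Submodule.finrank_mono s2).trans (Submodule.finrank_map_le _ _)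
  have e4 : Module.finrank k ((BN ξ k N).map m) = bb D N := by
    rw [← dim_BN h k N]
    exact (Submodule.equivMapOfInjective m mi _).finrank_eq.symm
  have e5 := bb_add D N 1
  rw [dim_BN h k] at d0
  omega

theorem chv_big (h : Nch ξ D r d0 φ φ2 δ0 ψ Δ b) (N0 : ℕ) :
    D * (D * D) + 1 ≤
      Module.finrank k ↥(BN ξ k (N0 + D * D) ⊓ chv_O k (D * N0 + 1)) + D * D := by
  have f1 := chv_fin ξ (N0 + D * D)
  have h1 := chv_dim (BN ξ k (N0 + D * D)) (D * N0 + 1)
  have h2 := bb_ge D (N0 + D * D)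
  have h3 := h.ch.hD
  rw [dim_BN h k] at h1
  rw [mul_add, mul_add] at h2
  omega

theorem hv_one (h : Nch ξ D r d0 φ φ2 δ0 ψ Δ b) (u : Fin 4 → k) (hu : u ∈ cone ξ k) (hn : Nrm u)
    (hp : u ≠ P1 ξ) (N0 : ℕ) : ∃ (N : ℕ) (g : P4 k), N ≤ N0 + D * D ∧ g.IsHomogeneous N ∧
      ((D * N0 + 1 : ℕ) : ℕ∞) ≤ (aeval ξ g : PowerSeries k).order ∧ eval u g ≠ 0 := by
  by_contra hc
  push Not at hc
  have key : ∀ j, j ≤ D * D →
      Module.finrank k ↥(BN ξ k (N0 + j) ⊓ chv_O k (D * N0 + 1)) + j ≤ D * j := by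
    intro j
    induction j with
    | zero =>
      intro _
      have : BN ξ k N0 ⊓ chv_O k (D * N0 + 1) = ⊥ := by
        refine eq_bot_iff.2 fun f hf => ?_
        obtain ⟨g, hg, rfl⟩ := chv_BN.1 hf.1
        by_contra e
        have := (chv_mem.1 hf.2).trans (maxv_of h g N0 (chv_F3.1 hg).1 e)
        have : D * N0 + 1 ≤ D * N0 := by exact_mod_cast this
        omega
      rw [add_zero N0, this, finrank_bot]
      exact Nat.zero_le _
    | succ j ih =>
      intro hj
      have a := chv_step h u hu hn hp (D * N0 + 1) (N0 + j) fun g hg =>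
        hc _ g (by omega) (chv_F3.1 hg).1
      have c := ih (by omega)
      rw [← add_assoc N0 j 1, mul_add D j 1]
      omega
  have a := key _ le_rfl
  have c := chv_big h N0
  omega

theorem hv_nz (h : Nch ξ D r d0 φ φ2 δ0 ψ Δ b) (N0 : ℕ) : ∃ g : P4 k,
    g.IsHomogeneous (N0 + D * D) ∧ aeval ξ g ≠ 0 ∧
      ((D * N0 + 1 : ℕ) : ℕ∞) ≤ (aeval ξ g : PowerSeries k).order := by
  have c := chv_big h N0
  have d : D * D ≤ D * (D * D) := Nat.le_mul_of_pos_left _ h.ch.hD
  have e : BN ξ k (N0 + D * D) ⊓ chv_O k (D * N0 + 1) ≠ ⊥ := fun e => by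
    rw [e, finrank_bot] at c
    omega
  obtain ⟨f, hf, f0⟩ := (Submodule.ne_bot_iff _).1 e
  obtain ⟨g, hg, rfl⟩ := chv_BN.1 hf.1
  exact ⟨g, (chv_F3.1 hg).1, f0, chv_mem.1 hf.2⟩

end H39c

end PartH39cCHv

section PartH39cCForm

/-! Part C, row Form: prescribed values and order. -/

set_option autoImplicit false

open MvPolynomial

namespace H39c

universe u

variable {k : Type u} [Field k] [IsAlgClosed k] {ξ : Fin 4 → PowerSeries k} {D r d0 : ℕ}
  {φ φ2 δ0 ψ Δ b : P4 k}

omit [IsAlgClosed k] in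
theorem cform_fin (a c : k) (h : a ≠ 0 ∨ c ≠ 0) : {t : k | a + t * c = 0}.Finite := by
  refine Set.Subsingleton.finite fun t ht t' ht' => ?_
  have h1 : a + t * c = 0 := ht
  have h2 : a + t' * c = 0 := ht'
  by_cases hc : c = 0
  · rw [hc, mul_zero, add_zero] at h1
    exact (h.elim (fun h => h h1) fun h => h hc).elim
  · exact mul_right_cancel₀ hc (by linear_combination h1 - h2)

theorem cform_avoid {ι : Type*} (T : Finset ι) (a c : ι → k) (h : ∀ i ∈ T, a i ≠ 0 ∨ c i ≠ 0) :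
    ∃ t : k, ∀ i ∈ T, a i + t * c i ≠ 0 := by
  have hf : (⋃ i ∈ T, {t : k | a i + t * c i = 0}).Finite :=
    T.finite_toSet.biUnion fun i hi => cform_fin _ _ (h i hi)
  obtain ⟨t, ht⟩ := hf.exists_notMem
  exact ⟨t, fun i hi h0 => ht (Set.mem_biUnion hi h0)⟩

theorem cform_num (K D j w e N B : ℕ) (hD : 0 < D) (hw : D * (2 * (K + 1) * (D * D)) + 1 ≤ w)
    (hj : j * w ≤ e) (he : (K + 1) * e ≤ K * (D * N)) (hN : 2 * (K + 1) * B ≤ N) :
    j * (2 * (K + 1) * (D * D) + D * D) + B ≤ N := by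
  have h1 : D * ((K + 1) * (j * (2 * (K + 1) * (D * D)))) ≤ D * (K * N) := by
    calc D * ((K + 1) * (j * (2 * (K + 1) * (D * D))))
        = (K + 1) * (j * (D * (2 * (K + 1) * (D * D)))) := by ring
      _ ≤ (K + 1) * (j * w) := by
          refine Nat.mul_le_mul_left _ (Nat.mul_le_mul_left _ (by omega))
      _ ≤ (K + 1) * e := Nat.mul_le_mul_left _ hj
      _ ≤ K * (D * N) := he
      _ = D * (K * N) := by ring
  have h2 := Nat.le_of_mul_le_mul_left h1 hD
  have h3 : 0 < 2 * (K + 1) * (K + 1) := by positivity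
  refine Nat.le_of_mul_le_mul_left ?_ h3
  calc 2 * (K + 1) * (K + 1) * (j * (2 * (K + 1) * (D * D) + D * D) + B)
      = (2 * K + 3) * ((K + 1) * (j * (2 * (K + 1) * (D * D)))) +
          (K + 1) * (2 * (K + 1) * B) := by ring
    _ ≤ (2 * K + 3) * (K * N) + (K + 1) * N :=
        Nat.add_le_add (Nat.mul_le_mul_left _ h2) (Nat.mul_le_mul_left _ hN)
    _ ≤ 2 * (K + 1) * (K + 1) * N := by nlinarith [Nat.zero_le N]

theorem hv (h : Nch ξ D r d0 φ φ2 δ0 ψ Δ b) (Z : Finset (Fin 4 → k))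
    (hZ : ∀ z ∈ Z, z ∈ cone ξ k ∧ Nrm z ∧ z ≠ P1 ξ) (N0 : ℕ) : ∃ σ : P4 k,
      σ.IsHomogeneous (N0 + D * D) ∧ aeval ξ σ ≠ 0 ∧
      ((D * N0 + 1 : ℕ) : ℕ∞) ≤ (aeval ξ σ : PowerSeries k).order ∧ ∀ z ∈ Z, eval z σ ≠ 0 := by
  classical
  have main : ∃ σ : P4 k, σ.IsHomogeneous (N0 + D * D) ∧
      ((D * N0 + 1 : ℕ) : ℕ∞) ≤ (aeval ξ σ : PowerSeries k).order ∧ ∀ z ∈ Z, eval z σ ≠ 0 := by
    induction Z using Finset.induction_on with
    | empty => exact ⟨0, isHomogeneous_zero _ _ _, by simp, by simp⟩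
    | insert u Z hu ih =>
      obtain ⟨σ, h1, h2, h3⟩ := ih fun z hz => hZ z (Finset.mem_insert_of_mem hz)
      obtain ⟨hu1, hu2, hu3⟩ := hZ u (Finset.mem_insert_self _ _)
      obtain ⟨N, g, hN, hg, og, gu⟩ := hv_one h u hu1 hu2 hu3 N0
      obtain ⟨c, hc⟩ := lin_ne ({u} : Finset (Fin 4 → k)) (by simpa using hu2)
      have hc' : u 0 + c * u 3 ≠ 0 := hc u (by simp)
      let g' : P4 k := g * (X 0 + C c * X 3) ^ (N0 + D * D - N)
      have hg' : g'.IsHomogeneous (N0 + D * D) := by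
        have := hg.mul (((isHomogeneous_X k (0 : Fin 4)).add
          ((isHomogeneous_X k (3 : Fin 4)).C_mul c)).pow (N0 + D * D - N))
        rwa [show N + 1 * (N0 + D * D - N) = N0 + D * D by omega] at this
      have og' : ((D * N0 + 1 : ℕ) : ℕ∞) ≤ (aeval ξ g' : PowerSeries k).order := by
        simp only [g', map_mul]
        exact (og.trans le_self_add).trans (PowerSeries.le_order_mul _ _)
      have gu' : eval u g' ≠ 0 := by
        simp only [g', map_mul, map_pow, map_add, eval_X, eval_C]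
        exact mul_ne_zero gu (pow_ne_zero _ hc')
      obtain ⟨t, ht⟩ := cform_avoid (insert u Z) (fun z => eval z σ) (fun z => eval z g')
        fun z hz => by
          rcases Finset.mem_insert.1 hz with rfl | hz
          · exact Or.inr gu'
          · exact Or.inl (h3 z hz)
      refine ⟨σ + C t * g', h1.add (hg'.C_mul t), ?_, fun z hz => ?_⟩
      · rw [map_add, map_mul]
        refine le_trans (le_min h2 ?_) (PowerSeries.min_order_le_order_add _ _)
        exact (og'.trans le_add_self).trans (PowerSeries.le_order_mul _ _)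
      · rw [map_add, map_mul, eval_C]
        exact ht z hz
  rcases Z.eq_empty_or_nonempty with rfl | ⟨z, hz⟩
  · obtain ⟨g, h1, h2, h3⟩ := hv_nz h N0
    exact ⟨g, h1, h2, h3, by simp⟩
  · obtain ⟨σ, h1, h2, h3⟩ := main
    exact ⟨σ, h1, fun h0 => h3 z hz ((hZ z hz).1 σ ⟨_, h1⟩ h0), h2, h3⟩

theorem form_of (h : Nch ξ D r d0 φ φ2 δ0 ψ Δ b) : ∀ (K : ℕ), 0 < K → ∀ (Z : Finset (Fin 4 → k)),
    (∀ z ∈ Z, z ∈ cone ξ k ∧ Nrm z ∧ z ≠ P1 ξ) → ∃ N0 : ℕ, ∀ N, N0 ≤ N → ∀ e : ℕ,
      K * e ≤ (K - 1) * (D * N) → ∀ val : (Fin 4 → k) → k, ∃ s : P4 k, s.IsHomogeneous N ∧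
        (∀ z ∈ Z, eval z s = val z) ∧ (aeval ξ s : PowerSeries k).order = (e : ℕ) := by
  classical
  intro K hK Z hZ
  obtain ⟨K, rfl⟩ : ∃ K', K = K' + 1 := ⟨K - 1, by omega⟩
  have hD := h.ch.hD
  obtain ⟨σ, hσ, σ0, oσ, σZ⟩ := hv h Z hZ (2 * (K + 1) * (D * D))
  have omax := maxv_of h σ _ hσ σ0
  obtain ⟨w, hw⟩ : ∃ w : ℕ, (aeval ξ σ : PowerSeries k).order = w :=
    ⟨_, (ENat.natCast_toNat (ne_top_of_le_ne_top (ENat.natCast_ne_top _) omax)).symm⟩
  rw [hw] at oσ omax
  have w1 : D * (2 * (K + 1) * (D * D)) + 1 ≤ w := by exact_mod_cast oσ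
  have P0 : P1 ξ 0 = 1 := by simp [P1, h.h0]
  have P3 : P1 ξ 3 = 0 := by simp [P1, h.h3]
  obtain ⟨c, hc⟩ := cform_avoid (Finset.insertNone Z)
    (fun o => o.elim 1 fun z => z 3)
    (fun o => o.elim (PowerSeries.coeff 1 (ξ 1)) fun z => z 1 - P1 ξ 1 * z 0) (by
      rintro (_ | z) hz
      · exact Or.inl one_ne_zero
      · obtain ⟨z1, z2, z3⟩ := hZ z (by simpa using hz)
        by_contra hcon
        push Not at hcon
        have e3 : z 3 = 0 := hcon.1
        have e1 : z 1 - P1 ξ 1 * z 0 = 0 := hcon.2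
        have e0 : z 0 = 1 := by
          rcases z2 with h0 | h0
          · exact h0
          · rw [e3] at h0
            exact absurd h0.2 zero_ne_one
        refine z3 (bir_of h k (P1 ξ) (P1_mem ξ) z z1 (by rw [P0, e0]) ?_ (by rw [P3, e3])
          (δP1_of h)).symm
        rw [e0] at e1
        linear_combination -e1)
  let l1 : P4 k := X 3 + C c * (X 1 - C (P1 ξ 1) * X 0)
  have hl1 : l1.IsHomogeneous 1 :=
    (isHomogeneous_X k 3).add (((isHomogeneous_X k 1).sub ((isHomogeneous_X k 0).C_mul _)).C_mul c)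
  have l1Z : ∀ z ∈ Z, eval z l1 ≠ 0 := fun z hz => by
    simpa [l1] using hc (some z) (by simpa using hz)
  have ol1 : (aeval ξ l1 : PowerSeries k).order = (1 : ℕ) := by
    have e : (aeval ξ l1 : PowerSeries k) =
        PowerSeries.X + PowerSeries.C c * (ξ 1 - PowerSeries.C (P1 ξ 1)) := by
      simp [l1, h.h0, h.h3]
    rw [e, PowerSeries.order_eq_nat]
    refine ⟨?_, fun i hi => ?_⟩
    · have := hc none (by simp)
      simpa [PowerSeries.coeff_C] using this
    · obtain rfl : i = 0 := by omega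
      simp [P1]
  refine ⟨2 * (K + 1) * (w + (Z.card + 1)), fun N hN e he val => ?_⟩
  have wpos : 0 < w := by omega
  have hnum := cform_num K D (e / w) w e N (w + (Z.card + 1)) hD w1 (Nat.div_mul_le_self _ _)
    (by simpa using he) hN
  have hr : e % w < w := Nat.mod_lt _ wpos
  obtain ⟨Λ, hΛ, vΛ⟩ := interp (insert (P1 ξ) Z) (fun z hz => by
      rcases Finset.mem_insert.1 hz with rfl | hz
      · exact Or.inl P0
      · exact (hZ z hz).2.1)
    (N - (e / w * (2 * (K + 1) * (D * D) + D * D) + e % w))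
    ((Finset.card_insert_le _ _).trans (by omega))
    (fun z => if z = P1 ξ then 1 else val z / (eval z σ ^ (e / w) * eval z l1 ^ (e % w)))
  refine ⟨σ ^ (e / w) * l1 ^ (e % w) * Λ, ?_, fun z hz => ?_, ?_⟩
  · have := ((hσ.pow (e / w)).mul (hl1.pow (e % w))).mul hΛ
    rwa [show (2 * (K + 1) * (D * D) + D * D) * (e / w) + 1 * (e % w) +
      (N - (e / w * (2 * (K + 1) * (D * D) + D * D) + e % w)) = N by
        rw [mul_comm _ (e / w)]; omega] at this
  · rw [map_mul, map_mul, map_pow, map_pow, vΛ z (Finset.mem_insert_of_mem hz),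
      if_neg (hZ z hz).2.2,
      mul_div_cancel₀ _ (mul_ne_zero (pow_ne_zero _ (σZ z hz)) (pow_ne_zero _ (l1Z z hz)))]
  · have oΛ : (aeval ξ Λ : PowerSeries k).order = (0 : ℕ) := by
      rw [PowerSeries.order_eq_nat]
      refine ⟨?_, fun i hi => absurd hi (Nat.not_lt_zero i)⟩
      rw [PowerSeries.coeff_zero_eq_constantCoeff_apply, ← eval_P1,
        vΛ _ (Finset.mem_insert_self _ _), if_pos rfl]
      exact one_ne_zero
    rw [map_mul, map_mul, map_pow, map_pow, PowerSeries.order_mul, PowerSeries.order_mul,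
      PowerSeries.order_pow, PowerSeries.order_pow, hw, ol1, oΛ, nsmul_eq_mul, nsmul_eq_mul]
    have := Nat.div_add_mod' e w
    exact_mod_cast (by omega : e / w * w + e % w * 1 + 0 = e)

end H39c

end PartH39cCForm
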