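import Pool.Agent.MP_b04567_ag.Cp.CA

section PartH39cCPrim

/-! Part C, row Prim: a form that separates one fibre. -/

set_option autoImplicit false

open MvPolynomial

namespace H39c

universe u

theorem cprim_exp {R L : Type u} [CommRing R] [Nontrivial R] [CommRing L] {f : Polynomial R}
    (hf : f.Monic) {D : ℕ} (hD : 0 < D) (hd : f.natDegree = D) (E : Polynomial R →+* L)
    (hE : E f = 0) (p : Polynomial R) :
    E p = ∑ j : Fin D, E (Polynomial.C ((p %ₘ f).coeff j)) * E Polynomial.X ^ (j : ℕ) := by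
  have h1 : E p = E (p %ₘ f) := by
    conv_lhs => rw [← Polynomial.modByMonic_add_div p f]
    rw [map_add, map_mul, hE, zero_mul, add_zero]
  have hne : f ≠ 1 := by
    intro h
    rw [h, Polynomial.natDegree_one] at hd
    omega
  have h2 : (p %ₘ f).natDegree < D := hd ▸ Polynomial.natDegree_modByMonic_lt p hf hne
  rw [h1]
  conv_lhs => rw [Polynomial.as_sum_range_C_mul_X_pow' (p %ₘ f) h2]
  rw [map_sum, Finset.sum_range]
  refine Finset.sum_congr rfl fun j _ => ?_
  rw [map_mul, map_pow]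

/-- the matrix of the powers of `σ` modulo `f` -/
noncomputable def cprim_M {R : Type u} [CommRing R] (f σ : Polynomial R) (D : ℕ) :
    Matrix (Fin D) (Fin D) R := fun i j => ((σ ^ (i : ℕ)) %ₘ f).coeff j

theorem cprim_det_ne {R L : Type u} [CommRing R] [Nontrivial R] [Field L] {f : Polynomial R}
    (hf : f.Monic) {D : ℕ} (hD : 0 < D) (hd : f.natDegree = D) (σ : Polynomial R) (π : R →+* L)
    (E : Fin D → (Polynomial R →+* L)) (hE : ∀ i, E i f = 0)
    (hπ : ∀ i a, E i (Polynomial.C a) = π a) (hinj : Function.Injective fun i => E i σ) :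
    π (cprim_M f σ D).det ≠ 0 := by
  have hm : (Matrix.vandermonde fun i => E i Polynomial.X) * ((cprim_M f σ D).map π).transpose =
      Matrix.vandermonde fun i => E i σ := by
    ext i j
    rw [Matrix.mul_apply, Matrix.vandermonde_apply, ← map_pow,
      cprim_exp hf hD hd (E i) (hE i) (σ ^ (j : ℕ))]
    refine Finset.sum_congr rfl fun l _ => ?_
    rw [Matrix.vandermonde_apply, Matrix.transpose_apply, Matrix.map_apply, hπ, mul_comm]
    rfl
  intro h0
  have h1 := congrArg Matrix.det hm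
  rw [Matrix.det_mul, Matrix.det_transpose] at h1
  have h2 : ((cprim_M f σ D).map π).det = π (cprim_M f σ D).det := (π.map_det _).symm
  rw [h2, h0, mul_zero] at h1
  exact (Matrix.det_vandermonde_ne_zero_iff.mpr hinj) h1.symm

theorem cprim_eq {R L : Type u} [CommRing R] [Nontrivial R] [Field L] {f : Polynomial R}
    (hf : f.Monic) {D : ℕ} (hD : 0 < D) (hd : f.natDegree = D) (σ : Polynomial R) (π : R →+* L)
    (E E' : Polynomial R →+* L) (hE : E f = 0) (hE' : E' f = 0)
    (hπ : ∀ a, E (Polynomial.C a) = π a) (hπ' : ∀ a, E' (Polynomial.C a) = π a)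
    (hs : E σ = E' σ) (hne : π (cprim_M f σ D).det ≠ 0) : E Polynomial.X = E' Polynomial.X := by
  have h2 : ((cprim_M f σ D).map π).det = π (cprim_M f σ D).det := (π.map_det _).symm
  have hz : ((cprim_M f σ D).map π).mulVec
      (fun j : Fin D => E Polynomial.X ^ (j : ℕ) - E' Polynomial.X ^ (j : ℕ)) = 0 := by
    funext i
    have e1 := cprim_exp hf hD hd E hE (σ ^ (i : ℕ))
    have e2 := cprim_exp hf hD hd E' hE' (σ ^ (i : ℕ))
    rw [map_pow] at e1 e2
    rw [hs, e2] at e1
    simp only [hπ, hπ'] at e1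
    simp only [Matrix.mulVec, dotProduct, Matrix.map_apply, cprim_M, mul_sub,
      Finset.sum_sub_distrib, Pi.zero_apply]
    rw [e1, sub_self]
  have hv := Matrix.eq_zero_of_mulVec_eq_zero (h2 ▸ hne) hz
  have e1 := cprim_exp hf hD hd E hE Polynomial.X
  have e2 := cprim_exp hf hD hd E' hE' Polynomial.X
  rw [e1, e2]
  refine Finset.sum_congr rfl fun j _ => ?_
  rw [hπ, hπ', sub_eq_zero.mp (congrFun hv j)]

variable {k : Type u} [Field k] [IsAlgClosed k] {ξ : Fin 4 → PowerSeries k} {D r d0 : ℕ}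
  {φ φ2 δ0 ψ Δ b : P4 k}

/-- the generic point of the chart -/
noncomputable def cprim_W (k : Type u) [Field k] : Fin 4 → Polynomial (Polynomial k) :=
  Function.update (fun j => Polynomial.C ((![1, 0, 0, Polynomial.X] : Fin 4 → Polynomial k) j)) 1
    Polynomial.X

/-- evaluation at a point -/
noncomputable def cprim_E (k : Type u) [Field k] {L : Type u} [Field L] [Algebra k L]
    (v : Fin 4 → L) : Polynomial (Polynomial k) →ₐ[k] L :=
  Polynomial.aevalTower (Polynomial.aeval (v 3)) (v 1)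

/-- the form `s` with `x2` removed -/
noncomputable def cprim_S (δ0 ψ s : P4 k) : Polynomial (Polynomial k) :=
  aeval ![aeval (cprim_W k) δ0 * cprim_W k 0, aeval (cprim_W k) δ0 * cprim_W k 1,
    aeval (cprim_W k) ψ, aeval (cprim_W k) δ0 * cprim_W k 3] s

omit [IsAlgClosed k] in
theorem cprim_EW {L : Type u} [Field L] [Algebra k L] (v : Fin 4 → L) (h0 : v 0 = 1) :
    cprim_E k v (cprim_W k 0) = v 0 ∧ cprim_E k v (cprim_W k 1) = v 1 ∧
      cprim_E k v (cprim_W k 3) = v 3 := by
  refine ⟨?_, ?_, ?_⟩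
  · simp [cprim_E, cprim_W, h0]
  · simp [cprim_E, cprim_W]
  · simp [cprim_E, cprim_W]

omit [IsAlgClosed k] in
theorem cprim_Eg {L : Type u} [Field L] [Algebra k L] (v : Fin 4 → L) (h0 : v 0 = 1) {g : P4 k}
    (hg : g ∈ supported k ({0, 1, 3} : Set (Fin 4))) :
    cprim_E k v (aeval (cprim_W k) g) = aeval v g := by
  obtain ⟨e0, e1, e3⟩ := cprim_EW (k := k) v h0
  rw [← AlgHom.comp_apply, comp_aeval]
  refine sup_congr hg fun j hj => ?_
  rcases hj with rfl | rfl | rfl
  exacts [e0, e1, e3]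

omit [IsAlgClosed k] in
theorem cprim_sub {g : P4 k} (hg : g ∈ supported k ({0, 3} : Set (Fin 4))) :
    g ∈ supported k ({0, 1, 3} : Set (Fin 4)) := by
  refine supported_mono ?_ hg
  intro j hj
  rcases hj with rfl | rfl
  · exact Or.inl rfl
  · exact Or.inr (Or.inr rfl)

omit [IsAlgClosed k] in
theorem cprim_ES (h : Nch ξ D r d0 φ φ2 δ0 ψ Δ b) {s : P4 k} {n : ℕ} (hs : s.IsHomogeneous n)
    {L : Type u} [Field L] [Algebra k L] {v : Fin 4 → L} (hv : v ∈ cone ξ L) (h0 : v 0 = 1) :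
    cprim_E k v (cprim_S δ0 ψ s) = aeval v δ0 ^ n * aeval v s := by
  obtain ⟨e0, e1, e3⟩ := cprim_EW (k := k) v h0
  have eδ := cprim_Eg v h0 (cprim_sub h.ch.sδ)
  have eψ := cprim_Eg v h0 h.ch.sψ
  have e2 := idl_ev ξ k L v hv _ h.ch.i3
  rw [map_sub, map_mul, aeval_X, sub_eq_zero] at e2
  rw [← hom_smul hs v (aeval v δ0), cprim_S, ← AlgHom.comp_apply, comp_aeval]
  refine congrArg (fun w : Fin 4 → L => aeval w s) (funext fun j => ?_)
  fin_cases j
  · show cprim_E k v (_ * _) = _ * v 0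
    rw [map_mul, eδ, e0]
  · show cprim_E k v (_ * _) = _ * v 1
    rw [map_mul, eδ, e1]
  · show cprim_E k v (aeval (cprim_W k) ψ) = _ * v 2
    rw [eψ, e2]
  · show cprim_E k v (_ * _) = _ * v 3
    rw [map_mul, eδ, e3]

theorem cprim_pts (h : Nch ξ D r d0 φ φ2 δ0 ψ Δ b) : ∃ z : Fin D → Fin 4 → k,
    Function.Injective z ∧ ∀ i, z i ∈ cone ξ k ∧ z i 0 = 1 ∧ z i 3 = 0 := by
  classical
  have hne := h.ne
  rw [map_mul] at hne
  have hΔ : aeval (![1, 0, 0, 0] : Fin 4 → k) Δ ≠ 0 := left_ne_zero_of_mul hne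
  have hδ : aeval (![1, 0, 0, 0] : Fin 4 → k) δ0 ≠ 0 := right_ne_zero_of_mul hne
  let pt : k → Fin 4 → k := fun t =>
    ![1, t, aeval (![1, t, 0, 0] : Fin 4 → k) ψ / aeval (![1, 0, 0, 0] : Fin 4 → k) δ0, 0]
  have c2 : ∀ t, ∀ g ∈ supported k ({0, 3} : Set (Fin 4)),
      aeval (pt t) g = aeval (![1, 0, 0, 0] : Fin 4 → k) g := by
    intro t g hg
    refine sup_congr hg fun j hj => ?_
    rcases hj with rfl | rfl <;> rfl
  have c3 : ∀ t, ∀ g ∈ supported k ({0, 1, 3} : Set (Fin 4)),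
      aeval (pt t) g = (mp 1 g (![1, 0, 0, 0] : Fin 4 → k)).eval t := by
    intro t g hg
    rw [mp_eval]
    refine sup_congr hg fun j hj => ?_
    rcases hj with rfl | rfl | rfl <;> rfl
  have hI : ∀ t, (mp 1 φ (![1, 0, 0, 0] : Fin 4 → k)).eval t = 0 →
      ∀ g ∈ idl ξ k, aeval (pt t) g = 0 := by
    intro t ht
    refine h.ch.pt (pt t) ((c3 t φ h.ch.m1.sup).trans ht) ?_ ?_
    · rw [c2 t δ0 h.ch.sδ]
      exact isUnit_iff_ne_zero.mpr hδ
    · rw [map_sub, map_mul, aeval_X, c2 t δ0 h.ch.sδ]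
      have e : aeval (pt t) ψ = aeval (![1, t, 0, 0] : Fin 4 → k) ψ := by
        refine sup_congr h.ch.sψ fun j hj => ?_
        rcases hj with rfl | rfl | rfl <;> rfl
      rw [e]
      show _ * (_ / _) - _ = 0
      rw [mul_div_cancel₀ _ hδ, sub_self]
  have hsep : (mp 1 φ (![1, 0, 0, 0] : Fin 4 → k)).Separable := by
    refine (Polynomial.isCoprime_iff_aeval_ne_zero_of_isAlgClosed k k _ _).mpr fun t => ?_
    rw [Polynomial.coe_aeval_eq_eval]
    by_cases ht : (mp 1 φ (![1, 0, 0, 0] : Fin 4 → k)).eval t = 0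
    · refine Or.inr fun hd => ?_
      have e := hI t ht _ h.ch.i4
      rw [mp_deriv, ← c3 t _ (pderiv_sup h.ch.m1.sup 1).1] at hd
      rw [map_sub, map_mul, hd, mul_zero, sub_zero, c2 t Δ (bin_iff.mp h.ch.bΔ).2] at e
      exact hΔ e
    · exact Or.inl ht
  have hmon := mp_monic h.ch.m1.hom h.ch.m1.one (![1, 0, 0, 0] : Fin 4 → k)
  have hcard : (mp 1 φ (![1, 0, 0, 0] : Fin 4 → k)).roots.toFinset.card = D := by
    rw [Multiset.toFinset_card_of_nodup (Polynomial.nodup_roots hsep),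
      IsAlgClosed.card_roots_eq_natDegree, mp_deg h.ch.m1.hom h.ch.m1.one]
  let e := (Finset.equivFinOfCardEq hcard).symm
  refine ⟨fun i => pt (e i).1, fun i j hij => ?_, fun i => ⟨?_, rfl, rfl⟩⟩
  · exact e.injective (Subtype.ext (congrFun hij 1))
  · refine cone_of_idl ξ (hI _ ?_)
    exact (Polynomial.mem_roots hmon.ne_zero).mp (Multiset.mem_toFinset.mp (e i).2)

theorem prim_of (h : Nch ξ D r d0 φ φ2 δ0 ψ Δ b) : ∀ (s : P4 k), Form s →
    (∀ z ∈ cone ξ k, ∀ z' ∈ cone ξ k, z 0 = 1 → z' 0 = 1 → z 3 = 0 → z' 3 = 0 →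
      eval z s = eval z' s → z = z') →
    ∃ g : P4 k, Bin g ∧ eval (P1 ξ) g ≠ 0 ∧
      ∀ (L : Type u) [Field L] [Algebra k L], ∀ v ∈ cone ξ L, ∀ v' ∈ cone ξ L,
        v 0 = v' 0 → v 3 = v' 3 → aeval v s = aeval v' s → aeval v g ≠ 0 → v = v' := by
  rintro s ⟨n, hs⟩ hsep
  have hf : (aeval (cprim_W k) φ).Monic :=
    mp_monic h.ch.m1.hom h.ch.m1.one (![1, 0, 0, Polynomial.X] : Fin 4 → Polynomial k)
  have hd : (aeval (cprim_W k) φ).natDegree = D :=
    mp_deg h.ch.m1.hom h.ch.m1.one (![1, 0, 0, Polynomial.X] : Fin 4 → Polynomial k)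
  have hEf : ∀ (L : Type u) [Field L] [Algebra k L], ∀ v ∈ cone ξ L, v 0 = 1 →
      (cprim_E k v).toRingHom (aeval (cprim_W k) φ) = 0 := fun L _ _ v hv h0 =>
    (cprim_Eg v h0 h.ch.m1.sup).trans (idl_ev ξ k L v hv _ h.ch.i1)
  have hEC : ∀ (L : Type u) [Field L] [Algebra k L] (v : Fin 4 → L) (x : L), v 3 = x →
      ∀ a, (cprim_E k v).toRingHom (Polynomial.C a) =
        (Polynomial.aeval x : Polynomial k →ₐ[k] L).toRingHom a := by
    intro L _ _ v x hx a
    subst hx
    exact Polynomial.aevalTower_C _ _ _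
  have hδ2 : ∀ (L : Type u) [Field L] [Algebra k L] (v v' : Fin 4 → L), v 0 = v' 0 → v 3 = v' 3 →
      aeval v δ0 = aeval v' δ0 := by
    intro L _ _ v v' e0 e3
    refine sup_congr h.ch.sδ fun j hj => ?_
    rcases hj with rfl | rfl
    exacts [e0, e3]
  obtain ⟨N, hN, hNq⟩ := poly_bin (cprim_M (aeval (cprim_W k) φ) (cprim_S δ0 ψ s) D).det
  obtain ⟨⟨a1, ha1⟩, hb1⟩ := bin_iff.mp (δbin_of h)
  obtain ⟨⟨a2, ha2⟩, hb2⟩ := bin_iff.mp hN
  have hP0 : P1 ξ 0 = 1 := by simp [P1, h.h0]
  have hP3 : P1 ξ 3 = 0 := by simp [P1, h.h3]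
  refine ⟨X 0 * (Δ * δ0) * N, bin_iff.mpr ⟨⟨_, ((isHomogeneous_X k 0).mul ha1).mul ha2⟩,
    mul_mem (mul_mem (X_mem_supported.mpr (Or.inl rfl)) hb1) hb2⟩, ?_, ?_⟩
  · obtain ⟨z, hzi, hz⟩ := cprim_pts h
    have hne := h.ne
    rw [map_mul] at hne
    have hδ : aeval (![1, 0, 0, 0] : Fin 4 → k) δ0 ≠ 0 := right_ne_zero_of_mul hne
    have hq := cprim_det_ne hf h.ch.hD hd (cprim_S δ0 ψ s)
      (Polynomial.aeval (0 : k) : Polynomial k →ₐ[k] k).toRingHom
      (fun i => (cprim_E k (z i)).toRingHom) (fun i => hEf k _ (hz i).1 (hz i).2.1)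
      (fun i => hEC k _ _ (hz i).2.2) (fun i j hij => by
        have e : cprim_E k (z i) (cprim_S δ0 ψ s) = cprim_E k (z j) (cprim_S δ0 ψ s) := hij
        rw [cprim_ES h hs (hz i).1 (hz i).2.1, cprim_ES h hs (hz j).1 (hz j).2.1,
          hδ2 k (z i) ![1, 0, 0, 0] (hz i).2.1 (hz i).2.2,
          hδ2 k (z j) ![1, 0, 0, 0] (hz j).2.1 (hz j).2.2] at e
        exact hzi (hsep _ (hz i).1 _ (hz j).1 (hz i).2.1 (hz j).2.1 (hz i).2.2 (hz j).2.2
          (mul_left_cancel₀ (pow_ne_zero _ hδ) e)))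
    rw [map_mul, map_mul, eval_X, hP0, one_mul]
    refine mul_ne_zero (δP1_of h) ?_
    have e := hNq k (P1 ξ) hP0
    rw [hP3] at e
    intro h0
    exact hq (e.symm.trans h0)
  · intro L _ _ v hv v' hv' e0 e3 es hg
    rw [map_mul, map_mul, aeval_X] at hg
    have g0 : v 0 ≠ 0 := left_ne_zero_of_mul (left_ne_zero_of_mul hg)
    have g1 : aeval v (Δ * δ0) ≠ 0 := right_ne_zero_of_mul (left_ne_zero_of_mul hg)
    have g2 : aeval v N ≠ 0 := right_ne_zero_of_mul hg
    have hl : (v 0)⁻¹ ≠ 0 := inv_ne_zero g0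
    have hu := cone_smul ξ hv (v 0)⁻¹
    have hu' := cone_smul ξ hv' (v 0)⁻¹
    have u0 : (fun i => (v 0)⁻¹ * v i) 0 = 1 := inv_mul_cancel₀ g0
    have u0' : (fun i => (v 0)⁻¹ * v' i) 0 = 1 := by
      show (v 0)⁻¹ * v' 0 = 1
      rw [← e0]
      exact inv_mul_cancel₀ g0
    have u3 : (fun i => (v 0)⁻¹ * v' i) 3 = (v 0)⁻¹ * v 3 := congrArg _ e3.symm
    have hq := hNq L (fun i => (v 0)⁻¹ * v i) u0
    rw [hom_smul ha2] at hq
    have key := cprim_eq hf h.ch.hD hd (cprim_S δ0 ψ s)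
      (Polynomial.aeval ((v 0)⁻¹ * v 3) : Polynomial k →ₐ[k] L).toRingHom
      (cprim_E k fun i => (v 0)⁻¹ * v i).toRingHom (cprim_E k fun i => (v 0)⁻¹ * v' i).toRingHom
      (hEf L _ hu u0) (hEf L _ hu' u0') (hEC L _ _ rfl) (hEC L _ _ u3)
      (by
        show cprim_E k _ _ = cprim_E k _ _
        rw [cprim_ES h hs hu u0, cprim_ES h hs hu' u0', hom_smul hs, hom_smul hs, es,
          hδ2 L (fun i => (v 0)⁻¹ * v i) (fun i => (v 0)⁻¹ * v' i) (u0.trans u0'.symm) u3.symm])
      (fun h0 => mul_ne_zero (pow_ne_zero _ hl) g2 (hq.trans h0))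
    have e1 : (v 0)⁻¹ * v 1 = (v 0)⁻¹ * v' 1 :=
      ((Polynomial.aevalTower_X _ _).symm.trans key).trans (Polynomial.aevalTower_X _ _)
    exact bir_of h L v hv v' hv' e0 (mul_left_cancel₀ hl e1) e3 g1

end H39c

end PartH39cCPrim

section PartH39cCTan

/-! Part C, row Tan: tangent vectors and local parameter. -/

set_option autoImplicit false

open MvPolynomial

namespace H39c

universe u

variable {k : Type u} [Field k] [IsAlgClosed k] {ξ : Fin 4 → PowerSeries k} {D r d0 : ℕ}
  {φ φ2 δ0 ψ Δ b : P4 k}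

omit [IsAlgClosed k] in
theorem ctan_d1 (h : Nch ξ D r d0 φ φ2 δ0 ψ Δ b) : pderiv 2 φ = 0 :=
  (pderiv_sup h.ch.m1.sup 2).2 (by simp)

omit [IsAlgClosed k] in
theorem ctan_d2 (h : Nch ξ D r d0 φ φ2 δ0 ψ Δ b) : pderiv 2 (δ0 * X 2 - ψ) = δ0 := by
  rw [map_sub, Derivation.leibniz, (pderiv_sup h.ch.sδ 2).2 (by simp),
    (pderiv_sup h.ch.sψ 2).2 (by simp)]
  simp

omit [IsAlgClosed k] in
theorem ctan_ne (h : Nch ξ D r d0 φ φ2 δ0 ψ Δ b) {L : Type u} [Field L] [Algebra k L]
    {v : Fin 4 → L} (hv : v ∈ cone ξ L) (hn : aeval v (Δ * δ0) ≠ 0) :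
    aeval v (pderiv 1 φ) ≠ 0 ∧ aeval v δ0 ≠ 0 := by
  rw [map_mul] at hn
  refine ⟨fun h0 => left_ne_zero_of_mul hn ?_, right_ne_zero_of_mul hn⟩
  have := idl_ev ξ k L v hv _ h.ch.i4
  rwa [map_sub, map_mul, h0, mul_zero, sub_zero] at this

theorem tan_of (h : Nch ξ D r d0 φ φ2 δ0 ψ Δ b) (L : Type u) [Field L] [Algebra k L] :
    ∀ v ∈ cone ξ L, v 0 = 1 → aeval v (Δ * δ0) ≠ 0 → ∃ w, Tan ξ v w := by
  intro v hv _ hn
  obtain ⟨n1, n2⟩ := ctan_ne h hv hn
  have e1 := idl_ev ξ k L v hv _ h.ch.i1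
  have e2 := idl_ev ξ k L v hv _ h.ch.i3
  let w1 : L := -aeval v (pderiv 3 φ) / aeval v (pderiv 1 φ)
  let w2 : L := -(aeval v (pderiv 1 (δ0 * X 2 - ψ)) * w1 + aeval v (pderiv 3 (δ0 * X 2 - ψ))) /
    aeval v δ0
  have a1 : aeval v (pderiv 1 φ) * w1 = -aeval v (pderiv 3 φ) := mul_div_cancel₀ _ n1
  have a2 : aeval v δ0 * w2 = -(aeval v (pderiv 1 (δ0 * X 2 - ψ)) * w1 +
      aeval v (pderiv 3 (δ0 * X 2 - ψ))) := mul_div_cancel₀ _ n2
  refine ⟨![0, w1, w2, 1], rfl, rfl, cone_of_idl ξ (h.ch.pt _ ?_ ?_ ?_)⟩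
  · have : ∑ j, aeval v (pderiv j φ) * (![0, w1, w2, 1] : Fin 4 → L) j = 0 := by
      rw [Fin.sum_univ_four, ctan_d1 h]
      change _ * 0 + _ * w1 + _ * w2 + _ * 1 = 0
      rw [a1, map_zero]
      ring
    rw [dual_ev, e1, this, TrivSqZeroExt.inl_zero, TrivSqZeroExt.inr_zero, add_zero]
  · rw [dual_ev, TrivSqZeroExt.isUnit_iff_isUnit_fst]
    simpa using n2
  · have : ∑ j, aeval v (pderiv j (δ0 * X 2 - ψ)) * (![0, w1, w2, 1] : Fin 4 → L) j = 0 := by
      rw [Fin.sum_univ_four, ctan_d2 h]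
      change _ * 0 + _ * w1 + _ * w2 + _ * 1 = 0
      rw [a2]
      ring
    rw [dual_ev, e2, this, TrivSqZeroExt.inl_zero, TrivSqZeroExt.inr_zero, add_zero]

omit [IsAlgClosed k] in
theorem ctan_dual {R : Type u} [CommRing R] [Algebra k R] {v w : Fin 4 → R} (ht : Tan ξ v w)
    {g : P4 k} (hg : g ∈ idl ξ k) : aeval v g = 0 ∧
      aeval v (pderiv 1 g) * w 1 + aeval v (pderiv 2 g) * w 2 + aeval v (pderiv 3 g) = 0 := by
  have e := idl_ev ξ k (DualNumber R) _ ht.2.2 _ hg
  rw [dual_ev] at e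
  have e1 := congrArg TrivSqZeroExt.fst e
  have e2 := congrArg TrivSqZeroExt.snd e
  simp only [TrivSqZeroExt.fst_add, TrivSqZeroExt.fst_inl, TrivSqZeroExt.fst_inr, add_zero,
    TrivSqZeroExt.fst_zero] at e1
  simp only [TrivSqZeroExt.snd_add, TrivSqZeroExt.snd_inl, TrivSqZeroExt.snd_inr, zero_add,
    TrivSqZeroExt.snd_zero] at e2
  rw [Fin.sum_univ_four, ht.1, ht.2.1, mul_zero, zero_add, mul_one] at e2
  exact ⟨e1, e2⟩

theorem tanf_of (h : Nch ξ D r d0 φ φ2 δ0 ψ Δ b) : ∃ (n : ℕ) (τ : Fin 4 → P4 k),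
    ∀ (R : Type u) [CommRing R] [Algebra k R] (v w : Fin 4 → R),
      v 0 = 1 → Tan ξ v w → ∀ i, aeval v (Δ * δ0) ^ n * w i = aeval v (τ i) := by
  refine ⟨1, ![0, -(δ0 * b * pderiv 3 φ),
    pderiv 1 (δ0 * X 2 - ψ) * b * pderiv 3 φ - Δ * pderiv 3 (δ0 * X 2 - ψ), Δ * δ0], ?_⟩
  intro R _ _ v w _ ht i
  have e1 := (ctan_dual ht h.ch.i1).2
  have e2 := (ctan_dual ht h.ch.i3).2
  have e3 := (ctan_dual ht h.ch.i4).1
  rw [ctan_d1 h, map_zero] at e1
  rw [ctan_d2 h] at e2
  rw [map_sub, map_mul] at e3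
  rw [pow_one]
  fin_cases i
  · change _ * w 0 = aeval v (0 : P4 k)
    rw [ht.1, mul_zero, map_zero]
  · change _ * w 1 = aeval v (-(δ0 * b * pderiv 3 φ))
    rw [map_neg, map_mul, map_mul, map_mul]
    linear_combination aeval v δ0 * aeval v b * e1 + aeval v δ0 * w 1 * e3
  · change _ * w 2 = aeval v (pderiv 1 (δ0 * X 2 - ψ) * b * pderiv 3 φ -
      Δ * pderiv 3 (δ0 * X 2 - ψ))
    generalize pderiv 1 (δ0 * X 2 - ψ) = E1 at e2 ⊢
    generalize pderiv 3 (δ0 * X 2 - ψ) = E3 at e2 ⊢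
    rw [map_sub, map_mul, map_mul, map_mul, map_mul]
    linear_combination aeval v Δ * e2 - aeval v E1 * aeval v b * e1 - aeval v E1 * w 1 * e3
  · change _ * w 3 = aeval v (Δ * δ0)
    rw [ht.2.1, mul_one]

theorem ctan_taylor {L : Type u} [CommRing L] (v : Fin 4 → L) (f : P4 L) :
    ∃ q : Fin 4 → P4 L, f = C (eval v f) + ∑ j, q j * (X j - C (v j)) ∧
      ∀ j, eval v (q j) = eval v (pderiv j f) := by
  induction f using MvPolynomial.induction_on with
  | C a => exact ⟨0, by simp, fun j => by simp⟩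
  | add f g hf hg =>
    obtain ⟨q, e, d⟩ := hf
    obtain ⟨q', e', d'⟩ := hg
    refine ⟨q + q', ?_, fun j => by simp [d, d']⟩
    simp only [Pi.add_apply, add_mul, Finset.sum_add_distrib, map_add]
    linear_combination e + e'
  | mul_X f i hf =>
    obtain ⟨q, e, d⟩ := hf
    refine ⟨fun j => q j * X i + if j = i then C (eval v f) else 0, ?_, fun j => ?_⟩
    · have : ∑ j, q j * X i * (X j - C (v j)) = (∑ j, q j * (X j - C (v j))) * X i := by
        rw [Finset.sum_mul]
        exact Finset.sum_congr rfl fun j _ => by ring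
      simp only [add_mul, Finset.sum_add_distrib, ite_mul, zero_mul, Finset.sum_ite_eq',
        Finset.mem_univ, if_true, map_mul, eval_X, this]
      linear_combination X i * e
    · rw [Derivation.leibniz, smul_eq_mul, smul_eq_mul, pderiv_X]
      by_cases hj : j = i
      · subst hj
        simp [d, mul_comm, add_comm]
      · simp [d, hj, Ne.symm hj, mul_comm]

theorem loc_of (h : Nch ξ D r d0 φ φ2 δ0 ψ Δ b) (L : Type u) [Field L] [Algebra k L] :
    ∀ v ∈ cone ξ L, v 0 = 1 → aeval v (Δ * δ0) ≠ 0 →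
    ∀ g : P4 L, Form g → eval v g = 0 → ∃ h1 h2 : P4 L, Form h1 ∧ Form h2 ∧ eval v h1 ≠ 0 ∧
      h1 * g - h2 * (X 3 - C (v 3) * X 0) ∈ idl ξ L := by
  intro v hv h0 hn g hg hgv
  obtain ⟨d, hd⟩ := hg
  obtain ⟨n1, n2⟩ := ctan_ne h hv hn
  have em : ∀ f : P4 k, eval v (MvPolynomial.map (algebraMap k L) f) = aeval v f := fun f => by
    rw [eval_map, aeval_def]
  have key : ∀ f ∈ idl ξ k, ∃ q : Fin 4 → P4 L, (∀ j, eval v (q j) = aeval v (pderiv j f)) ∧
      ∑ j, iota ξ L (q j) * iota ξ L (X j - C (v j)) = 0 := by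
    intro f hf
    obtain ⟨q, e, dq⟩ := ctan_taylor v (MvPolynomial.map (algebraMap k L) f)
    refine ⟨q, fun j => by rw [dq, pderiv_map, em], ?_⟩
    have h1 := congrArg (iota ξ L) e
    rw [iota_map, ← iota_k, idl_ker ξ k hf, map_zero, em, idl_ev ξ k L v hv _ hf, map_zero,
      zero_add, map_sum] at h1
    simpa only [map_mul] using h1.symm
  obtain ⟨q, dq, eq1⟩ := key _ h.ch.i1
  obtain ⟨q', dq', eq2⟩ := key _ h.ch.i3
  obtain ⟨s, es, -⟩ := ctan_taylor v g
  have x0 : iota ξ L (X 0) = 1 := by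
    rw [iota, aeval_X, h.h0, map_one]
  have y0 : iota ξ L (X 0 - C (v 0)) = 0 := by
    rw [h0, map_sub, x0, map_one, map_one, sub_self]
  have y3 : iota ξ L (X 3 - C (v 3) * X 0) = iota ξ L (X 3 - C (v 3)) := by
    rw [map_sub, map_sub, map_mul, x0, mul_one]
  have eg := congrArg (iota ξ L) es
  rw [hgv, map_zero, zero_add, map_sum] at eg
  simp only [map_mul] at eg
  rw [Fin.sum_univ_four, y0] at eq1 eq2 eg
  obtain ⟨p1, hp1⟩ : ∃ p1, p1 = q 1 * q' 2 - q 2 * q' 1 := ⟨_, rfl⟩
  obtain ⟨p2, hp2⟩ : ∃ p2, p2 = s 1 * (q 2 * q' 3 - q' 2 * q 3) + s 2 * (q' 1 * q 3 - q 1 * q' 3) +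
    s 3 * (q 1 * q' 2 - q 2 * q' 1) := ⟨_, rfl⟩
  obtain ⟨h1, a1, -, b1⟩ := hom_ex Set.univ trivial p1 (by rw [supported_univ]; trivial)
    (p1.totalDegree + p2.totalDegree + 1) (by omega)
  obtain ⟨h2, a2, -, b2⟩ := hom_ex Set.univ trivial p2 (by rw [supported_univ]; trivial)
    (p1.totalDegree + p2.totalDegree + d) (by omega)
  have z0 : (fun i => PowerSeries.map (algebraMap k L) (ξ i)) 0 = 1 := by
    change PowerSeries.map (algebraMap k L) (ξ 0) = 1
    rw [h.h0, map_one]
  have c1 : iota ξ L h1 = iota ξ L p1 := b1 _ _ z0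
  have c2 : iota ξ L h2 = iota ξ L p2 := b2 _ _ z0
  refine ⟨h1, h2, ⟨_, a1⟩, ⟨_, a2⟩, ?_, (idl_mem ξ L _ ⟨p1.totalDegree + p2.totalDegree + d + 1,
    ?_⟩).2 ?_⟩
  · have := b1 L v h0
    change eval v h1 = eval v p1 at this
    rw [this, hp1, map_sub, map_mul, map_mul, dq, dq, dq', dq', ctan_d1 h, ctan_d2 h, map_zero,
      zero_mul, sub_zero]
    exact mul_ne_zero n1 n2
  · refine IsHomogeneous.sub ?_ (a2.mul ((isHomogeneous_X _ _).sub ((isHomogeneous_X _ _).C_mul _)))
    have := a1.mul hd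
    rwa [add_right_comm] at this
  · rw [map_sub, map_mul, map_mul, c1, c2, y3, eg, hp1, hp2]
    simp only [map_add, map_mul, map_sub (iota ξ L) (_ * _)]
    linear_combination (iota ξ L (s 1) * iota ξ L (q' 2) - iota ξ L (s 2) * iota ξ L (q' 1)) * eq1 +
      (iota ξ L (s 2) * iota ξ L (q 1) - iota ξ L (s 1) * iota ξ L (q 2)) * eq2

end H39c

end PartH39cCTan

section PartH39cCLin

/-! Part C, row Lin: linear changes of coordinates. -/

set_option autoImplicit false

open MvPolynomial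

namespace H39c

universe u

variable {k : Type u} [Field k]

theorem Eqv.trans {P P' P'' : Ideal (P4 k)} (h : Eqv P P') (h' : Eqv P' P'') : Eqv P P'' := by
  obtain ⟨A, hA, e⟩ := h
  obtain ⟨B, hB, e'⟩ := h'
  refine ⟨B.trans A, fun g d hg => hA _ d (hB g d hg), ?_⟩
  rw [e, e', Ideal.map_map]
  rfl

theorem Eqv.tr {P P' : Ideal (P4 k)} (h : Eqv P P') (hT : Tr P) : Tr P' := by
  obtain ⟨A, -, e⟩ := h
  intro u
  obtain ⟨G, hG, hm⟩ := hT (fun i => A (u i))
  refine ⟨G, hG, ?_⟩
  have h1 : aeval (fun i => A (u i)) G = A (aeval u G) :=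
    (comp_aeval_apply (f := u) (A : P4 k →ₐ[k] P4 k) G).symm
  rw [h1, e] at hm
  obtain ⟨x, hx, hxe⟩ := (Ideal.mem_map_iff_of_surjective (A : P4 k →+* P4 k) A.surjective).1 hm
  have : x = aeval u G := A.injective hxe
  exact this ▸ hx

theorem clin_hom {s : Fin 4 → P4 k} (hs : ∀ j, (s j).IsHomogeneous 1) {h : P4 k} {d : ℕ}
    (hh : h.IsHomogeneous d) : (aeval s h).IsHomogeneous d := by
  simpa using hh.aeval s hs

theorem clin_mem (η η' s : Fin 4 → _) (hs : ∀ j, (s j : P4 k).IsHomogeneous 1)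
    (he : ∀ j, (η' j : PowerSeries k) = aeval η (s j)) {h : P4 k} (hh : h ∈ idl η' k) :
    aeval s h ∈ idl η k := by
  have : idl η' k ≤ (idl η k).comap (aeval s : P4 k →ₐ[k] P4 k) := by
    refine Ideal.span_le.2 ?_
    rintro g ⟨⟨d, hd⟩, hg⟩
    refine Ideal.subset_span ⟨⟨d, clin_hom hs hd⟩, ?_⟩
    rw [iota_k] at hg ⊢
    rw [← hg, funext he]
    exact comp_aeval_apply (f := s) (aeval η : P4 k →ₐ[k] PowerSeries k) g
  exact this hh

theorem lin_eqv (η : Fin 4 → PowerSeries k) (s s' : Fin 4 → P4 k)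
    (hs : ∀ j, (s j).IsHomogeneous 1) (hs' : ∀ j, (s' j).IsHomogeneous 1)
    (h1 : ∀ j, aeval s (s' j) = X j) (h2 : ∀ j, aeval s' (s j) = X j) :
    Eqv (idl η k) (idl (fun j => aeval η (s j)) k) ∧
      ∀ h : P4 k, h ∈ idl (fun j => aeval η (s j)) k ↔ aeval s h ∈ idl η k := by
  have c1 : (aeval s : P4 k →ₐ[k] P4 k).comp (aeval s') = AlgHom.id k _ :=
    algHom_ext fun j => by simpa using h1 j
  have c2 : (aeval s' : P4 k →ₐ[k] P4 k).comp (aeval s) = AlgHom.id k _ :=
    algHom_ext fun j => by simpa using h2 j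
  have d1 : ∀ h : P4 k, aeval s (aeval s' h) = h := fun h => DFunLike.congr_fun c1 h
  have d2 : ∀ h : P4 k, aeval s' (aeval s h) = h := fun h => DFunLike.congr_fun c2 h
  have back : ∀ h : P4 k, h ∈ idl η k → aeval s' h ∈ idl (fun j => aeval η (s j)) k := by
    intro h hh
    refine clin_mem _ η s' hs' (fun j => ?_) hh
    have := comp_aeval_apply (f := s) (aeval η : P4 k →ₐ[k] PowerSeries k) (s' j)
    rw [← this, h1, aeval_X]
  have key : ∀ h : P4 k, h ∈ idl (fun j => aeval η (s j)) k ↔ aeval s h ∈ idl η k := by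
    intro h
    refine ⟨clin_mem η _ s hs fun _ => rfl, fun hh => ?_⟩
    have := back _ hh
    rwa [d2] at this
  refine ⟨⟨AlgEquiv.ofAlgHom (aeval s) (aeval s') c1 c2, fun h d hh => clin_hom hs hh, ?_⟩, key⟩
  apply le_antisymm
  · intro h hh
    have := Ideal.mem_map_of_mem
      (AlgEquiv.ofAlgHom (aeval s) (aeval s') c1 c2 : P4 k →+* P4 k) (back h hh)
    have e : (AlgEquiv.ofAlgHom (aeval s) (aeval s') c1 c2 : P4 k →+* P4 k) (aeval s' h) = h :=
      d1 h
    rwa [e] at this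
  · rw [Ideal.map_le_iff_le_comap]
    intro h hh
    exact (key h).1 hh

/-- the shear `x_j ↦ x_j + c_j x_i` -/
theorem shear_eqv (η : Fin 4 → PowerSeries k) (i : Fin 4) (c : Fin 4 → k) (hc : c i = 0) :
    Eqv (idl η k) (idl (fun j => η j + PowerSeries.C (c j) * η i) k) ∧
      ∀ h : P4 k, (h ∈ idl (fun j => η j + PowerSeries.C (c j) * η i) k ↔
          aeval (fun j => (X j + C (c j) * X i : P4 k)) h ∈ idl η k) ∧
        (h ∈ idl η k ↔ aeval (fun j => (X j - C (c j) * X i : P4 k)) h ∈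
          idl (fun j => η j + PowerSeries.C (c j) * η i) k) := by
  have hs : ∀ j, (X j + C (c j) * X i : P4 k).IsHomogeneous 1 := fun j =>
    (isHomogeneous_X k j).add ((isHomogeneous_X k i).C_mul _)
  have hs' : ∀ j, (X j - C (c j) * X i : P4 k).IsHomogeneous 1 := fun j =>
    (isHomogeneous_X k j).sub ((isHomogeneous_X k i).C_mul _)
  have h1 : ∀ j, aeval (fun j => (X j + C (c j) * X i : P4 k)) (X j - C (c j) * X i : P4 k) =
      X j := fun j => by simp [hc]
  have h2 : ∀ j, aeval (fun j => (X j - C (c j) * X i : P4 k)) (X j + C (c j) * X i : P4 k) =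
      X j := fun j => by simp [hc]
  have he : (fun j => aeval η (X j + C (c j) * X i : P4 k)) =
      fun j => η j + PowerSeries.C (c j) * η i := by
    funext j
    simp
  obtain ⟨e, key⟩ := lin_eqv η _ _ hs hs' h1 h2
  rw [he] at e key
  refine ⟨e, fun h => ⟨key h, ?_⟩⟩
  rw [key]
  have c1 : (aeval (fun j => (X j + C (c j) * X i : P4 k)) : P4 k →ₐ[k] P4 k).comp
      (aeval (fun j => (X j - C (c j) * X i : P4 k))) = AlgHom.id k _ :=
    algHom_ext fun j => by simpa using h1 j
  have d1 : aeval (fun j => (X j + C (c j) * X i : P4 k))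
      (aeval (fun j => (X j - C (c j) * X i : P4 k)) h) = h := DFunLike.congr_fun c1 h
  rw [d1]

end H39c

end PartH39cCLin

section PartH48CSmpt

set_option autoImplicit false

namespace H48C

open Polynomial IntermediateField

universe u

/-- Krull dimension of a finitely generated domain is its transcendence degree. -/
theorem trdeg_of_krull {k A : Type u} [Field k] [CommRing A] [IsDomain A] [Algebra k A]
    [Algebra.FiniteType k A] {n : ℕ} (h : ringKrullDim A = n) : Algebra.trdeg k A = n := by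
  obtain ⟨s, g, ginj, gint⟩ := exists_integral_inj_algHom_of_fg k A
  let _ : Algebra (MvPolynomial (Fin s) k) A := g.toRingHom.toAlgebra
  have : Algebra.IsIntegral (MvPolynomial (Fin s) k) A := ⟨gint⟩
  have : IsScalarTower k (MvPolynomial (Fin s) k) A :=
    IsScalarTower.of_algebraMap_eq fun x => (g.commutes x).symm
  have : FaithfulSMul (MvPolynomial (Fin s) k) A :=
    (faithfulSMul_iff_algebraMap_injective _ _).mpr ginj
  have htA : Algebra.trdeg k A = s := by
    rw [← trdeg_add_eq k (MvPolynomial (Fin s) k),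
      trdeg_eq_zero (R := MvPolynomial (Fin s) k), add_zero, MvPolynomial.trdeg_of_isDomain]
    simp
  have hp : ringKrullDim (MvPolynomial (Fin s) k) = s := by
    rw [MvPolynomial.ringKrullDim_of_isNoetherianRing, ringKrullDim_eq_zero_of_field, zero_add]
    simp
  have h1 : ringKrullDim A ≤ ringKrullDim (MvPolynomial (Fin s) k) := by
    refine Order.krullDim_le_of_strictMono
      (PrimeSpectrum.comap (algebraMap (MvPolynomial (Fin s) k) A)) fun P Q hPQ => ?_
    exact Ideal.IsIntegral.comap_lt_comap (R := MvPolynomial (Fin s) k) (I := P.asIdeal)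
      (J := Q.asIdeal) hPQ
  have h2 : ringKrullDim (MvPolynomial (Fin s) k) ≤ ringKrullDim A := by
    refine iSup_le fun l => ?_
    obtain ⟨Q, hQ, hQo⟩ := Ideal.exists_ideal_over_prime_of_isIntegral_of_isDomain
      (S := A) (RelSeries.head l).asIdeal (by
        intro z hz
        have : z = 0 := ginj (by rw [map_zero]; exact hz)
        rw [this]
        exact zero_mem _)
    have : Q.LiesOver (RelSeries.head l).asIdeal := ⟨hQo.symm⟩
    obtain ⟨L, hL, -⟩ := Ideal.exists_ltSeries_of_hasGoingUp l Q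
    rw [← hL]
    exact Order.LTSeries.length_le_krullDim L
  have h3 : (n : WithBot ℕ∞) = s := by rw [← h, ← hp]; exact le_antisymm h1 h2
  have h4 : n = s := by exact_mod_cast h3
  rw [htA, h4]

/-- A separating element among the generators of a function field of one variable. -/
theorem sep_gen {k L : Type u} [Field k] [PerfectField k] (p : ℕ) [hp : Fact p.Prime] [CharP k p]
    [Field L] [Algebra k L] (S : Set L) (hS : S.Finite) (hgen : adjoin k S = ⊤)
    (htr : Algebra.trdeg k L = 1) :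
    ∃ t ∈ S, Transcendental k t ∧ Algebra.IsSeparable k⟮t⟯ L ∧ FiniteDimensional k⟮t⟯ L := by
  classical
  have : ExpChar k p := .prime hp.out
  have : CharP L p := .of_ringHom_of_ne_zero (algebraMap k L) p hp.out.ne_zero
  have H : ∀ s : Finset L,
      LinearIndepOn k _root_.id (s : Set L) → LinearIndepOn k (· ^ p) (s : Set L) := by
    intro s hs
    apply hs.map_of_injective_injective (frobeniusEquiv k p).symm (frobenius L p).toAddMonoidHom
    · simp
    · simp [frobenius_def]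
    · intro r m
      change ((frobeniusEquiv k p).symm r • m) ^ p = r • m ^ p
      rw [_root_.smul_pow, frobeniusEquiv_symm_pow_p]
  have halg : Algebra.IsAlgebraic (Algebra.adjoin k S) L := by
    rw [← isAlgebraic_adjoin_iff_top, hgen, Algebra.isAlgebraic_iff_isIntegral]
    exact Algebra.isIntegral_of_surjective topEquiv.surjective
  have hne : {t : Set L | t ⊆ S ∧ IsTranscendenceBasis k ((↑) : t → L)}.Nonempty :=
    exists_isTranscendenceBasis_subset (R := k) S
  have hfin : {t : Set L | t ⊆ S ∧ IsTranscendenceBasis k ((↑) : t → L)}.Finite :=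
    hS.finite_subsets.subset fun t ht => ht.1
  obtain ⟨s, ⟨hsS, hs⟩, Hs⟩ := hfin.exists_maximalFor
    (fun t : Set L => (separableClosure (adjoin k t) L).restrictScalars k) _ hne
  have hsep : ∀ n ∈ S, IsSeparable (adjoin k s) n := by
    intro n hnS
    by_contra hn
    have hns : n ∉ s := fun h => hn (le_restrictScalars_separableClosure _ (subset_adjoin _ _ h))
    have ⟨i, hi₁, hi₂⟩ := exists_isTranscendenceBasis_and_isSeparable_of_linearIndepOn_pow'
      p hp.out (a := id) H s n hs hns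
    rw [Set.image_id] at hi₂
    have hsub : insert n s \ {i} ⊆ S := fun x hx => by
      rcases hx.1 with rfl | h
      exacts [hnS, hsS h]
    refine not_lt_iff_le_imp_ge.mpr (Hs ⟨hsub, hi₁⟩)
      (SetLike.lt_iff_le_and_exists.mpr ⟨?_, n, ?_, hn⟩)
    · rw [separableClosure_le_separableClosure_iff, adjoin_le_iff]
      intro x hx
      obtain rfl | ne := eq_or_ne x i
      exacts [hi₂, le_restrictScalars_separableClosure _ (subset_adjoin _ _ ⟨.inr hx, ne⟩)]
    · obtain rfl | ne := eq_or_ne n i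
      exacts [hi₂, le_restrictScalars_separableClosure _ (subset_adjoin _ _ ⟨.inl rfl, ne⟩)]
  have hcard : Cardinal.mk s = 1 := by rw [hs.cardinalMk_eq_trdeg, htr]
  obtain ⟨t, rfl⟩ : ∃ t, s = {t} := by
    have := Cardinal.eq_one_iff_unique.1 hcard
    obtain ⟨h1, ⟨t, ht⟩⟩ := this
    refine ⟨t, Set.eq_singleton_iff_unique_mem.2 ⟨ht, fun x hx => ?_⟩⟩
    exact congrArg Subtype.val (Subsingleton.elim (⟨x, hx⟩ : s) ⟨t, ht⟩)
  have htop : adjoin k⟮t⟯ S = ⊤ := by
    have hle : adjoin k S ≤ (adjoin k⟮t⟯ S).restrictScalars k :=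
      adjoin_le_iff.2 fun x hx => subset_adjoin k⟮t⟯ S hx
    refine eq_top_iff.2 fun x _ => hle ?_
    rw [hgen]; trivial
  refine ⟨t, hsS rfl, hs.1.transcendental ⟨t, rfl⟩, ?_, ?_⟩
  · rw [← separableClosure.eq_top_iff, eq_top_iff, ← htop, adjoin_le_iff]
    exact fun x hx => hsep x hx
  · have : Finite S := hS
    have h1 : FiniteDimensional k⟮t⟯ (adjoin k⟮t⟯ S) :=
      finiteDimensional_adjoin fun x hx => (hsep x hx).isIntegral
    rw [htop] at h1
    exact topEquiv.toLinearEquiv.finiteDimensional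

theorem aeval_shift {k : Type u} [Field k] (a : k) (f : k[X]) :
    aeval (PowerSeries.C a + PowerSeries.X : PowerSeries k) f
      = ((taylor a f : k[X]) : PowerSeries k) := by
  induction f using Polynomial.induction_on' with
  | add f g hf hg => rw [map_add, map_add, Polynomial.coe_add, hf, hg]
  | monomial n c =>
    rw [taylor_monomial, aeval_monomial, Polynomial.coe_mul, Polynomial.coe_pow, Polynomial.coe_add,
      Polynomial.coe_X, Polynomial.coe_C, Polynomial.coe_C, add_comm]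
    rfl

theorem const_shift {k : Type u} [Field k] (a : k) (f : k[X]) :
    PowerSeries.constantCoeff (aeval (PowerSeries.C a + PowerSeries.X : PowerSeries k) f)
      = f.eval a := by
  rw [aeval_shift, ← PowerSeries.coeff_zero_eq_constantCoeff_apply, Polynomial.coeff_coe,
    taylor_coeff_zero]

theorem shift_ne {k : Type u} [Field k] (a : k) {f : k[X]} (hf : f ≠ 0) :
    aeval (PowerSeries.C a + PowerSeries.X : PowerSeries k) f ≠ 0 := by
  rw [aeval_shift]
  intro h
  apply hf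
  apply taylor_injective a
  rw [map_zero]
  exact Polynomial.coe_eq_zero_iff.1 h

/-- A finite separable extension of `k(T)` embeds in `k((X))` with `T ↦ a + X` and finitely many
given elements sent to power series. -/
theorem branch_aux {k F L ι : Type u} [Field k] [IsAlgClosed k] [Field F] [Field L] [Finite ι]
    [Algebra k[X] F] [IsFractionRing k[X] F] [Algebra F L] [Algebra k[X] L]
    [IsScalarTower k[X] F L] [FiniteDimensional F L] [Algebra.IsSeparable F L] (η : ι → L) :
    ∃ (a : k) (φ : L →+* FractionRing (PowerSeries k)) (ξ : ι → PowerSeries k),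
      (∀ f : k[X], φ (algebraMap k[X] L f) = algebraMap (PowerSeries k) _
        (aeval (PowerSeries.C a + PowerSeries.X : PowerSeries k) f)) ∧
      ∀ i, φ (η i) = algebraMap (PowerSeries k) _ (ξ i) := by
  classical
  have := Fintype.ofFinite ι
  have hinjL : Function.Injective (algebraMap k[X] L) := by
    rw [IsScalarTower.algebraMap_eq k[X] F L]
    exact (algebraMap F L).injective.comp (IsFractionRing.injective k[X] F)
  obtain ⟨θ0, hθ0⟩ := Field.exists_primitive_element F L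
  have halg0 : IsAlgebraic k[X] θ0 :=
    (IsFractionRing.isAlgebraic_iff k[X] F L).2 (Algebra.IsAlgebraic.isAlgebraic θ0)
  obtain ⟨c0, hc0, hint⟩ := halg0.exists_integral_multiple
  set θ : L := c0 • θ0 with hθdef
  have hθ : F⟮θ⟯ = ⊤ := by
    rw [eq_top_iff, ← hθ0, adjoin_simple_le_iff]
    have h1 : θ0 = (algebraMap F L (algebraMap k[X] F c0))⁻¹ * θ := by
      rw [hθdef, Algebra.smul_def, ← IsScalarTower.algebraMap_apply, ← mul_assoc, inv_mul_cancel₀,
        one_mul]
      exact fun h => hc0 (hinjL (by rw [h, map_zero]))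
    rw [h1]
    exact mul_mem (inv_mem (IntermediateField.algebraMap_mem _ _)) (mem_adjoin_simple_self F θ)
  have hintF : IsIntegral F θ := Algebra.IsIntegral.isIntegral θ
  have : FaithfulSMul k[X] L := (faithfulSMul_iff_algebraMap_injective _ _).2 hinjL
  set g : k[X][X] := minpoly k[X] θ with hg
  have hgm : g.Monic := minpoly.monic hint
  have hgF : minpoly F θ = g.map (algebraMap k[X] F) :=
    minpoly.isIntegrallyClosed_eq_field_fractions' F hint
  have hden : ∀ z : L, ∃ c : k[X], c ≠ 0 ∧ ∃ q : k[X][X], algebraMap k[X] L c * z = aeval θ q := by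
    intro z
    have hz : z ∈ (F⟮θ⟯).toSubalgebra := by rw [hθ]; trivial
    rw [adjoin_simple_toSubalgebra_of_isAlgebraic hintF.isAlgebraic,
      Algebra.adjoin_singleton_eq_range_aeval] at hz
    obtain ⟨q, hq⟩ := hz
    obtain ⟨b, hb, hq'⟩ := IsLocalization.integerNormalization_spec (nonZeroDivisors k[X]) q
    refine ⟨b, nonZeroDivisors.ne_zero hb, IsLocalization.integerNormalization
      (nonZeroDivisors k[X]) q, ?_⟩
    rw [← aeval_map_algebraMap F, hq', ← hq, Algebra.smul_def, map_mul]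
    congr 1
    rw [Polynomial.algebraMap_apply, aeval_C, ← IsScalarTower.algebraMap_apply]
  have hder : aeval θ (derivative g) ≠ 0 := by
    have hs : (minpoly F θ).Separable := Algebra.IsSeparable.isSeparable F θ
    have := hs.aeval_derivative_ne_zero (minpoly.aeval F θ)
    rwa [hgF, derivative_map, aeval_map_algebraMap] at this
  obtain ⟨cu, hcu, qu, hqu⟩ := hden (aeval θ (derivative g))⁻¹
  choose c hc q hq using fun i => hden (η i)
  have hdvd : g ∣ C cu - qu * derivative g := by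
    refine minpoly.isIntegrallyClosed_dvd hint ?_
    rw [map_sub, map_mul, aeval_C, ← hqu, mul_assoc, inv_mul_cancel₀ hder, mul_one, sub_self]
  have hP : cu * ∏ i, c i ≠ 0 := mul_ne_zero hcu (Finset.prod_ne_zero_iff.2 fun i _ => hc i)
  obtain ⟨a, ha⟩ := Infinite.exists_notMem_finset (cu * ∏ i, c i).roots.toFinset
  have ha' : (cu * ∏ i, c i).eval a ≠ 0 := fun h =>
    ha (Multiset.mem_toFinset.2 ((mem_roots hP).2 h))
  rw [eval_mul, eval_prod] at ha'
  have hau : cu.eval a ≠ 0 := left_ne_zero_of_mul ha'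
  have hai : ∀ i, (c i).eval a ≠ 0 := fun i =>
    Finset.prod_ne_zero_iff.1 (right_ne_zero_of_mul ha') i (Finset.mem_univ i)
  let σ : k[X] →+* PowerSeries k :=
    (aeval (PowerSeries.C a + PowerSeries.X : PowerSeries k)).toRingHom
  have hσ : ∀ f, σ f = aeval (PowerSeries.C a + PowerSeries.X : PowerSeries k) f := fun _ => rfl
  have hcomp : (PowerSeries.constantCoeff (R := k)).comp σ = evalRingHom a :=
    RingHom.ext fun f => const_shift a f
  have hdeg : (g.map (evalRingHom a)).degree ≠ 0 := by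
    rw [hgm.degree_map]
    exact (minpoly.degree_pos hint).ne'
  obtain ⟨r, hr⟩ := IsAlgClosed.exists_root _ hdeg
  have hev : ∀ w : k[X][X], PowerSeries.constantCoeff ((w.map σ).eval (PowerSeries.C r))
      = (w.map (evalRingHom a)).eval r := by
    intro w
    rw [eval_map, hom_eval₂, hcomp, PowerSeries.constantCoeff_C, eval_map]
  have hder0 : ((derivative g).map (evalRingHom a)).eval r ≠ 0 := by
    obtain ⟨w, hw⟩ := hdvd
    have h1 := congrArg (fun v : k[X][X] => (v.map (evalRingHom a)).eval r) hw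
    simp only [Polynomial.map_sub, Polynomial.map_mul, Polynomial.map_C, eval_sub, eval_mul,
      eval_C, coe_evalRingHom] at h1
    intro h0
    rw [h0, mul_zero, sub_zero, hr.eq_zero, zero_mul] at h1
    exact hau h1
  obtain ⟨y, hy, -⟩ := HenselianRing.is_henselian (I := Ideal.span {(PowerSeries.X : PowerSeries k)})
    (g.map σ) (hgm.map σ) (PowerSeries.C r)
    (by
      rw [Ideal.mem_span_singleton, PowerSeries.X_dvd_iff, hev]
      exact hr.eq_zero)
    (by
      refine IsUnit.map _ ?_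
      rw [PowerSeries.isUnit_iff_constantCoeff, derivative_map, hev]
      exact hder0.isUnit)
  let Ω := FractionRing (PowerSeries k)
  let τ : k[X] →+* Ω := (algebraMap (PowerSeries k) Ω).comp σ
  have hτ : Function.Injective τ := by
    rw [injective_iff_map_eq_zero]
    intro f hf
    by_contra h0
    exact shift_ne a h0 (IsFractionRing.injective (PowerSeries k) Ω (by rw [map_zero]; exact hf))
  let _ : Algebra F Ω := (IsFractionRing.lift (K := F) hτ).toAlgebra
  have hF : ∀ f : k[X], algebraMap F Ω (algebraMap k[X] F f) = τ f := fun f =>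
    IsFractionRing.lift_algebraMap hτ f
  have hFc : (algebraMap F Ω).comp (algebraMap k[X] F) = τ := RingHom.ext hF
  have hevΩ : ∀ w : k[X][X], aeval (algebraMap (PowerSeries k) Ω y) (w.map (algebraMap k[X] F))
      = algebraMap (PowerSeries k) Ω ((w.map σ).eval y) := by
    intro w
    rw [aeval_def, eval₂_map, hFc, eval_map, hom_eval₂]
  let e : F⟮θ⟯ ≃ₐ[F] L := (equivOfEq hθ).trans topEquiv
  let pb : PowerBasis F L := (adjoin.powerBasis hintF).map e
  have hgen : pb.gen = θ := rfl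
  let φ : L →ₐ[F] Ω := pb.lift (algebraMap (PowerSeries k) Ω y) (by
    rw [hgen, hgF, hevΩ, hy.eq_zero, map_zero])
  have hφθ : φ θ = algebraMap (PowerSeries k) Ω y := by
    rw [← hgen]; exact pb.lift_gen _ _
  have hφf : ∀ f : k[X], φ (algebraMap k[X] L f) = algebraMap (PowerSeries k) Ω (σ f) := by
    intro f
    rw [IsScalarTower.algebraMap_apply k[X] F L, AlgHom.commutes, hF]
    rfl
  have hunit : ∀ i, IsUnit (σ (c i)) := fun i => by
    rw [PowerSeries.isUnit_iff_constantCoeff, hσ, const_shift]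
    exact (hai i).isUnit
  choose v hv using fun i => (hunit i).exists_left_inv
  refine ⟨a, φ.toRingHom, fun i => v i * ((q i).map σ).eval y, hφf, fun i => ?_⟩
  have h1 := congrArg φ (hq i)
  rw [map_mul, hφf, ← aeval_map_algebraMap F, ← aeval_algHom_apply, hφθ, hevΩ] at h1
  change φ (η i) = _
  rw [map_mul, ← h1, ← mul_assoc, ← map_mul, hv, map_one, one_mul]

/-- A function field of one variable with generators `η` has a branch on which one of the
generators is `a + X`. -/
theorem branch_field {k L : Type u} [Field k] [IsAlgClosed k] (p : ℕ) [Fact p.Prime] [CharP k p]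
    [Field L] [Algebra k L] {n : ℕ} (η' : Fin n → L) (hgen : adjoin k (Set.range η') = ⊤)
    (hL : Algebra.trdeg k L = 1) :
    ∃ (j : Fin n) (a : k) (ξ : Fin n → PowerSeries k) (φ : L →+* FractionRing (PowerSeries k)),
      Transcendental k (η' j) ∧ ξ j = PowerSeries.C a + PowerSeries.X ∧
      ∀ G : MvPolynomial (Fin n) k, algebraMap (PowerSeries k) (FractionRing (PowerSeries k))
        (MvPolynomial.aeval ξ G) = φ (MvPolynomial.aeval η' G) := by
  obtain ⟨t, ⟨j, rfl⟩, htr, hsep, hfd⟩ := sep_gen p (Set.range η') (Set.finite_range _) hgen hL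
  let t0 : k⟮η' j⟯ := AdjoinSimple.gen k (η' j)
  let _ : Algebra k[X] k⟮η' j⟯ := (aeval t0).toRingHom.toAlgebra
  let _ : Algebra k[X] L := (aeval (η' j)).toRingHom.toAlgebra
  have hF : ∀ f : k[X], algebraMap k[X] k⟮η' j⟯ f = aeval t0 f := fun _ => rfl
  have hLm : ∀ f : k[X], algebraMap k[X] L f = aeval (η' j) f := fun _ => rfl
  have hcoe : ∀ f : k[X], algebraMap k⟮η' j⟯ L (aeval t0 f) = aeval (η' j) f := fun f =>
    (aeval_algebraMap_apply L t0 f).symm
  have : IsScalarTower k[X] k⟮η' j⟯ L := IsScalarTower.of_algebraMap_eq fun f => by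
    rw [hF, hLm, hcoe]
  have : FaithfulSMul k[X] k⟮η' j⟯ := (faithfulSMul_iff_algebraMap_injective _ _).2 (by
    intro f g hfg
    apply transcendental_iff_injective.1 htr
    rw [← hcoe, ← hcoe, ← hF, ← hF, hfg])
  have : IsFractionRing k[X] k⟮η' j⟯ := IsFractionRing.of_field _ _ fun z => by
    obtain ⟨r, w, h⟩ := (mem_adjoin_simple_iff k z.1).1 z.2
    refine ⟨r, w, (algebraMap k⟮η' j⟯ L).injective ?_⟩
    rw [map_div₀, hF, hF, hcoe, hcoe]
    exact h
  obtain ⟨a, φ, ξ, hφ, hξ⟩ := branch_aux (k := k) (F := k⟮η' j⟯) (L := L)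
    (fun i : ULift.{u} (Fin n) => η' i.down)
  have hinjΩ := IsFractionRing.injective (PowerSeries k) (FractionRing (PowerSeries k))
  refine ⟨j, a, fun i => ξ ⟨i⟩, φ, htr, hinjΩ ?_, fun G => ?_⟩
  · have h1 := hφ X
    rw [hLm, aeval_X, aeval_X] at h1
    rw [← hξ ⟨j⟩, ← h1]
  · induction G using MvPolynomial.induction_on with
    | C c =>
      have h1 := hφ (C c)
      rw [hLm, aeval_C, aeval_C] at h1
      rw [MvPolynomial.aeval_C, MvPolynomial.aeval_C, h1]
    | add f g hf hg => rw [map_add, map_add, map_add, map_add, hf, hg]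
    | mul_X f i hf =>
      rw [map_mul, map_mul, map_mul, map_mul, hf, MvPolynomial.aeval_X, MvPolynomial.aeval_X,
        hξ ⟨i⟩]

theorem branch_frac {k R K : Type u} [Field k] [IsAlgClosed k] (p : ℕ) [Fact p.Prime] [CharP k p]
    [CommRing R] [IsDomain R] [Algebra k R] [Field K] [Algebra k K] [Algebra R K]
    [IsScalarTower k R K] [IsFractionRing R K] {n : ℕ}
    (P : Ideal (MvPolynomial (Fin n) k)) (s : Set (MvPolynomial (Fin n) k))
    (mk : MvPolynomial (Fin n) k →ₐ[k] R) (hmk : Function.Surjective mk)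
    (hker : ∀ f, mk f = 0 ↔ f ∈ P) (hR : Algebra.trdeg k R = (2 : ℕ))
    (hs : ∀ f ∈ s, ∃ d : ℕ, f.IsHomogeneous d) (hsP : Ideal.span s = P) :
    ∃ (i j : Fin n) (a : k) (ξ : Fin n → PowerSeries k), i ≠ j ∧ ξ i = 1 ∧
      ξ j = PowerSeries.C a + PowerSeries.X ∧ (∀ f ∈ P, MvPolynomial.aeval ξ f = 0) ∧
      ∀ (G : MvPolynomial (Fin n) k) (d : ℕ), G.IsHomogeneous d → G ∉ P →
        MvPolynomial.aeval ξ G ≠ 0 := by
  classical
  have halg : Algebra.IsAlgebraic R K := IsLocalization.isAlgebraic K (nonZeroDivisors R)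
  have : FaithfulSMul k R := (faithfulSMul_iff_algebraMap_injective _ _).2 (algebraMap k R).injective
  have hK : Algebra.trdeg k K = (2 : ℕ) := by
    rw [← trdeg_add_eq k R, trdeg_eq_zero (R := R), add_zero, hR]
  let π : MvPolynomial (Fin n) k →ₐ[k] K := (IsScalarTower.toAlgHom k R K).comp mk
  have hπ : ∀ f, π f = 0 ↔ f ∈ P := fun f => by
    rw [← hker]
    exact map_eq_zero_iff (algebraMap R K) (IsFractionRing.injective R K)
  let x : Fin n → K := fun i => π (MvPolynomial.X i)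
  have hπx : ∀ f, MvPolynomial.aeval x f = π f := fun f =>
    (DFunLike.congr_fun (MvPolynomial.aeval_unique π) f).symm
  have hfrac : ∀ z : K, ∃ f g : MvPolynomial (Fin n) k, z = π f / π g := by
    intro z
    obtain ⟨u, v, -, rfl⟩ := IsFractionRing.div_surjective (A := R) z
    obtain ⟨f, rfl⟩ := hmk u
    obtain ⟨g, rfl⟩ := hmk v
    exact ⟨f, g, rfl⟩
  have hsub : ∀ (E : Type u) [Field E] [Algebra k E] [Algebra E K] [IsScalarTower k E K]
      (M : IntermediateField E K), (∀ i, x i ∈ M) → M = ⊤ := by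
    intro E _ _ _ _ M hM
    have h1 : ∀ f, π f ∈ M := by
      intro f
      induction f using MvPolynomial.induction_on with
      | C c =>
        rw [← MvPolynomial.algebraMap_eq, AlgHom.commutes, IsScalarTower.algebraMap_apply k E K]
        exact M.algebraMap_mem _
      | add f g hf hg => rw [map_add]; exact add_mem hf hg
      | mul_X f i hf => rw [map_mul]; exact mul_mem hf (hM i)
    refine eq_top_iff.2 fun z _ => ?_
    obtain ⟨f, g, rfl⟩ := hfrac z
    exact div_mem (h1 f) (h1 g)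
  obtain ⟨i0, hi0⟩ : ∃ i, x i ≠ 0 := by
    by_contra hcon
    push Not at hcon
    have h1 : (⊥ : IntermediateField k K) = ⊤ :=
      hsub k ⊥ fun i => by rw [hcon i]; exact zero_mem _
    have h2 : Algebra.IsAlgebraic k K := ⟨fun z => by
      have hz : z ∈ (⊥ : IntermediateField k K) := by rw [h1]; trivial
      obtain ⟨c, rfl⟩ := IntermediateField.mem_bot.1 hz
      exact isAlgebraic_algebraMap c⟩
    rw [trdeg_eq_zero] at hK
    exact absurd hK (by norm_num)
  have hscale : ∀ (c : K) (y : Fin n → K) (G : MvPolynomial (Fin n) k) (d : ℕ),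
      G.IsHomogeneous d →
      MvPolynomial.aeval (fun i => c * y i) G = c ^ d * MvPolynomial.aeval y G := by
    intro c y G d hG
    rw [MvPolynomial.aeval_def, MvPolynomial.aeval_def, MvPolynomial.eval₂_eq,
      MvPolynomial.eval₂_eq, Finset.mul_sum]
    refine Finset.sum_congr rfl fun m hm => ?_
    have hd : ∑ i ∈ m.support, m i = d := by
      have := hG (MvPolynomial.mem_support_iff.1 hm)
      simpa [Finsupp.weight_apply, Finsupp.sum] using this
    simp only [mul_pow]
    rw [Finset.prod_mul_distrib, Finset.prod_pow_eq_pow_sum, hd]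
    ring
  have hkill : ∀ (c : K) (f : MvPolynomial (Fin n) k), f ∈ P →
      MvPolynomial.aeval (fun i => c * x i) f = 0 := by
    intro c f hf
    rw [← hsP] at hf
    have hle : Ideal.span s ≤ RingHom.ker (MvPolynomial.aeval (fun i => c * x i) :
        MvPolynomial (Fin n) k →ₐ[k] K) := by
      refine Ideal.span_le.2 fun g hg => ?_
      obtain ⟨d, hd⟩ := hs g hg
      have hgP : g ∈ P := hsP ▸ Ideal.subset_span hg
      change MvPolynomial.aeval (fun i => c * x i) g = 0
      rw [hscale c x g d hd, hπx, (hπ g).2 hgP, mul_zero]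
    exact hle hf
  let η : Fin n → K := fun i => (x i0)⁻¹ * x i
  let L : IntermediateField k K := adjoin k (Set.range η)
  have htrans : Transcendental L (x i0) := by
    rintro ⟨q, hq0, hq⟩
    have hroot : ∀ c : k, c ≠ 0 → aeval (algebraMap k K c * x i0) q = 0 := by
      intro c hc
      have hcK : algebraMap k K c ≠ 0 := (_root_.map_ne_zero _).2 hc
      let ψ0 : R →ₐ[k] K := AlgHom.liftOfSurjective mk hmk
        (MvPolynomial.aeval (fun i => algebraMap k K c * x i))
        (fun f hf => hkill _ f ((hker f).1 hf))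
      have hψ0 : ∀ f, ψ0 (mk f)
          = MvPolynomial.aeval (fun i => algebraMap k K c * x i) f := fun f =>
        AlgHom.liftOfSurjective_apply mk hmk _ _ f
      have hinj : Function.Injective ψ0 := by
        rw [injective_iff_map_eq_zero]
        intro u hu
        obtain ⟨f, rfl⟩ := hmk u
        rw [hker]
        let sc : k → MvPolynomial (Fin n) k →ₐ[k] MvPolynomial (Fin n) k := fun e =>
          MvPolynomial.aeval fun i => MvPolynomial.C e * MvPolynomial.X i
        have h1 : ∀ (e : k) (g : MvPolynomial (Fin n) k), π (sc e g)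
            = MvPolynomial.aeval (fun i => algebraMap k K e * x i) g := by
          intro e g
          have : π.comp (sc e) = MvPolynomial.aeval (fun i => algebraMap k K e * x i) := by
            ext i
            simp only [sc, AlgHom.comp_apply, MvPolynomial.aeval_X, map_mul]
            rw [← MvPolynomial.algebraMap_eq, AlgHom.commutes]
          exact DFunLike.congr_fun this g
        have h2 : sc c f ∈ P := (hπ _).1 (by rw [h1, ← hψ0, hu])
        have h3 : sc c⁻¹ (sc c f) ∈ P := (hπ _).1 (by rw [h1]; exact hkill _ _ h2)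
        have h4 : (sc c⁻¹).comp (sc c) = AlgHom.id k _ := by
          ext1 i
          simp only [sc, AlgHom.comp_apply, MvPolynomial.aeval_X, map_mul, MvPolynomial.aeval_C,
            MvPolynomial.algebraMap_eq, AlgHom.id_apply]
          rw [← mul_assoc, ← map_mul, mul_inv_cancel₀ hc, map_one, one_mul]
        have h5 : sc c⁻¹ (sc c f) = f := DFunLike.congr_fun h4 f
        rwa [h5] at h3
      let ψ : K →ₐ[k] K := IsFractionRing.liftAlgHom (g := ψ0) hinj
      have hψ : ∀ i, ψ (x i) = algebraMap k K c * x i := by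
        intro i
        have h1 : ψ (algebraMap R K (mk (MvPolynomial.X i)))
            = ψ0 (mk (MvPolynomial.X i)) :=
          IsFractionRing.lift_algebraMap (g := ψ0.toRingHom) hinj _
        rw [hψ0, MvPolynomial.aeval_X] at h1
        exact h1
      have hfix : ∀ z ∈ L, ψ z = z := by
        intro z hz
        induction hz using IntermediateField.adjoin_induction with
        | mem y hy =>
          obtain ⟨i, rfl⟩ := hy
          simp only [η, map_mul, map_inv₀, hψ]
          rw [mul_inv, mul_mul_mul_comm, inv_mul_cancel₀ hcK, one_mul]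
        | algebraMap y => exact ψ.commutes y
        | add y z _ _ hy hz => rw [map_add, hy, hz]
        | inv y _ hy => rw [map_inv₀, hy]
        | mul y z _ _ hy hz => rw [map_mul, hy, hz]
      let ψL : K →ₐ[L] K := { ψ.toRingHom with commutes' := fun z => hfix z z.2 }
      have h6 : ψL (x i0) = algebraMap k K c * x i0 := hψ i0
      rw [← h6, aeval_algHom_apply, hq, map_zero]
    have hq1 : q.map (algebraMap L K) ≠ 0 := (Polynomial.map_ne_zero_iff (algebraMap L K).injective).2 hq0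
    apply hq1
    refine Polynomial.eq_zero_of_infinite_isRoot _ ?_
    have hinf : Set.Infinite ((fun c : k => algebraMap k K c * x i0) '' {0}ᶜ) :=
      Set.Infinite.image (fun c _ e _ h => (algebraMap k K).injective (mul_right_cancel₀ hi0 h))
        (Set.finite_singleton (0 : k)).infinite_compl
    refine hinf.mono ?_
    rintro _ ⟨c, hc, rfl⟩
    change eval _ (q.map (algebraMap L K)) = 0
    rw [eval_map_algebraMap]
    exact hroot c hc
  have hLK : Algebra.trdeg L K = 1 := by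
    have htop : L⟮x i0⟯ = ⊤ := by
      refine hsub L _ fun i => ?_
      have h1 : x i = x i0 * η i := (mul_inv_cancel_left₀ hi0 _).symm
      rw [h1]
      exact mul_mem (mem_adjoin_simple_self L (x i0))
        (IntermediateField.algebraMap_mem L⟮x i0⟯ ⟨η i, subset_adjoin _ _ ⟨i, rfl⟩⟩)
    have hb : IsTranscendenceBasis L (fun _ : PUnit.{u + 1} => x i0) := by
      rw [isTranscendenceBasis_iff_algebraicIndependent_isAlgebraic]
      refine ⟨algebraicIndependent_unique_type_iff.2 htrans, ?_⟩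
      rw [← isAlgebraic_adjoin_iff_top, Set.range_const, htop, Algebra.isAlgebraic_iff_isIntegral]
      exact Algebra.isIntegral_of_surjective topEquiv.surjective
    rw [← hb.cardinalMk_eq_trdeg]
    simp
  have hL : Algebra.trdeg k L = 1 := by
    have h1 := trdeg_add_eq k L (A := K)
    rw [hLK, hK] at h1
    have h2 : Algebra.trdeg k L + 1 = 1 + 1 := by rw [h1]; norm_num
    exact Cardinal.add_one_inj.1 h2
  let η' : Fin n → L := fun i => ⟨η i, subset_adjoin _ _ ⟨i, rfl⟩⟩
  have hgen : adjoin k (Set.range η') = ⊤ := by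
    apply IntermediateField.lift_injective L
    rw [IntermediateField.lift_top, IntermediateField.lift_adjoin, ← Set.range_comp]
    rfl
  obtain ⟨j, a, ξ, φ, htr, hξj, hev⟩ := branch_field p η' hgen hL
  have hone : η' i0 = 1 := Subtype.ext (inv_mul_cancel₀ hi0)
  have hij : i0 ≠ j := by
    rintro rfl
    exact htr (by rw [hone]; exact isAlgebraic_one)
  have hinjΩ := IsFractionRing.injective (PowerSeries k) (FractionRing (PowerSeries k))
  have hval : ∀ G : MvPolynomial (Fin n) k,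
      algebraMap L K (MvPolynomial.aeval η' G) = MvPolynomial.aeval η G := fun G =>
    (MvPolynomial.aeval_algebraMap_apply K η' G).symm
  refine ⟨i0, j, a, ξ, hij, hinjΩ ?_, hξj, fun f hf => hinjΩ ?_, fun G d hG hGP h0 => ?_⟩
  · have h1 := hev (MvPolynomial.X i0)
    rw [MvPolynomial.aeval_X, MvPolynomial.aeval_X, hone, map_one] at h1
    rw [h1, map_one]
  · have h1 : MvPolynomial.aeval η' f = 0 := (algebraMap L K).injective (by
      rw [hval, map_zero]; exact hkill _ f hf)
    rw [hev, h1, map_zero, map_zero]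
  · have h1 := hev G
    rw [h0, map_zero, eq_comm, map_eq_zero] at h1
    have h2 := hval G
    rw [h1, map_zero, hscale _ x G d hG, hπx] at h2
    rcases mul_eq_zero.1 h2.symm with h | h
    · exact pow_ne_zero d (inv_ne_zero hi0) h
    · exact hGP ((hπ G).1 h)

/-- BRANCH (row C1). -/
theorem branch {k : Type u} [Field k] [IsAlgClosed k] (p : ℕ) [Fact p.Prime] [CharP k p] {n : ℕ}
    (P : Ideal (MvPolynomial (Fin n) k)) (s : Set (MvPolynomial (Fin n) k)) (hP : P.IsPrime)
    (hdim : ringKrullDim (MvPolynomial (Fin n) k ⧸ P) = 2)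
    (hs : ∀ f ∈ s, ∃ d : ℕ, f.IsHomogeneous d) (hsP : Ideal.span s = P) :
    ∃ (i j : Fin n) (a : k) (ξ : Fin n → PowerSeries k), i ≠ j ∧ ξ i = 1 ∧
      ξ j = PowerSeries.C a + PowerSeries.X ∧ (∀ f ∈ P, MvPolynomial.aeval ξ f = 0) ∧
      ∀ (G : MvPolynomial (Fin n) k) (d : ℕ), G.IsHomogeneous d → G ∉ P →
        MvPolynomial.aeval ξ G ≠ 0 :=
  have : IsDomain (MvPolynomial (Fin n) k ⧸ P) := Ideal.Quotient.isDomain P
  branch_frac (K := FractionRing (MvPolynomial (Fin n) k ⧸ P)) p P s (Ideal.Quotient.mkₐ k P)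
    Ideal.Quotient.mk_surjective (fun _ => Ideal.Quotient.eq_zero_iff_mem) (trdeg_of_krull hdim)
    hs hsP

end H48C

end PartH48CSmpt

section PartH39cCBr

/-! Part C, row Br: a first branch. -/

set_option autoImplicit false

open MvPolynomial

namespace H39c

universe u

theorem tr3 {k : Type u} [Field k] (P : Ideal (P4 k)) (hP : P.IsPrime)
    (hd : ringKrullDim (P4 k ⧸ P) = 2) : Tr P := by
  intro w
  have ht : Algebra.trdeg k (P4 k ⧸ P) = (2 : ℕ) := H48C.trdeg_of_krull (n := 2) hd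
  by_contra hc
  push Not at hc
  have hi : AlgebraicIndependent k (fun i => Ideal.Quotient.mkₐ k P (w i)) := by
    rw [algebraicIndependent_iff]
    intro G hG
    by_contra h0
    refine hc G h0 ?_
    rw [← comp_aeval, AlgHom.comp_apply] at hG
    exact Ideal.Quotient.eq_zero_iff_mem.1 hG
  have h1 := hi.lift_cardinalMk_le_trdeg
  rw [ht, Cardinal.mk_fin, Cardinal.lift_natCast, Cardinal.lift_natCast, Nat.cast_le] at h1
  omega

theorem cbr_perm (i j : Fin 4) (h : i ≠ j) : ∃ σ : Equiv.Perm (Fin 4), σ 0 = i ∧ σ 3 = j := by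
  have h1 : (0 : Fin 4) ≠ Equiv.swap 0 i j := by
    intro h0
    have h2 := congrArg (Equiv.swap 0 i) h0
    rw [Equiv.swap_apply_left, Equiv.swap_apply_self] at h2
    exact h h2
  refine ⟨(Equiv.swap 3 (Equiv.swap 0 i j)).trans (Equiv.swap 0 i), ?_, ?_⟩
  · rw [Equiv.trans_apply, Equiv.swap_apply_of_ne_of_ne (by decide) h1, Equiv.swap_apply_left]
  · rw [Equiv.trans_apply, Equiv.swap_apply_left, Equiv.swap_apply_self]

theorem pre {k : Type u} [Field k] [IsAlgClosed k] (p : ℕ) [Fact p.Prime] [CharP k p]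
    (P : Ideal (P4 k)) (hP : P.IsPrime)
    (hd : ringKrullDim (P4 k ⧸ P) = 2) (hc : ∀ h ∈ P, ∀ d, homogeneousComponent d h ∈ P) :
    ∃ η : Fin 4 → PowerSeries k, Eqv P (idl η k) ∧ Wr η ≠ 0 := by
  have hsp : Ideal.span {f : P4 k | f ∈ P ∧ Form f} = P := by
    refine le_antisymm (Ideal.span_le.2 fun f hf => hf.1) fun f hf => ?_
    rw [← sum_homogeneousComponent f]
    exact Ideal.sum_mem _ fun d _ =>
      Ideal.subset_span ⟨hc f hf d, d, homogeneousComponent_isHomogeneous d f⟩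
  obtain ⟨i, j, a, ξ, hij, hi, hj, h1, h2⟩ :=
    H48C.branch p P {f : P4 k | f ∈ P ∧ Form f} hP hd (fun f hf => hf.2) hsp
  have he : idl ξ k = P := by
    refine idl_eq ξ hc fun h hf => ⟨h1 h, fun h0 => ?_⟩
    obtain ⟨d, hh⟩ := hf
    by_contra hn
    exact h2 h d hh hn h0
  obtain ⟨σ, h0, h3⟩ := cbr_perm i j hij
  have hl := (lin_eqv ξ (fun l => X (σ l)) (fun l => X (σ.symm l))
    (fun l => isHomogeneous_X k _) (fun l => isHomogeneous_X k _)
    (fun l => by rw [aeval_X, Equiv.apply_symm_apply])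
    (fun l => by rw [aeval_X, Equiv.symm_apply_apply])).1
  rw [he] at hl
  refine ⟨_, hl, ?_⟩
  unfold Wr
  simp only [aeval_X]
  rw [h0, h3, hi, hj]
  simp [PowerSeries.coeff_one]

end H39c

end PartH39cCBr

section PartH39cCNoe

/-! Part C, row Noe: linear Noether normalisation. -/

set_option autoImplicit false

open MvPolynomial

namespace H39c

universe u

theorem cNoe_int {k B A : Type u} [Field k] [CommRing B] [CommRing A] [Algebra k B] [Algebra k A]
    [Algebra B A] [IsScalarTower k B A] (v : Fin 4 → A) (i : Fin 4) {φ : P4 k} {n : ℕ}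
    (hφ : φ.IsHomogeneous n) (h1 : eval (Pi.single i 1) φ ≠ 0)
    (hv : ∀ j, j ≠ i → IsIntegral B (v j)) (h0 : aeval v φ = 0) : IsIntegral B (v i) := by
  classical
  let u : Fin 4 → integralClosure B A := fun j => if h : j = i then 0 else ⟨v j, hv j h⟩
  let f : integralClosure B A →ₐ[k] A := (integralClosure B A).val.restrictScalars k
  have hm : (mp i (C (eval (Pi.single i 1) φ)⁻¹ * φ) u).Monic :=
    mp_monic (hφ.C_mul _) (by rw [map_mul, eval_C, inv_mul_cancel₀ h1]) u
  have e : Function.update (fun j => f (u j)) i (v i) = v := by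
    funext j
    by_cases h : j = i
    · rw [h, Function.update_self]
    · rw [Function.update_of_ne h]
      simp only [u, dif_neg h]
      rfl
  refine isIntegral_trans (A := integralClosure B A) _ ⟨_, hm, ?_⟩
  rw [Polynomial.eval₂_eq_eval_map]
  change Polynomial.eval (v i) (Polynomial.map (f : integralClosure B A →+* A) _) = 0
  rw [mp_map, mp_eval, e, map_mul, h0, mul_zero]

theorem cNoe_form {k : Type u} [Field k] (η : Fin 4 → PowerSeries k) (hT : Tr (idl η k)) :
    ∃ (G : P4 k) (n : ℕ), G.IsHomogeneous n ∧ G ≠ 0 ∧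
      G ∈ supported k ({0, 1, 3} : Set (Fin 4)) ∧ G ∈ idl η k := by
  obtain ⟨G, h0, hG⟩ := hT fun j => X (![0, 1, 3] j)
  have hi : Function.Injective (![0, 1, 3] : Fin 3 → Fin 4) := by decide
  have e : aeval (fun j => (X (![0, 1, 3] j) : P4 k)) G = rename ![0, 1, 3] G := by
    rw [rename_eq_aeval]
    rfl
  rw [e] at hG
  have h1 : rename (![0, 1, 3] : Fin 3 → Fin 4) G ≠ 0 := fun h =>
    h0 (rename_injective _ hi (h.trans (map_zero _).symm))
  obtain ⟨d, hd⟩ : ∃ d, homogeneousComponent d (rename (![0, 1, 3] : Fin 3 → Fin 4) G) ≠ 0 := by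
    by_contra h
    push Not at h
    exact h1 (by rw [← sum_homogeneousComponent (rename _ G)]; simp [h])
  refine ⟨_, d, homogeneousComponent_isHomogeneous _ _, hd, ?_, idl_comp η k _ hG d⟩
  rw [mem_supported]
  intro j hj
  obtain ⟨m, hm, hj⟩ := (mem_vars_iff_mem_support _).1 hj
  have hm2 : m ∈ (rename (![0, 1, 3] : Fin 3 → Fin 4) G).support := by
    rw [mem_support_iff] at hm ⊢
    intro h
    exact hm (by rw [coeff_homogeneousComponent, h, ite_self])
  obtain ⟨a, -, rfl⟩ := mem_vars_rename _ _ ((mem_vars_iff_mem_support _).2 ⟨m, hm2, hj⟩)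
  fin_cases a <;> simp

theorem cNoe_ev {k : Type u} [Field k] (w : Fin 4 → k) (i : Fin 4) (c : Fin 4 → k) (G : P4 k) :
    eval w (aeval (fun j => (X j - C (c j) * X i : P4 k)) G) =
      aeval (fun j => w j - c j * w i) G := by
  have := comp_aeval_apply (fun j => (X j - C (c j) * X i : P4 k)) (aeval w) G
  simp only [map_sub, map_mul, aeval_X, aeval_C, Algebra.algebraMap_self, RingHom.id_apply] at this
  exact this

theorem cNoe_gen {k : Type u} [Field k] [Infinite k] (η : Fin 4 → PowerSeries k) (hW : Wr η ≠ 0)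
    (i : Fin 4) (h0 : i ≠ 0) (h3 : i ≠ 3) {G : P4 k} {n : ℕ} (hG : G.IsHomogeneous n)
    (hn : G ≠ 0) : ∃ c : Fin 4 → k, c i = 0 ∧
      Wr (fun j => η j + PowerSeries.C (c j) * η i) ≠ 0 ∧
      eval (Pi.single i 1) (aeval (fun j => (X j - C (c j) * X i : P4 k)) G) ≠ 0 := by
  let a := PowerSeries.coeff 0 (η i) * PowerSeries.coeff 1 (η 3) -
    PowerSeries.coeff 0 (η 3) * PowerSeries.coeff 1 (η i)
  let b := PowerSeries.coeff 0 (η 0) * PowerSeries.coeff 1 (η i) -
    PowerSeries.coeff 0 (η i) * PowerSeries.coeff 1 (η 0)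
  have hl : (C (Wr η) * X i - C a * X 0 - C b * X 3 : P4 k) ≠ 0 := fun h => hW (by
    simpa [Pi.single_eq_of_ne h0.symm, Pi.single_eq_of_ne h3.symm] using
      congrArg (eval (Pi.single i 1)) h)
  obtain ⟨v, hv⟩ : ∃ v : Fin 4 → k,
      eval v (G * (C (Wr η) * X i - C a * X 0 - C b * X 3) * X i) ≠ 0 := by
    by_contra h
    push Not at h
    exact mul_ne_zero (mul_ne_zero hn hl) (X_ne_zero i) (MvPolynomial.funext fun v => by
      rw [h v, map_zero])
  simp only [map_mul, map_sub, eval_C, eval_X, mul_ne_zero_iff] at hv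
  obtain ⟨⟨v1, v2⟩, v3⟩ := hv
  refine ⟨fun j => (Pi.single i 1 : Fin 4 → k) j - (v i)⁻¹ * v j, by simp [v3], fun h => v2 ?_, ?_⟩
  · simp only [Wr, map_add, PowerSeries.coeff_C_mul, Pi.single_eq_of_ne h0.symm,
      Pi.single_eq_of_ne h3.symm] at h
    simp only [Wr, a, b]
    have e : v i * (v i)⁻¹ = 1 := mul_inv_cancel₀ v3
    linear_combination v i * h + (v 0 * (PowerSeries.coeff 0 (η i) * PowerSeries.coeff 1 (η 3) -
      PowerSeries.coeff 0 (η 3) * PowerSeries.coeff 1 (η i)) +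
      v 3 * (PowerSeries.coeff 0 (η 0) * PowerSeries.coeff 1 (η i) -
      PowerSeries.coeff 0 (η i) * PowerSeries.coeff 1 (η 0))) * e
  · have e := hom_smul (K := k) (R := k) hG v (v i)⁻¹
    rw [cNoe_ev]
    simp only [Pi.single_eq_same, mul_one, sub_sub_cancel]
    rw [e]
    exact mul_ne_zero (pow_ne_zero _ (inv_ne_zero v3)) v1

theorem cNoe_hom {k : Type u} [Field k] (i : Fin 4) (c : Fin 4 → k) {G : P4 k} {n : ℕ}
    (hG : G.IsHomogeneous n) :
    (aeval (fun j => (X j - C (c j) * X i : P4 k)) G).IsHomogeneous n := by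
  have := hG.aeval (fun j => (X j - C (c j) * X i : P4 k))
    fun j => (isHomogeneous_X k j).sub ((isHomogeneous_X k i).C_mul _)
  rwa [one_mul] at this

theorem noeth {k : Type u} [Field k] [IsAlgClosed k] (η : Fin 4 → PowerSeries k) (hW : Wr η ≠ 0)
    (hT : Tr (idl η k)) : ∃ η' : Fin 4 → PowerSeries k, Eqv (idl η k) (idl η' k) ∧ Wr η' ≠ 0 ∧
      Itg (idl η' k) (X 1) ∧ Itg (idl η' k) (X 2) := by
  obtain ⟨G, n, g1, g2, -, g4⟩ := cNoe_form η hT
  obtain ⟨c, c1, c2, c3⟩ := cNoe_gen η hW 2 (by decide) (by decide) g1 g2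
  obtain ⟨E1, m1⟩ := shear_eqv η 2 c c1
  obtain ⟨G', n', g1', g2', g3', g4'⟩ := cNoe_form _ (E1.tr hT)
  obtain ⟨c', c1', c2', c3'⟩ := cNoe_gen _ c2 1 (by decide) (by decide) g1' g2'
  obtain ⟨E2, m2⟩ := shear_eqv (fun j => η j + PowerSeries.C (c j) * η 2) 1 c' c1'
  refine ⟨_, E1.trans E2, c2', ?_⟩
  have p2 := (m2 _).2.1 ((m1 G).2.1 g4)
  have p1 := (m2 _).2.1 g4'
  generalize idl (fun j => (η j + PowerSeries.C (c j) * η 2) +
    PowerSeries.C (c' j) * (η 1 + PowerSeries.C (c 1) * η 2)) k = I at p1 p2 ⊢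
  let r : MvPolynomial (Fin 2) k →ₐ[k] P4 k := rename ![(0 : Fin 4), 3]
  let _ : Algebra (MvPolynomial (Fin 2) k) (P4 k ⧸ I) :=
    ((Ideal.Quotient.mk I).comp r.toRingHom).toAlgebra
  have : IsScalarTower k (MvPolynomial (Fin 2) k) (P4 k ⧸ I) :=
    IsScalarTower.of_algebraMap_eq fun x => by
      change _ = Ideal.Quotient.mk I (r (algebraMap k _ x))
      rw [r.commutes]
      rfl
  have key : ∀ h : P4 k, IsIntegral (MvPolynomial (Fin 2) k) (Ideal.Quotient.mk I h) → Itg I h := by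
    rintro h ⟨q, hq, h0⟩
    refine ⟨q, hq, Ideal.Quotient.eq_zero_iff_mem.1 ?_⟩
    rw [Polynomial.hom_eval₂]
    exact h0
  let v : Fin 4 → P4 k ⧸ I := fun j => Ideal.Quotient.mk I (X j)
  have ev : ∀ h : P4 k, aeval v h = Ideal.Quotient.mk I h := fun h =>
    (comp_aeval_apply X (Ideal.Quotient.mkₐ k I) h).symm.trans (by rw [aeval_X_left_apply]; rfl)
  have i0 : IsIntegral (MvPolynomial (Fin 2) k) (v 0) := by
    have : v 0 = algebraMap (MvPolynomial (Fin 2) k) _ (X 0) :=
      congrArg (Ideal.Quotient.mk I) (rename_X ![(0 : Fin 4), 3] 0).symm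
    rw [this]
    exact isIntegral_algebraMap
  have i3 : IsIntegral (MvPolynomial (Fin 2) k) (v 3) := by
    have : v 3 = algebraMap (MvPolynomial (Fin 2) k) _ (X 1) :=
      congrArg (Ideal.Quotient.mk I) (rename_X ![(0 : Fin 4), 3] 1).symm
    rw [this]
    exact isIntegral_algebraMap
  have i1 : IsIntegral (MvPolynomial (Fin 2) k) (v 1) := by
    refine cNoe_int (Function.update v 2 0) 1 (cNoe_hom 1 c' g1') c3' (fun j hj => ?_) ?_
    · fin_cases j
      · exact i0
      · exact absurd rfl hj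
      · exact isIntegral_zero
      · exact i3
    · rw [← Ideal.Quotient.eq_zero_iff_mem.2 p1, ← ev, comp_aeval_apply, comp_aeval_apply]
      refine sup_congr g3' fun j hj => ?_
      rcases hj with rfl | rfl | rfl <;> simp
  refine ⟨key _ i1, key _ (cNoe_int v 2 (cNoe_hom 1 c' (cNoe_hom 2 c g1)) ?_ (fun j hj => ?_) ?_)⟩
  · rw [cNoe_ev]
    have e : (fun j => (Pi.single 2 1 : Fin 4 → k) j - c' j * (Pi.single 2 1 : Fin 4 → k) 1) =
        Pi.single 2 1 := by
      funext j
      rw [Pi.single_eq_of_ne (by decide : (1 : Fin 4) ≠ 2), mul_zero, sub_zero]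
    rw [e]
    exact c3
  · fin_cases j
    · exact i0
    · exact i1
    · exact absurd rfl hj
    · exact i3
  · rw [ev, Ideal.Quotient.eq_zero_iff_mem.2 p2]

end H39c

end PartH39cCNoe

section PartH39cCMinp

/-! Part C, row Minp: minimal equations. -/

set_option autoImplicit false

open MvPolynomial

namespace H39c

universe u

variable {k : Type u} [Field k] [IsAlgClosed k] {η : Fin 4 → PowerSeries k}

omit [IsAlgClosed k] in
theorem cminp_sup {s : Set (Fin 4)} {g : P4 k} (h : g ∈ supported k s) (d : ℕ) :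
    homogeneousComponent d g ∈ supported k s := mem_supported.2 fun j hj => by
  obtain ⟨m, hm, hj⟩ := (mem_vars_iff_mem_support j).1 hj
  refine mem_supported.1 h ((mem_vars_iff_mem_support j).2 ⟨m, mem_support_iff.2 fun e => ?_, hj⟩)
  exact mem_support_iff.1 hm (by rw [coeff_homogeneousComponent, e, ite_self])

omit [IsAlgClosed k] in
theorem cminp_ev (v : Fin 4 → k) (f : P4 k) (d : ℕ) : eval v (homogeneousComponent d f) =
    (aeval (fun j => Polynomial.X * algebraMap k (Polynomial k) (v j)) f).coeff d := by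
  conv_rhs => rw [← sum_homogeneousComponent f]
  have e : ∀ n, (aeval (fun j => Polynomial.X * algebraMap k (Polynomial k) (v j))
      (homogeneousComponent n f)).coeff d =
      if d = n then eval v (homogeneousComponent n f) else 0 := fun n => by
    rw [hom_smul (homogeneousComponent_isHomogeneous n f)]
    refine (congrArg (fun y => (Polynomial.X ^ n * y).coeff d)
      (aeval_algebraMap_apply (Polynomial k) v _)).trans ?_
    simp [Polynomial.coeff_X_pow]
  rw [map_sum, Polynomial.finset_sum_coeff, Finset.sum_congr rfl fun n _ => e n, Finset.sum_ite_eq]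
  split_ifs with h
  · rfl
  · rw [homogeneousComponent_eq_zero _ _ (by simpa using h), map_zero]

theorem bin_notin (hW : Wr η ≠ 0) :
    ∀ N ∈ supported k ({0, 3} : Set (Fin 4)), N ∈ idl η k → N = 0 := by
  intro N hs hN
  rw [← sum_homogeneousComponent N]
  refine Finset.sum_eq_zero fun d _ => by_contra fun h0 => hW ?_
  have hd := homogeneousComponent_isHomogeneous d N
  have z := idl_ker η k (idl_comp η k N hN d)
  rw [iota_k] at z
  obtain ⟨q, q0, hq⟩ := bin_poly (bin_iff.2 ⟨⟨d, hd⟩, cminp_sup hs d⟩) h0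
  by_cases e0 : η 0 = 0
  · simp [Wr, e0]
  have inj := IsFractionRing.injective (PowerSeries k) (FractionRing (PowerSeries k))
  have x0 : algebraMap (PowerSeries k) (FractionRing (PowerSeries k)) (η 0) ≠ 0 := fun c =>
    e0 (inj (c.trans (map_zero _).symm))
  have a := hq (FractionRing (PowerSeries k)) (fun i => (algebraMap (PowerSeries k) _ (η 0))⁻¹ *
    algebraMap (PowerSeries k) _ (η i)) (inv_mul_cancel₀ x0)
  have b := aeval_algebraMap_apply (FractionRing (PowerSeries k)) η (homogeneousComponent d N)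
  rw [z, map_zero] at b
  rw [hom_smul hd] at a
  replace a := a.symm.trans ((congrArg (_ * ·) b).trans (mul_zero _))
  obtain ⟨c, hc⟩ := minpoly.mem_range_of_degree_eq_one k _
    (IsAlgClosed.degree_eq_one_of_irreducible k (minpoly.irreducible (IsAlgebraic.isIntegral
      ⟨q, q0, a⟩)))
  have e : η 3 = PowerSeries.C c * η 0 := inj (by
    rw [map_mul, ← PowerSeries.algebraMap_eq, ← IsScalarTower.algebraMap_apply]
    exact ((eq_inv_mul_iff_mul_eq₀ x0).1 hc).symm.trans (mul_comm _ _))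
  rw [Wr, e, PowerSeries.coeff_C_mul, PowerSeries.coeff_C_mul]
  ring

theorem minp (hW : Wr η ≠ 0) {i : Fin 4} (hi : i = 1 ∨ i = 2) (hI : Itg (idl η k) (X i)) :
    ∃ (D : ℕ) (φ : P4 k), 0 < D ∧ Mon i D φ ∧ φ ∈ idl η k ∧
      ∀ g ∈ supported k ({0, i, 3} : Set (Fin 4)), g ∈ idl η k → φ ∣ g := by
  have i0 : i ≠ 0 ∧ i ≠ 3 := by rcases hi with rfl | rfl <;> decide
  have := idl_prime η k
  have rs : ∀ a : MvPolynomial (Fin 2) k,
      rename ![(0 : Fin 4), 3] a ∈ supported k ({0, 3} : Set (Fin 4)) := fun a =>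
    mem_supported.2 fun j hj => by
      obtain ⟨l, -, rfl⟩ := Finset.mem_image.1 (vars_rename _ _ hj)
      fin_cases l <;> simp
  letI : Algebra (MvPolynomial (Fin 2) k) (P4 k ⧸ idl η k) := ((Ideal.Quotient.mk (idl η k)).comp
    (rename ![(0 : Fin 4), 3] : MvPolynomial (Fin 2) k →ₐ[k] P4 k).toRingHom).toAlgebra
  have : Module.IsTorsionFree (MvPolynomial (Fin 2) k) (P4 k ⧸ idl η k) :=
    Module.isTorsionFree_iff_algebraMap_injective.2 ((injective_iff_map_eq_zero _).2 fun a ha =>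
      rename_injective ![(0 : Fin 4), 3] (by decide) ((bin_notin hW _ (rs a)
        (Ideal.Quotient.eq_zero_iff_mem.1 ha)).trans (map_zero _).symm))
  obtain ⟨Φ, hΦ⟩ : ∃ Φ : Polynomial (MvPolynomial (Fin 2) k) →ₐ[k] P4 k, ∀ q, Φ q = q.eval₂
      (rename ![(0 : Fin 4), 3] : MvPolynomial (Fin 2) k →ₐ[k] P4 k).toRingHom (X i) :=
    ⟨Polynomial.aevalTower (rename ![(0 : Fin 4), 3]) (X i), fun _ => rfl⟩
  have key : ∀ q, Φ q ∈ idl η k ↔
      Polynomial.aeval (Ideal.Quotient.mk (idl η k) (X i)) q = 0 := fun q => by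
    rw [← Ideal.Quotient.eq_zero_iff_mem, hΦ, Polynomial.hom_eval₂]
    rfl
  have int : IsIntegral (MvPolynomial (Fin 2) k) (Ideal.Quotient.mk (idl η k) (X i)) := by
    obtain ⟨q, q1, q2⟩ := hI
    exact ⟨q, q1, (key q).1 (hΦ q ▸ q2)⟩
  have sur : supported k ({0, i, 3} : Set (Fin 4)) ≤ Φ.range := Algebra.adjoin_le (by
    rintro _ ⟨j, rfl | rfl | rfl, rfl⟩
    · exact ⟨Polynomial.C (X 0), by simp [hΦ]⟩
    · exact ⟨Polynomial.X, by simp [hΦ]⟩
    · exact ⟨Polynomial.C (X 1), by simp [hΦ]⟩)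
  have sub : ∀ q, Φ q ∈ supported k ({0, i, 3} : Set (Fin 4)) := fun q => by
    rw [hΦ, Polynomial.eval₂_eq_sum_range]
    exact Subalgebra.sum_mem _ fun n _ => Subalgebra.mul_mem _
      (supported_mono (by intro j; simp; tauto) (rs _))
      (Subalgebra.pow_mem _ (Algebra.subset_adjoin (Set.mem_image_of_mem X (by simp))) _)
  have dv : ∀ g ∈ supported k ({0, i, 3} : Set (Fin 4)), g ∈ idl η k →
      Φ (minpoly _ (Ideal.Quotient.mk (idl η k) (X i))) ∣ g := fun g hg hI => by
    obtain ⟨q, rfl⟩ := sur hg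
    exact map_dvd Φ (minpoly.isIntegrallyClosed_dvd int ((key q).1 hI))
  have m0 := (key _).2 (minpoly.aeval _ (Ideal.Quotient.mk (idl η k) (X i)))
  have m1 := minpoly.monic int
  have m2 := minpoly.natDegree_pos int
  generalize minpoly (MvPolynomial (Fin 2) k) (Ideal.Quotient.mk (idl η k) (X i)) = μ at *
  have one : eval (Pi.single i 1) (homogeneousComponent μ.natDegree (Φ μ)) = 1 := by
    rw [cminp_ev, hΦ]
    have e := Polynomial.hom_eval₂ μ (rename ![(0 : Fin 4), 3] :
      MvPolynomial (Fin 2) k →ₐ[k] P4 k).toRingHom (aeval fun j => Polynomial.X *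
        algebraMap k (Polynomial k) ((Pi.single i 1 : Fin 4 → k) j) : P4 k →ₐ[k] _).toRingHom (X i)
    have e2 : (aeval fun j => Polynomial.X * algebraMap k (Polynomial k)
        ((Pi.single i 1 : Fin 4 → k) j) : P4 k →ₐ[k] _).toRingHom.comp (rename ![(0 : Fin 4), 3] :
        MvPolynomial (Fin 2) k →ₐ[k] P4 k).toRingHom = Polynomial.C.comp constantCoeff := by
      refine ringHom_ext (fun a => by simp) fun l => ?_
      fin_cases l <;> simp [i0.1.symm, i0.2.symm]
    rw [e2] at e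
    refine (congrArg (Polynomial.coeff · μ.natDegree) e).trans ?_
    have : Polynomial.eval₂ (Polynomial.C.comp constantCoeff) Polynomial.X μ =
        μ.map (constantCoeff : MvPolynomial (Fin 2) k →+* k) := rfl
    simp [this, m1.coeff_natDegree]
  have n0 : homogeneousComponent μ.natDegree (Φ μ) ≠ 0 := fun e => by simp [e] at one
  have hh := homogeneousComponent_isHomogeneous μ.natDegree (Φ μ)
  have s1 := cminp_sup (sub μ) μ.natDegree
  have s2 := idl_comp η k _ m0 μ.natDegree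
  refine ⟨_, _, m2, ⟨hh, s1, one⟩, s2, fun g hg hI => dvd_trans ?_ (dv g hg hI)⟩
  obtain ⟨w, hw⟩ := dv _ s1 s2
  have d1 : μ.natDegree ≤ (Φ μ).totalDegree := not_lt.1 fun c => n0
    (homogeneousComponent_eq_zero _ _ c)
  have d2 := hh.totalDegree n0
  have w0 : w ≠ 0 := fun e => n0 (by rw [hw, e, mul_zero])
  rw [hw, totalDegree_mul_of_isDomain (left_ne_zero_of_mul (hw ▸ n0)) w0] at d2
  have e := totalDegree_eq_zero_iff_eq_C.1 (show w.totalDegree = 0 by omega)
  have c0 : coeff 0 w ≠ 0 := fun c => w0 (by rw [e, c, C_0])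
  exact ⟨C (coeff 0 w)⁻¹, by
    rw [hw, e, coeff_zero_C, mul_assoc, ← C_mul, mul_inv_cancel₀ c0, C_1, mul_one]⟩

end H39c

end PartH39cCMinp

section PartH39cCSep

/-! Part C, row Sep: separability. -/

set_option autoImplicit false

open MvPolynomial

namespace H39c

universe u

variable {k : Type u} [Field k] [IsAlgClosed k] {η : Fin 4 → PowerSeries k}

theorem csep_chain {K : Type u} [Field K] (ξ : Fin 4 → PowerSeries K) (h : P4 K) :
    PowerSeries.derivative K (aeval ξ h) =
      ∑ j, aeval ξ (pderiv j h) * PowerSeries.derivative K (ξ j) := by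
  induction h using MvPolynomial.induction_on with
  | C a => simp only [aeval_C, Derivation.map_algebraMap, pderiv_C, map_zero, zero_mul,
      Finset.sum_const_zero]
  | add f g hf hg => simp only [map_add, hf, hg, add_mul, Finset.sum_add_distrib]
  | mul_X f n hf =>
    have h1 : ∑ j, aeval ξ (pderiv j (X n : P4 K)) * PowerSeries.derivative K (ξ j) =
        PowerSeries.derivative K (ξ n) := by
      rw [Finset.sum_eq_single n]
      · rw [pderiv_X_self, map_one, one_mul]
      · intro j _ hj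
        rw [pderiv_X_of_ne hj.symm, map_zero, zero_mul]
      · intro hn
        exact absurd (Finset.mem_univ n) hn
    have h2 : ∀ j, aeval ξ (pderiv j (f * X n)) * PowerSeries.derivative K (ξ j) =
        ξ n * (aeval ξ (pderiv j f) * PowerSeries.derivative K (ξ j)) +
          aeval ξ f * (aeval ξ (pderiv j (X n : P4 K)) * PowerSeries.derivative K (ξ j)) := by
      intro j
      rw [pderiv_mul, map_add, map_mul, map_mul, aeval_X]
      ring
    rw [Finset.sum_congr rfl (fun j _ => h2 j), Finset.sum_add_distrib, ← Finset.mul_sum,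
      ← Finset.mul_sum, h1, ← hf, map_mul, aeval_X, Derivation.leibniz, smul_eq_mul, smul_eq_mul]
    ring

theorem csep_pow (p : ℕ) [Fact p.Prime] [CharP k p] (φ : P4 k) (h : ∀ j, pderiv j φ = 0) :
    ∃ g : P4 k, φ = g ^ p := by
  have hp : p.Prime := Fact.out
  have hd : ∀ e ∈ φ.support, ∀ j, p ∣ e j := by
    intro e he j
    by_contra hn
    have hpos : 1 ≤ e j := Nat.one_le_iff_ne_zero.mpr (fun h0 => hn (by rw [h0]; exact dvd_zero p))
    have h1 := coeff_pderiv (i := j) φ (e - Finsupp.single j 1)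
    rw [h j, coeff_zero, tsub_add_cancel_of_le (Finsupp.single_le_iff.mpr hpos)] at h1
    have h2 : (((e - Finsupp.single j 1 : Fin 4 →₀ ℕ) j : ℕ) : k) + 1 = (e j : k) := by
      rw [Finsupp.tsub_apply, Finsupp.single_eq_same, ← Nat.cast_succ, Nat.succ_eq_add_one,
        Nat.sub_add_cancel hpos]
    rw [h2] at h1
    rcases mul_eq_zero.mp h1.symm with h3 | h3
    · exact (mem_support_iff.mp he) h3
    · exact hn ((CharP.cast_eq_zero_iff k p _).mp h3)
  choose r hr using fun c : k => IsAlgClosed.exists_pow_nat_eq c hp.pos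
  refine ⟨∑ e ∈ φ.support,
    monomial (e.mapRange (fun n => n / p) (Nat.zero_div p)) (r (coeff e φ)), ?_⟩
  rw [sum_pow_char]
  refine (φ.as_sum).trans (Finset.sum_congr rfl fun e he => ?_)
  have h3 : p • e.mapRange (fun n => n / p) (Nat.zero_div p) = e := by
    refine Finsupp.ext fun j => ?_
    rw [Finsupp.smul_apply, Finsupp.mapRange_apply, smul_eq_mul, Nat.mul_div_cancel' (hd e he j)]
  rw [monomial_pow, hr, h3]

theorem csep_proj {K : Type u} [Field K] (s : Set (Fin 4)) (v : Fin 4 → P4 K)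
    (hv : ∀ j, v j ∈ supported K s) (g : P4 K) : aeval v g ∈ supported K s := by
  induction g using MvPolynomial.induction_on with
  | C a => rw [aeval_C]; exact Subalgebra.algebraMap_mem _ a
  | add f g hf hg => rw [map_add]; exact Subalgebra.add_mem _ hf hg
  | mul_X f n hf => rw [map_mul, aeval_X]; exact Subalgebra.mul_mem _ hf (hv n)

theorem csep_pow_sup (p : ℕ) [Fact p.Prime] [CharP k p] {s : Set (Fin 4)} {φ : P4 k}
    (hs : φ ∈ supported k s) (h : ∀ j, pderiv j φ = 0) :
    ∃ g ∈ supported k s, φ = g ^ p := by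
  classical
  obtain ⟨g, hg⟩ := csep_pow p φ h
  let v : Fin 4 → P4 k := fun j => if j ∈ s then X j else 0
  have hv : ∀ j, v j ∈ supported k s := by
    intro j
    by_cases hj : j ∈ s
    · have : v j = X j := if_pos hj
      rw [this]
      exact X_mem_supported.mpr hj
    · have : v j = 0 := if_neg hj
      rw [this]
      exact Subalgebra.zero_mem _
  refine ⟨aeval v g, csep_proj s v hv g, ?_⟩
  have h1 : aeval v φ = aeval (X : Fin 4 → P4 k) φ := sup_congr hs (fun j hj => if_pos hj)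
  rw [← map_pow, ← hg, h1, aeval_X_left_apply]

theorem csep_deg {K : Type u} [Field K] {g : P4 K} (hg : g ≠ 0) (n : ℕ) :
    (g ^ n).totalDegree = n * g.totalDegree := by
  induction n with
  | zero => rw [pow_zero, totalDegree_one, zero_mul]
  | succ n ih =>
    rw [pow_succ, totalDegree_mul_of_isDomain (pow_ne_zero n hg) hg, ih, Nat.succ_mul]

theorem sepp (p : ℕ) [Fact p.Prime] [CharP k p] (hW : Wr η ≠ 0) {i : Fin 4} (hi : i = 1 ∨ i = 2)
    {D : ℕ} {φ : P4 k} (hD : 0 < D) (hm : Mon i D φ) (hφ : φ ∈ idl η k)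
    (hmin : ∀ g ∈ supported k ({0, i, 3} : Set (Fin 4)), g ∈ idl η k → φ ∣ g) :
    pderiv i φ ∉ idl η k := by
  intro hin
  have hp : p.Prime := Fact.out
  have hne : φ ≠ 0 := by
    intro h0
    have h1 := hm.one
    rw [h0, map_zero] at h1
    exact zero_ne_one h1
  have hdeg : φ.totalDegree = D := hm.hom.totalDegree hne
  have hA : ∀ j, pderiv j φ ∈ idl η k → pderiv j φ = 0 := by
    intro j hj
    by_contra h0
    have h1 := totalDegree_le_of_dvd_of_isDomain (hmin _ (pderiv_sup hm.sup j).1 hj) h0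
    rw [hdeg, (hm.hom.pderiv (i := j)).totalDegree h0] at h1
    omega
  have hi0 : pderiv i φ = 0 := hA i hin
  have h12 : pderiv 1 φ = 0 ∧ pderiv 2 φ = 0 := by
    rcases hi with rfl | rfl
    · exact ⟨hi0, (pderiv_sup hm.sup 2).2 (by simp)⟩
    · exact ⟨(pderiv_sup hm.sup 1).2 (by simp), hi0⟩
  have hz : aeval η φ = 0 := by
    rw [← iota_k]
    exact idl_ker η k hφ
  have hE : η 0 * aeval η (pderiv 0 φ) + η 3 * aeval η (pderiv 3 φ) = 0 := by
    have h1 := congrArg (aeval η) hm.hom.sum_X_mul_pderiv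
    rw [Fin.sum_univ_four, h12.1, h12.2, map_nsmul, hz, nsmul_zero] at h1
    simpa only [mul_zero, add_zero, map_add, map_mul, aeval_X] using h1
  have hC : aeval η (pderiv 0 φ) * PowerSeries.derivative k (η 0) +
      aeval η (pderiv 3 φ) * PowerSeries.derivative k (η 3) = 0 := by
    have h1 := csep_chain η φ
    rw [Fin.sum_univ_four, h12.1, h12.2, hz] at h1
    simpa only [map_zero, zero_mul, add_zero] using h1.symm
  have hdet : η 0 * PowerSeries.derivative k (η 3) - η 3 * PowerSeries.derivative k (η 0) ≠ 0 := by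
    intro h0
    apply hW
    have h1 := congrArg (PowerSeries.coeff 0) h0
    rw [map_sub, map_zero, PowerSeries.coeff_zero_eq_constantCoeff, map_mul, map_mul,
      ← PowerSeries.coeff_zero_eq_constantCoeff, PowerSeries.coeff_derivative,
      PowerSeries.coeff_derivative] at h1
    simpa only [Wr, zero_add, Nat.cast_zero, mul_one] using h1
  have h0 : aeval η (pderiv 0 φ) = 0 := by
    refine (mul_eq_zero.mp ?_).resolve_right hdet
    linear_combination PowerSeries.derivative k (η 3) * hE - η 3 * hC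
  have h3 : aeval η (pderiv 3 φ) = 0 := by
    refine (mul_eq_zero.mp ?_).resolve_right hdet
    linear_combination η 0 * hC - PowerSeries.derivative k (η 0) * hE
  have hB : ∀ j, aeval η (pderiv j φ) = 0 → pderiv j φ = 0 := fun j hj =>
    hA j ((idl_mem η k _ ⟨D - 1, hm.hom.pderiv⟩).mpr (by rw [iota_k]; exact hj))
  have hall : ∀ j, pderiv j φ = 0 := by
    intro j
    fin_cases j
    · exact hB 0 h0
    · exact h12.1
    · exact h12.2
    · exact hB 3 h3
  obtain ⟨g, hgs, hg⟩ := csep_pow_sup p hm.sup hall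
  have hg0 : g ≠ 0 := by
    intro h1
    rw [h1, zero_pow hp.ne_zero] at hg
    exact hne hg
  have hgi : g ∈ idl η k := (idl_prime η k).mem_of_pow_mem p (hg ▸ hφ)
  have h4 := totalDegree_le_of_dvd_of_isDomain (hmin g hgs hgi) hg0
  have h5 : D = p * g.totalDegree := by rw [← hdeg, hg, csep_deg hg0]
  rw [hdeg] at h4
  have h6 := Nat.mul_le_mul hp.two_le h4
  omega

end H39c

end PartH39cCSep

section PartH39cCPe

/-! Part C, row Pe: primitive element. -/

set_option autoImplicit false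

open MvPolynomial

namespace H39c

universe u

open scoped IntermediateField in
theorem cpe_prim {k F E : Type u} [Field k] [Infinite k] [Field F] [Field E] [Algebra k E]
    [Algebra F E] (hk : ∀ c : k, algebraMap k E c ∈ Set.range (algebraMap F E)) {α β : E}
    (ha : IsSeparable F α) (hb : IsSeparable F β) :
    ∃ c : k, β ∈ Algebra.adjoin F {α + algebraMap k E c * β} := by
  have := IntermediateField.finiteDimensional_adjoin_pair ha.isIntegral hb.isIntegral
  have := IntermediateField.isSeparable_adjoin_pair_of_isSeparable F E ha hb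
  have := Field.finite_intermediateField_of_exists_primitive_element F F⟮α, β⟯
    (Field.exists_primitive_element F F⟮α, β⟯)
  choose e he using hk
  let a : F⟮α, β⟯ := ⟨α, IntermediateField.mem_adjoin_pair_left F α β⟩
  let b : F⟮α, β⟯ := ⟨β, IntermediateField.mem_adjoin_pair_right F α β⟩
  obtain ⟨c, c', hne, h⟩ := Finite.exists_ne_map_eq_of_infinite
    (fun c : k => F⟮a + e c • b⟯)
  have v : ∀ c : k, ((a + e c • b : F⟮α, β⟯) : E) = α + algebraMap k E c * β := fun c => by
    rw [← he, ← Algebra.smul_def]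
    rfl
  have h2 : F⟮α + algebraMap k E c * β⟯ = F⟮α + algebraMap k E c' * β⟯ := by
    have := congrArg IntermediateField.lift h
    simp only [IntermediateField.lift_adjoin_simple] at this
    rwa [v, v] at this
  have m1 := IntermediateField.mem_adjoin_simple_self F (α + algebraMap k E c * β)
  have m2 := IntermediateField.mem_adjoin_simple_self F (α + algebraMap k E c' * β)
  rw [← h2] at m2
  have n0 : algebraMap k E c - algebraMap k E c' ≠ 0 :=
    sub_ne_zero.2 fun h => hne ((algebraMap k E).injective h)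
  have m3 : algebraMap k E c - algebraMap k E c' ∈ F⟮α + algebraMap k E c * β⟯ := by
    rw [← he, ← he c', ← map_sub]
    exact IntermediateField.algebraMap_mem _ _
  have m4 := div_mem (sub_mem m1 m2) m3
  have e1 : (α + algebraMap k E c * β - (α + algebraMap k E c' * β)) /
      (algebraMap k E c - algebraMap k E c') = β := by
    rw [div_eq_iff n0]
    ring
  rw [e1] at m4
  refine ⟨c, ?_⟩
  have i1 : IsIntegral F (α + algebraMap k E c * β) := by
    rw [← he]
    exact ha.isIntegral.add (isIntegral_algebraMap.mul hb.isIntegral)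
  rw [← IntermediateField.adjoin_simple_toSubalgebra_of_isAlgebraic i1.isAlgebraic]
  exact m4

theorem cpe_sep {F E : Type u} [Field F] [Field E] [Algebra F E] {α : E} {m : Polynomial F}
    (hm : m.Monic) (h0 : Polynomial.aeval α m = 0)
    (h1 : Polynomial.aeval α (Polynomial.derivative m) ≠ 0) : IsSeparable F α := by
  have hi : IsIntegral F α := ⟨m, hm, h0⟩
  refine (Polynomial.separable_iff_derivative_ne_zero (minpoly.irreducible hi)).2 fun h => h1 ?_
  obtain ⟨q, rfl⟩ := minpoly.dvd F α h0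
  rw [Polynomial.derivative_mul, h]
  simp

theorem cpe_comp {k : Type u} [Field k] (δ : P4 k) (i : Fin 4) (d : ℕ) :
    homogeneousComponent (d + 1) (δ * X i) = homogeneousComponent d δ * X i := by
  classical
  ext m
  rw [coeff_homogeneousComponent, coeff_mul_X', coeff_mul_X', coeff_homogeneousComponent]
  by_cases hm : i ∈ m.support
  · have e : m = (m - Finsupp.single i 1) + Finsupp.single i 1 := by
      rw [tsub_add_cancel_of_le]
      exact Finsupp.single_le_iff.2 (Nat.one_le_iff_ne_zero.2 (Finsupp.mem_support_iff.1 hm))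
    have e2 : m.degree = (m - Finsupp.single i 1).degree + 1 := by
      conv_lhs => rw [e]
      rw [map_add, Finsupp.degree_single]
    simp only [hm, if_true, e2, add_left_inj]
  · simp [hm]

theorem cpe_sup {k : Type u} [Field k] {s : Set (Fin 4)} {g : P4 k} (hg : g ∈ supported k s)
    (d : ℕ) : homogeneousComponent d g ∈ supported k s := by
  classical
  rw [mem_supported] at hg ⊢
  intro i hi
  refine hg ?_
  rw [Finset.mem_coe, mem_vars_iff_mem_support] at hi ⊢
  obtain ⟨m, hm, h⟩ := hi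
  refine ⟨m, ?_, h⟩
  rw [mem_support_iff] at hm ⊢
  rw [coeff_homogeneousComponent] at hm
  intro e
  simp [e] at hm

theorem cpe_adj {k E : Type u} [Field k] [Field E] [Algebra k E] (y : Fin 4 → E) {z : E}
    (hz : z ∈ Algebra.adjoin k {y 0, y 3}) :
    ∃ g ∈ supported k ({0, 3} : Set (Fin 4)), aeval y g = z := by
  induction hz using Algebra.adjoin_induction with
  | mem x hx =>
    rcases hx with rfl | rfl
    · exact ⟨X 0, X_mem_supported.2 (by simp), aeval_X _ _⟩
    · exact ⟨X 3, X_mem_supported.2 (by simp), aeval_X _ _⟩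
  | algebraMap c => exact ⟨C c, Subalgebra.algebraMap_mem _ c, aeval_C _ _⟩
  | add a b _ _ ha hb =>
    obtain ⟨g, h1, rfl⟩ := ha
    obtain ⟨g', h2, rfl⟩ := hb
    exact ⟨g + g', add_mem h1 h2, map_add _ _ _⟩
  | mul a b _ _ ha hb =>
    obtain ⟨g, h1, rfl⟩ := ha
    obtain ⟨g', h2, rfl⟩ := hb
    exact ⟨g * g', mul_mem h1 h2, map_mul _ _ _⟩

theorem cpe_den {k E : Type u} [Field k] [Field E] [Algebra k E] (y : Fin 4 → E) {z : E}
    (hz : z ∈ Algebra.adjoin (IntermediateField.adjoin k {y 0, y 3}) {y 1}) :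
    ∃ δ ∈ supported k ({0, 3} : Set (Fin 4)), ∃ ψ ∈ supported k ({0, 1, 3} : Set (Fin 4)),
      aeval y δ ≠ 0 ∧ aeval y δ * z = aeval y ψ := by
  have mo : supported k ({0, 3} : Set (Fin 4)) ≤ supported k ({0, 1, 3} : Set (Fin 4)) :=
    supported_mono (by intro i hi; rcases hi with rfl | rfl <;> simp)
  induction hz using Algebra.adjoin_induction with
  | mem x hx =>
    rcases hx with rfl
    exact ⟨1, one_mem _, X 1, X_mem_supported.2 (by simp), by simp, by simp⟩
  | algebraMap c =>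
    obtain ⟨a, ha, b, hb, e⟩ := IntermediateField.mem_adjoin_iff_div.1 c.2
    obtain ⟨g, h1, rfl⟩ := cpe_adj y ha
    obtain ⟨g', h2, rfl⟩ := cpe_adj y hb
    by_cases h0 : aeval y g' = 0
    · refine ⟨1, one_mem _, 0, zero_mem _, by simp, ?_⟩
      change _ * (c : E) = _
      rw [e, h0]
      simp
    · refine ⟨g', h2, g, mo h1, h0, ?_⟩
      change _ * (c : E) = _
      rw [e, mul_div_cancel₀ _ h0]
  | add a b _ _ ha hb =>
    obtain ⟨d, h1, g, h2, h3, h4⟩ := ha
    obtain ⟨d', h1', g', h2', h3', h4'⟩ := hb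
    refine ⟨d * d', mul_mem h1 h1', d' * g + d * g',
      add_mem (mul_mem (mo h1') h2) (mul_mem (mo h1) h2'), ?_, ?_⟩
    · rw [map_mul]
      exact mul_ne_zero h3 h3'
    · rw [map_add, map_mul, map_mul, map_mul, ← h4, ← h4']
      ring
  | mul a b _ _ ha hb =>
    obtain ⟨d, h1, g, h2, h3, h4⟩ := ha
    obtain ⟨d', h1', g', h2', h3', h4'⟩ := hb
    refine ⟨d * d', mul_mem h1 h1', g * g', mul_mem h2 h2', ?_, ?_⟩
    · rw [map_mul]
      exact mul_ne_zero h3 h3'
    · rw [map_mul, map_mul, ← h4, ← h4']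
      ring

theorem cpe_itg {k E : Type u} [Field k] [Field E] [Algebra k E] {I : Ideal (P4 k)}
    {y : Fin 4 → E} (hy : ∀ g : P4 k, g ∈ I ↔ aeval y g = 0) (h : P4 k) :
    Itg I h ↔ (aeval ![y 0, y 3] : MvPolynomial (Fin 2) k →ₐ[k] E).toRingHom.IsIntegralElem
      (aeval y h) := by
  have e : (aeval y : P4 k →ₐ[k] E).toRingHom.comp
      (rename ![(0 : Fin 4), 3] : MvPolynomial (Fin 2) k →ₐ[k] P4 k).toRingHom =
      (aeval ![y 0, y 3] : MvPolynomial (Fin 2) k →ₐ[k] E).toRingHom := by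
    refine ringHom_ext (fun c => by simp) fun i => ?_
    fin_cases i <;> simp
  refine exists_congr fun q => and_congr_right fun _ => ?_
  rw [hy, ← e]
  exact Eq.congr_left (Polynomial.hom_eval₂ q _ (aeval y : P4 k →ₐ[k] E).toRingHom h)

variable {k : Type u} [Field k] [IsAlgClosed k] {η : Fin 4 → PowerSeries k}

theorem cpe_sepX (p : ℕ) [Fact p.Prime] [CharP k p] (hW : Wr η ≠ 0) {E : Type u} [Field E]
    [Algebra k E] {x : Fin 4 → E} (hx : ∀ g : P4 k, g ∈ idl η k ↔ aeval x g = 0) {i : Fin 4}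
    (hi : i = 1 ∨ i = 2) (h : Itg (idl η k) (X i)) :
    IsSeparable (IntermediateField.adjoin k {x 0, x 3}) (x i) := by
  obtain ⟨D, φ, hD, m, hφ, mn⟩ := minp hW hi h
  have sp := sepp p hW hi hD m hφ mn
  let F := IntermediateField.adjoin k {x 0, x 3}
  let u : Fin 4 → F := ![⟨x 0, IntermediateField.subset_adjoin _ _ (by simp)⟩, 0, 0,
    ⟨x 3, IntermediateField.subset_adjoin _ _ (by simp)⟩]
  have ev : ∀ g ∈ supported k ({0, i, 3} : Set (Fin 4)),
      Polynomial.aeval (x i) (mp i g u) = aeval x g := fun g hg => by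
    have e1 := mp_map (i := i) (φ := g) F.val u
    rw [Polynomial.aeval_def, Polynomial.eval₂_eq_eval_map]
    refine (congrArg (Polynomial.eval (x i)) e1).trans ?_
    rw [mp_eval]
    refine sup_congr hg fun j hj => ?_
    rcases hi with rfl | rfl <;> rcases hj with rfl | rfl | rfl <;> simp [u]
  refine cpe_sep (mp_monic m.hom m.one u) ?_ ?_
  · rw [ev φ m.sup]
    exact (hx φ).1 hφ
  · rw [mp_deriv, ev _ (pderiv_sup m.sup i).1]
    exact fun e => sp ((hx _).2 e)

theorem pe (p : ℕ) [Fact p.Prime] [CharP k p] (hW : Wr η ≠ 0) (h1 : Itg (idl η k) (X 1))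
    (h2 : Itg (idl η k) (X 2)) : ∃ η' : Fin 4 → PowerSeries k, Eqv (idl η k) (idl η' k) ∧
      Wr η' ≠ 0 ∧ Itg (idl η' k) (X 1) ∧ Itg (idl η' k) (X 2) ∧
      ∃ (d0 : ℕ) (δ0 ψ : P4 k), δ0 ≠ 0 ∧ δ0.IsHomogeneous d0 ∧
        δ0 ∈ supported k ({0, 3} : Set (Fin 4)) ∧ ψ.IsHomogeneous (d0 + 1) ∧
        ψ ∈ supported k ({0, 1, 3} : Set (Fin 4)) ∧ δ0 * X 2 - ψ ∈ idl η' k := by
  have hP := idl_prime η k
  let E := FractionRing (P4 k ⧸ idl η k)
  let f : P4 k →ₐ[k] E := (IsScalarTower.toAlgHom k (P4 k ⧸ idl η k) E).comp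
    (Ideal.Quotient.mkₐ k (idl η k))
  obtain ⟨x, hx⟩ : ∃ x : Fin 4 → E, ∀ g : P4 k, g ∈ idl η k ↔ aeval x g = 0 := by
    refine ⟨fun j => f (X j), fun g => ?_⟩
    have e : (aeval fun j => f (X j)) g = f g := (DFunLike.congr_fun (aeval_unique f) g).symm
    rw [e]
    change _ ↔ algebraMap (P4 k ⧸ idl η k) E (Ideal.Quotient.mk _ g) = 0
    rw [map_eq_zero_iff _ (IsFractionRing.injective _ _), Ideal.Quotient.eq_zero_iff_mem]
  obtain ⟨c, hc⟩ := cpe_prim (k := k) (F := IntermediateField.adjoin k {x 0, x 3})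
    (fun c => ⟨algebraMap k _ c, rfl⟩) (cpe_sepX p hW hx (.inl rfl) h1)
    (cpe_sepX p hW hx (.inr rfl) h2)
  obtain ⟨e1, e2⟩ := shear_eqv η 2 ![0, c, 0, 0] rfl
  let y : Fin 4 → E := ![x 0, x 1 + algebraMap k E c * x 2, x 2, x 3]
  have hy : ∀ g : P4 k,
      g ∈ idl (fun j => η j + PowerSeries.C (![0, c, 0, 0] j) * η 2) k ↔ aeval y g = 0 := fun g => by
    rw [(e2 g).1, hx, ← AlgHom.comp_apply, comp_aeval]
    have : (fun j => aeval x (X j + C (![0, c, 0, 0] j) * X 2 : P4 k)) = y := by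
      funext j
      fin_cases j <;> simp [y]
    rw [this]
  have a1 := (cpe_itg hx _).1 h1
  have a2 := (cpe_itg hx _).1 h2
  rw [aeval_X] at a1 a2
  refine ⟨_, e1, ?_, (cpe_itg hy _).2 ?_, (cpe_itg hy _).2 ?_, ?_⟩
  · simpa [Wr] using hW
  · rw [aeval_X]
    have a3 := RingHom.isIntegralElem_map
      (f := (aeval ![x 0, x 3] : MvPolynomial (Fin 2) k →ₐ[k] E).toRingHom) (x := C c)
    have e : (aeval ![x 0, x 3] : MvPolynomial (Fin 2) k →ₐ[k] E).toRingHom (C c) =
        algebraMap k E c := aeval_C _ _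
    rw [e] at a3
    exact RingHom.IsIntegralElem.add _ a1 (RingHom.IsIntegralElem.mul _ a3 a2)
  · rw [aeval_X]
    exact a2
  · obtain ⟨δ, s1, ψ, s2, n0, e⟩ := cpe_den y (z := x 2) hc
    have m : δ * X 2 - ψ ∈ idl (fun j => η j + PowerSeries.C (![0, c, 0, 0] j) * η 2) k := by
      rw [hy, map_sub, map_mul, aeval_X, sub_eq_zero]
      exact e
    obtain ⟨d, hd⟩ : ∃ d, homogeneousComponent d δ ≠ 0 := by
      by_contra hn
      push Not at hn
      refine n0 ?_
      rw [← sum_homogeneousComponent δ]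
      simp [hn]
    refine ⟨d, _, homogeneousComponent (d + 1) ψ, hd, homogeneousComponent_isHomogeneous _ _,
      cpe_sup s1 d, homogeneousComponent_isHomogeneous _ _, cpe_sup s2 _, ?_⟩
    rw [← cpe_comp, ← map_sub]
    exact idl_comp _ k _ m _

end H39c

end PartH39cCPe

section PartH39cCHen

/-! Part C, row Hen: translation and Hensel lifting. -/

set_option autoImplicit false

open MvPolynomial

namespace H39c

universe u

section shear
variable {k : Type u} [Field k]

/-- the shear along `x0` -/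
noncomputable def chen_sh (e : Fin 4 → k) : P4 k →ₐ[k] P4 k :=
  aeval (fun j => (X j + C (e j) * X 0 : P4 k))

theorem chen_X (e : Fin 4 → k) (j : Fin 4) : chen_sh e (X j) = X j + C (e j) * X 0 := by
  simp [chen_sh]

theorem chen_hom (e : Fin 4 → k) {g : P4 k} {n : ℕ} (hg : g.IsHomogeneous n) :
    (chen_sh e g).IsHomogeneous n := by
  have := hg.aeval (fun j => (X j + C (e j) * X 0 : P4 k)) (n := 1) fun j =>
    (isHomogeneous_X k j).add ((isHomogeneous_X k 0).C_mul _)
  rwa [one_mul] at this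

theorem chen_sup (e : Fin 4 → k) {s : Set (Fin 4)} (hs : (0 : Fin 4) ∈ s) {g : P4 k}
    (hg : g ∈ supported k s) : chen_sh e g ∈ supported k s := by
  have : (supported k s).map (chen_sh e) ≤ supported k s := by
    rw [supported, AlgHom.map_adjoin]
    refine Algebra.adjoin_le ?_
    rintro _ ⟨_, ⟨j, hj, rfl⟩, rfl⟩
    rw [chen_X]
    refine Subalgebra.add_mem _ (Algebra.subset_adjoin ⟨j, hj, rfl⟩) (Subalgebra.mul_mem _ ?_
      (Algebra.subset_adjoin ⟨0, hs, rfl⟩))
    exact Subalgebra.algebraMap_mem _ (e j)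
  exact this ⟨g, hg, rfl⟩

theorem chen_eval (e v : Fin 4 → k) (g : P4 k) :
    eval v (chen_sh e g) = eval (fun j => v j + e j * v 0) g := by
  induction g using MvPolynomial.induction_on with
  | C r => simp [chen_sh]
  | add f g hf hg => simp only [map_add, hf, hg]
  | mul_X f i hf => simp only [map_mul, hf, chen_X, map_add, eval_X, eval_C]

theorem chen_inv (e : Fin 4 → k) (h0 : e 0 = 0) (g : P4 k) :
    chen_sh (fun j => -e j) (chen_sh e g) = g := by
  induction g using MvPolynomial.induction_on with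
  | C r => simp [chen_sh]
  | add f g hf hg => simp only [map_add, hf, hg]
  | mul_X f i hf =>
    have hC : chen_sh (fun j => -e j) (C (e i) : P4 k) = C (e i) := by simp [chen_sh]
    simp only [map_mul, hf, chen_X, map_add, hC, h0, neg_zero, map_zero, map_neg]
    ring

theorem chen_der (e : Fin 4 → k) (g : P4 k) :
    pderiv 1 (chen_sh e g) = chen_sh e (pderiv 1 g) := by
  induction g using MvPolynomial.induction_on with
  | C r => simp [chen_sh]
  | add f g hf hg => simp only [map_add, hf, hg]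
  | mul_X f i hf =>
    have h1 : pderiv 1 (X i + C (e i) * X 0 : P4 k) = chen_sh e (pderiv 1 (X i : P4 k)) := by
      by_cases h : i = 1
      · subst h; simp [pderiv_X]
      · simp [pderiv_X, h]
    rw [map_mul, chen_X, pderiv_mul, pderiv_mul, hf, h1, map_add, map_mul, map_mul, chen_X]

theorem chen_mon (e : Fin 4 → k) {i : Fin 4} (hi : i ≠ 0) {D : ℕ} {φ : P4 k} (h : Mon i D φ) :
    Mon i D (chen_sh e φ) := by
  refine ⟨chen_hom e h.hom, chen_sup e (by simp) h.sup, ?_⟩
  have e1 : (fun j => (Pi.single i 1 : Fin 4 → k) j + e j * (Pi.single i 1 : Fin 4 → k) 0) =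
      Pi.single i 1 := by
    funext j
    simp [Pi.single_eq_of_ne hi.symm]
  rw [chen_eval, e1, h.one]

end shear

variable {k : Type u} [Field k] [IsAlgClosed k] {D r d0 : ℕ} {φ φ2 δ0 ψ Δ b : P4 k}

theorem ch_trans {η : Fin 4 → PowerSeries k} (h : Ch (idl η k) D r d0 φ φ2 δ0 ψ Δ b)
    (hne : Δ * δ0 ≠ 0) : ∃ (η' : Fin 4 → PowerSeries k) (φ' φ2' δ0' ψ' Δ' b' : P4 k),
      Eqv (idl η k) (idl η' k) ∧ Ch (idl η' k) D r d0 φ' φ2' δ0' ψ' Δ' b' ∧
        eval ![1, 0, 0, 0] (Δ' * δ0') ≠ 0 := by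
  obtain ⟨⟨dΔ, hΔ⟩, sΔ⟩ := bin_iff.1 h.bΔ
  have hb : Bin (Δ * δ0) := bin_iff.2 ⟨⟨_, hΔ.mul h.hδ⟩, Subalgebra.mul_mem _ sΔ h.sδ⟩
  obtain ⟨q, q0, hq⟩ := bin_poly hb hne
  obtain ⟨c, hc⟩ : ∃ c : k, q.eval c ≠ 0 := by
    by_contra hn
    push Not at hn
    exact q0 (Polynomial.funext fun c => by rw [hn c, Polynomial.eval_zero])
  let cv : Fin 4 → k := ![0, 0, 0, -c]
  obtain ⟨e1, e2⟩ := shear_eqv η 0 cv rfl
  set η' : Fin 4 → PowerSeries k := fun j => η j + PowerSeries.C (cv j) * η 0 with hη'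
  have fw : ∀ g ∈ idl η k, chen_sh (fun j => -cv j) g ∈ idl η' k := fun g hg => by
    have := (e2 g).2.1 hg
    have e : (fun j => (X j - C (cv j) * X 0 : P4 k)) = fun j => X j + C (-cv j) * X 0 := by
      funext j; rw [map_neg]; ring
    rwa [e] at this
  have bw : ∀ g ∈ idl η' k, chen_sh cv g ∈ idl η k := fun g hg => (e2 g).1.1 hg
  refine ⟨η', chen_sh (fun j => -cv j) φ, chen_sh (fun j => -cv j) φ2,
    chen_sh (fun j => -cv j) δ0, chen_sh (fun j => -cv j) ψ, chen_sh (fun j => -cv j) Δ,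
    chen_sh (fun j => -cv j) b, e1,
    ⟨h.hD, h.hr, chen_mon _ (by decide) h.m1, fw _ h.i1, chen_mon _ (by decide) h.m2, fw _ h.i2,
      fun g gs gi => ?_, chen_hom _ h.hδ, chen_sup _ (by simp) h.sδ, chen_hom _ h.hψ,
      chen_sup _ (by simp) h.sψ, ?_, bin_iff.2 ⟨⟨_, chen_hom _ hΔ⟩, chen_sup _ (by simp) sΔ⟩, ?_⟩,
    ?_⟩
  · have := map_dvd (chen_sh (fun j => -cv j)) (h.min _ (chen_sup cv (by simp) gs) (bw g gi))
    rwa [chen_inv cv rfl] at this
  · have := fw _ h.i3
    rw [map_sub, map_mul, chen_X] at this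
    simpa [cv] using this
  · have := fw _ h.i4
    rwa [map_sub, map_mul, ← chen_der] at this
  · rw [← map_mul, chen_eval]
    have := hq k (fun j => (![1, 0, 0, 0] : Fin 4 → k) j + -cv j * (![1, 0, 0, 0] : Fin 4 → k) 0)
      (by simp [cv])
    rw [aeval_eq_eval] at this
    rw [this]
    simpa [cv] using hc

theorem hens {I : Ideal (P4 k)} (hI : I.IsPrime)
    (hc : ∀ h ∈ I, ∀ d, homogeneousComponent d h ∈ I) (h : Ch I D r d0 φ φ2 δ0 ψ Δ b)
    (hne : eval ![1, 0, 0, 0] (Δ * δ0) ≠ 0) :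
    ∃ ξ : Fin 4 → PowerSeries k, ξ 0 = 1 ∧ ξ 3 = PowerSeries.X ∧ idl ξ k = I := by
  obtain ⟨-, sΔ⟩ := bin_iff.1 h.bΔ
  rw [map_mul] at hne
  have nΔ : aeval (![1, 0, 0, 0] : Fin 4 → k) Δ ≠ 0 := by
    rw [aeval_eq_eval]; exact left_ne_zero_of_mul hne
  have nδ : aeval (![1, 0, 0, 0] : Fin 4 → k) δ0 ≠ 0 := by
    rw [aeval_eq_eval]; exact right_ne_zero_of_mul hne
  -- a simple root over `k`
  obtain ⟨t0, ht0⟩ := IsAlgClosed.exists_root (mp 1 φ (![1, 0, 0, 0] : Fin 4 → k)) (by
    rw [Polynomial.degree_eq_natDegree (mp_monic h.m1.hom h.m1.one _).ne_zero,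
      mp_deg h.m1.hom h.m1.one]
    exact_mod_cast h.hD.ne')
  rw [Polynomial.IsRoot, mp_eval] at ht0
  have c03 : ∀ {R : Type u} [CommRing R] [Algebra k R] {g : P4 k},
      g ∈ supported k ({0, 3} : Set (Fin 4)) → ∀ t z x : R,
      aeval (![1, t, z, x] : Fin 4 → R) g = aeval (![1, 0, 0, x] : Fin 4 → R) g :=
    fun hg t z x => sup_congr hg fun j hj => by
      rcases hj with rfl | rfl
      exacts [rfl, rfl]
  have c013 : ∀ {R : Type u} [CommRing R] [Algebra k R] {g : P4 k},
      g ∈ supported k ({0, 1, 3} : Set (Fin 4)) → ∀ t z x : R,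
      aeval (![1, t, z, x] : Fin 4 → R) g = aeval (![1, t, 0, x] : Fin 4 → R) g :=
    fun hg t z x => sup_congr hg fun j hj => by
      rcases hj with rfl | rfl | rfl
      exacts [rfl, rfl, rfl]
  -- points of the chart from a root
  have pt : ∀ {R : Type u} [CommRing R] [Algebra k R] (t x : R),
      aeval (![1, t, 0, x] : Fin 4 → R) φ = 0 → IsUnit (aeval (![1, 0, 0, x] : Fin 4 → R) δ0) →
      ∃ z : R, ∀ g ∈ I, aeval (![1, t, z, x] : Fin 4 → R) g = 0 := by
    intro R _ _ t x a1 a2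
    obtain ⟨w, hw⟩ := a2.exists_right_inv
    obtain ⟨z, hz⟩ : ∃ z, z = w * aeval (![1, t, 0, x] : Fin 4 → R) ψ := ⟨_, rfl⟩
    refine ⟨z, h.pt _ ?_ ?_ ?_⟩
    · rw [c013 h.m1.sup t z x, a1]
    · rw [c03 h.sδ t z x]; exact a2
    · rw [map_sub, map_mul, aeval_X, c03 h.sδ t z x, c013 h.sψ t z x]
      change _ * z - _ = 0
      rw [hz, ← mul_assoc, hw, one_mul, sub_self]
  have r0 : aeval (![1, t0, 0, 0] : Fin 4 → k) φ = 0 := by
    have e : Function.update (![1, 0, 0, 0] : Fin 4 → k) 1 t0 = ![1, t0, 0, 0] := by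
      funext j
      fin_cases j <;> simp
    rwa [e] at ht0
  obtain ⟨z0, hz0⟩ := pt t0 0 r0 nδ.isUnit
  have s1 : pderiv 1 φ ∈ supported k ({0, 1, 3} : Set (Fin 4)) := (pderiv_sup h.m1.sup 1).1
  have d0' : aeval (![1, t0, 0, 0] : Fin 4 → k) (pderiv 1 φ) ≠ 0 := fun e => by
    have := hz0 _ h.i4
    rw [map_sub, map_mul, c013 s1 t0 z0 0, e, mul_zero, sub_zero, c03 sΔ t0 z0 0] at this
    exact nΔ this
  -- Hensel
  have cc : ∀ (t : PowerSeries k) (g : P4 k), PowerSeries.constantCoeff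
      (aeval (![1, t, 0, PowerSeries.X] : Fin 4 → PowerSeries k) g) =
      aeval (![1, PowerSeries.constantCoeff t, 0, 0] : Fin 4 → k) g := fun t g => by
    rw [← eval_P1, aeval_eq_eval]
    congr 2
    funext j
    fin_cases j <;> simp [P1]
  have up : ∀ t : PowerSeries k,
      Function.update (![1, 0, 0, PowerSeries.X] : Fin 4 → PowerSeries k) 1 t =
        ![1, t, 0, PowerSeries.X] := fun t => by
    funext j
    fin_cases j <;> simp
  obtain ⟨t, ht, -⟩ := HenselianRing.is_henselian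
    (I := Ideal.span {(PowerSeries.X : PowerSeries k)})
    (mp 1 φ (![1, 0, 0, PowerSeries.X] : Fin 4 → PowerSeries k)) (mp_monic h.m1.hom h.m1.one _)
    (PowerSeries.C t0)
    (by rw [mp_eval, up, Ideal.mem_span_singleton, PowerSeries.X_dvd_iff, cc,
      PowerSeries.constantCoeff_C, r0])
    (by
      refine IsUnit.map _ ?_
      rw [mp_deriv, mp_eval, up, PowerSeries.isUnit_iff_constantCoeff, cc,
        PowerSeries.constantCoeff_C]
      exact d0'.isUnit)
  rw [Polynomial.IsRoot, mp_eval, up] at ht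
  obtain ⟨z, hz⟩ := pt t PowerSeries.X ht (by
    rw [PowerSeries.isUnit_iff_constantCoeff, cc, map_zero]
    exact nδ.isUnit)
  refine ⟨![1, t, z, PowerSeries.X], rfl, rfl, idl_eq _ hc fun g hg => ⟨hz g, fun e => ?_⟩⟩
  by_contra hn
  obtain ⟨N, g', N0, hN, hi⟩ := norm_ex hI hc h.m1 h.i1 h.m2 h.i2 hg hn
  obtain ⟨q, q0, hq⟩ := bin_poly hN N0
  have e1 := hz _ hi
  rw [map_sub, map_mul, e, mul_zero, sub_zero, hq _ _ rfl] at e1
  have e2 : Polynomial.aeval (PowerSeries.X : PowerSeries k) q = (q : PowerSeries k) := by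
    clear q0 hq e1
    induction q using Polynomial.induction_on' with
    | add f g hf hg => rw [map_add, Polynomial.coe_add, hf, hg]
    | monomial n c =>
      rw [Polynomial.aeval_monomial, ← Polynomial.C_mul_X_pow_eq_monomial, Polynomial.coe_mul,
        Polynomial.coe_pow, Polynomial.coe_X, Polynomial.coe_C]
      rfl
  apply q0
  rw [← Polynomial.coe_eq_zero_iff, ← e2]
  exact e1

end H39c

end PartH39cCHen

section PartH39cCTop

/-! Part C, row Top: assembly. -/

set_option autoImplicit false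

open MvPolynomial

namespace H39c

universe u

theorem good_of {k : Type u} [Field k] [IsAlgClosed k] {ξ : Fin 4 → PowerSeries k} {D r d0 : ℕ}
    {φ φ2 δ0 ψ Δ b : P4 k} (h : Nch ξ D r d0 φ φ2 δ0 ψ Δ b) : ∃ c, Good ξ D c (Δ * δ0) := by
  obtain ⟨c, hc⟩ := zero_of h
  exact ⟨c,
    { h0 := h.h0, h3 := h.h3, hD := h.ch.hD
      prime := fun L _ _ => idl_prime ξ L
      mem := fun L _ _ g hg => idl_mem ξ L g hg
      comp := fun L _ _ g hg d => idl_comp ξ L g hg d
      ev := fun L R _ _ _ _ _ _ v hv => idl_ev ξ L R v hv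
      coneV := fun L _ _ => cone_V ξ L
      spanmap := fun L _ _ => idl_span ξ L
      ncz := fun L _ _ => ncz_of h L
      maxv := maxv_of h
      form := form_of h
      finz := finz_of h
      δbin := δbin_of h
      δP1 := δP1_of h
      bir := fun L _ _ => bir_of h L
      prim := prim_of h
      tan := fun L _ _ => tan_of h L
      tanf := tanf_of h
      loc := fun L _ _ => loc_of h L
      alg := fun L _ _ => alg_of h L
      inj := fun L M _ _ _ _ _ _ => inj_of h L M
      spec := fun L R _ _ _ _ _ _ => spec_of h.h0 L R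
      zero := hc }⟩

theorem c_part : C_s.{u} := by
  intro k _ _ p _ _ P hP hd hc
  obtain ⟨η0, e0, w0⟩ := pre p P hP hd hc
  obtain ⟨η1, e1, w1, a1, a2⟩ := noeth η0 w0 (e0.tr (tr3 P hP hd))
  obtain ⟨η2, e2, w2, b1, b2, d0, δ0, ψ, n0, hδ, sδ, hψ, sψ, i3⟩ := pe p w1 a1 a2
  obtain ⟨D, φ, hD, m1, i1, mn⟩ := minp w2 (.inl rfl) b1
  obtain ⟨r, φ2, hr, m2, i2, -⟩ := minp w2 (.inr rfl) b2
  obtain ⟨Δ, b, n1, bΔ, i4⟩ := norm_ex (idl_prime η2 k) (idl_comp η2 k) m1 i1 m2 i2
    ⟨D - 1, m1.hom.pderiv⟩ (sepp p w2 (.inl rfl) hD m1 i1 mn)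
  obtain ⟨η3, φ', φ2', δ0', ψ', Δ', b', e3, ch, ne⟩ := ch_trans (η := η2)
    ⟨hD, hr, m1, i1, m2, i2, mn, hδ, sδ, hψ, sψ, i3, bΔ, i4⟩ (mul_ne_zero n1 n0)
  obtain ⟨ξ, h0, h3, e4⟩ := hens (idl_prime η3 k) (idl_comp η3 k) ch ne
  obtain ⟨c, hg⟩ := good_of (ξ := ξ) ⟨h0, h3, e4 ▸ ch, ne⟩
  obtain ⟨A, hA, hPA⟩ := ((e0.trans e1).trans e2).trans e3
  exact ⟨A, ξ, D, c, Δ' * δ0', hA, hg, e4 ▸ hPA⟩

end H39c

end PartH39cCTop
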