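import Pool.Agent.MP_b04567_ag.Cp.Base

section PartH62eDefs

set_option autoImplicit false

open MvPolynomial H39c

namespace H62e

universe u

/-- weighted scaling of a point -/
def sc {L σ : Type*} [CommRing L] (w : σ → ℕ) (t : L) (x : σ → L) : σ → L :=
  fun i => t ^ w i * x i

/-- normalised point of the weighted plane -/
def Nm {K : Type u} [Field K] (R : Fin 3 → K) : Prop := R 0 = 1 ∨ (R 0 = 0 ∧ R 1 = 1)

/-- `∑ b i r * μ^i * ν^r` -/
noncomputable def low {K : Type u} [Field K] {L : Type u} [CommRing L] [Algebra K L] (p A : ℕ)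
    (b : ℕ → ℕ → P3 K) (R : Fin 3 → L) (μ ν : L) : L :=
  ∑ i ∈ Finset.range (A + 1), ∑ r ∈ Finset.range p, aeval R (b i r) * μ ^ i * ν ^ r

/-- the relation `c * u0 = ∑ g r * eps^r` for `u0 = F^(p-1)/D^p`, `eps = E/D` -/
def Idn {K : Type u} [Field K] (p : ℕ) (F D E c : P3 K) (g : ℕ → P3 K) : Prop :=
  c * F ^ (p - 1) = ∑ r ∈ Finset.range (p + 1), g r * E ^ r * D ^ (p - r)

/-- a relation whose top coefficient does not vanish at `R` -/
def Lead {K : Type u} [Field K] (p : ℕ) (F D E : P3 K) (R : Fin 3 → K) : Prop :=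
  ∃ (c : P3 K) (g : ℕ → P3 K) (j : ℕ), Idn p F D E c g ∧ 1 ≤ j ∧ j ≤ p ∧ eval R (g j) ≠ 0 ∧
    ∀ r, j < r → g r = 0

/-- `E/D` has the value `ρ` at `v` -/
def Has {K : Type u} [Field K] (I : Ideal (P4 K)) (a : Fin 3 → P4 K) (D E : P3 K)
    (v : Fin 4 → K) (ρ : K) : Prop :=
  ∃ h1 h2 : P4 K, eval v h1 ≠ 0 ∧ h1 * aeval a E - h2 * aeval a D ∈ I ∧ eval v h2 = ρ * eval v h1

/-- OUTPUT of helper14's part (chart form). -/
structure Loc {K : Type u} [Field K] (p : ℕ) (I : Ideal (P4 K)) (Q : ℕ) (a : Fin 3 → P4 K)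
    (F D E : P3 K) (n' d e θ : ℕ) : Prop where
  hD : D.IsWeightedHomogeneous (wt Q) d
  hE : E.IsWeightedHomogeneous (wt Q) e
  nD : ¬ F ∣ D
  hθ : (p - 1) * (n' * Q) = p * d + θ
  lo : p ^ 2 < θ
  hi : θ ≤ p ^ 2 + p
  node : ∀ v v', Node I a v v' → eval v (a 0) = 1 →
    ∃ (c : P3 K) (g : ℕ → P3 K) (ρ ρ' : K), eval (val3 a v) c ≠ 0 ∧ eval (val3 a v) (g p) ≠ 0 ∧
      ρ ≠ ρ' ∧
      (X 0 - 1 : P3 K) ∣ c * F ^ (p - 1) - ∑ r ∈ Finset.range (p + 1), g r * E ^ r * D ^ (p - r) ∧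
      (∀ t : K, ∑ r ∈ Finset.range (p + 1), eval (val3 a v) (g r) * t ^ r = 0 ↔ t = ρ ∨ t = ρ') ∧
      Has I a D E v ρ ∧ Has I a D E v' ρ'

/-- helper14's part: same hypotheses as `E_s`. -/
def LOC_s (p : ℕ) : Prop := ∀ (K : Type u) [Field K] [IsAlgClosed K] [Fact p.Prime] [CharP K p]
  (I : Ideal (P4 K)) (m Q : ℕ) (a : Fin 3 → P4 K) (F Γ : P3 K) (n' γ n c : ℕ),
  Plane p I m Q a F n' → Nodal I Q a Γ γ →
  100 * p * γ ≤ n' * Q → 100 * c ≤ n' → 10 * n ≤ 11 * n' → 100 * p ^ 2 ≤ n' →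
  (∀ (g : P3 K) (j : ℕ), g.IsWeightedHomogeneous (wt Q) j → ¬ F ∣ g →
    ∀ T : Finset (Fin 4 → K), (∀ v ∈ T, v ∈ V I ∧ eval v (a 0) = 1 ∧ eval (val3 a v) g = 0) →
      T.card ≤ n * j + c) →
  ∃ (D E : P3 K) (d e θ : ℕ), Loc p I Q a F D E n' d e θ

/-- `Loc` after homogenising and padding `E`. -/
structure Loc2 {K : Type u} [Field K] (p : ℕ) (I : Ideal (P4 K)) (Q : ℕ) (a : Fin 3 → P4 K)
    (F D E : P3 K) (n' d s θ : ℕ) : Prop where
  hD : D.IsWeightedHomogeneous (wt Q) d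
  hE : E.IsWeightedHomogeneous (wt Q) (d + s)
  nD : ¬ F ∣ D
  hθ : (p - 1) * (n' * Q) = p * d + θ
  lo : p ^ 2 < θ
  hi : θ ≤ p ^ 2 + p
  sθ : θ ≤ s
  lead : ∀ R : Fin 3 → K, R ≠ 0 → Lead p F D E R
  node : ∀ v v', Node I a v v' → eval v (a 0) = 1 →
    ∃ (c : P3 K) (g : ℕ → P3 K) (ρ ρ' : K), eval (val3 a v) c ≠ 0 ∧ eval (val3 a v) (g p) ≠ 0 ∧
      ρ ≠ ρ' ∧ Idn p F D E c g ∧
      (∀ t : K, ∑ r ∈ Finset.range (p + 1), eval (val3 a v) (g r) * t ^ r = 0 ↔ t = ρ ∨ t = ρ') ∧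
      Has I a D E v ρ ∧ Has I a D E v' ρ'

/-- the relations satisfied by the values `(R, τ, μ, ν)` of `(X, T, u0, eps)` -/
structure Rel {K : Type u} [Field K] (p κ A : ℕ) (F D E Λ : P3 K) (b : ℕ → ℕ → P3 K)
    (R : Fin 3 → K) (τ μ ν : K) : Prop where
  lin : ∀ (c : P3 K) (g : ℕ → P3 K), Idn p F D E c g →
    eval R c * μ = ∑ r ∈ Finset.range (p + 1), eval R (g r) * ν ^ r
  top : eval R Λ * (τ - low p A b R μ ν) = μ ^ κ

/-- the relations satisfied by the values `(v, ν)` of `(x, eps)` on the curve -/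
def Val {K : Type u} [Field K] (I : Ideal (P4 K)) (a : Fin 3 → P4 K) (D E : P3 K)
    (v : Fin 4 → K) (ν : K) : Prop :=
  ∀ h1 h2 : P4 K, h1 * aeval a E - h2 * aeval a D ∈ I → eval v h1 * ν = eval v h2

/-- what the interpolated `Λ`, `b` give at a node -/
def Nd {K : Type u} [Field K] (p κ A : ℕ) (F D E Λ : P3 K) (b : ℕ → ℕ → P3 K)
    (I : Ideal (P4 K)) (a : Fin 3 → P4 K) (N : ℕ) (v v' : Fin 4 → K) : Prop :=
  ∃ ρ ρ' : K, (∀ ν, Val I a D E v ν → ν = ρ) ∧ (∀ ν, Val I a D E v' ν → ν = ρ') ∧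
    (∀ τ ν, Rel p κ A F D E Λ b (val3 a v) τ 0 ν → ν = ρ ∨ ν = ρ') ∧
    (∀ τ μ ν μ' ν', Rel p κ A F D E Λ b (val3 a v) τ μ ν → Rel p κ A F D E Λ b (val3 a v) τ μ' ν' →
      low p A b (val3 a v) μ ν = low p A b (val3 a v) μ' ν') ∧
    low p A b (val3 a v) 0 ρ - low p A b (val3 a v) 0 ρ' = v 0 ^ N - v' 0 ^ N

/-- the weights -/
structure Wts {K : Type u} [Field K] (p Q : ℕ) (F D E Λ : P3 K) (b : ℕ → ℕ → P3 K)
    (n d s θ κ A M : ℕ) : Prop where
  Qpos : 0 < Q
  hF : F.IsWeightedHomogeneous (wt Q) n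
  hD : D.IsWeightedHomogeneous (wt Q) d
  hE : E.IsWeightedHomogeneous (wt Q) (d + s)
  hθ : (p - 1) * n = p * d + θ
  sθ : θ ≤ s
  hM : ∃ i, M = p ^ i
  hκ : A + p ≤ κ
  hΛ : ∃ l, Λ.IsWeightedHomogeneous (wt Q) l ∧ M + l = θ * κ
  hb : ∀ i, i ≤ A → ∀ r, r < p → ∃ j, 0 < j ∧ (b i r).IsWeightedHomogeneous (wt Q) j ∧
    j + i * θ + r * s = M

/-- the whole system (nodes with `a 0 = 1` only) -/
structure Sys {K : Type u} [Field K] (p : ℕ) (I : Ideal (P4 K)) (m Q : ℕ) (a : Fin 3 → P4 K)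
    (F D E Λ : P3 K) (b : ℕ → ℕ → P3 K) (n d s θ κ A M : ℕ) : Prop where
  wts : Wts p Q F D E Λ b n d s θ κ A M
  nD : ¬ F ∣ D
  nΛ : ¬ F ∣ Λ
  lead : ∀ R : Fin 3 → K, R ≠ 0 → Lead p F D E R
  off : ∀ R : Fin 3 → K, eval R F = 0 → eval R D = 0 →
    (∀ i, i ≤ A → ∀ r, r < p → eval R (b i r) = 0) ∨ ∃ v v', Node I a v v' ∧ val3 a v = R
  node : ∀ v v', Node I a v v' → eval v (a 0) = 1 → Nd p κ A F D E Λ b I a (m * M) v v'

/-- scaling of a weighted form -/
def SCALE_s : Prop := ∀ (K L : Type u) [Field K] [CommRing L] [Algebra K L] (k : ℕ)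
  (w : Fin k → ℕ) (f : MvPolynomial (Fin k) K) (n : ℕ), f.IsWeightedHomogeneous w n →
  ∀ (t : L) (x : Fin k → L), aeval (sc w t x) f = t ^ n * aeval x f

/-- a polynomial that scales like a form at `x` has the value of its component -/
def VAND_s : Prop := ∀ (K : Type u) [Field K] [IsAlgClosed K] (k : ℕ) (w : Fin k → ℕ)
  (f : MvPolynomial (Fin k) K) (N : ℕ) (x : Fin k → K) (y : K),
  (∀ t : K, t ≠ 0 → eval (sc w t x) f = t ^ N * y) →
  eval x (weightedHomogeneousComponent w N f) = y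

/-- factors of weighted forms -/
def FACT_s : Prop := ∀ (K : Type u) [Field K] (k : ℕ) (w : Fin k → ℕ)
  (f g : MvPolynomial (Fin k) K) (n : ℕ), f.IsWeightedHomogeneous w n → f ≠ 0 → g ∣ f →
  ∃ j, g.IsWeightedHomogeneous w j

/-- value interpolation in the weighted plane -/
def INTERP_s : Prop := ∀ (K : Type u) [Field K] (Q : ℕ) (Y : Finset (Fin 3 → K)),
  (∀ R ∈ Y, Nm R) → ∃ N0 : ℕ, ∀ N, N0 ≤ N → ∀ val : (Fin 3 → K) → K,
    ∃ g : P3 K, g.IsWeightedHomogeneous (wt Q) N ∧ ∀ R ∈ Y, eval R g = val R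

/-- homogenisation in the chart `X 0 = 1` -/
def HOMG_s : Prop := ∀ (K : Type u) [Field K] (Q : ℕ),
  (∀ g : P3 K, ∃ N0 : ℕ, ∀ N, N0 ≤ N → ∃ g' : P3 K, g'.IsWeightedHomogeneous (wt Q) N ∧
    (X 0 - 1 : P3 K) ∣ g' - g) ∧
  (∀ (g : P3 K) (N : ℕ), g.IsWeightedHomogeneous (wt Q) N → (X 0 - 1 : P3 K) ∣ g → g = 0)

/-- the cone is finite over the plane -/
def FINI_s (p : ℕ) : Prop := ∀ (K : Type u) [Field K] [IsAlgClosed K]
  (I : Ideal (P4 K)) (m Q : ℕ) (a : Fin 3 → P4 K) (F : P3 K) (n' : ℕ), 0 < p →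
  Plane p I m Q a F n' →
  ((Ideal.Quotient.mkₐ K I).comp (aeval a : P3 K →ₐ[K] P4 K)).toRingHom.Finite ∧
  (∀ R : Fin 3 → K, eval R F = 0 ↔ ∃ v ∈ V I, val3 a v = R)

/-- normalised points of `F = 0` -/
def NORM_s (p : ℕ) : Prop := ∀ (K : Type u) [Field K] [IsAlgClosed K]
  (I : Ideal (P4 K)) (m Q : ℕ) (a : Fin 3 → P4 K) (F : P3 K) (n' : ℕ), 0 < p →
  Plane p I m Q a F n' →
  (∀ R : Fin 3 → K, R ≠ 0 → eval R F = 0 →
    ∃ (t : K) (R' : Fin 3 → K), t ≠ 0 ∧ Nm R' ∧ eval R' F = 0 ∧ R = sc (wt Q) t R') ∧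
  (∃ R : Fin 3 → K, Nm R ∧ eval R F = 0) ∧
  {R : Fin 3 → K | R 0 = 0 ∧ R 1 = 1 ∧ eval R F = 0}.Finite

/-- `F = D = 0` has finitely many normalised points -/
def FINZ_s (p : ℕ) : Prop := FINI_s.{u} p → NORM_s.{u} p →
  ∀ (K : Type u) [Field K] [IsAlgClosed K]
  (I : Ideal (P4 K)) (m Q : ℕ) (a : Fin 3 → P4 K) (F D : P3 K) (n' B : ℕ), 0 < p →
  Plane p I m Q a F n' →
  (∀ T : Finset (Fin 4 → K), (∀ v ∈ T, v ∈ V I ∧ eval v (a 0) = 1 ∧ eval (val3 a v) D = 0) →
      T.card ≤ B) →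
  {R : Fin 3 → K | Nm R ∧ eval R F = 0 ∧ eval R D = 0}.Finite

/-- homogenise, multiply `E` by `χ^N`, relations at every point -/
def CHO1_s (p : ℕ) : Prop := SCALE_s.{u} → INTERP_s.{u} → HOMG_s.{u} → NORM_s.{u} p →
  ∀ (K : Type u) [Field K] [IsAlgClosed K] [Fact p.Prime]
  (I : Ideal (P4 K)) (m Q : ℕ) (a : Fin 3 → P4 K) (F D E : P3 K) (n' d e θ : ℕ),
  Plane p I m Q a F n' → (∀ v v', Node I a v v' → eval v (a 0) ≠ 0) →
  Loc p I Q a F D E n' d e θ →
  {R : Fin 3 → K | Nm R ∧ eval R F = 0 ∧ eval R D = 0}.Finite →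
  ∃ (E' : P3 K) (s : ℕ), Loc2 p I Q a F D E' n' d s θ

/-- one node: the values of `Λ` and `b` -/
def ONE_s (p : ℕ) : Prop := ∀ (K : Type u) [Field K] [IsAlgClosed K] [Fact p.Prime] [CharP K p]
  (I : Ideal (P4 K)) (a : Fin 3 → P4 K) (F D E c : P3 K) (g : ℕ → P3 K) (ρ ρ' : K)
  (j A N : ℕ) (v v' : Fin 4 → K), Node I a v v' → v 0 ^ N ≠ v' 0 ^ N →
  (p - 1) * p ^ j < p * (A + 1) →
  eval (val3 a v) c ≠ 0 → eval (val3 a v) (g p) ≠ 0 → ρ ≠ ρ' → Idn p F D E c g →
  (∀ t : K, ∑ r ∈ Finset.range (p + 1), eval (val3 a v) (g r) * t ^ r = 0 ↔ t = ρ ∨ t = ρ') →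
  Has I a D E v ρ → Has I a D E v' ρ' →
  ∃ (l : K) (β : ℕ → ℕ → K), l ≠ 0 ∧ ∀ (Λ : P3 K) (b : ℕ → ℕ → P3 K),
    eval (val3 a v) Λ = l → (∀ i, i ≤ A → ∀ r, r < p → eval (val3 a v) (b i r) = β i r) →
    Nd p (p ^ j) A F D E Λ b I a N v v'

/-- scaling of `Rel` and `low` -/
def SC1_s (p : ℕ) : Prop := SCALE_s.{u} → ∀ (K : Type u) [Field K] (Q : ℕ) (F D E Λ : P3 K)
  (b : ℕ → ℕ → P3 K) (n d s θ κ A M : ℕ), 0 < p → Wts p Q F D E Λ b n d s θ κ A M →
  ∀ (R : Fin 3 → K) (t : K), t ≠ 0 →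
  (∀ μ ν, low p A b (sc (wt Q) t R) (t ^ θ * μ) (t ^ s * ν) = t ^ M * low p A b R μ ν) ∧
  (∀ τ μ ν, Rel p κ A F D E Λ b R τ μ ν →
    Rel p κ A F D E Λ b (sc (wt Q) t R) (t ^ M * τ) (t ^ θ * μ) (t ^ s * ν))

/-- scaling on the curve -/
def SC2_s (p : ℕ) : Prop := SCALE_s.{u} → ∀ (K : Type u) [Field K]
  (I : Ideal (P4 K)) (m Q : ℕ) (a : Fin 3 → P4 K) (F D E : P3 K) (n' d s : ℕ),
  Plane p I m Q a F n' → D.IsWeightedHomogeneous (wt Q) d →
  E.IsWeightedHomogeneous (wt Q) (d + s) → ∀ (v : Fin 4 → K) (t : K), t ≠ 0 →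
  val3 a (t • v) = sc (wt Q) (t ^ m) (val3 a v) ∧ (v ∈ V I → t • v ∈ V I) ∧
  ∀ ν, Val I a D E v ν → Val I a D E (t • v) ((t ^ m) ^ s * ν)

/-- choice of `κ`, `Λ`, `b` -/
def CHO2_s (p : ℕ) : Prop := SCALE_s.{u} → INTERP_s.{u} → NORM_s.{u} p → ONE_s.{u} p →
  SC2_s.{u} p →
  ∀ (K : Type u) [Field K] [IsAlgClosed K] [Fact p.Prime] [CharP K p]
  (I : Ideal (P4 K)) (m Q : ℕ) (a : Fin 3 → P4 K) (F D E : P3 K) (n' d s θ : ℕ),
  Plane p I m Q a F n' →
  (∀ v v', Node I a v v' → ∀ v'' ∈ V I, val3 a v'' = val3 a v → v'' = v ∨ v'' = v') →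
  (∀ v v', Node I a v v' → v 0 ≠ v' 0) →
  Loc2 p I Q a F D E n' d s θ →
  {R : Fin 3 → K | Nm R ∧ eval R F = 0 ∧ eval R D = 0}.Finite →
  ∃ (Λ : P3 K) (b : ℕ → ℕ → P3 K) (κ A M : ℕ), Sys p I m Q a F D E Λ b (n' * Q) d s θ κ A M

/-- all nodes, and `low` is determined by `(R, τ)` -/
def ALL_s (p : ℕ) : Prop := SC1_s.{u} p → SC2_s.{u} p → SCALE_s.{u} →
  ∀ (K : Type u) [Field K] [IsAlgClosed K] [Fact p.Prime]
  (I : Ideal (P4 K)) (m Q : ℕ) (a : Fin 3 → P4 K) (F D E Λ : P3 K) (b : ℕ → ℕ → P3 K)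
  (n' d s θ κ A M : ℕ), Plane p I m Q a F n' → (∀ v v', Node I a v v' → eval v (a 0) ≠ 0) →
  Sys p I m Q a F D E Λ b (n' * Q) d s θ κ A M →
  (∀ v v', Node I a v v' → Nd p κ A F D E Λ b I a (m * M) v v') ∧
  (∀ R τ μ ν μ' ν', Rel p κ A F D E Λ b R τ μ ν → Rel p κ A F D E Λ b R τ μ' ν' →
    low p A b R μ ν = low p A b R μ' ν')

/-- valuation bound `v(eps) ≤ max(1, v(u0))` -/
def K1_s (p : ℕ) : Prop := SCALE_s.{u} → ∀ (K : Type u) [Field K] [IsAlgClosed K]
  (Q : ℕ) (F D E : P3 K) (n d s θ : ℕ), 0 < p → 0 < Q →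
  F.IsWeightedHomogeneous (wt Q) n → D.IsWeightedHomogeneous (wt Q) d →
  E.IsWeightedHomogeneous (wt Q) (d + s) → (p - 1) * n = p * d + θ → θ ≤ s →
  (∀ R : Fin 3 → K, R ≠ 0 → Lead p F D E R) →
  ∀ (L : Type u) [Field L] [IsAlgClosed L] [Algebra K L] (W : ValuationSubring L),
  (∀ c : K, algebraMap K L c ∈ W) → ∀ (ξ : Fin 3 → L), (∀ i, ξ i ∈ W) → aeval ξ D ≠ 0 →
  W.valuation (aeval ξ E / aeval ξ D) ≤
    max 1 (W.valuation (aeval ξ F ^ (p - 1) / aeval ξ D ^ p))

/-- integrality -/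
def INT_s (p : ℕ) : Prop := K1_s.{u} p → SCALE_s.{u} → ∀ (K : Type u) [Field K] [IsAlgClosed K]
  (Q : ℕ) (F D E Λ : P3 K) (b : ℕ → ℕ → P3 K) (n d s θ κ A M : ℕ), 0 < p →
  Wts p Q F D E Λ b n d s θ κ A M → (∀ R : Fin 3 → K, R ≠ 0 → Lead p F D E R) →
  ∀ (L : Type u) [Field L] [Algebra K L] (ξ : Fin 3 → L) (μ ν T : L), aeval ξ D ≠ 0 →
  aeval ξ D ^ p * μ = aeval ξ F ^ (p - 1) → aeval ξ D * ν = aeval ξ E →
  aeval ξ Λ * (T - low p A b ξ μ ν) = μ ^ κ →
  IsIntegral (Algebra.adjoin K (insert μ (Set.range ξ))) ν ∧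
  IsIntegral (Algebra.adjoin K (insert T (Set.range ξ))) μ ∧
  IsIntegral (Algebra.adjoin K (insert T (Set.range ξ))) ν

/-- the surface `G1 = 0` is the closure of the graph of `T = B / A` -/
def KER_s : Prop := FACT_s.{u} → ∀ (K : Type u) [Field K] (Q M α : ℕ) (A B : P3 K), A ≠ 0 →
  A.IsWeightedHomogeneous (wt Q) α → B.IsWeightedHomogeneous (wt Q) (α + M) →
  ∀ (T : FractionRing (P3 K)), algebraMap (P3 K) _ A * T = algebraMap (P3 K) _ B →
  ∃ (G : P4 K) (N : ℕ), G.IsWeightedHomogeneous ![1, 1, Q, M] N ∧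
    (∀ H : P4 K, aeval ![algebraMap (P3 K) _ (X 0), algebraMap (P3 K) _ (X 1),
      algebraMap (P3 K) _ (X 2), T] H = 0 ↔ G ∣ H) ∧
    ∀ (R : Fin 3 → K) (τ : K), eval R A ≠ 0 → eval R A * τ = eval R B →
      eval ![R 0, R 1, R 2, τ] G = 0

/-- the two surfaces, second one not yet homogeneous -/
def SURF1_s (p : ℕ) : Prop := INT_s.{u} p → K1_s.{u} p → SCALE_s.{u} → KER_s.{u} → FACT_s.{u} →
  ∀ (K : Type u) [Field K] [IsAlgClosed K] [Fact p.Prime] [CharP K p]
  (Q : ℕ) (F D E Λ : P3 K) (b : ℕ → ℕ → P3 K) (n d s θ κ A M : ℕ),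
  Wts p Q F D E Λ b n d s θ κ A M → D ≠ 0 → Λ ≠ 0 → (∀ R : Fin 3 → K, R ≠ 0 → Lead p F D E R) →
  (∀ R τ μ ν μ' ν', Rel p κ A F D E Λ b R τ μ ν → Rel p κ A F D E Λ b R τ μ' ν' →
    low p A b R μ ν = low p A b R μ' ν') →
  ∃ (G1 G2 : P4 K) (N q : ℕ), 0 < q ∧ G1.IsWeightedHomogeneous ![1, 1, Q, M] N ∧
    (∀ (R : Fin 3 → K) (τ : K), eval ![R 0, R 1, R 2, τ] G1 = 0 → ∃ μ ν,
      Rel p κ A F D E Λ b R τ μ ν ∧ eval ![R 0, R 1, R 2, τ] G2 = (τ - low p A b R μ ν) ^ q) ∧
    (∀ (R : Fin 3 → K) (τ μ ν : K), eval R D ≠ 0 → eval R Λ ≠ 0 →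
      Rel p κ A F D E Λ b R τ μ ν → eval ![R 0, R 1, R 2, τ] G1 = 0)

/-- what is used about the two surfaces -/
structure Surf {K : Type u} [Field K] (p Q κ A M : ℕ) (F D E Λ : P3 K) (b : ℕ → ℕ → P3 K)
    (G1 G2 : P4 K) : Prop where
  h1 : ∃ N, G1.IsWeightedHomogeneous ![1, 1, Q, M] N
  h2 : ∃ N, G2.IsWeightedHomogeneous ![1, 1, Q, M] N
  sub : ∀ (R : Fin 3 → K) (τ : K), eval ![R 0, R 1, R 2, τ] G1 = 0 →
    eval ![R 0, R 1, R 2, τ] G2 = 0 → ∃ ν, Rel p κ A F D E Λ b R τ 0 ν ∧ τ = low p A b R 0 ν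
  sup : ∀ (R : Fin 3 → K) (ν : K), eval R F = 0 → eval R D ≠ 0 → eval R Λ ≠ 0 →
    eval R D * ν = eval R E → eval ![R 0, R 1, R 2, low p A b R 0 ν] G1 = 0 ∧
      eval ![R 0, R 1, R 2, low p A b R 0 ν] G2 = 0

/-- take the component of `G2` -/
def SURF2_s (p : ℕ) : Prop := SC1_s.{u} p → SCALE_s.{u} → VAND_s.{u} →
  ∀ (K : Type u) [Field K] [IsAlgClosed K] [Fact p.Prime]
  (Q : ℕ) (F D E Λ : P3 K) (b : ℕ → ℕ → P3 K) (n d s θ κ A M : ℕ),
  Wts p Q F D E Λ b n d s θ κ A M →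
  (∀ R τ μ ν μ' ν', Rel p κ A F D E Λ b R τ μ ν → Rel p κ A F D E Λ b R τ μ' ν' →
    low p A b R μ ν = low p A b R μ' ν') →
  ∀ (G1 G2 : P4 K) (N q : ℕ), 0 < q → G1.IsWeightedHomogeneous ![1, 1, Q, M] N →
    (∀ (R : Fin 3 → K) (τ : K), eval ![R 0, R 1, R 2, τ] G1 = 0 → ∃ μ ν,
      Rel p κ A F D E Λ b R τ μ ν ∧ eval ![R 0, R 1, R 2, τ] G2 = (τ - low p A b R μ ν) ^ q) →
    (∀ (R : Fin 3 → K) (τ μ ν : K), eval R D ≠ 0 → eval R Λ ≠ 0 →
      Rel p κ A F D E Λ b R τ μ ν → eval ![R 0, R 1, R 2, τ] G1 = 0) →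
  ∃ G2' : P4 K, Surf p Q κ A M F D E Λ b G1 G2'

/-- `x0^(mM) - low` is single valued on the fibres -/
def SV_s (p : ℕ) : Prop := ∀ (K : Type u) [Field K]
  (I : Ideal (P4 K)) (m Q : ℕ) (a : Fin 3 → P4 K) (F D E Λ : P3 K) (b : ℕ → ℕ → P3 K)
  (n' d s θ κ A M : ℕ), Plane p I m Q a F n' → Sys p I m Q a F D E Λ b (n' * Q) d s θ κ A M →
  (∀ v v', Node I a v v' → Nd p κ A F D E Λ b I a (m * M) v v') →
  ∀ v ∈ V I, ∀ v' ∈ V I, val3 a v = val3 a v' → ∀ ν ν', Val I a D E v ν → Val I a D E v' ν' →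
    v 0 ^ (m * M) - low p A b (val3 a v) 0 ν = v' 0 ^ (m * M) - low p A b (val3 a v') 0 ν'

/-- link to the curve, `h` not yet homogeneous -/
def LINK1_s (p : ℕ) : Prop := INT_s.{u} p → K1_s.{u} p → SCALE_s.{u} → FINI_s.{u} p →
  ∀ (K : Type u) [Field K] [IsAlgClosed K] [Fact p.Prime] [CharP K p]
  (I : Ideal (P4 K)) (m Q : ℕ) (a : Fin 3 → P4 K) (F D E Λ : P3 K) (b : ℕ → ℕ → P3 K)
  (n' d s θ κ A M : ℕ) (G1 G2 : P4 K), Plane p I m Q a F n' →
  Sys p I m Q a F D E Λ b (n' * Q) d s θ κ A M → Surf p Q κ A M F D E Λ b G1 G2 →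
  (∀ v ∈ V I, ∀ v' ∈ V I, val3 a v = val3 a v' → ∀ ν ν', Val I a D E v ν → Val I a D E v' ν' →
    v 0 ^ (m * M) - low p A b (val3 a v) 0 ν = v' 0 ^ (m * M) - low p A b (val3 a v') 0 ν') →
  ∃ (e : ℕ) (h : P3 K), ∀ v ∈ V I, ∃ ν, Val I a D E v ν ∧
    eval (val3 a v) h = (v 0 ^ (m * M) - low p A b (val3 a v) 0 ν) ^ p ^ e ∧
    eval ![val3 a v 0, val3 a v 1, val3 a v 2, low p A b (val3 a v) 0 ν] G1 = 0 ∧
    eval ![val3 a v 0, val3 a v 1, val3 a v 2, low p A b (val3 a v) 0 ν] G2 = 0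

/-- take the component of `h` -/
def LINK2_s (p : ℕ) : Prop := SC1_s.{u} p → SC2_s.{u} p → SCALE_s.{u} → VAND_s.{u} →
  ∀ (K : Type u) [Field K] [IsAlgClosed K] [Fact p.Prime]
  (I : Ideal (P4 K)) (m Q : ℕ) (a : Fin 3 → P4 K) (F D E Λ : P3 K) (b : ℕ → ℕ → P3 K)
  (n' d s θ κ A M q : ℕ) (h : P3 K), Plane p I m Q a F n' →
  Wts p Q F D E Λ b (n' * Q) d s θ κ A M →
  (∀ v ∈ V I, ∀ v' ∈ V I, val3 a v = val3 a v' → ∀ ν ν', Val I a D E v ν → Val I a D E v' ν' →
    v 0 ^ (m * M) - low p A b (val3 a v) 0 ν = v' 0 ^ (m * M) - low p A b (val3 a v') 0 ν') →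
  (∀ v ∈ V I, ∃ ν, Val I a D E v ν ∧
    eval (val3 a v) h = (v 0 ^ (m * M) - low p A b (val3 a v) 0 ν) ^ q) →
  ∀ v ∈ V I, eval (val3 a v) (weightedHomogeneousComponent (wt Q) (M * q) h) = eval (val3 a v) h

/-- substitute `T^q = W^(mMq) - h` -/
def FROB_s (p : ℕ) : Prop := ∀ (K : Type u) [Field K] [Fact p.Prime] [CharP K p]
  (m Q M N e : ℕ) (G : P4 K) (h : P3 K), G.IsWeightedHomogeneous ![1, 1, Q, M] N →
  h.IsWeightedHomogeneous (wt Q) (M * p ^ e) →
  ∃ (f : P4 K) (N' : ℕ), f.IsWeightedHomogeneous ![m, m, m * Q, 1] N' ∧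
    ∀ (R : Fin 3 → K) (ω τ : K), τ ^ p ^ e = (ω ^ (m * M)) ^ p ^ e - eval R h →
      eval ![R 0, R 1, R 2, ω] f = eval ![R 0, R 1, R 2, τ] G ^ p ^ e

/-- a point of both surfaces comes from the curve -/
def BACK_s (p : ℕ) : Prop := FINI_s.{u} p →
  ∀ (K : Type u) [Field K] [IsAlgClosed K] [Fact p.Prime]
  (I : Ideal (P4 K)) (m Q : ℕ) (a : Fin 3 → P4 K) (F D E Λ : P3 K) (b : ℕ → ℕ → P3 K)
  (n' d s θ κ A M : ℕ), Plane p I m Q a F n' → Sys p I m Q a F D E Λ b (n' * Q) d s θ κ A M →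
  (∀ v v', Node I a v v' → Nd p κ A F D E Λ b I a (m * M) v v') →
  ∀ (R : Fin 3 → K) (τ ν : K), Rel p κ A F D E Λ b R τ 0 ν →
  ∃ v ∈ V I, val3 a v = R ∧ ∀ ν', Val I a D E v ν' → low p A b R 0 ν' = low p A b R 0 ν

/-- assembly -/
def END_s (p : ℕ) : Prop := LOC_s.{u} p → SCALE_s.{u} → VAND_s.{u} → FACT_s.{u} → INTERP_s.{u} →
  HOMG_s.{u} → FINI_s.{u} p → NORM_s.{u} p → FINZ_s.{u} p → CHO1_s.{u} p → ONE_s.{u} p →
  CHO2_s.{u} p → SC1_s.{u} p → SC2_s.{u} p → ALL_s.{u} p → K1_s.{u} p → INT_s.{u} p →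
  KER_s.{u} → SURF1_s.{u} p → SURF2_s.{u} p → SV_s.{u} p → LINK1_s.{u} p → LINK2_s.{u} p →
  FROB_s.{u} p → BACK_s.{u} p → E_s.{u} p

end H62e

end PartH62eDefs

section PartH62eA56

set_option autoImplicit false

namespace H62e

universe u

section poly56
open Polynomial Finset


/-- Division by `φ`: every polynomial of degree `< P (A+1)` is a combination of `φ^a X^r`, `a ≤ A`, `r < P`. -/
theorem div_phi56 {k : Type*} [Field k] (φ : k[X]) (P : ℕ) (hP : 0 < P) (hφ : φ.natDegree = P) :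
    ∀ (A : ℕ) (g : k[X]), g.natDegree < P * (A + 1) →
      ∃ b : ℕ → ℕ → k, g = ∑ a ∈ range (A + 1), ∑ r ∈ range P, C (b a r) * φ ^ a * X ^ r := by
  have hφ0 : φ ≠ 0 := by
    intro h; rw [h, natDegree_zero] at hφ; omega
  have small : ∀ g : k[X], g.natDegree < P → g = ∑ r ∈ range P, C (g.coeff r) * X ^ r := by
    intro g hg
    conv_lhs => rw [g.as_sum_range' P hg]
    exact sum_congr rfl fun r _ => (C_mul_X_pow_eq_monomial).symm
  intro A
  induction A with
  | zero =>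
    intro g hg
    refine ⟨fun _ r => g.coeff r, ?_⟩
    simp only [zero_add, mul_one, range_one, sum_singleton, pow_zero] at hg ⊢
    exact small g hg
  | succ A ih =>
    intro g hg
    have hq : (g / φ).natDegree < P * (A + 1) := by
      by_cases h0 : g / φ = 0
      · rw [h0, natDegree_zero]; positivity
      · have hle : φ.degree ≤ g.degree := by
          by_contra hlt
          exact h0 ((Polynomial.div_eq_zero_iff hφ0).2 (lt_of_not_ge hlt))
        have h1 := degree_add_div hφ0 hle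
        have hg0 : g ≠ 0 := by
          intro h; apply h0; rw [h, EuclideanDomain.zero_div]
        rw [degree_eq_natDegree hφ0, degree_eq_natDegree h0, degree_eq_natDegree hg0, hφ] at h1
        have h2 : P + (g / φ).natDegree = g.natDegree := by exact_mod_cast h1
        have h3 : P * (A + 1 + 1) = P * (A + 1) + P := by ring
        omega
    have hr : (g % φ).natDegree < P := by
      by_cases h0 : g % φ = 0
      · rw [h0, natDegree_zero]; exact hP
      · have := degree_mod_lt g hφ0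
        rw [degree_eq_natDegree hφ0, degree_eq_natDegree h0, hφ] at this
        exact_mod_cast this
    obtain ⟨b, hb⟩ := ih (g / φ) hq
    refine ⟨fun a r => Nat.casesOn a ((g % φ).coeff r) fun a' => b a' r, ?_⟩
    rw [sum_range_succ']
    have e1 : ∑ a ∈ range (A + 1), ∑ r ∈ range P, C (b a r) * φ ^ (a + 1) * X ^ r
        = φ * (g / φ) := by
      conv_rhs => rw [hb]
      rw [mul_sum]
      refine sum_congr rfl fun a _ => ?_
      rw [mul_sum]
      exact sum_congr rfl fun r _ => by ring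
    have e2 : ∑ r ∈ range P, C ((g % φ).coeff r) * φ ^ 0 * X ^ r = g % φ := by
      conv_rhs => rw [small _ hr]
      exact sum_congr rfl fun r _ => by ring
    show g = ∑ a ∈ range (A + 1), ∑ r ∈ range P, C (b a r) * φ ^ (a + 1) * X ^ r
      + ∑ r ∈ range P, C ((g % φ).coeff r) * φ ^ 0 * X ^ r
    rw [e1, e2]
    exact (EuclideanDomain.div_add_mod g φ).symm

/-- In exponential characteristic `p` the second term of `φ^(p^j)` has degree at most `(P-1) p^j`. -/
theorem frob_gap56 {k : Type*} [Field k] (p : ℕ) [ExpChar k p] (φ : k[X]) (P j : ℕ)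
    (hφ : φ.natDegree = P) :
    (φ ^ p ^ j - C (φ.leadingCoeff ^ p ^ j) * X ^ (P * p ^ j)).natDegree ≤ (P - 1) * p ^ j := by
  have h1 : φ = φ.eraseLead + C φ.leadingCoeff * X ^ P := by
    rw [← hφ]; exact (eraseLead_add_C_mul_X_pow φ).symm
  have h2 : φ ^ p ^ j = φ.eraseLead ^ p ^ j + C (φ.leadingCoeff ^ p ^ j) * X ^ (P * p ^ j) := by
    conv_lhs => rw [h1]
    rw [add_pow_expChar_pow, mul_pow, ← C_pow, ← pow_mul]
  rw [h2, add_sub_cancel_right]
  refine natDegree_pow_le.trans ?_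
  rw [mul_comm]
  exact Nat.mul_le_mul_right _ (hφ ▸ eraseLead_natDegree_le φ)

/-- POLY of h14e_END. -/
theorem poly56 {k : Type*} [Field k] (p : ℕ) [ExpChar k p] (φ : k[X]) (P j A : ℕ) (hP : 0 < P)
    (hφ : φ.natDegree = P) (hA : (P - 1) * p ^ j < P * (A + 1)) (al e : k) (he : e ≠ 0) :
    ∃ b : ℕ → ℕ → k,
      C (al / φ.leadingCoeff ^ p ^ j) * φ ^ p ^ j
        + ∑ a ∈ range (A + 1), ∑ r ∈ range P, C (b a r) * φ ^ a * (C e * X) ^ r
        = C al * X ^ (P * p ^ j) := by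
  have hφ0 : φ ≠ 0 := by
    intro h; rw [h, natDegree_zero] at hφ; omega
  have hl : φ.leadingCoeff ^ p ^ j ≠ 0 := pow_ne_zero _ (leadingCoeff_ne_zero.2 hφ0)
  obtain ⟨b, hb⟩ := div_phi56 φ P hP hφ A _ ((frob_gap56 p φ P j hφ).trans_lt hA)
  refine ⟨fun a r => -(al / φ.leadingCoeff ^ p ^ j * b a r / e ^ r), ?_⟩
  have e1 : ∑ a ∈ range (A + 1), ∑ r ∈ range P,
      C (-(al / φ.leadingCoeff ^ p ^ j * b a r / e ^ r)) * φ ^ a * (C e * X) ^ r
      = -(C (al / φ.leadingCoeff ^ p ^ j) *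
        ∑ a ∈ range (A + 1), ∑ r ∈ range P, C (b a r) * φ ^ a * X ^ r) := by
    rw [mul_sum, ← sum_neg_distrib]
    refine sum_congr rfl fun a _ => ?_
    rw [mul_sum, ← sum_neg_distrib]
    refine sum_congr rfl fun r _ => ?_
    have h3 : C (-(al / φ.leadingCoeff ^ p ^ j * b a r / e ^ r)) * C e ^ r
        = -(C (al / φ.leadingCoeff ^ p ^ j) * C (b a r)) := by
      rw [← C_pow, ← C_mul, ← C_mul, ← C_neg]
      congr 1
      have := pow_ne_zero r he
      field_simp
    calc _ = (C (-(al / φ.leadingCoeff ^ p ^ j * b a r / e ^ r)) * C e ^ r) * φ ^ a * X ^ r := by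
          ring
      _ = _ := by rw [h3]; ring
  rw [e1, ← hb]
  have h4 : C (al / φ.leadingCoeff ^ p ^ j) * C (φ.leadingCoeff ^ p ^ j) = C al := by
    rw [← C_mul, div_mul_cancel₀ _ hl]
  calc _ = (C (al / φ.leadingCoeff ^ p ^ j) * C (φ.leadingCoeff ^ p ^ j)) * X ^ (P * p ^ j) := by
        ring
    _ = _ := by rw [h4]

/-- The same identity evaluated at an element `h` of a commutative `k`-algebra. -/
theorem poly_eval56 {k : Type*} [Field k] (p : ℕ) [ExpChar k p] (φ : k[X]) (P j A : ℕ)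
    (hP : 0 < P) (hφ : φ.natDegree = P) (hA : (P - 1) * p ^ j < P * (A + 1)) (al e : k)
    (he : e ≠ 0) :
    ∃ b : ℕ → ℕ → k, ∀ h : k,
      al / φ.leadingCoeff ^ p ^ j * φ.eval h ^ p ^ j
        + ∑ a ∈ range (A + 1), ∑ r ∈ range P, b a r * φ.eval h ^ a * (e * h) ^ r
        = al * h ^ (P * p ^ j) := by
  obtain ⟨b, hb⟩ := poly56 p φ P j A hP hφ hA al e he
  refine ⟨b, fun h => ?_⟩
  have := congrArg (eval h) hb
  simpa [eval_finsetSum] using this

/-- The polynomial `φ = c X (ka + la X)^(P-1)` of a node: degree and leading coefficient. -/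
theorem phi_deg56 {k : Type*} [Field k] (P : ℕ) (hP : 0 < P) (c ka la : k) (hc : c ≠ 0)
    (hla : la ≠ 0) :
    (C c * X * (C ka + C la * X) ^ (P - 1) : k[X]).natDegree = P ∧
    (C c * X * (C ka + C la * X) ^ (P - 1) : k[X]).leadingCoeff = c * la ^ (P - 1) := by
  have h1 : (C ka + C la * X : k[X]).natDegree = 1 := by
    rw [add_comm]; exact natDegree_linear hla
  have h2 : (C ka + C la * X : k[X]).leadingCoeff = la := by
    rw [add_comm]; exact leadingCoeff_linear hla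
  have h3 : (C ka + C la * X : k[X]) ≠ 0 := by
    intro h; rw [h, natDegree_zero] at h1; omega
  refine ⟨?_, ?_⟩
  · rw [natDegree_mul (mul_ne_zero (C_ne_zero.2 hc) X_ne_zero) (pow_ne_zero _ h3),
      natDegree_C_mul_X _ hc, natDegree_pow, h1]
    omega
  · rw [leadingCoeff_mul, leadingCoeff_pow, h2, leadingCoeff_C_mul_X]


end poly56

section ker56
open Polynomial


/-- DOM, general form: a ring `S` mapping to a field `K`, and a ring hom `π` from `S` to a nontrivial ring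
that kills the kernel of `S → K`. Some valuation subring of `K` contains the image of `S`, and `ker π` goes into
its maximal ideal. -/
theorem dom_gen56 {S K F : Type*} [CommRing S] [Field K] [CommRing F] [Nontrivial F]
    (g : S →+* K) (π : S →+* F) (hker : ∀ s, g s = 0 → π s = 0) :
    ∃ V : ValuationSubring K, (∀ s, g s ∈ V) ∧ ∀ s, π s = 0 → V.valuation (g s) < 1 := by
  have hne : (RingHom.ker π).map g.rangeRestrict ≠ ⊤ := by
    intro h
    have h1 : (1 : g.range) ∈ (RingHom.ker π).map g.rangeRestrict := h ▸ Submodule.mem_top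
    obtain ⟨s, hs, hs1⟩ := (Ideal.mem_map_iff_of_surjective _ g.rangeRestrict_surjective).1 h1
    have h2 : g s = 1 := congrArg Subtype.val hs1
    have h3 : π (s - 1) = 0 := hker _ (by rw [map_sub, h2, map_one, sub_self])
    rw [map_sub, map_one, (RingHom.mem_ker).1 hs, zero_sub, neg_eq_zero] at h3
    exact one_ne_zero h3
  obtain ⟨V, h1, h2⟩ := Ideal.image_subset_nonunits_valuationSubring _ hne
  refine ⟨V, fun s => h1 ⟨s, rfl⟩, fun s hs => ?_⟩
  exact (V.mem_nonunits_iff).1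
    (h2 ⟨g.rangeRestrict s, Ideal.mem_map_of_mem _ ((RingHom.mem_ker).2 hs), rfl⟩)

/-- DOM for a `k`-point of a `k`-subalgebra of a field. -/
theorem dom_sub56 {k K : Type*} [Field k] [Field K] [Algebra k K] (S : Subalgebra k K)
    (π : S →ₐ[k] k) :
    ∃ V : ValuationSubring K, (∀ s ∈ S, s ∈ V) ∧
      ∀ s : S, V.valuation ((s : K) - algebraMap k K (π s)) < 1 := by
  obtain ⟨V, h1, h2⟩ := dom_gen56 (S.val : S →+* K) (π : S →+* k) (fun s hs => by
    have : s = 0 := Subtype.ext hs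
    rw [this, map_zero])
  refine ⟨V, fun s hs => h1 ⟨s, hs⟩, fun s => ?_⟩
  have := h2 (s - algebraMap k S (π s)) (by simp)
  simpa using this

/-- INT: an element lying in every valuation subring that contains `S` is integral over `S`. -/
theorem int_sub56 {k K : Type*} [CommRing k] [Field K] [Algebra k K] (S : Subalgebra k K) (u : K)
    (h : ∀ V : ValuationSubring K, (∀ s ∈ S, s ∈ V) → u ∈ V) : IsIntegral S u := by
  have h1 : u ∈ (⨅ V : {V : ValuationSubring K // (S.toSubring : Set K) ⊆ V.toSubring},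
      V.1.toSubring) := by
    rw [Subring.mem_iInf]
    exact fun V => h V.1 fun s hs => V.2 hs
  rw [iInf_valuationSubring_superset, Subring.closure_eq] at h1
  exact h1

/-- KER, cleared form: if `A, B` are relatively prime and `B/A` is a root of `f` then `A X - B` divides `f`. -/
theorem ker56 {R K : Type*} [CommRing R] [IsDomain R] [DecompositionMonoid R] [Field K] [Algebra R K]
    (hinj : Function.Injective (algebraMap R K)) (A B : R) (h : IsRelPrime A B)
    (T : K) (hT : algebraMap R K A * T = algebraMap R K B) :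
    ∀ f : R[X], aeval T f = 0 → (C A * X - C B) ∣ f := by
  have key : ∀ (n : ℕ) (f : R[X]), f.natDegree ≤ n → aeval T f = 0 → (C A * X - C B) ∣ f := by
    intro n
    induction n with
    | zero =>
      intro f hf h0
      rw [eq_C_of_natDegree_le_zero hf] at h0 ⊢
      rw [aeval_C] at h0
      have : f.coeff 0 = 0 := hinj (by rw [h0, map_zero])
      rw [this, map_zero]; exact dvd_zero _
    | succ n ih =>
      intro f hf h0
      have hsum : aeval T f = ∑ i ∈ Finset.range (n + 1 + 1), algebraMap R K (f.coeff i) * T ^ i := by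
        rw [aeval_def, eval₂_eq_sum_range' _ (Nat.lt_succ_of_le hf)]
      have hclear : algebraMap R K
          (A * ∑ i ∈ Finset.range (n + 1), f.coeff i * B ^ i * A ^ (n - i)
            + f.coeff (n + 1) * B ^ (n + 1)) = algebraMap R K A ^ (n + 1) * aeval T f := by
        rw [hsum, Finset.sum_range_succ _ (n + 1), mul_add, map_add, map_mul, map_sum,
          Finset.mul_sum, Finset.mul_sum]
        congr 1
        · refine Finset.sum_congr rfl fun i hi => ?_
          have hi' : i ≤ n := Nat.lt_succ_iff.1 (Finset.mem_range.1 hi)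
          obtain ⟨d, rfl⟩ := Nat.exists_eq_add_of_le hi'
          rw [Nat.add_sub_cancel_left, map_mul, map_mul, map_pow, map_pow, ← hT]
          ring
        · rw [map_mul, map_pow, ← hT]; ring
      rw [h0, mul_zero] at hclear
      have hz := hinj (hclear.trans (map_zero _).symm)
      have hd : A ∣ f.coeff (n + 1) * B ^ (n + 1) :=
        ⟨-∑ i ∈ Finset.range (n + 1), f.coeff i * B ^ i * A ^ (n - i), by
          rw [mul_neg]; exact eq_neg_of_add_eq_zero_right hz⟩
      obtain ⟨c, hc⟩ := (h.pow_right (n := n + 1)).dvd_of_dvd_mul_right hd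
      have hdeg : (f - (C A * X - C B) * (C c * X ^ n)).natDegree ≤ n := by
        rw [natDegree_le_iff_coeff_eq_zero]
        intro N hN
        have e1 : (C A * X - C B) * (C c * X ^ n) = C (A * c) * X ^ (n + 1) - C (B * c) * X ^ n := by
          rw [C_mul, C_mul]; ring
        rw [e1, coeff_sub, coeff_sub, coeff_C_mul_X_pow, coeff_C_mul_X_pow, if_neg hN.ne', sub_zero]
        by_cases hN1 : N = n + 1
        · rw [if_pos hN1, hN1, hc, sub_self]
        · rw [if_neg hN1, sub_zero]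
          exact coeff_eq_zero_of_natDegree_lt (by omega)
      have hroot : aeval T (f - (C A * X - C B) * (C c * X ^ n)) = 0 := by
        rw [map_sub, h0, map_mul, map_sub, map_mul, aeval_C, aeval_X, aeval_C, hT, sub_self, zero_mul,
          sub_zero]
      have := ih _ hdeg hroot
      have h2 : f = (f - (C A * X - C B) * (C c * X ^ n)) + (C A * X - C B) * (C c * X ^ n) := by ring
      rw [h2]
      exact dvd_add this (Dvd.intro _ rfl)
  exact fun f => key _ f le_rfl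

/-- DOM for a point `(ev, τ)` of the monoid `A t = B`. -/
theorem dom_monoid56 {k R K : Type*} [Field k] [CommRing R] [IsDomain R] [DecompositionMonoid R]
    [Field K] [Algebra R K] [Algebra k R] [Algebra k K] [IsScalarTower k R K]
    (hinj : Function.Injective (algebraMap R K)) (A B : R) (h : IsRelPrime A B)
    (T : K) (hT : algebraMap R K A * T = algebraMap R K B) (ev : R →ₐ[k] k) (τ : k)
    (hτ : ev A * τ = ev B) :
    ∃ V : ValuationSubring K, (∀ r : R, algebraMap R K r ∈ V) ∧ T ∈ V ∧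
      (∀ r : R, V.valuation (algebraMap R K r - algebraMap k K (ev r)) < 1) ∧
      V.valuation (T - algebraMap k K τ) < 1 := by
  obtain ⟨V, h1, h2⟩ := dom_gen56 ((aeval T : R[X] →ₐ[R] K) : R[X] →+* K)
    (eval₂RingHom (ev : R →+* k) τ) (fun f hf => by
      obtain ⟨g, rfl⟩ := ker56 hinj A B h T hT f hf
      simp [hτ])
  refine ⟨V, fun r => ?_, ?_, fun r => ?_, ?_⟩
  · simpa using h1 (C r)
  · simpa using h1 X
  · have := h2 (C r - C (algebraMap k R (ev r))) (by simp)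
    simpa [← IsScalarTower.algebraMap_apply] using this
  · have := h2 (X - C (algebraMap k R τ)) (by simp)
    simpa [← IsScalarTower.algebraMap_apply] using this

/-- The `k`-point of `R[T]` attached to a point `(ev, τ)` of the monoid `A t = B`. -/
theorem point_monoid56 {R K F : Type*} [CommRing R] [IsDomain R] [DecompositionMonoid R]
    [Field K] [Algebra R K] [CommRing F]
    (hinj : Function.Injective (algebraMap R K)) (A B : R) (h : IsRelPrime A B)
    (T : K) (hT : algebraMap R K A * T = algebraMap R K B) (ev : R →+* F) (τ : F)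
    (hτ : ev A * τ = ev B) (f g : R[X]) (hfg : aeval T f = aeval T g) :
    f.eval₂ ev τ = g.eval₂ ev τ := by
  obtain ⟨q, hq⟩ := ker56 hinj A B h T hT (f - g) (by rw [map_sub, hfg, sub_self])
  have h1 : (f - g).eval₂ ev τ = 0 := by
    rw [hq]; simp [hτ]
  rw [eval₂_sub] at h1
  exact sub_eq_zero.1 h1


end ker56

section hom56
open MvPolynomial


variable {K σ : Type*}

theorem wh_pow56 [CommRing K] {w : σ → ℕ} {l : MvPolynomial σ K} {a : ℕ}
    (hl : l.IsWeightedHomogeneous w a) (n : ℕ) : (l ^ n).IsWeightedHomogeneous w (n * a) := by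
  induction n with
  | zero => simpa using isWeightedHomogeneous_one K w
  | succ n ih => rw [pow_succ, add_mul, one_mul]; exact ih.mul hl

/-- HOM: homogenisation with a weighted form `l` of weight one. -/
theorem hom56 [CommRing K] {w : σ → ℕ} {l : MvPolynomial σ K} (hl : l.IsWeightedHomogeneous w 1)
    (f : MvPolynomial σ K) (N : ℕ) (hN : weightedTotalDegree w f ≤ N) :
    ∃ g : MvPolynomial σ K, g.IsWeightedHomogeneous w N ∧ (l - 1) ∣ g - f := by
  classical
  refine ⟨∑ m ∈ f.support, l ^ (N - Finsupp.weight w m) * monomial m (coeff m f), ?_, ?_⟩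
  · refine IsWeightedHomogeneous.sum _ _ _ fun m hm => ?_
    have h1 : Finsupp.weight w m ≤ N := (le_weightedTotalDegree w hm).trans hN
    have h2 := (wh_pow56 hl (N - Finsupp.weight w m)).mul
      (isWeightedHomogeneous_monomial w m (coeff m f) rfl)
    rwa [mul_one, Nat.sub_add_cancel h1] at h2
  · conv => enter [2, 2]; rw [f.as_sum]
    rw [← Finset.sum_sub_distrib]
    refine Finset.dvd_sum fun m _ => ?_
    rw [← sub_one_mul]
    exact Dvd.dvd.mul_right (by simpa using sub_dvd_pow_sub_pow l 1 _) _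

theorem eval_of_dvd56 [CommRing K] {l g f : MvPolynomial σ K} (h : (l - 1) ∣ g - f) (R : σ → K)
    (hR : eval R l = 1) : eval R g = eval R f := by
  obtain ⟨q, hq⟩ := h
  have := congrArg (eval R) hq
  rw [map_sub, map_mul, map_sub, hR, map_one, sub_self, zero_mul] at this
  exact sub_eq_zero.1 this

/-- a polynomial that is `1` at `R` and `0` at the other points of `T` -/
theorem sep56 [Field K] (T : Finset (σ → K)) (R : σ → K) :
    ∃ f : MvPolynomial σ K, eval R f = 1 ∧ ∀ R' ∈ T, R' ≠ R → eval R' f = 0 := by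
  classical
  have h1 : ∀ R' : σ → K, ∃ f : MvPolynomial σ K, eval R f = 1 ∧ (R' ≠ R → eval R' f = 0) := by
    intro R'
    by_cases h : R' = R
    · exact ⟨1, map_one _, fun h' => absurd h h'⟩
    · obtain ⟨i, hi⟩ := Function.ne_iff.1 h
      refine ⟨C (R i - R' i)⁻¹ * (X i - C (R' i)), ?_, fun _ => by simp⟩
      have : R i - R' i ≠ 0 := sub_ne_zero.2 hi.symm
      simp [this]
  choose f hf1 hf0 using h1
  refine ⟨∏ R' ∈ T, f R', ?_, fun R' hR' hne => ?_⟩
  · rw [map_prod]; exact Finset.prod_eq_one fun R' _ => hf1 R'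
  · rw [map_prod]; exact Finset.prod_eq_zero hR' (hf0 R' hne)

/-- INTERP: values on a finite set in the chart `l = 1` by weighted forms of every large weight. -/
theorem interp56 [Field K] {w : σ → ℕ} {l : MvPolynomial σ K} (hl : l.IsWeightedHomogeneous w 1)
    (T : Finset (σ → K)) (hT : ∀ R ∈ T, eval R l = 1) :
    ∃ N0 : ℕ, ∀ N, N0 ≤ N → ∀ val : (σ → K) → K,
      ∃ g : MvPolynomial σ K, g.IsWeightedHomogeneous w N ∧ ∀ R ∈ T, eval R g = val R := by
  classical
  choose f hf1 hf0 using sep56 T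
  refine ⟨T.sup fun R => weightedTotalDegree w (f R), fun N hN val => ?_⟩
  have h1 : ∀ R : σ → K, ∃ g : MvPolynomial σ K, g.IsWeightedHomogeneous w N ∧
      (R ∈ T → (l - 1) ∣ g - f R) := by
    intro R
    by_cases h : R ∈ T
    · obtain ⟨g, hg, hd⟩ := hom56 hl (f R) N
        ((Finset.le_sup (f := fun R => weightedTotalDegree w (f R)) h).trans hN)
      exact ⟨g, hg, fun _ => hd⟩
    · exact ⟨0, isWeightedHomogeneous_zero K w N, fun h' => absurd h' h⟩
  choose g hg hd using h1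
  refine ⟨∑ R ∈ T, C (val R) * g R, ?_, fun R hR => ?_⟩
  · refine IsWeightedHomogeneous.sum _ _ _ fun R _ => ?_
    simpa using (isWeightedHomogeneous_C w (val R)).mul (hg R)
  · rw [map_sum, Finset.sum_eq_single R]
    · rw [map_mul, eval_C, eval_of_dvd56 (hd R hR) R (hT R hR), hf1, mul_one]
    · intro R' hR' hne
      rw [map_mul, eval_of_dvd56 (hd R' hR') R (hT R hR), hf0 R' R hR hne.symm, mul_zero]
    · intro h; exact absurd hR h

/-- component of a product with a weighted form -/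
theorem whc_mul56 [CommRing K] {w : σ → ℕ} {l : MvPolynomial σ K} {a : ℕ}
    (hl : l.IsWeightedHomogeneous w a) (q : MvPolynomial σ K) (n : ℕ) :
    weightedHomogeneousComponent w n (l * q) =
      if a ≤ n then l * weightedHomogeneousComponent w (n - a) q else 0 := by
  classical
  induction q using MvPolynomial.induction_on' with
  | monomial m c =>
    have h1 := isWeightedHomogeneous_monomial w m c (rfl : Finsupp.weight w m = _)
    rw [weightedHomogeneousComponent_of_mem (hl.mul h1), weightedHomogeneousComponent_of_mem h1]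
    by_cases h : a ≤ n
    · rw [if_pos h]
      by_cases h2 : n = a + Finsupp.weight w m
      · rw [if_pos h2, if_pos (by omega)]
      · rw [if_neg h2, if_neg (by omega), mul_zero]
    · rw [if_neg h, if_neg (by omega)]
  | add p q hp hq =>
    rw [mul_add, map_add, hp, hq, map_add]
    split_ifs
    · rw [mul_add]
    · rw [add_zero]

/-- A weighted form divisible by `l - 1` (`l ≠ 0` a form of positive weight, domain) is zero. -/
theorem wh_dvd_zero56 [CommRing K] [IsDomain K] {w : σ → ℕ} {l g : MvPolynomial σ K} {a N : ℕ}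
    (hl : l.IsWeightedHomogeneous w a) (ha : 0 < a) (hl0 : l ≠ 0)
    (hg : g.IsWeightedHomogeneous w N) (h : (l - 1) ∣ g) : g = 0 := by
  classical
  obtain ⟨q, hq⟩ := h
  have key : ∀ n, weightedHomogeneousComponent w n g =
      (if a ≤ n then l * weightedHomogeneousComponent w (n - a) q else 0)
        - weightedHomogeneousComponent w n q := by
    intro n
    rw [hq, sub_one_mul, map_sub, whc_mul56 hl]
  have gc : ∀ n, weightedHomogeneousComponent w n g = if n = N then g else 0 :=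
    fun n => weightedHomogeneousComponent_of_mem hg
  -- below `N` the components of `q` vanish
  have low : ∀ n, n < N → weightedHomogeneousComponent w n q = 0 := by
    intro n
    induction n using Nat.strong_induction_on with
    | _ n ih =>
      intro hn
      have h1 := key n
      rw [gc, if_neg hn.ne] at h1
      by_cases h2 : a ≤ n
      · rw [if_pos h2, ih (n - a) (by omega) (by omega), mul_zero, zero_sub] at h1
        exact neg_eq_zero.1 h1.symm
      · rw [if_neg h2, zero_sub] at h1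
        exact neg_eq_zero.1 h1.symm
  have up : ∀ j, weightedHomogeneousComponent w (N + j * a) q = -(l ^ j * g) := by
    intro j
    induction j with
    | zero =>
      have h1 := key N
      rw [gc, if_pos rfl] at h1
      have h2 : (if a ≤ N then l * weightedHomogeneousComponent w (N - a) q else 0) = 0 := by
        split_ifs with h3
        · rw [low _ (by omega), mul_zero]
        · rfl
      rw [h2, zero_sub] at h1
      rw [zero_mul, add_zero, pow_zero, one_mul]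
      exact (neg_eq_iff_eq_neg.1 h1.symm)
    | succ j ih =>
      have h1 := key (N + (j + 1) * a)
      have e1 : N + (j + 1) * a - a = N + j * a := by rw [add_mul, one_mul]; omega
      have e2 : a ≤ N + (j + 1) * a := by rw [add_mul, one_mul]; omega
      have e3 : N + (j + 1) * a ≠ N := by rw [add_mul, one_mul]; omega
      rw [gc, if_neg e3, if_pos e2, e1, ih] at h1
      rw [← sub_eq_zero.1 h1.symm]; ring
  have h3 := up (weightedTotalDegree w q + 1)
  rw [weightedHomogeneousComponent_eq_zero, eq_comm, neg_eq_zero] at h3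
  · exact (mul_eq_zero.1 h3).resolve_left (pow_ne_zero _ hl0)
  · calc weightedTotalDegree w q < (weightedTotalDegree w q + 1) * 1 := by omega
      _ ≤ (weightedTotalDegree w q + 1) * a := Nat.mul_le_mul_left _ ha
      _ ≤ _ := Nat.le_add_left _ _

/-- Divisibility in the chart gives divisibility after a power of `l`. -/
theorem dvd_chart56 [CommRing K] [IsDomain K] {w : σ → ℕ} {l f g q : MvPolynomial σ K} {b N : ℕ}
    (hl : l.IsWeightedHomogeneous w 1) (hl0 : l ≠ 0) (hf : f.IsWeightedHomogeneous w b)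
    (hg : g.IsWeightedHomogeneous w N) (h : (l - 1) ∣ g - f * q) :
    ∃ (r M : ℕ) (q' : MvPolynomial σ K), q'.IsWeightedHomogeneous w M ∧ r + N = b + M ∧
      l ^ r * g = f * q' := by
  obtain ⟨q', hq', hd⟩ := hom56 hl q (weightedTotalDegree w q + N) (Nat.le_add_right _ _)
  refine ⟨b + weightedTotalDegree w q, weightedTotalDegree w q + N, q', hq', by ring, ?_⟩
  have h1 := (wh_pow56 hl (b + weightedTotalDegree w q)).mul hg
  have h2 := hf.mul hq'
  rw [mul_one, add_assoc] at h1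
  have h3 : (l ^ (b + weightedTotalDegree w q) * g - f * q').IsWeightedHomogeneous w
      (b + (weightedTotalDegree w q + N)) :=
    (weightedHomogeneousSubmodule K w _).sub_mem h1 h2
  refine sub_eq_zero.1 (wh_dvd_zero56 hl one_pos hl0 h3 ?_)
  have e : l ^ (b + weightedTotalDegree w q) * g - f * q' =
      (l ^ (b + weightedTotalDegree w q) - 1) * g + (g - f * q) - f * (q' - q) := by ring
  rw [e]
  exact dvd_sub (dvd_add (Dvd.dvd.mul_right (by simpa using sub_dvd_pow_sub_pow l 1 _) _) h)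
    (Dvd.dvd.mul_left hd _)


end hom56

open MvPolynomial H39c

theorem e_scale : SCALE_s.{u} := by
  intro K L _ _ _ k w f n hf t x
  classical
  conv_lhs => rw [f.as_sum]
  conv_rhs => rw [f.as_sum]
  rw [map_sum, map_sum, Finset.mul_sum]
  refine Finset.sum_congr rfl fun m hm => ?_
  have hw : Finsupp.weight w m = n := hf (mem_support_iff.1 hm)
  rw [aeval_monomial, aeval_monomial, ← hw, Finsupp.weight_apply, Finsupp.sum, Finsupp.prod,
    Finsupp.prod, ← Finset.prod_pow_eq_pow_sum, mul_left_comm, ← Finset.prod_mul_distrib]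
  congr 1
  refine Finset.prod_congr rfl fun i _ => ?_
  rw [sc, mul_pow, ← pow_mul, smul_eq_mul, mul_comm (w i)]

/-- the grading map `X i ↦ X i * T ^ w i` -/
noncomputable def gr56 {K σ : Type*} [CommRing K] (w : σ → ℕ) :
    MvPolynomial σ K →ₐ[K] Polynomial (MvPolynomial σ K) :=
  aeval fun i => Polynomial.monomial (w i) (X i)

theorem gr_monomial56 {K σ : Type*} [CommRing K] (w : σ → ℕ) (m : σ →₀ ℕ) (c : K) :
    gr56 w (monomial m c) = Polynomial.monomial (Finsupp.weight w m) (monomial m c) := by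
  classical
  induction m using Finsupp.induction_linear generalizing c with
  | zero =>
    rw [map_zero, Polynomial.monomial_zero_left]
    exact (gr56 w).commutes c
  | add m1 m2 h1 h2 =>
    have e : (monomial (m1 + m2) c : MvPolynomial σ K) = monomial m1 c * monomial m2 1 := by
      rw [monomial_mul, mul_one]
    rw [e, map_mul, h1, h2, Polynomial.monomial_mul_monomial, map_add]
  | single i n =>
    have e : (monomial (Finsupp.single i n) c : MvPolynomial σ K) = C c * X i ^ n := by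
      rw [C_mul_X_pow_eq_monomial]
    have e2 : gr56 w (C c : MvPolynomial σ K) = Polynomial.monomial 0 (C c) := by
      rw [Polynomial.monomial_zero_left]
      exact (gr56 w).commutes c
    have e3 : gr56 w (X i : MvPolynomial σ K) = Polynomial.monomial (w i) (X i) := aeval_X _ _
    rw [e, map_mul, map_pow, e2, e3, Polynomial.monomial_pow, Polynomial.monomial_mul_monomial,
      Finsupp.weight_single, smul_eq_mul, zero_add, mul_comm n]

theorem gr_coeff56 {K σ : Type*} [CommRing K] (w : σ → ℕ) (f : MvPolynomial σ K) (n : ℕ) :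
    (gr56 w f).coeff n = weightedHomogeneousComponent w n f := by
  classical
  induction f using MvPolynomial.induction_on' with
  | monomial m c =>
    rw [gr_monomial56, Polynomial.coeff_monomial,
      weightedHomogeneousComponent_of_mem (isWeightedHomogeneous_monomial w m c rfl)]
    by_cases h : Finsupp.weight w m = n
    · rw [if_pos h, if_pos h.symm]
    · rw [if_neg h, if_neg (Ne.symm h)]
  | add p q hp hq => rw [map_add, Polynomial.coeff_add, hp, hq, map_add]

theorem gr_eval56 {K : Type u} {σ : Type*} [CommRing K] (w : σ → ℕ) (f : MvPolynomial σ K) (t : K)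
    (x : σ → K) : Polynomial.eval t ((gr56 w f).map (eval x)) = eval (sc w t x) f := by
  induction f using MvPolynomial.induction_on with
  | C c =>
    have e2 : gr56 w (C c : MvPolynomial σ K) = Polynomial.C (C c) := (gr56 w).commutes c
    rw [e2]; simp
  | add p q hp hq => rw [map_add, Polynomial.map_add, Polynomial.eval_add, hp, hq, map_add]
  | mul_X p i hp =>
    have e3 : gr56 w (X i : MvPolynomial σ K) = Polynomial.monomial (w i) (X i) := aeval_X _ _
    rw [map_mul, Polynomial.map_mul, Polynomial.eval_mul, hp, map_mul, e3]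
    simp [sc, mul_comm]

theorem e_vand : VAND_s.{u} := by
  intro K _ _ k w f N x y h
  have h1 : ((gr56 w f).map (eval x) - Polynomial.monomial N y) * Polynomial.X = 0 := by
    apply Polynomial.funext
    intro t
    by_cases ht : t = 0
    · simp [ht]
    · rw [Polynomial.eval_mul, Polynomial.eval_sub, gr_eval56, h t ht, Polynomial.eval_monomial]
      simp [mul_comm]
  have h2 := sub_eq_zero.1 ((mul_eq_zero.1 h1).resolve_right Polynomial.X_ne_zero)
  have h3 := congrArg (fun P => Polynomial.coeff P N) h2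
  simpa [Polynomial.coeff_map, gr_coeff56] using h3

theorem gr_ne56 {K σ : Type*} [CommRing K] (w : σ → ℕ) {f : MvPolynomial σ K} (hf : f ≠ 0) :
    gr56 w f ≠ 0 := by
  classical
  intro h
  apply hf
  ext m
  have h1 := gr_coeff56 w f (Finsupp.weight w m)
  rw [h, Polynomial.coeff_zero] at h1
  have h2 := congrArg (coeff m) h1
  rw [coeff_weightedHomogeneousComponent, if_pos rfl] at h2
  exact h2.symm

theorem e_fact : FACT_s.{u} := by
  intro K _ k w f g n hf hf0 hg
  classical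
  obtain ⟨h, rfl⟩ := hg
  have hg0 := gr_ne56 w (left_ne_zero_of_mul hf0)
  have hh0 := gr_ne56 w (right_ne_zero_of_mul hf0)
  have e : gr56 w g * gr56 w h = Polynomial.monomial n (g * h) := by
    rw [← map_mul]
    ext1 i
    rw [gr_coeff56, weightedHomogeneousComponent_of_mem hf, Polynomial.coeff_monomial]
    by_cases h : i = n
    · rw [if_pos h, if_pos h.symm]
    · rw [if_neg h, if_neg (Ne.symm h)]
  have d1 := Polynomial.natDegree_mul hg0 hh0
  have d2 := Polynomial.natTrailingDegree_mul hg0 hh0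
  rw [e, Polynomial.natDegree_monomial_eq _ hf0] at d1
  rw [e, Polynomial.natTrailingDegree_monomial hf0] at d2
  have d3 := Polynomial.natTrailingDegree_le_natDegree (gr56 w g)
  have d4 := Polynomial.natTrailingDegree_le_natDegree (gr56 w h)
  refine ⟨(gr56 w g).natDegree, fun m hm => ?_⟩
  have h1 : (gr56 w g).coeff (Finsupp.weight w m) ≠ 0 := by
    intro h0
    rw [gr_coeff56] at h0
    have h2 := congrArg (coeff m) h0
    rw [coeff_weightedHomogeneousComponent, if_pos rfl] at h2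
    exact hm h2
  have d5 := Polynomial.le_natDegree_of_ne_zero h1
  have d6 := Polynomial.natTrailingDegree_le_of_ne_zero h1
  omega

theorem whX056 (K : Type u) [Field K] (Q : ℕ) : (X 0 : P3 K).IsWeightedHomogeneous (wt Q) 1 :=
  isWeightedHomogeneous_X K (wt Q) 0

theorem whX156 (K : Type u) [Field K] (Q : ℕ) : (X 1 : P3 K).IsWeightedHomogeneous (wt Q) 1 :=
  isWeightedHomogeneous_X K (wt Q) 1

theorem whX256 (K : Type u) [Field K] (Q : ℕ) : (X 2 : P3 K).IsWeightedHomogeneous (wt Q) Q :=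
  isWeightedHomogeneous_X K (wt Q) 2

theorem e_homg : HOMG_s.{u} := by
  intro K _ Q
  exact ⟨fun g => ⟨weightedTotalDegree (wt Q) g, fun N hN => hom56 (whX056 K Q) g N hN⟩,
    fun g N hg h => wh_dvd_zero56 (whX056 K Q) one_pos (X_ne_zero 0) hg h⟩

theorem e_interp : INTERP_s.{u} := by
  intro K _ Q Y hY
  classical
  have hl : ∀ R : Fin 3 → K, ∃ l : P3 K, l.IsWeightedHomogeneous (wt Q) 1 ∧
      ∀ R' : Fin 3 → K, Nm R → R' 0 = R 0 → R' 1 = R 1 → eval R' l = 1 := by
    intro R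
    by_cases h : R 0 = 1
    · exact ⟨X 0, whX056 K Q, fun R' _ h0 _ => by rw [eval_X, h0, h]⟩
    · refine ⟨X 1, whX156 K Q, fun R' hR _ h1 => ?_⟩
      rw [eval_X, h1]
      exact (hR.resolve_left h).2
  choose l hl1 hl2 using hl
  have hs : ∀ R R' : Fin 3 → K, ∃ (f : P3 K) (j : ℕ), f.IsWeightedHomogeneous (wt Q) j ∧
      (Nm R → Nm R' → eval R f = 1 ∧ (R' ≠ R → eval R' f = 0)) := by
    intro R R'
    by_cases h : R' = R
    · exact ⟨1, 0, isWeightedHomogeneous_one K _, fun _ _ => ⟨map_one _, fun h' => absurd h h'⟩⟩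
    by_cases h2 : R' 1 * R 0 - R' 0 * R 1 = 0
    · refine ⟨C (R 2 - R' 2)⁻¹ * (X 2 - C (R' 2) * l R ^ Q), Q, ?_, fun hR hR' => ?_⟩
      · refine IsWeightedHomogeneous.C_mul ((whX256 K Q).sub (IsWeightedHomogeneous.C_mul ?_ _)) _
        simpa using wh_pow56 (hl1 R) Q
      · have h01 : R' 0 = R 0 ∧ R' 1 = R 1 := by
          rcases hR with a | ⟨a, b⟩ <;> rcases hR' with c | ⟨c, d⟩
          · rw [a, c, mul_one, one_mul] at h2
            exact ⟨c.trans a.symm, sub_eq_zero.1 h2⟩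
          · rw [a, c, d] at h2; simp at h2
          · rw [a, b, c] at h2; simp at h2
          · exact ⟨c.trans a.symm, d.trans b.symm⟩
        have h3 : R 2 - R' 2 ≠ 0 := by
          intro h3
          apply h
          funext i
          fin_cases i
          · exact h01.1
          · exact h01.2
          · exact (sub_eq_zero.1 h3).symm
        refine ⟨?_, fun _ => ?_⟩
        · simp [hl2 R R hR rfl rfl, h3]
        · simp [hl2 R R' hR h01.1 h01.2]
    · refine ⟨C (R' 1 * R 0 - R' 0 * R 1)⁻¹ * (C (R' 1) * X 0 - C (R' 0) * X 1), 1, ?_,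
        fun _ _ => ⟨?_, fun _ => ?_⟩⟩
      · exact IsWeightedHomogeneous.C_mul
          (((whX056 K Q).C_mul _).sub ((whX156 K Q).C_mul _)) _
      · simp [h2]
      · simp [mul_comm]
  choose f j hf1 hf2 using hs
  refine ⟨Y.sup fun R => ∑ R' ∈ Y, j R R', fun N hN val => ?_⟩
  refine ⟨∑ R ∈ Y, C (val R) * (l R ^ (N - ∑ R' ∈ Y, j R R') * ∏ R' ∈ Y, f R R'), ?_,
    fun R hR => ?_⟩
  · refine IsWeightedHomogeneous.sum _ _ _ fun R hR => IsWeightedHomogeneous.C_mul ?_ _
    have h1 : ∑ R' ∈ Y, j R R' ≤ N :=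
      (Finset.le_sup (f := fun R => ∑ R' ∈ Y, j R R') hR).trans hN
    have h2 := (wh_pow56 (hl1 R) (N - ∑ R' ∈ Y, j R R')).mul
      (IsWeightedHomogeneous.prod Y (f R) (j R) fun R' _ => hf1 R R')
    rwa [mul_one, Nat.sub_add_cancel h1] at h2
  · rw [map_sum, Finset.sum_eq_single R]
    · rw [map_mul, map_mul, map_pow, map_prod, eval_C, hl2 R R (hY R hR) rfl rfl, one_pow, one_mul,
        Finset.prod_eq_one fun R' hR' => (hf2 R R' (hY R hR) (hY R' hR')).1, mul_one]
    · intro R' hR' hne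
      rw [map_mul, map_mul, map_prod,
        Finset.prod_eq_zero hR ((hf2 R' R (hY R' hR') (hY R hR)).2 hne.symm), mul_zero, mul_zero]
    · intro h; exact absurd hR h

theorem whae56 {K σ τ : Type*} [CommRing K] {w : σ → ℕ} {w' : τ → ℕ} {g : σ → MvPolynomial τ K}
    (hg : ∀ i, (g i).IsWeightedHomogeneous w' (w i)) {H : MvPolynomial σ K} {n : ℕ}
    (hH : H.IsWeightedHomogeneous w n) : (aeval g H).IsWeightedHomogeneous w' n := by
  classical
  rw [H.as_sum, map_sum]
  refine IsWeightedHomogeneous.sum _ _ _ fun m hm => ?_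
  have hw : Finsupp.weight w m = n := hH (mem_support_iff.1 hm)
  rw [aeval_monomial, ← hw, Finsupp.weight_apply, Finsupp.sum, Finsupp.prod, algebraMap_eq]
  refine IsWeightedHomogeneous.C_mul ?_ _
  exact IsWeightedHomogeneous.prod _ _ _ fun i _ => wh_pow56 (hg i) (m i)

theorem e_ker : KER_s.{u} := by
  intro hfact K _ Q M α A B hA0 hA hB T hT
  obtain ⟨A', B', c, hrel, rfl, rfl⟩ := UniqueFactorizationMonoid.exists_reduced_factors A hA0 B
  have hc0 : c ≠ 0 := left_ne_zero_of_mul hA0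
  obtain ⟨j, hj⟩ := hfact K 3 (wt Q) _ c α hA hA0 (Dvd.intro _ rfl)
  obtain ⟨α', hα'⟩ := hfact K 3 (wt Q) _ A' α hA hA0 (Dvd.intro_left _ rfl)
  have e1 : j + α' = α := IsWeightedHomogeneous.inj_right hA0 (hj.mul hα') hA
  have hB' : B'.IsWeightedHomogeneous (wt Q) (α' + M) := by
    by_cases hB0 : B' = 0
    · rw [hB0]; exact isWeightedHomogeneous_zero K _ _
    · obtain ⟨β, hβ⟩ := hfact K 3 (wt Q) _ B' _ hB (mul_ne_zero hc0 hB0) (Dvd.intro_left _ rfl)
      have e2 : j + β = α + M := IsWeightedHomogeneous.inj_right (mul_ne_zero hc0 hB0) (hj.mul hβ) hB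
      have e3 : β = α' + M := by omega
      rwa [e3] at hβ
  have hinj : Function.Injective (algebraMap (P3 K) (FractionRing (P3 K))) :=
    IsFractionRing.injective _ _
  have hT' : algebraMap (P3 K) _ A' * T = algebraMap (P3 K) (FractionRing (P3 K)) B' := by
    rw [map_mul, map_mul, mul_assoc] at hT
    exact mul_left_cancel₀ (fun h => hc0 (hinj (h.trans (map_zero _).symm))) hT
  let up : P3 K →ₐ[K] P4 K := aeval ![X 0, X 1, X 2]
  have hup : ∀ (f : P3 K) (n : ℕ), f.IsWeightedHomogeneous (wt Q) n →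
      (up f).IsWeightedHomogeneous ![1, 1, Q, M] n := by
    intro f n hf
    refine whae56 (fun i => ?_) hf
    fin_cases i
    · exact isWeightedHomogeneous_X K ![1, 1, Q, M] 0
    · exact isWeightedHomogeneous_X K ![1, 1, Q, M] 1
    · exact isWeightedHomogeneous_X K ![1, 1, Q, M] 2
  let ψ : P4 K →ₐ[K] Polynomial (P3 K) :=
    aeval ![Polynomial.C (X 0), Polynomial.C (X 1), Polynomial.C (X 2), Polynomial.X]
  let χ : Polynomial (P3 K) →+* P4 K := Polynomial.eval₂RingHom (up : P3 K →+* P4 K) (X 3)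
  have hχψ : ∀ H, χ (ψ H) = H := by
    intro H
    induction H using MvPolynomial.induction_on with
    | C c =>
      have e2 : ψ (C c) = Polynomial.C (C c) := ψ.commutes c
      rw [e2]; simp [χ, up]
    | add p q hp hq => rw [map_add, map_add, hp, hq]
    | mul_X p i hp =>
      rw [map_mul, map_mul, hp]
      congr 1
      fin_cases i <;> simp [χ, ψ, up]
  have hev : ∀ H : P4 K, aeval ![algebraMap (P3 K) (FractionRing (P3 K)) (X 0),
      algebraMap (P3 K) _ (X 1), algebraMap (P3 K) _ (X 2), T] H = Polynomial.aeval T (ψ H) := by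
    intro H
    induction H using MvPolynomial.induction_on with
    | C c =>
      have e2 : ψ (C c) = Polynomial.C (C c) := ψ.commutes c
      rw [e2, Polynomial.aeval_C, aeval_C, ← algebraMap_eq, ← IsScalarTower.algebraMap_apply]
    | add p q hp hq => rw [map_add, map_add, map_add, hp, hq]
    | mul_X p i hp =>
      rw [map_mul, map_mul, map_mul, hp]
      congr 1
      fin_cases i <;> simp [ψ]
  have hψup : ∀ f : P3 K, ψ (up f) = Polynomial.C f := by
    intro f
    induction f using MvPolynomial.induction_on with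
    | C c =>
      have e1 : up (C c) = C c := up.commutes c
      rw [e1]; exact ψ.commutes c
    | add p q hp hq => rw [map_add, map_add, map_add, hp, hq]
    | mul_X p i hp =>
      rw [map_mul, map_mul, map_mul, hp]
      congr 1
      fin_cases i <;> simp [ψ, up]
  have hG : ψ (up A' * X 3 - up B') = Polynomial.C A' * Polynomial.X - Polynomial.C B' := by
    rw [map_sub, map_mul, hψup, hψup]
    congr 2
    simp [ψ]
  refine ⟨up A' * X 3 - up B', α' + M,
    ((hup _ _ hα').mul (isWeightedHomogeneous_X K ![1, 1, Q, M] 3)).sub (hup _ _ hB'),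
    fun H => ⟨fun h => ?_, fun h => ?_⟩, fun R τ hR hτ => ?_⟩
  · rw [hev] at h
    have h1 := map_dvd χ (ker56 hinj A' B' hrel T hT' _ h)
    rwa [← hG, hχψ, hχψ] at h1
  · obtain ⟨q, rfl⟩ := h
    rw [map_mul, hev, hG, map_sub, map_mul, Polynomial.aeval_C, Polynomial.aeval_X,
      Polynomial.aeval_C, hT', sub_self, zero_mul]
  · have hevup : ∀ f : P3 K, eval ![R 0, R 1, R 2, τ] (up f) = eval R f := by
      intro f
      induction f using MvPolynomial.induction_on with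
      | C c =>
        have e1 : up (C c) = C c := up.commutes c
        rw [e1, eval_C, eval_C]
      | add p q hp hq => rw [map_add, map_add, map_add, hp, hq]
      | mul_X p i hp =>
        rw [map_mul, map_mul, map_mul, hp]
        congr 1
        fin_cases i <;> simp [up]
    rw [map_mul] at hR
    rw [map_mul, map_mul, mul_assoc] at hτ
    have h1 := mul_left_cancel₀ (left_ne_zero_of_mul hR) hτ
    rw [map_sub, map_mul, hevup, hevup, eval_X, ← h1]
    exact sub_self _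

theorem e_one (p : ℕ) : ONE_s.{u} p := by
  intro K _ _ hp _ I a F D E c g ρ ρ' j A N v v' _ hN hA hc hgp hρ hid hroot hv hv'
  have hp0 : 0 < p := hp.out.pos
  set R := val3 a v with hR
  let φ : Polynomial K := ∑ r ∈ Finset.range (p + 1), Polynomial.monomial r (eval R (g r) / eval R c)
  have hφc : ∀ n, φ.coeff n = if n < p + 1 then eval R (g n) / eval R c else 0 := by
    intro n
    simp only [φ, Polynomial.finsetSum_coeff, Polynomial.coeff_monomial]
    rw [Finset.sum_ite_eq']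
    simp only [Finset.mem_range]
  have hφd : φ.natDegree = p := by
    refine Polynomial.natDegree_eq_of_le_of_coeff_ne_zero ?_ ?_
    · rw [Polynomial.natDegree_le_iff_coeff_eq_zero]
      intro n hn
      rw [hφc, if_neg (by omega)]
    · rw [hφc, if_pos (by omega)]
      exact div_ne_zero hgp hc
  have hφ0 : φ ≠ 0 := by
    intro h; rw [h, Polynomial.natDegree_zero] at hφd; omega
  have hφe : ∀ t, eval R c * φ.eval t = ∑ r ∈ Finset.range (p + 1), eval R (g r) * t ^ r := by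
    intro t
    simp only [φ, Polynomial.eval_finsetSum, Polynomial.eval_monomial]
    rw [Finset.mul_sum]
    refine Finset.sum_congr rfl fun r _ => ?_
    field_simp
  have hfrob : ∀ x y : K, x ^ (p * p ^ j) = y ^ (p * p ^ j) → x = y := by
    intro x y h
    rw [← pow_succ'] at h
    have h1 : (x - y) ^ p ^ (j + 1) = 0 := by rw [sub_pow_char_pow, h, sub_self]
    exact sub_eq_zero.1 (pow_eq_zero_iff (pow_ne_zero _ hp0.ne') |>.1 h1)
  have hden : ρ ^ (p * p ^ j) - ρ' ^ (p * p ^ j) ≠ 0 := fun h => hρ (hfrob _ _ (sub_eq_zero.1 h))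
  set al := (v 0 ^ N - v' 0 ^ N) / (ρ ^ (p * p ^ j) - ρ' ^ (p * p ^ j)) with hal
  have hal0 : al ≠ 0 := div_ne_zero (sub_ne_zero.2 hN) hden
  have hl : φ.leadingCoeff ^ p ^ j ≠ 0 := pow_ne_zero _ (Polynomial.leadingCoeff_ne_zero.2 hφ0)
  have : ExpChar K p := ExpChar.prime hp.out
  obtain ⟨β, hβ⟩ := poly_eval56 p φ p j A hp0 hφd hA al 1 one_ne_zero
  refine ⟨φ.leadingCoeff ^ p ^ j / al, β, div_ne_zero hl hal0, fun Λ b hΛ hb => ?_⟩
  have hlow : ∀ t, low p A b R (φ.eval t) t =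
      al * t ^ (p * p ^ j) - al / φ.leadingCoeff ^ p ^ j * φ.eval t ^ p ^ j := by
    intro t
    rw [← hβ t, add_sub_cancel_left, low]
    refine Finset.sum_congr rfl fun i hi => Finset.sum_congr rfl fun r hr => ?_
    rw [one_mul, ← hb i (Nat.lt_succ_iff.1 (Finset.mem_range.1 hi)) r (Finset.mem_range.1 hr)]
    rfl
  have hval : ∀ (w : Fin 4 → K) (σ : K), Has I a D E w σ → ∀ ν, Val I a D E w ν → ν = σ := by
    rintro w σ ⟨h1, h2, h3, h4, h5⟩ ν hν
    have := hν h1 h2 h4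
    rw [h5, mul_comm σ] at this
    exact mul_left_cancel₀ h3 this
  have hmu : ∀ τ μ ν, Rel p (p ^ j) A F D E Λ b R τ μ ν →
      μ = φ.eval ν ∧ τ = al * ν ^ (p * p ^ j) := by
    intro τ μ ν h
    have h1 : μ = φ.eval ν := mul_left_cancel₀ hc ((h.lin c g hid).trans (hφe ν).symm)
    refine ⟨h1, ?_⟩
    have h2 := h.top
    rw [hΛ, h1, hlow] at h2
    have h3 : φ.leadingCoeff ^ p ^ j / al * (τ - al * ν ^ (p * p ^ j)) = 0 := by
      have h4 : φ.leadingCoeff ^ p ^ j / al * (al / φ.leadingCoeff ^ p ^ j) = 1 := by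
        field_simp
      linear_combination h2 - φ.eval ν ^ p ^ j * h4
    exact sub_eq_zero.1 ((mul_eq_zero.1 h3).resolve_left (div_ne_zero hl hal0))
  have hz : ∀ t, t = ρ ∨ t = ρ' → low p A b R 0 t = al * t ^ (p * p ^ j) := by
    intro t ht
    have h1 : φ.eval t = 0 :=
      (mul_eq_zero.1 ((hφe t).trans ((hroot t).2 ht))).resolve_left hc
    have h2 := hlow t
    rwa [h1, zero_pow (pow_ne_zero _ hp0.ne'), mul_zero, sub_zero] at h2
  refine ⟨ρ, ρ', hval v ρ hv, hval v' ρ' hv', fun τ ν h => ?_, fun τ μ ν μ' ν' h h' => ?_, ?_⟩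
  · have h1 := h.lin c g hid
    rw [mul_zero] at h1
    exact (hroot ν).1 h1.symm
  · obtain ⟨h1, h2⟩ := hmu τ μ ν h
    obtain ⟨h1', h2'⟩ := hmu τ μ' ν' h'
    have h3 : ν = ν' := hfrob _ _ (mul_left_cancel₀ hal0 (h2.symm.trans h2'))
    rw [h1, h1', h3]
  · rw [hz ρ (Or.inl rfl), hz ρ' (Or.inr rfl), ← mul_sub, hal, div_mul_cancel₀ _ hden]

end H62e

end PartH62eA56

section PartH62eB87

set_option autoImplicit false

open MvPolynomial H39c

namespace H62e

universe u

theorem extend87 {k C B : Type*} [Field k] [IsAlgClosed k] [CommRing C] [CommRing B]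
    [Algebra k C] [Algebra k B] [Algebra C B] [IsScalarTower k C B] [Algebra.FiniteType k B]
    [Algebra.IsIntegral C B] (φ : C →ₐ[k] k)
    (hker : RingHom.ker (algebraMap C B) ≤ RingHom.ker φ) :
    ∃ Φ : B →ₐ[k] k, ∀ c, Φ (algebraMap C B c) = φ c := by
  have hsurj : Function.Surjective φ := fun t => ⟨algebraMap k C t, by simp⟩
  have hmax : (RingHom.ker φ).IsMaximal := RingHom.ker_isMaximal_of_surjective φ hsurj
  obtain ⟨Q, hQ, hQc⟩ :=
    Ideal.exists_ideal_over_maximal_of_isIntegral (S := B) (RingHom.ker φ) hker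
  obtain ⟨χ, hχ⟩ := H33s.point_of_maximal (k := k) Q (h := hQ)
  refine ⟨χ, fun c => ?_⟩
  have h1 : c - algebraMap k C (φ c) ∈ RingHom.ker φ := by
    rw [RingHom.mem_ker]
    simp
  rw [← hQc, Ideal.mem_comap, ← hχ, map_sub, map_sub, ← IsScalarTower.algebraMap_apply,
    AlgHom.commutes, sub_eq_zero] at h1
  exact h1

theorem hom_eval87 {K σ : Type*} [Field K] (χ : MvPolynomial σ K →ₐ[K] K)
    (w : MvPolynomial σ K) : χ w = eval (fun j => χ (X j)) w :=
  congrArg (fun F : MvPolynomial σ K →ₐ[K] K => F w) (aeval_unique χ)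

theorem e_fini (p : ℕ) : FINI_s.{u} p := by
  intro K _ _ I m Q a F n' hp hP
  obtain ⟨i1, hm⟩ := hP.hm
  obtain ⟨i2, hQ⟩ := hP.hQ
  have hm0 : 0 < m := by
    rw [hm]
    exact pow_pos hp _
  have hQ0 : 0 < Q := by
    rw [hQ]
    exact pow_pos hp _
  have hfin := mv_fin_quot I hP.comp a (fun i => m * wt Q i) (fun i => Nat.mul_pos hm0 (by
    fin_cases i
    · exact one_pos
    · exact one_pos
    · exact hQ0)) hP.ha (fun v hv h => hP.ncz v hv (h 0) (h 1))
  refine ⟨hfin, fun R => ⟨fun hR => ?_, ?_⟩⟩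
  · let _ : Algebra (P3 K) (P4 K ⧸ I) := ((Ideal.Quotient.mkₐ K I).comp
      (aeval a : P3 K →ₐ[K] P4 K)).toRingHom.toAlgebra
    have hmap : ∀ f : P3 K, algebraMap (P3 K) (P4 K ⧸ I) f = Ideal.Quotient.mk I (aeval a f) :=
      fun _ => rfl
    have : IsScalarTower K (P3 K) (P4 K ⧸ I) :=
      IsScalarTower.of_algebraMap_eq fun r => by
        rw [hmap, AlgHom.commutes]
        rfl
    have : Module.Finite (P3 K) (P4 K ⧸ I) := hfin
    obtain ⟨Φ, hΦ⟩ := extend87 (k := K) (C := P3 K) (B := P4 K ⧸ I) (aeval R) (fun f hf => by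
      rw [RingHom.mem_ker, hmap, Ideal.Quotient.eq_zero_iff_mem, hP.ker] at hf
      obtain ⟨g, rfl⟩ := hf
      rw [RingHom.mem_ker, map_mul, aeval_eq_eval, hR, zero_mul])
    have e1 : ∀ w : P4 K, Φ (Ideal.Quotient.mk I w) =
        eval (fun j => Φ (Ideal.Quotient.mk I (X j))) w :=
      fun w => hom_eval87 (Φ.comp (Ideal.Quotient.mkₐ K I)) w
    refine ⟨fun j => Φ (Ideal.Quotient.mk I (X j)), fun w hw => ?_, funext fun i => ?_⟩
    · rw [← e1, Ideal.Quotient.eq_zero_iff_mem.2 hw, map_zero]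
    · have := hΦ (X i)
      rw [hmap, aeval_X, aeval_X, e1] at this
      exact this
  · rintro ⟨v, hv, rfl⟩
    have := hv _ ((hP.ker F).2 dvd_rfl)
    rw [H33s.eval_aeval'] at this
    exact this

theorem e_frob (p : ℕ) : FROB_s.{u} p := by
  intro K _ _ _ m Q M N e G h hG hh
  have hX : ∀ i : Fin 4, (X i ^ p ^ e : P4 K).IsWeightedHomogeneous ![m, m, m * Q, 1]
      (p ^ e * ![m, m, m * Q, 1] i) := fun i => (isWeightedHomogeneous_X K _ i).pow _
  have hh4 : (aeval ![X 0, X 1, X 2] h : P4 K).IsWeightedHomogeneous ![m, m, m * Q, 1]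
      (m * (M * p ^ e)) := by
    refine mv_aeval_hom (wt Q) _ m _ (fun j => ?_) hh
    fin_cases j
    · have := isWeightedHomogeneous_X K (![m, m, m * Q, 1] : Fin 4 → ℕ) 0
      simpa [wt] using this
    · have := isWeightedHomogeneous_X K (![m, m, m * Q, 1] : Fin 4 → ℕ) 1
      simpa [wt] using this
    · have := isWeightedHomogeneous_X K (![m, m, m * Q, 1] : Fin 4 → ℕ) 2
      simpa [wt] using this
  refine ⟨aeval ![X 0 ^ p ^ e, X 1 ^ p ^ e, X 2 ^ p ^ e,
      (X 3 ^ (m * M)) ^ p ^ e - aeval ![X 0, X 1, X 2] h]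
      (MvPolynomial.map (iterateFrobenius K p e) G), p ^ e * m * N,
    mv_aeval_hom ![1, 1, Q, M] _ _ _ (fun j => ?_) (mv_map_hom _ _ hG), fun R ω τ hτ => ?_⟩
  · fin_cases j
    · simpa using hX 0
    · simpa using hX 1
    · simpa [mul_assoc] using hX 2
    · have h3 := ((isWeightedHomogeneous_X K (![m, m, m * Q, 1] : Fin 4 → ℕ) 3).pow
        (m * M)).pow (p ^ e)
      have e3 : p ^ e • (m * M) • (![m, m, m * Q, 1] : Fin 4 → ℕ) 3 = p ^ e * m * M := by
        simp [mul_assoc]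
      have e4 : m * (M * p ^ e) = p ^ e * m * M := by ring
      rw [e3] at h3
      rw [e4] at hh4
      exact h3.sub hh4
  · rw [H33s.eval_aeval', ← mv_eval_frob p e]
    refine congrArg (fun x => eval x (MvPolynomial.map (iterateFrobenius K p e) G))
      (funext fun j => ?_)
    fin_cases j
    · simp
    · simp
    · simp
    · have e5 : eval ![R 0, R 1, R 2, ω] (aeval ![X 0, X 1, X 2] h : P4 K) = eval R h := by
        rw [H33s.eval_aeval']
        refine congrArg (fun x => eval x h) (funext fun i => ?_)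
        fin_cases i <;> simp
      show eval ![R 0, R 1, R 2, ω]
        ((X 3 ^ (m * M)) ^ p ^ e - aeval ![X 0, X 1, X 2] h : P4 K) = τ ^ p ^ e
      rw [map_sub, e5, hτ, map_pow, map_pow, eval_X]
      rfl

theorem low_map87 {K B B' : Type u} [Field K] [CommRing B] [Algebra K B] [CommRing B']
    [Algebra K B'] (χ : B →ₐ[K] B') (p A : ℕ) (b : ℕ → ℕ → P3 K) (R : Fin 3 → B) (μ ν : B) :
    χ (low p A b R μ ν) = low p A b (fun i => χ (R i)) (χ μ) (χ ν) := by
  simp only [low, map_sum, map_mul, map_pow, ← MvPolynomial.comp_aeval_apply]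

/-- The ring `B` generated by the coordinate ring and `ν = E / D`, abstractly. -/
theorem link_core87 {K : Type u} [Field K] [IsAlgClosed K] (p : ℕ) [Fact p.Prime] [CharP K p]
    (I : Ideal (P4 K)) (a : Fin 3 → P4 K) (F D E Λ : P3 K) (b : ℕ → ℕ → P3 K) (Q κ A M N : ℕ)
    (G1 G2 : P4 K) (hF : aeval a F ∈ I) (hD : aeval a D ∉ I) (hΛ : aeval a Λ ∉ I)
    (hS : Surf p Q κ A M F D E Λ b G1 G2)
    (hsv : ∀ v ∈ V I, ∀ v' ∈ V I, val3 a v = val3 a v' → ∀ ν ν', Val I a D E v ν →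
      Val I a D E v' ν' →
      v 0 ^ N - low p A b (val3 a v) 0 ν = v' 0 ^ N - low p A b (val3 a v') 0 ν')
    (B : Type u) [CommRing B] [IsDomain B] [Algebra K B] (π : P4 K →ₐ[K] B)
    (hπ : ∀ w, π w = 0 ↔ w ∈ I) (ν : B) (hν : π (aeval a D) * ν = π (aeval a E))
    (hfin : (π.comp (aeval a : P3 K →ₐ[K] P4 K)).toRingHom.Finite) :
    ∃ (e : ℕ) (h : P3 K), ∀ v ∈ V I, ∃ ν, Val I a D E v ν ∧
      eval (val3 a v) h = (v 0 ^ N - low p A b (val3 a v) 0 ν) ^ p ^ e ∧
      eval ![val3 a v 0, val3 a v 1, val3 a v 2, low p A b (val3 a v) 0 ν] G1 = 0 ∧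
      eval ![val3 a v 0, val3 a v 1, val3 a v 2, low p A b (val3 a v) 0 ν] G2 = 0 := by
  have hfin4 : π.toRingHom.Finite :=
    RingHom.Finite.of_comp_finite (f := (aeval a : P3 K →ₐ[K] P4 K).toRingHom) hfin
  have hD0 : π (aeval a D) ≠ 0 := fun h => hD ((hπ _).1 h)
  have hΛ0 : π (aeval a Λ) ≠ 0 := fun h => hΛ ((hπ _).1 h)
  have e1 : ∀ (χ : B →ₐ[K] K) (w : P4 K), χ (π w) = eval (fun j => χ (π (X j))) w :=
    fun χ w => hom_eval87 (χ.comp π) w
  have e2 : ∀ χ : B →ₐ[K] K, (fun j => χ (π (X j))) ∈ V I := by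
    intro χ w hw
    rw [← e1, (hπ w).2 hw, map_zero]
  have e3 : ∀ χ : B →ₐ[K] K, (fun i => χ (π (a i))) = val3 a (fun j => χ (π (X j))) :=
    fun χ => funext fun i => e1 χ (a i)
  have e4 : ∀ (χ : B →ₐ[K] K) (f : P3 K),
      χ (π (aeval a f)) = eval (val3 a (fun j => χ (π (X j)))) f := by
    intro χ f
    rw [e1, H33s.eval_aeval']
    rfl
  have e5 : ∀ χ : B →ₐ[K] K, Val I a D E (fun j => χ (π (X j))) (χ ν) := by
    intro χ h1 h2 hh
    have h3 := (hπ _).2 hh
    rw [map_sub, map_mul, map_mul, ← hν] at h3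
    have h4 : π h1 * ν = π h2 := by
      apply mul_left_cancel₀ hD0
      linear_combination h3
    rw [← e1, ← e1, ← h4, map_mul]
  have e6 : ∀ χ : B →ₐ[K] K, χ (low p A b (fun i => π (a i)) 0 ν) =
      low p A b (val3 a (fun j => χ (π (X j)))) 0 (χ ν) := by
    intro χ
    rw [low_map87, map_zero, e3]
  have e7 : ∀ (χ : B →ₐ[K] K) (G : P4 K),
      χ (aeval ![π (a 0), π (a 1), π (a 2), low p A b (fun i => π (a i)) 0 ν] G) =
      eval ![val3 a (fun j => χ (π (X j))) 0, val3 a (fun j => χ (π (X j))) 1,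
        val3 a (fun j => χ (π (X j))) 2,
        low p A b (val3 a (fun j => χ (π (X j)))) 0 (χ ν)] G := by
    intro χ G
    rw [MvPolynomial.comp_aeval_apply, ← aeval_eq_eval]
    refine congrArg (fun x => aeval x G) (funext fun j => ?_)
    fin_cases j
    · exact e1 χ (a 0)
    · exact e1 χ (a 1)
    · exact e1 χ (a 2)
    · exact e6 χ
  have hFT : Algebra.FiniteType K B := by
    let _ : Algebra (P4 K) B := π.toRingHom.toAlgebra
    have : IsScalarTower K (P4 K) B :=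
      IsScalarTower.of_algebraMap_eq fun r => (π.commutes r).symm
    have : Module.Finite (P4 K) B := hfin4
    exact Algebra.FiniteType.trans (S := P4 K) inferInstance inferInstance
  have hG : ∀ G : P4 K, (∀ (R : Fin 3 → K) (t : K), eval R F = 0 → eval R D ≠ 0 →
      eval R Λ ≠ 0 → eval R D * t = eval R E → eval ![R 0, R 1, R 2, low p A b R 0 t] G = 0) →
      aeval ![π (a 0), π (a 1), π (a 2), low p A b (fun i => π (a i)) 0 ν] G = 0 := by
    intro G hG
    have hnil := H33s.nilpotent_of_points (k := K) (π (aeval a D) * π (aeval a Λ) *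
      aeval ![π (a 0), π (a 1), π (a 2), low p A b (fun i => π (a i)) 0 ν] G) fun χ => by
        rw [map_mul, map_mul, e4, e4, e7]
        by_cases h1 : eval (val3 a (fun j => χ (π (X j)))) D = 0
        · rw [h1, zero_mul, zero_mul]
        by_cases h2 : eval (val3 a (fun j => χ (π (X j)))) Λ = 0
        · rw [h2, mul_zero, zero_mul]
        rw [hG _ _ (by rw [← e4, (hπ _).2 hF, map_zero]) h1 h2
          (by rw [← e4, ← e4, ← map_mul, hν]), mul_zero]
    exact (mul_eq_zero.1 hnil.eq_zero).resolve_left (mul_ne_zero hD0 hΛ0)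
  have hG1 := hG G1 fun R t h1 h2 h3 h4 => (hS.sup R t h1 h2 h3 h4).1
  have hG2 := hG G2 fun R t h1 h2 h3 h4 => (hS.sup R t h1 h2 h3 h4).2
  have hmove : ∃ (e : ℕ) (h : P3 K),
      (π (X 0) ^ N - low p A b (fun i => π (a i)) 0 ν) ^ p ^ e = π (aeval a h) := by
    let _ : Algebra (P3 K) B := (π.comp (aeval a : P3 K →ₐ[K] P4 K)).toRingHom.toAlgebra
    have hmap : ∀ f : P3 K, algebraMap (P3 K) B f = π (aeval a f) := fun _ => rfl
    have : IsScalarTower K (P3 K) B :=
      IsScalarTower.of_algebraMap_eq fun r => by rw [hmap, AlgHom.commutes, AlgHom.commutes]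
    have : Module.Finite (P3 K) B := hfin
    exact H33s.move_affine (k := K) (A := P3 K) p _ fun φ ψ hφ => by
      rw [map_sub, map_sub, map_pow, map_pow, e6, e6]
      refine hsv _ (e2 φ) _ (e2 ψ) ?_ _ _ (e5 φ) (e5 ψ)
      rw [← e3, ← e3]
      funext i
      have := hφ (X i)
      rwa [hmap, aeval_X] at this
  obtain ⟨e, h, hh⟩ := hmove
  refine ⟨e, h, fun v hv => ?_⟩
  have hext : ∃ χ : B →ₐ[K] K, ∀ w, χ (π w) = aeval v w := by
    let _ : Algebra (P4 K) B := π.toRingHom.toAlgebra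
    have : IsScalarTower K (P4 K) B :=
      IsScalarTower.of_algebraMap_eq fun r => (π.commutes r).symm
    have : Module.Finite (P4 K) B := hfin4
    exact extend87 (k := K) (C := P4 K) (B := B) (aeval v) fun w hw => by
      rw [RingHom.mem_ker, aeval_eq_eval]
      exact hv w ((hπ w).1 hw)
  obtain ⟨χ, hχ⟩ := hext
  have hvχ : (fun j => χ (π (X j))) = v := funext fun j => by rw [hχ, aeval_X]
  refine ⟨χ ν, ?_, ?_, ?_, ?_⟩
  · have := e5 χ
    rwa [hvχ] at this
  · have := congrArg χ hh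
    rw [e4, map_pow, map_sub, map_pow, e6, hvχ, hχ, aeval_X] at this
    exact this.symm
  · have := e7 χ G1
    rw [hG1, map_zero, hvχ] at this
    exact this.symm
  · have := e7 χ G2
    rw [hG2, map_zero, hvχ] at this
    exact this.symm

theorem e_link1 (p : ℕ) : LINK1_s.{u} p := by
  intro hINT hK1 hSC hFINI K _ _ hp _ I m Q a F D E Λ b n' d s θ κ A M G1 G2 hP hSys hS hsv
  have hp0 : 0 < p := hp.out.pos
  have hI : I.IsPrime := hP.prime
  have hF : aeval a F ∈ I := (hP.ker F).2 dvd_rfl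
  have hD : aeval a D ∉ I := fun h => hSys.nD ((hP.ker D).1 h)
  have hΛ : aeval a Λ ∉ I := fun h => hSys.nΛ ((hP.ker Λ).1 h)
  obtain ⟨hfin, -⟩ := hFINI K I m Q a F n' hp0 hP
  let S := P4 K ⧸ I
  let L := FractionRing S
  let π0 : P4 K →ₐ[K] L := (IsScalarTower.toAlgHom K S L).comp (Ideal.Quotient.mkₐ K I)
  have hπ0 : ∀ w, π0 w = 0 ↔ w ∈ I := by
    intro w
    rw [← Ideal.Quotient.eq_zero_iff_mem]
    exact map_eq_zero_iff (algebraMap S L) (IsFractionRing.injective S L)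
  have hξ : ∀ f : P3 K, aeval (fun i => π0 (a i)) f = π0 (aeval a f) := fun f =>
    (MvPolynomial.comp_aeval_apply _ π0 f).symm
  have hD0 : π0 (aeval a D) ≠ 0 := fun h => hD ((hπ0 _).1 h)
  let ν : L := π0 (aeval a E) / π0 (aeval a D)
  have hν : π0 (aeval a D) * ν = π0 (aeval a E) := mul_div_cancel₀ _ hD0
  have hκ : κ ≠ 0 := by
    have := hSys.wts.hκ
    omega
  have hp1 : p - 1 ≠ 0 := by
    have := hp.out.two_le
    omega
  obtain ⟨hint, -, -⟩ := hINT hK1 hSC K Q F D E Λ b (n' * Q) d s θ κ A M hp0 hSys.wts hSys.lead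
    L (fun i => π0 (a i)) 0 ν (low p A b (fun i => π0 (a i)) 0 ν) (by rw [hξ]; exact hD0)
    (by rw [mul_zero, hξ, (hπ0 _).2 hF, zero_pow hp1]) (by rw [hξ, hξ, hν])
    (by rw [sub_self, mul_zero, zero_pow hκ])
  have hle : Algebra.adjoin K (insert (0 : L) (Set.range fun i => π0 (a i))) ≤
      (IsScalarTower.toAlgHom K S L).range := by
    rw [Algebra.adjoin_le_iff]
    rintro x (rfl | ⟨i, rfl⟩)
    · exact Subalgebra.zero_mem _
    · exact ⟨Ideal.Quotient.mk I (a i), rfl⟩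
  have hintS : IsIntegral S ν := by
    have h1 : IsIntegral (IsScalarTower.toAlgHom K S L).range ν := by
      obtain ⟨f, hf, hf0⟩ := hint
      refine ⟨f.map (Subalgebra.inclusion hle).toRingHom, hf.map _, ?_⟩
      rw [Polynomial.eval₂_map]
      exact hf0
    obtain ⟨f, hf, hf0⟩ := h1
    have hsurj : Function.Surjective (IsScalarTower.toAlgHom K S L).rangeRestrict.toRingHom :=
      (IsScalarTower.toAlgHom K S L).rangeRestrict_surjective
    obtain ⟨g, hg, -, hgm⟩ := Polynomial.lifts_and_degree_eq_and_monic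
      (Polynomial.mem_lifts_of_surjective hsurj f) hf
    refine ⟨g, hgm, ?_⟩
    rw [← hg, Polynomial.eval₂_map] at hf0
    exact hf0
  let B : Subalgebra S L := Algebra.adjoin S {ν}
  have hBf : Module.Finite S B := Algebra.finite_adjoin_simple_of_isIntegral hintS
  let π : P4 K →ₐ[K] B := (IsScalarTower.toAlgHom K S B).comp (Ideal.Quotient.mkₐ K I)
  have hππ : ∀ w, (π w : L) = π0 w := fun _ => rfl
  refine link_core87 p I a F D E Λ b Q κ A M (m * M) G1 G2 hF hD hΛ hS hsv B π (fun w => ?_)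
    ⟨ν, Algebra.self_mem_adjoin_singleton S ν⟩ (Subtype.ext hν) ?_
  · rw [← hπ0, ← hππ]
    exact ZeroMemClass.coe_eq_zero.symm
  · have h1 := (RingHom.finite_algebraMap (A := S) (B := B)).2 hBf
    exact RingHom.Finite.comp (A := P3 K) (B := S) (C := B) h1 hfin

end H62e

end PartH62eB87

section PartH62eC95

set_option autoImplicit false

open MvPolynomial H39c

namespace H62e

universe u

theorem map_aeval95 {K B B' σ : Type*} [CommRing K] [CommRing B] [Algebra K B] [CommRing B']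
    [Algebra K B'] (f : B →ₐ[K] B') (x : σ → B) (g : MvPolynomial σ K) :
    f (aeval x g) = aeval (fun i => f (x i)) g := by
  rw [← comp_aeval x f]; rfl

theorem map_low95 {K B B' : Type u} [Field K] [CommRing B] [Algebra K B] [CommRing B']
    [Algebra K B'] (f : B →ₐ[K] B') (p A : ℕ) (b : ℕ → ℕ → P3 K) (x : Fin 3 → B) (m n : B) :
    f (low p A b x m n) = low p A b (fun i => f (x i)) (f m) (f n) := by
  simp only [low, map_sum, map_mul, map_pow, map_aeval95]

theorem ae95 {K σ : Type*} [CommRing K] (R : σ → K) (g : MvPolynomial σ K) :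
    aeval R g = eval R g := rfl

theorem extend95 {k C B : Type*} [Field k] [IsAlgClosed k] [CommRing C] [CommRing B]
    [Algebra k C] [Algebra k B] [Algebra C B] [IsScalarTower k C B] [Algebra.FiniteType k B]
    [Algebra.IsIntegral C B] (φ : C →ₐ[k] k) (hk : ∀ c, algebraMap C B c = 0 → φ c = 0) :
    ∃ Φ : B →ₐ[k] k, ∀ c, Φ (algebraMap C B c) = φ c := by
  have hsurj : Function.Surjective φ := fun t => ⟨algebraMap k C t, by simp⟩
  have hmax : (RingHom.ker φ).IsMaximal := RingHom.ker_isMaximal_of_surjective φ hsurj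
  obtain ⟨Q, hQ, hQc⟩ := Ideal.exists_ideal_over_maximal_of_isIntegral (S := B) (RingHom.ker φ)
    (fun c hc => hk c hc)
  obtain ⟨χ, hχ⟩ := H33s.point_of_maximal (k := k) Q (h := hQ)
  refine ⟨χ, fun c => ?_⟩
  have h1 : c - algebraMap k C (φ c) ∈ RingHom.ker φ := by
    rw [RingHom.mem_ker]; simp
  rw [← hQc, Ideal.mem_comap, ← hχ, map_sub, map_sub, ← IsScalarTower.algebraMap_apply,
    AlgHom.commutes, sub_eq_zero] at h1
  exact h1

theorem intel95 {K A L : Type*} [CommRing K] [CommRing A] [CommRing L] [Algebra K A] [Algebra K L]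
    (ψ : A →ₐ[K] L) (S : Subalgebra K L) (hS : S ≤ ψ.range) (x : L) (hx : IsIntegral S x) :
    ψ.toRingHom.IsIntegralElem x := by
  obtain ⟨P, hP, h0⟩ := hx
  have hl : P.map (algebraMap S L) ∈ Polynomial.lifts ψ.toRingHom := by
    rw [Polynomial.lifts_iff_coeff_lifts]
    intro n
    rw [Polynomial.coeff_map]
    obtain ⟨a, ha⟩ := hS (P.coeff n).2
    exact ⟨a, ha⟩
  obtain ⟨q, hq, -, hm⟩ := Polynomial.lifts_and_natDegree_eq_and_monic hl (hP.map _)
  refine ⟨q, hm, ?_⟩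
  rw [Polynomial.eval₂_eq_eval_map, hq, ← Polynomial.eval₂_eq_eval_map]
  exact h0

theorem key95 {K B : Type u} [Field K] [CommRing B] [Algebra K B] (p κ A : ℕ) (hp : 0 < p)
    (hκ : A + p ≤ κ) (F D E Λ : P3 K) (b : ℕ → ℕ → P3 K) (x : Fin 3 → B) (τ μ ν : B)
    (h1 : aeval x D ^ p * μ = aeval x F ^ (p - 1)) (h2 : aeval x D * ν = aeval x E)
    (h3 : aeval x Λ * (τ - low p A b x μ ν) = μ ^ κ) :
    aeval x (D ^ (p * κ) * Λ) * τ =
      aeval x ((F ^ (p - 1)) ^ κ + Λ * ∑ i ∈ Finset.range (A + 1), ∑ r ∈ Finset.range p,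
        b i r * (F ^ (p - 1)) ^ i * E ^ r * D ^ (p * κ - (p * i + r))) := by
  have e : aeval x D ^ (p * κ) * low p A b x μ ν =
      ∑ i ∈ Finset.range (A + 1), ∑ r ∈ Finset.range p,
        aeval x (b i r) * (aeval x F ^ (p - 1)) ^ i * aeval x E ^ r *
          aeval x D ^ (p * κ - (p * i + r)) := by
    rw [low, Finset.mul_sum]
    refine Finset.sum_congr rfl fun i hi => ?_
    rw [Finset.mul_sum]
    refine Finset.sum_congr rfl fun r hr => ?_
    have hi' := Finset.mem_range.1 hi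
    have hr' := Finset.mem_range.1 hr
    have hle : p * i + r ≤ p * κ := by
      have : p * (i + 1) ≤ p * κ := Nat.mul_le_mul_left p (by omega)
      rw [Nat.mul_add, Nat.mul_one] at this
      omega
    obtain ⟨e, he⟩ := Nat.exists_eq_add_of_le hle
    rw [he, Nat.add_sub_cancel_left, ← h1, ← h2, pow_add, pow_add, pow_mul, mul_pow, mul_pow]
    ring
  simp only [map_add, map_mul, map_pow, map_sum]
  rw [← e, ← h1, mul_pow, ← h3, ← pow_mul]
  ring

theorem hom95 {K : Type u} [Field K] (p Q : ℕ) (_hp : 0 < p) (F D E Λ : P3 K) (b : ℕ → ℕ → P3 K)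
    (n d s θ κ A M : ℕ) (W : Wts p Q F D E Λ b n d s θ κ A M) :
    ∃ α, (D ^ (p * κ) * Λ).IsWeightedHomogeneous (wt Q) α ∧
      ((F ^ (p - 1)) ^ κ + Λ * ∑ i ∈ Finset.range (A + 1), ∑ r ∈ Finset.range p,
        b i r * (F ^ (p - 1)) ^ i * E ^ r * D ^ (p * κ - (p * i + r))).IsWeightedHomogeneous
        (wt Q) (α + M) := by
  obtain ⟨l, hl, hlM⟩ := W.hΛ
  have hF : (F ^ (p - 1)).IsWeightedHomogeneous (wt Q) (p * d + θ) := by
    have := W.hF.pow (p - 1)
    rwa [smul_eq_mul, W.hθ] at this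
  refine ⟨p * κ * d + l, ?_, ?_⟩
  · have := (W.hD.pow (p * κ)).mul hl
    rwa [smul_eq_mul] at this
  · refine IsWeightedHomogeneous.add ?_ ?_
    · have := hF.pow κ
      rwa [smul_eq_mul, show κ * (p * d + θ) = p * κ * d + l + M by
        rw [add_assoc, add_comm l M, hlM]; ring] at this
    · rw [show p * κ * d + l + M = l + (p * κ * d + M) by ring]
      refine hl.mul (IsWeightedHomogeneous.sum _ _ _ fun i hi =>
        IsWeightedHomogeneous.sum _ _ _ fun r hr => ?_)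
      have hi' := Finset.mem_range.1 hi
      have hr' := Finset.mem_range.1 hr
      have hκ := W.hκ
      have hle : p * i + r ≤ p * κ := by
        have : p * (i + 1) ≤ p * κ := Nat.mul_le_mul_left p (by omega)
        rw [Nat.mul_add, Nat.mul_one] at this
        omega
      obtain ⟨e, he⟩ := Nat.exists_eq_add_of_le hle
      obtain ⟨j, -, hj, hjM⟩ := W.hb i (by omega) r hr'
      have := ((hj.mul (hF.pow i)).mul (W.hE.pow r)).mul (W.hD.pow e)
      rw [he, Nat.add_sub_cancel_left]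
      rwa [smul_eq_mul, smul_eq_mul, smul_eq_mul,
        show j + i * (p * d + θ) + r * (d + s) + e * d = (p * i + r + e) * d + M by
          rw [← hjM]; ring] at this

theorem core95 {K L : Type u} [Field K] [IsAlgClosed K] (p : ℕ) [Fact p.Prime] [CharP K p]
    [Field L] [Algebra K L] (κ A : ℕ) (F D E Λ : P3 K) (b : ℕ → ℕ → P3 K) (ξ : Fin 3 → L)
    (T μ ν : L) (G1 : P4 K)
    (hker : ∀ H : P4 K, aeval ![ξ 0, ξ 1, ξ 2, T] H = 0 ↔ G1 ∣ H)
    (hμ : IsIntegral (Algebra.adjoin K (insert T (Set.range ξ))) μ)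
    (hν : IsIntegral (Algebra.adjoin K (insert T (Set.range ξ))) ν)
    (hlin : ∀ (c : P3 K) (g : ℕ → P3 K), Idn p F D E c g →
      aeval ξ c * μ = ∑ r ∈ Finset.range (p + 1), aeval ξ (g r) * ν ^ r)
    (htop : aeval ξ Λ * (T - low p A b ξ μ ν) = μ ^ κ)
    (huniq : ∀ R τ μ ν μ' ν', Rel p κ A F D E Λ b R τ μ ν → Rel p κ A F D E Λ b R τ μ' ν' →
      low p A b R μ ν = low p A b R μ' ν') :
    ∃ (G2 : P4 K) (q : ℕ), 0 < q ∧
      ∀ (R : Fin 3 → K) (τ : K), eval ![R 0, R 1, R 2, τ] G1 = 0 → ∃ μ ν,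
        Rel p κ A F D E Λ b R τ μ ν ∧ eval ![R 0, R 1, R 2, τ] G2 = (τ - low p A b R μ ν) ^ q := by
  classical
  let ψ : P4 K →ₐ[K] L := aeval ![ξ 0, ξ 1, ξ 2, T]
  let _ : Algebra (P4 K) L := ψ.toRingHom.toAlgebra
  have hmap : ∀ f, algebraMap (P4 K) L f = ψ f := fun _ => rfl
  have : IsScalarTower K (P4 K) L :=
    IsScalarTower.of_algebraMap_eq fun r => by rw [hmap, AlgHom.commutes]
  have hξ : ∀ i : Fin 3, ψ (X i.castSucc) = ξ i := by
    intro i
    fin_cases i <;> simp [ψ]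
  have hT : ψ (X 3) = T := by simp [ψ]
  have hS : Algebra.adjoin K (insert T (Set.range ξ)) ≤ ψ.range := by
    refine Algebra.adjoin_le ?_
    rintro z (rfl | ⟨i, rfl⟩)
    · exact ⟨X 3, hT⟩
    · exact ⟨X i.castSucc, hξ i⟩
  have hμ' : IsIntegral (P4 K) μ := intel95 ψ _ hS μ hμ
  have hν' : IsIntegral (P4 K) ν := intel95 ψ _ hS ν hν
  let B : Subalgebra (P4 K) L := Algebra.adjoin (P4 K) {μ, ν}
  have hfin : Module.Finite (P4 K) B := by
    refine Module.Finite.iff_fg (N := B.toSubmodule) |>.2 ?_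
    refine fg_adjoin_of_finite (Set.toFinite _) ?_
    rintro z (rfl | rfl)
    · exact hμ'
    · exact hν'
  have hB : Algebra.FiniteType K B :=
    Algebra.FiniteType.trans (S := P4 K) inferInstance inferInstance
  let ι : B →ₐ[K] L := B.val.restrictScalars K
  have hι : Function.Injective ι := Subtype.val_injective
  have hιa : ∀ f, ι (algebraMap (P4 K) B f) = ψ f := fun _ => rfl
  let x : Fin 3 → B := fun i => algebraMap (P4 K) B (X i.castSucc)
  let t : B := algebraMap (P4 K) B (X 3)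
  let m : B := ⟨μ, Algebra.subset_adjoin (by simp)⟩
  let n : B := ⟨ν, Algebra.subset_adjoin (by simp)⟩
  have hx : (fun i => ι (x i)) = ξ := funext fun i => (hιa _).trans (hξ i)
  have ht : ι t = T := (hιa _).trans hT
  have hm : ι m = μ := rfl
  have hn : ι n = ν := rfl
  have hlinB : ∀ (c : P3 K) (g : ℕ → P3 K), Idn p F D E c g →
      aeval x c * m = ∑ r ∈ Finset.range (p + 1), aeval x (g r) * n ^ r := by
    intro c g h
    apply hι
    simp only [map_mul, map_sum, map_pow, map_aeval95, hx, hm, hn]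
    exact hlin c g h
  have htopB : aeval x Λ * (t - low p A b x m n) = m ^ κ := by
    apply hι
    simp only [map_mul, map_sub, map_pow, map_aeval95, map_low95, hx, hm, hn, ht]
    exact htop
  have hrel : ∀ Φ : B →ₐ[K] K,
      Rel p κ A F D E Λ b (fun i => Φ (x i)) (Φ t) (Φ m) (Φ n) := by
    intro Φ
    refine ⟨fun c g h => ?_, ?_⟩
    · have := congrArg Φ (hlinB c g h)
      simp only [map_mul, map_sum, map_pow, map_aeval95, ae95] at this
      exact this
    · have := congrArg Φ htopB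
      simp only [map_mul, map_sub, map_pow, map_aeval95, map_low95, ae95] at this
      exact this
  obtain ⟨e, G2, hG2⟩ := H33s.move_affine (k := K) (A := P4 K) (B := B) p (t - low p A b x m n)
    (fun φ φ' h => by
      have h1 : (fun i => φ (x i)) = fun i => φ' (x i) := funext fun i => h _
      have h2 : φ t = φ' t := h _
      have r1 := hrel φ
      have r2 := hrel φ'
      rw [← h1, ← h2] at r2
      rw [map_sub, map_sub, map_low95, map_low95, huniq _ _ _ _ _ _ r1 r2, h1, h2])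
  refine ⟨G2, p ^ e, pow_pos (Fact.out : p.Prime).pos e, fun R τ h0 => ?_⟩
  obtain ⟨Φ, hΦ⟩ := extend95 (B := B) (aeval ![R 0, R 1, R 2, τ] : P4 K →ₐ[K] K) (fun c hc => by
    have h1 : ψ c = 0 := by rw [← hιa, hc, map_zero]
    obtain ⟨c', rfl⟩ := (hker c).1 h1
    rw [map_mul, ae95, h0, zero_mul])
  have hR : (fun i => Φ (x i)) = R := by
    funext i
    rw [hΦ]
    fin_cases i <;> simp
  have hτ : Φ t = τ := by
    rw [hΦ]; simp
  have r1 := hrel Φ
  rw [hR, hτ] at r1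
  refine ⟨Φ m, Φ n, r1, ?_⟩
  rw [← ae95, ← hΦ, ← hG2, map_pow, map_sub, map_low95, hR, hτ]

theorem idn_nu95 {K : Type u} [Field K] (p : ℕ) (hp : 0 < p) (F D E : P3 K) :
    Idn p F D E 0 (fun r => if r = 0 then -E else if r = 1 then D else 0) := by
  obtain ⟨e, rfl⟩ : ∃ e, p = e + 1 := ⟨p - 1, by omega⟩
  rw [Idn, Finset.sum_range_succ', Finset.sum_range_succ', Finset.sum_eq_zero (by simp)]
  simp
  ring

theorem idn_mu95 {K : Type u} [Field K] (p : ℕ) (F D E : P3 K) :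
    Idn p F D E (D ^ p) (fun r => if r = 0 then F ^ (p - 1) else 0) := by
  rw [Idn, Finset.sum_range_succ', Finset.sum_eq_zero (by simp)]
  simp
  ring

theorem e_surf1 (p : ℕ) : SURF1_s.{u} p := by
  intro hINT hK1 hSC hKER hFA K _ _ _ _ Q F D E Λ b n d s θ κ A M W hD hΛ hlead huniq
  have hp : 0 < p := (Fact.out : p.Prime).pos
  let ξ : Fin 3 → FractionRing (P3 K) := fun i => algebraMap (P3 K) _ (X i)
  have hae : ∀ g : P3 K, aeval ξ g = algebraMap (P3 K) (FractionRing (P3 K)) g := by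
    intro g
    have := map_aeval95 (IsScalarTower.toAlgHom K (P3 K) (FractionRing (P3 K))) X g
    rw [aeval_X_left_apply] at this
    exact this.symm
  have hinj : Function.Injective (algebraMap (P3 K) (FractionRing (P3 K))) :=
    IsFractionRing.injective _ _
  have hD' : aeval ξ D ≠ 0 := by
    rw [hae]; exact fun h => hD (hinj (h.trans (map_zero _).symm))
  have hΛ' : aeval ξ Λ ≠ 0 := by
    rw [hae]; exact fun h => hΛ (hinj (h.trans (map_zero _).symm))
  obtain ⟨μ, h1⟩ : ∃ μ, aeval ξ D ^ p * μ = aeval ξ F ^ (p - 1) :=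
    ⟨_, mul_div_cancel₀ _ (pow_ne_zero p hD')⟩
  obtain ⟨ν, h2⟩ : ∃ ν, aeval ξ D * ν = aeval ξ E := ⟨_, mul_div_cancel₀ _ hD'⟩
  obtain ⟨T, h3⟩ : ∃ T, aeval ξ Λ * (T - low p A b ξ μ ν) = μ ^ κ :=
    ⟨μ ^ κ / aeval ξ Λ + low p A b ξ μ ν, by
      rw [add_sub_cancel_right]; exact mul_div_cancel₀ _ hΛ'⟩
  obtain ⟨α, hA0, hB0⟩ := hom95 p Q hp F D E Λ b n d s θ κ A M W
  have hkey := key95 p κ A hp W.hκ F D E Λ b ξ T μ ν h1 h2 h3
  rw [hae, hae] at hkey
  obtain ⟨G1, N, hG1, hker, hpt⟩ := hKER hFA K Q M α _ _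
    (mul_ne_zero (pow_ne_zero _ hD) hΛ) hA0 hB0 T hkey
  obtain ⟨-, hμ, hν⟩ := hINT hK1 hSC K Q F D E Λ b n d s θ κ A M hp W hlead
    (FractionRing (P3 K)) ξ μ ν T hD' h1 h2 h3
  have hlin : ∀ (c : P3 K) (g : ℕ → P3 K), Idn p F D E c g →
      aeval ξ c * μ = ∑ r ∈ Finset.range (p + 1), aeval ξ (g r) * ν ^ r := by
    intro c g h
    have h4 := congrArg (aeval ξ) h
    simp only [map_mul, map_pow, map_sum] at h4
    apply mul_left_cancel₀ (pow_ne_zero p hD')
    rw [mul_left_comm, h1, h4, Finset.mul_sum]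
    refine Finset.sum_congr rfl fun r hr => ?_
    obtain ⟨e, he⟩ := Nat.exists_eq_add_of_le (Nat.lt_succ_iff.1 (Finset.mem_range.1 hr))
    rw [← h2, he, Nat.add_sub_cancel_left]
    ring
  obtain ⟨G2, q, hq, hG2⟩ := core95 p κ A F D E Λ b ξ T μ ν G1 hker hμ hν hlin h3 huniq
  refine ⟨G1, G2, N, q, hq, hG1, hG2, fun R τ μ0 ν0 hDR hΛR hr => ?_⟩
  refine hpt R τ ?_ ?_
  · rw [map_mul, map_pow]
    exact mul_ne_zero (pow_ne_zero _ hDR) hΛR
  · refine key95 p κ A hp W.hκ F D E Λ b R τ μ0 ν0 ?_ ?_ hr.top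
    · have := hr.lin _ _ (idn_mu95 p F D E)
      rw [Finset.sum_range_succ', Finset.sum_eq_zero (by simp)] at this
      simpa [ae95] using this
    · have := hr.lin _ _ (idn_nu95 p hp F D E)
      obtain ⟨e, rfl⟩ : ∃ e, p = e + 1 := ⟨p - 1, by omega⟩
      rw [Finset.sum_range_succ', Finset.sum_range_succ', Finset.sum_eq_zero (by simp)] at this
      simp at this
      rw [ae95, ae95]
      linear_combination -this

end H62e

end PartH62eC95

section PartH62eD93

set_option autoImplicit false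

open MvPolynomial H39c

namespace H62e

universe u

theorem mem93 {K L σ : Type*} [Field K] [Field L] [Algebra K L] (W : ValuationSubring L)
    (hK : ∀ c : K, algebraMap K L c ∈ W) (ξ : σ → L) (hξ : ∀ i, ξ i ∈ W)
    (f : MvPolynomial σ K) : aeval ξ f ∈ W := by
  induction f using MvPolynomial.induction_on with
  | C r => rw [aeval_C]; exact hK r
  | add f g hf hg => rw [map_add]; exact W.add_mem _ _ hf hg
  | mul_X f i hf => rw [map_mul, aeval_X]; exact W.mul_mem _ _ hf (hξ i)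

theorem le93 {K L σ : Type*} [Field K] [Field L] [Algebra K L] (W : ValuationSubring L)
    (hK : ∀ c : K, algebraMap K L c ∈ W) (ξ : σ → L) (hξ : ∀ i, ξ i ∈ W)
    (f : MvPolynomial σ K) : W.valuation (aeval ξ f) ≤ 1 :=
  (W.valuation_le_one_iff _).2 (mem93 W hK ξ hξ f)

/-- a relation whose top coefficient is a unit -/
theorem unit93 {K : Type u} [Field K] [IsAlgClosed K] {L : Type u} [Field L] [Algebra K L]
    (p : ℕ) (F D E : P3 K) (hl : ∀ R : Fin 3 → K, R ≠ 0 → Lead p F D E R)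
    (W : ValuationSubring L) (hK : ∀ c : K, algebraMap K L c ∈ W) (ξ : Fin 3 → L)
    (hξ : ∀ i, ξ i ∈ W) (i0 : Fin 3) (h0 : W.valuation (ξ i0) = 1) :
    ∃ (c : P3 K) (g : ℕ → P3 K) (j : ℕ), Idn p F D E c g ∧ 1 ≤ j ∧ j ≤ p ∧
      W.valuation (aeval ξ (g j)) = 1 ∧ ∀ r, j < r → g r = 0 := by
  by_contra hcon
  let J : Ideal (P3 K) :=
    { carrier := {f | W.valuation (aeval ξ f) < 1}
      zero_mem' := by simp
      add_mem' := fun {f g} hf hg => by
        change W.valuation (aeval ξ (f + g)) < 1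
        rw [map_add]
        exact W.valuation.map_add_lt hf hg
      smul_mem' := fun c f hf => by
        change W.valuation (aeval ξ (c * f)) < 1
        rw [map_mul, map_mul]
        exact mul_lt_one_of_nonneg_of_lt_one_right (le93 W hK ξ hξ c) zero_le hf }
  have hJ : ∀ f, f ∈ J ↔ W.valuation (aeval ξ f) < 1 := fun f => Iff.rfl
  have hX : (X i0 : P3 K) ∈ J.radical := by
    rw [← vanishingIdeal_zeroLocus_eq_radical (K := K), mem_vanishingIdeal_iff]
    intro R hR
    by_cases hR0 : R = 0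
    · rw [hR0, aeval_X]; rfl
    · obtain ⟨c, g, j, h1, h2, h3, h4, h5⟩ := hl R hR0
      exfalso
      apply h4
      have hm : g j ∈ J := by
        rw [hJ]
        refine lt_of_le_of_ne (le93 W hK ξ hξ _) fun h => hcon ⟨c, g, j, h1, h2, h3, h, h5⟩
      exact (mem_zeroLocus_iff.1 hR) _ hm
  obtain ⟨N, hN⟩ := hX
  rw [hJ, map_pow, aeval_X, map_pow, h0, one_pow] at hN
  exact lt_irrefl _ hN

/-- the bound at a point with a unit coordinate -/
theorem core93 {K : Type u} [Field K] [IsAlgClosed K] {L : Type u} [Field L] [Algebra K L]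
    (p : ℕ) (F D E : P3 K) (hl : ∀ R : Fin 3 → K, R ≠ 0 → Lead p F D E R)
    (W : ValuationSubring L) (hK : ∀ c : K, algebraMap K L c ∈ W) (ξ : Fin 3 → L)
    (hξ : ∀ i, ξ i ∈ W) (i0 : Fin 3) (h0 : W.valuation (ξ i0) = 1) (hD : aeval ξ D ≠ 0) :
    W.valuation (aeval ξ E / aeval ξ D) ≤
      max 1 (W.valuation (aeval ξ F ^ (p - 1) / aeval ξ D ^ p)) := by
  obtain ⟨c, g, j, h1, h2, h3, h4, h5⟩ := unit93 p F D E hl W hK ξ hξ i0 h0
  obtain ⟨ν, hν⟩ : ∃ ν : L, ν = aeval ξ E / aeval ξ D := ⟨_, rfl⟩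
  obtain ⟨μ, hμ⟩ : ∃ μ : L, μ = aeval ξ F ^ (p - 1) / aeval ξ D ^ p := ⟨_, rfl⟩
  rw [← hν, ← hμ]
  rcases le_or_gt (W.valuation ν) 1 with hle | hgt
  · exact le_max_of_le_left hle
  refine le_max_of_le_right ?_
  have hE : aeval ξ E = aeval ξ D * ν := by rw [hν, mul_div_cancel₀ _ hD]
  have hid : aeval ξ c * μ = ∑ r ∈ Finset.range (p + 1), aeval ξ (g r) * ν ^ r := by
    have h := congrArg (aeval ξ) h1
    rw [map_mul, map_pow, map_sum] at h
    apply mul_right_cancel₀ (pow_ne_zero p hD)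
    rw [hμ, mul_assoc, div_mul_cancel₀ _ (pow_ne_zero p hD), h, Finset.sum_mul]
    refine Finset.sum_congr rfl fun r hr => ?_
    have hr' : r ≤ p := Nat.lt_succ_iff.1 (Finset.mem_range.1 hr)
    obtain ⟨t, rfl⟩ := Nat.exists_eq_add_of_le hr'
    rw [map_mul, map_mul, map_pow, map_pow, hE, Nat.add_sub_cancel_left]
    ring
  have hcut : ∑ r ∈ Finset.range (p + 1), aeval ξ (g r) * ν ^ r =
      aeval ξ (g j) * ν ^ j + ∑ r ∈ Finset.range j, aeval ξ (g r) * ν ^ r := by
    rw [add_comm (aeval ξ (g j) * ν ^ j), ← Finset.sum_range_succ (fun r => aeval ξ (g r) * ν ^ r)]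
    symm
    refine Finset.sum_subset (Finset.range_subset_range.2 (by omega)) fun r _ hr => ?_
    rw [h5 r (by simpa using hr), map_zero, zero_mul]
  have htop : W.valuation (aeval ξ (g j) * ν ^ j) = W.valuation ν ^ j := by
    rw [map_mul, h4, one_mul, map_pow]
  have hpos : W.valuation ν ^ j ≠ 0 := pow_ne_zero _ (zero_lt_one.trans hgt).ne'
  have hlow : W.valuation (∑ r ∈ Finset.range j, aeval ξ (g r) * ν ^ r) < W.valuation ν ^ j := by
    refine W.valuation.map_sum_lt hpos fun r hr => ?_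
    rw [map_mul, map_pow]
    exact (mul_le_of_le_one_left' (le93 W hK ξ hξ _)).trans_lt
      (pow_lt_pow_right₀ hgt (Finset.mem_range.1 hr))
  have hv : W.valuation (aeval ξ c * μ) = W.valuation ν ^ j := by
    rw [hid, hcut, W.valuation.map_add_eq_of_lt_left (by rw [htop]; exact hlow), htop]
  calc W.valuation ν ≤ W.valuation ν ^ j := le_self_pow₀ hgt.le (by omega)
    _ = W.valuation (aeval ξ c * μ) := hv.symm
    _ ≤ W.valuation μ := by
      rw [map_mul]
      exact mul_le_of_le_one_left' (le93 W hK ξ hξ _)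

theorem e_k1 (p : ℕ) : K1_s.{u} p := by
  intro hS K _ _ Q F D E n d s θ hp hQ hF hDw hE hθ hs hl L _ _ _ W hK ξ hξ hD
  have hw : ∀ i, 0 < wt Q i := fun i => by
    fin_cases i
    · exact Nat.one_pos
    · exact Nat.one_pos
    · exact hQ
  by_cases h0 : ξ = 0
  · refine le_max_of_le_left ?_
    have e : ∀ f : P3 K, aeval ξ f = algebraMap K L (constantCoeff f) := fun f => by
      rw [h0, aeval_zero]
    rw [e, e, ← map_div₀]
    exact (W.valuation_le_one_iff _).2 (hK _)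
  choose y hy using fun i => IsAlgClosed.exists_pow_nat_eq (ξ i) (hw i)
  obtain ⟨i0, -, hi0⟩ := Finset.exists_max_image Finset.univ (fun i => W.valuation (y i))
    Finset.univ_nonempty
  have hl0 : y i0 ≠ 0 := by
    intro h
    apply h0
    funext i
    have h1 := hi0 i (Finset.mem_univ i)
    rw [h, map_zero, le_zero_iff, map_eq_zero] at h1
    rw [← hy i, h1, zero_pow (hw i).ne']
    rfl
  have hvl : W.valuation (y i0) ≠ 0 := (map_ne_zero _).2 hl0
  have hl1 : W.valuation (y i0) ≤ 1 := by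
    have h1 := (W.valuation_le_one_iff _).2 (hξ i0)
    rw [← hy i0, map_pow] at h1
    exact (pow_le_one_iff_of_nonneg zero_le (hw i0).ne').1 h1
  obtain ⟨ζ, hζ⟩ : ∃ ζ : Fin 3 → L, ∀ i, ζ i = (y i / y i0) ^ wt Q i := ⟨_, fun _ => rfl⟩
  have hζW : ∀ i, ζ i ∈ W := fun i => by
    rw [hζ, ← W.valuation_le_one_iff, map_pow, map_div₀]
    exact pow_le_one₀ zero_le (div_le_one_of_le₀ (hi0 i (Finset.mem_univ i)) zero_le)
  have hζ1 : W.valuation (ζ i0) = 1 := by rw [hζ, div_self hl0, one_pow, map_one]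
  have hsc : ξ = sc (wt Q) (y i0) ζ := by
    funext i
    rw [sc, hζ, ← mul_pow, mul_div_cancel₀ _ hl0, hy]
  have eF := hS K L 3 (wt Q) F n hF (y i0) ζ
  have eD := hS K L 3 (wt Q) D d hDw (y i0) ζ
  have eE := hS K L 3 (wt Q) E (d + s) hE (y i0) ζ
  rw [← hsc] at eF eD eE
  have hD' : aeval ζ D ≠ 0 := fun h => hD (by rw [eD, h, mul_zero])
  have key := core93 p F D E hl W hK ζ hζW i0 hζ1 hD'
  have e1 : aeval ξ E / aeval ξ D = y i0 ^ s * (aeval ζ E / aeval ζ D) := by
    rw [eE, eD, pow_add]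
    field_simp
  have e2 : aeval ξ F ^ (p - 1) / aeval ξ D ^ p =
      y i0 ^ θ * (aeval ζ F ^ (p - 1) / aeval ζ D ^ p) := by
    rw [eF, eD, mul_pow, mul_pow, ← pow_mul, ← pow_mul, mul_comm n, hθ, mul_comm d, pow_add]
    field_simp
  rw [e1, e2, map_mul, map_mul, map_pow, map_pow]
  rcases le_max_iff.1 key with h | h
  · exact le_max_of_le_left (mul_le_one' (pow_le_one₀ zero_le hl1) h)
  · exact le_max_of_le_right (mul_le_mul' (pow_le_pow_of_le_one zero_le hl1 hs) h)

/-- an element lying in every valuation subring that contains the image of `A` is integral -/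
theorem val93 {A L : Type*} [CommRing A] [Field L] [Algebra A L] (x : L)
    (h : ∀ W : ValuationSubring L, (∀ a : A, algebraMap A L a ∈ W) → x ∈ W) : IsIntegral A x := by
  have h1 : x ∈ (⨅ W : {W : ValuationSubring L //
      (((⊥ : Subalgebra A L).toSubring : Set L)) ⊆ W.toSubring}, W.1.toSubring) := by
    rw [Subring.mem_iInf]
    exact fun W => h W.1 fun a => W.2 (Subalgebra.algebraMap_mem (⊥ : Subalgebra A L) a)
  rw [iInf_valuationSubring_superset, Subring.closure_eq] at h1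
  have h2 : IsIntegral (⊥ : Subalgebra A L) x := h1
  have : Algebra.IsIntegral A (⊥ : Subalgebra A L) :=
    Algebra.isIntegral_of_surjective fun z => by
      obtain ⟨a, ha⟩ := Algebra.mem_bot.1 z.2
      exact ⟨a, Subtype.ext ha⟩
  exact isIntegral_trans x h2

theorem pole93 {K : Type u} [Field K] {L : Type u} [Field L] [Algebra K L] (p A κ : ℕ)
    (hp : 0 < p) (hκ : A + p ≤ κ) (Λ : P3 K) (b : ℕ → ℕ → P3 K) (W : ValuationSubring L)
    (hK : ∀ c : K, algebraMap K L c ∈ W) (ξ : Fin 3 → L) (hξ : ∀ i, ξ i ∈ W) (μ ν T : L)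
    (hT : T ∈ W) (hν : W.valuation ν ≤ max 1 (W.valuation μ))
    (h : aeval ξ Λ * (T - low p A b ξ μ ν) = μ ^ κ) : μ ∈ W := by
  rw [← W.valuation_le_one_iff]
  by_contra hgt
  rw [not_le] at hgt
  rw [max_eq_right hgt.le] at hν
  have hlow : W.valuation (low p A b ξ μ ν) ≤ W.valuation μ ^ (A + p - 1) := by
    refine W.valuation.map_sum_le fun i hi => W.valuation.map_sum_le fun r hr => ?_
    have hi' := Finset.mem_range.1 hi
    have hr' := Finset.mem_range.1 hr
    rw [map_mul, map_mul, map_pow, map_pow]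
    calc W.valuation (aeval ξ (b i r)) * W.valuation μ ^ i * W.valuation ν ^ r
        ≤ W.valuation μ ^ i * W.valuation μ ^ r :=
          mul_le_mul' (mul_le_of_le_one_left' (le93 W hK ξ hξ _))
            (pow_le_pow_left₀ zero_le hν r)
      _ = W.valuation μ ^ (i + r) := (pow_add _ _ _).symm
      _ ≤ _ := pow_le_pow_right₀ hgt.le (by omega)
  have hT1 : W.valuation T ≤ W.valuation μ ^ (A + p - 1) :=
    ((W.valuation_le_one_iff _).2 hT).trans (one_le_pow₀ hgt.le)
  have h1 : W.valuation μ ^ κ ≤ W.valuation μ ^ (A + p - 1) := by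
    rw [← map_pow, ← h, map_mul]
    exact (mul_le_of_le_one_left' (le93 W hK ξ hξ _)).trans (W.valuation.map_sub_le hT1 hlow)
  exact absurd h1 (not_le.2 (pow_lt_pow_right₀ hgt (by omega)))

theorem e_int (p : ℕ) : INT_s.{u} p := by
  intro hK1 hS K _ _ Q F D E Λ b n d s θ κ A M hp hw hl L _ _ ξ μ ν T hD hμ hν hT
  let φ : L →ₐ[K] AlgebraicClosure L := IsScalarTower.toAlgHom K L (AlgebraicClosure L)
  have hφ : ∀ x, φ x = algebraMap L (AlgebraicClosure L) x := fun _ => rfl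
  have hinj : Function.Injective (algebraMap L (AlgebraicClosure L)) :=
    (algebraMap L (AlgebraicClosure L)).injective
  have ha : ∀ f : P3 K, aeval (fun i => φ (ξ i)) f = φ (aeval ξ f) := fun f =>
    (MvPolynomial.comp_aeval_apply ξ φ f).symm
  have hD' : φ (aeval ξ D) ≠ 0 := (map_ne_zero φ).2 hD
  have e1 : φ (aeval ξ E) / φ (aeval ξ D) = φ ν := by
    rw [← hν, map_mul, mul_div_cancel_left₀ _ hD']
  have e2 : φ (aeval ξ F) ^ (p - 1) / φ (aeval ξ D) ^ p = φ μ := by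
    rw [← map_pow, ← hμ, map_mul, map_pow, mul_div_cancel_left₀ _ (pow_ne_zero _ hD')]
  have e3 : aeval (fun i => φ (ξ i)) Λ * (φ T - low p A b (fun i => φ (ξ i)) (φ μ) (φ ν)) =
      φ μ ^ κ := by
    rw [← map_pow, ← hT, map_mul, map_sub, ha]
    simp only [low, map_sum, map_mul, map_pow, ha]
  have key : ∀ (z : L) (W : ValuationSubring (AlgebraicClosure L)),
      (∀ a : Algebra.adjoin K (insert z (Set.range ξ)), algebraMap _ (AlgebraicClosure L) a ∈ W) →
      (∀ c : K, algebraMap K (AlgebraicClosure L) c ∈ W) ∧ (∀ i, φ (ξ i) ∈ W) ∧ φ z ∈ W ∧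
        W.valuation (φ ν) ≤ max 1 (W.valuation (φ μ)) := by
    intro z W hW
    have h1 : ∀ c : K, algebraMap K (AlgebraicClosure L) c ∈ W := fun c => by
      rw [← φ.commutes]
      exact hW ⟨algebraMap K L c, Subalgebra.algebraMap_mem _ c⟩
    have h2 : ∀ i, φ (ξ i) ∈ W := fun i =>
      hW ⟨ξ i, Algebra.subset_adjoin (Set.mem_insert_of_mem _ ⟨i, rfl⟩)⟩
    refine ⟨h1, h2, hW ⟨z, Algebra.subset_adjoin (Set.mem_insert _ _)⟩, ?_⟩
    have := hK1 hS K Q F D E n d s θ hp hw.Qpos hw.hF hw.hD hw.hE hw.hθ hw.sθ hl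
      (AlgebraicClosure L) W h1 (fun i => φ (ξ i)) h2 (by rw [ha]; exact hD')
    rwa [ha, ha, ha, e1, e2] at this
  have fin : ∀ W : ValuationSubring (AlgebraicClosure L), φ μ ∈ W →
      W.valuation (φ ν) ≤ max 1 (W.valuation (φ μ)) → φ ν ∈ W := fun W h1 h2 => by
    rw [← W.valuation_le_one_iff] at h1 ⊢
    exact h2.trans (max_le le_rfl h1)
  refine ⟨(isIntegral_algebraMap_iff hinj).1 (val93 _ fun W hW => ?_),
    (isIntegral_algebraMap_iff hinj).1 (val93 _ fun W hW => ?_),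
    (isIntegral_algebraMap_iff hinj).1 (val93 _ fun W hW => ?_)⟩
  · obtain ⟨-, -, h3, h4⟩ := key μ W hW
    exact fin W h3 h4
  · obtain ⟨h1, h2, h3, h4⟩ := key T W hW
    exact pole93 p A κ hp hw.hκ Λ b W h1 _ h2 _ _ _ h3 h4 e3
  · obtain ⟨h1, h2, h3, h4⟩ := key T W hW
    exact fin W (pole93 p A κ hp hw.hκ Λ b W h1 _ h2 _ _ _ h3 h4 e3) h4

end H62e

end PartH62eD93
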