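import Pool.Agent.MP_b04567_ag.Cp.EA

section PartH62eEnd

set_option autoImplicit false

open MvPolynomial H39c

namespace H62e

universe u

theorem frob_inj62 {K : Type u} [Field K] (p : ℕ) [Fact p.Prime] [CharP K p] (n : ℕ) {x y : K}
    (h : x ^ p ^ n = y ^ p ^ n) : x = y :=
  (iterateFrobenius K p n).injective h

theorem e_surf2 (p : ℕ) : SURF2_s.{u} p := by
  intro hSC1 hSC hV K _ _ hp Q F D E Λ b n d s θ κ A M W hSV G1 G2 N q hq hG1 h1 h2
  have hp2 : 2 ≤ p := hp.out.two_le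
  have hκ : 0 < κ := by have := W.hκ; omega
  have key : ∀ (R : Fin 3 → K) (τ : K), eval ![R 0, R 1, R 2, τ] G1 = 0 →
      eval ![R 0, R 1, R 2, τ] (weightedHomogeneousComponent ![1, 1, Q, M] (M * q) G2) =
        eval ![R 0, R 1, R 2, τ] G2 := by
    intro R τ hx
    refine hV K 4 _ G2 _ _ _ fun t ht => ?_
    obtain ⟨μ, ν, hr, he⟩ := h1 R τ hx
    obtain ⟨s1, s2⟩ := hSC1 hSC K Q F D E Λ b n d s θ κ A M (by omega) W R t ht
    have e1 : sc ![1, 1, Q, M] t ![R 0, R 1, R 2, τ] =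
        ![sc (wt Q) t R 0, sc (wt Q) t R 1, sc (wt Q) t R 2, t ^ M * τ] := by
      funext i; fin_cases i <;> simp [sc, wt]
    have e2 : eval (sc ![1, 1, Q, M] t ![R 0, R 1, R 2, τ]) G1 = 0 := by
      have := hSC K K 4 _ G1 N hG1 t ![R 0, R 1, R 2, τ]
      rw [aeval_eq_eval, aeval_eq_eval] at this
      rw [this, hx, mul_zero]
    rw [e1] at e2 ⊢
    obtain ⟨μ2, ν2, hr2, he2⟩ := h1 _ _ e2
    rw [he2, hSV _ _ _ _ _ _ hr2 (s2 _ _ _ hr), s1, he, ← mul_sub, mul_pow, pow_mul]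
  refine ⟨weightedHomogeneousComponent ![1, 1, Q, M] (M * q) G2, ⟨N, hG1⟩,
    ⟨M * q, weightedHomogeneousComponent_isWeightedHomogeneous _ _⟩, ?_, ?_⟩
  · intro R τ hx hy
    rw [key R τ hx] at hy
    obtain ⟨μ, ν, hr, he⟩ := h1 R τ hx
    rw [he] at hy
    have h0 : τ - low p A b R μ ν = 0 := pow_eq_zero_iff hq.ne' |>.1 hy
    have hμ : μ = 0 := by
      have := hr.top
      rw [h0, mul_zero] at this
      exact pow_eq_zero_iff hκ.ne' |>.1 this.symm
    subst hμ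
    exact ⟨ν, hr, sub_eq_zero.1 h0⟩
  · intro R ν hF hD hΛ hE
    have hr : Rel p κ A F D E Λ b R (low p A b R 0 ν) 0 ν := by
      refine ⟨fun c g hI => ?_, by rw [sub_self, mul_zero, zero_pow hκ.ne']⟩
      have := congrArg (eval R) hI
      simp only [map_mul, map_pow, map_sum, hF, ← hE] at this
      rw [zero_pow (by omega), mul_zero] at this
      have e : ∑ r ∈ Finset.range (p + 1), eval R (g r) * (eval R D * ν) ^ r * eval R D ^ (p - r)
          = eval R D ^ p * ∑ r ∈ Finset.range (p + 1), eval R (g r) * ν ^ r := by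
        rw [Finset.mul_sum]
        refine Finset.sum_congr rfl fun r hr => ?_
        have hr' : r ≤ p := by have := Finset.mem_range.1 hr; omega
        have : eval R D ^ p = eval R D ^ r * eval R D ^ (p - r) := by
          rw [← pow_add]; congr 1; omega
        rw [this]; ring
      rw [e] at this
      rw [mul_zero]
      exact ((mul_eq_zero.1 this.symm).resolve_left (pow_ne_zero _ hD)).symm
    have hx := h2 R _ _ _ hD hΛ hr
    refine ⟨hx, ?_⟩
    rw [key R _ hx]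
    obtain ⟨μ2, ν2, hr2, he2⟩ := h1 _ _ hx
    rw [he2, hSV _ _ _ _ _ _ hr2 hr, sub_self, zero_pow hq.ne']

theorem sc_eval62 (hSC : SCALE_s.{u}) {K : Type u} [Field K] {Q n : ℕ} {f : P3 K}
    (hf : f.IsWeightedHomogeneous (wt Q) n) (t : K) (R : Fin 3 → K) :
    eval (sc (wt Q) t R) f = t ^ n * eval R f := by
  have := hSC K K 3 _ f n hf t R
  rwa [aeval_eq_eval, aeval_eq_eval] at this

theorem nd_symm62 {K : Type u} [Field K] {p κ A : ℕ} {F D E Λ : P3 K} {b : ℕ → ℕ → P3 K}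
    {I : Ideal (P4 K)} {a : Fin 3 → P4 K} {N : ℕ} {v v' : Fin 4 → K} (h : val3 a v = val3 a v')
    (H : Nd p κ A F D E Λ b I a N v v') : Nd p κ A F D E Λ b I a N v' v := by
  obtain ⟨ρ, ρ', h1, h2, h3, h4, h5⟩ := H
  refine ⟨ρ', ρ, h2, h1, ?_, ?_, ?_⟩
  · rw [← h]; exact fun τ ν hr => (h3 τ ν hr).symm
  · rw [← h]; exact h4
  · rw [← h]; linear_combination -h5

theorem eval_aeval62 {K : Type u} [Field K] (a : Fin 3 → P4 K) (v : Fin 4 → K) (f : P3 K) :
    eval v (aeval a f) = eval (val3 a v) f := by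
  induction f using MvPolynomial.induction_on with
  | C r => simp
  | add f g hf hg => simp only [map_add, hf, hg]
  | mul_X f i hf => simp only [map_mul, hf, aeval_X, eval_X, val3]

theorem has_eq62 {K : Type u} [Field K] {I : Ideal (P4 K)} {a : Fin 3 → P4 K} {D E : P3 K}
    {v : Fin 4 → K} {ρ : K} (hv : v ∈ V I) (h : Has I a D E v ρ) :
    eval (val3 a v) E = ρ * eval (val3 a v) D := by
  obtain ⟨h1, h2, a1, a2, a3⟩ := h
  have := hv _ a2
  simp only [map_sub, map_mul, eval_aeval62, a3] at this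
  apply mul_left_cancel₀ a1
  linear_combination this

theorem num62 (p θ s N0 : ℕ) (hp : 2 ≤ p) (lo : p ^ 2 < θ) (hi : θ ≤ p ^ 2 + p) :
    ∃ j A : ℕ, (p - 1) * p ^ j < p * (A + 1) ∧ A + p ≤ p ^ j ∧ p ^ (j + 2) + N0 ≤ θ * p ^ j ∧
      ∀ i, i ≤ A → ∀ r, r < p → N0 + 1 + i * θ + r * s ≤ p ^ (j + 2) := by
  obtain ⟨e, he⟩ : ∃ e : ℕ, N0 + 1 + p * s + p ≤ p ^ e :=
    ⟨_, (Nat.lt_pow_self (by omega)).le⟩
  obtain ⟨c, rfl⟩ : ∃ c, p = c + 1 := ⟨p - 1, by omega⟩
  set y := (c + 1) ^ e with hy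
  have e1 : (c + 1) ^ (e + 1) = (c + 1) * y := by rw [hy]; ring
  have e2 : (c + 1) ^ (e + 1 + 2) = (c + 1) ^ 3 * y := by rw [hy]; ring
  refine ⟨e + 1, c * y, ?_, ?_, ?_, ?_⟩
  · rw [e1, Nat.add_sub_cancel]; nlinarith
  · rw [e1]; nlinarith
  · rw [e1, e2]
    have : ((c + 1) ^ 2 + 1) * ((c + 1) * y) ≤ θ * ((c + 1) * y) := Nat.mul_le_mul_right _ lo
    nlinarith
  · intro i h1 r h2
    rw [e2]
    have a1 : i * θ ≤ (c * y) * ((c + 1) ^ 2 + (c + 1)) := Nat.mul_le_mul h1 hi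
    have a2 : r * s ≤ (c + 1) * s := Nat.mul_le_mul_right _ h2.le
    have a3 : (c + 1) ^ 3 * y = (c * y) * ((c + 1) ^ 2 + (c + 1)) + (c + 1) * y := by ring
    nlinarith

theorem e_cho2 (p : ℕ) : CHO2_s.{u} p := by
  classical
  intro hSC hINT hNORM hONE hSC2 K _ _ hp _ I m Q a F D E n' d s θ hP two h0 L hfin
  have hp2 : 2 ≤ p := hp.out.two_le
  have hQ : 0 < Q := by obtain ⟨i, hi⟩ := hP.hQ; rw [hi]; positivity
  have hm : 0 < m := by obtain ⟨i, hi⟩ := hP.hm; rw [hi]; positivity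
  obtain ⟨n1, ⟨R0, hR0, hR0F⟩, -⟩ := hNORM K I m Q a F n' (by omega) hP
  let Y : Finset (Fin 3 → K) := insert R0 hfin.toFinset
  have hY : ∀ R ∈ Y, Nm R := by
    intro R hR
    rcases Finset.mem_insert.1 hR with rfl | h
    · exact hR0
    · exact (hfin.mem_toFinset.1 h).1
  obtain ⟨N0, hN0⟩ := hINT K Q Y hY
  obtain ⟨j, A, c1, c2, c3, c4⟩ := num62 p θ s N0 hp2 L.lo L.hi
  set M := p ^ (j + 2) with hM
  have hne : ∀ v v', Node I a v v' → v 0 ^ (m * M) ≠ v' 0 ^ (m * M) := by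
    intro v v' hn h
    obtain ⟨i, hi⟩ := hP.hm
    rw [hi, hM, ← pow_add] at h
    exact h0 v v' hn (frob_inj62 p _ h)
  -- values at each point
  have hval : ∀ R : Fin 3 → K, ∃ (l : K) (β : ℕ → ℕ → K), l ≠ 0 ∧
      ((¬ ∃ v v', Node I a v v' ∧ eval v (a 0) = 1 ∧ val3 a v = R) → ∀ i r, β i r = 0) ∧
      ∀ v v', Node I a v v' → eval v (a 0) = 1 → val3 a v = R →
        ∀ (Λ : P3 K) (b : ℕ → ℕ → P3 K), eval R Λ = l →
          (∀ i, i ≤ A → ∀ r, r < p → eval R (b i r) = β i r) →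
          Nd p (p ^ j) A F D E Λ b I a (m * M) v v' := by
    intro R
    by_cases h : ∃ v v', Node I a v v' ∧ eval v (a 0) = 1 ∧ val3 a v = R
    · obtain ⟨u, u', hn, h1, rfl⟩ := h
      obtain ⟨c, g, ρ, ρ', b1, b2, b3, b4, b5, b6, b7⟩ := L.node u u' hn h1
      obtain ⟨l, β, hl, H⟩ := hONE K I a F D E c g ρ ρ' j A (m * M) u u' hn (hne u u' hn) c1 b1 b2 b3
        b4 b5 b6 b7
      refine ⟨l, β, hl, fun h => absurd ⟨u, u', hn, h1, rfl⟩ h, ?_⟩
      intro v v' hv _ hR Λ b x1 x2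
      have H' := H Λ b x1 x2
      have t1 := two u u' hn v hv.1 hR
      have t2 := two u u' hn v' hv.2.1 (hv.2.2.2.symm.trans hR)
      rcases t1 with rfl | rfl <;> rcases t2 with rfl | rfl
      · exact absurd rfl hv.2.2.1
      · exact H'
      · exact nd_symm62 hn.2.2.2 H'
      · exact absurd rfl hv.2.2.1
    · exact ⟨1, fun _ _ => 0, one_ne_zero, fun _ _ _ => rfl,
        fun v v' a1 a2 a3 => absurd ⟨v, v', a1, a2, a3⟩ h⟩
  choose l β hl hβ hnd using hval
  obtain ⟨Λ, hΛ, vΛ⟩ := hN0 (θ * p ^ j - M) (by omega) l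
  have hb : ∀ i r : ℕ, ∃ g : P3 K, i ≤ A → r < p →
      g.IsWeightedHomogeneous (wt Q) (M - i * θ - r * s) ∧ ∀ R ∈ Y, eval R g = β R i r := by
    intro i r
    by_cases h : i ≤ A ∧ r < p
    · have := c4 i h.1 r h.2
      obtain ⟨g, hg⟩ := hN0 (M - i * θ - r * s) (by omega) fun R => β R i r
      exact ⟨g, fun _ _ => hg⟩
    · exact ⟨0, fun h1 h2 => absurd ⟨h1, h2⟩ h⟩
  choose b hb using hb
  have hFv : ∀ v ∈ V I, eval (val3 a v) F = 0 := fun v hv => by
    rw [← eval_aeval62]; exact hv _ ((hP.ker F).2 dvd_rfl)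
  refine ⟨Λ, b, p ^ j, A, M, ⟨hQ, hP.hF, L.hD, L.hE, L.hθ, L.sθ, ⟨_, hM⟩, c2,
    ⟨_, hΛ, by omega⟩, fun i hi r hr => ⟨_, ?_, (hb i r hi hr).1, ?_⟩⟩, L.nD, ?_, L.lead, ?_, ?_⟩
  · have := c4 i hi r hr; omega
  · have := c4 i hi r hr; omega
  · rintro ⟨q, hq⟩
    apply hl R0
    rw [← vΛ R0 (Finset.mem_insert_self _ _), hq, map_mul, hR0F, zero_mul]
  · intro R hF hD
    by_cases hR : R = 0
    · left
      intro i hi r hr
      have e := sc_eval62 hSC (hb i r hi hr).1 0 R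
      have e0 : sc (wt Q) (0 : K) R = R := by
        subst hR; funext i; simp [sc]
      have := c4 i hi r hr
      rw [e0, zero_pow (by omega), zero_mul] at e
      exact e
    · obtain ⟨t, R', ht, hN, hF', rfl⟩ := n1 R hR hF
      have hD' : eval R' D = 0 := by
        rw [sc_eval62 hSC L.hD] at hD
        exact (mul_eq_zero.1 hD).resolve_left (pow_ne_zero _ ht)
      have hRY : R' ∈ Y := Finset.mem_insert_of_mem (hfin.mem_toFinset.2 ⟨hN, hF', hD'⟩)
      by_cases h : ∃ v v', Node I a v v' ∧ eval v (a 0) = 1 ∧ val3 a v = R'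
      · right
        obtain ⟨v, v', hn, -, rfl⟩ := h
        obtain ⟨c, hc⟩ := IsAlgClosed.exists_pow_nat_eq t hm
        have hc0 : c ≠ 0 := by
          rintro rfl
          rw [zero_pow hm.ne'] at hc
          exact ht hc.symm
        obtain ⟨s1, s2, -⟩ := hSC2 hSC K I m Q a F D E n' d s hP L.hD L.hE v c hc0
        obtain ⟨s1', s2', -⟩ := hSC2 hSC K I m Q a F D E n' d s hP L.hD L.hE v' c hc0
        refine ⟨c • v, c • v', ⟨s2 hn.1, s2' hn.2.1, fun h => hn.2.2.1 ?_, ?_⟩, ?_⟩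
        · exact smul_right_injective _ hc0 h
        · rw [s1, s1', hn.2.2.2]
        · rw [s1, hc]
      · left
        intro i hi r hr
        rw [sc_eval62 hSC (hb i r hi hr).1, (hb i r hi hr).2 R' hRY, hβ R' h, mul_zero]
  · intro v v' hn h1
    obtain ⟨c, g, ρ, ρ', -, -, b3, -, -, b6, b7⟩ := L.node v v' hn h1
    have e1 := has_eq62 hn.1 b6
    have e2 := has_eq62 hn.2.1 b7
    rw [← hn.2.2.2] at e2
    have hD : eval (val3 a v) D = 0 := by
      by_contra hD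
      exact b3 (mul_right_cancel₀ hD (e1.symm.trans e2))
    have hRY : val3 a v ∈ Y :=
      Finset.mem_insert_of_mem (hfin.mem_toFinset.2 ⟨Or.inl h1, hFv v hn.1, hD⟩)
    exact hnd _ v v' hn h1 rfl Λ b (vΛ _ hRY) fun i hi r hr => (hb i r hi hr).2 _ hRY

theorem e_end (p : ℕ) : END_s.{u} p := by
  intro hLOC hSC hV hFACT hINTERP hHOMG hFINI hNORM hFINZ hCHO1 hONE hCHO2 hSC1 hSC2 hALL hK1 hINT
    hKER hS1 hS2 hSV hL1 hL2 hFROB hBACK K _ _ hp _ I m Q a F Γ n' γ n c hP hN h0 b1 b2 b3 b4 hcnt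
  have hp0 : 0 < p := hp.out.pos
  obtain ⟨D, E0, d, e, θ, hLoc⟩ := hLOC K I m Q a F Γ n' γ n c hP hN b1 b2 b3 b4 hcnt
  have hfin := hFINZ hFINI hNORM K I m Q a F D n' (n * d + c) hp0 hP (hcnt D d hLoc.hD hLoc.nD)
  obtain ⟨E, s, hLoc2⟩ := hCHO1 hSC hINTERP hHOMG hNORM K I m Q a F D E0 n' d e θ hP hN.a0 hLoc hfin
  obtain ⟨Λ, b, κ, A, M, hSys⟩ := hCHO2 hSC hINTERP hNORM hONE hSC2 K I m Q a F D E n' d s θ hP
    hN.two h0 hLoc2 hfin
  obtain ⟨hnd, hsv⟩ := hALL hSC1 hSC2 hSC K I m Q a F D E Λ b n' d s θ κ A M hP hN.a0 hSys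
  have hD0 : D ≠ 0 := fun h => hSys.nD (h ▸ dvd_zero F)
  have hΛ0 : Λ ≠ 0 := fun h => hSys.nΛ (h ▸ dvd_zero F)
  obtain ⟨G1, G2', N, q, hq, hG1, s1, s2⟩ := hS1 hINT hK1 hSC hKER hFACT K Q F D E Λ b _ d s θ κ A M
    hSys.wts hD0 hΛ0 hSys.lead hsv
  obtain ⟨G2, hSurf⟩ := hS2 hSC1 hSC hV K Q F D E Λ b _ d s θ κ A M hSys.wts hsv G1 G2' N q hq hG1
    s1 s2
  have hsv2 := hSV K I m Q a F D E Λ b n' d s θ κ A M hP hSys hnd
  obtain ⟨e', h, hl⟩ := hL1 hINT hK1 hSC hFINI K I m Q a F D E Λ b n' d s θ κ A M G1 G2 hP hSys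
    hSurf hsv2
  have hl2 := hL2 hSC1 hSC2 hSC hV K I m Q a F D E Λ b n' d s θ κ A M (p ^ e') h hP hSys.wts hsv2
    (fun v hv => by obtain ⟨ν, x1, x2, -⟩ := hl v hv; exact ⟨ν, x1, x2⟩)
  set h' := weightedHomogeneousComponent (wt Q) (M * p ^ e') h with hh'
  have hh : h'.IsWeightedHomogeneous (wt Q) (M * p ^ e') :=
    weightedHomogeneousComponent_isWeightedHomogeneous _ _
  obtain ⟨N1, hN1⟩ := hSurf.h1
  obtain ⟨N2, hN2⟩ := hSurf.h2
  obtain ⟨f1, M1, hf1, e1⟩ := hFROB K m Q M N1 e' G1 h' hN1 hh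
  obtain ⟨f2, M2, hf2, e2⟩ := hFROB K m Q M N2 e' G2 h' hN2 hh
  have hq0 : p ^ e' ≠ 0 := (pow_pos hp0 _).ne'
  have : ExpChar K p := ExpChar.prime hp.out
  refine ⟨f1, f2, M1, M2, hf1, hf2, ?_⟩
  ext x
  constructor
  · rintro ⟨⟨v, hv⟩, rfl⟩
    obtain ⟨ν, -, x2, x3, x4⟩ := hl v hv
    have hτ : low p A b (val3 a v) 0 ν ^ p ^ e' =
        (v 0 ^ (m * M)) ^ p ^ e' - eval (val3 a v) h' := by
      rw [hl2 v hv, x2, sub_pow_expChar_pow]; ring
    have y1 := e1 (val3 a v) (v 0) _ hτ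
    have y2 := e2 (val3 a v) (v 0) _ hτ
    rw [x3, zero_pow hq0] at y1
    rw [x4, zero_pow hq0] at y2
    exact ⟨y1, y2⟩
  · rintro ⟨y1, y2⟩
    let R : Fin 3 → K := ![x 0, x 1, x 2]
    have hx : x = ![R 0, R 1, R 2, x 3] := by
      funext i; fin_cases i <;> rfl
    obtain ⟨τ, hτ⟩ := IsAlgClosed.exists_pow_nat_eq ((x 3 ^ (m * M)) ^ p ^ e' - eval R h')
      (Nat.pos_of_ne_zero hq0)
    rw [hx, e1 R _ τ hτ] at y1
    rw [hx, e2 R _ τ hτ] at y2
    obtain ⟨ν, hr, hτ2⟩ := hSurf.sub R τ (pow_eq_zero_iff hq0 |>.1 y1) (pow_eq_zero_iff hq0 |>.1 y2)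
    obtain ⟨v, hv, hR, hb⟩ := hBACK hFINI K I m Q a F D E Λ b n' d s θ κ A M hP hSys hnd R τ ν hr
    obtain ⟨ν', x1, x2, -⟩ := hl v hv
    rw [← hl2 v hv, hR, hb ν' x1, ← hτ2, sub_pow_expChar_pow] at x2
    have e3 : (x 3 ^ (m * M)) ^ p ^ e' = (v 0 ^ (m * M)) ^ p ^ e' := by
      rw [x2] at hτ; linear_combination -hτ
    obtain ⟨i, hi⟩ := hP.hm
    obtain ⟨j, hj⟩ := hSys.wts.hM
    have e4 := frob_inj62 p _ e3
    rw [hi, hj, ← pow_add] at e4
    have e5 := frob_inj62 p _ e4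
    refine ⟨⟨v, hv⟩, ?_⟩
    rw [hx, ← hR, e5]
    rfl

end H62e

end PartH62eEnd

section PartH62eF35

set_option autoImplicit false

open MvPolynomial H39c

namespace H62e

universe u

theorem sc35_eval {K : Type u} [Field K] {k : ℕ} (w : Fin k → ℕ) (t : K) (R : Fin k → K)
    (g : MvPolynomial (Fin k) K) :
    eval R (aeval (sc w (C t : MvPolynomial (Fin k) K) X) g) = eval (sc w t R) g := by
  induction g using MvPolynomial.induction_on with
  | C a => simp
  | add f g hf hg => simp only [map_add, hf, hg]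
  | mul_X f i hf =>
    simp only [map_mul, hf, aeval_X, eval_X, sc, map_pow, eval_C]

theorem sc35_form (hS : SCALE_s.{u}) {K : Type u} [Field K] {k : ℕ} {w : Fin k → ℕ}
    {f : MvPolynomial (Fin k) K} {n : ℕ} (hf : f.IsWeightedHomogeneous w n) (t : K) :
    aeval (sc w (C t : MvPolynomial (Fin k) K) X) f = C t ^ n * f := by
  rw [hS K _ k w f n hf, aeval_X_left_apply]

theorem sc35_ev (hS : SCALE_s.{u}) {K : Type u} [Field K] {k : ℕ} {w : Fin k → ℕ}
    {f : MvPolynomial (Fin k) K} {n : ℕ} (hf : f.IsWeightedHomogeneous w n) (t : K)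
    (R : Fin k → K) : eval (sc w t R) f = t ^ n * eval R f := by
  have := hS K K k w f n hf t R
  simpa only [aeval_eq_eval] using this

theorem e_sc1 (p : ℕ) : SC1_s.{u} p := by
  intro hS K _ Q F D E Λ b n d s θ κ A M hp W R t ht
  have h1 : ∀ μ ν, low p A b (sc (wt Q) t R) (t ^ θ * μ) (t ^ s * ν) =
      t ^ M * low p A b R μ ν := by
    intro μ ν
    unfold low
    rw [Finset.mul_sum]
    refine Finset.sum_congr rfl fun i hi => ?_
    rw [Finset.mul_sum]
    refine Finset.sum_congr rfl fun r hr => ?_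
    obtain ⟨j, -, hj, e⟩ := W.hb i (Nat.lt_succ_iff.1 (Finset.mem_range.1 hi)) r
      (Finset.mem_range.1 hr)
    rw [hS K K 3 _ _ j hj, ← e]
    ring
  refine ⟨h1, fun τ μ ν H => ⟨fun c g hI => ?_, ?_⟩⟩
  · set σ : P3 K →ₐ[K] P3 K := aeval (sc (wt Q) (C t : P3 K) X) with hσ
    have c0 : (C t : P3 K) ^ (p * d) ≠ 0 := pow_ne_zero _ (by simpa using ht)
    have hI' : Idn p F D E (σ c * C t ^ θ) fun r => σ (g r) * C t ^ (s * r) := by
      unfold Idn at hI ⊢
      have e := congrArg σ hI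
      simp only [map_mul, map_pow, map_sum, hσ, sc35_form hS W.hF, sc35_form hS W.hD,
        sc35_form hS W.hE] at e
      apply mul_left_cancel₀ c0
      rw [Finset.mul_sum]
      have e1 : (C t : P3 K) ^ (p * d) * (σ c * C t ^ θ * F ^ (p - 1)) =
          σ c * (C t ^ n * F) ^ (p - 1) := by
        rw [mul_pow, ← pow_mul, mul_comm n, W.hθ]
        ring
      rw [e1, hσ, e]
      refine Finset.sum_congr rfl fun r hr => ?_
      obtain ⟨j, hj⟩ : ∃ j, p = r + j := ⟨p - r, by have := Finset.mem_range.1 hr; omega⟩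
      rw [show p - r = j by omega, hj]
      ring
    have e := H.lin _ _ hI'
    simp only [map_mul, map_pow, eval_C, hσ, sc35_eval] at e
    rw [← mul_assoc, e]
    refine Finset.sum_congr rfl fun r _ => ?_
    ring
  · obtain ⟨l, hl, e⟩ := W.hΛ
    rw [h1, sc35_ev hS hl, mul_pow, ← H.top, ← pow_mul, ← e]
    ring

theorem sc35_one {K : Type u} [Field K] (t : K) (v : Fin 4 → K) :
    sc (1 : Fin 4 → ℕ) t v = t • v := by
  funext i
  simp [sc]

theorem e_sc2 (p : ℕ) : SC2_s.{u} p := by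
  intro hS K _ I m Q a F D E n' d s P hD hE v t ht
  set σ : P4 K →ₐ[K] P4 K := aeval (sc (1 : Fin 4 → ℕ) (C t : P4 K) X) with hσ
  have ev : ∀ g, eval v (σ g) = eval (t • v) g := fun g => by rw [hσ, sc35_eval, sc35_one]
  have hI : ∀ f ∈ I, σ f ∈ I := fun f hf => by
    rw [← sum_homogeneousComponent f, map_sum]
    refine Ideal.sum_mem _ fun j _ => ?_
    rw [hσ, sc35_form hS (homogeneousComponent_isHomogeneous j f)]
    exact Ideal.mul_mem_left _ _ (P.comp f hf j)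
  have ha : ∀ (g : P3 K) (j : ℕ), g.IsWeightedHomogeneous (wt Q) j →
      σ (aeval a g) = (C t ^ m) ^ j * aeval a g := fun g j hg => by
    have e : (fun i => σ (a i)) = sc (wt Q) (C t ^ m : P4 K) a := by
      funext i
      rw [hσ, sc35_form hS (P.ha i), sc, pow_mul]
    rw [← hS K _ 3 _ g j hg, ← e, ← AlgHom.comp_apply, comp_aeval]
  refine ⟨?_, fun hv f hf => ?_, fun ν H h1 h2 hh => ?_⟩
  · funext i
    rw [val3, ← sc35_one, sc35_ev hS (P.ha i), sc, pow_mul]
    rfl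
  · rw [← ev]
    exact hv _ (hI f hf)
  · have h3 := hI _ hh
    rw [map_sub, map_mul, map_mul, ha E _ hE, ha D _ hD, ← mul_assoc, ← mul_assoc] at h3
    have e := H _ _ h3
    simp only [map_mul, map_pow, eval_C, ev] at e
    apply mul_right_cancel₀ (pow_ne_zero d (pow_ne_zero m ht))
    rw [← e]
    ring

theorem all35_det {K : Type u} [Field K] {p κ A : ℕ} {F D E Λ : P3 K} {b : ℕ → ℕ → P3 K}
    {R : Fin 3 → K} {τ μ ν : K} (hp : 0 < p) (H : Rel p κ A F D E Λ b R τ μ ν) :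
    eval R D ^ p * μ = eval R F ^ (p - 1) ∧ eval R D * ν = eval R E := by
  obtain ⟨q, rfl⟩ : ∃ q, p = q + 1 := ⟨p - 1, by omega⟩
  constructor
  · have e := H.lin (D ^ (q + 1)) (fun r => if r = 0 then F ^ q else 0) (by
      unfold Idn
      rw [Finset.sum_range_succ']
      simp [mul_comm])
    rw [Finset.sum_range_succ'] at e
    simpa using e
  · have e := H.lin 0 (fun r => if r = 0 then -E else if r = 1 then D else 0) (by
      unfold Idn
      rw [Finset.sum_range_succ', Finset.sum_range_succ']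
      simp
      ring)
    rw [Finset.sum_range_succ', Finset.sum_range_succ'] at e
    simp at e
    linear_combination -e

theorem e_all (p : ℕ) : ALL_s.{u} p := by
  intro h1 h2 hS K _ _ _ I m Q a F D E Λ b n' d s θ κ A M P h0 S
  have hp : 0 < p := (Fact.out : p.Prime).pos
  have hm : 0 < m := by obtain ⟨i, rfl⟩ := P.hm; positivity
  have W := S.wts
  have part : ∀ v v', Node I a v v' → Nd p κ A F D E Λ b I a (m * M) v v' := by
    intro v v' N
    obtain ⟨t, ht⟩ := IsAlgClosed.exists_pow_nat_eq (eval v (a 0))⁻¹ hm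
    have T0 : t ^ m ≠ 0 := by rw [ht]; exact inv_ne_zero (h0 v v' N)
    have t0 : t ≠ 0 := fun e => T0 (by rw [e, zero_pow hm.ne'])
    obtain ⟨a1, a2, a3⟩ := h2 hS K I m Q a F D E n' d s P W.hD W.hE v t t0
    obtain ⟨b1, b2, b3⟩ := h2 hS K I m Q a F D E n' d s P W.hD W.hE v' t t0
    obtain ⟨c1, c2⟩ := h1 hS K Q F D E Λ b _ d s θ κ A M hp W (val3 a v) (t ^ m) T0
    have N' : Node I a (t • v) (t • v') :=
      ⟨a2 N.1, b2 N.2.1, fun e => N.2.2.1 (smul_right_injective _ t0 e), by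
        rw [a1, b1, N.2.2.2]⟩
    have e0 : eval (t • v) (a 0) = 1 := by
      have := congrFun a1 0
      simp only [val3, sc, wt, Matrix.cons_val_zero, pow_one] at this
      rw [this, ht, inv_mul_cancel₀ (h0 v v' N)]
    obtain ⟨ρ, ρ', n1, n2, n3, n4, n5⟩ := S.node _ _ N' e0
    rw [a1] at n3 n4 n5
    have Ts : (t ^ m) ^ s ≠ 0 := pow_ne_zero _ T0
    have TM : (t ^ m) ^ M ≠ 0 := pow_ne_zero _ T0
    have dv : ∀ x y : K, (t ^ m) ^ s * x = y → x = y / (t ^ m) ^ s := fun x y e => by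
      rw [eq_div_iff Ts, mul_comm, e]
    refine ⟨ρ / (t ^ m) ^ s, ρ' / (t ^ m) ^ s, fun ν H => dv _ _ (n1 _ (a3 ν H)),
      fun ν H => dv _ _ (n2 _ (b3 ν H)), fun τ ν H => ?_, fun τ μ ν μ' ν' H H' => ?_, ?_⟩
    · have := c2 _ _ _ H
      rw [mul_zero] at this
      exact (n3 _ _ this).imp (dv _ _) (dv _ _)
    · have := n4 _ _ _ _ _ (c2 _ _ _ H) (c2 _ _ _ H')
      rw [c1, c1] at this
      exact mul_left_cancel₀ TM this
    · apply mul_left_cancel₀ TM
      rw [mul_sub, ← c1, ← c1, mul_zero, mul_div_cancel₀ _ Ts, mul_div_cancel₀ _ Ts, n5]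
      simp only [Pi.smul_apply, smul_eq_mul, mul_pow, pow_mul]
      ring
  refine ⟨part, fun R τ μ ν μ' ν' H H' => ?_⟩
  obtain ⟨d1, d2⟩ := all35_det hp H
  obtain ⟨d3, d4⟩ := all35_det hp H'
  by_cases hD : eval R D = 0
  · have hF : eval R F = 0 := by
      rw [hD, zero_pow hp.ne', zero_mul] at d1
      exact pow_eq_zero_iff (by have := (Fact.out : p.Prime).two_le; omega) |>.1 d1.symm
    rcases S.off R hF hD with z | ⟨v, v', N, rfl⟩
    · have z' : ∀ μ ν : K, low p A b R μ ν = 0 := fun μ ν => by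
        unfold low
        refine Finset.sum_eq_zero fun i hi => Finset.sum_eq_zero fun r hr => ?_
        rw [aeval_eq_eval, z i (Nat.lt_succ_iff.1 (Finset.mem_range.1 hi)) r
          (Finset.mem_range.1 hr), zero_mul, zero_mul]
      rw [z', z']
    · obtain ⟨ρ, ρ', -, -, -, n4, -⟩ := part v v' N
      exact n4 _ _ _ _ _ H H'
  · rw [mul_left_cancel₀ (pow_ne_zero p hD) (d1.trans d3.symm),
      mul_left_cancel₀ hD (d2.trans d4.symm)]

theorem e_link2 (p : ℕ) : LINK2_s.{u} p := by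
  intro h1 h2 hS hV K _ _ _ I m Q a F D E Λ b n' d s θ κ A M q h P W sv hh v hv
  have hp : 0 < p := (Fact.out : p.Prime).pos
  have hm : 0 < m := by obtain ⟨i, rfl⟩ := P.hm; positivity
  refine hV K 3 _ h _ _ _ fun T T0 => ?_
  obtain ⟨t, rfl⟩ := IsAlgClosed.exists_pow_nat_eq T hm
  have t0 : t ≠ 0 := fun e => T0 (by rw [e, zero_pow hm.ne'])
  obtain ⟨a1, a2, a3⟩ := h2 hS K I m Q a F D E n' d s P W.hD W.hE v t t0
  obtain ⟨c1, -⟩ := h1 hS K Q F D E Λ b _ d s θ κ A M hp W (val3 a v) (t ^ m) T0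
  obtain ⟨ν₀, v0, e0⟩ := hh v hv
  obtain ⟨ν₁, v1, e1⟩ := hh _ (a2 hv)
  have e2 := c1 0 ν₀
  rw [mul_zero] at e2
  rw [sv _ (a2 hv) _ (a2 hv) rfl _ _ v1 (a3 _ v0), a1, e2] at e1
  rw [e1, e0, pow_mul (t ^ m), ← mul_pow]
  rw [mul_sub, Pi.smul_apply, smul_eq_mul, mul_pow t, pow_mul t]

end H62e

end PartH62eF35

section PartH62eG22

set_option autoImplicit false

open MvPolynomial H39c

namespace H62e

universe u

theorem g22_scale {K : Type u} [Field K] (w : Fin 3 → ℕ) (f : P3 K) (n : ℕ)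
    (hf : f.IsWeightedHomogeneous w n) (t : K) (x : Fin 3 → K) :
    eval (sc w t x) f = t ^ n * eval x f := by
  rw [eval_eq', eval_eq', Finset.mul_sum]
  refine Finset.sum_congr rfl fun d hd => ?_
  have h1 : Finsupp.weight w d = n := hf (mem_support_iff.1 hd)
  rw [Finsupp.weight_apply, Finsupp.sum_fintype _ _ (by simp)] at h1
  have h2 : ∏ i, sc w t x i ^ d i = t ^ n * ∏ i, x i ^ d i := by
    rw [← h1, ← Finset.prod_pow_eq_pow_sum, ← Finset.prod_mul_distrib]
    refine Finset.prod_congr rfl fun i _ => ?_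
    simp only [sc, smul_eq_mul]
    rw [mul_pow, ← pow_mul, mul_comm (w i)]
  rw [h2]; ring

/-- `F (r0, r1, Y)` as a polynomial in `Y` -/
noncomputable def g22_f {K : Type u} [Field K] (F : P3 K) (r0 r1 : K) : Polynomial K :=
  ∑ d ∈ F.support, Polynomial.monomial (d 2) (coeff d F * r0 ^ d 0 * r1 ^ d 1)

theorem g22_f_eval {K : Type u} [Field K] (F : P3 K) (r0 r1 y : K) :
    (g22_f F r0 r1).eval y = eval ![r0, r1, y] F := by
  rw [eval_eq', g22_f, Polynomial.eval_finsetSum]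
  refine Finset.sum_congr rfl fun d _ => ?_
  rw [Polynomial.eval_monomial, Fin.prod_univ_three]
  simp only [Matrix.cons_val_zero, Matrix.cons_val_one, Matrix.cons_val]
  ring

theorem g22_wt {K : Type u} [Field K] {F : P3 K} {Q n : ℕ}
    (hF : F.IsWeightedHomogeneous (wt Q) n) {d : Fin 3 →₀ ℕ} (hd : d ∈ F.support) :
    d 0 + d 1 + d 2 * Q = n := by
  have h1 : Finsupp.weight (wt Q) d = n := hF (mem_support_iff.1 hd)
  rw [Finsupp.weight_apply, Finsupp.sum_fintype _ _ (by simp), Fin.sum_univ_three] at h1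
  simpa [wt] using h1

theorem g22_single {d : Fin 3 →₀ ℕ} {n : ℕ} (h0 : d 0 = 0) (h1 : d 1 = 0) (h2 : d 2 = n) :
    d = Finsupp.single 2 n := by
  ext i
  fin_cases i <;> simp [h0, h1, h2]

theorem g22_f_coeff {K : Type u} [Field K] {F : P3 K} {Q n' : ℕ}
    (hF : F.IsWeightedHomogeneous (wt Q) (n' * Q)) (hm : coeff (Finsupp.single 2 n') F = 1)
    (r0 r1 : K) : (g22_f F r0 r1).coeff n' = 1 := by
  classical
  rw [g22_f, Polynomial.finsetSum_coeff, Finset.sum_eq_single (Finsupp.single 2 n')]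
  · simp [hm]
  · intro d hd hne
    rw [Polynomial.coeff_monomial, if_neg]
    intro h2
    have := g22_wt hF hd
    rw [h2] at this
    exact hne (g22_single (by omega) (by omega) h2)
  · intro h
    rw [notMem_support_iff, hm] at h
    exact absurd h one_ne_zero

theorem g22_vertex {K : Type u} [Field K] {F : P3 K} {Q n' : ℕ} (hQ : 0 < Q)
    (hF : F.IsWeightedHomogeneous (wt Q) (n' * Q)) (hm : coeff (Finsupp.single 2 n') F = 1)
    (y : K) : eval ![0, 0, y] F = y ^ n' := by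
  classical
  rw [eval_eq', Finset.sum_eq_single (Finsupp.single 2 n')]
  · rw [Fin.prod_univ_three]
    simp [hm]
  · intro d hd hne
    rw [Fin.prod_univ_three]
    have h := g22_wt hF hd
    by_cases h0 : d 0 = 0
    · by_cases h1 : d 1 = 0
      · rw [h0, h1] at h
        have h2 : d 2 = n' := Nat.eq_of_mul_eq_mul_right hQ (by omega)
        exact absurd (g22_single h0 h1 h2) hne
      · simp [h1]
    · simp [h0]
  · intro h
    rw [notMem_support_iff, hm] at h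
    exact absurd h one_ne_zero

theorem g22_eta {K : Type u} (R : Fin 3 → K) : R = ![R 0, R 1, R 2] := by
  ext i
  fin_cases i <;> rfl

theorem e_norm (p : ℕ) : NORM_s.{u} p := by
  intro K _ _ I m Q a F n' hp hP
  have hQ : 0 < Q := by
    obtain ⟨i, hi⟩ := hP.hQ
    rw [hi]; exact pow_pos hp _
  have key : ∀ (R R' : Fin 3 → K) (t : K), t ≠ 0 → eval R F = 0 → R = sc (wt Q) t R' →
      eval R' F = 0 := by
    intro R R' t ht hR h
    rw [h, g22_scale _ _ _ hP.hF] at hR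
    exact (mul_eq_zero.1 hR).resolve_left (pow_ne_zero _ ht)
  refine ⟨?_, ?_, ?_⟩
  · intro R hR hF
    by_cases h0 : R 0 = 0
    · by_cases h1 : R 1 = 0
      · exfalso
        have h2 : R 2 ≠ 0 := by
          intro h2
          apply hR
          rw [g22_eta R, h0, h1, h2]
          ext i
          fin_cases i <;> rfl
        rw [g22_eta R, h0, h1, g22_vertex hQ hP.hF hP.monic] at hF
        exact pow_ne_zero _ h2 hF
      · have he : R = sc (wt Q) (R 1) ![0, 1, R 2 / R 1 ^ Q] := by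
          ext i
          fin_cases i
          · simp [sc, h0]
          · simp [sc, wt]
          · simp [sc, wt]; field_simp
        exact ⟨R 1, _, h1, Or.inr ⟨rfl, rfl⟩, key _ _ _ h1 hF he, he⟩
    · have he : R = sc (wt Q) (R 0) ![1, R 1 / R 0, R 2 / R 0 ^ Q] := by
        ext i
        fin_cases i
        · simp [sc, wt]
        · simp [sc, wt]; field_simp
        · simp [sc, wt]; field_simp
      exact ⟨R 0, _, h0, Or.inl rfl, key _ _ _ h0 hF he, he⟩
  · have hc := g22_f_coeff hP.hF hP.monic (1 : K) 0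
    have hdeg : (g22_f F (1 : K) 0).degree ≠ 0 := by
      intro h
      have := Polynomial.coeff_eq_zero_of_degree_lt (p := g22_f F (1 : K) 0) (n := n')
        (by rw [h]; exact_mod_cast hP.npos)
      rw [hc] at this
      exact one_ne_zero this
    obtain ⟨y, hy⟩ := IsAlgClosed.exists_root _ hdeg
    exact ⟨![1, 0, y], Or.inl rfl, by rw [← g22_f_eval]; exact hy⟩
  · have hc := g22_f_coeff hP.hF hP.monic (0 : K) 1
    have hne : g22_f F (0 : K) 1 ≠ 0 := by
      intro h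
      rw [h, Polynomial.coeff_zero] at hc
      exact zero_ne_one hc
    have hfin : {y : K | (g22_f F (0 : K) 1).IsRoot y}.Finite :=
      Polynomial.finite_setOfPred_isRoot hne
    refine (hfin.image fun y => (![0, 1, y] : Fin 3 → K)).subset ?_
    rintro R ⟨h0, h1, hF⟩
    have he : (![0, 1, R 2] : Fin 3 → K) = R := by
      ext i
      fin_cases i
      · exact h0.symm
      · exact h1.symm
      · rfl
    refine ⟨R 2, ?_, he⟩
    show (g22_f F (0 : K) 1).eval (R 2) = 0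
    rw [g22_f_eval, he]
    exact hF

theorem e_finz (p : ℕ) : FINZ_s.{u} p := by
  intro hFI hN K _ _ I m Q a F D n' B hp hP hB
  have h1 := (hFI K I m Q a F n' hp hP).2
  have h3 := (hN K I m Q a F n' hp hP).2.2
  have hS : {v : Fin 4 → K | v ∈ V I ∧ eval v (a 0) = 1 ∧ eval (val3 a v) D = 0}.Finite := by
    by_contra hinf
    obtain ⟨T, hT, hc⟩ := (Set.not_finite.1 hinf).exists_subset_card_eq (B + 1)
    have := hB T fun v hv => hT hv
    omega
  refine ((hS.image (val3 a)).union h3).subset ?_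
  rintro R ⟨hn, hF, hD⟩
  rcases hn with h0 | ⟨h0, h0'⟩
  · obtain ⟨v, hv, hR⟩ := (h1 R).1 hF
    refine Or.inl ⟨v, ⟨hv, ?_, ?_⟩, hR⟩
    · have := congrFun hR 0
      rw [h0] at this
      exact this
    · rw [hR]; exact hD
  · exact Or.inr ⟨h0, h0', hF⟩

theorem g22_eval_aeval {K : Type u} [Field K] (a : Fin 3 → P4 K) (v : Fin 4 → K) (g : P3 K) :
    eval v (aeval a g) = eval (val3 a v) g := by
  induction g using MvPolynomial.induction_on with
  | C c => simp
  | add f g hf hg => rw [map_add, map_add, map_add, hf, hg]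
  | mul_X f i hf => rw [map_mul, map_mul, map_mul, hf, aeval_X, eval_X, val3]

theorem g22_val {K : Type u} [Field K] {I : Ideal (P4 K)} {a : Fin 3 → P4 K} {D E : P3 K}
    {v : Fin 4 → K} {ν : K} (h : Val I a D E v ν) :
    eval (val3 a v) D * ν = eval (val3 a v) E := by
  have := h (aeval a D) (aeval a E) (by rw [mul_comm, sub_self]; exact I.zero_mem)
  rwa [g22_eval_aeval, g22_eval_aeval] at this

theorem g22_low0 {K : Type u} [Field K] {p A : ℕ} {b : ℕ → ℕ → P3 K} {R : Fin 3 → K}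
    (h : ∀ i, i ≤ A → ∀ r, r < p → eval R (b i r) = 0) (μ ν : K) : low p A b R μ ν = 0 := by
  unfold low
  refine Finset.sum_eq_zero fun i hi => Finset.sum_eq_zero fun r hr => ?_
  have := h i (Nat.lt_succ_iff.1 (Finset.mem_range.1 hi)) r (Finset.mem_range.1 hr)
  rw [aeval_eq_eval, this, zero_mul, zero_mul]

theorem e_sv (p : ℕ) : SV_s.{u} p := by
  intro K _ I m Q a F D E Λ b n' d s θ κ A M hP hS hN v hv v' hv' hvv ν ν' hν hν'
  by_cases hne : v = v'
  · subst hne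
    have uniq : ∀ w, Node I a v w → ν = ν' := by
      intro w hw
      obtain ⟨ρ, ρ', h1, -⟩ := hN v w hw
      rw [h1 ν hν, h1 ν' hν']
    by_cases hD : eval (val3 a v) D = 0
    · have hF : eval (val3 a v) F = 0 := by
        rw [← g22_eval_aeval]
        exact hv _ ((hP.ker F).2 dvd_rfl)
      rcases hS.off _ hF hD with h0 | ⟨w, w', hw, hR⟩
      · rw [g22_low0 h0, g22_low0 h0]
      · by_cases hvw : v = w
        · subst hvw
          rw [uniq w' hw]
        · rw [uniq w ⟨hv, hw.1, hvw, hR.symm⟩]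
    · have : ν = ν' := mul_left_cancel₀ hD ((g22_val hν).trans (g22_val hν').symm)
      rw [this]
  · obtain ⟨ρ, ρ', h1, h2, -, -, h5⟩ := hN v v' ⟨hv, hv', hne, hvv⟩
    rw [h1 ν hν, h2 ν' hν', ← hvv]
    linear_combination -h5

theorem e_back (p : ℕ) : BACK_s.{u} p := by
  intro hFI K _ _ hp I m Q a F D E Λ b n' d s θ κ A M hP hS hN R τ ν hR
  have hp0 : 0 < p := hp.out.pos
  obtain ⟨q, rfl⟩ : ∃ q, p = q + 1 := ⟨p - 1, by omega⟩
  have hF : eval R F = 0 := by
    have := hR.lin (D ^ (q + 1)) (fun r => if r = 0 then F ^ (q + 1 - 1) else 0) (by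
      unfold Idn
      rw [Finset.sum_range_succ']
      simp [mul_comm])
    rw [Finset.sum_range_succ'] at this
    simp only [Nat.succ_ne_zero, if_false, if_true, map_zero, zero_mul, mul_zero,
      Finset.sum_const_zero, zero_add, pow_zero, mul_one, map_pow] at this
    exact eq_zero_of_pow_eq_zero this.symm
  have hE : eval R D * ν = eval R E := by
    have := hR.lin 0 (fun r => if r = 0 then -E else if r = 1 then D else 0) (by
      unfold Idn
      rw [Finset.sum_range_succ', Finset.sum_range_succ']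
      simp
      ring)
    rw [Finset.sum_range_succ', Finset.sum_range_succ'] at this
    simp at this
    linear_combination -this
  obtain ⟨v, hv, hvR⟩ := ((hFI K I m Q a F n' hp0 hP).2 R).1 hF
  by_cases hD : eval R D = 0
  · rcases hS.off _ hF hD with h0 | ⟨w, w', hw, hwR⟩
    · exact ⟨v, hv, hvR, fun ν' _ => by rw [g22_low0 h0, g22_low0 h0]⟩
    · obtain ⟨ρ, ρ', h1, h2, h3, -⟩ := hN w w' hw
      rcases h3 τ ν (by rw [hwR]; exact hR) with h | h
      · exact ⟨w, hw.1, hwR, fun ν' h' => by rw [h1 ν' h', h]⟩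
      · exact ⟨w', hw.2.1, hw.2.2.2.symm.trans hwR, fun ν' h' => by rw [h2 ν' h', h]⟩
  · refine ⟨v, hv, hvR, fun ν' h' => ?_⟩
    have h1 := g22_val h'
    rw [hvR] at h1
    rw [mul_left_cancel₀ hD (h1.trans hE.symm)]

end H62e

end PartH62eG22

section PartH62eH48

set_option autoImplicit false

open MvPolynomial H39c

namespace H62e

universe u

theorem eval_aeval48 {K : Type u} [Field K] (a : Fin 3 → P4 K) (v : Fin 4 → K) (f : P3 K) :
    eval v (aeval a f) = eval (val3 a v) f := by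
  induction f using MvPolynomial.induction_on with
  | C r => simp
  | add f g hf hg => simp only [map_add, hf, hg]
  | mul_X f i hf => simp only [map_mul, hf, aeval_X, eval_X, val3]

theorem has_mul48 {K : Type u} [Field K] {I : Ideal (P4 K)} {a : Fin 3 → P4 K} {D E χ : P3 K}
    {v : Fin 4 → K} {ρ : K} (h : Has I a D E v ρ) (hχ : eval (val3 a v) χ = 1) :
    Has I a D (E * χ) v ρ := by
  obtain ⟨h1, h2, e1, e2, e3⟩ := h
  refine ⟨h1, h2 * aeval a χ, e1, ?_, ?_⟩
  · have : h1 * aeval a (E * χ) - h2 * aeval a χ * aeval a D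
        = (h1 * aeval a E - h2 * aeval a D) * aeval a χ := by
      rw [map_mul]; ring
    rw [this]
    exact Ideal.mul_mem_right _ _ e2
  · rw [map_mul, eval_aeval48, hχ, mul_one, e3]

theorem has_eval48 {K : Type u} [Field K] {I : Ideal (P4 K)} {a : Fin 3 → P4 K} {D E : P3 K}
    {v : Fin 4 → K} {ρ : K} (h : Has I a D E v ρ) (hv : v ∈ V I) :
    eval (val3 a v) E = ρ * eval (val3 a v) D := by
  obtain ⟨h1, h2, e1, e2, e3⟩ := h
  have := hv _ e2
  rw [map_sub, map_mul, map_mul, eval_aeval48, eval_aeval48, e3] at this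
  apply mul_left_cancel₀ e1
  linear_combination this

theorem eval_dvd48 {K : Type u} [Field K] {R : Fin 3 → K} (hR : R 0 = 1) {g g' : P3 K}
    (h : (X 0 - 1 : P3 K) ∣ g' - g) : eval R g' = eval R g := by
  obtain ⟨w, hw⟩ := h
  have := congrArg (eval R) hw
  rw [map_sub, map_mul, map_sub, eval_X, hR, map_one, sub_self, zero_mul] at this
  exact sub_eq_zero.1 this

/-- the identity at a node, homogenised, for `E * χ` -/
theorem homid48 (hH : HOMG_s.{u}) {K : Type u} [Field K] {p Q n d s θ : ℕ} {F D E χ c : P3 K}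
    {g : ℕ → P3 K} (hF : F.IsWeightedHomogeneous (wt Q) n)
    (hD : D.IsWeightedHomogeneous (wt Q) d)
    (hE : (E * χ).IsWeightedHomogeneous (wt Q) (d + s)) (hθ : (p - 1) * n = p * d + θ)
    (hdv : (X 0 - 1 : P3 K) ∣
      c * F ^ (p - 1) - ∑ r ∈ Finset.range (p + 1), g r * E ^ r * D ^ (p - r)) :
    ∃ (c' : P3 K) (g' : ℕ → P3 K), Idn p F D (E * χ) c' g' ∧ (∀ r, p < r → g' r = 0) ∧
      (∃ W, (g' p).IsWeightedHomogeneous (wt Q) W) ∧
      ∀ R : Fin 3 → K, R 0 = 1 → eval R χ = 1 →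
        eval R c' = eval R c ∧ ∀ r, r ≤ p → eval R (g' r) = eval R (g r) := by
  classical
  obtain ⟨hH1, hH2⟩ := hH K Q
  obtain ⟨Nc, hNc⟩ := hH1 (c * χ ^ p)
  choose Ng hNg using fun r : ℕ => hH1 (g r * χ ^ (p - r))
  set W : ℕ := Nc + p * s + ∑ r ∈ Finset.range (p + 1), Ng r with hW
  obtain ⟨c', hc', hcd⟩ := hNc W (by omega)
  have hle : ∀ r, r ≤ p → Ng r + r * s ≤ W := by
    intro r hr
    have h1 : Ng r ≤ ∑ r ∈ Finset.range (p + 1), Ng r :=
      Finset.single_le_sum (fun _ _ => Nat.zero_le _) (Finset.mem_range.2 (by omega))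
    have h2 : r * s ≤ p * s := Nat.mul_le_mul_right _ hr
    omega
  have hex : ∀ r : ℕ, ∃ g' : P3 K, (r ≤ p → g'.IsWeightedHomogeneous (wt Q) (W + θ - r * s) ∧
      (X 0 - 1 : P3 K) ∣ g' - g r * χ ^ (p - r)) ∧ (p < r → g' = 0) := by
    intro r
    by_cases hr : r ≤ p
    · obtain ⟨g', h1, h2⟩ := hNg r (W + θ - r * s) (by have := hle r hr; omega)
      exact ⟨g', fun _ => ⟨h1, h2⟩, fun h => absurd hr (by omega)⟩
    · exact ⟨0, fun h => absurd h hr, fun _ => rfl⟩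
  choose g' hg' hg0 using hex
  refine ⟨c', g', ?_, hg0, ⟨_, (hg' p le_rfl).1⟩, fun R hR hχ => ⟨?_, fun r hr => ?_⟩⟩
  · rw [Idn, ← sub_eq_zero]
    refine hH2 _ (W + (p - 1) * n) ?_ ?_
    · refine (weightedHomogeneousSubmodule K (wt Q) (W + (p - 1) * n)).sub_mem ?_
        ((weightedHomogeneousSubmodule K (wt Q) (W + (p - 1) * n)).sum_mem fun r hr => ?_)
      · have := hc'.mul (hF.pow (p - 1))
        rwa [smul_eq_mul] at this
      · have hr' : r ≤ p := by have := Finset.mem_range.1 hr; omega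
        have h1 := ((hg' r hr').1.mul (hE.pow r)).mul (hD.pow (p - r))
        have h2 : W + θ - r * s + r • (d + s) + (p - r) • d = W + (p - 1) * n := by
          have h3 := hle r hr'
          have h4 : (p - r) * d + r * d = p * d := by rw [← add_mul, Nat.sub_add_cancel hr']
          rw [smul_eq_mul, smul_eq_mul, hθ, mul_add]
          omega
        rwa [h2] at h1
    · have h1 : c' * F ^ (p - 1) - ∑ r ∈ Finset.range (p + 1), g' r * (E * χ) ^ r * D ^ (p - r)
          = (c' - c * χ ^ p) * F ^ (p - 1)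
            - ∑ r ∈ Finset.range (p + 1), (g' r - g r * χ ^ (p - r)) * ((E * χ) ^ r * D ^ (p - r))
            + χ ^ p * (c * F ^ (p - 1)
              - ∑ r ∈ Finset.range (p + 1), g r * E ^ r * D ^ (p - r)) := by
        have h2 : ∑ r ∈ Finset.range (p + 1), g' r * (E * χ) ^ r * D ^ (p - r)
            = ∑ r ∈ Finset.range (p + 1), (g' r - g r * χ ^ (p - r)) * ((E * χ) ^ r * D ^ (p - r))
              + χ ^ p * ∑ r ∈ Finset.range (p + 1), g r * E ^ r * D ^ (p - r) := by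
          rw [Finset.mul_sum, ← Finset.sum_add_distrib]
          refine Finset.sum_congr rfl fun r hr => ?_
          have hr' : r ≤ p := by have := Finset.mem_range.1 hr; omega
          have h3 : χ ^ p = χ ^ (p - r) * χ ^ r := by rw [← pow_add, Nat.sub_add_cancel hr']
          rw [h3, mul_pow]
          ring
        rw [h2]
        ring
      rw [h1]
      refine dvd_add (dvd_sub (hcd.mul_right _) (Finset.dvd_sum fun r hr => ?_)) (hdv.mul_left _)
      have hr' : r ≤ p := by have := Finset.mem_range.1 hr; omega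
      exact (hg' r hr').2.mul_right _
  · rw [eval_dvd48 hR hcd, map_mul, map_pow, hχ, one_pow, mul_one]
  · rw [eval_dvd48 hR (hg' r hr).2, map_mul, map_pow, hχ, one_pow, mul_one]

theorem idn_one48 {K : Type u} [Field K] {p : ℕ} (hp : 1 ≤ p) {F D E c g0 g1 : P3 K}
    {R : Fin 3 → K} (h : c * F ^ (p - 1) = g0 * D ^ p + g1 * E * D ^ (p - 1))
    (hR : eval R g1 ≠ 0) : Lead p F D E R := by
  refine ⟨c, fun r => if r = 0 then g0 else if r = 1 then g1 else 0, 1, ?_, le_rfl, hp,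
    by simpa using hR, fun r hr => ?_⟩
  · obtain ⟨q, rfl⟩ : ∃ q, p = q + 1 := ⟨p - 1, by omega⟩
    rw [Idn, Finset.sum_range_succ', Finset.sum_range_succ', h]
    simp [add_comm]
  · have h0 : r ≠ 0 := by omega
    have h1 : r ≠ 1 := by omega
    simp [h0, h1]

theorem e_CHO1 (p : ℕ) : CHO1_s.{u} p := by
  intro hS hI hH hN K _ _ hp I m Q a F D E n' d e θ hP _ hL hY
  classical
  have hp2 : 2 ≤ p := hp.out.two_le
  have hQ : 0 < Q := by
    obtain ⟨i, hi⟩ := hP.hQ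
    rw [hi]; exact pow_pos (by omega) _
  have hsc : ∀ (f : P3 K) (n : ℕ), f.IsWeightedHomogeneous (wt Q) n → ∀ (t : K) (x : Fin 3 → K),
      eval (sc (wt Q) t x) f = t ^ n * eval x f := fun f n hf t x => hS K K 3 (wt Q) f n hf t x
  obtain ⟨hN1, -, -⟩ := hN K I m Q a F n' (by omega) hP
  let Nd : (Fin 3 → K) → Prop := fun R =>
    ∃ v v', Node I a v v' ∧ eval v (a 0) = 1 ∧ val3 a v = R
  obtain ⟨N0, hN0⟩ := hI K Q hY.toFinset (fun R hR => (hY.mem_toFinset.1 hR).1)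
  obtain ⟨χ0, hχ0, hχv⟩ := hN0 (N0 + 1) (by omega) (fun R => if Nd R then 1 else 0)
  obtain ⟨s0, hs0, hsv⟩ := hN0 (N0 + 1) (by omega) (fun R => if Nd R then 0 else 1)
  have hnorm : ∀ R : Fin 3 → K, R ≠ 0 → eval R F = 0 → eval R D = 0 →
      ∃ (t : K) (R' : Fin 3 → K), t ≠ 0 ∧ R' ∈ hY.toFinset ∧ R = sc (wt Q) t R' := by
    intro R hR hF hD
    obtain ⟨t, R', ht, hn, hF', rfl⟩ := hN1 R hR hF
    refine ⟨t, R', ht, hY.mem_toFinset.2 ⟨hn, hF', ?_⟩, rfl⟩
    rw [hsc D d hL.hD] at hD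
    exact (mul_eq_zero.1 hD).resolve_left (pow_ne_zero _ ht)
  have hrad : s0 * χ0 ∈ (Ideal.span {D ^ p, F ^ (p - 1)} : Ideal (P3 K)).radical := by
    rw [← vanishingIdeal_zeroLocus_eq_radical (K := K), mem_vanishingIdeal_iff]
    intro R hR
    rw [mem_zeroLocus_iff] at hR
    have hD : eval R D = 0 := by
      have := hR (D ^ p) (Ideal.subset_span (by simp))
      rw [map_pow] at this
      exact pow_eq_zero_iff (by omega) |>.1 this
    have hF : eval R F = 0 := by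
      have := hR (F ^ (p - 1)) (Ideal.subset_span (by simp))
      rw [map_pow] at this
      exact pow_eq_zero_iff (by omega) |>.1 this
    change eval R (s0 * χ0) = 0
    rw [map_mul]
    by_cases h0 : R = 0
    · have h1 : R = sc (wt Q) 0 R := by
        funext i
        rw [h0]
        simp [sc]
      rw [h1, hsc χ0 _ hχ0, pow_succ, mul_zero, zero_mul, mul_zero]
    · obtain ⟨t, R', -, hR', rfl⟩ := hnorm R h0 hF hD
      rw [hsc s0 _ hs0, hsc χ0 _ hχ0, hsv R' hR', hχv R' hR']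
      split_ifs <;> simp
  obtain ⟨N', hN'⟩ := hrad
  set N : ℕ := N' + (d + θ) with hNdef
  have hmem : (s0 * χ0) ^ N ∈ (Ideal.span {D ^ p, F ^ (p - 1)} : Ideal (P3 K)) := by
    rw [hNdef, pow_add]
    exact Ideal.mul_mem_right _ _ hN'
  obtain ⟨al, be, hab⟩ := Ideal.mem_span_pair.1 hmem
  have hge : d + θ ≤ e + N * (N0 + 1) := by
    have : N ≤ N * (N0 + 1) := Nat.le_mul_of_pos_right _ (by omega)
    omega
  have hE' : (E * χ0 ^ N).IsWeightedHomogeneous (wt Q) (d + (e + N * (N0 + 1) - d)) := by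
    have h1 := hL.hE.mul (hχ0.pow N)
    have h2 : e + N • (N0 + 1) = d + (e + N * (N0 + 1) - d) := by
      rw [smul_eq_mul]; omega
    rwa [h2] at h1
  have hnode : ∀ v v', Node I a v v' → eval v (a 0) = 1 →
      ∃ (c : P3 K) (g : ℕ → P3 K) (ρ ρ' : K), eval (val3 a v) c ≠ 0 ∧
        eval (val3 a v) (g p) ≠ 0 ∧ ρ ≠ ρ' ∧ Idn p F D (E * χ0 ^ N) c g ∧
        (∀ t : K, ∑ r ∈ Finset.range (p + 1), eval (val3 a v) (g r) * t ^ r = 0 ↔
          t = ρ ∨ t = ρ') ∧
        Has I a D (E * χ0 ^ N) v ρ ∧ Has I a D (E * χ0 ^ N) v' ρ' ∧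
        (∀ r, p < r → g r = 0) ∧ ∃ W, (g p).IsWeightedHomogeneous (wt Q) W := by
    intro v v' hn h0
    obtain ⟨c, g, ρ, ρ', hc, hg, hρ, hdv, hroot, hh, hh'⟩ := hL.node v v' hn h0
    have hvv : val3 a v' = val3 a v := hn.2.2.2.symm
    have hD0 : eval (val3 a v) D = 0 := by
      have h1 := has_eval48 hh hn.1
      have h2 := has_eval48 hh' hn.2.1
      rw [hvv, h1] at h2
      by_contra h3
      exact hρ (mul_right_cancel₀ h3 h2)
    have hF0 : eval (val3 a v) F = 0 := by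
      rw [← eval_aeval48]
      exact hn.1 _ ((hP.ker F).2 dvd_rfl)
    have hR0 : val3 a v 0 = 1 := h0
    have hmemY : val3 a v ∈ hY.toFinset := hY.mem_toFinset.2 ⟨Or.inl hR0, hF0, hD0⟩
    have hχ1 : eval (val3 a v) (χ0 ^ N) = 1 := by
      rw [map_pow, hχv _ hmemY, if_pos ⟨v, v', hn, h0, rfl⟩, one_pow]
    obtain ⟨c', g', hid, hz, hW, hval⟩ := homid48 hH hP.hF hL.hD hE' hL.hθ hdv
    obtain ⟨hv1, hv2⟩ := hval _ hR0 hχ1
    refine ⟨c', g', ρ, ρ', by rwa [hv1], by rwa [hv2 p le_rfl], hρ, hid, fun t => ?_,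
      has_mul48 hh hχ1, has_mul48 hh' (by rw [hvv]; exact hχ1), hz, hW⟩
    rw [← hroot t, Finset.sum_congr rfl fun r hr => by
      rw [hv2 r (by have := Finset.mem_range.1 hr; omega)]]
  refine ⟨E * χ0 ^ N, e + N * (N0 + 1) - d, hL.hD, hE', hL.nD, hL.hθ, hL.lo, hL.hi, by omega,
    fun R hR => ?_, fun v v' hn h0 => ?_⟩
  · by_cases hD : eval R D = 0
    swap
    · refine idn_one48 (by omega) (c := 0) (g0 := -(E * χ0 ^ N)) (g1 := D) ?_ hD
      have h1 : D ^ p = D * D ^ (p - 1) := by rw [← pow_succ', Nat.sub_add_cancel (by omega)]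
      rw [h1]; ring
    by_cases hF : eval R F = 0
    swap
    · refine ⟨(E * χ0 ^ N) ^ p, fun r => if r = p then F ^ (p - 1) else 0, p, ?_, by omega, le_rfl,
        by simpa using fun h => absurd h hF, fun r hr => if_neg (by omega)⟩
      rw [Idn, Finset.sum_eq_single p]
      · simp [mul_comm]
      · intro r _ hr
        simp [hr]
      · intro h
        exact absurd (Finset.self_mem_range_succ p) h
    obtain ⟨t, R', ht, hR', rfl⟩ := hnorm R hR hF hD
    by_cases hnd : Nd R'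
    · obtain ⟨v, v', hn, h0, rfl⟩ := hnd
      obtain ⟨c, g, ρ, ρ', -, hg, -, hid, -, -, -, hz, W, hW⟩ := hnode v v' hn h0
      refine ⟨c, g, p, hid, by omega, le_rfl, ?_, hz⟩
      rw [hsc _ W hW]
      exact mul_ne_zero (pow_ne_zero _ ht) hg
    · refine idn_one48 (by omega) (c := E * be * D ^ (p - 1)) (g0 := -(E * al * D ^ (p - 1)))
        (g1 := s0 ^ N) ?_ ?_
      · rw [mul_pow] at hab
        linear_combination (E * D ^ (p - 1)) * hab
      · rw [map_pow, hsc s0 _ hs0, hsv R' hR', if_neg hnd, mul_one]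
        exact pow_ne_zero _ (pow_ne_zero _ ht)
  · obtain ⟨c, g, ρ, ρ', h1, h2, h3, h4, h5, h6, h7, -, -⟩ := hnode v v' hn h0
    exact ⟨c, g, ρ, ρ', h1, h2, h3, h4, h5, h6, h7⟩

end H62e

end PartH62eH48

section PartH39cEoStm

set_option autoImplicit false

open MvPolynomial

namespace H39c.Eo

universe u

abbrev P2 (K : Type u) [CommRing K] := MvPolynomial (Fin 2) K

/-- dehomogenisation `w0 = 1` -/
noncomputable def deh {K : Type u} [Field K] : P3 K →ₐ[K] P2 K := aeval ![1, X 0, X 1]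

/-- affine coordinates of a point with `R 0 = 1` -/
def aff {K : Type u} (R : Fin 3 → K) : Fin 2 → K := ![R 1, R 2]

/-- Jacobian determinant at `r` -/
noncomputable def jac {K : Type u} [Field K] (r : Fin 2 → K) (x y : P2 K) : K :=
  eval r (pderiv 0 x) * eval r (pderiv 1 y) - eval r (pderiv 1 x) * eval r (pderiv 0 y)

/-- `x, y` generate the maximal ideal `ker ev` locally -/
def Gen {O K : Type u} [CommRing O] [Field K] (ev : O →+* K) (x y : O) : Prop :=
  ev x = 0 ∧ ev y = 0 ∧ ∀ g, ev g = 0 → ∃ s α β : O, ev s ≠ 0 ∧ s * g = α * x + β * y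

/-- `y / x` has the value `t` at `φ` -/
def ValA {A K : Type u} [CommRing A] [Field K] (φ : A →+* K) (y x : A) (t : K) : Prop :=
  ∃ k1 k2 : A, φ k1 ≠ 0 ∧ k1 * y = k2 * x ∧ φ k2 = t * φ k1

/-- `x` is a local parameter at `φ` (for functions coming from `O`) -/
def Par {O A K : Type u} [CommRing O] [CommRing A] [Field K] (θ : O →+* A) (ev : O →+* K)
    (φ : A →+* K) (x : O) : Prop :=
  ∀ g, ev g = 0 → ∃ k1 k2 : A, φ k1 ≠ 0 ∧ k1 * θ g = k2 * θ x

/-- an ordinary node: `θ : O → A`, two points `φ, φ'` over `ev`, `x` a parameter at both -/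
structure NodeA {O A K : Type u} [CommRing O] [CommRing A] [Field K] (θ : O →+* A) (ev : O →+* K)
    (φ φ' : A →+* K) (x : O) : Prop where
  c1 : ∀ u, φ (θ u) = ev u
  c2 : ∀ u, φ' (θ u) = ev u
  x0 : ev x = 0
  xne : θ x ≠ 0
  par : Par θ ev φ x
  par' : Par θ ev φ' x
  sep : ∃ (e : O) (t t' : K), t ≠ t' ∧ ValA φ (θ e) (θ x) t ∧ ValA φ' (θ e) (θ x) t'

/-- normal form of order `j` -/
def NF {O K : Type u} [CommRing O] [Field K] (ev : O →+* K) (f x D : O) (j : ℕ) : Prop :=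
  ∃ s ka la r : O, ev s ≠ 0 ∧ ev ka ≠ 0 ∧ s * f = ka * x * D + la * x ^ j + r * D ^ 2

/-- normal form of exact order `j` -/
def NFx {O K : Type u} [CommRing O] [Field K] (ev : O →+* K) (f x D : O) (j : ℕ) : Prop :=
  ∃ s ka la r : O, ev s ≠ 0 ∧ ev ka ≠ 0 ∧ ev la ≠ 0 ∧ s * f = ka * x * D + la * x ^ j + r * D ^ 2

/-- the local output at a node, in the chart -/
def LocA {O A K : Type u} [CommRing O] [CommRing A] [Field K] (p : ℕ) (θ : O →+* A) (ev : O →+* K)
    (φ φ' : A →+* K) (f D E : O) : Prop :=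
  θ D ≠ 0 ∧ ∃ (c : O) (g : ℕ → O) (ρ ρ' : K), ρ ≠ ρ' ∧ ev c ≠ 0 ∧ ev (g p) ≠ 0 ∧
    c * f ^ (p - 1) = ∑ r ∈ Finset.range (p + 1), g r * E ^ r * D ^ (p - r) ∧
    (∀ t : K, ∑ r ∈ Finset.range (p + 1), ev (g r) * t ^ r = 0 ↔ t = ρ ∨ t = ρ') ∧
    ValA φ (θ E) (θ D) ρ ∧ ValA φ' (θ E) (θ D) ρ'

/-- `y / x` has the value `t` at the point `v` of `V I` -/
def ValP {K : Type u} [Field K] (I : Ideal (P4 K)) (v : Fin 4 → K) (y x : P4 K) (t : K) : Prop :=
  ∃ h1 h2 : P4 K, eval v h1 ≠ 0 ∧ h1 * y - h2 * x ∈ I ∧ eval v h2 = t * eval v h1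

/-- forms of every weight `≥ i0` take arbitrary values on `N` -/
def Interp {K : Type u} [Field K] (Q : ℕ) (N : Finset (Fin 3 → K)) (i0 : ℕ) : Prop :=
  ∀ i, i0 ≤ i → ∀ val : (Fin 3 → K) → K, ∃ A : P3 K, A.IsWeightedHomogeneous (wt Q) i ∧
    ∀ R ∈ N, eval R A = val R

/-! ### rows -/

/-- DEH: basic facts on `deh`. -/
def DEH_s : Prop := ∀ (K : Type u) [Field K] (Q : ℕ),
  (∀ (R : Fin 3 → K) (g : P3 K), R 0 = 1 → eval (aff R) (deh g) = eval R g) ∧
  (∀ g : P3 K, deh g = 0 ↔ (X 0 - 1 : P3 K) ∣ g) ∧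
  (∀ u : P2 K, ∃ (j : ℕ) (g : P3 K), g.IsWeightedHomogeneous (wt Q) j ∧ deh g = u) ∧
  (∀ (g : P3 K) (j : ℕ), g.IsWeightedHomogeneous (wt Q) j → deh g = 0 → g = 0)

/-- AFF: the chart `a 0 ≠ 0` of the cone (take `A = Localization.Away (mk I (a 0))`,
`θ z = a 1 / a 0`, `θ Y = a 2 / a 0 ^ Q`, `φ = ` evaluation at `v`). -/
def AFF_s : Prop := DEH_s.{u} → ∀ (K : Type u) [Field K] (p : ℕ) (I : Ideal (P4 K)) (m Q : ℕ)
  (a : Fin 3 → P4 K) (F Γ : P3 K) (n' γ : ℕ), Plane p I m Q a F n' → Nodal I Q a Γ γ →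
  ∀ v v', Node I a v v' → eval v (a 0) = 1 →
  ∃ (A : Type u) (_ : CommRing A) (_ : IsDomain A) (θ : P2 K →+* A) (φ φ' : A →+* K),
    θ (deh F) = 0 ∧ NodeA θ (eval (aff (val3 a v))) φ φ' (deh Γ) ∧
    ∀ (g g' : P3 K) (j j' : ℕ) (t : K), g.IsWeightedHomogeneous (wt Q) j →
      g'.IsWeightedHomogeneous (wt Q) j' →
      (ValA φ (θ (deh g)) (θ (deh g')) t → ValP I v (aeval a g) (aeval a g') t) ∧
      (ValA φ' (θ (deh g)) (θ (deh g')) t → ValP I v' (aeval a g) (aeval a g') t)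

/-- CRAM: Cramer. -/
def CRAM_s : Prop := ∀ (K : Type u) [Field K] (r : Fin 2 → K) (x y : P2 K),
  eval r x = 0 → eval r y = 0 → jac r x y ≠ 0 → Gen (eval r) x y

/-- JAC: `x` is smooth at a node. -/
def JAC_s : Prop := ∀ (K A : Type u) [Field K] [CommRing A] [IsDomain A]
  (θ : P2 K →+* A) (r : Fin 2 → K) (φ φ' : A →+* K) (x : P2 K),
  NodeA θ (eval r) φ φ' x → eval r (pderiv 0 x) ≠ 0 ∨ eval r (pderiv 1 x) ≠ 0

/-- SEPV: a second generator has different values on the two branches. -/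
def SEPV_s : Prop := ∀ (K O A : Type u) [Field K] [CommRing O] [CommRing A] [IsDomain A]
  (θ : O →+* A) (ev : O →+* K) (φ φ' : A →+* K) (x y : O), NodeA θ ev φ φ' x → Gen ev x y →
  ∃ t t' : K, t ≠ t' ∧ ValA φ (θ y) (θ x) t ∧ ValA φ' (θ y) (θ x) t'

/-- NF: start, step, last shift. -/
def NFS_s : Prop := ∀ (K O : Type u) [Field K] [CommRing O] (ev : O →+* K) (f x : O),
  (∀ (y A : O) (j : ℕ), Gen ev x y → Gen ev x (y + A * x ^ (j + 1))) ∧
  (∀ (y s al be ph A : O) (t t' : K), Gen ev x y → t ≠ t' → ev s ≠ 0 → ev ph ≠ 0 →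
    s * y ^ 2 + al * y * x + be * x ^ 2 = ph * f → ev al = -(t + t') * ev s →
    ev be = t * t' * ev s → ev A = -t → NF ev f x (y + A * x) 3) ∧
  (∀ (D : O) (j : ℕ), Gen ev x D → NF ev f x D (j + 3) →
    ∃ c : K, ∀ A : O, ev A = c → NF ev f x (D + A * x ^ (j + 2)) (j + 4)) ∧
  (∀ (D : O) (j : ℕ), Gen ev x D → NF ev f x D (j + 3) →
    ∃ c : K, ∀ A : O, ev A = c → NFx ev f x (D + A * x ^ (j + 2)) (j + 3))

/-- LODD: local output for `p ≥ 3`. -/
def LODD_s : Prop := SEPV_s.{u} → ∀ (K O A : Type u) [Field K] [CommRing O] [CommRing A]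
  [IsDomain A] (θ : O →+* A) (ev : O →+* K) (φ φ' : A →+* K) (f x D : O) (p : ℕ), 3 ≤ p →
  NodeA θ ev φ φ' x → Gen ev x D → θ f = 0 → NFx ev f x D p →
  LocA p θ ev φ φ' f D (x ^ (p - 1))

/-- LTWO: local output for `p = 2`. -/
def LTWO_s : Prop := ∀ (K O A : Type u) [Field K] [CommRing O] [CommRing A]
  (θ : O →+* A) (ev : O →+* K) (φ φ' : A →+* K) (f x y s al be ph : O) (t t' : K),
  θ x ≠ 0 → t ≠ t' → ValA φ (θ y) (θ x) t → ValA φ' (θ y) (θ x) t' → ev s ≠ 0 → ev ph ≠ 0 →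
  s * y ^ 2 + al * y * x + be * x ^ 2 = ph * f → ev al = -(t + t') * ev s →
  ev be = t * t' * ev s → LocA 2 θ ev φ φ' f x y

/-- NDV: a nonzero form of smaller weight is not divisible by `F`. -/
def NDV_s : Prop := ∀ (K : Type u) [Field K] (Q : ℕ) (F D : P3 K) (N d : ℕ), D ≠ 0 →
  F.IsWeightedHomogeneous (wt Q) N → D.IsWeightedHomogeneous (wt Q) d → d < N → ¬ F ∣ D

/-- VI: the normalised nodes are finitely many and values are free on them in low weight. -/
def VI_s : Prop := ∀ (K : Type u) [Field K] [IsAlgClosed K] (p : ℕ) [Fact p.Prime]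
  (I : Ideal (P4 K)) (m Q : ℕ) (a : Fin 3 → P4 K) (F Γ : P3 K) (n' γ n c : ℕ),
  Plane p I m Q a F n' → Nodal I Q a Γ γ →
  (∀ (g : P3 K) (j : ℕ), g.IsWeightedHomogeneous (wt Q) j → ¬ F ∣ g →
    ∀ T : Finset (Fin 4 → K), (∀ v ∈ T, v ∈ V I ∧ eval v (a 0) = 1 ∧ eval (val3 a v) g = 0) →
      T.card ≤ n * j + c) →
  ∃ (N : Finset (Fin 3 → K)) (i0 : ℕ),
    (∀ R, R ∈ N ↔ ∃ v v', Node I a v v' ∧ eval v (a 0) = 1 ∧ R = val3 a v) ∧
    i0 ≤ 4 * γ + Q * ((n + c) / 2 + 1) ∧ Interp Q N i0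

/-- GTR: a form through `N` transversal to `Γ`. -/
def GTR_s : Prop := DEH_s.{u} → ∀ (K : Type u) [Field K] [Infinite K] (Q : ℕ) (Γ : P3 K)
  (N : Finset (Fin 3 → K)) (i0 d : ℕ), 0 < Q → Interp Q N i0 → i0 + Q ≤ d → (∀ R ∈ N, R 0 = 1) →
  (∀ R ∈ N, eval (aff R) (pderiv 0 (deh Γ)) ≠ 0 ∨ eval (aff R) (pderiv 1 (deh Γ)) ≠ 0) →
  ∃ G : P3 K, G.IsWeightedHomogeneous (wt Q) d ∧
    ∀ R ∈ N, eval R G = 0 ∧ jac (aff R) (deh Γ) (deh G) ≠ 0

/-- ITER: the contact iteration at all nodes at once. -/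
def ITER_s : Prop := DEH_s.{u} → NFS_s.{u} → ∀ (K : Type u) [Field K] (Q : ℕ) (f : P2 K)
  (Γ D0 : P3 K) (γ d i0 p : ℕ) (N : Finset (Fin 3 → K)), 3 ≤ p → Interp Q N i0 →
  i0 + (p - 1) * γ ≤ d → (∀ R ∈ N, R 0 = 1) → Γ.IsWeightedHomogeneous (wt Q) γ →
  D0.IsWeightedHomogeneous (wt Q) d →
  (∀ R ∈ N, Gen (eval (aff R)) (deh Γ) (deh D0) ∧ NF (eval (aff R)) f (deh Γ) (deh D0) 3) →
  ∃ D : P3 K, D.IsWeightedHomogeneous (wt Q) d ∧
    ∀ R ∈ N, Gen (eval (aff R)) (deh Γ) (deh D) ∧ NFx (eval (aff R)) f (deh Γ) (deh D) p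

end H39c.Eo

end PartH39cEoStm

section PartH39cENak

set_option autoImplicit false

open MvPolynomial

namespace H39c

universe u

variable {K : Type u} [Field K]

/-- `g / G` is regular at `v` on `V I`, with value `ρ`. -/
def Rat (I : Ideal (P4 K)) (G : P4 K) (v : Fin 4 → K) (g : P4 K) (ρ : K) : Prop :=
  ∃ h1 h2 : P4 K, eval v h1 ≠ 0 ∧ h1 * g - h2 * G ∈ I ∧ eval v h2 = ρ * eval v h1

theorem Rat.uniq {I : Ideal (P4 K)} (hI : I.IsPrime) {G : P4 K} (hG : G ∉ I) {v : Fin 4 → K}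
    (hv : v ∈ V I) {g : P4 K} {ρ ρ' : K} (h : Rat I G v g ρ) (h' : Rat I G v g ρ') : ρ = ρ' := by
  obtain ⟨h1, h2, a1, a2, a3⟩ := h
  obtain ⟨k1, k2, b1, b2, b3⟩ := h'
  have hm : (h1 * k2 - k1 * h2) * G ∈ I := by
    have := I.sub_mem (I.mul_mem_left k1 a2) (I.mul_mem_left h1 b2)
    have e : (h1 * k2 - k1 * h2) * G = k1 * (h1 * g - h2 * G) - h1 * (k1 * g - k2 * G) := by ring
    rw [e]; exact this
  have h0 := hv _ ((hI.mem_or_mem hm).resolve_right hG)
  rw [map_sub, map_mul, map_mul, a3, b3] at h0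
  have : eval v h1 * eval v k1 * (ρ' - ρ) = 0 := by rw [← h0]; ring
  rcases mul_eq_zero.1 this with h | h
  · exact absurd h (mul_ne_zero a1 b1)
  · exact (sub_eq_zero.1 h).symm

theorem Rat.add {I : Ideal (P4 K)} {G : P4 K} {v : Fin 4 → K} {g g' : P4 K} {ρ ρ' : K}
    (h : Rat I G v g ρ) (h' : Rat I G v g' ρ') : Rat I G v (g + g') (ρ + ρ') := by
  obtain ⟨h1, h2, a1, a2, a3⟩ := h
  obtain ⟨k1, k2, b1, b2, b3⟩ := h'
  refine ⟨h1 * k1, h2 * k1 + k2 * h1, by rw [map_mul]; exact mul_ne_zero a1 b1, ?_, ?_⟩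
  · have e : h1 * k1 * (g + g') - (h2 * k1 + k2 * h1) * G =
        k1 * (h1 * g - h2 * G) + h1 * (k1 * g' - k2 * G) := by ring
    rw [e]; exact I.add_mem (I.mul_mem_left k1 a2) (I.mul_mem_left h1 b2)
  · simp only [map_add, map_mul, a3, b3]; ring

theorem Rat.mul {I : Ideal (P4 K)} {G : P4 K} {v : Fin 4 → K} {g : P4 K} {ρ : K}
    (h : Rat I G v g ρ) (w : P4 K) : Rat I G v (w * g) (eval v w * ρ) := by
  obtain ⟨h1, h2, a1, a2, a3⟩ := h
  refine ⟨h1, w * h2, a1, ?_, ?_⟩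
  · have e : h1 * (w * g) - w * h2 * G = w * (h1 * g - h2 * G) := by ring
    rw [e]; exact I.mul_mem_left w a2
  · simp only [map_mul, a3]; ring

theorem Rat.of_mem {I : Ideal (P4 K)} (G : P4 K) (v : Fin 4 → K) {g : P4 K} (h : g ∈ I) :
    Rat I G v g 0 :=
  ⟨1, 0, by simp, by simpa using h, by simp⟩

theorem Rat.self (I : Ideal (P4 K)) (G : P4 K) (v : Fin 4 → K) : Rat I G v G 1 :=
  ⟨1, 1, by simp, by simp, by simp⟩

theorem Rat.eval_zero {I : Ideal (P4 K)} {G : P4 K} {v : Fin 4 → K} (hv : v ∈ V I) {g : P4 K}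
    {ρ : K} (h : Rat I G v g ρ) (hG : eval v G = 0) : eval v g = 0 := by
  obtain ⟨h1, h2, a1, a2, -⟩ := h
  have := hv _ a2
  rw [map_sub, map_mul, map_mul, hG, mul_zero, sub_zero] at this
  exact (mul_eq_zero.1 this).resolve_left a1

theorem nak_eval (a : Fin 3 → P4 K) (v : Fin 4 → K) (g : P3 K) :
    eval v (aeval a g) = eval (val3 a v) g := H33s.eval_aeval' a v g

theorem Node.symm {I : Ideal (P4 K)} {a : Fin 3 → P4 K} {v v' : Fin 4 → K} (h : Node I a v v') :
    Node I a v' v := ⟨h.2.1, h.1, h.2.2.1.symm, h.2.2.2.symm⟩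

theorem nak_form {p m Q n' : ℕ} {I : Ideal (P4 K)} {a : Fin 3 → P4 K} {F : P3 K}
    (hP : Plane p I m Q a F n') {g : P3 K} {j : ℕ} (hg : g.IsWeightedHomogeneous (wt Q) j) :
    (aeval a g).IsHomogeneous (m * j) :=
  mv_aeval_hom (wt Q) (1 : Fin 4 → ℕ) m a (fun i => hP.ha i) hg

theorem nak_rat_of_loc {Q γ : ℕ} {I : Ideal (P4 K)} {a : Fin 3 → P4 K} {Γ : P3 K}
    (hN : Nodal I Q a Γ γ) {v v' : Fin 4 → K} (h : Node I a v v') {g : P4 K} (hg : Form g)
    (h0 : eval v g = 0) : ∃ ρ, Rat I (aeval a Γ) v g ρ := by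
  obtain ⟨h1, h2, -, -, a1, a2⟩ := hN.loc v v' h g hg h0
  exact ⟨eval v h2 / eval v h1, h1, h2, a1, a2, by field_simp⟩

/-- a weighted form vanishing at `R = (1, R1, R2)` lies in the ideal of the two linear forms -/
theorem nak_split (Q : ℕ) (R : Fin 3 → K) (hR : R 0 = 1) (g : P3 K) (j : ℕ)
    (hg : g.IsWeightedHomogeneous (wt Q) j) (h0 : eval R g = 0) :
    ∃ g1 g2 : P3 K, g = g1 * (X 1 - C (R 1) * X 0) + g2 * (X 2 - C (R 2) * X 0 ^ Q) := by
  classical
  let J : Ideal (P3 K) := Ideal.span {X 1 - C (R 1) * X 0, X 2 - C (R 2) * X 0 ^ Q}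
  have key : ∀ (s : Fin 3 →₀ ℕ) (c : K), monomial s c -
      C (eval R (monomial s c)) * X 0 ^ (Finsupp.weight (wt Q) s) ∈ J := by
    intro s c
    rw [← Ideal.Quotient.eq, monomial_eq, Finsupp.prod_fintype _ _ (by simp), Fin.prod_univ_three]
    have e1 : Ideal.Quotient.mk J (X 1) = Ideal.Quotient.mk J (C (R 1) * X 0) :=
      Ideal.Quotient.eq.2 (Ideal.subset_span (by simp))
    have e2 : Ideal.Quotient.mk J (X 2) = Ideal.Quotient.mk J (C (R 2) * X 0 ^ Q) :=
      Ideal.Quotient.eq.2 (Ideal.subset_span (by simp))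
    have hw : Finsupp.weight (wt Q) s = s 0 + s 1 + Q * s 2 := by
      rw [Finsupp.weight_apply, Finsupp.sum_fintype _ _ (by simp), Fin.sum_univ_three]
      simp [wt, mul_comm]
    rw [hw]
    simp only [map_mul, map_pow, eval_C, eval_X, hR, one_pow, e1, e2, map_one]
    ring
  have hsum : g - C (eval R g) * X 0 ^ j ∈ J := by
    have e : g - C (eval R g) * X 0 ^ j = ∑ s ∈ g.support, (monomial s (coeff s g) -
        C (eval R (monomial s (coeff s g))) * X 0 ^ (Finsupp.weight (wt Q) s)) := by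
      rw [Finset.sum_sub_distrib, ← g.as_sum]
      congr 1
      conv_lhs => rw [g.as_sum]
      rw [map_sum, map_sum, Finset.sum_mul]
      refine Finset.sum_congr rfl fun s hs => ?_
      rw [hg (mem_support_iff.1 hs)]
    rw [e]
    exact J.sum_mem fun s _ => key s _
  rw [h0, map_zero, zero_mul, sub_zero] at hsum
  obtain ⟨g1, g2, h⟩ := Ideal.mem_span_pair.1 hsum
  exact ⟨g1, g2, h.symm⟩

/-- the second order test -/
theorem nak_unit {p m Q n' γ : ℕ} {I : Ideal (P4 K)} {a : Fin 3 → P4 K} {F Γ : P3 K}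
    (hP : Plane p I m Q a F n') (hN : Nodal I Q a Γ γ) {v v' : Fin 4 → K} (h : Node I a v v')
    (h1 : eval v (a 0) = 1) {e : P3 K} {j : ℕ} (he : e.IsWeightedHomogeneous (wt Q) j) {ρ ρ' : K}
    (hρ : Rat I (aeval a Γ) v (aeval a e) ρ) (hρ' : Rat I (aeval a Γ) v' (aeval a e) ρ')
    (hne : ρ ≠ ρ') {s α β φ : P3 K} (hs : eval (val3 a v) s ≠ 0)
    (hid : φ * F = s * e ^ 2 + α * e * Γ + β * Γ ^ 2) : eval (val3 a v) φ ≠ 0 := by
  classical
  intro hφ
  set R := val3 a v with hRdef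
  have hR0 : R 0 = 1 := h1
  have hRv' : val3 a v' = R := h.2.2.2.symm
  set l1 : P3 K := X 1 - C (R 1) * X 0 with hl1
  set l2 : P3 K := X 2 - C (R 2) * X 0 ^ Q with hl2
  have w1 : l1.IsWeightedHomogeneous (wt Q) 1 := by
    have a1 : (X 1 : P3 K).IsWeightedHomogeneous (wt Q) 1 := isWeightedHomogeneous_X K (wt Q) 1
    have a0 : (X 0 : P3 K).IsWeightedHomogeneous (wt Q) 1 := isWeightedHomogeneous_X K (wt Q) 0
    exact (weightedHomogeneousSubmodule K (wt Q) 1).sub_mem a1 (a0.C_mul _)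
  have w2 : l2.IsWeightedHomogeneous (wt Q) Q := by
    have a1 : (X 2 : P3 K).IsWeightedHomogeneous (wt Q) Q := isWeightedHomogeneous_X K (wt Q) 2
    have a0 : (X 0 : P3 K).IsWeightedHomogeneous (wt Q) 1 := isWeightedHomogeneous_X K (wt Q) 0
    have a2 : (X 0 ^ Q : P3 K).IsWeightedHomogeneous (wt Q) Q := by simpa using a0.pow Q
    exact (weightedHomogeneousSubmodule K (wt Q) Q).sub_mem a1 (a2.C_mul _)
  have z1 : eval R l1 = 0 := by simp [hl1, hR0]
  have z2 : eval R l2 = 0 := by simp [hl2, hR0]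
  obtain ⟨t1, ht1⟩ := nak_rat_of_loc hN h ⟨_, nak_form hP w1⟩ (by rw [nak_eval]; exact z1)
  obtain ⟨t2, ht2⟩ := nak_rat_of_loc hN h ⟨_, nak_form hP w2⟩ (by rw [nak_eval]; exact z2)
  obtain ⟨t1', ht1'⟩ := nak_rat_of_loc hN h.symm ⟨_, nak_form hP w1⟩
    (by rw [nak_eval, hRv']; exact z1)
  obtain ⟨t2', ht2'⟩ := nak_rat_of_loc hN h.symm ⟨_, nak_form hP w2⟩
    (by rw [nak_eval, hRv']; exact z2)
  have hΓ0 : eval R Γ = 0 := hN.van v v' h
  have he0 : eval R e = 0 := by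
    rw [← nak_eval]; exact hρ.eval_zero h.1 (by rw [nak_eval]; exact hΓ0)
  have hFI : aeval a F ∈ I := (hP.ker F).2 dvd_rfl
  have hF0 : eval R F = 0 := by rw [← nak_eval]; exact h.1 _ hFI
  let u1 : K := (t1 - t1') / (ρ - ρ')
  let u2 : K := (t2 - t2') / (ρ - ρ')
  let ψ : P3 K →ₐ[K] Polynomial K := aeval
    ![1, Polynomial.C (R 1) + Polynomial.C u1 * Polynomial.X,
      Polynomial.C (R 2) + Polynomial.C u2 * Polynomial.X]
  have ψ0 : ∀ g : P3 K, (ψ g).eval 0 = eval R g := by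
    intro g
    induction g using MvPolynomial.induction_on with
    | C r => simp [ψ]
    | add f g hf hg => simp only [map_add, Polynomial.eval_add, hf, hg]
    | mul_X f i hf =>
      rw [map_mul, Polynomial.eval_mul, hf, map_mul]
      congr 1
      fin_cases i <;> simp [ψ, hR0]
  have hd : ρ - ρ' ≠ 0 := sub_ne_zero.2 hne
  have main : ∀ (g : P3 K) (i : ℕ) (x x' : K), g.IsWeightedHomogeneous (wt Q) i → eval R g = 0 →
      Rat I (aeval a Γ) v (aeval a g) x → Rat I (aeval a Γ) v' (aeval a g) x' →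
      ∃ q : Polynomial K, ψ g = Polynomial.X * q ∧ q.eval 0 = (x - x') / (ρ - ρ') := by
    intro g i x x' hg hg0 hx hx'
    obtain ⟨g1, g2, hgs⟩ := nak_split Q R hR0 g i hg hg0
    have r1 := (ht1.mul (aeval a g1)).add (ht2.mul (aeval a g2))
    have r2 := (ht1'.mul (aeval a g1)).add (ht2'.mul (aeval a g2))
    rw [← map_mul, ← map_mul, ← map_add, ← hgs, nak_eval, nak_eval] at r1 r2
    rw [hRv'] at r2
    have ex := hx.uniq hP.prime hN.notin h.1 r1
    have ex' := hx'.uniq hP.prime hN.notin h.2.1 r2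
    refine ⟨ψ g1 * Polynomial.C u1 + ψ g2 * Polynomial.C u2, ?_, ?_⟩
    · conv_lhs => rw [hgs]
      have p1 : ψ (X 1 - C (R 1) * X 0) = Polynomial.C u1 * Polynomial.X := by simp [ψ]
      have p2 : ψ (X 2 - C (R 2) * X 0 ^ Q) = Polynomial.C u2 * Polynomial.X := by simp [ψ]
      rw [map_add, map_mul, map_mul, p1, p2]; ring
    · simp only [Polynomial.eval_add, Polynomial.eval_mul, Polynomial.eval_C, ψ0]
      rw [ex, ex']
      simp only [u1, u2, ← hRdef]
      field_simp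
      ring
  obtain ⟨qe, he1, he2⟩ := main e j ρ ρ' he he0 hρ hρ'
  obtain ⟨qG, hG1, hG2⟩ := main Γ γ 1 1 hN.hΓ hΓ0 (Rat.self _ _ _) (Rat.self _ _ _)
  obtain ⟨qF, hF1, hF2⟩ := main F _ 0 0 hP.hF hF0 (Rat.of_mem _ _ hFI) (Rat.of_mem _ _ hFI)
  rw [div_self hd] at he2
  rw [sub_self, zero_div] at hG2 hF2
  obtain ⟨qF', hF3⟩ : Polynomial.X ∣ qF := Polynomial.X_dvd_iff.2
    (by rw [Polynomial.coeff_zero_eq_eval_zero]; exact hF2)
  have hid' := congrArg ψ hid
  simp only [map_add, map_mul, map_pow, he1, hG1, hF1, hF3] at hid'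
  have hc : ψ φ * qF' = ψ s * qe ^ 2 + ψ α * qe * qG + ψ β * qG ^ 2 := by
    have hX : (Polynomial.X : Polynomial K) ^ 2 ≠ 0 := pow_ne_zero _ Polynomial.X_ne_zero
    apply mul_left_cancel₀ hX
    linear_combination hid'
  have := congrArg (Polynomial.eval 0) hc
  simp only [Polynomial.eval_add, Polynomial.eval_mul, Polynomial.eval_pow, ψ0, he2, hG2,
    hφ] at this
  apply hs
  linear_combination -this

/-- polynomials all of whose monomials have degree divisible by `m` -/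
abbrev NakM (m : ℕ) (K : Type u) [Field K] : Submodule K (P4 K) :=
  weightedHomogeneousSubmodule K (fun _ : Fin 4 => (1 : ZMod m)) 0

theorem nak_hom_w (m : ℕ) {f : P4 K} {d : ℕ} (hf : f.IsHomogeneous d) :
    f.IsWeightedHomogeneous (fun _ : Fin 4 => (1 : ZMod m)) (d : ZMod m) := by
  intro s hs
  have h := hf hs
  rw [← h, Finsupp.weight_apply, Finsupp.weight_apply, Finsupp.sum, Finsupp.sum]
  push_cast
  simp

theorem nak_proj_form (m : ℕ) {f : P4 K} {x : ZMod m}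
    (hf : f.IsWeightedHomogeneous (fun _ : Fin 4 => (1 : ZMod m)) x) :
    weightedHomogeneousComponent (fun _ : Fin 4 => (1 : ZMod m)) 0 f = if 0 = x then f else 0 := by
  classical
  exact weightedHomogeneousComponent_of_mem hf

theorem nak_proj_mul (m : ℕ) (H w : P4 K) (hw : w ∈ NakM m K) :
    weightedHomogeneousComponent (fun _ : Fin 4 => (1 : ZMod m)) 0 (H * w) =
      weightedHomogeneousComponent (fun _ : Fin 4 => (1 : ZMod m)) 0 H * w := by
  classical
  conv_lhs => rw [← sum_homogeneousComponent H]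
  conv_rhs => rw [← sum_homogeneousComponent H]
  rw [Finset.sum_mul, map_sum, map_sum, Finset.sum_mul]
  refine Finset.sum_congr rfl fun d _ => ?_
  have h1 := nak_hom_w m (homogeneousComponent_isHomogeneous d H)
  have h2 := h1.mul hw
  rw [add_zero] at h2
  rw [nak_proj_form m h1, nak_proj_form m h2]
  split_ifs <;> simp

theorem nak_proj_mem (m : ℕ) {I : Ideal (P4 K)} (hI : ∀ h ∈ I, ∀ d, homogeneousComponent d h ∈ I)
    {h : P4 K} (hh : h ∈ I) :
    weightedHomogeneousComponent (fun _ : Fin 4 => (1 : ZMod m)) 0 h ∈ I := by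
  classical
  rw [← sum_homogeneousComponent h, map_sum]
  refine I.sum_mem fun d _ => ?_
  rw [nak_proj_form m (nak_hom_w m (homogeneousComponent_isHomogeneous d h))]
  split_ifs
  · exact hI h hh d
  · exact I.zero_mem

theorem nak_M_form (m : ℕ) {f : P4 K} {j : ℕ} (hf : f.IsHomogeneous (m * j)) : f ∈ NakM m K := by
  have := nak_hom_w m hf
  rwa [Nat.cast_mul, ZMod.natCast_self, zero_mul] at this

theorem nak_M_aeval {p m Q n' : ℕ} {I : Ideal (P4 K)} {a : Fin 3 → P4 K} {F : P3 K}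
    (hP : Plane p I m Q a F n') (g : P3 K) : aeval a g ∈ NakM m K := by
  induction g using MvPolynomial.induction_on with
  | C r => simpa using isWeightedHomogeneous_C (fun _ : Fin 4 => (1 : ZMod m)) r
  | add f g hf hg => rw [map_add]; exact add_mem hf hg
  | mul_X f i hf =>
    rw [map_mul, aeval_X]
    have := IsWeightedHomogeneous.mul hf (nak_M_form m (hP.ha i))
    rwa [add_zero] at this

theorem nak_M_mul (m : ℕ) {f g : P4 K} (hf : f ∈ NakM m K) (hg : g ∈ NakM m K) :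
    f * g ∈ NakM m K := by
  have := IsWeightedHomogeneous.mul hf hg
  rwa [add_zero] at this

/-- homogenisation with a form `a0` of degree `m` -/
theorem nak_homog (m : ℕ) (a0 : P4 K) (ha : a0.IsHomogeneous m) {g : P4 K} (hg : g ∈ NakM m K) :
    ∃ (N : ℕ) (f w : P4 K), f.IsHomogeneous (m * N) ∧ w ∈ NakM m K ∧ g = f + (a0 - 1) * w := by
  classical
  have ha' : a0 ∈ NakM m K := nak_M_form m (j := 1) (by simpa using ha)
  have pad : ∀ (r N : ℕ) (f : P4 K), f.IsHomogeneous (m * N) →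
      ∃ f' w : P4 K, f'.IsHomogeneous (m * (N + r)) ∧ w ∈ NakM m K ∧ f = f' + (a0 - 1) * w := by
    intro r
    induction r with
    | zero => intro N f hf; exact ⟨f, 0, hf, zero_mem _, by simp⟩
    | succ r ih =>
      intro N f hf
      obtain ⟨f', w, h1, h2, h3⟩ := ih N f hf
      refine ⟨a0 * f', w - f', ?_, sub_mem h2 (nak_M_form m h1), by rw [h3]; ring⟩
      have := ha.mul h1
      have e : m + m * (N + r) = m * (N + (r + 1)) := by ring
      rwa [e] at this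
  have key : ∀ S : Finset (Fin 4 →₀ ℕ), S ⊆ g.support → ∃ (N : ℕ) (f w : P4 K),
      f.IsHomogeneous (m * N) ∧ w ∈ NakM m K ∧
        ∑ s ∈ S, monomial s (coeff s g) = f + (a0 - 1) * w := by
    intro S
    induction S using Finset.induction_on with
    | empty => intro _; exact ⟨0, 0, 0, isHomogeneous_zero _ _ _, zero_mem _, by simp⟩
    | insert s S hs ih =>
      intro hS
      obtain ⟨N, f, w, h1, h2, h3⟩ := ih ((Finset.subset_insert _ _).trans hS)
      have hmon : (monomial s (coeff s g) : P4 K).IsHomogeneous s.degree :=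
        isHomogeneous_monomial _ rfl
      have hw := hg (mem_support_iff.1 (hS (Finset.mem_insert_self _ _)))
      have hdvd : m ∣ s.degree := by
        rw [← ZMod.natCast_eq_zero_iff, ← hw, Finsupp.weight_apply, Finsupp.degree_apply,
          Finsupp.sum]
        push_cast
        simp
      obtain ⟨N', hN'⟩ := hdvd
      rw [hN'] at hmon
      obtain ⟨f1, w1, b1, b2, b3⟩ := pad N' N f h1
      obtain ⟨f2, w2, c1, c2, c3⟩ := pad N N' _ hmon
      rw [add_comm N' N] at c1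
      refine ⟨N + N', f1 + f2, w + w1 + w2, b1.add c1, add_mem (add_mem h2 b2) c2, ?_⟩
      rw [Finset.sum_insert hs, h3, c3, b3]; ring
  obtain ⟨N, f, w, h1, h2, h3⟩ := key g.support le_rfl
  exact ⟨N, f, w, h1, h2, by rw [← h3]; exact g.as_sum⟩

theorem nak_mpos {p m Q n' : ℕ} [Fact p.Prime] {I : Ideal (P4 K)} {a : Fin 3 → P4 K} {F : P3 K}
    (hP : Plane p I m Q a F n') : 0 < m ∧ 0 < Q := by
  obtain ⟨i, hi⟩ := hP.hm
  obtain ⟨j, hj⟩ := hP.hQ
  have := (Fact.out : p.Prime).pos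
  exact ⟨hi ▸ pow_pos this _, hj ▸ pow_pos this _⟩

theorem nak_fin [IsAlgClosed K] {p m Q n' : ℕ} [Fact p.Prime] {I : Ideal (P4 K)}
    {a : Fin 3 → P4 K} {F : P3 K} (hP : Plane p I m Q a F n') :
    ((Ideal.Quotient.mkₐ K I).comp (aeval a : P3 K →ₐ[K] P4 K)).toRingHom.Finite := by
  refine mv_fin_quot I hP.comp a (fun i => m * wt Q i) (fun i => ?_) hP.ha
    (fun v hv h => hP.ncz v hv (h 0) (h 1))
  have := nak_mpos hP
  fin_cases i <;> simp [wt, this.1, this.2]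

theorem nak_abs1 {A B : Type*} [CommRing A] [CommRing B] (f : A →+* B) (hf : f.Finite)
    (n : Ideal A) (J : Ideal B) (h : J ⊔ n.map f = ⊤) : ∃ r, r - 1 ∈ n ∧ f r ∈ J := by
  let _ : Algebra A B := f.toAlgebra
  have hfin : Module.Finite A B := hf
  have hle : (⊤ : Submodule A B) ≤ J.restrictScalars A ⊔ n • ⊤ := by
    intro x _
    have hx : x ∈ J ⊔ n.map f := h ▸ Submodule.mem_top
    obtain ⟨y, hy, z, hz, rfl⟩ := Submodule.mem_sup.1 hx
    refine add_mem (Submodule.mem_sup_left hy) (Submodule.mem_sup_right ?_)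
    rw [Ideal.smul_top_eq_map, Submodule.restrictScalars_mem]
    exact hz
  obtain ⟨r, hr1, hr2⟩ := Submodule.exists_sub_one_mem_and_smul_le_of_fg_of_le_sup
    Module.Finite.fg_top le_rfl hle
  refine ⟨r, hr1, ?_⟩
  have := hr2 (Submodule.smul_mem_pointwise_smul (1 : B) r ⊤ Submodule.mem_top)
  rwa [Algebra.smul_def, mul_one] at this

theorem nak_abs2 {A B : Type*} [CommRing A] [IsNoetherianRing A] [CommRing B] (f : A →+* B)
    (hf : f.Finite) (n : Ideal A) (M : AddSubgroup B) (hM : ∀ r, ∀ x ∈ M, f r * x ∈ M) (η : B)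
    (h : ∀ x ∈ M, ∃ α β r1 r2 r3 : A, ∃ y1 ∈ M, ∃ y2 ∈ M, ∃ y3 ∈ M, r1 ∈ n ∧ r2 ∈ n ∧ r3 ∈ n ∧
      x = f α + f β * η + f r1 * y1 + f r2 * y2 + f r3 * y3) (x : B) (hx : x ∈ M) :
    ∃ r α β : A, r - 1 ∈ n ∧ f r * x = f α + f β * η := by
  let _ : Algebra A B := f.toAlgebra
  have hfin : Module.Finite A B := hf
  have hs : ∀ (r : A) (y : B), r • y = f r * y := fun r y => Algebra.smul_def r y
  let M' : Submodule A B :=
    { carrier := M
      add_mem' := fun h1 h2 => M.add_mem h1 h2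
      zero_mem' := M.zero_mem
      smul_mem' := fun r y hy => by rw [hs]; exact hM r y hy }
  have hle : M' ≤ Submodule.span A {1, η} ⊔ n • M' := by
    intro y hy
    obtain ⟨α, β, r1, r2, r3, y1, h1, y2, h2, y3, h3, k1, k2, k3, rfl⟩ := h y hy
    refine add_mem (add_mem (add_mem (Submodule.mem_sup_left ?_) (Submodule.mem_sup_right ?_))
      (Submodule.mem_sup_right ?_)) (Submodule.mem_sup_right ?_)
    · exact Submodule.mem_span_pair.2 ⟨α, β, by rw [hs, hs, mul_one]⟩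
    · rw [← hs]; exact Submodule.smul_mem_smul k1 h1
    · rw [← hs]; exact Submodule.smul_mem_smul k2 h2
    · rw [← hs]; exact Submodule.smul_mem_smul k3 h3
  obtain ⟨r, hr1, hr2⟩ := Submodule.exists_sub_one_mem_and_smul_le_of_fg_of_le_sup
    (IsNoetherian.noetherian M') le_rfl hle
  obtain ⟨α, β, hab⟩ := Submodule.mem_span_pair.1
    (hr2 (Submodule.smul_mem_pointwise_smul x r M' hx))
  exact ⟨r, α, β, hr1, by rw [← hs, ← hab, hs, hs, mul_one]⟩

/-- denominators can be taken from the plane -/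
theorem nak_den [IsAlgClosed K] {p m Q n' γ : ℕ} [Fact p.Prime] {I : Ideal (P4 K)}
    {a : Fin 3 → P4 K} {F Γ : P3 K} (hP : Plane p I m Q a F n') (hN : Nodal I Q a Γ γ)
    {v v' : Fin 4 → K} (h : Node I a v v') {g : P4 K} (hg : g ∈ NakM m K) {ρ ρ' : K}
    (hρ : Rat I (aeval a Γ) v g ρ) (hρ' : Rat I (aeval a Γ) v' g ρ') :
    ∃ (s : P3 K) (H : P4 K), eval (val3 a v) s = 1 ∧ H ∈ NakM m K ∧
      aeval a s * g - H * aeval a Γ ∈ I := by
  classical
  obtain ⟨h1, h2, a1, a2, -⟩ := hρ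
  obtain ⟨k1, k2, b1, b2, -⟩ := hρ'
  let J : Ideal (P4 K) := I ⊔ Ideal.span {h1, k1}
  let n : Ideal (P3 K) := RingHom.ker (eval (val3 a v))
  have htop : J ⊔ n.map (aeval a : P3 K →ₐ[K] P4 K) = ⊤ := by
    by_contra hne
    obtain ⟨M, hM, hle⟩ := Ideal.exists_le_maximal _ hne
    obtain ⟨x, hx⟩ := (MvPolynomial.isMaximal_iff_eq_vanishingIdeal_singleton).1 hM
    have hz : ∀ f ∈ J ⊔ n.map (aeval a : P3 K →ₐ[K] P4 K), eval x f = 0 := by
      intro f hf
      have := hle hf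
      rw [hx, mem_vanishingIdeal_singleton_iff] at this
      simpa using this
    have hxV : x ∈ V I := fun f hf => hz f (Ideal.mem_sup_left (Ideal.mem_sup_left hf))
    have hxa : val3 a x = val3 a v := by
      funext i
      have hm : (X i - C (val3 a v i) : P3 K) ∈ n := by simp [n, RingHom.mem_ker]
      have := hz _ (Ideal.mem_sup_right (Ideal.mem_map_of_mem _ hm))
      rw [nak_eval] at this
      simpa [sub_eq_zero] using this
    rcases hN.two v v' h x hxV hxa with rfl | rfl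
    · exact a1 (hz _ (Ideal.mem_sup_left (Ideal.mem_sup_right (Ideal.subset_span (by simp)))))
    · exact b1 (hz _ (Ideal.mem_sup_left (Ideal.mem_sup_right (Ideal.subset_span (by simp)))))
  obtain ⟨r, hr1, hrN⟩ := nak_abs1 _ (nak_fin hP) n (J.map (Ideal.Quotient.mk I)) (by
    have : n.map ((Ideal.Quotient.mkₐ K I).comp (aeval a : P3 K →ₐ[K] P4 K)).toRingHom =
        (n.map (aeval a : P3 K →ₐ[K] P4 K)).map (Ideal.Quotient.mk I) :=
      (Ideal.map_map ((aeval a : P3 K →ₐ[K] P4 K) : P3 K →+* P4 K) (Ideal.Quotient.mk I)).symm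
    rw [this, ← Ideal.map_sup, htop, Ideal.map_top])
  replace hrN : Ideal.Quotient.mk I (aeval a r) ∈ J.map (Ideal.Quotient.mk I) := hrN
  have hrJ : aeval a r ∈ J := by
    rwa [Ideal.mem_quotient_iff_mem (le_sup_left : I ≤ J)] at hrN
  obtain ⟨y, hy, z, hz, hyz⟩ := Submodule.mem_sup.1 hrJ
  obtain ⟨c1, c2, rfl⟩ := Ideal.mem_span_pair.1 hz
  have hr : eval (val3 a v) r = 1 := by
    have : eval (val3 a v) (r - 1) = 0 := hr1
    rwa [map_sub, map_one, sub_eq_zero] at this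
  have hm : aeval a r * g - (c1 * h2 + c2 * k2) * aeval a Γ ∈ I := by
    have e : aeval a r * g - (c1 * h2 + c2 * k2) * aeval a Γ =
        y * g + c1 * (h1 * g - h2 * aeval a Γ) + c2 * (k1 * g - k2 * aeval a Γ) := by
      rw [← hyz]; ring
    rw [e]
    exact I.add_mem (I.add_mem (I.mul_mem_right g hy) (I.mul_mem_left _ a2)) (I.mul_mem_left _ b2)
  refine ⟨r, _, hr, weightedHomogeneousComponent_mem _ (c1 * h2 + c2 * k2) 0, ?_⟩
  have := nak_proj_mem m hP.comp hm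
  rw [map_sub, nak_proj_mul m _ _ (nak_M_aeval hP Γ),
    nak_proj_form m (nak_M_mul m (nak_M_aeval hP r) hg), if_pos rfl] at this
  exact this

/-- NAK: the local equation of the plane curve at a node. -/
theorem nak [IsAlgClosed K] {p m Q n' γ : ℕ} [Fact p.Prime] {I : Ideal (P4 K)}
    {a : Fin 3 → P4 K} {F Γ : P3 K} (hP : Plane p I m Q a F n') (hN : Nodal I Q a Γ γ)
    {v v' : Fin 4 → K} (h : Node I a v v') (h1 : eval v (a 0) = 1) {e : P3 K} {j : ℕ}
    (he : e.IsWeightedHomogeneous (wt Q) j) {ρ ρ' : K}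
    (hρ : Rat I (aeval a Γ) v (aeval a e) ρ) (hρ' : Rat I (aeval a Γ) v' (aeval a e) ρ')
    (hne : ρ ≠ ρ') :
    ∃ s α β φ : P3 K, eval (val3 a v) s ≠ 0 ∧ eval (val3 a v) φ ≠ 0 ∧
      φ * F = s * e ^ 2 + α * e * Γ + β * Γ ^ 2 ∧
      eval (val3 a v) s * ρ ^ 2 + eval (val3 a v) α * ρ + eval (val3 a v) β = 0 ∧
      eval (val3 a v) s * ρ' ^ 2 + eval (val3 a v) α * ρ' + eval (val3 a v) β = 0 := by
  classical
  have hRv' : val3 a v' = val3 a v := h.2.2.2.symm
  have h1' : eval v' (a 0) = 1 := (congrFun hRv' 0).trans h1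
  obtain ⟨s, H, hs, hH, hsH⟩ := nak_den hP hN h (nak_M_aeval hP e) hρ hρ'
  have hHv : eval v H = ρ := by
    refine Rat.uniq hP.prime hN.notin h.1 ⟨aeval a s, H, ?_, hsH, ?_⟩ hρ
    · rw [nak_eval, hs]; exact one_ne_zero
    · rw [nak_eval, hs, mul_one]
  have hHv' : eval v' H = ρ' := by
    refine Rat.uniq hP.prime hN.notin h.2.1 ⟨aeval a s, H, ?_, hsH, ?_⟩ hρ'
    · rw [nak_eval, hRv', hs]; exact one_ne_zero
    · rw [nak_eval, hRv', hs, mul_one]
  let n : Ideal (P3 K) := RingHom.ker (eval (val3 a v))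
  let f : P3 K →+* P4 K ⧸ I := ((Ideal.Quotient.mkₐ K I).comp (aeval a : P3 K →ₐ[K] P4 K)).toRingHom
  have hf : ∀ r, f r = Ideal.Quotient.mk I (aeval a r) := fun _ => rfl
  let M : AddSubgroup (P4 K ⧸ I) :=
    (NakM m K).toAddSubgroup.map (Ideal.Quotient.mk I).toAddMonoidHom
  have hMm : ∀ g ∈ NakM m K, Ideal.Quotient.mk I g ∈ M := fun g hg => ⟨g, hg, rfl⟩
  have hd : ρ - ρ' ≠ 0 := sub_ne_zero.2 hne
  obtain ⟨r, α, β, hr, hrel⟩ := nak_abs2 f (nak_fin hP) n M (by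
      rintro r _ ⟨x, hx, rfl⟩
      exact ⟨aeval a r * x, nak_M_mul m (nak_M_aeval hP r) hx,
        map_mul (Ideal.Quotient.mk I) (aeval a r) x⟩)
    (Ideal.Quotient.mk I H) (by
      rintro _ ⟨x, hx, rfl⟩
      let b : K := (eval v x - eval v' x) / (ρ - ρ')
      let c : K := eval v x - b * ρ
      have hx' : x - C c - C b * H ∈ NakM m K :=
        sub_mem (sub_mem hx (isWeightedHomogeneous_C _ c))
          (nak_M_mul m (isWeightedHomogeneous_C _ b) hH)
      obtain ⟨N, g, w, hg, hw, hgw⟩ := nak_homog m (a 0) (by simpa [wt] using hP.ha 0) hx'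
      have hgv : eval v g = 0 := by
        have := congrArg (eval v) hgw
        simp only [map_sub, map_add, map_mul, eval_C, hHv, h1, map_one, sub_self, zero_mul,
          add_zero] at this
        rw [← this]; simp only [c]; ring
      have hgv' : eval v' g = 0 := by
        have := congrArg (eval v') hgw
        simp only [map_sub, map_add, map_mul, eval_C, hHv', h1', map_one, sub_self, zero_mul,
          add_zero] at this
        rw [← this]; simp only [c, b]; field_simp; ring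
      obtain ⟨t, ht⟩ := nak_rat_of_loc hN h ⟨_, hg⟩ hgv
      obtain ⟨t', ht'⟩ := nak_rat_of_loc hN h.symm ⟨_, hg⟩ hgv'
      obtain ⟨s1, H1, hs1, hH1, hm1⟩ := nak_den hP hN h (nak_M_form m hg) ht ht'
      refine ⟨C c, C b, X 0 - 1, 1 - s1, Γ, _, hMm w hw, _, hMm g (nak_M_form m hg), _, hMm H1 hH1,
        ?_, ?_, hN.van v v' h, ?_⟩
      · have : val3 a v 0 = 1 := h1
        simp [n, RingHom.mem_ker, this]
      · simp [n, RingHom.mem_ker, hs1]
      · have e0 : ∀ y z : P4 K, y - z ∈ I → Ideal.Quotient.mk I y = Ideal.Quotient.mk I z :=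
          fun y z hyz => Ideal.Quotient.eq.2 hyz
        have e1 : x = C c + C b * H + g + (a 0 - 1) * w := by
          rw [add_assoc, ← hgw]; ring
        have e2 : x - (aeval a (C c : P3 K) + aeval a (C b : P3 K) * H + aeval a (X 0 - 1 : P3 K) * w +
            aeval a (1 - s1) * g + aeval a Γ * H1) = aeval a s1 * g - H1 * aeval a Γ := by
          rw [e1]
          simp only [map_sub, map_one, aeval_X, aeval_C, algebraMap_eq]
          ring
        have e3 := e0 _ _ (e2 ▸ hm1)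
        simp only [(Ideal.Quotient.mk I).map_add, (Ideal.Quotient.mk I).map_mul] at e3
        exact e3)
    (Ideal.Quotient.mk I (H * H)) (hMm _ (nak_M_mul m hH hH))
  have hrel' : aeval a r * (H * H) - (aeval a α + aeval a β * H) ∈ I := by
    refine Ideal.Quotient.eq.1 ?_
    simpa only [hf, map_add, map_mul] using hrel
  have hr1 : eval (val3 a v) r = 1 := by
    have : eval (val3 a v) (r - 1) = 0 := hr
    rwa [map_sub, map_one, sub_eq_zero] at this
  have hdiv : F ∣ r * s ^ 2 * e ^ 2 + (-(β * s)) * e * Γ + (-α) * Γ ^ 2 := by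
    rw [← hP.ker]
    have e1 : aeval a (r * s ^ 2 * e ^ 2 + (-(β * s)) * e * Γ + (-α) * Γ ^ 2) =
        aeval a Γ ^ 2 * (aeval a r * (H * H) - (aeval a α + aeval a β * H)) +
        (aeval a r * (aeval a s * aeval a e + H * aeval a Γ) - aeval a β * aeval a Γ) *
          (aeval a s * aeval a e - H * aeval a Γ) := by
      simp only [map_add, map_mul, map_pow, map_neg]; ring
    rw [e1]
    exact I.add_mem (I.mul_mem_left _ hrel') (I.mul_mem_left _ hsH)
  obtain ⟨φ, hφ⟩ := hdiv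
  have hid : φ * F = r * s ^ 2 * e ^ 2 + (-(β * s)) * e * Γ + (-α) * Γ ^ 2 := by
    rw [hφ, mul_comm]
  have hs' : eval (val3 a v) (r * s ^ 2) ≠ 0 := by simp [hr1, hs]
  refine ⟨r * s ^ 2, -(β * s), -α, φ, hs', nak_unit hP hN h h1 he hρ hρ' hne hs' hid, hid, ?_, ?_⟩
  · have := h.1 _ hrel'
    simp only [map_sub, map_add, map_mul, nak_eval, hHv, hr1] at this
    simp only [map_mul, map_pow, map_neg, hr1, hs]
    linear_combination this
  · have := h.2.1 _ hrel'
    simp only [map_sub, map_add, map_mul, nak_eval, hHv', hRv', hr1] at this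
    simp only [map_mul, map_pow, map_neg, hr1, hs]
    linear_combination this

end H39c

end PartH39cENak

section PartH39cEoAff

set_option autoImplicit false

open MvPolynomial

namespace H39c.Eo

universe u

theorem aff_scale {K A : Type u} [CommRing K] [CommRing A] (c : K →+* A) (w : Fin 3 → ℕ) (t : A)
    (x : Fin 3 → A) {g : P3 K} {j : ℕ} (hg : g.IsWeightedHomogeneous w j) :
    eval₂ c (fun i => t ^ w i * x i) g = t ^ j * eval₂ c x g := by
  classical
  rw [eval₂_eq', eval₂_eq', Finset.mul_sum]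
  refine Finset.sum_congr rfl fun s hs => ?_
  rw [← hg (mem_support_iff.1 hs), Finsupp.weight_apply, Finsupp.sum_fintype _ _ (by simp)]
  simp only [Fin.prod_univ_three, Fin.sum_univ_three, smul_eq_mul]
  ring

/-- the chart, abstractly -/
structure AffCh {K A : Type u} [Field K] [CommRing A] (I : Ideal (P4 K)) (Q : ℕ)
    (a : Fin 3 → P4 K) (ι : P4 K →+* A) (t : A) (θ : P2 K →+* A) : Prop where
  inv : ι (a 0) * t = 1
  ker : ∀ h, ι h = 0 ↔ h ∈ I
  surj : ∀ x : A, ∃ (h : P4 K) (n : ℕ), x = ι h * t ^ n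
  th : ∀ (g : P3 K) (j : ℕ), g.IsWeightedHomogeneous (wt Q) j →
    θ (deh g) = t ^ j * ι (aeval a g)

variable {K A : Type u} [Field K] [CommRing A] {I : Ideal (P4 K)} {Q : ℕ} {a : Fin 3 → P4 K}
  {ι : P4 K →+* A} {t : A} {θ : P2 K →+* A}

theorem aff_t (H : AffCh I Q a ι t θ) {v : Fin 4 → K} (h1 : eval v (a 0) = 1) {φ : A →+* K}
    (hφ : ∀ h, φ (ι h) = eval v h) : φ t = 1 := by
  have := congrArg φ H.inv
  rwa [map_mul, hφ, h1, one_mul, map_one] at this

theorem aff_to (H : AffCh I Q a ι t θ) {v : Fin 4 → K} (h1 : eval v (a 0) = 1) {φ : A →+* K}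
    (hφ : ∀ h, φ (ι h) = eval v h) {g g' : P3 K} {j j' : ℕ} {ρ : K}
    (hg : g.IsWeightedHomogeneous (wt Q) j) (hg' : g'.IsWeightedHomogeneous (wt Q) j')
    (h : ValP I v (aeval a g) (aeval a g') ρ) : ValA φ (θ (deh g)) (θ (deh g')) ρ := by
  obtain ⟨h1', h2, a1, a2, a3⟩ := h
  have ht := aff_t H h1 hφ
  have e := (H.ker _).2 a2
  rw [map_sub, map_mul, map_mul, sub_eq_zero] at e
  refine ⟨ι h1' * t ^ j', ι h2 * t ^ j, ?_, ?_, ?_⟩
  · simpa [hφ, ht] using a1
  · rw [H.th g j hg, H.th g' j' hg']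
    linear_combination t ^ j * t ^ j' * e
  · simp [hφ, ht, a3]

theorem aff_from (H : AffCh I Q a ι t θ) {v : Fin 4 → K} (h1 : eval v (a 0) = 1) {φ : A →+* K}
    (hφ : ∀ h, φ (ι h) = eval v h) {g g' : P3 K} {j j' : ℕ} {ρ : K}
    (hg : g.IsWeightedHomogeneous (wt Q) j) (hg' : g'.IsWeightedHomogeneous (wt Q) j')
    (h : ValA φ (θ (deh g)) (θ (deh g')) ρ) : ValP I v (aeval a g) (aeval a g') ρ := by
  obtain ⟨k1, k2, a1, a2, a3⟩ := h
  obtain ⟨h1', n1, rfl⟩ := H.surj k1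
  obtain ⟨h2, n2, rfl⟩ := H.surj k2
  have ht := aff_t H h1 hφ
  simp only [map_mul, map_pow, hφ, ht, one_pow, mul_one] at a1 a3
  rw [H.th g j hg, H.th g' j' hg'] at a2
  refine ⟨h1' * a 0 ^ (n2 + j'), h2 * a 0 ^ (n1 + j), ?_, ?_, ?_⟩
  · simpa [h1] using a1
  · rw [← H.ker]
    simp only [map_sub, map_mul, map_pow]
    have p1 : (ι (a 0) * t) ^ (n1 + j) = 1 := by rw [H.inv, one_pow]
    have p2 : (ι (a 0) * t) ^ (n2 + j') = 1 := by rw [H.inv, one_pow]
    linear_combination ι (a 0) ^ (n1 + j) * ι (a 0) ^ (n2 + j') * a2 -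
      ι h1' * ι (a 0) ^ (n2 + j') * ι (aeval a g) * p1 +
      ι h2 * ι (a 0) ^ (n1 + j) * ι (aeval a g') * p2
  · simp [h1, a3]

theorem aff_exists (hI : I.IsPrime) (h0 : a 0 ∉ I) :
    ∃ (A : Type u) (_ : CommRing A) (_ : IsDomain A) (ι : P4 K →+* A) (t : A) (θ : P2 K →+* A),
      AffCh I Q a ι t θ ∧ ∀ v ∈ V I, eval v (a 0) = 1 → ∃ φ : A →+* K, ∀ h, φ (ι h) = eval v h := by
  have hne : Ideal.Quotient.mk I (a 0) ≠ 0 := fun h => h0 (Ideal.Quotient.eq_zero_iff_mem.1 h)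
  have hle : Submonoid.powers (Ideal.Quotient.mk I (a 0)) ≤ nonZeroDivisors _ :=
    powers_le_nonZeroDivisors_of_noZeroDivisors hne
  let A := Localization.Away (Ideal.Quotient.mk I (a 0))
  let ι : P4 K →+* A := (algebraMap (P4 K ⧸ I) A).comp (Ideal.Quotient.mk I)
  let t : A := IsLocalization.Away.invSelf (Ideal.Quotient.mk I (a 0))
  have hinv : ι (a 0) * t = 1 := IsLocalization.Away.mul_invSelf (S := A)
    (Ideal.Quotient.mk I (a 0))
  refine ⟨A, inferInstance, IsLocalization.isDomain_localization hle, ι, t,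
    eval₂Hom (ι.comp C) ![t * ι (a 1), t ^ Q * ι (a 2)], ⟨hinv, fun h => ?_, fun x => ?_,
      fun g j hg => ?_⟩, fun v hv h1 => ?_⟩
  · rw [← Ideal.Quotient.eq_zero_iff_mem]
    exact map_eq_zero_iff _ (IsLocalization.injective A hle)
  · obtain ⟨n, y, hy⟩ := IsLocalization.Away.surj (Ideal.Quotient.mk I (a 0)) x
    obtain ⟨h, rfl⟩ := Ideal.Quotient.mk_surjective y
    refine ⟨h, n, ?_⟩
    have hy' : x * ι (a 0) ^ n = ι h := hy
    rw [← hy', mul_assoc, ← mul_pow, hinv, one_pow, mul_one]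
  · have e1 : ∀ g : P3 K, ι (aeval a g) = eval₂ (ι.comp C) (fun i => ι (a i)) g := by
      intro g
      induction g using MvPolynomial.induction_on with
      | C r => simp
      | add f g hf hg => simp only [map_add, eval₂_add, hf, hg]
      | mul_X f i hf => simp only [map_mul, eval₂_mul, hf, aeval_X, eval₂_X]
    have e2 : ∀ g : P3 K, eval₂Hom (ι.comp C) ![t * ι (a 1), t ^ Q * ι (a 2)] (deh g) =
        eval₂ (ι.comp C) (fun i => t ^ wt Q i * ι (a i)) g := by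
      intro g
      induction g using MvPolynomial.induction_on with
      | C r => simp [deh]
      | add f g hf hg => simp only [map_add, eval₂_add, hf, hg]
      | mul_X f i hf =>
        rw [map_mul, map_mul, hf, eval₂_mul, eval₂_X]
        congr 1
        fin_cases i
        · simp [deh, wt, mul_comm t, hinv]
        · simp [deh, wt]
        · simp [deh, wt]
    rw [e2, e1, aff_scale _ _ _ _ hg]
  · have hl : ∀ h, Ideal.Quotient.lift I (eval v) hv (Ideal.Quotient.mk I h) = eval v h :=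
      fun h => Ideal.Quotient.lift_mk I (eval v) hv
    refine ⟨IsLocalization.Away.lift (Ideal.Quotient.mk I (a 0))
      (g := Ideal.Quotient.lift I (eval v) hv) (by rw [hl, h1]; exact isUnit_one), fun h => ?_⟩
    exact (IsLocalization.Away.lift_eq _ _ _).trans (hl h)

theorem eo_aff : AFF_s.{u} := by
  intro hD K _ p I m Q a F Γ n' γ hP hN v v' h h1
  obtain ⟨d1, -, d3, -⟩ := hD K Q
  have hRv' : val3 a v' = val3 a v := h.2.2.2.symm
  have h1' : eval v' (a 0) = 1 := (congrFun hRv' 0).trans h1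
  have h0 : a 0 ∉ I := fun hm => by
    have := h.1 _ hm
    rw [h1] at this
    exact one_ne_zero this
  obtain ⟨A, _, _, ι, t, θ, H, hpt⟩ := aff_exists (Q := Q) hP.prime h0
  obtain ⟨φ, hφ⟩ := hpt v h.1 h1
  obtain ⟨φ', hφ'⟩ := hpt v' h.2.1 h1'
  have hR : val3 a v 0 = 1 := h1
  have cc : ∀ (w : Fin 4 → K) (ψ : A →+* K), eval w (a 0) = 1 → val3 a w = val3 a v →
      (∀ h, ψ (ι h) = eval w h) → ∀ u, ψ (θ u) = eval (aff (val3 a v)) u := by
    intro w ψ hw hwv hψ u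
    obtain ⟨j, g, hg, rfl⟩ := d3 u
    rw [H.th g j hg, map_mul, map_pow, aff_t H hw hψ, one_pow, one_mul, hψ, nak_eval, hwv,
      d1 _ _ hR]
  have pp : ∀ (w w' : Fin 4 → K) (ψ : A →+* K), Node I a w w' → eval w (a 0) = 1 →
      val3 a w = val3 a v → (∀ h, ψ (ι h) = eval w h) →
      Par θ (eval (aff (val3 a v))) ψ (deh Γ) := by
    intro w w' ψ hn hw hwv hψ u hu
    obtain ⟨j, g, hg, rfl⟩ := d3 u
    rw [d1 _ _ hR] at hu
    obtain ⟨ρ, hρ⟩ := nak_rat_of_loc hN hn ⟨_, nak_form hP hg⟩ (by rw [nak_eval, hwv]; exact hu)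
    obtain ⟨k1, k2, b1, b2, -⟩ := aff_to H hw hψ hg hN.hΓ hρ
    exact ⟨k1, k2, b1, b2⟩
  refine ⟨A, inferInstance, inferInstance, θ, φ, φ', ?_, ⟨cc v φ h1 rfl hφ, cc v' φ' h1' hRv' hφ',
    ?_, ?_, pp v v' φ h h1 rfl hφ, pp v' v φ' h.symm h1' hRv' hφ', ?_⟩, ?_⟩
  · rw [H.th F _ hP.hF, (H.ker _).2 ((hP.ker F).2 dvd_rfl), mul_zero]
  · rw [d1 _ _ hR]; exact hN.van v v' h
  · rw [H.th Γ _ hN.hΓ]
    refine mul_ne_zero (pow_ne_zero _ ?_) fun hz => hN.notin ((H.ker _).1 hz)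
    intro hz
    have := H.inv
    rw [hz, mul_zero] at this
    exact zero_ne_one this
  · obtain ⟨e, j, k1, k2, k1', k2', he, b1, b1', b2, b2', b3⟩ := hN.sep v v' h
    refine ⟨deh e, eval v k2 / eval v k1, eval v' k2' / eval v' k1', ?_,
      aff_to H h1 hφ he hN.hΓ ⟨k1, k2, b1, b2, by field_simp⟩,
      aff_to H h1' hφ' he hN.hΓ ⟨k1', k2', b1', b2', by field_simp⟩⟩
    intro hz
    rw [div_eq_div_iff b1 b1'] at hz
    exact b3 hz
  · intro g g' j j' ρ hg hg'
    exact ⟨aff_from H h1 hφ hg hg', aff_from H h1' hφ' hg hg'⟩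

end H39c.Eo

end PartH39cEoAff

section PartH39cEoCram

set_option autoImplicit false

open MvPolynomial

namespace H39c.Eo

universe u

/-- first order Taylor expansion at `r` -/
theorem cram_taylor {K : Type u} [Field K] (r : Fin 2 → K) (g : P2 K) :
    ∃ a b : P2 K, g = C (eval r g) + a * (X 0 - C (r 0)) + b * (X 1 - C (r 1)) ∧
      eval r a = eval r (pderiv 0 g) ∧ eval r b = eval r (pderiv 1 g) := by
  have h : ∃ a b : P2 K, g = C (eval r g) + a * (X 0 - C (r 0)) + b * (X 1 - C (r 1)) := by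
    induction g using MvPolynomial.induction_on with
    | C c => exact ⟨0, 0, by simp⟩
    | add p q hp hq =>
      obtain ⟨a, b, h⟩ := hp
      obtain ⟨a', b', h'⟩ := hq
      refine ⟨a + a', b + b', ?_⟩
      rw [map_add, map_add]
      linear_combination h + h'
    | mul_X p i hp =>
      obtain ⟨a, b, h⟩ := hp
      have hi : i = 0 ∨ i = 1 := by
        rcases i with ⟨_ | _ | n, hn⟩
        · exact Or.inl rfl
        · exact Or.inr rfl
        · omega
      rcases hi with rfl | rfl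
      · refine ⟨p + a * C (r 0), b * C (r 0), ?_⟩
        rw [map_mul, eval_X, map_mul]
        linear_combination (C (r 0)) * h
      · refine ⟨a * C (r 1), p + b * C (r 1), ?_⟩
        rw [map_mul, eval_X, map_mul]
        linear_combination (C (r 1)) * h
  obtain ⟨a, b, h⟩ := h
  refine ⟨a, b, h, ?_, ?_⟩
  · have h1 := congrArg (fun q => eval r (pderiv 0 q)) h
    simp only [map_add, pderiv_C, pderiv_mul, map_sub, map_mul, eval_X, eval_C, sub_self,
      mul_zero, zero_add, pderiv_X_self, sub_zero, mul_one,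
      pderiv_X_of_ne (show (1 : Fin 2) ≠ 0 by decide), add_zero] at h1
    exact h1.symm
  · have h1 := congrArg (fun q => eval r (pderiv 1 q)) h
    simp only [map_add, pderiv_C, pderiv_mul, map_sub, map_mul, eval_X, eval_C, sub_self,
      mul_zero, zero_add, pderiv_X_self, sub_zero, mul_one,
      pderiv_X_of_ne (show (0 : Fin 2) ≠ 1 by decide), add_zero] at h1
    exact h1.symm

theorem eo_cram : CRAM_s.{u} := by
  intro K _ r x y hx hy hj
  refine ⟨hx, hy, fun g hg => ?_⟩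
  obtain ⟨a, b, h1, ha, hb⟩ := cram_taylor r x
  obtain ⟨c, d, h2, hc, hd⟩ := cram_taylor r y
  obtain ⟨e, f, h3, -, -⟩ := cram_taylor r g
  rw [hx, map_zero] at h1
  rw [hy, map_zero] at h2
  rw [hg, map_zero] at h3
  refine ⟨a * d - b * c, e * d - f * c, f * a - e * b, ?_, ?_⟩
  · rw [map_sub, map_mul, map_mul, ha, hb, hc, hd]
    exact hj
  · linear_combination (a * d - b * c) * h3 - (e * d - f * c) * h1 - (f * a - e * b) * h2

theorem eo_jac : JAC_s.{u} := by
  intro K A _ _ _ θ r φ φ' x hN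
  by_contra hcon
  rw [not_or, not_not, not_not] at hcon
  obtain ⟨a, b, h1, ha, hb⟩ := cram_taylor r x
  rw [hN.x0, map_zero] at h1
  rw [hcon.1] at ha
  rw [hcon.2] at hb
  obtain ⟨k1, k2, hk1, e1⟩ := hN.par a ha
  obtain ⟨k3, k4, hk3, e3⟩ := hN.par (X 0 - C (r 0)) (by simp)
  obtain ⟨k5, k6, hk5, e5⟩ := hN.par b hb
  obtain ⟨k7, k8, hk7, e7⟩ := hN.par (X 1 - C (r 1)) (by simp)
  have h2 : θ x = θ a * θ (X 0 - C (r 0)) + θ b * θ (X 1 - C (r 1)) := by
    rw [← map_mul, ← map_mul, ← map_add]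
    exact congrArg θ (by linear_combination h1)
  have h3 : (k1 * k3 * k5 * k7 - (k2 * k4 * k5 * k7 + k1 * k3 * k6 * k8) * θ x) * θ x = 0 := by
    linear_combination (k1 * k3 * k5 * k7) * h2
      + (k5 * k7 * k3 * θ (X 0 - C (r 0))) * e1 + (k5 * k7 * k2 * θ x) * e3
      + (k1 * k3 * k7 * θ (X 1 - C (r 1))) * e5 + (k1 * k3 * k6 * θ x) * e7
  have h4 := (mul_eq_zero.mp h3).resolve_right hN.xne
  have h5 := congrArg φ h4
  rw [map_sub, map_zero, map_mul φ _ (θ x), hN.c1, hN.x0, mul_zero, sub_zero, map_mul, map_mul,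
    map_mul] at h5
  exact mul_ne_zero (mul_ne_zero (mul_ne_zero hk1 hk3) hk5) hk7 h5

end H39c.Eo

end PartH39cEoCram
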