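import Pool.Agent.MP_b04567_ag.Cp.EB

section PartH39cEoDeh

set_option autoImplicit false

open MvPolynomial

namespace H39c.Eo

universe u

theorem deh_X0 {K : Type u} [Field K] : deh (X 0 : P3 K) = 1 := by simp [deh]

theorem deh_X1 {K : Type u} [Field K] : deh (X 1 : P3 K) = X 0 := by simp [deh]

theorem deh_X2 {K : Type u} [Field K] : deh (X 2 : P3 K) = X 1 := by simp [deh]

theorem deh_C {K : Type u} [Field K] (a : K) : deh (C a : P3 K) = C a := by simp [deh]

theorem deh_eval {K : Type u} [Field K] (R : Fin 3 → K) (g : P3 K) (h : R 0 = 1) :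
    eval (aff R) (deh g) = eval R g := by
  induction g using MvPolynomial.induction_on with
  | C a => rw [deh_C, eval_C, eval_C]
  | add p q hp hq => rw [map_add, map_add, map_add, hp, hq]
  | mul_X p i hp =>
    rw [map_mul, map_mul, map_mul, hp]
    fin_cases i <;> simp [deh, aff, h]

theorem deh_sub {K : Type u} [Field K] (g : P3 K) :
    (X 0 - 1 : P3 K) ∣ g - aeval ![(X 1 : P3 K), X 2] (deh g) := by
  induction g using MvPolynomial.induction_on with
  | C a => simp [deh_C]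
  | add p q hp hq =>
    have := dvd_add hp hq
    rw [map_add, map_add]
    rwa [sub_add_sub_comm] at this
  | mul_X p i hp =>
    rw [map_mul, map_mul]
    have hi : (X 0 - 1 : P3 K) ∣ X i - aeval ![(X 1 : P3 K), X 2] (deh (X i : P3 K)) := by
      fin_cases i <;> simp [deh]
    have e : p * X i - aeval ![(X 1 : P3 K), X 2] (deh p) *
        aeval ![(X 1 : P3 K), X 2] (deh (X i : P3 K)) =
        (p - aeval ![(X 1 : P3 K), X 2] (deh p)) * X i + aeval ![(X 1 : P3 K), X 2] (deh p) *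
          (X i - aeval ![(X 1 : P3 K), X 2] (deh (X i : P3 K))) := by ring
    rw [e]
    exact dvd_add (hp.mul_right _) (hi.mul_left _)

theorem deh_hX0 {K : Type u} [Field K] (Q n : ℕ) :
    (X 0 ^ n : P3 K).IsWeightedHomogeneous (wt Q) n := by
  have := (isWeightedHomogeneous_X K (wt Q) 0).pow n
  simpa [wt] using this

theorem deh_surj {K : Type u} [Field K] (Q : ℕ) (u : P2 K) :
    ∃ (j : ℕ) (g : P3 K), g.IsWeightedHomogeneous (wt Q) j ∧ deh g = u := by
  induction u using MvPolynomial.induction_on with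
  | C a => exact ⟨0, C a, isWeightedHomogeneous_C _ _, deh_C a⟩
  | add p q hp hq =>
    obtain ⟨j1, g1, h1, e1⟩ := hp
    obtain ⟨j2, g2, h2, e2⟩ := hq
    refine ⟨j1 + j2, g1 * X 0 ^ j2 + g2 * X 0 ^ j1, (h1.mul (deh_hX0 Q j2)).add ?_, ?_⟩
    · rw [add_comm]
      exact h2.mul (deh_hX0 Q j1)
    · rw [map_add, map_mul, map_mul, map_pow, map_pow, deh_X0, e1, e2]
      simp
  | mul_X p i hp =>
    obtain ⟨j1, g1, h1, e1⟩ := hp
    fin_cases i
    · refine ⟨j1 + wt Q 1, g1 * X 1, h1.mul (isWeightedHomogeneous_X K (wt Q) 1), ?_⟩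
      rw [map_mul, deh_X1, e1]
      rfl
    · refine ⟨j1 + wt Q 2, g1 * X 2, h1.mul (isWeightedHomogeneous_X K (wt Q) 2), ?_⟩
      rw [map_mul, deh_X2, e1]
      rfl

theorem deh_mono {K : Type u} [Field K] (s : Fin 3 →₀ ℕ) (c : K) :
    deh (monomial s c : P3 K) = monomial (Finsupp.single 0 (s 1) + Finsupp.single 1 (s 2)) c := by
  unfold deh
  rw [aeval_monomial, Finsupp.prod_fintype _ _ (by simp), Fin.prod_univ_three, monomial_add_single,
    ← C_mul_X_pow_eq_monomial]
  simp [mul_assoc]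

theorem deh_wt (Q : ℕ) (s : Fin 3 →₀ ℕ) :
    Finsupp.weight (wt Q) s = s 0 + s 1 + s 2 * Q := by
  rw [Finsupp.weight_apply, Finsupp.sum_fintype _ _ (by simp), Fin.sum_univ_three]
  simp [wt]

theorem deh_inj {K : Type u} [Field K] (Q : ℕ) (g : P3 K) (j : ℕ)
    (hg : g.IsWeightedHomogeneous (wt Q) j) (h0 : deh g = 0) : g = 0 := by
  classical
  by_contra hne
  obtain ⟨s, hs⟩ := ne_zero_iff.1 hne
  apply hs
  have h1 := congrArg (coeff (Finsupp.single 0 (s 1) + Finsupp.single 1 (s 2))) h0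
  rw [g.as_sum, map_sum, coeff_sum, Finset.sum_eq_single s, deh_mono, coeff_monomial, if_pos rfl,
    coeff_zero] at h1
  · exact h1
  · intro t ht hts
    rw [deh_mono, coeff_monomial, if_neg]
    intro he
    apply hts
    have e1 := DFunLike.congr_fun he 0
    have e2 := DFunLike.congr_fun he 1
    simp at e1 e2
    have w1 := hg (mem_support_iff.1 ht)
    have w2 := hg hs
    rw [deh_wt] at w1 w2
    rw [e1, e2] at w1
    ext i
    fin_cases i
    · show t 0 = s 0
      omega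
    · exact e1
    · exact e2
  · intro h
    exact absurd (mem_support_iff.2 hs) h

theorem eo_deh : DEH_s.{u} := by
  intro K _ Q
  refine ⟨fun R g h => deh_eval R g h, fun g => ⟨fun h => ?_, ?_⟩, deh_surj Q, deh_inj Q⟩
  · have := deh_sub g
    rwa [h, map_zero, sub_zero] at this
  · rintro ⟨h, rfl⟩
    rw [map_mul, map_sub, deh_X0, map_one, sub_self, zero_mul]

theorem eo_ndv : NDV_s.{u} := by
  classical
  intro K _ Q F D N d hD hF hd hlt
  rintro ⟨H, rfl⟩
  obtain ⟨s, hs⟩ := ne_zero_iff.1 hD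
  have w := hd hs
  obtain ⟨s1, h1, s2, -, rfl⟩ := Finset.mem_add.1 (support_mul F H (mem_support_iff.2 hs))
  rw [map_add, hF (mem_support_iff.1 h1)] at w
  omega

end H39c.Eo

end PartH39cEoDeh

section PartH39cEoGtr

set_option autoImplicit false

open MvPolynomial

namespace H39c.Eo

universe u

/-- the Jacobian determinant against a fixed polynomial, as a functional -/
noncomputable def gtr_fun {K : Type u} [Field K] (r : Fin 2 → K) (x : P2 K) :
    Module.Dual K (P3 K) where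
  toFun G := jac r x (deh G)
  map_add' G H := by
    simp only [jac, map_add]
    ring
  map_smul' c G := by
    simp only [jac, map_smul, Derivation.map_smul, smul_eval, RingHom.id_apply, smul_eq_mul]
    ring

/-- forms of weight `d` through `N` -/
noncomputable def gtr_sub {K : Type u} [Field K] (Q d : ℕ) (N : Finset (Fin 3 → K)) :
    Submodule K (P3 K) where
  carrier := {G | G.IsWeightedHomogeneous (wt Q) d ∧ ∀ R ∈ N, eval R G = 0}
  add_mem' := by
    rintro G H ⟨h1, h2⟩ ⟨h3, h4⟩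
    exact ⟨h1.add h3, fun R hR => by rw [map_add, h2 R hR, h4 R hR, add_zero]⟩
  zero_mem' := ⟨isWeightedHomogeneous_zero K (wt Q) d, fun R _ => map_zero _⟩
  smul_mem' := by
    rintro c G ⟨h1, h2⟩
    exact ⟨(weightedHomogeneousSubmodule K (wt Q) d).smul_mem c h1,
      fun R hR => by rw [smul_eval, h2 R hR, mul_zero]⟩

theorem gtr_jac {K : Type u} [Field K] (r : Fin 2 → K) (x s l : P2 K) (hs : eval r s = 1)
    (hl : eval r l = 0) : jac r x (s * l) = jac r x l := by
  simp only [jac, Derivation.leibniz, smul_eq_mul, map_add, map_mul, hs, hl]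
  ring

theorem gtr_one (hDEH : DEH_s.{u}) {K : Type u} [Field K] (Q : ℕ) (x : P2 K)
    (N : Finset (Fin 3 → K)) (i0 d j : ℕ) (hI : Interp Q N i0) (hd : i0 + j ≤ d) (R : Fin 3 → K)
    (hR : R ∈ N) (h0 : R 0 = 1) (L : P3 K) (hL : L.IsWeightedHomogeneous (wt Q) j)
    (hLR : eval R L = 0) (hj : jac (aff R) x (deh L) ≠ 0) :
    ∃ G ∈ gtr_sub Q d N, gtr_fun (aff R) x G ≠ 0 := by
  classical
  obtain ⟨S, hS, hv⟩ := hI (d - j) (by omega) (fun T => if T = R then 1 else 0)
  have hev := (hDEH K Q).1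
  refine ⟨S * L, ⟨?_, fun T hT => ?_⟩, ?_⟩
  · have := hS.mul hL
    rwa [Nat.sub_add_cancel (by omega)] at this
  · rw [map_mul, hv T hT]
    by_cases h : T = R
    · rw [h, hLR, mul_zero]
    · rw [if_neg h, zero_mul]
  · change jac (aff R) x (deh (S * L)) ≠ 0
    rw [map_mul, gtr_jac]
    · exact hj
    · rw [hev R S h0, hv R hR, if_pos rfl]
    · rw [hev R L h0, hLR]

theorem eo_gtr : GTR_s.{u} := by
  intro hDEH K _ _ Q Γ N i0 d hQ hI hd h0 hs
  have hX : ∀ i : Fin 3, (X i : P3 K).IsWeightedHomogeneous (wt Q) (wt Q i) := fun i =>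
    isWeightedHomogeneous_X K (wt Q) i
  have hC : ∀ c : K, (C c : P3 K).IsWeightedHomogeneous (wt Q) 0 := fun c =>
    isWeightedHomogeneous_C (wt Q) c
  obtain ⟨G, ⟨hG1, hG2⟩, hG3⟩ := Module.Dual.exists_forall_mem_ne_zero_of_forall_exists
    (gtr_sub Q d N) (fun R : N => gtr_fun (aff R.1) (deh Γ)) (by
      rintro ⟨R, hR⟩
      rcases hs R hR with h | h
      · refine gtr_one hDEH Q _ N i0 d Q hI hd R hR (h0 R hR) (X 2 + C (-R 2) * X 0 ^ Q) ?_ ?_ ?_
        · have h1 := (hC (-R 2)).mul ((hX 0).pow Q)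
          have h2 : 0 + Q • wt Q 0 = Q := by simp [wt]
          rw [h2] at h1
          exact (hX 2).add h1
        · simp [h0 R hR]
        · simpa [jac, deh] using h
      · refine gtr_one hDEH Q _ N i0 d 1 hI (by omega) R hR (h0 R hR) (X 1 + C (-R 1) * X 0)
          ?_ ?_ ?_
        · have h1 := (hC (-R 1)).mul (hX 0)
          have h2 : 0 + wt Q 0 = 1 := by simp [wt]
          rw [h2] at h1
          exact (hX 1).add h1
        · simp [h0 R hR]
        · simpa [jac, deh] using h)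
  exact ⟨G, hG1, fun R hR => ⟨hG2 R hR, hG3 ⟨R, hR⟩⟩⟩

end H39c.Eo

end PartH39cEoGtr

section PartH39cEoIter

set_option autoImplicit false

open MvPolynomial

namespace H39c.Eo

universe u

theorem iter_step (hd : DEH_s.{u}) (hn : NFS_s.{u}) (K : Type u) [Field K] (Q : ℕ) (Γ D : P3 K)
    (γ d i0 j : ℕ) (N : Finset (Fin 3 → K)) (hI : Interp Q N i0) (hj : i0 + (j + 2) * γ ≤ d)
    (h0 : ∀ R ∈ N, R 0 = 1) (hΓ : Γ.IsWeightedHomogeneous (wt Q) γ)
    (hD : D.IsWeightedHomogeneous (wt Q) d) (Pr : (Fin 3 → K) → P2 K → Prop)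
    (hG : ∀ R ∈ N, Gen (eval (aff R)) (deh Γ) (deh D))
    (hP : ∀ R ∈ N, ∃ c : K, ∀ A : P2 K, eval (aff R) A = c →
      Pr R (deh D + A * deh Γ ^ (j + 2))) :
    ∃ D' : P3 K, D'.IsWeightedHomogeneous (wt Q) d ∧
      ∀ R ∈ N, Gen (eval (aff R)) (deh Γ) (deh D') ∧ Pr R (deh D') := by
  have hP' : ∀ R : Fin 3 → K, ∃ c : K, R ∈ N → ∀ A : P2 K, eval (aff R) A = c →
      Pr R (deh D + A * deh Γ ^ (j + 2)) := by
    intro R
    by_cases hR : R ∈ N
    · obtain ⟨c, hc⟩ := hP R hR
      exact ⟨c, fun _ => hc⟩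
    · exact ⟨0, fun h => absurd h hR⟩
  choose c hc using hP'
  obtain ⟨A, hA, hv⟩ := hI (d - (j + 2) * γ) (by omega) c
  have e : deh (D + A * Γ ^ (j + 2)) = deh D + deh A * deh Γ ^ (j + 2) := by
    rw [map_add, map_mul, map_pow]
  refine ⟨D + A * Γ ^ (j + 2), ?_, fun R hR => ?_⟩
  · have h1 := hA.mul (hΓ.pow (j + 2))
    have h2 : d - (j + 2) * γ + (j + 2) • γ = d := by
      rw [smul_eq_mul]; omega
    rw [h2] at h1
    exact hD.add h1
  · rw [e]
    refine ⟨(hn K (P2 K) (eval (aff R)) 0 (deh Γ)).1 (deh D) (deh A) (j + 1) (hG R hR), ?_⟩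
    exact hc R hR (deh A) (((hd K Q).1 R A (h0 R hR)).trans (hv R hR))

theorem eo_iter : ITER_s.{u} := by
  intro hd hn K _ Q f Γ D0 γ d i0 p N hp hI hw h0 hΓ hD0 hst
  obtain ⟨q, rfl⟩ : ∃ q, p = q + 3 := ⟨p - 3, by omega⟩
  have hw' : i0 + (q + 2) * γ ≤ d := hw
  have key : ∀ j, j ≤ q → ∃ D : P3 K, D.IsWeightedHomogeneous (wt Q) d ∧
      ∀ R ∈ N, Gen (eval (aff R)) (deh Γ) (deh D) ∧
        NF (eval (aff R)) f (deh Γ) (deh D) (j + 3) := by
    intro j
    induction j with
    | zero => exact fun _ => ⟨D0, hD0, hst⟩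
    | succ j ih =>
      intro hj
      obtain ⟨D, hD, h⟩ := ih (by omega)
      have hle : (j + 2) * γ ≤ (q + 2) * γ := Nat.mul_le_mul_right γ (by omega)
      exact iter_step hd hn K Q Γ D γ d i0 j N hI (by omega) h0 hΓ hD
        (fun R y => NF (eval (aff R)) f (deh Γ) y (j + 4)) (fun R hR => (h R hR).1)
        (fun R hR => (hn K (P2 K) (eval (aff R)) f (deh Γ)).2.2.1 (deh D) j (h R hR).1 (h R hR).2)
  obtain ⟨D, hD, h⟩ := key q le_rfl
  exact iter_step hd hn K Q Γ D γ d i0 q N hI hw' h0 hΓ hD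
    (fun R y => NFx (eval (aff R)) f (deh Γ) y (q + 3)) (fun R hR => (h R hR).1)
    (fun R hR => (hn K (P2 K) (eval (aff R)) f (deh Γ)).2.2.2 (deh D) q (h R hR).1 (h R hR).2)

end H39c.Eo

end PartH39cEoIter

section PartH39cEoLoc

set_option autoImplicit false

open MvPolynomial

namespace H39c.Eo

universe u

theorem loc_num (k q n' γ n c i0 : ℕ) (hq : 0 < q)
    (h1 : 100 * (k + 3) * γ ≤ n' * ((k + 3) * q)) (h2 : 100 * c ≤ n') (h3 : 10 * n ≤ 11 * n')
    (h4 : 100 * (k + 3) ^ 2 ≤ n') (hi : i0 ≤ 4 * γ + ((k + 3) * q) * ((n + c) / 2 + 1)) :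
    i0 + (k + 3) * q + (k + 2) * γ + (k + 4) ≤ (k + 2) * (n' * q) := by
  have hγ : 100 * γ ≤ n' * q := by
    have : (k + 3) * (100 * γ) ≤ (k + 3) * (n' * q) := by
      calc (k + 3) * (100 * γ) = 100 * (k + 3) * γ := by ring
        _ ≤ n' * ((k + 3) * q) := h1
        _ = (k + 3) * (n' * q) := by ring
    exact Nat.le_of_mul_le_mul_left this (by omega)
  have hn : 900 ≤ n' := by nlinarith [Nat.zero_le k, Nat.zero_le (k ^ 2)]
  have hh : 200 * ((n + c) / 2) ≤ 111 * n' := by omega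
  have hX : 200 * (q * ((n + c) / 2)) ≤ 111 * (n' * q) := by
    calc 200 * (q * ((n + c) / 2)) = (200 * ((n + c) / 2)) * q := by ring
      _ ≤ (111 * n') * q := Nat.mul_le_mul_right q hh
      _ = 111 * (n' * q) := by ring
  have hY : 900 * q ≤ n' * q := Nat.mul_le_mul_right q hn
  set X := q * ((n + c) / 2) with hXd
  set W := n' * q with hW
  have e1 : ((k + 3) * q) * ((n + c) / 2 + 1) = (k + 3) * X + (k + 3) * q := by rw [hXd]; ring
  have a1 : X + 2 * q + γ + 1 ≤ W := by omega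
  have a2 : 3 * X + 6 * q + 6 * γ + 4 ≤ 2 * W := by omega
  have a3 : k * (X + 2 * q + γ + 1) ≤ k * W := Nat.mul_le_mul_left k a1
  rw [e1] at hi
  nlinarith

variable {K : Type u} [Field K]

/-- the node clause of `H62e.Loc` -/
def Cl (p : ℕ) (I : Ideal (P4 K)) (a : Fin 3 → P4 K) (F D E : P3 K) (v v' : Fin 4 → K) : Prop :=
  ∃ (c : P3 K) (g : ℕ → P3 K) (ρ ρ' : K), eval (val3 a v) c ≠ 0 ∧ eval (val3 a v) (g p) ≠ 0 ∧
    ρ ≠ ρ' ∧
    (X 0 - 1 : P3 K) ∣ c * F ^ (p - 1) - ∑ r ∈ Finset.range (p + 1), g r * E ^ r * D ^ (p - r) ∧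
    (∀ t : K, ∑ r ∈ Finset.range (p + 1), eval (val3 a v) (g r) * t ^ r = 0 ↔ t = ρ ∨ t = ρ') ∧
    H62e.Has I a D E v ρ ∧ H62e.Has I a D E v' ρ'

theorem loc_back (hDEH : DEH_s.{u}) {p Q d e : ℕ} {I : Ideal (P4 K)} {a : Fin 3 → P4 K}
    {F D E : P3 K} {v v' : Fin 4 → K} (h1 : eval v (a 0) = 1) {A : Type u} [CommRing A]
    {θ : P2 K →+* A} {φ φ' : A →+* K} (hD : D.IsWeightedHomogeneous (wt Q) d)
    (hE : E.IsWeightedHomogeneous (wt Q) e)
    (hb : ∀ (g g' : P3 K) (j j' : ℕ) (t : K), g.IsWeightedHomogeneous (wt Q) j →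
      g'.IsWeightedHomogeneous (wt Q) j' →
      (ValA φ (θ (deh g)) (θ (deh g')) t → ValP I v (aeval a g) (aeval a g') t) ∧
      (ValA φ' (θ (deh g)) (θ (deh g')) t → ValP I v' (aeval a g) (aeval a g') t))
    (hL : LocA p θ (eval (aff (val3 a v))) φ φ' (deh F) (deh D) (deh E)) :
    D ≠ 0 ∧ Cl p I a F D E v v' := by
  obtain ⟨e1, e2, e3, -⟩ := hDEH K Q
  obtain ⟨hD0, c, g, ρ, ρ', hne, hc, hg, hid, hroot, hv, hv'⟩ := hL
  have hR : val3 a v 0 = 1 := h1
  refine ⟨fun h => hD0 (by rw [h, map_zero, map_zero]), ?_⟩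
  obtain ⟨-, c', -, hc'⟩ := e3 c
  choose jj g' hg1 hg' using fun r => e3 (g r)
  have ev1 : ∀ r, eval (val3 a v) (g' r) = eval (aff (val3 a v)) (g r) := fun r => by
    rw [← hg' r, e1 _ _ hR]
  refine ⟨c', g', ρ, ρ', ?_, ?_, hne, ?_, ?_, (hb E D e d ρ hE hD).1 hv,
    (hb E D e d ρ' hE hD).2 hv'⟩
  · rw [← e1 _ _ hR, hc']; exact hc
  · rw [ev1]; exact hg
  · rw [← e2, map_sub, map_mul, map_pow, hc', hid, map_sum, sub_eq_zero]
    refine Finset.sum_congr rfl fun r _ => ?_
    rw [map_mul, map_mul, map_pow, map_pow, hg']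
  · intro t
    simp only [ev1]
    exact hroot t

theorem loc_fin (hNDV : NDV_s.{u}) {p Q n' d e : ℕ} (hp : p.Prime) {I : Ideal (P4 K)}
    {a : Fin 3 → P4 K} {F D E : P3 K} (hF : F.IsWeightedHomogeneous (wt Q) (n' * Q))
    (hD : D.IsWeightedHomogeneous (wt Q) d) (hE : E.IsWeightedHomogeneous (wt Q) e)
    (hd : (p - 1) * (n' * Q) = p * d + (p ^ 2 + p))
    (h : ∀ v v', Node I a v v' → eval v (a 0) = 1 → D ≠ 0 ∧ Cl p I a F D E v v') :
    ∃ (D E : P3 K) (d e θ : ℕ), H62e.Loc p I Q a F D E n' d e θ := by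
  have hp0 := hp.pos
  have hlt : d < n' * Q := by
    by_contra hcon
    push Not at hcon
    have h1 : (p - 1) * (n' * Q) ≤ p * d := Nat.mul_le_mul (Nat.sub_le _ _) hcon
    omega
  by_cases hD0 : D = 0
  · have hX : (X 0 ^ d : P3 K).IsWeightedHomogeneous (wt Q) d := by
      have := (isWeightedHomogeneous_X K (wt Q) 0).pow d
      simpa [wt] using this
    refine ⟨X 0 ^ d, E, d, e, p ^ 2 + p, hX, hE,
      hNDV K Q F _ _ d (pow_ne_zero _ (X_ne_zero 0)) hF hX hlt, hd, by omega, le_rfl, ?_⟩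
    intro v v' hn h1
    exact absurd hD0 (h v v' hn h1).1
  · exact ⟨D, E, d, e, p ^ 2 + p, hD, hE, hNDV K Q F D _ d hD0 hF hD hlt, hd, by omega, le_rfl,
      fun v v' hn h1 => (h v v' hn h1).2⟩

theorem loc_quad [IsAlgClosed K] (hDEH : DEH_s.{u}) (hSEPV : SEPV_s.{u}) {p m Q n' γ j : ℕ}
    [Fact p.Prime] {I : Ideal (P4 K)} {a : Fin 3 → P4 K} {F Γ G : P3 K}
    (hP : Plane p I m Q a F n') (hN : Nodal I Q a Γ γ) {v v' : Fin 4 → K} (hn : Node I a v v')
    (h1 : eval v (a 0) = 1) (hG : G.IsWeightedHomogeneous (wt Q) j) {A : Type u} [CommRing A]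
    [IsDomain A] {θ : P2 K →+* A} {φ φ' : A →+* K}
    (hA : NodeA θ (eval (aff (val3 a v))) φ φ' (deh Γ))
    (hb : ∀ (g g' : P3 K) (j j' : ℕ) (t : K), g.IsWeightedHomogeneous (wt Q) j →
      g'.IsWeightedHomogeneous (wt Q) j' →
      (ValA φ (θ (deh g)) (θ (deh g')) t → ValP I v (aeval a g) (aeval a g') t) ∧
      (ValA φ' (θ (deh g)) (θ (deh g')) t → ValP I v' (aeval a g) (aeval a g') t))
    (hgen : Gen (eval (aff (val3 a v))) (deh Γ) (deh G)) :
    ∃ (s al be ph : P2 K) (t t' : K), t ≠ t' ∧ ValA φ (θ (deh G)) (θ (deh Γ)) t ∧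
      ValA φ' (θ (deh G)) (θ (deh Γ)) t' ∧ eval (aff (val3 a v)) s ≠ 0 ∧
      eval (aff (val3 a v)) ph ≠ 0 ∧
      s * deh G ^ 2 + al * deh G * deh Γ + be * deh Γ ^ 2 = ph * deh F ∧
      eval (aff (val3 a v)) al = -(t + t') * eval (aff (val3 a v)) s ∧
      eval (aff (val3 a v)) be = t * t' * eval (aff (val3 a v)) s := by
  obtain ⟨e1, -, -, -⟩ := hDEH K Q
  have hR : val3 a v 0 = 1 := h1
  obtain ⟨t, t', hne, hv, hv'⟩ := hSEPV K (P2 K) A θ _ φ φ' _ _ hA hgen
  have r1 : Rat I (aeval a Γ) v (aeval a G) t := (hb G Γ j γ t hG hN.hΓ).1 hv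
  have r2 : Rat I (aeval a Γ) v' (aeval a G) t' := (hb G Γ j γ t' hG hN.hΓ).2 hv'
  obtain ⟨s, al, be, ph, hs, hph, hid, q1, q2⟩ := nak hP hN hn h1 hG r1 r2 hne
  have hal : eval (val3 a v) al = -(t + t') * eval (val3 a v) s := by
    have : (t - t') * (eval (val3 a v) al + (t + t') * eval (val3 a v) s) = 0 := by
      linear_combination q1 - q2
    have h0 := (mul_eq_zero.1 this).resolve_left (sub_ne_zero.2 hne)
    linear_combination h0
  refine ⟨deh s, deh al, deh be, deh ph, t, t', hne, hv, hv', ?_, ?_, ?_, ?_, ?_⟩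
  · rw [e1 _ _ hR]; exact hs
  · rw [e1 _ _ hR]; exact hph
  · have := congrArg deh hid
    simp only [map_add, map_mul, map_pow] at this
    exact this.symm
  · rw [e1 _ _ hR, e1 _ _ hR]; exact hal
  · rw [e1 _ _ hR, e1 _ _ hR]
    rw [hal] at q1
    linear_combination q1

theorem eo_loc_of (hDEH : DEH_s.{u}) (hAFF : AFF_s.{u}) (hCRAM : CRAM_s.{u}) (hJAC : JAC_s.{u})
    (hSEPV : SEPV_s.{u}) (hNFS : NFS_s.{u}) (hLODD : LODD_s.{u}) (hLTWO : LTWO_s.{u})
    (hNDV : NDV_s.{u}) (hVI : VI_s.{u}) (hGTR : GTR_s.{u}) (hITER : ITER_s.{u}) (p : ℕ) :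
    H62e.LOC_s.{u} p := by
  intro K _ _ hp _ I m Q a F Γ n' γ n c hP hN h1 h2 h3 h4 hz
  classical
  obtain ⟨N, i0, hNiff, hi0, hInt⟩ := hVI K p I m Q a F Γ n' γ n c hP hN hz
  obtain ⟨e1, e2, e3, e4⟩ := hDEH K Q
  have hR0 : ∀ R ∈ N, R 0 = 1 := by
    intro R hR
    obtain ⟨v, v', -, hv, rfl⟩ := (hNiff R).1 hR
    exact hv
  obtain ⟨iq, hQ⟩ := hP.hQ
  have hp0 := hp.out.pos
  have hq0 : 0 < p ^ iq := pow_pos hp0 _
  have hQ' : Q = p * p ^ iq := by rw [hQ]; ring
  have hQ0 : 0 < Q := by rw [hQ']; exact Nat.mul_pos hp0 hq0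
  have hsm : ∀ R ∈ N, eval (aff R) (pderiv 0 (deh Γ)) ≠ 0 ∨ eval (aff R) (pderiv 1 (deh Γ)) ≠ 0 := by
    intro R hR
    obtain ⟨v, v', hn, hv, rfl⟩ := (hNiff R).1 hR
    obtain ⟨A, _, _, θ, φ, φ', -, hA, -⟩ := hAFF hDEH K p I m Q a F Γ n' γ hP hN v v' hn hv
    exact hJAC K A θ _ φ φ' _ hA
  have hgen : ∀ (G : P3 K), (∀ R ∈ N, eval R G = 0 ∧ jac (aff R) (deh Γ) (deh G) ≠ 0) →
      ∀ R ∈ N, Gen (eval (aff R)) (deh Γ) (deh G) := by
    intro G hG R hR
    refine hCRAM K _ _ _ ?_ ?_ (hG R hR).2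
    · obtain ⟨v, v', hn, hv, rfl⟩ := (hNiff R).1 hR
      rw [e1 _ _ (hR0 _ hR)]
      exact hN.van v v' hn
    · rw [e1 _ _ (hR0 _ hR)]
      exact (hG R hR).1
  have hX : ∀ r : ℕ, (X 0 ^ r : P3 K).IsWeightedHomogeneous (wt Q) r := fun r => by
    have := (isWeightedHomogeneous_X K (wt Q) 0).pow r
    simpa [wt] using this
  rcases hp.out.eq_two_or_odd' with rfl | hodd
  · obtain ⟨G, hG, hGN⟩ := hGTR hDEH K Q Γ N i0 (i0 + Q) hQ0 hInt le_rfl hR0 hsm
    set W := n' * 2 ^ iq with hW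
    have hnQ : n' * Q = 2 * W := by rw [hQ', hW]; ring
    have hW1 : n' ≤ W := Nat.le_mul_of_pos_right _ hq0
    have hγ : γ + (W - 3 - γ) = W - 3 := by omega
    have hD : (Γ * X 0 ^ (W - 3 - γ) : P3 K).IsWeightedHomogeneous (wt Q) (W - 3) := by
      have := hN.hΓ.mul (hX (W - 3 - γ))
      rwa [hγ] at this
    have hdD : deh (Γ * X 0 ^ (W - 3 - γ) : P3 K) = deh Γ := by
      simp [deh]
    refine loc_fin hNDV hp.out hP.hF hD hG (by omega) ?_
    intro v v' hn hv
    obtain ⟨A, _, _, θ, φ, φ', -, hA, hb⟩ := hAFF hDEH K 2 I m Q a F Γ n' γ hP hN v v' hn hv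
    have hR : val3 a v ∈ N := (hNiff _).2 ⟨v, v', hn, hv, rfl⟩
    obtain ⟨s, al, be, ph, t, t', hne, w1, w2, hs, hph, hid, hal, hbe⟩ :=
      loc_quad hDEH hSEPV hP hN hn hv hG hA hb (hgen G hGN _ hR)
    refine loc_back hDEH hv hD hG hb ?_
    rw [hdD]
    exact hLTWO K (P2 K) A θ _ φ φ' _ _ _ s al be ph t t' hA.xne hne w1 w2 hs hph hid hal hbe
  · have hp3 : 3 ≤ p := by
      have h2le := hp.out.two_le
      obtain ⟨r, hr⟩ := hodd
      omega
    obtain ⟨k, rfl⟩ : ∃ k, p = k + 3 := ⟨p - 3, by omega⟩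
    set q := (k + 3) ^ iq with hq
    have hnum := loc_num k q n' γ n c i0 hq0 (by rw [← hQ']; exact h1) h2 h3 h4
      (by rw [← hQ']; exact hi0)
    obtain ⟨d, hd⟩ : ∃ d, (k + 2) * (n' * q) = d + (k + 4) :=
      ⟨(k + 2) * (n' * q) - (k + 4), by omega⟩
    have hb1 : i0 + Q + (k + 2) * γ ≤ d := by rw [hQ']; omega
    have hγ1 : γ ≤ (k + 2) * γ := Nat.le_mul_of_pos_left _ (by omega)
    obtain ⟨G, hG, hGN⟩ := hGTR hDEH K Q Γ N i0 d hQ0 hInt (by omega) hR0 hsm
    have hstart : ∀ R, ∃ t : K, R ∈ N → ∀ A : P2 K, eval (aff R) A = -t →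
        NF (eval (aff R)) (deh F) (deh Γ) (deh G + A * deh Γ) 3 := by
      intro R
      by_cases hR : R ∈ N
      · obtain ⟨v, v', hn, hv, rfl⟩ := (hNiff R).1 hR
        obtain ⟨A, _, _, θ, φ, φ', -, hA, hb⟩ :=
          hAFF hDEH K (k + 3) I m Q a F Γ n' γ hP hN v v' hn hv
        obtain ⟨s, al, be, ph, t, t', hne, -, -, hs, hph, hid, hal, hbe⟩ :=
          loc_quad hDEH hSEPV hP hN hn hv hG hA hb (hgen G hGN _ hR)
        exact ⟨t, fun _ B hB => (hNFS K (P2 K) _ (deh F) (deh Γ)).2.1 _ s al be ph B t t'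
          (hgen G hGN _ hR) hne hs hph hid hal hbe hB⟩
      · exact ⟨0, fun h => absurd h hR⟩
    choose tt htt using hstart
    obtain ⟨A0, hA0, hA0v⟩ := hInt (d - γ) (by omega) (fun R => -tt R)
    have hD0 : (G + A0 * Γ).IsWeightedHomogeneous (wt Q) d := by
      have := hA0.mul hN.hΓ
      rw [show d - γ + γ = d by omega] at this
      exact hG.add this
    obtain ⟨D, hD, hDN⟩ := hITER hDEH hNFS K Q (deh F) Γ (G + A0 * Γ) γ d i0 (k + 3) N hp3 hInt
      (by rw [show k + 3 - 1 = k + 2 by omega]; omega) hR0 hN.hΓ hD0 (by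
        intro R hR
        rw [map_add, map_mul]
        refine ⟨?_, htt R hR _ (by rw [e1 _ _ (hR0 R hR)]; exact hA0v R hR)⟩
        have := (hNFS K (P2 K) (eval (aff R)) (deh F) (deh Γ)).1 (deh G) (deh A0) 0
          (hgen G hGN R hR)
        simpa using this)
    have hE : (Γ ^ (k + 3 - 1)).IsWeightedHomogeneous (wt Q) ((k + 3 - 1) • γ) := hN.hΓ.pow _
    refine loc_fin hNDV hp.out hP.hF hD hE ?_ ?_
    · rw [show k + 3 - 1 = k + 2 by omega, hQ']
      calc (k + 2) * (n' * ((k + 3) * q)) = (k + 3) * ((k + 2) * (n' * q)) := by ring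
        _ = (k + 3) * d + ((k + 3) ^ 2 + (k + 3)) := by rw [hd]; ring
    · intro v v' hn hv
      obtain ⟨A, _, _, θ, φ, φ', hF0, hA, hb⟩ :=
        hAFF hDEH K (k + 3) I m Q a F Γ n' γ hP hN v v' hn hv
      have hR : val3 a v ∈ N := (hNiff _).2 ⟨v, v', hn, hv, rfl⟩
      refine loc_back hDEH hv hD hE hb ?_
      rw [map_pow]
      exact hLODD hSEPV K (P2 K) A θ _ φ φ' _ _ _ (k + 3) hp3 hA (hDN _ hR).1 hF0 (hDN _ hR).2

end H39c.Eo

end PartH39cEoLoc

section PartH39cEoLodd

set_option autoImplicit false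

namespace H39c.Eo

universe u

/-- `y` is the value at `(E, D)` of the degree `n` homogenisation of `G` -/
def loddRep {O : Type u} [CommRing O] (E D : O) (n : ℕ) (y : O) (G : Polynomial O) : Prop :=
  G.natDegree ≤ n ∧ y = MvPolynomial.eval ![E, D] (G.homogenize n)

section rep
variable {O : Type u} [CommRing O] {E D : O}

theorem lodd_mul {n m : ℕ} {y z : O} {G H : Polynomial O} (h1 : loddRep E D n y G)
    (h2 : loddRep E D m z H) : loddRep E D (n + m) (y * z) (G * H) :=
  ⟨Polynomial.natDegree_mul_le.trans (add_le_add h1.1 h2.1), by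
    rw [Polynomial.homogenize_mul G H h1.1 h2.1, map_mul, ← h1.2, ← h2.2]⟩

theorem lodd_add {n : ℕ} {y z : O} {G H : Polynomial O} (h1 : loddRep E D n y G)
    (h2 : loddRep E D n z H) : loddRep E D n (y + z) (G + H) :=
  ⟨Polynomial.natDegree_add_le_of_degree_le h1.1 h2.1, by
    rw [Polynomial.homogenize_add, map_add, ← h1.2, ← h2.2]⟩

theorem lodd_C (c : O) (n : ℕ) : loddRep E D n (c * D ^ n) (Polynomial.C c) :=
  ⟨by simp, by rw [Polynomial.homogenize_C]; simp⟩

theorem lodd_X : loddRep E D 1 E Polynomial.X :=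
  ⟨Polynomial.natDegree_X_le, by rw [Polynomial.homogenize_X one_ne_zero]; simp⟩

theorem lodd_smul (c : O) {n : ℕ} {y : O} {G : Polynomial O} (h : loddRep E D n y G) :
    loddRep E D n (c * y) (Polynomial.C c * G) := by
  have h1 := lodd_mul (lodd_C (E := E) (D := D) c 0) h
  rw [zero_add, pow_zero, mul_one] at h1
  exact h1

theorem lodd_pow {y : O} {G : Polynomial O} (h : loddRep E D 1 y G) (n : ℕ) :
    loddRep E D n (y ^ n) (G ^ n) := by
  induction n with
  | zero =>
    have h1 := lodd_C (E := E) (D := D) 1 0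
    rw [one_mul, pow_zero, Polynomial.C_1] at h1
    rw [pow_zero, pow_zero]
    exact h1
  | succ n ih =>
    rw [pow_succ, pow_succ]
    exact lodd_mul ih h

theorem lodd_sum {n : ℕ} (s : Finset ℕ) (y : ℕ → O) (G : ℕ → Polynomial O)
    (h : ∀ i ∈ s, loddRep E D n (y i) (G i)) : loddRep E D n (∑ i ∈ s, y i) (∑ i ∈ s, G i) := by
  induction s using Finset.induction_on with
  | empty =>
    have h1 := lodd_C (E := E) (D := D) 0 n
    rw [zero_mul, Polynomial.C_0] at h1
    rw [Finset.sum_empty, Finset.sum_empty]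
    exact h1
  | insert a s ha ih =>
    rw [Finset.sum_insert ha, Finset.sum_insert ha]
    exact lodd_add (h a (Finset.mem_insert_self a s))
      (ih fun i hi => h i (Finset.mem_insert_of_mem hi))

theorem lodd_expand {n : ℕ} {y : O} {G : Polynomial O} (h : loddRep E D n y G) :
    y = ∑ r ∈ Finset.range (n + 1), G.coeff r * E ^ r * D ^ (n - r) := by
  rw [h.2, Polynomial.homogenize, map_sum,
    Finset.Nat.sum_antidiagonal_eq_sum_range_succ_mk]
  refine Finset.sum_congr rfl fun r _ => ?_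
  rw [MvPolynomial.eval_monomial, Finsupp.prod_fintype _ _ (fun i => pow_zero _),
    Fin.prod_univ_two]
  simp [mul_assoc]

end rep

/-- the algebraic identity -/
theorem lodd_poly {O K : Type u} [CommRing O] [Field K] (ev : O →+* K) (x D ka la r : O) (q : ℕ)
    (hq : 2 ≤ q) (hx : ev x = 0) (hD : ev D = 0) :
    ∃ G : Polynomial O, loddRep (x ^ q) D (q + 1) ((x * (ka * D + la * x ^ q) + r * D ^ 2) ^ q) G ∧
      G.map ev = Polynomial.X * (Polynomial.C (ev ka) + Polynomial.C (ev la) * Polynomial.X) ^ q := by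
  obtain ⟨n, rfl⟩ : ∃ n, q = n + 1 := ⟨q - 1, by omega⟩
  set E := x ^ (n + 1) with hE
  let M : Polynomial O := Polynomial.C ka + Polynomial.C la * Polynomial.X
  have hM : loddRep E D 1 (ka * D + la * E) M := by
    have h1 := lodd_C (E := E) (D := D) ka 1
    rw [pow_one] at h1
    exact lodd_add h1 (lodd_smul la lodd_X)
  have ha : loddRep E D 1 (x * (ka * D + la * E)) (Polynomial.C x * M) := lodd_smul x hM
  have hL : loddRep E D 1 (x * (ka * D + la * E) + r * D ^ 2)
      (Polynomial.C x * M + Polynomial.C (r * D)) := by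
    have h1 := lodd_C (E := E) (D := D) (r * D) 1
    rw [pow_one, mul_assoc, ← sq] at h1
    exact lodd_add ha h1
  have hS : loddRep E D n
      (∑ i ∈ Finset.range (n + 1), (x * (ka * D + la * E) + r * D ^ 2) ^ i *
        (x * (ka * D + la * E)) ^ (n - i))
      (∑ i ∈ Finset.range (n + 1), (Polynomial.C x * M + Polynomial.C (r * D)) ^ i *
        (Polynomial.C x * M) ^ (n - i)) := by
    refine lodd_sum _ _ _ fun i hi => ?_
    have h1 := lodd_mul (lodd_pow hL i) (lodd_pow ha (n - i))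
    have h2 : i + (n - i) = n := by
      have := Finset.mem_range.mp hi
      omega
    rw [h2] at h1
    exact h1
  have h1 := lodd_mul (lodd_X (E := E) (D := D)) (lodd_pow hM (n + 1))
  have h2 := lodd_mul (lodd_C (E := E) (D := D) r 2) hS
  rw [show 1 + (n + 1) = n + 1 + 1 by omega] at h1
  rw [show 2 + n = n + 1 + 1 by omega] at h2
  have h3 := lodd_add h1 h2
  refine ⟨Polynomial.X * M ^ (n + 1) + Polynomial.C r *
      ∑ i ∈ Finset.range (n + 1), (Polynomial.C x * M + Polynomial.C (r * D)) ^ i *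
        (Polynomial.C x * M) ^ (n - i), ?_, ?_⟩
  · have h4 := geom_sum₂_mul (x * (ka * D + la * E) + r * D ^ 2) (x * (ka * D + la * E)) (n + 1)
    simp only [Nat.add_sub_cancel, add_sub_cancel_left] at h4
    have h5 : (x * (ka * D + la * E) + r * D ^ 2) ^ (n + 1) =
        E * (ka * D + la * E) ^ (n + 1) + r * D ^ 2 *
          ∑ i ∈ Finset.range (n + 1), (x * (ka * D + la * E) + r * D ^ 2) ^ i *
            (x * (ka * D + la * E)) ^ (n - i) := by
      rw [mul_comm (r * D ^ 2), h4, mul_pow, ← hE]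
      ring
    rw [h5]
    exact h3
  · have h6 : (∑ i ∈ Finset.range (n + 1), (Polynomial.C x * M + Polynomial.C (r * D)) ^ i *
        (Polynomial.C x * M) ^ (n - i)).map ev = 0 := by
      rw [Polynomial.map_sum]
      refine Finset.sum_eq_zero fun i _ => ?_
      rw [Polynomial.map_mul, Polynomial.map_pow, Polynomial.map_pow, Polynomial.map_add,
        Polynomial.map_mul, Polynomial.map_C, Polynomial.map_C, map_mul, hx, hD, mul_zero,
        Polynomial.C_0, zero_mul, add_zero, ← pow_add]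
      exact zero_pow (by omega)
    rw [Polynomial.map_add, Polynomial.map_mul, Polynomial.map_mul, h6, mul_zero, add_zero,
      Polynomial.map_pow, Polynomial.map_X]
    simp only [M, Polynomial.map_add, Polynomial.map_mul, Polynomial.map_C, Polynomial.map_X]

/-- the values on one branch -/
theorem lodd_val {A K : Type u} [CommRing A] [IsDomain A] [Field K] (φ : A →+* K)
    (x D ka la r : A) (q : ℕ) (hq : 2 ≤ q) (t : K) (hx : φ x = 0) (hx0 : x ≠ 0) (hla : φ la ≠ 0)
    (h : x * (ka * D + la * x ^ q) + r * D ^ 2 = 0) (hv : ValA φ D x t) :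
    t * (φ ka + φ r * t) = 0 ∧ ValA φ (x ^ q) D (-(φ ka + φ r * t) / φ la) := by
  obtain ⟨k1, k2, hk1, hk, hk2⟩ := hv
  obtain ⟨n, rfl⟩ : ∃ n, q = n + 2 := ⟨q - 2, by omega⟩
  have e1 : la * k1 * x ^ (n + 2) = -(ka * k1 + r * k2) * D := by
    apply mul_left_cancel₀ hx0
    linear_combination k1 * h - r * D * hk
  constructor
  · have e2 : la * k1 ^ 2 * x ^ (n + 1) = -(ka * k1 + r * k2) * k2 := by
      apply mul_left_cancel₀ hx0
      linear_combination k1 * e1 - (ka * k1 + r * k2) * hk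
    have e3 := congrArg φ e2
    simp only [map_mul, map_pow, map_neg, map_add, hx, hk2] at e3
    rw [zero_pow (by omega), mul_zero] at e3
    apply mul_left_cancel₀ (pow_ne_zero 2 hk1)
    linear_combination e3
  · refine ⟨la * k1, -(ka * k1 + r * k2), ?_, e1, ?_⟩
    · rw [map_mul]
      exact mul_ne_zero hla hk1
    · simp only [map_mul, map_neg, map_add, hk2]
      field_simp

theorem eo_lodd : LODD_s.{u} := by
  intro hS K O A _ _ _ _ θ ev φ φ' f x D p hp hN hG hf hNF
  obtain ⟨s, ka, la, r, hs, hka, hla, hsf⟩ := hNF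
  obtain ⟨q, rfl⟩ : ∃ q, p = q + 1 := ⟨p - 1, by omega⟩
  have hq : 2 ≤ q := by omega
  have hsf' : s * f = x * (ka * D + la * x ^ q) + r * D ^ 2 := by
    rw [hsf]; ring
  have hA : θ x * (θ ka * θ D + θ la * θ x ^ q) + θ r * θ D ^ 2 = 0 := by
    have h1 := congrArg θ hsf'
    simp only [map_mul, map_add, map_pow, hf, mul_zero] at h1
    exact h1.symm
  obtain ⟨t, t', htt, hv, hv'⟩ := hS K O A θ ev φ φ' x D hN hG
  obtain ⟨a1, a2⟩ := lodd_val φ (θ x) (θ D) (θ ka) (θ la) (θ r) q hq t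
    (by rw [hN.c1, hN.x0]) hN.xne (by rw [hN.c1]; exact hla) hA hv
  obtain ⟨b1, b2⟩ := lodd_val φ' (θ x) (θ D) (θ ka) (θ la) (θ r) q hq t'
    (by rw [hN.c2, hN.x0]) hN.xne (by rw [hN.c2]; exact hla) hA hv'
  rw [hN.c1, hN.c1] at a1
  rw [hN.c1, hN.c1, hN.c1, ← map_pow] at a2
  rw [hN.c2, hN.c2] at b1
  rw [hN.c2, hN.c2, hN.c2, ← map_pow] at b2
  obtain ⟨G, hG1, hG2⟩ := lodd_poly ev x D ka la r q hq hN.x0 hG.2.1
  have hroot : ∀ z : K, ∑ i ∈ Finset.range (q + 1 + 1), ev (G.coeff i) * z ^ i = 0 ↔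
      z = 0 ∨ z = -ev ka / ev la := by
    intro z
    have h1 : (G.map ev).natDegree < q + 1 + 1 :=
      Nat.lt_succ_of_le (Polynomial.natDegree_map_le.trans hG1.1)
    have h2 := Polynomial.eval_eq_sum_range' h1 z
    simp only [Polynomial.coeff_map] at h2
    rw [← h2, hG2]
    simp only [Polynomial.eval_mul, Polynomial.eval_pow, Polynomial.eval_add, Polynomial.eval_C,
      Polynomial.eval_X, mul_eq_zero]
    rw [pow_eq_zero_iff (by omega), eq_div_iff hla]
    constructor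
    · rintro (h | h)
      · exact Or.inl h
      · exact Or.inr (by linear_combination h)
    · rintro (h | h)
      · exact Or.inl h
      · exact Or.inr (by linear_combination h)
  have hne : -ev ka / ev la ≠ 0 := div_ne_zero (neg_ne_zero.mpr hka) hla
  have hcases : (-(ev ka + ev r * t) / ev la = -ev ka / ev la ∧ -(ev ka + ev r * t') / ev la = 0) ∨
      (-(ev ka + ev r * t) / ev la = 0 ∧ -(ev ka + ev r * t') / ev la = -ev ka / ev la) := by
    rcases mul_eq_zero.mp a1 with h1 | h1 <;> rcases mul_eq_zero.mp b1 with h2 | h2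
    · exact (htt (h1.trans h2.symm)).elim
    · left
      rw [h1, h2]
      simp
    · right
      rw [h1, h2]
      simp
    · exfalso
      have h3 : ev r * (t - t') = 0 := by linear_combination h1 - h2
      rcases mul_eq_zero.mp h3 with h4 | h4
      · rw [h4, zero_mul, add_zero] at h1
        exact hka h1
      · exact htt (sub_eq_zero.mp h4)
  refine ⟨?_, s ^ q, fun i => G.coeff i, _, _, ?_, ?_, ?_, ?_, ?_, a2, b2⟩
  · intro hD
    rw [hD] at hA
    have h1 : θ x * (θ la * θ x ^ q) = 0 := by linear_combination hA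
    rcases mul_eq_zero.mp h1 with h2 | h2
    · exact hN.xne h2
    · rcases mul_eq_zero.mp h2 with h3 | h3
      · apply hla
        rw [← hN.c1, h3, map_zero]
      · exact hN.xne (pow_eq_zero_iff (by omega) |>.mp h3)
  · rcases hcases with ⟨h1, h2⟩ | ⟨h1, h2⟩
    · rw [h1, h2]; exact hne
    · rw [h1, h2]; exact hne.symm
  · rw [map_pow]
    exact pow_ne_zero _ hs
  · have h1 : ev (G.coeff (q + 1)) = ev la ^ q := by
      rw [← Polynomial.coeff_map, hG2, Polynomial.coeff_X_mul]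
      have h2 : (Polynomial.C (ev ka) + Polynomial.C (ev la) * Polynomial.X).natDegree ≤ 1 := by
        compute_degree
      have h3 := Polynomial.coeff_pow_of_natDegree_le (m := q) h2
      rw [mul_one] at h3
      rw [h3]
      simp
    change ev (G.coeff (q + 1)) ≠ 0
    rw [h1]
    exact pow_ne_zero _ hla
  · rw [Nat.add_sub_cancel, ← mul_pow, hsf']
    exact lodd_expand hG1
  · intro z
    rw [hroot z]
    rcases hcases with ⟨h1, h2⟩ | ⟨h1, h2⟩
    · rw [h1, h2]; exact or_comm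
    · rw [h1, h2]

end H39c.Eo

end PartH39cEoLodd

section PartH39cEoNfs

set_option autoImplicit false

open MvPolynomial

namespace H39c.Eo

universe u

theorem nfs_gen {K O : Type u} [Field K] [CommRing O] {ev : O →+* K} {x y : O} (A : O) (j : ℕ)
    (h : Gen ev x y) : Gen ev x (y + A * x ^ (j + 1)) := by
  obtain ⟨hx, hy, hg⟩ := h
  refine ⟨hx, by simp [hx, hy], fun g h0 => ?_⟩
  obtain ⟨s, α, β, hs, e⟩ := hg g h0
  exact ⟨s, α - β * A * x ^ j, β, hs, by linear_combination e⟩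

theorem eo_nfs : NFS_s.{u} := by
  intro K O _ _ ev f x
  refine ⟨fun y A j h => nfs_gen A j h, ?_, ?_, ?_⟩
  · intro y s al be ph A t t' h ht hs hp e h1 h2 h3
    have hG := nfs_gen A 0 h
    rw [zero_add, pow_one] at hG
    obtain ⟨s', α, β, hs', e'⟩ := hG.2.2 (s * A ^ 2 - al * A + be) (by
      rw [map_add, map_sub, map_mul, map_mul, map_pow, h1, h2, h3]
      ring)
    refine ⟨s' * ph, s' * (al - s * A - s * A) + β * x, α, s' * s, ?_, ?_, ?_⟩
    · rw [map_mul]
      exact mul_ne_zero hs' hp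
    · have : ev (s' * (al - s * A - s * A) + β * x) = ev s' * (ev s * (t - t')) := by
        rw [map_add, map_mul, map_mul, map_sub, map_sub, map_mul, h1, h3, h.1]
        ring
      rw [this]
      exact mul_ne_zero hs' (mul_ne_zero hs (sub_ne_zero.2 ht))
    · linear_combination x ^ 2 * e' - s' * e
  · rintro D j h ⟨s, ka, la, r, hs, hk, e⟩
    refine ⟨ev la / ev ka, fun A hA => ?_⟩
    obtain ⟨s', α, β, hs', e'⟩ := (nfs_gen A (j + 1) h).2.2 (la - ka * A) (by
      rw [map_sub, map_mul, hA, mul_div_cancel₀ _ hk, sub_self])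
    refine ⟨s' * s, s' * ka + (β * x ^ (j + 1) - 2 * s' * r * A * x ^ j) * x,
      α + s' * r * A ^ 2 * x ^ j, s' * r, ?_, ?_, ?_⟩
    · rw [map_mul]
      exact mul_ne_zero hs' hs
    · rw [map_add, map_mul, map_mul, h.1, mul_zero, add_zero]
      exact mul_ne_zero hs' hk
    · linear_combination s' * e + x ^ (j + 3) * e'
  · rintro D j h ⟨s, ka, la, r, hs, hk, e⟩
    refine ⟨(ev la - 1) / ev ka, fun A hA => ?_⟩
    refine ⟨s, ka - 2 * r * A * x ^ j * x, la - ka * A + r * A ^ 2 * x ^ j * x, r, hs, ?_, ?_, ?_⟩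
    · rwa [map_sub, map_mul, h.1, mul_zero, sub_zero]
    · rw [map_add, map_sub, map_mul, map_mul, h.1, mul_zero, add_zero, hA, mul_div_cancel₀ _ hk,
        sub_sub_cancel]
      exact one_ne_zero
    · linear_combination e

end H39c.Eo

end PartH39cEoNfs

section PartH39cEoSep

set_option autoImplicit false

open MvPolynomial

namespace H39c.Eo

universe u

theorem sepv_val {K O A : Type u} [Field K] [CommRing O] [CommRing A] {θ : O →+* A}
    {ev : O →+* K} {φ : A →+* K} {x y : O} (h : Par θ ev φ x) (hy : ev y = 0) :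
    ∃ t, ValA φ (θ y) (θ x) t := by
  obtain ⟨k1, k2, a1, a2⟩ := h y hy
  exact ⟨φ k2 / φ k1, k1, k2, a1, a2, (div_mul_cancel₀ _ a1).symm⟩

theorem sepv_lin {K O A : Type u} [Field K] [CommRing O] [CommRing A] [IsDomain A] {θ : O →+* A}
    {ev : O →+* K} {φ : A →+* K} {x y e s α β : O} {t τ : K} (c1 : ∀ w, φ (θ w) = ev w)
    (xne : θ x ≠ 0) (h : s * e = α * x + β * y) (hy : ValA φ (θ y) (θ x) t)
    (he : ValA φ (θ e) (θ x) τ) : ev s * τ = ev α + ev β * t := by
  obtain ⟨k1, k2, a1, a2, a3⟩ := hy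
  obtain ⟨l1, l2, b1, b2, b3⟩ := he
  have h1 := congrArg θ h
  rw [map_add, map_mul, map_mul, map_mul] at h1
  have h2 : k1 * θ s * l2 = k1 * l1 * θ α + l1 * θ β * k2 :=
    mul_right_cancel₀ xne (by
      linear_combination (-(k1 * θ s)) * b2 + k1 * l1 * h1 + l1 * θ β * a2)
  have h3 := congrArg φ h2
  simp only [map_add, map_mul, c1, a3, b3] at h3
  exact mul_left_cancel₀ (mul_ne_zero a1 b1) (by linear_combination h3)

theorem eo_sepv : SEPV_s.{u} := by
  intro K O A _ _ _ _ θ ev φ φ' x y hN hG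
  obtain ⟨t, ht⟩ := sepv_val hN.par hG.2.1
  obtain ⟨t', ht'⟩ := sepv_val hN.par' hG.2.1
  refine ⟨t, t', fun e0 => ?_, ht, ht'⟩
  obtain ⟨e, τ, τ', hne, h1, h2⟩ := hN.sep
  have he : ev e = 0 := by
    obtain ⟨l1, l2, b1, b2, -⟩ := h1
    have h3 := congrArg φ b2
    rw [map_mul, map_mul, hN.c1, hN.c1, hN.x0, mul_zero] at h3
    exact (mul_eq_zero.1 h3).resolve_left b1
  obtain ⟨s, α, β, hs, h⟩ := hG.2.2 e he
  have g1 := sepv_lin hN.c1 hN.xne h ht h1
  have g2 := sepv_lin hN.c2 hN.xne h ht' h2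
  rw [← e0, ← g1] at g2
  exact hne (mul_left_cancel₀ hs g2).symm

theorem eo_ltwo : LTWO_s.{u} := by
  intro K O A _ _ _ θ ev φ φ' f x y s al be ph t t' xne hne h1 h2 hs hph h ha hb
  refine ⟨xne, ph, fun r => if r = 0 then be else if r = 1 then al else s, t, t', hne, hph,
    hs, ?_, fun w => ?_, h1, h2⟩
  · simp only [Finset.sum_range_succ, Finset.sum_range_zero]
    norm_num
    linear_combination -h
  · have e : ∑ r ∈ Finset.range (2 + 1),
        ev (if r = 0 then be else if r = 1 then al else s) * w ^ r = ev s * ((w - t) * (w - t')) := by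
      simp only [Finset.sum_range_succ, Finset.sum_range_zero]
      norm_num
      rw [ha, hb]
      ring
    rw [e, mul_eq_zero, mul_eq_zero, sub_eq_zero, sub_eq_zero]
    exact ⟨fun g => g.resolve_left hs, Or.inr⟩

end H39c.Eo

end PartH39cEoSep

section PartH39cReduce40

open MvPolynomial

namespace H40R

variable {k : Type*} [Field k]

theorem natDegree_dehom {g : MvPolynomial (Fin 2) k} {n : ℕ} (hg : g.IsHomogeneous n) :
    (MvPolynomial.aeval ![Polynomial.X, (1 : Polynomial k)] g).natDegree ≤ n := by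
  rw [g.as_sum, map_sum]
  refine Polynomial.natDegree_sum_le_of_forall_le _ _ ?_
  intro m hm
  have hdeg : m 0 + m 1 = n := by
    have := hg.degree_eq_sum_deg_support hm
    have h2 : n = m.degree := by rw [this, Finsupp.degree_apply]
    rw [h2, Finsupp.degree_eq_sum, Fin.sum_univ_two]
  rw [MvPolynomial.aeval_monomial, Finsupp.prod_fintype _ _ (by simp), Fin.prod_univ_two]
  simp only [Matrix.cons_val_zero, Matrix.cons_val_one, one_pow, mul_one,
    Polynomial.algebraMap_eq]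
  refine (Polynomial.natDegree_C_mul_X_pow_le _ _).trans (by omega)

theorem eval_one_zero (p : Polynomial k) (n : ℕ) :
    MvPolynomial.eval ![1, 0] (p.homogenize n) = p.coeff n := by
  unfold Polynomial.homogenize
  rw [map_sum, Finset.sum_eq_single (n, 0)]
  · simp [MvPolynomial.eval_monomial, Finsupp.prod_fintype, Fin.prod_univ_two]
  · rintro ⟨a, b⟩ hab hne
    have h1 : a + b = n := by simpa using hab
    have hb : b ≠ 0 := by
      rintro rfl
      exact hne (by simp at h1; simp [h1])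
    simp [MvPolynomial.eval_monomial, Finsupp.prod_fintype, Fin.prod_univ_two, hb]
  · intro h; exact absurd (by simp) h

theorem poly_step (p1 p2 r : Polynomial k) (a b J : ℕ) (h1 : p1.natDegree = a) (h10 : p1 ≠ 0)
    (h2 : p2.natDegree ≤ b) (hr : r.natDegree ≤ J) (ha : 1 ≤ a) (hb : 1 ≤ b)
    (hJ : a + b ≤ J + 1) (hc : IsCoprime p1 p2) :
    ∃ u1 u2 : Polynomial k, u1.natDegree ≤ J - a ∧ u2.natDegree ≤ J - b ∧
      r = u1 * p1 + u2 * p2 := by
  obtain ⟨v1, v2, hv⟩ := hc
  have hdiv := EuclideanDomain.mod_add_div (r * v2) p1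
  set u2 := r * v2 % p1 with hu2
  set w := r * v2 / p1 with hw
  have hlt : u2.natDegree ≤ a - 1 := by
    by_cases h0 : u2 = 0
    · simp [h0]
    · have : u2.degree < p1.degree := EuclideanDomain.mod_lt _ h10
      have := Polynomial.natDegree_lt_natDegree h0 this
      omega
  have heq : r = (r * v1 + w * p2) * p1 + u2 * p2 := by
    have : r = r * (v1 * p1 + v2 * p2) := by rw [hv, mul_one]
    linear_combination this - p2 * hdiv
  refine ⟨r * v1 + w * p2, u2, ?_, by omega, heq⟩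
  by_cases h0 : r * v1 + w * p2 = 0
  · simp [h0]
  have e1 : (r * v1 + w * p2) * p1 = r - u2 * p2 := by linear_combination -heq
  have e2 := Polynomial.natDegree_mul h0 h10
  have e3 : (r - u2 * p2).natDegree ≤ J := by
    refine (Polynomial.natDegree_sub_le _ _).trans (max_le hr ?_)
    refine Polynomial.natDegree_mul_le.trans (by omega)
  rw [e1] at e2
  omega

/-- Two binary forms without common zero generate all forms of degree `≥ a + b - 1`. -/
theorem binary [IsAlgClosed k] (g1 g2 h : MvPolynomial (Fin 2) k) (a b J : ℕ)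
    (h1 : g1.IsHomogeneous a) (h2 : g2.IsHomogeneous b) (hh : h.IsHomogeneous J)
    (ha : 1 ≤ a) (hb : 1 ≤ b) (hJ : a + b ≤ J + 1)
    (hno : ∀ v : Fin 2 → k, v ≠ 0 → ¬ (eval v g1 = 0 ∧ eval v g2 = 0)) :
    ∃ u1 u2 : MvPolynomial (Fin 2) k, u1.IsHomogeneous (J - a) ∧ u2.IsHomogeneous (J - b) ∧
      h = u1 * g1 + u2 * g2 := by
  set p1 := MvPolynomial.aeval ![Polynomial.X, (1 : Polynomial k)] g1 with hp1
  set p2 := MvPolynomial.aeval ![Polynomial.X, (1 : Polynomial k)] g2 with hp2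
  set r := MvPolynomial.aeval ![Polynomial.X, (1 : Polynomial k)] h with hr
  have d1 : p1.natDegree ≤ a := natDegree_dehom h1
  have d2 : p2.natDegree ≤ b := natDegree_dehom h2
  have dr : r.natDegree ≤ J := natDegree_dehom hh
  have e1 : p1.homogenize a = g1 := Polynomial.homogenize_eq_of_isHomogeneous h1 rfl
  have e2 : p2.homogenize b = g2 := Polynomial.homogenize_eq_of_isHomogeneous h2 rfl
  have er : r.homogenize J = h := Polynomial.homogenize_eq_of_isHomogeneous hh rfl
  have hinf : p1.coeff a ≠ 0 ∨ p2.coeff b ≠ 0 := by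
    by_contra hcon
    push Not at hcon
    refine hno ![1, 0] (by intro h0; simpa using congrFun h0 0) ⟨?_, ?_⟩
    · rw [← e1, eval_one_zero]; exact hcon.1
    · rw [← e2, eval_one_zero]; exact hcon.2
  have hcop : IsCoprime p1 p2 := by
    refine (Polynomial.isCoprime_iff_aeval_ne_zero_of_isAlgClosed (k := k) k p1 p2).2 ?_
    intro x
    by_contra hcon
    push Not at hcon
    refine hno ![x, 1] (by intro h0; simpa using congrFun h0 1) ⟨?_, ?_⟩
    · rw [← e1, Polynomial.eval_homogenize d1 _ (by simp)]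
      simpa using hcon.1
    · rw [← e2, Polynomial.eval_homogenize d2 _ (by simp)]
      simpa using hcon.2
  have key : ∃ u1 u2 : Polynomial k, u1.natDegree ≤ J - a ∧ u2.natDegree ≤ J - b ∧
      r = u1 * p1 + u2 * p2 := by
    rcases hinf with hi | hi
    · exact poly_step p1 p2 r a b J (le_antisymm d1 (Polynomial.le_natDegree_of_ne_zero hi))
        (by rintro h0; simp [h0] at hi) d2 dr ha hb hJ hcop
    · obtain ⟨u2, u1, q2, q1, q⟩ := poly_step p2 p1 r b a J
        (le_antisymm d2 (Polynomial.le_natDegree_of_ne_zero hi))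
        (by rintro h0; simp [h0] at hi) d1 dr hb ha (by omega) hcop.symm
      exact ⟨u1, u2, q1, q2, by rw [q, add_comm]⟩
  obtain ⟨u1, u2, q1, q2, q⟩ := key
  refine ⟨u1.homogenize (J - a), u2.homogenize (J - b), Polynomial.isHomogeneous_homogenize _,
    Polynomial.isHomogeneous_homogenize _, ?_⟩
  have m1 := Polynomial.homogenize_mul u1 p1 q1 d1
  have m2 := Polynomial.homogenize_mul u2 p2 q2 d2
  rw [show J - a + a = J by omega] at m1
  rw [show J - b + b = J by omega] at m2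
  rw [← er, q, Polynomial.homogenize_add, m1, m2, e1, e2]

/-- weighted substitution: variables of weight `w i` go to forms of `w'`-weight `w i`. -/
theorem wh_aeval {σ τ : Type*} {w : σ → ℕ} {w' : τ → ℕ} {g : σ → MvPolynomial τ k}
    (hg : ∀ i, (g i).IsWeightedHomogeneous w' (w i)) {H : MvPolynomial σ k} {n : ℕ}
    (hH : H.IsWeightedHomogeneous w n) : (aeval g H).IsWeightedHomogeneous w' n := by
  classical
  rw [H.as_sum, map_sum]
  refine IsWeightedHomogeneous.sum _ _ _ ?_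
  intro m hm
  have hw : Finsupp.weight w m = n := hH (mem_support_iff.1 hm)
  rw [aeval_monomial, ← hw, Finsupp.weight_apply, Finsupp.prod, Finsupp.sum]
  exact (IsWeightedHomogeneous.prod _ _ _ (fun i _ => (hg i).pow (m i))).C_mul _

/-- the embedding of binary forms -/
noncomputable abbrev up : MvPolynomial (Fin 2) k →ₐ[k] MvPolynomial (Fin 3) k :=
  aeval ![X 0, X 1]

/-- restriction to the curve `X 2 = c (X 0, X 1)` -/
noncomputable abbrev res (c : MvPolynomial (Fin 2) k) :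
    MvPolynomial (Fin 3) k →ₐ[k] MvPolynomial (Fin 2) k := aeval ![X 0, X 1, c]

theorem up_wh (q : ℕ) {u : MvPolynomial (Fin 2) k} {n : ℕ} (hu : u.IsHomogeneous n) :
    (up u).IsWeightedHomogeneous ![1, 1, q] n := by
  refine wh_aeval (w := 1) ?_ hu
  intro i
  fin_cases i
  · exact isWeightedHomogeneous_X k ![1, 1, q] 0
  · exact isWeightedHomogeneous_X k ![1, 1, q] 1

theorem res_h {q : ℕ} {c : MvPolynomial (Fin 2) k} (hc : c.IsHomogeneous q)
    {H : MvPolynomial (Fin 3) k} {n : ℕ} (hH : H.IsWeightedHomogeneous ![1, 1, q] n) :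
    (res c H).IsHomogeneous n := by
  refine wh_aeval (w' := 1) ?_ hH
  intro i
  fin_cases i
  · exact isHomogeneous_X k 0
  · exact isHomogeneous_X k 1
  · exact hc

theorem res_up (c u : MvPolynomial (Fin 2) k) : res c (up u) = u := by
  have : (res c).comp up = AlgHom.id k _ := by
    ext i : 1
    fin_cases i <;> simp
  exact AlgHom.congr_fun this u

theorem eval_res (c : MvPolynomial (Fin 2) k) (v : Fin 2 → k) (H : MvPolynomial (Fin 3) k) :
    eval v (res c H) = eval ![v 0, v 1, eval v c] H := by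
  have : (aeval v).comp (res c) = aeval ![v 0, v 1, eval v c] := by
    ext i : 1
    fin_cases i <;> simp
  simpa [MvPolynomial.coe_aeval_eq_eval] using AlgHom.congr_fun this H

/-- division by the line (weighted: `X 2 - c`) with homogeneous quotient -/
theorem split_wh {q : ℕ} {c : MvPolynomial (Fin 2) k} (hc : c.IsHomogeneous q)
    {H : MvPolynomial (Fin 3) k} {J : ℕ} (hH : H.IsWeightedHomogeneous ![1, 1, q] (J + q)) :
    ∃ H' : MvPolynomial (Fin 3) k, H'.IsWeightedHomogeneous ![1, 1, q] J ∧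
      H = up (res c H) + (X 2 - up c) * H' := by
  classical
  induction hH using IsWeightedHomogeneous.induction_on with
  | zero => exact ⟨0, isWeightedHomogeneous_zero _ _ _, by simp⟩
  | add p r hp hr ihp ihr =>
    obtain ⟨p', h1, e1⟩ := ihp
    obtain ⟨r', h2, e2⟩ := ihr
    refine ⟨p' + r', h1.add h2, ?_⟩
    rw [map_add, map_add]
    linear_combination e1 + e2
  | monomial m r hm =>
    have hw : m 0 + m 1 + m 2 * q = J + q := by
      rw [← hm, Finsupp.weight_apply, Finsupp.sum_fintype _ _ (by simp), Fin.sum_univ_three]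
      simp
    have hmon : (monomial m r : MvPolynomial (Fin 3) k) =
        C r * (X 0 ^ m 0 * X 1 ^ m 1 * X 2 ^ m 2) := by
      rw [monomial_eq, Finsupp.prod_fintype _ _ (by simp), Fin.prod_univ_three]
    refine ⟨C r * (X 0 ^ m 0 * X 1 ^ m 1 *
      ∑ i ∈ Finset.range (m 2), X 2 ^ i * (up c) ^ (m 2 - 1 - i)), ?_, ?_⟩
    · refine IsWeightedHomogeneous.C_mul ?_ _
      rw [Finset.mul_sum]
      refine IsWeightedHomogeneous.sum _ _ _ ?_
      intro i hi
      have hi' : i < m 2 := Finset.mem_range.1 hi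
      have h := (((isWeightedHomogeneous_X k ![1, 1, q] 0).pow (m 0)).mul
        ((isWeightedHomogeneous_X k ![1, 1, q] 1).pow (m 1))).mul
        (((isWeightedHomogeneous_X k ![1, 1, q] 2).pow i).mul ((up_wh q hc).pow (m 2 - 1 - i)))
      have e : m 0 • (![1, 1, q] : Fin 3 → ℕ) 0 + m 1 • (![1, 1, q] : Fin 3 → ℕ) 1 +
          (i • (![1, 1, q] : Fin 3 → ℕ) 2 + (m 2 - 1 - i) • q) = J := by
        obtain ⟨j, hj⟩ : ∃ j, m 2 = i + j + 1 := ⟨m 2 - 1 - i, by omega⟩
        have : m 2 - 1 - i = j := by omega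
        rw [this]
        rw [hj] at hw
        simp only [smul_eq_mul, Matrix.cons_val_zero, Matrix.cons_val_one, mul_one,
          Matrix.cons_val]
        nlinarith
      rwa [e] at h
    · have hg := geom_sum₂_mul (X 2 : MvPolynomial (Fin 3) k) (up c) (m 2)
      rw [hmon]
      simp only [map_mul, map_pow, aeval_X, algHom_C, algebraMap_eq, Matrix.cons_val_zero,
        Matrix.cons_val_one, Matrix.cons_val]
      linear_combination (-(C r * (X 0 ^ m 0 * X 1 ^ m 1))) * hg

/-- one step of REDUCE -/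
theorem reduce_step [IsAlgClosed k] {q : ℕ} {c : MvPolynomial (Fin 2) k} (hc : c.IsHomogeneous q)
    {G1 G2 : MvPolynomial (Fin 3) k} {a b : ℕ} (ha : 1 ≤ a) (hb : 1 ≤ b)
    (h1 : G1.IsWeightedHomogeneous ![1, 1, q] a) (h2 : G2.IsWeightedHomogeneous ![1, 1, q] b)
    (hno : ∀ v : Fin 2 → k, v ≠ 0 →
      ¬ (eval ![v 0, v 1, eval v c] G1 = 0 ∧ eval ![v 0, v 1, eval v c] G2 = 0))
    {J : ℕ} (hJ : a + b ≤ J + q + 1) {H : MvPolynomial (Fin 3) k}
    (hH : H.IsWeightedHomogeneous ![1, 1, q] (J + q)) :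
    ∃ H' U1 U2 : MvPolynomial (Fin 3) k, H'.IsWeightedHomogeneous ![1, 1, q] J ∧
      U1.IsWeightedHomogeneous ![1, 1, q] (J + q - a) ∧
      U2.IsWeightedHomogeneous ![1, 1, q] (J + q - b) ∧
      H = (X 2 - up c) * H' + U1 * G1 + U2 * G2 := by
  obtain ⟨u1, u2, q1, q2, e⟩ := binary (res c G1) (res c G2) (res c H) a b (J + q)
    (res_h hc h1) (res_h hc h2) (res_h hc hH) ha hb hJ (by
      intro v hv
      rw [eval_res, eval_res]
      exact hno v hv)
  have w1 := (up_wh q q1).mul h1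
  have w2 := (up_wh q q2).mul h2
  rw [show J + q - a + a = J + q by omega] at w1
  rw [show J + q - b + b = J + q by omega] at w2
  obtain ⟨H', hH', e'⟩ := split_wh hc ((hH.sub w1).sub w2)
  refine ⟨H', up u1, up u2, hH', up_wh q q1, up_wh q q2, ?_⟩
  have z : res c (H - up u1 * G1 - up u2 * G2) = 0 := by
    rw [map_sub, map_sub, map_mul, map_mul, res_up, res_up, e]; ring
  rw [z, map_zero] at e'
  linear_combination e'

/-- REDUCE: `R_(i + n q) = l^n R_i + (G1, G2)` as soon as `a + b ≤ i + q + 1`,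
`l = X 2 - c(X 0, X 1)` missing the common zeros of `G1`, `G2`; weights `(1,1,q)`. -/
theorem reduce [IsAlgClosed k] {q : ℕ} {c : MvPolynomial (Fin 2) k} (hc : c.IsHomogeneous q)
    {G1 G2 : MvPolynomial (Fin 3) k} {a b : ℕ} (ha : 1 ≤ a) (hb : 1 ≤ b)
    (h1 : G1.IsWeightedHomogeneous ![1, 1, q] a) (h2 : G2.IsWeightedHomogeneous ![1, 1, q] b)
    (hno : ∀ v : Fin 2 → k, v ≠ 0 →
      ¬ (eval ![v 0, v 1, eval v c] G1 = 0 ∧ eval ![v 0, v 1, eval v c] G2 = 0))
    {i : ℕ} (hi : a + b ≤ i + q + 1) (n : ℕ) {H : MvPolynomial (Fin 3) k}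
    (hH : H.IsWeightedHomogeneous ![1, 1, q] (i + n * q)) :
    ∃ H0 U1 U2 : MvPolynomial (Fin 3) k, H0.IsWeightedHomogeneous ![1, 1, q] i ∧
      U1.IsWeightedHomogeneous ![1, 1, q] (i + n * q - a) ∧
      U2.IsWeightedHomogeneous ![1, 1, q] (i + n * q - b) ∧
      H = (X 2 - up c) ^ n * H0 + U1 * G1 + U2 * G2 := by
  induction n generalizing H with
  | zero =>
    exact ⟨H, 0, 0, by simpa using hH, isWeightedHomogeneous_zero _ _ _,
      isWeightedHomogeneous_zero _ _ _, by simp⟩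
  | succ n ih =>
    have e0 : i + (n + 1) * q = i + n * q + q := by ring
    rw [e0] at hH ⊢
    obtain ⟨H', U1, U2, hH', w1, w2, e⟩ := reduce_step hc ha hb h1 h2 hno
      (J := i + n * q) (by omega) hH
    have hl : (X 2 - up c : MvPolynomial (Fin 3) k).IsWeightedHomogeneous ![1, 1, q] q :=
      (isWeightedHomogeneous_X k ![1, 1, q] 2).sub (up_wh q hc)
    rcases Nat.eq_zero_or_pos n with rfl | hn
    · exact ⟨H', U1, U2, by simpa using hH', w1, w2, by simpa using e⟩
    obtain ⟨H0, V1, V2, hH0, v1, v2, e'⟩ := ih hH'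
    have hq : q ≤ n * q := Nat.le_mul_of_pos_left q hn
    have v1' := hl.mul v1
    have v2' := hl.mul v2
    rw [show q + (i + n * q - a) = i + n * q + q - a by omega] at v1'
    rw [show q + (i + n * q - b) = i + n * q + q - b by omega] at v2'
    refine ⟨H0, U1 + (X 2 - up c) * V1, U2 + (X 2 - up c) * V2, hH0, w1.add v1', w2.add v2', ?_⟩
    rw [e, e']; ring

end H40R

end PartH39cReduce40

section PartH39cEoVi40

set_option autoImplicit false

open MvPolynomial

namespace H39c.Eo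

universe u

variable {K : Type u} [Field K]

/-- `X i ↦ X i * T ^ w i` -/
noncomputable def vi40S (w : Fin 3 → ℕ) : P3 K →ₐ[K] Polynomial (P3 K) :=
  aeval fun i => Polynomial.C (X i) * Polynomial.X ^ w i

theorem vi40S_wh {w : Fin 3 → ℕ} {g : P3 K} {j : ℕ} (h : g.IsWeightedHomogeneous w j) :
    vi40S w g = Polynomial.C g * Polynomial.X ^ j := by
  induction h using IsWeightedHomogeneous.induction_on with
  | zero => simp
  | add p r _ _ ihp ihr => rw [map_add, ihp, ihr, map_add, add_mul]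
  | monomial d r hd =>
    have hw : d 0 * w 0 + d 1 * w 1 + d 2 * w 2 = j := by
      rw [← hd, Finsupp.weight_apply, Finsupp.sum_fintype _ _ (by simp), Fin.sum_univ_three]
      simp
    rw [monomial_eq, Finsupp.prod_fintype _ _ (by simp), Fin.prod_univ_three, ← hw]
    simp only [vi40S, map_mul, map_pow, aeval_X, algHom_C, Polynomial.algebraMap_apply,
      algebraMap_eq]
    ring

theorem vi40S_coeff (w : Fin 3 → ℕ) (g : P3 K) (j : ℕ) :
    ((vi40S w g).coeff j).IsWeightedHomogeneous w j := by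
  induction g using MvPolynomial.induction_on' with
  | monomial d r =>
    rw [vi40S_wh (isWeightedHomogeneous_monomial w d r rfl), Polynomial.coeff_C_mul_X_pow]
    split_ifs with h
    · exact isWeightedHomogeneous_monomial w d r h.symm
    · exact isWeightedHomogeneous_zero _ _ _
  | add p q hp hq => rw [map_add, Polynomial.coeff_add]; exact hp.add hq

theorem vi40S_one (w : Fin 3 → ℕ) (g : P3 K) : (vi40S w g).eval 1 = g := by
  induction g using MvPolynomial.induction_on with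
  | C r => simp [vi40S]
  | add p q hp hq => rw [map_add, Polynomial.eval_add, hp, hq]
  | mul_X p i hp => rw [map_mul, Polynomial.eval_mul, hp]; simp [vi40S]

theorem vi40_of_deg (w : Fin 3 → ℕ) (g : P3 K)
    (h : (vi40S w g).natTrailingDegree = (vi40S w g).natDegree) :
    g.IsWeightedHomogeneous w (vi40S w g).natDegree := by
  have e : vi40S w g = Polynomial.C ((vi40S w g).coeff (vi40S w g).natDegree) *
      Polynomial.X ^ (vi40S w g).natDegree := by
    ext1 j
    rw [Polynomial.coeff_C_mul_X_pow]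
    split_ifs with hj
    · rw [hj]
    · rcases lt_or_gt_of_ne hj with h1 | h1
      · exact Polynomial.coeff_eq_zero_of_lt_natTrailingDegree (h ▸ h1)
      · exact Polynomial.coeff_eq_zero_of_natDegree_lt h1
  have e1 := vi40S_one w g
  rw [e] at e1
  simp only [Polynomial.eval_mul, Polynomial.eval_C, Polynomial.eval_pow, Polynomial.eval_X,
    one_pow, mul_one] at e1
  have := vi40S_coeff w g (vi40S w g).natDegree
  rwa [e1] at this

theorem vi40_divw (w : Fin 3 → ℕ) {g g' : P3 K} {j : ℕ} (h0 : g * g' ≠ 0)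
    (h : (g * g').IsWeightedHomogeneous w j) :
    ∃ i i', i + i' = j ∧ g.IsWeightedHomogeneous w i ∧ g'.IsWeightedHomogeneous w i' := by
  have ne : ∀ x : P3 K, x ≠ 0 → vi40S w x ≠ 0 := fun x hx hS => by
    have := vi40S_one w x
    rw [hS, Polynomial.eval_zero] at this
    exact hx this.symm
  have n1 := ne g (left_ne_zero_of_mul h0)
  have n2 := ne g' (right_ne_zero_of_mul h0)
  have e := vi40S_wh h
  rw [map_mul] at e
  have d1 := Polynomial.natDegree_mul n1 n2
  have d2 := Polynomial.natTrailingDegree_mul n1 n2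
  rw [e, Polynomial.natDegree_C_mul_X_pow _ _ h0] at d1
  rw [e, Polynomial.C_mul_X_pow_eq_monomial, Polynomial.natTrailingDegree_monomial h0] at d2
  have l1 := (vi40S w g).natTrailingDegree_le_natDegree
  have l2 := (vi40S w g').natTrailingDegree_le_natDegree
  exact ⟨_, _, d1.symm, vi40_of_deg w g (by omega), vi40_of_deg w g' (by omega)⟩

theorem vi40_scale {Q : ℕ} {g : P3 K} {j : ℕ} (h : g.IsWeightedHomogeneous (wt Q) j) (t : K)
    (x y z : K) : eval ![t * x, t * y, t ^ Q * z] g = t ^ j * eval ![x, y, z] g := by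
  induction h using IsWeightedHomogeneous.induction_on with
  | zero => simp
  | add p r _ _ ihp ihr => rw [map_add, map_add, ihp, ihr, mul_add]
  | monomial d r hd =>
    have hw : d 0 + d 1 + d 2 * Q = j := by
      rw [← hd, Finsupp.weight_apply, Finsupp.sum_fintype _ _ (by simp), Fin.sum_univ_three]
      simp [wt]
    rw [eval_monomial, eval_monomial, Finsupp.prod_fintype _ _ (by simp),
      Finsupp.prod_fintype _ _ (by simp), Fin.prod_univ_three, Fin.prod_univ_three, ← hw]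
    simp only [Matrix.cons_val_zero, Matrix.cons_val_one, Matrix.cons_val, mul_pow, ← pow_mul]
    ring

theorem vi40_pos {Q : ℕ} (hQ : 0 < Q) {π : P3 K} {g : ℕ} (hp : Prime π)
    (h : π.IsWeightedHomogeneous (wt Q) g) : 1 ≤ g := by
  by_contra hcon
  have hg : g = 0 := by omega
  subst hg
  have : π = C (coeff 0 π) := by
    rw [← totalDegree_eq_zero_iff_eq_C, totalDegree_eq_zero_iff]
    intro d hd i
    have hw : d 0 + d 1 + d 2 * Q = 0 := by
      rw [← h (mem_support_iff.1 hd), Finsupp.weight_apply,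
        Finsupp.sum_fintype _ _ (by simp), Fin.sum_univ_three]
      simp [wt]
    have : d 2 = 0 := by
      by_contra h2
      have := Nat.mul_pos (Nat.pos_of_ne_zero h2) hQ
      omega
    fin_cases i
    · show d 0 = 0
      omega
    · show d 1 = 0
      omega
    · exact this
  have hc : coeff 0 π ≠ 0 := fun hc => hp.ne_zero (by rw [this, hc, map_zero])
  exact hp.not_isUnit (this ▸ (IsUnit.mk0 _ hc).map C)

/-- elimination of the variable `j` -/
theorem vi40_res {π G : P3 K} (hp : Prime π) (hnd : ¬ π ∣ G) (a b j : Fin 3)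
    (hall : ∀ i, i = a ∨ i = b ∨ i = j) :
    ∃ r : P2 K, r ≠ 0 ∧ ∀ R : Fin 3 → K, eval R π = 0 → eval R G = 0 →
      eval ![R a, R b] r = 0 := by
  let U : P2 K →ₐ[K] P3 K := aeval ![X a, X b]
  let I : Ideal (P3 K) := Ideal.span {π}
  have hI : I.IsPrime := (Ideal.span_singleton_prime hp.ne_zero).2 hp
  let φ : P2 K →+* P3 K ⧸ I := (Ideal.Quotient.mk I).comp U.toRingHom
  let _ : Algebra (P2 K) (P3 K ⧸ I) := φ.toAlgebra
  have hsurj : ∀ g : P3 K, ∃ P : Polynomial (P2 K), P.eval₂ U.toRingHom (X j) = g := by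
    intro g
    induction g using MvPolynomial.induction_on with
    | C r => exact ⟨Polynomial.C (C r), by simp [U]⟩
    | add p q hp hq =>
      obtain ⟨P1, h1⟩ := hp
      obtain ⟨P2, h2⟩ := hq
      exact ⟨P1 + P2, by rw [Polynomial.eval₂_add, h1, h2]⟩
    | mul_X p i hp =>
      obtain ⟨P1, h1⟩ := hp
      rcases hall i with rfl | rfl | rfl
      · exact ⟨P1 * Polynomial.C (X 0), by rw [Polynomial.eval₂_mul, h1]; simp [U]⟩
      · exact ⟨P1 * Polynomial.C (X 1), by rw [Polynomial.eval₂_mul, h1]; simp [U]⟩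
      · exact ⟨P1 * Polynomial.X, by rw [Polynomial.eval₂_mul, h1]; simp⟩
  have hae : ∀ P : Polynomial (P2 K), Polynomial.aeval (Ideal.Quotient.mk I (X j)) P =
      Ideal.Quotient.mk I (P.eval₂ U.toRingHom (X j)) := fun P => by
    rw [Polynomial.hom_eval₂]
    rfl
  have hY : IsAlgebraic (P2 K) (Ideal.Quotient.mk I (X j)) := by
    obtain ⟨P, hP⟩ := hsurj π
    refine ⟨P, ?_, ?_⟩
    · rintro rfl
      exact hp.ne_zero (by simpa using hP.symm)
    · rw [hae, hP]
      exact Ideal.Quotient.eq_zero_iff_mem.2 (Ideal.mem_span_singleton_self π)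
  have hGa : IsAlgebraic (P2 K) (Ideal.Quotient.mk I G) := by
    obtain ⟨P, hP⟩ := hsurj G
    rw [← hP, ← hae]
    clear hP
    induction P using Polynomial.induction_on' with
    | add p q hp hq => rw [map_add]; exact hp.add hq
    | monomial n r =>
      rw [Polynomial.aeval_monomial]
      exact (isAlgebraic_algebraMap r).mul (hY.pow n)
  have hG0 : Ideal.Quotient.mk I G ≠ 0 := fun h =>
    hnd (Ideal.mem_span_singleton.1 (Ideal.Quotient.eq_zero_iff_mem.1 h))
  obtain ⟨r, hr, x, hx⟩ := hGa.exists_nonzero_dvd (mem_nonZeroDivisors_of_ne_zero hG0)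
  obtain ⟨β, rfl⟩ := Ideal.Quotient.mk_surjective x
  have hm : U r - G * β ∈ I := by
    rw [← Ideal.Quotient.eq, map_mul]
    exact hx
  obtain ⟨α, hα⟩ := Ideal.mem_span_singleton.1 hm
  refine ⟨r, hr, fun R h1 h2 => ?_⟩
  have e := congrArg (eval R) hα
  rw [map_sub, map_mul, map_mul, h1, h2, zero_mul, zero_mul, sub_zero] at e
  have : (aeval R).comp U = aeval ![R a, R b] := by
    ext i : 1
    fin_cases i <;> simp [U]
  have := AlgHom.congr_fun this r
  exact this.symm.trans e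

/-- a nonzero polynomial does not vanish on a whole line `(t0, u * Y)` -/
theorem vi40_fin [Infinite K] {r : P2 K} (hr : r ≠ 0) (Q : ℕ) :
    {y : K | ∀ t : K, eval ![t, t ^ Q * y] r = 0}.Finite := by
  obtain ⟨x, hx⟩ : ∃ x : Fin 2 → K, eval x (r * X 0) ≠ 0 := by
    by_contra hcon
    push Not at hcon
    exact mul_ne_zero hr (X_ne_zero 0) (MvPolynomial.funext fun x => by rw [hcon x, map_zero])
  rw [map_mul, eval_X] at hx
  have h0 : x 0 ≠ 0 := right_ne_zero_of_mul hx
  let q : Polynomial K := aeval ![Polynomial.C (x 0), Polynomial.C (x 0 ^ Q) * Polynomial.X] r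
  have hq : ∀ y, q.eval y = eval ![x 0, x 0 ^ Q * y] r := fun y => by
    have : (Polynomial.aeval y).comp
        (aeval ![Polynomial.C (x 0), Polynomial.C (x 0 ^ Q) * Polynomial.X] :
          P2 K →ₐ[K] Polynomial K) = aeval ![x 0, x 0 ^ Q * y] := by
      ext i : 1
      fin_cases i <;> simp
    have := AlgHom.congr_fun this r
    rw [AlgHom.comp_apply, Polynomial.coe_aeval_eq_eval] at this
    exact this
  have q0 : q ≠ 0 := by
    intro h
    have := hq (x 1 / x 0 ^ Q)
    rw [h, Polynomial.eval_zero, mul_div_cancel₀ _ (pow_ne_zero _ h0)] at this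
    have e : (![x 0, x 1] : Fin 2 → K) = x := by
      ext i
      fin_cases i <;> rfl
    rw [e] at this
    exact left_ne_zero_of_mul hx this.symm
  refine (Polynomial.finite_setOfPred_isRoot q0).subset fun y hy => ?_
  show q.eval y = 0
  rw [hq]
  exact hy _

theorem vi40_line [Infinite K] {Q : ℕ} {π G : P3 K} {a b : ℕ} (hp : Prime π) (hnd : ¬ π ∣ G)
    (h1 : π.IsWeightedHomogeneous (wt Q) a) (h2 : G.IsWeightedHomogeneous (wt Q) b) :
    ∃ c : P2 K, c.IsHomogeneous Q ∧ ∀ v : Fin 2 → K, v ≠ 0 →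
      ¬ (eval ![v 0, v 1, eval v c] π = 0 ∧ eval ![v 0, v 1, eval v c] G = 0) := by
  obtain ⟨r1, n1, z1⟩ := vi40_res hp hnd 0 1 2 (by decide)
  obtain ⟨r2, n2, z2⟩ := vi40_res hp hnd 0 2 1 (by decide)
  obtain ⟨r3, n3, z3⟩ := vi40_res hp hnd 1 2 0 (by decide)
  have f1 := vi40_fin n1 1
  have f2 := vi40_fin n2 Q
  have f3 := vi40_fin n3 Q
  obtain ⟨x0, hx0⟩ := f1.exists_notMem
  obtain ⟨l, hl⟩ := ((f1.image2 (fun x y => y / (x - x0) ^ Q) f2).union f3).exists_notMem
  refine ⟨C l * (X 1 - C x0 * X 0) ^ Q, ?_, ?_⟩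
  · have := (((isHomogeneous_X K (1 : Fin 2)).sub
      ((isHomogeneous_X K (0 : Fin 2)).C_mul x0)).pow Q).C_mul l
    rwa [one_mul] at this
  · rintro v hv ⟨e1, e2⟩
    have sc : ∀ t x y z : K, (∃ s, eval ![s * x, s * y, s ^ Q * z] π = 0 ∧
        eval ![s * x, s * y, s ^ Q * z] G = 0 ∧ s ≠ 0) →
        eval ![t * x, t * y, t ^ Q * z] π = 0 ∧ eval ![t * x, t * y, t ^ Q * z] G = 0 := by
      rintro t x y z ⟨s, a1, a2, hs⟩
      rw [vi40_scale h1] at a1 ⊢
      rw [vi40_scale h2] at a2 ⊢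
      rw [(mul_eq_zero.1 a1).resolve_left (pow_ne_zero _ hs),
        (mul_eq_zero.1 a2).resolve_left (pow_ne_zero _ hs)]
      simp
    simp only [map_mul, map_pow, map_sub, eval_C, eval_X] at e1 e2
    apply hl
    by_cases h0 : v 0 = 0
    · right
      have hv1 : v 1 ≠ 0 := by
        intro h
        apply hv
        ext i
        fin_cases i
        exacts [h0, h]
      intro t
      have := sc t 0 1 l ⟨v 1, by simpa [h0, mul_comm] using e1, by simpa [h0, mul_comm] using e2,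
        hv1⟩
      simpa using z3 _ this.1 this.2
    · left
      have ev : (![v 0, v 1, l * (v 1 - x0 * v 0) ^ Q] : Fin 3 → K) =
          ![v 0 * 1, v 0 * (v 1 / v 0), v 0 ^ Q * (l * (v 1 / v 0 - x0) ^ Q)] := by
        have : v 1 - x0 * v 0 = v 0 * (v 1 / v 0 - x0) := by field_simp
        rw [this, mul_pow, mul_one, mul_div_cancel₀ _ h0, mul_left_comm]
      rw [ev] at e1 e2
      have hx : ∀ t : K, eval ![t, t ^ 1 * (v 1 / v 0)] r1 = 0 := fun t => by
        have := sc t _ _ _ ⟨v 0, e1, e2, h0⟩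
        simpa using z1 _ this.1 this.2
      have hy : ∀ t : K, eval ![t, t ^ Q * (l * (v 1 / v 0 - x0) ^ Q)] r2 = 0 := fun t => by
        have := sc t _ _ _ ⟨v 0, e1, e2, h0⟩
        simpa using z2 _ this.1 this.2
      refine ⟨v 1 / v 0, hx, _, hy, ?_⟩
      have : v 1 / v 0 - x0 ≠ 0 := sub_ne_zero.2 fun h => hx0 (h ▸ hx)
      exact mul_div_cancel_right₀ _ (pow_ne_zero _ this)

theorem vi40_X (Q : ℕ) (i : Fin 3) : (X i : P3 K).IsWeightedHomogeneous (wt Q) (wt Q i) :=
  isWeightedHomogeneous_X K (wt Q) i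

theorem vi40_X0 (Q n : ℕ) : (X 0 ^ n : P3 K).IsWeightedHomogeneous (wt Q) n := by
  have := (vi40_X (K := K) Q 0).pow n
  rwa [show n • wt Q 0 = n by simp [wt]] at this

theorem vi40_X1 (Q n : ℕ) : (X 1 ^ n : P3 K).IsWeightedHomogeneous (wt Q) n := by
  have := (vi40_X (K := K) Q 1).pow n
  rwa [show n • wt Q 1 = n by simp [wt]] at this

theorem vi40_sep {Q : ℕ} (hQ : 0 < Q) {R R' : Fin 3 → K} (h0 : R 0 = 1) (h0' : R' 0 = 1)
    (hne : R' ≠ R) : ∃ S : P3 K, S.IsWeightedHomogeneous (wt Q) Q ∧ eval R S ≠ 0 ∧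
      eval R' S = 0 := by
  by_cases h1 : R 1 = R' 1
  · refine ⟨X 2 - C (R' 2) * X 0 ^ Q, (vi40_X Q 2).sub ((vi40_X0 Q Q).C_mul _), ?_,
      by simp [h0']⟩
    simp only [map_sub, map_mul, map_pow, eval_X, eval_C, h0, one_pow, mul_one]
    refine sub_ne_zero.2 fun h2 => hne ?_
    ext i
    fin_cases i
    exacts [h0'.trans h0.symm, h1.symm, h2.symm]
  · refine ⟨(X 1 ^ 1 - C (R' 1) * X 0 ^ 1) * X 0 ^ (Q - 1), ?_, ?_, by simp [h0']⟩
    · have := ((vi40_X1 (K := K) Q 1).sub ((vi40_X0 Q 1).C_mul (R' 1))).mul (vi40_X0 Q (Q - 1))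
      rwa [show 1 + (Q - 1) = Q by omega] at this
    · simpa [h0, sub_eq_zero] using h1

theorem vi40_big {Q : ℕ} (hQ : 0 < Q) (N : Finset (Fin 3 → K)) (h0 : ∀ R ∈ N, R 0 = 1) :
    Interp Q N (N.card * Q) := by
  classical
  induction N using Finset.induction_on with
  | empty => exact fun i _ val => ⟨0, isWeightedHomogeneous_zero _ _ _, by simp⟩
  | insert R N hR ih =>
    intro i hi val
    rw [Finset.card_insert_of_notMem hR, Nat.succ_mul] at hi
    obtain ⟨A, hA, eA⟩ := ih (fun R' h => h0 R' (Finset.mem_insert_of_mem h)) i (by omega) val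
    have hs : ∀ R' : N, ∃ S : P3 K, S.IsWeightedHomogeneous (wt Q) Q ∧ eval R S ≠ 0 ∧
        eval R'.1 S = 0 := fun R' => vi40_sep hQ (h0 R (Finset.mem_insert_self _ _))
          (h0 _ (Finset.mem_insert_of_mem R'.2)) (fun h => hR (h ▸ R'.2))
    choose S s1 s2 s3 using hs
    have hP : (∏ R' : N, S R').IsWeightedHomogeneous (wt Q) (N.card * Q) := by
      have := IsWeightedHomogeneous.prod Finset.univ S (fun _ => Q) (fun R' _ => s1 R')
      simpa using this
    have hP0 : eval R (∏ R' : N, S R') ≠ 0 := by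
      rw [map_prod]
      exact Finset.prod_ne_zero_iff.2 fun R' _ => s2 R'
    refine ⟨A + C ((val R - eval R A) / eval R (∏ R' : N, S R')) *
      ((∏ R' : N, S R') * X 0 ^ (i - N.card * Q)), hA.add (IsWeightedHomogeneous.C_mul ?_ _), ?_⟩
    · have := hP.mul (vi40_X0 Q (i - N.card * Q))
      rwa [show N.card * Q + (i - N.card * Q) = i by omega] at this
    · intro R' hR'
      rcases Finset.mem_insert.1 hR' with rfl | hR'
      · rw [map_add, map_mul, map_mul, eval_C, map_pow, eval_X,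
          h0 _ (Finset.mem_insert_self _ _), one_pow, mul_one, div_mul_cancel₀ _ hP0]
        ring
      · have : eval R' (∏ R' : N, S R') = 0 := by
          rw [map_prod]
          exact Finset.prod_eq_zero (Finset.mem_univ ⟨R', hR'⟩) (s3 ⟨R', hR'⟩)
        rw [map_add, map_mul, map_mul, this, eA R' hR']
        ring

theorem vi40_intp [IsAlgClosed K] {Q : ℕ} (hQ : 0 < Q) {π G : P3 K} {a b : ℕ} (hp : Prime π)
    (hnd : ¬ π ∣ G) (h1 : π.IsWeightedHomogeneous (wt Q) a)
    (h2 : G.IsWeightedHomogeneous (wt Q) b) (hb : 1 ≤ b) (N : Finset (Fin 3 → K))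
    (hN : ∀ R ∈ N, R 0 = 1 ∧ eval R π = 0 ∧ eval R G = 0) : Interp Q N (a + b) := by
  obtain ⟨c, hc, hno⟩ := vi40_line hp hnd h1 h2
  intro i hi val
  obtain ⟨H, hH, eH⟩ := vi40_big hQ N (fun R h => (hN R h).1) (i + N.card * Q) (by omega)
    (fun R => eval R (X 2 - H40R.up c) ^ N.card * val R)
  obtain ⟨H0, U1, U2, hH0, -, -, e⟩ := H40R.reduce hc (vi40_pos hQ hp h1) hb h1 h2 hno
    (i := i) (by omega) N.card hH
  refine ⟨H0, hH0, fun R hR => ?_⟩
  obtain ⟨r0, r1, r2⟩ := hN R hR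
  have hl : eval R (X 2 - H40R.up c : P3 K) ≠ 0 := by
    intro hl
    have e1 : eval R (H40R.up c : P3 K) = eval ![R 0, R 1] c := by
      have : (aeval R).comp (H40R.up : P2 K →ₐ[K] P3 K) = aeval ![R 0, R 1] := by
        ext j : 1
        fin_cases j <;> simp
      exact AlgHom.congr_fun this c
    rw [map_sub, eval_X, e1, sub_eq_zero] at hl
    have e2 : (![R 0, R 1, eval ![R 0, R 1] c] : Fin 3 → K) = R := by
      ext j
      fin_cases j
      exacts [rfl, rfl, hl.symm]
    refine hno ![R 0, R 1] (fun h => ?_) ?_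
    · have := congrFun h 0
      simp [r0] at this
    · simp only [Matrix.cons_val_zero, Matrix.cons_val_one]
      rw [e2]
      exact ⟨r1, r2⟩
  have := eH R hR
  rw [e, map_add, map_add, map_mul, map_mul, map_mul, r1, r2, map_pow, mul_zero, mul_zero,
    add_zero, add_zero] at this
  exact mul_left_cancel₀ (pow_ne_zero _ hl) this

theorem vi40_cnt {Q : ℕ} (hQ : 0 < Q) {π : P3 K} {g : ℕ} (h : ℕ) (h0 : π ≠ 0)
    (hπ : π.IsWeightedHomogeneous (wt Q) g) (T : Finset (Fin 3 → K))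
    (hT : T.card < g * (h + 1)) :
    ∃ G : P3 K, G.IsWeightedHomogeneous (wt Q) (g + h * Q) ∧ ¬ π ∣ G ∧ ∀ R ∈ T, eval R G = 0 := by
  classical
  by_contra hcon
  push Not at hcon
  let V' := weightedHomogeneousSubmodule K (wt Q) (h * Q)
  have : Module.Finite K V' := Module.Finite.iff_fg.2
    (weightedHomogeneousSubmodule_fg K (wt Q) (fun i => by fin_cases i <;> simp [wt]; omega) _)
  let mo : Fin g × Fin (h + 1) → (Fin 3 →₀ ℕ) := fun sj => Finsupp.single 0 (sj.1 : ℕ) +
    Finsupp.single 1 (g + h * Q - sj.1 - sj.2 * Q) + Finsupp.single 2 (sj.2 : ℕ)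
  let B : (Fin g × Fin (h + 1) → K) →ₗ[K] P3 K :=
    ∑ sj, (monomial (mo sj)).comp (LinearMap.proj sj)
  have hB : ∀ c, B c = ∑ sj, monomial (mo sj) (c sj) := fun c => by
    simp [B, LinearMap.sum_apply]
  let Φ : ((Fin g × Fin (h + 1) → K) × V') →ₗ[K] P3 K :=
    B.coprod ((LinearMap.mulLeft K (X 0 ^ g)).comp V'.subtype)
  have hΦ : ∀ c v, Φ (c, v) = B c + X 0 ^ g * v.1 := fun _ _ => rfl
  have hw : ∀ x, (Φ x).IsWeightedHomogeneous (wt Q) (g + h * Q) := by
    rintro ⟨c, v⟩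
    rw [hΦ, hB]
    refine IsWeightedHomogeneous.add (IsWeightedHomogeneous.sum _ _ _ fun sj _ => ?_)
      ((vi40_X0 Q g).mul v.2)
    refine isWeightedHomogeneous_monomial _ _ _ ?_
    have h1 : (sj.2 : ℕ) * Q ≤ h * Q := Nat.mul_le_mul_right _ (by omega)
    have h2 := sj.1.2
    simp only [mo, map_add, Finsupp.weight_single, wt, smul_eq_mul, Matrix.cons_val_zero,
      Matrix.cons_val_one, Matrix.cons_val, mul_one]
    omega
  have hinj : Function.Injective Φ := by
    rw [injective_iff_map_eq_zero]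
    rintro ⟨c, v⟩ hx
    rw [hΦ] at hx
    have hc : c = 0 := by
      ext sj
      have := congrArg (coeff (mo sj)) hx
      rw [coeff_add, hB, coeff_sum, Finset.sum_eq_single sj, coeff_monomial, if_pos rfl,
        X_pow_eq_monomial, coeff_monomial_mul', if_neg] at this
      · simpa using this
      · intro hle
        have := hle 0
        have h2 := sj.1.2
        simp [mo] at this
        omega
      · intro sj' _ hne
        rw [coeff_monomial, if_neg]
        intro he
        apply hne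
        have a0 := DFunLike.congr_fun he 0
        have a2 := DFunLike.congr_fun he 2
        simp [mo] at a0 a2
        exact Prod.ext (Fin.ext a0) (Fin.ext a2)
      · simp
    subst hc
    rw [map_zero, zero_add] at hx
    have : v.1 = 0 := (mul_eq_zero.1 hx).resolve_left (pow_ne_zero _ (X_ne_zero 0))
    exact Prod.ext rfl (Subtype.ext this)
  let ev : P3 K →ₗ[K] (T → K) := LinearMap.pi fun R => (aeval R.1 : P3 K →ₐ[K] K).toLinearMap
  let M : V' →ₗ[K] P3 K := (LinearMap.mulLeft K π).comp V'.subtype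
  have hle : (LinearMap.ker (ev.comp Φ)).map Φ ≤ LinearMap.range M := by
    rintro _ ⟨x, hx, rfl⟩
    have hv : ∀ R ∈ T, eval R (Φ x) = 0 := fun R hR => congrFun (LinearMap.mem_ker.1 hx) ⟨R, hR⟩
    have hd : π ∣ Φ x := by
      by_contra hd
      obtain ⟨R, hR, hne⟩ := hcon _ (hw x) hd
      exact hne (hv R hR)
    obtain ⟨G', hG'⟩ := hd
    by_cases hz : Φ x = 0
    · rw [hz]
      exact Submodule.zero_mem _
    · obtain ⟨i, i', hi, a1, a2⟩ := vi40_divw (wt Q) (hG' ▸ hz) (hG' ▸ hw x)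
      have : i = g := IsWeightedHomogeneous.inj_right h0 a1 hπ
      have : i' = h * Q := by omega
      subst this
      exact ⟨⟨G', a2⟩, hG'.symm⟩
  have c1 := Submodule.finrank_mono hle
  have c2 := LinearMap.finrank_range_le M
  have c3 := (Submodule.equivMapOfInjective Φ hinj (LinearMap.ker (ev.comp Φ))).finrank_eq
  have c4 := (ev.comp Φ).finrank_range_add_finrank_ker
  have c5 := (LinearMap.range (ev.comp Φ)).finrank_le
  simp only [Module.finrank_prod, Module.finrank_fintype_fun_eq_card, Fintype.card_prod,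
    Fintype.card_fin, Fintype.card_coe] at c4 c5
  omega

open Classical in
theorem vi40_horace [IsAlgClosed K] {Q : ℕ} (hQ : 0 < Q) (h : ℕ) (Γ : P3 K) (h0 : Γ ≠ 0) :
    ∀ (γ : ℕ) (N : Finset (Fin 3 → K)), Γ.IsWeightedHomogeneous (wt Q) γ →
      (∀ R ∈ N, R 0 = 1 ∧ eval R Γ = 0) →
      (∀ (π : P3 K) (g : ℕ), Prime π → π ∣ Γ → π.IsWeightedHomogeneous (wt Q) g →
        (N.filter fun R => eval R π = 0).card < g * (h + 1)) →
      Interp Q N (2 * γ + h * Q) := by
  induction Γ using UniqueFactorizationMonoid.induction_on_prime with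
  | h₁ => exact absurd rfl h0
  | h₂ x hx =>
    intro γ N _ hN _ i _ val
    refine ⟨0, isWeightedHomogeneous_zero _ _ _, fun R hR => ?_⟩
    exact absurd (hN R hR).2 (hx.map (eval R)).ne_zero
  | h₃ a π ha hp ih =>
    intro γ N hw hN hc i hi val
    obtain ⟨g, γ', hg, wπ, wa⟩ := vi40_divw (wt Q) h0 hw
    have g1 := vi40_pos hQ hp wπ
    obtain ⟨G, wG, nd, vG⟩ := vi40_cnt hQ h hp.ne_zero wπ _ (hc π g hp (dvd_mul_right _ _) wπ)
    obtain ⟨A1, w1, e1⟩ := vi40_intp hQ hp nd wπ wG (by omega) (N.filter fun R => eval R π = 0)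
      (fun R hR => ⟨(hN R (Finset.mem_filter.1 hR).1).1, (Finset.mem_filter.1 hR).2, vG R hR⟩)
      i (by omega) val
    obtain ⟨A2, w2, e2⟩ := ih ha γ' (N.filter fun R => eval R π ≠ 0) wa
      (fun R hR => by
        obtain ⟨m, hne⟩ := Finset.mem_filter.1 hR
        have := (hN R m).2
        rw [map_mul] at this
        exact ⟨(hN R m).1, (mul_eq_zero.1 this).resolve_left hne⟩)
      (fun π' g' hp' hd' w' => lt_of_le_of_lt
        (Finset.card_le_card (Finset.filter_subset_filter _ (Finset.filter_subset _ _)))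
        (hc π' g' hp' (hd'.mul_left _) w'))
      (i - g) (by omega) (fun R => (val R - eval R A1) / eval R π)
    refine ⟨A1 + π * A2, w1.add ?_, fun R hR => ?_⟩
    · have := wπ.mul w2
      rwa [show g + (i - g) = i by omega] at this
    · rw [map_add, map_mul]
      by_cases hz : eval R π = 0
      · rw [hz, zero_mul, add_zero, e1 R (Finset.mem_filter.2 ⟨hR, hz⟩)]
      · rw [e2 R (Finset.mem_filter.2 ⟨hR, hz⟩), mul_div_cancel₀ _ hz]
        ring

theorem eo_vi : VI_s.{u} := by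
  intro K _ _ p _ I m Q a F Γ n' γ n c hP hN hz
  classical
  have hQ : 0 < Q := by
    obtain ⟨i, rfl⟩ := hP.hQ
    exact pow_pos (Fact.out : p.Prime).pos _
  have nF : ¬ F ∣ Γ := fun h => hN.notin ((hP.ker Γ).2 h)
  have Γ0 : Γ ≠ 0 := fun h => nF (h ▸ dvd_zero F)
  have fin : {v | v ∈ V I ∧ eval v (a 0) = 1 ∧ eval (val3 a v) Γ = 0}.Finite := by
    by_contra hinf
    obtain ⟨T, hT, hc⟩ := Set.Infinite.exists_subset_card_eq hinf (n * γ + c + 1)
    have := hz Γ γ hN.hΓ nF T fun v hv => hT hv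
    omega
  have fin2 : {R | ∃ v v', Node I a v v' ∧ eval v (a 0) = 1 ∧ R = val3 a v}.Finite := by
    refine (fin.image (val3 a)).subset ?_
    rintro R ⟨v, v', h1, h2, rfl⟩
    exact ⟨v, ⟨h1.1, h2, hN.van v v' h1⟩, rfl⟩
  refine ⟨fin2.toFinset, 2 * γ + (n + c) / 2 * Q, fun R => fin2.mem_toFinset, by nlinarith, ?_⟩
  refine vi40_horace hQ _ Γ Γ0 γ _ hN.hΓ ?_ ?_
  · intro R hR
    obtain ⟨v, v', h1, h2, rfl⟩ := fin2.mem_toFinset.1 hR
    exact ⟨h2, hN.van v v' h1⟩
  · intro π g hp hd hw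
    have g1 := vi40_pos hQ hp hw
    set N1 := fin2.toFinset.filter fun R => eval R π = 0 with hN1
    have ex : ∀ R : N1, ∃ v v', Node I a v v' ∧ eval v (a 0) = 1 ∧ R.1 = val3 a v := fun R =>
      fin2.mem_toFinset.1 (Finset.mem_filter.1 R.2).1
    choose v v' n1 n2 n3 using ex
    let f : N1 ⊕ N1 → (Fin 4 → K) := Sum.elim v v'
    have n3' : ∀ R : N1, R.1 = val3 a (v' R) := fun R => (n3 R).trans (n1 R).2.2.2
    have hf : Function.Injective f := by
      rintro (R | R) (R' | R') he <;> simp only [f, Sum.elim_inl, Sum.elim_inr] at he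
      · rw [Subtype.ext ((n3 R).trans (he ▸ (n3 R').symm))]
      · have : R = R' := Subtype.ext ((n3 R).trans (he ▸ (n3' R').symm))
        exact absurd (this ▸ he) (n1 R').2.2.1
      · have : R = R' := Subtype.ext ((n3' R).trans (he ▸ (n3 R').symm))
        exact absurd (this ▸ he).symm (n1 R').2.2.1
      · rw [Subtype.ext ((n3' R).trans (he ▸ (n3' R').symm))]
    have hc := hz π g hw (fun h => nF (h.trans hd)) (Finset.univ.image f) (by
      intro w hw
      obtain ⟨x, -, rfl⟩ := Finset.mem_image.1 hw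
      rcases x with R | R
      · exact ⟨(n1 R).1, n2 R, (n3 R) ▸ (Finset.mem_filter.1 R.2).2⟩
      · exact ⟨(n1 R).2.1, (congrFun (n1 R).2.2.2 0).symm.trans (n2 R),
          (n3' R) ▸ (Finset.mem_filter.1 R.2).2⟩)
    rw [Finset.card_image_of_injective _ hf, Finset.card_univ, Fintype.card_sum,
      Fintype.card_coe] at hc
    have h2 : n + c + 1 ≤ 2 * ((n + c) / 2 + 1) := by omega
    nlinarith

end H39c.Eo

end PartH39cEoVi40
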