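import Pool.Agent.MP_b04567_ag.Cp.NA

section PartH39cNLoc

set_option autoImplicit false

open MvPolynomial

namespace H39c

universe u

theorem nloc_scale {R S σ : Type*} [CommRing R] [CommRing S] [Algebra R S]
    (h : MvPolynomial σ R) (d : ℕ) (hh : h.IsHomogeneous d) (μ : S) (v : σ → S) :
    aeval (fun i => μ * v i) h = μ ^ d * aeval v h := by
  classical
  conv_lhs => rw [h.as_sum]
  conv_rhs => rw [h.as_sum]
  rw [map_sum, map_sum, Finset.mul_sum]
  refine Finset.sum_congr rfl fun s hs => ?_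
  rw [aeval_monomial, aeval_monomial, hh.degree_eq_sum_deg_support hs, Finsupp.prod, Finsupp.prod]
  simp only [mul_pow]
  rw [Finset.prod_mul_distrib, Finset.prod_pow_eq_pow_sum]
  ring

theorem nloc_form_mul {K : Type u} [CommRing K] {g h : P4 K} (hg : Form g) (hh : Form h) :
    Form (g * h) := by
  obtain ⟨a, ha⟩ := hg
  obtain ⟨b, hb⟩ := hh
  exact ⟨a + b, ha.mul hb⟩

theorem nloc_dd_zero {k : Type u} [Field k] {ξ : Fin 4 → PowerSeries k} {D c : ℕ} {δ : P4 k}
    (hG : Good ξ D c δ) {Ω : Type u} [Field Ω] [Algebra k Ω] {v W : Fin 4 → Ω}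
    (hW : TanAt ξ v W) {f : P4 Ω} (hf : f ∈ idl ξ Ω) : dd v W f = 0 := by
  have := hG.ev Ω (DualNumber Ω) (dp v W) hW.2.2 f hf
  rw [dd, this, TrivSqZeroExt.snd_zero]

theorem nloc_par {k : Type u} [Field k] {ξ : Fin 4 → PowerSeries k} {D c : ℕ} {δ : P4 k}
    (hG : Good ξ D c δ) {Ω : Type u} [Field Ω] [Algebra k Ω] {v : Fin 4 → Ω}
    (hsc : ∀ μ : Ω, (fun i => μ * v i) ∈ V (idl ξ Ω)) (h0 : v 0 ≠ 0) (hδ : aeval v δ ≠ 0)
    (g : P4 Ω) (hg : Form g) (hgv : eval v g = 0) :
    ∃ h1 h2 : P4 Ω, Form h1 ∧ Form h2 ∧ eval v h1 ≠ 0 ∧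
      h1 * g - h2 * (X 3 - C ((v 0)⁻¹ * v 3) * X 0) ∈ idl ξ Ω := by
  have hu : (fun i => (v 0)⁻¹ * v i) ∈ cone ξ Ω := by
    rw [hG.coneV Ω]
    exact hsc _
  obtain ⟨dδ, hdδ⟩ := hG.δbin.1
  obtain ⟨dg, hdg⟩ := hg
  obtain ⟨h1, h2, f1, f2, hne, hI⟩ := hG.loc Ω _ hu (inv_mul_cancel₀ h0)
    (by
      rw [nloc_scale δ dδ hdδ]
      exact mul_ne_zero (pow_ne_zero _ (inv_ne_zero h0)) hδ) g ⟨dg, hdg⟩
    (by
      rw [← aeval_eq_eval, nloc_scale g dg hdg, aeval_eq_eval, hgv, mul_zero])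
  refine ⟨h1, h2, f1, f2, fun h => hne ?_, hI⟩
  obtain ⟨d1, hd1⟩ := f1
  rw [← aeval_eq_eval, nloc_scale h1 d1 hd1, aeval_eq_eval, h, mul_zero]

theorem nloc_one (hD : DUAL_s.{u}) {k : Type u} [Field k] {ξ : Fin 4 → PowerSeries k} {D c : ℕ}
    {δ : P4 k} (hG : Good ξ D c δ) {Ω : Type u} [Field Ω] [Algebra k Ω] {v W : Fin 4 → Ω}
    (hsc : ∀ μ : Ω, (fun i => μ * v i) ∈ V (idl ξ Ω)) (h0 : v 0 ≠ 0) (hδ : aeval v δ ≠ 0)
    (hW : TanAt ξ v W) (Γ : P4 Ω) (hΓ : Form Γ) (hΓv : eval v Γ = 0) (hΓd : dd v W Γ ≠ 0)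
    (g : P4 Ω) (hg : Form g) (hgv : eval v g = 0) :
    ∃ h1 h2 : P4 Ω, Form h1 ∧ Form h2 ∧ eval v h1 ≠ 0 ∧ h1 * g - h2 * Γ ∈ idl ξ Ω ∧
      eval v h1 * dd v W g = eval v h2 * dd v W Γ := by
  obtain ⟨-, -, -, hsub, hmul, hC, hX, -⟩ := hD Ω 4 v W
  obtain ⟨k1, k2, g1, g2, hk, hkI⟩ := nloc_par hG hsc h0 hδ Γ hΓ hΓv
  obtain ⟨h1, h2, f1, f2, hh, hhI⟩ := nloc_par hG hsc h0 hδ g hg hgv
  have hl : eval v (X 3 - C ((v 0)⁻¹ * v 3) * X 0 : P4 Ω) = 0 := by
    rw [map_sub, map_mul, eval_C, eval_X, eval_X, mul_right_comm, inv_mul_cancel₀ h0, one_mul,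
      sub_self]
  have hk2 : eval v k2 ≠ 0 := by
    intro h
    have := nloc_dd_zero hG hW hkI
    rw [hsub, hmul, hmul, hΓv, hl, h, mul_zero, mul_zero, zero_mul, add_zero, sub_zero,
      zero_add] at this
    exact mul_ne_zero hk hΓd this
  have hI : k2 * h1 * g - h2 * k1 * Γ ∈ idl ξ Ω := by
    have : k2 * h1 * g - h2 * k1 * Γ = k2 * (h1 * g - h2 * (X 3 - C ((v 0)⁻¹ * v 3) * X 0)) -
        h2 * (k1 * Γ - k2 * (X 3 - C ((v 0)⁻¹ * v 3) * X 0)) := by ring
    rw [this]
    exact Ideal.sub_mem _ (Ideal.mul_mem_left _ _ hhI) (Ideal.mul_mem_left _ _ hkI)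
  refine ⟨k2 * h1, h2 * k1, nloc_form_mul g2 f1, nloc_form_mul f2 g1, ?_, hI, ?_⟩
  · rw [map_mul]
    exact mul_ne_zero hk2 hh
  · have := nloc_dd_zero hG hW hI
    rw [hsub, hmul (k2 * h1), hmul (h2 * k1), hgv, hΓv, mul_zero, mul_zero, zero_add, zero_add,
      sub_eq_zero] at this
    exact this

theorem n_loc (hD : DUAL_s.{u}) (hN : NCZ_s.{u}) : LOC_s.{u} := by
  intro k _ _ p _ _ ξ D c δ Ω _ _ _ e m Q a e0 dG s0 y0 G hG hDat Γ γ hΓ
  obtain ⟨hhom, -, -, -, hsc, -⟩ := hN k p ξ D c δ Ω e m Q a e0 dG s0 y0 G hG hDat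
  have : CharP Ω p := charP_of_injective_algebraMap (algebraMap k Ω).injective p
  obtain ⟨iQ, hQ⟩ := hDat.hQ
  have hform : ∀ (f : P3 Ω) (j : ℕ), f.IsWeightedHomogeneous (wt Q) j →
      Form (aeval (tr e m s0 y0 G) f) := fun f j hf =>
    ⟨m * j, mv_aeval_hom (wt Q) (1 : Fin 4 → ℕ) m _ hhom hf⟩
  have hev : ∀ (v : Fin 4 → Ω) (f : P3 Ω),
      eval v (aeval (tr e m s0 y0 G) f) = eval (val3 (tr e m s0 y0 G) v) f := fun v f =>
    H33s.eval_aeval' _ v f
  refine ⟨fun v W hv h0 hδ hW hΓv hΓd g hg hgv => ?_,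
    fun v W v' W' hnode h0 h0' hδ hδ' hW hW' hΓv hΓd hΓd' hs hz hdz hdz' hJ => ?_⟩
  · obtain ⟨h1, h2, f1, f2, hne, hI, -⟩ := nloc_one hD hG (hsc v hv) h0 hδ hW _ (hform Γ γ hΓ)
      (by rw [hev, hΓv]) hΓd g hg hgv
    exact ⟨h1, h2, f1, f2, hne, hI⟩
  · obtain ⟨hv, hv', -, hval⟩ := hnode
    have key : ∀ (ε : P3 Ω) (j : ℕ), ε.IsWeightedHomogeneous (wt Q) j →
        eval (val3 (tr e m s0 y0 G) v) ε = 0 →
        dd v W (aeval (tr e m s0 y0 G) ε) * dd v' W' (aeval (tr e m s0 y0 G) Γ) ≠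
          dd v' W' (aeval (tr e m s0 y0 G) ε) * dd v W (aeval (tr e m s0 y0 G) Γ) →
        ∃ (ε : P3 Ω) (j : ℕ) (h1 h2 h1' h2' : P4 Ω),
          ε.IsWeightedHomogeneous (wt Q) j ∧ eval v h1 ≠ 0 ∧ eval v' h1' ≠ 0 ∧
          h1 * aeval (tr e m s0 y0 G) ε - h2 * aeval (tr e m s0 y0 G) Γ ∈ idl ξ Ω ∧
          h1' * aeval (tr e m s0 y0 G) ε - h2' * aeval (tr e m s0 y0 G) Γ ∈ idl ξ Ω ∧
          eval v h2 * eval v' h1' ≠ eval v' h2' * eval v h1 := by
      intro ε j hε hεv hne
      obtain ⟨h1, h2, -, -, a1, b1, c1⟩ := nloc_one hD hG (hsc v hv) h0 hδ hW _ (hform Γ γ hΓ)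
        (by rw [hev, hΓv]) hΓd _ (hform ε j hε) (by rw [hev, hεv])
      obtain ⟨h1', h2', -, -, a2, b2, c2⟩ := nloc_one hD hG (hsc v' hv') h0' hδ' hW' _
        (hform Γ γ hΓ) (by rw [hev, ← hval, hΓv]) hΓd' _ (hform ε j hε)
        (by rw [hev, ← hval, hεv])
      refine ⟨ε, j, h1, h2, h1', h2', hε, a1, a2, b1, b2, fun h => hne ?_⟩
      apply mul_left_cancel₀ (mul_ne_zero a1 a2)
      linear_combination
        (eval v' h1' * dd v' W' (aeval (tr e m s0 y0 G) Γ)) * c1 -
        (eval v h1 * dd v W (aeval (tr e m s0 y0 G) Γ)) * c2 +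
        (dd v W (aeval (tr e m s0 y0 G) Γ) * dd v' W' (aeval (tr e m s0 y0 G) Γ)) * h
    obtain ⟨-, -, -, hsub, hmul, hC, -, hp, -⟩ := hD Ω 4 v W
    obtain ⟨-, -, -, hsub', hmul', hC', -, hp', -⟩ := hD Ω 4 v' W'
    by_cases hA : dd v W (tr e m s0 y0 G 0) * dd v' W' (aeval (tr e m s0 y0 G) Γ) =
        dd v' W' (tr e m s0 y0 G 0) * dd v W (aeval (tr e m s0 y0 G) Γ)
    · refine key (C (eval v (tr e m s0 y0 G 0) ^ Q) * X 2 -
        C (eval v (tr e m s0 y0 G 2)) * X 0 ^ Q) Q ?_ ?_ ?_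
      · refine IsWeightedHomogeneous.sub ((isWeightedHomogeneous_X Ω (wt Q) 2).C_mul _) ?_
        have := ((isWeightedHomogeneous_X Ω (wt Q) 0).pow Q).C_mul (eval v (tr e m s0 y0 G 2))
        simpa [wt] using this
      · simp only [map_sub, map_mul, map_pow, eval_C, eval_X, val3]
        ring
      · simp only [map_sub, map_mul, aeval_C, aeval_X, algebraMap_eq]
        rw [map_pow (aeval (tr e m s0 y0 G)), aeval_X, hsub, hsub', hmul, hmul, hmul', hmul', hC,
          hC, hC', hC', eval_C, eval_C, eval_C, eval_C]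
        have z1 : dd v W (tr e m s0 y0 G 0 ^ Q) = 0 := by
          rw [hQ]
          exact hp p iQ _
        have z2 : dd v' W' (tr e m s0 y0 G 0 ^ Q) = 0 := by
          rw [hQ]
          exact hp' p iQ _
        rw [z1, z2]
        intro h
        apply hJ
        apply mul_left_cancel₀ (mul_ne_zero (pow_ne_zero Q hs) hΓd)
        linear_combination
          (-(dd v W (tr e m s0 y0 G 0))) * h +
          (eval v (tr e m s0 y0 G 0) ^ Q * dd v W (tr e m s0 y0 G 2)) * hA
    · refine key (C (eval v (tr e m s0 y0 G 0)) * X 1 - C (eval v (tr e m s0 y0 G 1)) * X 0) 1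
        ?_ ?_ ?_
      · exact IsWeightedHomogeneous.sub ((isWeightedHomogeneous_X Ω (wt Q) 1).C_mul _)
          ((isWeightedHomogeneous_X Ω (wt Q) 0).C_mul _)
      · simp only [map_sub, map_mul, eval_C, eval_X, val3]
        ring
      · simp only [map_sub, map_mul, aeval_C, aeval_X, algebraMap_eq]
        rw [hsub, hsub', hmul, hmul, hmul', hmul', hC, hC, hC', hC', eval_C, eval_C, eval_C,
          eval_C, hdz, hdz']
        intro h
        apply hA
        apply mul_left_cancel₀ hz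
        linear_combination -h

end H39c

end PartH39cNLoc

section PartH39cNNcz

set_option autoImplicit false
set_option linter.unusedVariables false

open MvPolynomial

namespace H39c

universe u

theorem nncz_smul {K : Type u} [CommRing K] {h : P4 K} {d : ℕ} (hh : h.IsHomogeneous d)
    (μ : K) (v : Fin 4 → K) : eval (fun i => μ * v i) h = μ ^ d * eval v h := by
  rw [eval_eq', eval_eq', Finset.mul_sum]
  refine Finset.sum_congr rfl fun s hs => ?_
  have h1 : ∑ i, s i = d := by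
    have h2 := hh (mem_support_iff.1 hs)
    rw [← h2, Finsupp.weight_apply, Finsupp.sum_fintype _ _ (by simp)]
    simp
  simp only [mul_pow, Finset.prod_mul_distrib, Finset.prod_pow_eq_pow_sum, h1]
  ring

theorem nncz_ev {k Ω : Type u} [Field k] [Field Ω] [Algebra k Ω] (v : Fin 4 → Ω) (h : P4 k) :
    eval v (MvPolynomial.map (algebraMap k Ω) h) = aeval v h := by
  rw [eval_map, aeval_def]

theorem nncz_asmul {k Ω : Type u} [Field k] [Field Ω] [Algebra k Ω] {h : P4 k} {d : ℕ}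
    (hh : h.IsHomogeneous d) (μ : Ω) (v : Fin 4 → Ω) :
    aeval (fun i => μ * v i) h = μ ^ d * aeval v h := by
  rw [← nncz_ev, ← nncz_ev, nncz_smul (hh.map _)]

theorem nncz_cone {k Ω : Type u} [Field k] [Field Ω] [Algebra k Ω] {ξ : Fin 4 → PowerSeries k}
    {v : Fin 4 → Ω} (hv : v ∈ cone ξ Ω) (μ : Ω) : (fun i => μ * v i) ∈ cone ξ Ω := by
  rintro h ⟨d, hd⟩ h0
  rw [nncz_asmul hd, hv h ⟨d, hd⟩ h0, mul_zero]

theorem nncz_P1 {k : Type u} [Field k] (ξ : Fin 4 → PowerSeries k) : P1 ξ ∈ cone ξ k := by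
  intro h _ h0
  have h1 : ∀ g : P4 k, aeval (P1 ξ) g = PowerSeries.constantCoeff (aeval ξ g : PowerSeries k) := by
    intro g
    induction g using MvPolynomial.induction_on with
    | C r => simp
    | add f g hf hg => simp only [map_add, hf, hg]
    | mul_X f i hf => simp only [map_mul, hf, aeval_X, P1]
  rw [h1, h0, map_zero]

theorem nncz_mem {k Ω : Type u} [Field k] [Field Ω] [Algebra k Ω] (L : IntermediateField k Ω)
    {v : Fin 4 → Ω} (hv : ∀ i, v i ∈ L) (h : P4 k) : aeval v h ∈ L := by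
  induction h using MvPolynomial.induction_on with
  | C r => rw [aeval_C]; exact L.algebraMap_mem r
  | add f g hf hg => rw [map_add]; exact add_mem hf hg
  | mul_X f i hf => rw [map_mul, aeval_X]; exact mul_mem hf (hv i)

theorem nncz_cub (K : Type u) [CommRing K] (i : Fin 5) : (cub K i).IsHomogeneous 3 := by
  have h0 : (X 0 : P4 K).IsHomogeneous 1 := isHomogeneous_X K 0
  have h1 : (X 1 : P4 K).IsHomogeneous 1 := isHomogeneous_X K 1
  have h3 : (X 3 : P4 K).IsHomogeneous 1 := isHomogeneous_X K 3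
  fin_cases i
  · exact h0.pow 3
  · exact (h0.pow 2).mul h3
  · exact h0.mul (h3.pow 2)
  · exact h3.pow 3
  · exact (h0.pow 2).mul h1

theorem nncz_hom {k Ω : Type u} [Field k] [Field Ω] [Algebra k Ω] (e : Option (Fin 5) → Ω)
    {m Q dG : ℕ} {s0 y0 G : P4 k} (hs : s0.IsHomogeneous m) (hy : y0.IsHomogeneous (m * Q))
    (hG : G.IsHomogeneous dG) (hdG : dG + 3 = m * Q) (i : Fin 3) :
    (tr e m s0 y0 G i).IsHomogeneous (m * wt Q i) := by
  fin_cases i
  · show (MvPolynomial.map (algebraMap k Ω) s0).IsHomogeneous (m * 1)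
    rw [mul_one]
    exact hs.map _
  · show (X 3 ^ m + C (e none) * X 0 ^ m : P4 Ω).IsHomogeneous (m * 1)
    rw [mul_one]
    have h0 := (isHomogeneous_X Ω (0 : Fin 4)).pow m
    have h3 := (isHomogeneous_X Ω (3 : Fin 4)).pow m
    rw [one_mul] at h0 h3
    exact h3.add (h0.C_mul _)
  · show (MvPolynomial.map (algebraMap k Ω) y0 + MvPolynomial.map (algebraMap k Ω) G *
      ∑ i, C (e (some i)) * cub Ω i).IsHomogeneous (m * Q)
    refine (hy.map _).add ?_
    rw [← hdG]
    exact (hG.map _).mul (IsHomogeneous.sum _ _ _ fun i _ => (nncz_cub Ω i).C_mul _)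

theorem n_ncz (hA : ACL_s.{u}) : NCZ_s.{u} := by
  intro k _ _ p hp _ ξ D c δ Ω _ _ _ e m Q a e0 dG s0 y0 G hG hD
  obtain ⟨-, -, -, A4, A5, -⟩ := hA k Ω
  have hm : 0 < m := by
    obtain ⟨i, hi⟩ := hD.hm
    rw [hi]
    exact pow_pos hp.out.pos _
  have hh := nncz_hom e hD.hs hD.hy hD.hG hD.hdG
  have t0 : ∀ v : Fin 4 → Ω, eval v (tr e m s0 y0 G 0) = aeval v s0 := fun v => nncz_ev v s0
  have t1 : ∀ v : Fin 4 → Ω, eval v (tr e m s0 y0 G 1) = v 3 ^ m + e none * v 0 ^ m := by
    intro v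
    show eval v (X 3 ^ m + C (e none) * X 0 ^ m : P4 Ω) = _
    simp
  have hs0 : aeval ξ s0 ≠ 0 := by
    intro h0
    have h1 := hD.os
    rw [h0, PowerSeries.order_zero] at h1
    exact ENat.top_ne_natCast a h1
  obtain ⟨Z, hZ, hZ'⟩ := hG.finz s0 ⟨m, hD.hs⟩ hs0
  have hsc : ∀ v ∈ V (idl ξ Ω), ∀ μ : Ω, (fun i => μ * v i) ∈ V (idl ξ Ω) := by
    intro v hv μ
    rw [← hG.coneV] at hv ⊢
    exact nncz_cone hv μ
  have hrat : ∀ v ∈ V (idl ξ Ω), aeval v s0 = 0 →
      ∃ z ∈ cone ξ k, ∃ l : Ω, v = fun i => l * algebraMap k Ω (z i) := by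
    intro v hv h0
    rw [← hG.coneV] at hv
    rcases hZ' Ω v hv h0 with h | ⟨z, hz, l, hl⟩
    · exact ⟨P1 ξ, nncz_P1 ξ, 0, by rw [h]; funext i; simp⟩
    · exact ⟨z, (hZ z hz).1, l, hl⟩
  have hn0 : ∀ v v', Node (idl ξ Ω) (tr e m s0 y0 G) v v' → eval v (tr e m s0 y0 G 0) ≠ 0 := by
    rintro v v' ⟨hv, hv', hne, hval⟩ h0
    have h0' : eval v' (tr e m s0 y0 G 0) = 0 := (congrFun hval 0).symm.trans h0
    rw [t0] at h0 h0'
    obtain ⟨z, hz, l, rfl⟩ := hrat v hv h0
    obtain ⟨z', hz', l', rfl⟩ := hrat v' hv' h0'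
    exact hne (hD.rat z hz z' hz' l l' hval)
  refine ⟨hh, ?_, hn0, ?_, hsc, ?_⟩
  · intro v hv h0 h1
    rw [t0] at h0
    rw [t1] at h1
    rw [← hG.coneV] at hv
    rcases hZ' Ω v hv h0 with h | ⟨z, hz, l, rfl⟩
    · exact h
    by_cases hl : l = 0
    · funext i
      simp [hl]
    exfalso
    have h2 : algebraMap k Ω (z 3) ^ m + e none * algebraMap k Ω (z 0) ^ m = 0 := by
      have h3 : l ^ m * (algebraMap k Ω (z 3) ^ m + e none * algebraMap k Ω (z 0) ^ m) = 0 := by
        rw [← h1]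
        simp only [mul_pow]
        ring
      exact (mul_eq_zero.1 h3).resolve_left (pow_ne_zero _ hl)
    rcases (hZ z hz).2.1 with h | ⟨h, h'⟩
    · rw [h, map_one, one_pow, mul_one] at h2
      refine hD.ind.transcendental none ?_
      have h4 : e none = algebraMap k Ω (-(z 3 ^ m)) := by
        rw [map_neg, map_pow]
        exact eq_neg_of_add_eq_zero_right h2
      rw [h4]
      exact isAlgebraic_algebraMap _
    · rw [h, h', map_one, map_zero, one_pow, zero_pow hm.ne', mul_zero, add_zero] at h2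
      exact one_ne_zero h2
  · intro v v' hN
    have hs := hn0 v v' hN
    obtain ⟨hv, hv', hne, hval⟩ := hN
    obtain ⟨μ, hμ⟩ := IsAlgClosed.exists_pow_nat_eq (eval v (tr e m s0 y0 G 0)) hm
    have hμ0 : μ ≠ 0 := by
      rintro rfl
      rw [zero_pow hm.ne'] at hμ
      exact hs hμ.symm
    have hb : ∀ w : Fin 4 → Ω, w = fun i => μ * (μ⁻¹ * w i) := fun w =>
      funext fun i => (mul_inv_cancel_left₀ hμ0 _).symm
    refine ⟨μ, fun i => μ⁻¹ * v i, fun i => μ⁻¹ * v' i, hμ0, hb v, hb v',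
      ⟨hsc v hv _, hsc v' hv' _, fun h => hne ?_, ?_⟩, ?_⟩
    · funext i
      exact mul_left_cancel₀ (inv_ne_zero hμ0) (congrFun h i)
    · funext i
      show eval _ (tr e m s0 y0 G i) = eval _ (tr e m s0 y0 G i)
      rw [nncz_smul (hh i), nncz_smul (hh i)]
      exact congrArg _ (congrFun hval i)
    · rw [nncz_smul (hh 0), ← hμ]
      show μ⁻¹ ^ (m * 1) * μ ^ m = 1
      rw [mul_one, ← mul_pow, inv_mul_cancel₀ hμ0, one_pow]
  · intro v hv h1 i
    rw [t0] at h1
    rw [← hG.coneV] at hv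
    have key : ∀ (l : Ω) (w : Fin 4 → Ω), (∀ j, w j ∈ acl k {v 3 / v 0}) →
        v = (fun j => l * w j) → v i ∈ acl k {v 3 / v 0} := by
      intro l w hw hvw
      have h2 : l ^ m * aeval w s0 = 1 := by
        rw [← nncz_asmul hD.hs, ← hvw, h1]
      have h3 : l ∈ acl k {v 3 / v 0} := by
        refine A4 _ l m hm ?_
        rw [eq_inv_of_mul_eq_one_left h2]
        exact inv_mem (nncz_mem _ hw s0)
      rw [congrFun hvw i]
      exact mul_mem h3 (hw i)
    by_cases h0 : v 0 = 0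
    · obtain ⟨Z0, -, hZ0⟩ := hG.finz (X 0) ⟨1, isHomogeneous_X k 0⟩ (by
        rw [aeval_X, hG.h0]; exact one_ne_zero)
      rcases hZ0 Ω v hv (by rw [aeval_X, h0]) with h | ⟨z, -, l, hl⟩
      · have h2 : v i = 0 := congrFun h i
        rw [h2]
        exact zero_mem _
      · exact key l _ (fun j => IntermediateField.algebraMap_mem _ (z j)) hl
    · refine key (v 0) (fun j => (v 0)⁻¹ * v j) (fun j => ?_)
        (funext fun j => (mul_inv_cancel_left₀ h0 _).symm)
      have h2 := hG.alg Ω _ (nncz_cone hv (v 0)⁻¹) (inv_mul_cancel₀ h0) j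
      rw [div_eq_inv_mul]
      exact A5 _ _ h2

end H39c

end PartH39cNNcz

section PartH39cNNum

set_option autoImplicit false

namespace H39c

theorem n_num : NUM_s := by
  intro p n Q a e0 n' hp hQ hn ha h1 h2
  have h3 : min e0 (a * Q) ≤ n' * Q := (min_le_right _ _).trans (Nat.mul_le_mul_right Q ha)
  obtain ⟨η, hη⟩ := Nat.exists_eq_add_of_le h1
  have h4 : n * Q - min e0 (a * Q) = η := by omega
  rw [h4] at h2 ⊢
  have h5 : 10 ^ 6 * p ^ 2 * η ≤ n' * Q + η := by omega
  have h6 : n' < 400 * p * (n' / (400 * p) + 1) := Nat.lt_mul_div_succ n' (by omega)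
  have h7 : 400 * p * (n' / (400 * p)) ≤ n' := Nat.mul_div_le n' (400 * p)
  generalize n' / (400 * p) = J at h6 h7
  refine ⟨1600 * p * (2 * η), J, ?_, ?_⟩
  · have h8 : n' * (8 * η) ≤ 400 * p * (J + 1) * (8 * η) := Nat.mul_le_mul_right _ h6.le
    nlinarith [Nat.zero_le (J * η), Nat.zero_le (n' * η)]
  · have h8 : 400 * p * J * Q ≤ n' * Q := Nat.mul_le_mul_right _ h7
    have h9 : 2 * (p * η) ≤ p * (p * η) := Nat.mul_le_mul_right _ hp
    have h10 : 2 * η ≤ p * η := Nat.mul_le_mul_right _ hp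
    nlinarith

end H39c

end PartH39cNNum

section PartH39cNOrd

set_option autoImplicit false

open MvPolynomial

namespace H39c

universe u

theorem nord_eval_mem {k Ω : Type u} [Field k] [Field Ω] [Algebra k Ω] (L : IntermediateField k Ω)
    (v : Fin 4 → Ω) (hv : ∀ i, v i ∈ L) (h : P4 k) :
    eval v (MvPolynomial.map (algebraMap k Ω) h) ∈ L := by
  induction h using MvPolynomial.induction_on with
  | C r =>
    rw [map_C, eval_C]
    exact L.algebraMap_mem r
  | add f g hf hg =>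
    rw [map_add, map_add]
    exact L.add_mem hf hg
  | mul_X f i hf =>
    rw [map_mul, map_mul, map_X, eval_X]
    exact L.mul_mem hf (hv i)

theorem nord_dd_mem (hD : DUAL_s.{u}) {k Ω : Type u} [Field k] [Field Ω] [Algebra k Ω]
    (L : IntermediateField k Ω) (v W : Fin 4 → Ω) (hv : ∀ i, v i ∈ L) (hW : ∀ i, W i ∈ L)
    (h : P4 k) : dd v W (MvPolynomial.map (algebraMap k Ω) h) ∈ L := by
  rw [(hD Ω 4 v W).2.1]
  refine L.sum_mem fun i _ => L.mul_mem (hW i) ?_
  rw [pderiv_map]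
  exact nord_eval_mem L v hv _

theorem nord_cub_map {k Ω : Type u} [Field k] [Field Ω] [Algebra k Ω] (i : Fin 5) :
    cub Ω i = MvPolynomial.map (algebraMap k Ω) (cub k i) := by
  fin_cases i <;> simp [cub]

theorem nord_eval_y {K : Type u} [Field K] (v : Fin 4 → K) (y G : P4 K) (τ : Fin 5 → K) :
    eval v (y + G * ∑ i, C (τ i) * cub K i) =
      eval v y + ∑ i, eval v G * eval v (cub K i) * τ i := by
  rw [map_add, map_mul, map_sum, Finset.mul_sum]
  refine congrArg (eval v y + ·) (Finset.sum_congr rfl fun i _ => ?_)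
  rw [map_mul, eval_C]
  ring

theorem nord_dd_y (hD : DUAL_s.{u}) {K : Type u} [Field K] (v W : Fin 4 → K) (y G : P4 K)
    (τ : Fin 5 → K) :
    dd v W (y + G * ∑ i, C (τ i) * cub K i) =
      dd v W y + ∑ i, (dd v W G * eval v (cub K i) + eval v G * dd v W (cub K i)) * τ i := by
  obtain ⟨-, -, hadd, -, hmul, hC, -⟩ := hD K 4 v W
  simp only [Fin.sum_univ_five, hadd, hmul, hC, map_add, map_mul, eval_C]
  ring

theorem nord_dd_cub (hD : DUAL_s.{u}) {K : Type u} [Field K] (v W : Fin 4 → K) (h0 : W 0 = 0)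
    (h3 : W 3 = v 0) :
    dd v W (cub K 0) = 0 ∧ dd v W (cub K 1) = v 0 ^ 3 ∧ dd v W (cub K 2) = 2 * v 0 ^ 2 * v 3 ∧
      dd v W (cub K 3) = 3 * v 0 * v 3 ^ 2 := by
  obtain ⟨-, -, -, -, hmul, -, hX, -⟩ := hD K 4 v W
  have e0 : cub K 0 = X 0 * X 0 * X 0 := by
    simp only [cub, Matrix.cons_val_zero]
    ring
  have e1 : cub K 1 = X 0 * X 0 * X 3 := by
    simp only [cub, Matrix.cons_val_one, Matrix.cons_val_zero]
    ring
  have e2 : cub K 2 = X 0 * X 3 * X 3 := by
    simp only [cub, Matrix.cons_val]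
    ring
  have e3 : cub K 3 = X 3 * X 3 * X 3 := by
    simp only [cub, Matrix.cons_val]
    ring
  rw [e0, e1, e2, e3]
  simp only [hmul, hX, map_mul, eval_X, h0, h3]
  refine ⟨?_, ?_, ?_, ?_⟩ <;> ring

theorem nord_eval_cub {K : Type u} [Field K] (v : Fin 4 → K) :
    eval v (cub K 0) = v 0 ^ 3 ∧ eval v (cub K 1) = v 0 ^ 2 * v 3 ∧
      eval v (cub K 2) = v 0 * v 3 ^ 2 ∧ eval v (cub K 3) = v 3 ^ 3 := by
  refine ⟨?_, ?_, ?_, ?_⟩ <;> simp [cub]

theorem n_ord (hD : DUAL_s.{u}) (hA : ACL_s.{u}) (hT : TR2_s.{u}) (hN : NCZ_s.{u})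
    (hGen : GEN_s.{u}) (hTan : TANU_s.{u}) (hDs : DS0_s.{u}) : ORD_s.{u} := by
  intro k _ _ p _ _ ξ D c δ Ω _ _ _ e m Q a e0 dG s0 y0 G hG hDat v v' hnode hs
  have hN' := (hN k p ξ D c δ Ω e m Q a e0 dG s0 y0 G hG hDat).2.2.2.2.2
  have hgen := hGen k p ξ D c δ Ω e m Q a e0 dG s0 y0 G hG hDat v v' hnode hs
  have hTan' := hTan k p ξ D c δ Ω e m Q a e0 dG s0 y0 G hG hDat
  have hDs' := hDs k p ξ D c δ Ω e m Q a e0 dG s0 y0 G hG hDat
  have : CharP Ω p := charP_of_injective_algebraMap (algebraMap k Ω).injective p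
  obtain ⟨hv, hv', -, hval⟩ := hnode
  obtain ⟨i0, hm⟩ := hDat.hm
  have hval0 : eval v (tr e m s0 y0 G 0) = eval v' (tr e m s0 y0 G 0) := congrFun hval 0
  have hval1 : eval v (tr e m s0 y0 G 1) = eval v' (tr e m s0 y0 G 1) := congrFun hval 1
  have hval2 : eval v (tr e m s0 y0 G 2) = eval v' (tr e m s0 y0 G 2) := congrFun hval 2
  have t0 : tr e m s0 y0 G 0 = MvPolynomial.map (algebraMap k Ω) s0 := rfl
  have t1 : tr e m s0 y0 G 1 = X 3 ^ m + C (e none) * X 0 ^ m := rfl
  have t2 : tr e m s0 y0 G 2 = MvPolynomial.map (algebraMap k Ω) y0 +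
      MvPolynomial.map (algebraMap k Ω) G * ∑ i, C (e (some i)) * cub Ω i := rfl
  have hne : v 3 / v 0 ≠ v' 3 / v' 0 := fun h => by
    have : (0 : Fin 6) = 1 := hgen.ind.injective h
    exact absurd this (by decide)
  have htr : Transcendental k (v 3 / v 0) := hgen.ind.transcendental 0
  have htr' : Transcendental k (v' 3 / v' 0) := hgen.ind.transcendental 1
  have h0 := hgen.v0
  have h0' := hgen.v0'
  have ev1 : ∀ u : Fin 4 → Ω, eval u (tr e m s0 y0 G 1) = u 3 ^ m + e none * u 0 ^ m := by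
    intro u
    rw [t1]
    simp
  refine ⟨fun hz => ?_, fun W W' hW hW' => ⟨?_, fun hJ => ?_⟩⟩
  · have hz' := hval1.symm.trans hz
    rw [ev1] at hz hz'
    apply hne
    have h1 : (v 3 / v 0) ^ m = -e none := by
      rw [div_pow, div_eq_iff (pow_ne_zero _ h0)]
      linear_combination hz
    have h2 : (v' 3 / v' 0) ^ m = -e none := by
      rw [div_pow, div_eq_iff (pow_ne_zero _ h0')]
      linear_combination hz'
    have h3 := h1.trans h2.symm
    rw [hm] at h3
    exact (iterateFrobenius Ω p (i0 + 1)).injective h3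
  · obtain ⟨-, -, hadd, -, hmul, hC, -, hp, -⟩ := hD Ω 4 v W
    rw [t1, hadd, hmul, hC, hm, hp p, hp p]
    ring
  · obtain ⟨hsub, hmono, -⟩ := hA k Ω
    have hvL : ∀ i, v i ∈ acl k {v 3 / v 0, v' 3 / v' 0} := fun i =>
      hmono _ _ (fun x hx => hsub _ (by rw [Set.mem_singleton_iff.1 hx]; simp)) (hN' v hv hs i)
    have hvL' : ∀ i, v' i ∈ acl k {v 3 / v 0, v' 3 / v' 0} := fun i =>
      hmono _ _ (fun x hx => hsub _ (by rw [Set.mem_singleton_iff.1 hx]; simp))
        (hN' v' hv' (hval0.symm.trans hs) i)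
    obtain ⟨-, -, hGv, -, -, hWL, -⟩ := hTan' v hv h0 htr
    obtain ⟨-, -, -, -, -, hWL', -⟩ := hTan' v' hv' h0' htr'
    have hA' := hDs' v' hv' h0' htr' W' hW'
    have hWm := hWL W hW _ hvL
    have hWm' := hWL' W' hW' _ hvL'
    rw [t0] at hA'
    rw [t0, t2, nord_dd_y hD, nord_dd_y hD] at hJ
    rw [t2, nord_eval_y, nord_eval_y] at hval2
    have hGe : ∀ u : Fin 4 → Ω, eval u (MvPolynomial.map (algebraMap k Ω) G) = aeval u G := by
      intro u
      rw [eval_map, aeval_def]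
    have hcub : ∀ (u : Fin 4 → Ω), (∀ i, u i ∈ acl k {v 3 / v 0, v' 3 / v' 0}) → ∀ i,
        eval u (cub Ω i) ∈ acl k {v 3 / v 0, v' 3 / v' 0} := by
      intro u hu i
      rw [nord_cub_map (k := k)]
      exact nord_eval_mem _ u hu _
    have hdcub : ∀ (u U : Fin 4 → Ω), (∀ i, u i ∈ acl k {v 3 / v 0, v' 3 / v' 0}) →
        (∀ i, U i ∈ acl k {v 3 / v 0, v' 3 / v' 0}) → ∀ i,
        dd u U (cub Ω i) ∈ acl k {v 3 / v 0, v' 3 / v' 0} := by
      intro u U hu hU i
      rw [nord_cub_map (k := k)]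
      exact nord_dd_mem hD _ u U hu hU _
    obtain ⟨c0, c1, c2, c3⟩ := nord_eval_cub v
    obtain ⟨c0', c1', c2', c3'⟩ := nord_eval_cub v'
    obtain ⟨d0, d1, d2, d3⟩ := nord_dd_cub hD v W hW.1 hW.2.1
    obtain ⟨d0', d1', d2', d3'⟩ := nord_dd_cub hD v' W' hW'.1 hW'.2.1
    refine hT k Ω e (v 3 / v 0) (v' 3 / v' 0)
      (fun i => eval v (MvPolynomial.map (algebraMap k Ω) G) * eval v (cub Ω i) -
        eval v' (MvPolynomial.map (algebraMap k Ω) G) * eval v' (cub Ω i))
      (fun i => dd v W (MvPolynomial.map (algebraMap k Ω) s0) *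
          (dd v' W' (MvPolynomial.map (algebraMap k Ω) G) * eval v' (cub Ω i) +
            eval v' (MvPolynomial.map (algebraMap k Ω) G) * dd v' W' (cub Ω i)) -
        dd v' W' (MvPolynomial.map (algebraMap k Ω) s0) *
          (dd v W (MvPolynomial.map (algebraMap k Ω) G) * eval v (cub Ω i) +
            eval v (MvPolynomial.map (algebraMap k Ω) G) * dd v W (cub Ω i)))
      ![-(v 3 * v' 3 ^ 2), 2 * v 3 * v' 3 * v' 0 + v' 3 ^ 2 * v 0,
        -(v 3 * v' 0 ^ 2 + 2 * v' 3 * v' 0 * v 0), v 0 * v' 0 ^ 2, 0]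
      (eval v' (MvPolynomial.map (algebraMap k Ω) y0) -
        eval v (MvPolynomial.map (algebraMap k Ω) y0))
      (dd v' W' (MvPolynomial.map (algebraMap k Ω) s0) *
          dd v W (MvPolynomial.map (algebraMap k Ω) y0) -
        dd v W (MvPolynomial.map (algebraMap k Ω) s0) *
          dd v' W' (MvPolynomial.map (algebraMap k Ω) y0))
      hDat.ind ?_ (fun i => ?_) (fun i => ?_) ?_ ?_ ?_ ?_ ?_ ?_ ?_
    · have : e none = (v' 3 ^ m - v 3 ^ m) / (v 0 ^ m - v' 0 ^ m) := by
        rw [eq_div_iff (sub_ne_zero.2 hgen.d0)]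
        rw [ev1, ev1] at hval1
        linear_combination hval1
      rw [this]
      exact div_mem (sub_mem (pow_mem (hvL' 3) _) (pow_mem (hvL 3) _))
        (sub_mem (pow_mem (hvL 0) _) (pow_mem (hvL' 0) _))
    · exact sub_mem (mul_mem (nord_eval_mem _ v hvL G) (hcub v hvL i))
        (mul_mem (nord_eval_mem _ v' hvL' G) (hcub v' hvL' i))
    · exact sub_mem
        (mul_mem (nord_dd_mem hD _ v W hvL hWm s0)
          (add_mem (mul_mem (nord_dd_mem hD _ v' W' hvL' hWm' G) (hcub v' hvL' i))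
            (mul_mem (nord_eval_mem _ v' hvL' G) (hdcub v' W' hvL' hWm' i))))
        (mul_mem (nord_dd_mem hD _ v' W' hvL' hWm' s0)
          (add_mem (mul_mem (nord_dd_mem hD _ v W hvL hWm G) (hcub v hvL i))
            (mul_mem (nord_eval_mem _ v hvL G) (hdcub v W hvL hWm i))))
    · exact sub_mem (nord_eval_mem _ v' hvL' y0) (nord_eval_mem _ v hvL y0)
    · exact sub_mem
        (mul_mem (nord_dd_mem hD _ v' W' hvL' hWm' s0) (nord_dd_mem hD _ v W hvL hWm y0))
        (mul_mem (nord_dd_mem hD _ v W hvL hWm s0) (nord_dd_mem hD _ v' W' hvL' hWm' y0))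
    · simp only [Fin.sum_univ_five] at hval2 ⊢
      linear_combination hval2
    · simp only [Fin.sum_univ_five] at hJ ⊢
      linear_combination hJ
    · simp only [c0, c0', hGe]
      exact sub_ne_zero.2 hgen.dG
    · simp only [Fin.sum_univ_five, Matrix.cons_val_zero, Matrix.cons_val_one, Matrix.cons_val,
        c0, c1, c2, c3, c0', c1', c2', c3']
      ring
    · simp only [Fin.sum_univ_five, Matrix.cons_val_zero, Matrix.cons_val_one, Matrix.cons_val,
        c0, c1, c2, c3, c0', c1', c2', c3', d0, d1, d2, d3, d0', d1', d2', d3', hGe]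
      have hx : v 3 * v' 0 - v' 3 * v 0 ≠ 0 := by
        intro h
        apply hne
        rw [div_eq_div_iff h0 h0']
        linear_combination h
      intro h
      have h5 : dd v' W' (MvPolynomial.map (algebraMap k Ω) s0) * aeval v G * v 0 ^ 2 *
          (v 3 * v' 0 - v' 3 * v 0) ^ 2 = 0 := by
        linear_combination -h
      exact mul_ne_zero (mul_ne_zero (mul_ne_zero hA' hGv) (pow_ne_zero _ h0))
        (pow_ne_zero _ hx) h5

end H39c

end PartH39cNOrd

section PartH39cNPhi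

set_option autoImplicit false
set_option linter.unusedVariables false

open MvPolynomial

namespace H39c

universe u

theorem nphi_mono {k : Type u} [Field k] (ξ : Fin 4 → PowerSeries k) (Ω : Type u) [Field Ω]
    [Algebra k Ω] (s : Fin 4 →₀ ℕ) (a : Ω) :
    iota ξ Ω (monomial s a) = PowerSeries.C a *
      PowerSeries.map (algebraMap k Ω) (aeval ξ (monomial s (1 : k) : P4 k) : PowerSeries k) := by
  unfold iota
  rw [aeval_monomial, aeval_monomial, map_one, one_mul, Finsupp.prod, Finsupp.prod, map_prod]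
  simp only [map_pow]
  rfl

theorem nphi_coeff {k : Type u} [Field k] (ξ : Fin 4 → PowerSeries k) (Ω : Type u) [Field Ω]
    [Algebra k Ω] (h : P4 Ω) (n : ℕ) :
    PowerSeries.coeff n (iota ξ Ω h) = ∑ s ∈ h.support,
      (PowerSeries.coeff n (aeval ξ (monomial s (1 : k) : P4 k) : PowerSeries k)) • coeff s h := by
  conv_lhs => rw [h.as_sum, map_sum, map_sum]
  refine Finset.sum_congr rfl fun s _ => ?_
  rw [nphi_mono, PowerSeries.coeff_C_mul, PowerSeries.coeff_map, Algebra.smul_def, mul_comm]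

/-- `maxv` over an extension field. -/
theorem nphi_maxv {k : Type u} [Field k] {ξ : Fin 4 → PowerSeries k} {D c : ℕ} {δ : P4 k}
    (hG : Good ξ D c δ) (Ω : Type u) [Field Ω] [Algebra k Ω] (h : P4 Ω) (j : ℕ)
    (hh : h.IsHomogeneous j) (h0 : ∀ n, n ≤ D * j → PowerSeries.coeff n (iota ξ Ω h) = 0) :
    iota ξ Ω h = 0 := by
  ext n
  rw [map_zero, ← Module.forall_dual_apply_eq_zero_iff k]
  intro φ
  have key : ∀ n, φ (PowerSeries.coeff n (iota ξ Ω h)) = PowerSeries.coeff n
      (aeval ξ (∑ s ∈ h.support, monomial s (φ (coeff s h)) : P4 k) : PowerSeries k) := by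
    intro n
    rw [nphi_coeff, map_sum, map_sum, map_sum]
    refine Finset.sum_congr rfl fun s _ => ?_
    have e1 : (monomial s (φ (coeff s h)) : P4 k) = φ (coeff s h) • monomial s (1 : k) := by
      rw [smul_monomial, smul_eq_mul, mul_one]
    rw [map_smul, e1, map_smul, map_smul, smul_eq_mul, smul_eq_mul, mul_comm]
  have hhom : (∑ s ∈ h.support, monomial s (φ (coeff s h)) : P4 k).IsHomogeneous j := by
    refine IsHomogeneous.sum _ _ _ fun s hs => isHomogeneous_monomial _ ?_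
    have := hh (mem_support_iff.1 hs)
    rw [Finsupp.degree_eq_weight_one]
    exact this
  have hz : (aeval ξ (∑ s ∈ h.support, monomial s (φ (coeff s h)) : P4 k) : PowerSeries k) = 0 := by
    by_contra hne
    have h1 := hG.maxv _ j hhom hne
    have h2 : ((D * j + 1 : ℕ) : ℕ∞) ≤ (aeval ξ
        (∑ s ∈ h.support, monomial s (φ (coeff s h)) : P4 k) : PowerSeries k).order := by
      refine PowerSeries.nat_le_order _ _ fun i hi => ?_
      rw [← key, h0 i (by omega), map_zero]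
    have h3 := le_trans h2 h1
    rw [Nat.cast_le] at h3
    omega
  rw [key, hz, map_zero]

theorem nphi_hom {k : Type u} [Field k] {Ω : Type u} [Field Ω] [Algebra k Ω]
    (e : Option (Fin 5) → Ω) (m Q dG : ℕ) (s0 y0 G : P4 k) (hs : s0.IsHomogeneous m)
    (hy : y0.IsHomogeneous (m * Q)) (hG : G.IsHomogeneous dG) (hd : dG + 3 = m * Q) :
    (tr e m s0 y0 G 0).IsHomogeneous m ∧ (tr e m s0 y0 G 1).IsHomogeneous m ∧
      (tr e m s0 y0 G 2).IsHomogeneous (m * Q) := by
  have hX : ∀ (i : Fin 4) (n : ℕ), (X i ^ n : P4 Ω).IsHomogeneous n := fun i n => by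
    simpa using (isHomogeneous_X Ω i).pow n
  refine ⟨hs.map _, ?_, ?_⟩
  · show (X 3 ^ m + C (e none) * X 0 ^ m : P4 Ω).IsHomogeneous m
    refine (hX 3 m).add ?_
    simpa using (isHomogeneous_C (Fin 4) (e none)).mul (hX 0 m)
  · show (MvPolynomial.map (algebraMap k Ω) y0 +
      MvPolynomial.map (algebraMap k Ω) G * ∑ i, C (e (some i)) * cub Ω i).IsHomogeneous (m * Q)
    refine (hy.map _).add ?_
    rw [← hd]
    refine (hG.map _).mul (IsHomogeneous.sum _ _ _ fun i _ => ?_)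
    have hc : (cub Ω i).IsHomogeneous 3 := by
      fin_cases i
      · exact hX 0 3
      · exact (hX 0 2).mul (isHomogeneous_X Ω 3)
      · exact (isHomogeneous_X Ω 0).mul (hX 3 2)
      · exact hX 3 3
      · exact (hX 0 2).mul (isHomogeneous_X Ω 1)
    simpa using (isHomogeneous_C (Fin 4) (e (some i))).mul hc

/-- the exponent vector `(u, i, j)` -/
noncomputable def nphi_ex (u i j : ℕ) : Fin 3 →₀ ℕ :=
  Finsupp.single 0 u + Finsupp.single 1 i + Finsupp.single 2 j

theorem nphi_aeval {Ω : Type u} [Field Ω] (b : Fin 3 → P4 Ω) (u i j : ℕ) (c : Ω) :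
    aeval b (monomial (nphi_ex u i j) c : P3 Ω) = C c * (b 0 ^ u * b 1 ^ i * b 2 ^ j) := by
  rw [aeval_monomial, Finsupp.prod_fintype _ _ (by simp), Fin.prod_univ_three]
  simp [nphi_ex]

theorem nphi_dvd {Ω : Type u} [Field Ω] (f : PowerSeries Ω) (a : ℕ) (h : f.order = (a : ℕ)) :
    PowerSeries.X ^ a ∣ f := by
  rw [PowerSeries.X_pow_dvd_iff]
  intro n hn
  exact PowerSeries.coeff_of_lt_order n (by rw [h]; exact_mod_cast hn)

theorem n_phi (hV : VAL_s.{u}) : PHI_s.{u} := by
  classical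
  intro k _ _ p _ _ ξ D c δ Ω _ _ _ e m Q a e0 dG s0 y0 G hG hD
  obtain ⟨ho0, ho2, -⟩ := hV k p ξ D c δ Ω e m Q a e0 dG s0 y0 G hG hD
  obtain ⟨hh0, hh1, hh2⟩ := nphi_hom e m Q dG s0 y0 G hD.hs hD.hy hD.hG hD.hdG
  have hs0 : (aeval ξ s0 : PowerSeries k) ≠ 0 := by
    intro h0
    have := hD.os
    rw [h0, PowerSeries.order_zero] at this
    exact ENat.top_ne_natCast _ this
  have ha : a ≤ D * m := by
    have := hG.maxv s0 m hD.hs hs0
    rw [hD.os] at this
    exact_mod_cast this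
  have hμ : min e0 (a * Q) ≤ D * m * Q :=
    le_trans (min_le_right _ _) (Nat.mul_le_mul_right _ ha)
  refine ⟨hμ, ?_⟩
  have hm : 0 < m := by
    obtain ⟨i, hi⟩ := hD.hm
    rw [hi]
    exact pow_pos (Fact.out : p.Prime).pos _
  obtain ⟨n, hn⟩ : ∃ n, n = D * m := ⟨_, rfl⟩
  have hn0 : 0 < n := by rw [hn]; exact Nat.mul_pos hG.hD hm
  obtain ⟨μ, hμd⟩ : ∃ μ, μ = min e0 (a * Q) := ⟨_, rfl⟩
  have hμ1 : μ ≤ e0 := hμd ▸ min_le_left _ _
  have hμ2 : μ ≤ a * Q := hμd ▸ min_le_right _ _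
  rw [← hn, ← hμd] at hμ ⊢
  obtain ⟨η, hη⟩ := Nat.exists_eq_add_of_le hμ
  have hη' : n * Q - μ = η := by omega
  rw [hη']
  set b := tr e m s0 y0 G with hb
  let T : Fin (2 * η + 1) × Fin (2 * n + 1) → P4 Ω := fun x =>
    b 0 ^ (2 * η - x.1 + (2 * n - x.2) * Q) * b 1 ^ (x.1 : ℕ) * b 2 ^ (x.2 : ℕ)
  have hT : ∀ x, (T x).IsHomogeneous (m * (2 * η + 2 * n * Q)) := by
    rintro ⟨⟨i, hi⟩, ⟨j, hj⟩⟩
    have h1 := ((hh0.pow (2 * η - i + (2 * n - j) * Q)).mul (hh1.pow i)).mul (hh2.pow j)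
    have e1 : m * (2 * η - i + (2 * n - j) * Q) + m * i + m * Q * j = m * (2 * η + 2 * n * Q) := by
      obtain ⟨i', hi'⟩ := Nat.exists_eq_add_of_le (Nat.lt_succ_iff.1 hi)
      obtain ⟨j', hj'⟩ := Nat.exists_eq_add_of_le (Nat.lt_succ_iff.1 hj)
      have a1 : 2 * η - i = i' := by omega
      have a2 : 2 * n - j = j' := by omega
      rw [a1, a2, hi', hj']
      ring
    rw [e1] at h1
    exact h1
  have hlow : ∀ x t, t < 2 * n * μ → PowerSeries.coeff t (iota ξ Ω (T x)) = 0 := by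
    rintro ⟨⟨i, hi⟩, ⟨j, hj⟩⟩
    rw [← PowerSeries.X_pow_dvd_iff]
    have d0 := pow_dvd_pow_of_dvd (nphi_dvd _ _ ho0) (2 * η - i + (2 * n - j) * Q)
    have d2 := pow_dvd_pow_of_dvd (nphi_dvd _ _ ho2) j
    rw [← pow_mul] at d0 d2
    have d3 := mul_dvd_mul (Dvd.dvd.mul_right d0 ((iota ξ Ω (b 1)) ^ i)) d2
    rw [← pow_add] at d3
    have hle : 2 * n * μ ≤ a * (2 * η - i + (2 * n - j) * Q) + e0 * j := by
      obtain ⟨j', hj'⟩ := Nat.exists_eq_add_of_le (Nat.lt_succ_iff.1 hj)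
      have a2 : 2 * n - j = j' := by omega
      rw [a2, hj']
      have b1 : μ * j' ≤ a * Q * j' := Nat.mul_le_mul_right _ hμ2
      have b2 : μ * j ≤ e0 * j := Nat.mul_le_mul_right _ hμ1
      have b3 : a * (2 * η - i + j' * Q) = a * (2 * η - i) + a * Q * j' := by ring
      have b4 : (j + j') * μ = μ * j + μ * j' := by ring
      omega
    refine dvd_trans (pow_dvd_pow _ hle) ?_
    simpa only [T, map_mul, map_pow] using d3
  let w : Fin (2 * η + 1) × Fin (2 * n + 1) → (Fin (4 * n * η + 1) → Ω) := fun x t =>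
    PowerSeries.coeff (2 * n * μ + t) (iota ξ Ω (T x))
  have hdep : ¬ LinearIndependent Ω w := by
    intro hli
    have h1 := hli.fintype_card_le_finrank
    rw [Module.finrank_fin_fun, Fintype.card_prod, Fintype.card_fin, Fintype.card_fin] at h1
    have : (2 * η + 1) * (2 * n + 1) = 4 * n * η + 1 + 2 * η + 2 * n := by ring
    omega
  obtain ⟨cf, hc0, x0, hx0⟩ := Fintype.not_linearIndependent_iff.1 hdep
  refine ⟨∑ x : Fin (2 * η + 1) × Fin (2 * n + 1),
    monomial (nphi_ex (2 * η - x.1 + (2 * n - x.2) * Q) x.1 x.2) (cf x), ?_, ?_, ?_⟩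
  · intro h0
    apply hx0
    have h1 := congrArg (coeff (nphi_ex (2 * η - x0.1 + (2 * n - x0.2) * Q) x0.1 x0.2)) h0
    rw [coeff_sum, Finset.sum_eq_single x0, coeff_monomial, if_pos rfl, coeff_zero] at h1
    · exact h1
    · intro x _ hx
      rw [coeff_monomial, if_neg]
      intro he
      apply hx
      have e1 := DFunLike.congr_fun he 1
      have e2 := DFunLike.congr_fun he 2
      simp [nphi_ex] at e1 e2
      exact Prod.ext (Fin.ext e1) (Fin.ext e2)
    · intro h
      exact absurd (Finset.mem_univ _) h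
  · have hA : aeval b (∑ x : Fin (2 * η + 1) × Fin (2 * n + 1),
        monomial (nphi_ex (2 * η - x.1 + (2 * n - x.2) * Q) x.1 x.2) (cf x) : P3 Ω) =
        ∑ x, C (cf x) * T x := by
      rw [map_sum]
      exact Finset.sum_congr rfl fun x _ => nphi_aeval _ _ _ _ _
    rw [hA]
    have hH : (∑ x, C (cf x) * T x : P4 Ω).IsHomogeneous (m * (2 * η + 2 * n * Q)) := by
      refine IsHomogeneous.sum _ _ _ fun x _ => ?_
      simpa using (isHomogeneous_C (Fin 4) (cf x)).mul (hT x)
    refine (hG.mem Ω _ ⟨_, hH⟩).2 (nphi_maxv hG Ω _ _ hH fun t ht => ?_)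
    have hco : PowerSeries.coeff t (iota ξ Ω (∑ x, C (cf x) * T x)) =
        ∑ x, cf x * PowerSeries.coeff t (iota ξ Ω (T x)) := by
      rw [map_sum, map_sum]
      refine Finset.sum_congr rfl fun x _ => ?_
      rw [← smul_eq_C_mul, map_smul, map_smul, smul_eq_mul]
    rw [hco]
    by_cases hlt : t < 2 * n * μ
    · exact Finset.sum_eq_zero fun x _ => by rw [hlow x t hlt, mul_zero]
    · have e1 : D * (m * (2 * η + 2 * n * Q)) = 2 * n * μ + 4 * n * η := by
        have : D * (m * (2 * η + 2 * n * Q)) = n * (2 * η) + 2 * n * (n * Q) := by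
          rw [← mul_assoc, ← hn]; ring
        rw [this, hη]; ring
      obtain ⟨t', ht'⟩ := Nat.exists_eq_add_of_le (not_lt.1 hlt)
      have h1 := congrFun hc0 ⟨t', by omega⟩
      rw [Finset.sum_apply] at h1
      rw [ht']
      exact h1
  · rw [degreeOf_le_iff]
    intro s hs
    obtain ⟨x, -, hx⟩ := Finset.mem_biUnion.1 (support_sum hs)
    have h1 := support_monomial_subset hx
    rw [Finset.mem_singleton] at h1
    rw [h1]
    have := x.1.2
    simp [nphi_ex]
    omega

end H39c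

end PartH39cNPhi

section PartH39cNPth

set_option autoImplicit false
set_option linter.unusedVariables false

open MvPolynomial

namespace H39c

universe u

section
variable {K : Type*} [Field K]

theorem npth_supp_pderiv {σ : Type*} {g : MvPolynomial σ K} {i : σ} {d : σ →₀ ℕ}
    (hd : d ∈ (pderiv i g).support) : d + Finsupp.single i 1 ∈ g.support := by
  rw [mem_support_iff] at hd ⊢
  rw [coeff_pderiv] at hd
  exact left_ne_zero_of_mul hd

theorem npth_degreeOf_pderiv {σ : Type*} (g : MvPolynomial σ K) (i j : σ) :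
    degreeOf j (pderiv i g) ≤ degreeOf j g := by
  rw [degreeOf_le_iff]
  intro d hd
  have := monomial_le_degreeOf j (npth_supp_pderiv hd)
  rw [Finsupp.add_apply] at this
  omega

/-- all partial derivatives vanish: `p`-th power -/
theorem npth_pth {σ : Type*} (p : ℕ) [Fact p.Prime] [CharP K p] [PerfectRing K p]
    {g : MvPolynomial σ K} (h : ∀ i, pderiv i g = 0) :
    ∃ r : MvPolynomial σ K, r ^ p = g ∧ ∀ d ∈ r.support, p • d ∈ g.support := by
  classical
  have hp : 0 < p := (Fact.out : p.Prime).pos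
  have hdiv : ∀ d ∈ g.support, ∀ i, p ∣ d i := by
    intro d hd i
    rcases Nat.eq_zero_or_pos (d i) with h0 | h0
    · simp [h0]
    have e : d - Finsupp.single i 1 + Finsupp.single i 1 = d :=
      tsub_add_cancel_of_le (Finsupp.single_le_iff.2 h0)
    have := coeff_pderiv (i := i) g (d - Finsupp.single i 1)
    rw [h i, coeff_zero, e] at this
    have h2 := (mul_eq_zero.1 this.symm).resolve_left (mem_support_iff.1 hd)
    rw [Finsupp.tsub_apply, Finsupp.single_eq_same] at h2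
    have h3 : ((d i : ℕ) : K) = 0 := by
      rw [← h2, ← Nat.cast_succ]
      congr 1
      omega
    exact (CharP.cast_eq_zero_iff K p _).1 h3
  have hsm : ∀ d ∈ g.support, p • d.mapRange (· / p) (by simp) = d := by
    intro d hd
    ext i
    simp [Nat.mul_div_cancel' (hdiv d hd i)]
  refine ⟨∑ d ∈ g.support, monomial (d.mapRange (· / p) (by simp))
    ((frobeniusEquiv K p).symm (coeff d g)), ?_, ?_⟩
  · rw [sum_pow_char]
    conv_rhs => rw [g.as_sum]
    refine Finset.sum_congr rfl fun d hd => ?_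
    rw [monomial_pow, hsm d hd, frobeniusEquiv_symm_pow_p]
  · intro d' hd'
    obtain ⟨d, hd, h2⟩ := Finset.mem_biUnion.1 (support_sum hd')
    have := Finset.mem_singleton.1 (support_monomial_subset h2)
    rw [this, hsm d hd]
    exact hd


theorem npth_wt (Q : ℕ) (d : Fin 3 →₀ ℕ) :
    Finsupp.weight (wt Q) d = d 0 + d 1 + d 2 * Q := by
  rw [Finsupp.weight_apply, Finsupp.sum_fintype _ _ (by simp), Fin.sum_univ_three]
  simp [wt]

theorem npth_two (Q : ℕ) (Γ : MvPolynomial (Fin 3) K) (γ : ℕ) (i : Fin 3)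
    (h : Γ.IsWeightedHomogeneous (wt Q) γ) :
    pderiv i Γ = 0 ∨ ∃ γ', γ' + wt Q i = γ ∧ (pderiv i Γ).IsWeightedHomogeneous (wt Q) γ' := by
  classical
  have key : ∀ d ∈ (pderiv i Γ).support, Finsupp.weight (wt Q) d + wt Q i = γ := by
    intro d hd
    have h1 := h (mem_support_iff.1 (npth_supp_pderiv hd))
    rw [map_add, Finsupp.weight_single, one_smul] at h1
    exact h1
  by_cases h0 : pderiv i Γ = 0
  · exact Or.inl h0
  obtain ⟨d0, hd0⟩ := support_nonempty.2 h0
  refine Or.inr ⟨Finsupp.weight (wt Q) d0, key d0 hd0, fun d hd => ?_⟩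
  have h1 := key d (mem_support_iff.2 hd)
  have h2 := key d0 hd0
  omega

theorem npth_five (Q : ℕ) (F Γ : MvPolynomial (Fin 3) K) (n' γ : ℕ)
    (hF : coeff (Finsupp.single 2 n') F = 1) (h : Γ.IsWeightedHomogeneous (wt Q) γ)
    (h0 : Γ ≠ 0) (hlt : γ < n' * Q) : ¬ F ∣ Γ := by
  classical
  rintro ⟨r, hr⟩
  have r0 : r ≠ 0 := by
    rintro rfl
    exact h0 (by simpa using hr)
  have F0 : F ≠ 0 := by
    rintro rfl
    exact h0 (by simpa using hr)
  have h1 := degreeOf_mul_eq (n := 2) F0 r0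
  rw [← hr] at h1
  have h2 : n' ≤ degreeOf 2 F := by
    have := monomial_le_degreeOf (2 : Fin 3) (f := F) (m := Finsupp.single 2 n')
      (mem_support_iff.2 (by rw [hF]; exact one_ne_zero))
    simpa using this
  have hn : 0 < n' := by
    rcases Nat.eq_zero_or_pos n' with h | h
    · simp [h] at hlt
    · exact h
  have h3 : degreeOf 2 Γ ≤ n' - 1 := by
    rw [degreeOf_le_iff]
    intro d hd
    have h4 := h (mem_support_iff.1 hd)
    rw [npth_wt] at h4
    by_contra hc
    have h5 : n' ≤ d 2 := by omega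
    have h6 := Nat.mul_le_mul_right Q h5
    omega
  omega

end

theorem n_pth : PTH_s.{u} := by
  intro K _ _ p _ _ Q hQ
  classical
  have hp : 2 ≤ p := (Fact.out : p.Prime).two_le
  have hQ2 : 2 ≤ Q := by
    obtain ⟨i, rfl⟩ := hQ
    calc 2 ≤ p := hp
      _ ≤ p ^ (i + 1) := Nat.le_self_pow (by omega) p
  have hw : ∀ i, 0 < wt Q i := by
    intro i
    fin_cases i <;> simp [wt]
    omega
  refine ⟨?_, fun Γ γ i h => npth_two Q Γ γ i h, ?_, ?_,
    fun F Γ n' γ hF h h0 hlt => npth_five Q F Γ n' γ hF h h0 hlt⟩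
  · intro Γ γ h hz
    obtain ⟨r, hr, hs⟩ := npth_pth p hz
    have key : ∀ d ∈ r.support, p * Finsupp.weight (wt Q) d = γ := by
      intro d hd
      have h1 := h (mem_support_iff.1 (hs d hd))
      rw [map_nsmul, smul_eq_mul] at h1
      exact h1
    refine ⟨r, γ / p, fun d hd => ?_, hr.symm, fun h0 => ?_⟩
    · rw [← key d (mem_support_iff.2 hd), Nat.mul_div_cancel_left _ (by omega)]
    · have r0 : r ≠ 0 := by
        rintro rfl
        rw [zero_pow (by omega)] at hr
        exact h0 hr.symm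
      obtain ⟨d, hd⟩ := support_nonempty.2 r0
      rw [← key d hd, Nat.mul_div_cancel_left _ (by omega)]
  · intro Γ γ R A B A' B' h hR hΓ hne h1 h2
    have hd : A * B' - A' * B ≠ 0 := sub_ne_zero.2 hne
    have e0 : eval R (pderiv 0 Γ) = 0 := by
      apply (mul_eq_zero.1 (_ : (A * B' - A' * B) * _ = 0)).resolve_left hd
      linear_combination B' * h1 - B * h2
    have e2 : eval R (pderiv 2 Γ) = 0 := by
      apply (mul_eq_zero.1 (_ : (A * B' - A' * B) * _ = 0)).resolve_left hd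
      linear_combination A * h2 - A' * h1
    have e1 : eval R (pderiv 1 Γ) = 0 := by
      have hE := congrArg (eval R) h.sum_weight_X_mul_pderiv
      rw [Fin.sum_univ_three] at hE
      simp only [map_add, map_nsmul, map_mul, eval_X, e0, e2, hΓ, mul_zero, smul_zero, zero_add,
        add_zero] at hE
      have hw1 : wt Q 1 = 1 := rfl
      rw [hw1, one_smul] at hE
      exact (mul_eq_zero.1 hE).resolve_left hR
    intro i
    fin_cases i
    · exact e0
    · exact e1
    · exact e2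
  · intro F n' I0 hF hpr hc hn hI
    obtain ⟨i, hi⟩ : ∃ i, pderiv i F ≠ 0 := by
      by_contra hcon
      push Not at hcon
      obtain ⟨r, hr, -⟩ := npth_pth p hcon
      exact not_irreducible_pow (Fact.out : p.Prime).ne_one (hr ▸ hpr.irreducible)
    obtain ⟨γ', hγ, hh⟩ := (npth_two Q F _ i hF).resolve_left hi
    have hX : (X 0 : P3 K).IsWeightedHomogeneous (wt Q) 1 := isWeightedHomogeneous_X K (wt Q) 0
    refine ⟨X 0 ^ wt Q i * pderiv i F, ?_, ?_, ?_, ?_⟩
    · have := (hX.pow (wt Q i)).mul hh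
      rw [smul_eq_mul, mul_one, add_comm, hγ] at this
      exact this
    · intro hdv
      rcases hpr.dvd_or_dvd hdv with h1 | h1
      · refine npth_five Q F (X 0) n' 1 hc hX (X_ne_zero 0) ?_ (hpr.dvd_of_dvd_pow h1)
        nlinarith
      · refine npth_five Q F _ n' γ' hc hh hi ?_ h1
        have := hw i
        omega
    · have h1 := degreeOf_mul_le 1 (X 0 ^ wt Q i : P3 K) (pderiv i F)
      have h2 := degreeOf_pow_le (1 : Fin 3) (X 0 : P3 K) (wt Q i)
      have h3 : degreeOf (1 : Fin 3) (X 0 : P3 K) = 0 := by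
        rw [degreeOf_X]
        simp
      have h4 := npth_degreeOf_pderiv F i 1
      rw [h3, mul_zero] at h2
      omega
    · intro R hR
      rw [map_mul, hR i, mul_zero]

end H39c

end PartH39cNPth

section PartH39cNTanu

set_option autoImplicit false

open MvPolynomial

namespace H39c

universe u

section
variable {k : Type u} [Field k] {ξ : Fin 4 → PowerSeries k}

theorem ntanu_hom {R : Type u} [CommRing R] [Algebra k R] {h : P4 k} {d : ℕ}
    (hh : h.IsHomogeneous d) (μ : R) (v : Fin 4 → R) :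
    aeval (fun i => μ * v i) h = μ ^ d * aeval v h := by
  rw [aeval_def, aeval_def, eval₂_eq', eval₂_eq', Finset.mul_sum]
  refine Finset.sum_congr rfl fun s hs => ?_
  have e : ∑ i, s i = d := by
    rw [← hh (mem_support_iff.1 hs), Finsupp.weight_apply, Finsupp.sum_fintype _ _ (by simp)]
    simp
  simp only [mul_pow, Finset.prod_mul_distrib, Finset.prod_pow_eq_pow_sum, e]
  ring

theorem ntanu_scale {R : Type u} [CommRing R] [Algebra k R] {v : Fin 4 → R} (hv : v ∈ cone ξ R)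
    (μ : R) : (fun i => μ * v i) ∈ cone ξ R := by
  rintro h ⟨d, hd⟩ h0
  rw [ntanu_hom hd, hv h ⟨d, hd⟩ h0, mul_zero]

theorem ntanu_map {R S : Type u} [CommRing R] [Algebra k R] [CommRing S] [Algebra k S]
    {v : Fin 4 → R} (hv : v ∈ cone ξ R) (φ : R →ₐ[k] S) : (fun i => φ (v i)) ∈ cone ξ S := by
  intro h hf h0
  rw [← comp_aeval_apply, hv h hf h0, map_zero]

theorem ntanu_const (h : P4 k) :
    PowerSeries.constantCoeff (aeval ξ h : PowerSeries k) = eval (P1 ξ) h := by
  induction h using MvPolynomial.induction_on with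
  | C a => simp
  | add p q hp hq => simp [hp, hq]
  | mul_X p i hp => simp [hp, P1]

variable {Ω : Type u} [Field Ω] [Algebra k Ω]

theorem ntanu_mem (L : IntermediateField k Ω) {v : Fin 4 → Ω} (hv : ∀ i, v i ∈ L) (h : P4 k) :
    aeval v h ∈ L := by
  induction h using MvPolynomial.induction_on with
  | C a => rw [aeval_C]; exact L.algebraMap_mem a
  | add p q hp hq => rw [map_add]; exact L.add_mem hp hq
  | mul_X p i hp => rw [map_mul, aeval_X]; exact L.mul_mem hp (hv i)

theorem ntanu_smul {v W : Fin 4 → Ω} (h : TanAt ξ v W) (μ : Ω) :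
    TanAt ξ (fun i => μ * v i) (fun i => μ * W i) := by
  refine ⟨by simp only [h.1, mul_zero], by simp only [h.2.1], ?_⟩
  have e : dp (fun i => μ * v i) (fun i => μ * W i) =
      fun i => (TrivSqZeroExt.inl μ : DualNumber Ω) * dp v W i := by
    funext i
    ext <;> simp [dp]
  rw [e]
  exact ntanu_scale h.2.2 _

theorem ntanu_dual (θ : Ω →ₐ[k] Ω) : ∃ φ : DualNumber Ω →ₐ[k] DualNumber Ω, ∀ x,
    φ x = TrivSqZeroExt.inl (θ x.fst) + TrivSqZeroExt.inr (θ x.snd) :=
  ⟨{ toFun := fun x => TrivSqZeroExt.inl (θ x.fst) + TrivSqZeroExt.inr (θ x.snd)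
     map_one' := by ext <;> simp
     map_mul' := fun x y => by ext <;> simp
     map_zero' := by ext <;> simp
     map_add' := fun x y => by ext <;> simp
     commutes' := fun c => by ext <;> simp [TrivSqZeroExt.algebraMap_eq_inl'] }, fun _ => rfl⟩

theorem ntanu_conj {v W : Fin 4 → Ω} (h : TanAt ξ v W) (θ : Ω →ₐ[k] Ω) :
    TanAt ξ (fun i => θ (v i)) (fun i => θ (W i)) := by
  refine ⟨by simp only [h.1, map_zero], by simp only [h.2.1], ?_⟩
  obtain ⟨φ, hφ⟩ := ntanu_dual θ
  have e : dp (fun i => θ (v i)) (fun i => θ (W i)) = fun i => φ (dp v W i) := by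
    funext i
    rw [hφ]
    ext <;> simp [dp]
  rw [e]
  exact ntanu_map h.2.2 φ

end

theorem n_tanu : TANU_s.{u} := by
  intro k _ _ p _ _ ξ D c δ Ω _ _ _ e m Q a e0 dG s0 y0 G hg hd v hv v0 ht
  rw [← hg.coneV Ω] at hv
  obtain ⟨w, hw⟩ : ∃ w : Fin 4 → Ω, w = fun i => (v 0)⁻¹ * v i := ⟨_, rfl⟩
  have wc : w ∈ cone ξ Ω := hw ▸ ntanu_scale hv _
  have w0 : w 0 = 1 := by rw [hw]; exact inv_mul_cancel₀ v0
  have w3 : Transcendental k (w 3) := by rw [hw]; rwa [div_eq_inv_mul] at ht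
  have vw : v = fun i => v 0 * w i := by
    funext i
    rw [hw]; exact (mul_inv_cancel_left₀ v0 _).symm
  have nw : ∀ h : P4 k, aeval ξ h ≠ 0 → aeval w h ≠ 0 := fun h h0 h1 => h0 (by
    have := hg.inj k Ω w wc w0 w3 h h1
    simpa [iota] using this)
  have nv : ∀ h : P4 k, Form h → aeval ξ h ≠ 0 → aeval v h ≠ 0 := fun h ⟨d, hh⟩ h0 h1 =>
    nw h h0 (by rw [hw, ntanu_hom hh, h1, mul_zero])
  have dξ : aeval ξ δ ≠ 0 := fun h => hg.δP1 (by rw [← ntanu_const, h, map_zero])
  obtain ⟨r, τ, hτ⟩ := hg.tanf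
  have fm : ∀ W, TanAt ξ v W → ∀ i, W i = v 0 * (aeval w (τ i) / aeval w δ ^ r) := by
    intro W hW i
    have h1 := ntanu_smul hW (v 0)⁻¹
    rw [← hw] at h1
    rw [← hτ Ω w _ w0 ⟨h1.1, h1.2.1.trans w0, h1.2.2⟩ i,
      mul_div_cancel_left₀ _ (pow_ne_zero r (nw δ dξ)), mul_inv_cancel_left₀ v0]
  refine ⟨nv, nv δ hg.δbin.1 dξ, nv G ⟨dG, hd.hG⟩ fun h => ?_, ?_, fun W W' hW hW' => ?_,
    fun W hW L hL i => ?_, fun W hW h hh => ?_, fun W hW μ => ntanu_smul hW μ,
    fun W hW θ => ntanu_conj hW θ⟩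
  · have := hd.oG
    rw [h, PowerSeries.order_zero] at this
    exact ENat.top_ne_natCast _ this
  · obtain ⟨W, h1, h2, h3⟩ := hg.tan Ω w wc w0 (nw δ dξ)
    have h4 := ntanu_smul (ξ := ξ) (v := w) (W := W) ⟨h1, h2.trans w0.symm, h3⟩ (v 0)
    rw [← vw] at h4
    exact ⟨_, h4⟩
  · funext i
    rw [fm W hW i, fm W' hW' i]
  · have hwL : ∀ j, w j ∈ L := fun j => by
      rw [hw]; exact L.mul_mem (L.inv_mem (hL 0)) (hL j)
    rw [fm W hW i]
    exact L.mul_mem (hL 0) (L.div_mem (ntanu_mem L hwL _) (pow_mem (ntanu_mem L hwL _) r))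
  · rw [dd, hg.ev Ω (DualNumber Ω) (dp v W) hW.2.2 h hh, TrivSqZeroExt.snd_zero]

end H39c

end PartH39cNTanu

section PartH39cNTr2

set_option autoImplicit false
set_option linter.unusedVariables false

open MvPolynomial

namespace H39c

universe u

/-- one unknown of a linear relation lies in a subfield containing everything else -/
theorem ntr2_solve {k : Type u} [Field k] {Ω : Type u} [Field Ω] [Algebra k Ω]
    (L : IntermediateField k Ω) (c t : Fin 5 → Ω) (d : Ω) (j : Fin 5) (hj : c j ≠ 0)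
    (hc : c j ∈ L) (hd : d ∈ L) (h : ∑ i, c i * t i = d) (ho : ∀ i, i ≠ j → c i * t i ∈ L) :
    t j ∈ L := by
  have h1 : c j * t j + ∑ i ∈ Finset.univ.erase j, c i * t i = d := by
    rw [← h]
    exact Finset.add_sum_erase Finset.univ (fun i => c i * t i) (Finset.mem_univ j)
  have h2 : t j = (c j)⁻¹ * (d - ∑ i ∈ Finset.univ.erase j, c i * t i) := by
    rw [← h1, add_sub_cancel_right, ← mul_assoc, inv_mul_cancel₀ hj, one_mul]
  rw [h2]
  exact mul_mem (inv_mem hc)
    (sub_mem hd (sum_mem fun i hi => ho i (Finset.ne_of_mem_erase hi)))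

theorem n_tr2 (hA : ACL_s.{u}) : TR2_s.{u} := by
  intro k _ Ω _ _ e x x' c c' H d d' he h0 hc hc' hd hd' hs hs' c0 hH hH'
  obtain ⟨a1, a2, -, -, -, -, a7, -, -⟩ := hA k Ω
  have hex : ∃ j, c 0 * c' j - c' 0 * c j ≠ 0 := by
    by_contra hn
    have hn' : ∀ j, c 0 * c' j = c' 0 * c j := fun j => by
      by_contra hh
      exact hn ⟨j, sub_ne_zero.2 hh⟩
    have h1 : c 0 * ∑ i, c' i * H i = c' 0 * ∑ i, c i * H i := by
      rw [Finset.mul_sum, Finset.mul_sum]
      refine Finset.sum_congr rfl fun i _ => ?_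
      rw [← mul_assoc, hn' i, mul_assoc]
    rw [hH, mul_zero] at h1
    exact (mul_ne_zero c0 hH') h1
  obtain ⟨j, hj⟩ := hex
  have j0 : j ≠ 0 := by
    rintro rfl
    exact hj (by ring)
  let y : Fin 5 → Ω := fun i => if i = 0 then x else if i = j then x' else e (some i)
  have hy : ∀ i, y i ∈ acl k (Set.range y) := fun i => a1 _ ⟨i, rfl⟩
  have hx : x ∈ acl k (Set.range y) := by
    have := hy 0
    simpa only [y, if_true] using this
  have hx' : x' ∈ acl k (Set.range y) := by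
    have := hy j
    simpa only [y, if_neg j0, if_true] using this
  have ht : ∀ i, i ≠ 0 → i ≠ j → e (some i) ∈ acl k (Set.range y) := fun i h1 h2 => by
    have := hy i
    simpa only [y, if_neg h1, if_neg h2] using this
  have hle : acl k {x, x'} ≤ acl k (Set.range y) := a2 _ _ (by
    rintro z (rfl | rfl)
    · exact hx
    · exact hx')
  have hm : ∀ i, c 0 * c' i - c' 0 * c i ∈ acl k (Set.range y) := fun i =>
    hle (sub_mem (mul_mem (hc 0) (hc' i)) (mul_mem (hc' 0) (hc i)))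
  have tj : e (some j) ∈ acl k (Set.range y) := by
    refine ntr2_solve _ (fun i => c 0 * c' i - c' 0 * c i) (fun i => e (some i))
      (c 0 * d' - c' 0 * d) j hj (hm j)
      (hle (sub_mem (mul_mem (hc 0) hd') (mul_mem (hc' 0) hd))) ?_ ?_
    · rw [← hs, ← hs', Finset.mul_sum, Finset.mul_sum, ← Finset.sum_sub_distrib]
      refine Finset.sum_congr rfl fun i _ => ?_
      ring
    · intro i hi
      by_cases i0 : i = 0
      · have : (c 0 * c' i - c' 0 * c i) * e (some i) = 0 := by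
          rw [i0]
          ring
        rw [this]
        exact zero_mem _
      · exact mul_mem (hm i) (ht i i0 hi)
  have t0 : e (some 0) ∈ acl k (Set.range y) := by
    refine ntr2_solve _ c (fun i => e (some i)) d 0 c0 (hle (hc 0)) (hle hd) hs ?_
    intro i hi
    by_cases ij : i = j
    · rw [ij]
      exact mul_mem (hle (hc j)) tj
    · exact mul_mem (hle (hc i)) (ht i hi ij)
  have hall : ∀ o, e o ∈ acl k (Set.range y) := by
    rintro (_ | i)
    · exact hle h0
    · by_cases i0 : i = 0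
      · rw [i0]
        exact t0
      · by_cases ij : i = j
        · rw [ij]
          exact tj
        · exact ht i i0 ij
  have hcard := a7 (Option (Fin 5)) (Fin 5) e y he hall
  simp at hcard

end H39c

end PartH39cNTr2

section PartH39cNTri

set_option autoImplicit false
set_option linter.unusedVariables false

open MvPolynomial

namespace H39c

universe u

theorem ntri_scale {K : Type u} [Field K] (h : P4 K) (d : ℕ) (hh : h.IsHomogeneous d) (μ : K)
    (v : Fin 4 → K) : eval (fun i => μ * v i) h = μ ^ d * eval v h := by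
  rw [eval_eq', eval_eq', Finset.mul_sum]
  refine Finset.sum_congr rfl fun s hs => ?_
  have hd : ∑ i, s i = d := by
    have h1 := hh (mem_support_iff.1 hs)
    rw [← h1, Finsupp.weight_apply, Finsupp.sum_fintype _ _ (by simp)]
    simp
  simp only [mul_pow, Finset.prod_mul_distrib, Finset.prod_pow_eq_pow_sum, hd]
  ring

theorem ntri_mem {k Ω : Type u} [Field k] [Field Ω] [Algebra k Ω] (L : IntermediateField k Ω)
    (v : Fin 4 → Ω) (hv : ∀ i, v i ∈ L) (h : P4 k) : aeval v h ∈ L := by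
  induction h using MvPolynomial.induction_on with
  | C a => rw [aeval_C]; exact L.algebraMap_mem a
  | add p q hp hq => rw [map_add]; exact L.add_mem hp hq
  | mul_X p i hp => rw [map_mul, aeval_X]; exact L.mul_mem hp (hv i)

theorem ntri_evmap {k Ω : Type u} [Field k] [Field Ω] [Algebra k Ω] (v : Fin 4 → Ω) (h : P4 k) :
    eval v (MvPolynomial.map (algebraMap k Ω) h) = aeval v h := by
  rw [eval_map, aeval_def]

theorem ntri_iota {k : Type u} [Field k] (ξ : Fin 4 → PowerSeries k) (L : Type u) [Field L]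
    [Algebra k L] (h : P4 k) :
    iota ξ L (MvPolynomial.map (algebraMap k L) h)
      = PowerSeries.map (algebraMap k L) (aeval ξ h) := by
  induction h using MvPolynomial.induction_on with
  | C a => simp [iota]
  | add p q hp hq => rw [map_add, map_add, hp, hq, map_add, map_add]
  | mul_X p i hp =>
    rw [map_mul, map_mul, hp, map_mul, map_mul, map_X, aeval_X]
    simp [iota]

theorem ntri_t0 {k Ω : Type u} [Field k] [Field Ω] [Algebra k Ω] (e : Option (Fin 5) → Ω) (m : ℕ)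
    (s0 y0 G : P4 k) (v : Fin 4 → Ω) : eval v (tr e m s0 y0 G 0) = aeval v s0 := by
  rw [← ntri_evmap]; rfl

theorem ntri_t1 {k Ω : Type u} [Field k] [Field Ω] [Algebra k Ω] (e : Option (Fin 5) → Ω) (m : ℕ)
    (s0 y0 G : P4 k) (v : Fin 4 → Ω) :
    eval v (tr e m s0 y0 G 1) = v 3 ^ m + e none * v 0 ^ m := by
  change eval v (X 3 ^ m + C (e none) * X 0 ^ m) = _
  simp

theorem ntri_t2 {k Ω : Type u} [Field k] [Field Ω] [Algebra k Ω] (e : Option (Fin 5) → Ω) (m : ℕ)
    (s0 y0 G : P4 k) (v : Fin 4 → Ω) :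
    eval v (tr e m s0 y0 G 2)
      = aeval v y0 + ∑ i, aeval v G * eval v (cub Ω i) * e (some i) := by
  change eval v (MvPolynomial.map (algebraMap k Ω) y0 +
      MvPolynomial.map (algebraMap k Ω) G * ∑ i, C (e (some i)) * cub Ω i) = _
  rw [map_add, map_mul, ntri_evmap, ntri_evmap, map_sum, Finset.mul_sum]
  refine congrArg _ (Finset.sum_congr rfl fun i _ => ?_)
  rw [map_mul, eval_C]
  ring

theorem ntri_cub {k Ω : Type u} [Field k] [Field Ω] [Algebra k Ω] (L : IntermediateField k Ω)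
    (v : Fin 4 → Ω) (hv : ∀ i, v i ∈ L) (i : Fin 5) : eval v (cub Ω i) ∈ L := by
  fin_cases i
  · simpa [cub] using L.pow_mem (hv 0) 3
  · simpa [cub] using L.mul_mem (pow_mem (hv 0) 2) (hv 3)
  · simpa [cub] using L.mul_mem (hv 0) (pow_mem (hv 3) 2)
  · simpa [cub] using pow_mem (hv 3) 3
  · simpa [cub] using L.mul_mem (pow_mem (hv 0) 2) (hv 1)

theorem ntri_H {Ω : Type u} [Field Ω] (x x' g g' : Ω) (v w : Fin 4 → Ω) :
    ∑ i, (g * eval v (cub Ω i) - g' * eval w (cub Ω i)) * (![x * x', -(x + x'), 1, 0, 0] i)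
      = g * (v 0 * (v 3 - x * v 0) * (v 3 - x' * v 0))
        - g' * (w 0 * (w 3 - x * w 0) * (w 3 - x' * w 0)) := by
  simp [Fin.sum_univ_five, cub]
  ring

theorem n_tri (hACL : ACL_s.{u}) (hTR2 : TR2_s.{u}) (hNCZ : NCZ_s.{u}) (hGEN : GEN_s.{u})
    (hTANU : TANU_s.{u}) : TRI_s.{u} := by
  intro k _ _ p hp _ ξ D c δ Ω _ _ _ e m Q a e0 dG s0 y0 G hG hD
  obtain ⟨hhom, -, -, hnrm, hsc, halg⟩ := hNCZ k p ξ D c δ Ω e m Q a e0 dG s0 y0 G hG hD
  have hgen := hGEN k p ξ D c δ Ω e m Q a e0 dG s0 y0 G hG hD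
  have htan := hTANU k p ξ D c δ Ω e m Q a e0 dG s0 y0 G hG hD
  obtain ⟨hsub, hle, hcl, -⟩ := hACL k Ω
  have hm0 : 0 < m := by
    obtain ⟨i, hi⟩ := hD.hm
    rw [hi]
    exact pow_pos hp.out.pos _
  have key : ∀ v v', Node (idl ξ Ω) (tr e m s0 y0 G) v v' → eval v (tr e m s0 y0 G 0) = 1 →
      ∀ w ∈ V (idl ξ Ω), val3 (tr e m s0 y0 G) w = val3 (tr e m s0 y0 G) v → w = v ∨ w = v' := by
    intro v v' hn h1 w hw hval
    by_contra hcon
    rw [not_or] at hcon
    obtain ⟨hwv, hwv'⟩ := hcon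
    obtain ⟨hv, hv', hne, hvv'⟩ := hn
    have h1' : eval v' (tr e m s0 y0 G 0) = 1 := (congrFun hvv' 0).symm.trans h1
    have h1w : eval w (tr e m s0 y0 G 0) = 1 := (congrFun hval 0).trans h1
    have g1 := hgen v v' ⟨hv, hv', hne, hvv'⟩ h1
    have g2 := hgen v w ⟨hv, hw, Ne.symm hwv, hval.symm⟩ h1
    have g3 := hgen v' w ⟨hv', hw, Ne.symm hwv', hvv'.symm.trans hval.symm⟩ h1'
    set x := v 3 / v 0 with hx
    set x' := v' 3 / v' 0 with hx'
    have hxL : x ∈ acl k ({x, x'} : Set Ω) := hsub _ (by simp)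
    have hx'L : x' ∈ acl k ({x, x'} : Set Ω) := hsub _ (by simp)
    have hvL : ∀ i, v i ∈ acl k ({x, x'} : Set Ω) := fun i =>
      hle {x} {x, x'} (Set.singleton_subset_iff.2 hxL) (halg v hv h1 i)
    have hv'L : ∀ i, v' i ∈ acl k ({x, x'} : Set Ω) := fun i =>
      hle {x'} {x, x'} (Set.singleton_subset_iff.2 hx'L) (halg v' hv' h1' i)
    have e1 : v 3 ^ m + e none * v 0 ^ m = v' 3 ^ m + e none * v' 0 ^ m := by
      rw [← ntri_t1 e m s0 y0 G, ← ntri_t1 e m s0 y0 G]
      exact congrFun hvv' 1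
    have e1w : w 3 ^ m + e none * w 0 ^ m = v 3 ^ m + e none * v 0 ^ m := by
      rw [← ntri_t1 e m s0 y0 G, ← ntri_t1 e m s0 y0 G]
      exact congrFun hval 1
    have hσ : e none ∈ acl k ({x, x'} : Set Ω) := by
      have hd : v 0 ^ m - v' 0 ^ m ≠ 0 := sub_ne_zero.2 g1.d0
      have : e none = (v' 3 ^ m - v 3 ^ m) / (v 0 ^ m - v' 0 ^ m) := by
        rw [eq_div_iff hd]
        linear_combination e1
      rw [this]
      exact div_mem (sub_mem (pow_mem (hv'L 3) m) (pow_mem (hvL 3) m))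
        (sub_mem (pow_mem (hvL 0) m) (pow_mem (hv'L 0) m))
    have hz : v 3 ^ m + e none * v 0 ^ m ∈ acl k ({x, x'} : Set Ω) :=
      add_mem (pow_mem (hvL 3) m) (mul_mem hσ (pow_mem (hvL 0) m))
    have hxw : w 3 / w 0 ∈ acl k ({x, x'} : Set Ω) := by
      apply hcl
      by_contra htr
      have hw0 : w 0 ≠ 0 := g2.v0'
      have hcone : (fun i => (w 0)⁻¹ * w i) ∈ cone ξ Ω := by
        rw [hG.coneV]
        exact hsc w hw _
      have hs1 : aeval (fun i => (w 0)⁻¹ * w i) s0 = (w 0)⁻¹ ^ m := by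
        rw [← ntri_t0 e m s0 y0 G, ntri_scale _ _ (hhom 0), h1w]
        simp [wt]
      have hi := hG.inj (acl k ({x, x'} : Set Ω)) Ω (fun i => (w 0)⁻¹ * w i) hcone
        (inv_mul_cancel₀ hw0) (by
          have : (w 0)⁻¹ * w 3 = w 3 / w 0 := by rw [div_eq_inv_mul]
          simp only [this]
          exact htr)
        (X 3 ^ m + C ⟨e none, hσ⟩ * X 0 ^ m
          - C ⟨_, hz⟩ * MvPolynomial.map (algebraMap k (acl k ({x, x'} : Set Ω))) s0) (by
          rw [map_sub, map_add, map_mul, map_mul, map_pow, map_pow, aeval_X, aeval_X, aeval_C,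
            aeval_C, aeval_map_algebraMap, hs1]
          change ((w 0)⁻¹ * w 3) ^ m + e none * ((w 0)⁻¹ * w 0) ^ m
            - (v 3 ^ m + e none * v 0 ^ m) * (w 0)⁻¹ ^ m = 0
          rw [← e1w, mul_pow, mul_pow]
          ring)
      have hc0 : PowerSeries.constantCoeff (aeval ξ s0 : PowerSeries k) = 0 := by
        rw [← PowerSeries.coeff_zero_eq_constantCoeff_apply]
        apply PowerSeries.coeff_of_lt_order
        rw [hD.os]
        have := hD.a3
        exact_mod_cast (by omega : 0 < a)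
      rw [map_sub, map_add, map_mul, map_mul, map_pow, map_pow, ntri_iota] at hi
      have hi2 := congrArg PowerSeries.constantCoeff hi
      have hX3 : iota ξ (acl k ({x, x'} : Set Ω)) (X 3) = PowerSeries.X := by
        simp [iota, hG.h3]
      have hX0 : iota ξ (acl k ({x, x'} : Set Ω)) (X 0) = 1 := by
        simp [iota, hG.h0]
      have hC : ∀ t : acl k ({x, x'} : Set Ω),
          iota ξ (acl k ({x, x'} : Set Ω)) (C t) = PowerSeries.C t := fun t => by
        simp [iota]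
      have hmap : PowerSeries.constantCoeff (PowerSeries.map
          (algebraMap k (acl k ({x, x'} : Set Ω))) (aeval ξ s0 : PowerSeries k)) = 0 := by
        rw [← PowerSeries.coeff_zero_eq_constantCoeff_apply, PowerSeries.coeff_map,
          PowerSeries.coeff_zero_eq_constantCoeff_apply, hc0, map_zero]
      rw [hX3, hX0, hC, hC, map_sub, map_add, map_mul, map_mul, map_pow, hmap,
        PowerSeries.constantCoeff_X, zero_pow hm0.ne', one_pow, map_one,
        PowerSeries.constantCoeff_C, map_zero] at hi2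
      have h5 : (⟨e none, hσ⟩ : acl k ({x, x'} : Set Ω)) = 0 := by simpa using hi2
      exact hD.ind.ne_zero none (congrArg Subtype.val h5)
    have hwL : ∀ i, w i ∈ acl k ({x, x'} : Set Ω) := fun i =>
      hle {w 3 / w 0} {x, x'} (Set.singleton_subset_iff.2 hxw) (halg w hw h1w i)
    have hrel : ∀ u : Fin 4 → Ω, val3 (tr e m s0 y0 G) v = val3 (tr e m s0 y0 G) u →
        ∑ i, (aeval v G * eval v (cub Ω i) - aeval u G * eval u (cub Ω i)) * e (some i)
          = aeval u y0 - aeval v y0 := by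
      intro u hu
      have h2 : eval v (tr e m s0 y0 G 2) = eval u (tr e m s0 y0 G 2) := congrFun hu 2
      rw [ntri_t2, ntri_t2] at h2
      simp only [sub_mul, Finset.sum_sub_distrib]
      linear_combination h2
    have hGw : aeval w G ≠ 0 := (htan w hw g2.v0' (g2.ind.transcendental 1)).2.2.1
    have hn1 : w 3 - x * w 0 ≠ 0 := by
      intro h
      have h01 : fam e v w 0 = fam e v w 1 := by
        change x = w 3 / w 0
        rw [eq_div_iff g2.v0']
        linear_combination -h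
      exact absurd (g2.ind.injective h01) (by decide)
    have hn2 : w 3 - x' * w 0 ≠ 0 := by
      intro h
      have h01 : fam e v' w 0 = fam e v' w 1 := by
        change x' = w 3 / w 0
        rw [eq_div_iff g2.v0']
        linear_combination -h
      exact absurd (g3.ind.injective h01) (by decide)
    have hz1 : v 3 - x * v 0 = 0 := by rw [hx, div_mul_cancel₀ _ g1.v0, sub_self]
    have hz2 : v' 3 - x' * v' 0 = 0 := by rw [hx', div_mul_cancel₀ _ g1.v0', sub_self]
    refine hTR2 k Ω e x x'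
      (fun i => aeval v G * eval v (cub Ω i) - aeval v' G * eval v' (cub Ω i))
      (fun i => aeval v G * eval v (cub Ω i) - aeval w G * eval w (cub Ω i))
      ![x * x', -(x + x'), 1, 0, 0] (aeval v' y0 - aeval v y0) (aeval w y0 - aeval v y0)
      hD.ind hσ (fun i => ?_) (fun i => ?_) ?_ ?_ (hrel v' hvv') (hrel w hval.symm) ?_ ?_ ?_
    · exact sub_mem (mul_mem (ntri_mem _ v hvL G) (ntri_cub _ v hvL i))
        (mul_mem (ntri_mem _ v' hv'L G) (ntri_cub _ v' hv'L i))
    · exact sub_mem (mul_mem (ntri_mem _ v hvL G) (ntri_cub _ v hvL i))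
        (mul_mem (ntri_mem _ w hwL G) (ntri_cub _ w hwL i))
    · exact sub_mem (ntri_mem _ v' hv'L y0) (ntri_mem _ v hvL y0)
    · exact sub_mem (ntri_mem _ w hwL y0) (ntri_mem _ v hvL y0)
    · have := sub_ne_zero.2 g1.dG
      simpa [cub] using this
    · rw [ntri_H, hz1, hz2]
      ring
    · rw [ntri_H, hz1]
      have := mul_ne_zero hGw (mul_ne_zero (mul_ne_zero g2.v0' hn1) hn2)
      intro h
      apply this
      linear_combination -h
  intro v v' hn w hw hval
  obtain ⟨μ, u, u', hμ, hv, hv', hnu, hu1⟩ := hnrm v v' hn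
  have hval' : val3 (tr e m s0 y0 G) (fun i => μ⁻¹ * w i) = val3 (tr e m s0 y0 G) u := by
    funext i
    have h1 : eval w (tr e m s0 y0 G i) = eval v (tr e m s0 y0 G i) := congrFun hval i
    change eval (fun i => μ⁻¹ * w i) (tr e m s0 y0 G i) = eval u (tr e m s0 y0 G i)
    rw [ntri_scale _ _ (hhom i), h1, hv, ntri_scale _ _ (hhom i), ← mul_assoc, ← mul_pow,
      inv_mul_cancel₀ hμ, one_pow, one_mul]
  have back : ∀ t : Fin 4 → Ω, (fun i => μ⁻¹ * w i) = t → w = fun i => μ * t i := by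
    intro t ht
    funext i
    rw [← congrFun ht i, ← mul_assoc, mul_inv_cancel₀ hμ, one_mul]
  rcases key u u' hnu hu1 _ (hsc w hw μ⁻¹) hval' with h | h
  · exact Or.inl ((back u h).trans hv.symm)
  · exact Or.inr ((back u' h).trans hv'.symm)

end H39c

end PartH39cNTri

section PartH39cNPlane36

set_option autoImplicit false

open MvPolynomial

namespace H39c

universe u

/-- two monomials of the same order occur in every relation -/
theorem np_two {K : Type u} [Field K] (b : Fin 3 → PowerSeries K) (o : Fin 3 → ℕ)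
    (hb : ∀ i, (b i).order = (o i : ℕ)) (g : P3 K) (hg : g ≠ 0) (h0 : aeval b g = 0) :
    ∃ t ∈ g.support, ∃ t' ∈ g.support, t ≠ t' ∧ ∑ i, t i * o i = ∑ i, t' i * o i := by
  classical
  by_contra hne
  push Not at hne
  obtain ⟨t, ht, hmin⟩ := g.support.exists_min_image (fun t => ∑ i, t i * o i)
    (support_nonempty.mpr hg)
  have hord : ∀ t ∈ g.support, (aeval b (monomial t (coeff t g)) : PowerSeries K).order =
      ((∑ i, t i * o i : ℕ) : ℕ∞) := by
    intro t ht
    have hc : (algebraMap K (PowerSeries K) (coeff t g)).order = 0 := by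
      have : (algebraMap K (PowerSeries K) (coeff t g)).order = ((0 : ℕ) : ℕ∞) := by
        rw [PowerSeries.order_eq_nat]
        refine ⟨?_, fun i hi => absurd hi (Nat.not_lt_zero i)⟩
        simpa [PowerSeries.algebraMap_apply] using mem_support_iff.mp ht
      simpa using this
    rw [aeval_monomial, Finsupp.prod_fintype _ _ (fun i => pow_zero _), Fin.prod_univ_three,
      Fin.sum_univ_three, PowerSeries.order_mul, PowerSeries.order_mul, PowerSeries.order_mul, hc,
      PowerSeries.order_pow, PowerSeries.order_pow, PowerSeries.order_pow, hb, hb, hb]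
    simp [nsmul_eq_mul]
  have h1 : PowerSeries.coeff (∑ i, t i * o i) (aeval b g) =
      PowerSeries.coeff (∑ i, t i * o i) (aeval b (monomial t (coeff t g))) := by
    conv_lhs => rw [g.as_sum]
    rw [map_sum, map_sum]
    refine Finset.sum_eq_single_of_mem t ht fun t' ht' hn => ?_
    apply PowerSeries.coeff_of_lt_order
    rw [hord t' ht']
    exact_mod_cast lt_of_le_of_ne (hmin t' ht') (hne t ht t' ht' hn.symm)
  rw [h0, map_zero] at h1
  exact (PowerSeries.order_eq_nat.mp (hord t ht)).1 h1.symm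

theorem np_wt (Q : ℕ) (t : Fin 3 →₀ ℕ) : Finsupp.weight (wt Q) t = t 0 + t 1 + t 2 * Q := by
  rw [Finsupp.weight_apply, Finsupp.sum_fintype _ _ (fun i => by simp), Fin.sum_univ_three]
  simp [wt]

/-- a weighted relation has degree at least `a` in the last variable -/
theorem np_big {K : Type u} [Field K] (b : Fin 3 → PowerSeries K) (a e Q N : ℕ) (ha : 0 < a)
    (he : e % a = 1 % a) (h0 : (b 0).order = (a : ℕ)) (h1 : (b 1).order = (0 : ℕ))
    (h2 : (b 2).order = (e : ℕ)) (g : P3 K) (hw : g.IsWeightedHomogeneous (wt Q) N) (hg : g ≠ 0)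
    (hz : aeval b g = 0) : ∃ t ∈ g.support, a ≤ t 2 := by
  obtain ⟨t, ht, t', ht', hne, hs⟩ := np_two b ![a, 0, e]
    (fun i => by fin_cases i <;> assumption) g hg hz
  simp only [Fin.sum_univ_three, Matrix.cons_val_zero, Matrix.cons_val_one, Matrix.cons_val,
    mul_zero, add_zero] at hs
  have w1 := hw (mem_support_iff.mp ht)
  have w2 := hw (mem_support_iff.mp ht')
  rw [np_wt] at w1 w2
  have h22 : t 2 ≠ t' 2 := by
    intro h
    rw [h] at hs w1
    have e0 : t 0 = t' 0 := Nat.eq_of_mul_eq_mul_right ha (by omega)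
    apply hne
    ext i
    fin_cases i
    · exact e0
    · show t 1 = t' 1
      omega
    · exact h
  have hm : t 2 % a = t' 2 % a := by
    have key : ∀ x y : ℕ, (x * a + y * e) % a = y % a := by
      intro x y
      rw [add_comm, Nat.add_mul_mod_self_right, Nat.mul_mod, he, ← Nat.mul_mod, mul_one]
    rw [← key (t 0), hs, key]
  by_contra hcon
  push Not at hcon
  rw [Nat.mod_eq_of_lt (hcon t ht), Nat.mod_eq_of_lt (hcon t' ht')] at hm
  exact h22 hm

/-- the last variable as the outer variable -/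
noncomputable def npE (K : Type u) [Field K] : P3 K ≃ₐ[K] Polynomial (MvPolynomial (Fin 2) K) :=
  (renameEquiv K (Equiv.swap (0 : Fin 3) 2)).trans (finSuccEquiv K 2)

theorem npE_coeff {K : Type u} [Field K] (g : P3 K) (t : Fin 3 →₀ ℕ) :
    coeff t g = coeff (Finsupp.tail (Finsupp.mapDomain (Equiv.swap (0 : Fin 3) 2) t))
      ((npE K g).coeff (t 2)) := by
  have h2 : t 2 = (Finsupp.mapDomain (Equiv.swap (0 : Fin 3) 2) t) 0 := by
    have := Finsupp.mapDomain_apply (Equiv.swap (0 : Fin 3) 2).injective t 2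
    rw [Equiv.swap_apply_right] at this
    exact this.symm
  show _ = coeff _ ((finSuccEquiv K 2 (rename (Equiv.swap (0 : Fin 3) 2) g)).coeff (t 2))
  rw [finSuccEquiv_coeff_coeff, h2, Finsupp.cons_tail,
    coeff_rename_mapDomain _ (Equiv.swap (0 : Fin 3) 2).injective]

theorem npE_tail (t : Fin 3 →₀ ℕ)
    (h : Finsupp.tail (Finsupp.mapDomain (Equiv.swap (0 : Fin 3) 2) t) = 0) :
    t 0 = 0 ∧ t 1 = 0 := by
  have a0 := Finsupp.mapDomain_apply (Equiv.swap (0 : Fin 3) 2).injective t 0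
  have a1 := Finsupp.mapDomain_apply (Equiv.swap (0 : Fin 3) 2).injective t 1
  have b0 := DFunLike.congr_fun h 0
  have b1 := DFunLike.congr_fun h 1
  rw [Finsupp.tail_apply] at b0 b1
  rw [Equiv.swap_apply_left] at a0
  rw [Equiv.swap_apply_of_ne_of_ne (by decide) (by decide)] at a1
  exact ⟨a0.symm.trans b1, a1.symm.trans b0⟩

theorem np_comp {K : Type u} [Field K] (I : Ideal (P4 K))
    (hI : ∀ h ∈ I, ∀ d, homogeneousComponent d h ∈ I) (m Q : ℕ) (hm : 0 < m) (b : Fin 3 → P4 K)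
    (hb : ∀ i, (b i).IsHomogeneous (m * wt Q i)) (g : P3 K) (hg : aeval b g ∈ I) (N : ℕ) :
    aeval b (weightedHomogeneousComponent (wt Q) N g) ∈ I := by
  classical
  have h := hI _ hg (m * N)
  rw [mv_aeval_component b (fun i => m * wt Q i) hb] at h
  have e : weightedHomogeneousComponent (fun i => m * wt Q i) (m * N) g =
      weightedHomogeneousComponent (wt Q) N g := by
    ext t
    have : Finsupp.weight (fun i => m * wt Q i) t = m * Finsupp.weight (wt Q) t := by
      rw [np_wt, Finsupp.weight_apply, Finsupp.sum_fintype _ _ (fun i => by simp),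
        Fin.sum_univ_three]
      simp [wt]
      ring
    simp only [coeff_weightedHomogeneousComponent, this, Nat.mul_right_inj hm.ne']
  rwa [e] at h

/-- the equation of the image -/
theorem np_eq {K : Type u} [Field K] [IsAlgClosed K] (I : Ideal (P4 K)) (hP : I.IsPrime)
    (hI : ∀ h ∈ I, ∀ d, homogeneousComponent d h ∈ I) (m Q a : ℕ) (hm : 0 < m) (ha : 0 < a)
    (hQ : 0 < Q) (b : Fin 3 → P4 K) (hb : ∀ i, (b i).IsHomogeneous (m * wt Q i))
    (hz : ∀ v ∈ V I, eval v (b 0) = 0 → eval v (b 1) = 0 → v = 0)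
    (hbig : ∀ (g : P3 K) (N : ℕ), g.IsWeightedHomogeneous (wt Q) N → g ≠ 0 → aeval b g ∈ I →
      ∃ t ∈ g.support, a ≤ t 2) :
    ∃ (F : P3 K) (n : ℕ), F.IsWeightedHomogeneous (wt Q) (n * Q) ∧
      coeff (Finsupp.single 2 n) F = 1 ∧ a ≤ n ∧ ∀ g : P3 K, aeval b g ∈ I ↔ F ∣ g := by
  classical
  let c : Fin 2 → P4 K := ![b 1, b 0]
  let φ : MvPolynomial (Fin 2) K →ₐ[K] P4 K ⧸ I := (Ideal.Quotient.mkₐ K I).comp (aeval c)
  have hfin : φ.toRingHom.Finite := mv_fin_quot I hI c (fun _ => m) (fun _ => hm)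
    (fun j => by
      fin_cases j
      · simpa [wt, c] using hb 1
      · simpa [wt, c] using hb 0)
    (fun v hv h => hz v hv (h 1) (h 0))
  letI : Algebra (MvPolynomial (Fin 2) K) (P4 K ⧸ I) := φ.toRingHom.toAlgebra
  haveI : Module.Finite (MvPolynomial (Fin 2) K) (P4 K ⧸ I) := hfin
  haveI : IsDomain (P4 K ⧸ I) := Ideal.Quotient.isDomain I
  let y : P4 K ⧸ I := Ideal.Quotient.mk I (b 2)
  have hev : ∀ g : P3 K, Ideal.Quotient.mk I (aeval b g) = Polynomial.aeval y (npE K g) := by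
    intro g
    have hX0 : npE K (X 0) = Polynomial.C (X 1) := by
      show finSuccEquiv K 2 (rename _ (X 0)) = _
      rw [rename_X, Equiv.swap_apply_left]
      exact finSuccEquiv_X_succ (j := 1)
    have hX1 : npE K (X 1) = Polynomial.C (X 0) := by
      show finSuccEquiv K 2 (rename _ (X 1)) = _
      rw [rename_X, Equiv.swap_apply_of_ne_of_ne (by decide) (by decide)]
      exact finSuccEquiv_X_succ (j := 0)
    have hX2 : npE K (X 2) = Polynomial.X := by
      show finSuccEquiv K 2 (rename _ (X 2)) = _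
      rw [rename_X, Equiv.swap_apply_right]
      exact finSuccEquiv_X_zero
    have hφ : ∀ h, algebraMap (MvPolynomial (Fin 2) K) (P4 K ⧸ I) h =
        Ideal.Quotient.mk I (aeval c h) := fun _ => rfl
    induction g using MvPolynomial.induction_on with
    | C r =>
      have : npE K (C r) = Polynomial.C (C r) := (npE K).commutes r
      rw [this, Polynomial.aeval_C, hφ, aeval_C, aeval_C]
    | add f g hf hg => simp only [map_add, hf, hg]
    | mul_X f i hf =>
      rw [map_mul, map_mul, map_mul, map_mul, hf, aeval_X]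
      congr 1
      fin_cases i
      · show _ = Polynomial.aeval y (npE K (X 0))
        rw [hX0, Polynomial.aeval_C, hφ, aeval_X]
        rfl
      · show _ = Polynomial.aeval y (npE K (X 1))
        rw [hX1, Polynomial.aeval_C, hφ, aeval_X]
        rfl
      · show _ = Polynomial.aeval y (npE K (X 2))
        rw [hX2, Polynomial.aeval_X]
        rfl
  have hinj : Function.Injective (algebraMap (MvPolynomial (Fin 2) K) (P4 K ⧸ I)) := by
    rw [injective_iff_map_eq_zero]
    intro h hh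
    by_contra hne
    let g : P3 K := (npE K).symm (Polynomial.C h)
    have hg : npE K g = Polynomial.C h := (npE K).apply_symm_apply _
    have hgI : aeval b g ∈ I := by
      rw [← Ideal.Quotient.eq_zero_iff_mem, hev, hg, Polynomial.aeval_C, hh]
    have hg0 : g ≠ 0 := by
      intro h0
      rw [h0, map_zero] at hg
      exact hne (Polynomial.C_eq_zero.mp hg.symm)
    obtain ⟨t, ht⟩ := support_nonempty.mpr hg0
    obtain ⟨t', ht', hle⟩ := hbig _ _
      (weightedHomogeneousComponent_isWeightedHomogeneous (w := wt Q) (Finsupp.weight (wt Q) t) g)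
      (by
        intro h0
        have := congrArg (coeff t) h0
        rw [coeff_weightedHomogeneousComponent, if_pos rfl] at this
        exact mem_support_iff.mp ht this)
      (np_comp I hI m Q hm b hb g hgI _)
    apply mem_support_iff.mp ht'
    rw [coeff_weightedHomogeneousComponent, npE_coeff g t', hg, Polynomial.coeff_C,
      if_neg (show ¬ t' 2 = 0 by omega), coeff_zero, ite_self]
  haveI : FaithfulSMul (MvPolynomial (Fin 2) K) (P4 K ⧸ I) :=
    (faithfulSMul_iff_algebraMap_injective _ _).mpr hinj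
  have hy : IsIntegral (MvPolynomial (Fin 2) K) y := Algebra.IsIntegral.isIntegral y
  set μ := minpoly (MvPolynomial (Fin 2) K) y with hμ
  have hmon : μ.Monic := minpoly.monic hy
  let F : P3 K := (npE K).symm μ
  have hF : npE K F = μ := (npE K).apply_symm_apply _
  have hker : ∀ g : P3 K, aeval b g ∈ I ↔ μ ∣ npE K g := by
    intro g
    rw [← Ideal.Quotient.eq_zero_iff_mem, hev]
    exact minpoly.isIntegrallyClosed_dvd_iff hy _
  have hFI : aeval b F ∈ I := (hker F).mpr (hF ▸ dvd_rfl)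
  have hc1 : coeff (Finsupp.single 2 μ.natDegree) F = 1 := by
    rw [npE_coeff, hF]
    have e1 : Finsupp.tail (Finsupp.mapDomain (Equiv.swap (0 : Fin 3) 2)
        (Finsupp.single 2 μ.natDegree)) = 0 := by
      rw [Finsupp.mapDomain_single, Equiv.swap_apply_right]
      ext i
      rw [Finsupp.tail_apply, Finsupp.single_eq_of_ne (Fin.succ_ne_zero i)]
      rfl
    rw [e1, Finsupp.single_eq_same, hmon.coeff_natDegree, coeff_zero_one]
  have hhom : F = weightedHomogeneousComponent (wt Q) (μ.natDegree * Q) F := by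
    have hd : μ ∣ npE K (F - weightedHomogeneousComponent (wt Q) (μ.natDegree * Q) F) := by
      rw [← hker, map_sub]
      exact I.sub_mem hFI (np_comp I hI m Q hm b hb F hFI _)
    have hlt : (npE K (F - weightedHomogeneousComponent (wt Q) (μ.natDegree * Q) F)).degree <
        μ.degree := by
      rw [Polynomial.degree_eq_natDegree hmon.ne_zero, Polynomial.degree_lt_iff_coeff_zero]
      intro j hj
      ext s
      let t : Fin 3 →₀ ℕ := Finsupp.mapDomain (Equiv.swap (0 : Fin 3) 2) (Finsupp.cons j s)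
      have ht : Finsupp.mapDomain (Equiv.swap (0 : Fin 3) 2) t = Finsupp.cons j s := by
        rw [← Finsupp.mapDomain_comp]
        have : (Equiv.swap (0 : Fin 3) 2) ∘ (Equiv.swap (0 : Fin 3) 2) = id := by
          funext i
          simp
        rw [this, Finsupp.mapDomain_id]
      have ht2 : t 2 = j := by
        have := Finsupp.mapDomain_apply (Equiv.swap (0 : Fin 3) 2).injective (Finsupp.cons j s) 0
        rw [Equiv.swap_apply_left] at this
        rw [this, Finsupp.cons_zero]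
      have hc : ∀ g : P3 K, coeff t g = coeff s ((npE K g).coeff j) := by
        intro g
        rw [npE_coeff, ht, ht2, Finsupp.tail_cons]
      rw [← hc, coeff_sub, coeff_weightedHomogeneousComponent, coeff_zero]
      split_ifs with hw
      · exact sub_self _
      · rw [sub_zero, hc, hF]
        rcases (show μ.natDegree ≤ j from hj).eq_or_lt with hj | hj
        · rw [← hj, hmon.coeff_natDegree, coeff_one, if_neg]
          intro hs
          obtain ⟨z0, z1⟩ := npE_tail t (by rw [ht, Finsupp.tail_cons, hs])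
          apply hw
          rw [np_wt, z0, z1, ht2, hj]
          simp
        · rw [Polynomial.coeff_eq_zero_of_natDegree_lt hj, coeff_zero]
    have h0 := Polynomial.eq_zero_of_dvd_of_degree_lt hd hlt
    rw [map_eq_zero_iff _ (npE K).injective, sub_eq_zero] at h0
    exact h0
  have hW : F.IsWeightedHomogeneous (wt Q) (μ.natDegree * Q) := by
    rw [hhom]
    exact weightedHomogeneousComponent_isWeightedHomogeneous _ _
  refine ⟨F, μ.natDegree, hW, hc1, ?_, fun g => ?_⟩
  · obtain ⟨t, ht, hle⟩ := hbig F _ hW (by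
      intro h0
      rw [h0, coeff_zero] at hc1
      exact zero_ne_one hc1) hFI
    have w1 := hW (mem_support_iff.mp ht)
    rw [np_wt] at w1
    exact hle.trans (Nat.le_of_mul_le_mul_right (by omega) hQ)
  · rw [hker, ← hF]
    exact map_dvd_iff (npE K)

theorem np_iota_map {k : Type u} [Field k] (ξ : Fin 4 → PowerSeries k) (L : Type u) [Field L]
    [Algebra k L] (h : P4 k) : iota ξ L (MvPolynomial.map (algebraMap k L) h) =
      PowerSeries.map (algebraMap k L) (aeval ξ h) := by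
  induction h using MvPolynomial.induction_on with
  | C r => simp [iota]
  | add f g hf hg => simp only [map_add, hf, hg]
  | mul_X f i hf =>
    simp only [map_mul, hf, map_X, aeval_X]
    simp [iota]

theorem np_order_map {k : Type u} [Field k] (L : Type u) [Field L] [Algebra k L]
    (φ : PowerSeries k) (n : ℕ) (h : φ.order = (n : ℕ)) :
    (PowerSeries.map (algebraMap k L) φ).order = (n : ℕ) := by
  rw [PowerSeries.order_eq_nat] at h ⊢
  refine ⟨?_, fun i hi => ?_⟩
  · rw [PowerSeries.coeff_map]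
    exact (map_ne_zero _).mpr h.1
  · rw [PowerSeries.coeff_map, h.2 i hi, map_zero]

section main
variable {k : Type u} [Field k] {p : ℕ} {ξ : Fin 4 → PowerSeries k} {D c : ℕ} {δ : P4 k}
  {Ω : Type u} [Field Ω] [Algebra k Ω] {e : Option (Fin 5) → Ω} {m Q a e0 dG : ℕ}
  {s0 y0 G : P4 k}

theorem np_cub (K : Type u) [CommRing K] (i : Fin 5) : (cub K i).IsHomogeneous 3 := by
  fin_cases i
  · exact isHomogeneous_X_pow 0 3
  · exact (isHomogeneous_X_pow 0 2).mul (isHomogeneous_X K 3)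
  · exact (isHomogeneous_X K 0).mul (isHomogeneous_X_pow 3 2)
  · exact isHomogeneous_X_pow 3 3
  · exact (isHomogeneous_X_pow 0 2).mul (isHomogeneous_X K 1)

theorem np_hom (hd : Data p ξ D Ω e m Q a e0 dG s0 y0 G) (i : Fin 3) :
    (trip Ω m s0 y0 G (e none) (fun i => e (some i)) i).IsHomogeneous (m * wt Q i) := by
  fin_cases i
  · show (MvPolynomial.map (algebraMap k Ω) s0).IsHomogeneous (m * 1)
    rw [mul_one]
    exact hd.hs.map _
  · show (X 3 ^ m + C (e none) * X 0 ^ m : P4 Ω).IsHomogeneous (m * 1)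
    rw [mul_one]
    exact (isHomogeneous_X_pow 3 m).add ((isHomogeneous_X_pow 0 m).C_mul _)
  · show (MvPolynomial.map (algebraMap k Ω) y0 + MvPolynomial.map (algebraMap k Ω) G *
      ∑ i, C (e (some i)) * cub Ω i).IsHomogeneous (m * Q)
    refine (hd.hy.map _).add ?_
    rw [← hd.hdG]
    exact (hd.hG.map _).mul (IsHomogeneous.sum _ _ _ fun i _ => (np_cub Ω i).C_mul _)

theorem np_sigma (hd : Data p ξ D Ω e m Q a e0 dG s0 y0 G) (r : k) :
    e none ≠ algebraMap k Ω r := by
  intro h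
  exact hd.ind.transcendental none (h ▸ isAlgebraic_algebraMap r)

theorem np_mpos (hd : Data p ξ D Ω e m Q a e0 dG s0 y0 G) [Fact p.Prime] : 0 < m := by
  obtain ⟨i, hi⟩ := hd.hm
  rw [hi]
  exact pow_pos (Fact.out : p.Prime).pos _

theorem np_Qpos (hd : Data p ξ D Ω e m Q a e0 dG s0 y0 G) [Fact p.Prime] : 0 < Q := by
  obtain ⟨i, hi⟩ := hd.hQ
  rw [hi]
  exact pow_pos (Fact.out : p.Prime).pos _

theorem np_ord0 (hd : Data p ξ D Ω e m Q a e0 dG s0 y0 G) :
    (iota ξ Ω (trip Ω m s0 y0 G (e none) (fun i => e (some i)) 0)).order = (a : ℕ) := by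
  show (iota ξ Ω (MvPolynomial.map (algebraMap k Ω) s0)).order = _
  rw [np_iota_map]
  exact np_order_map Ω _ _ hd.os

theorem np_ord1 (hg : Good ξ D c δ) (hd : Data p ξ D Ω e m Q a e0 dG s0 y0 G) [Fact p.Prime] :
    (iota ξ Ω (trip Ω m s0 y0 G (e none) (fun i => e (some i)) 1)).order = (0 : ℕ) := by
  show (iota ξ Ω (X 3 ^ m + C (e none) * X 0 ^ m)).order = _
  rw [PowerSeries.order_eq_nat]
  refine ⟨?_, fun i hi => absurd hi (Nat.not_lt_zero i)⟩
  have h0 := np_sigma hd 0
  rw [map_zero] at h0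
  simpa [iota, hg.h0, hg.h3, PowerSeries.algebraMap_apply, (np_mpos hd).ne'] using h0

theorem np_ord2 (hd : Data p ξ D Ω e m Q a e0 dG s0 y0 G) :
    (iota ξ Ω (trip Ω m s0 y0 G (e none) (fun i => e (some i)) 2)).order = (e0 : ℕ) := by
  show (iota ξ Ω (MvPolynomial.map (algebraMap k Ω) y0 + MvPolynomial.map (algebraMap k Ω) G *
      ∑ i, C (e (some i)) * cub Ω i)).order = _
  rw [map_add, map_mul, np_iota_map, np_iota_map]
  have h1 := np_order_map Ω _ _ hd.oy
  have h2 := np_order_map Ω _ _ hd.oG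
  have h3 : ∀ i ≤ e0, PowerSeries.coeff i (PowerSeries.map (algebraMap k Ω) (aeval ξ G) *
      iota ξ Ω (∑ i, C (e (some i)) * cub Ω i)) = 0 := by
    intro i hi
    apply PowerSeries.coeff_of_lt_order
    rw [PowerSeries.order_mul, h2]
    refine lt_of_lt_of_le ?_ le_self_add
    exact_mod_cast Nat.lt_succ_of_le hi
  rw [PowerSeries.order_eq_nat] at h1 ⊢
  refine ⟨?_, fun i hi => ?_⟩
  · rw [map_add, h3 _ le_rfl, add_zero]
    exact h1.1
  · rw [map_add, h3 _ hi.le, add_zero]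
    exact h1.2 i hi

theorem np_ncz (hg : Good ξ D c δ) (hd : Data p ξ D Ω e m Q a e0 dG s0 y0 G) [Fact p.Prime]
    (v : Fin 4 → Ω) (hv : v ∈ V (idl ξ Ω))
    (h0 : eval v (trip Ω m s0 y0 G (e none) (fun i => e (some i)) 0) = 0)
    (h1 : eval v (trip Ω m s0 y0 G (e none) (fun i => e (some i)) 1) = 0) : v = 0 := by
  have hm := (np_mpos hd).ne'
  rw [← hg.coneV] at hv
  have hs : aeval ξ s0 ≠ 0 := by
    intro h
    have := hd.os
    rw [h, PowerSeries.order_zero] at this
    exact ENat.top_ne_natCast _ this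
  obtain ⟨Z, hZ, hfin⟩ := hg.finz s0 ⟨m, hd.hs⟩ hs
  have h0' : aeval v s0 = 0 := by
    rw [aeval_def, ← eval_map]
    exact h0
  rcases hfin Ω v hv h0' with h | ⟨z, hz, l, rfl⟩
  · exact h
  have h1' : (l * algebraMap k Ω (z 3)) ^ m + e none * (l * algebraMap k Ω (z 0)) ^ m = 0 := by
    have : eval (fun i => l * algebraMap k Ω (z i)) (X 3 ^ m + C (e none) * X 0 ^ m : P4 Ω) = 0 :=
      h1
    simpa using this
  have hl : l = 0 := by
    by_contra hl
    have h2 : algebraMap k Ω (z 3) ^ m + e none * algebraMap k Ω (z 0) ^ m = 0 := by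
      apply mul_left_cancel₀ (pow_ne_zero m hl)
      rw [mul_zero, ← h1']
      ring
    rcases (hZ z hz).2.1 with hz0 | ⟨hz0, hz3⟩
    · apply np_sigma hd (-(z 3) ^ m)
      rw [hz0, map_one, one_pow, mul_one] at h2
      rw [map_neg, map_pow]
      linear_combination h2
    · rw [hz0, hz3, map_one, map_zero, one_pow, zero_pow hm, mul_zero, add_zero] at h2
      exact one_ne_zero h2
  funext i
  rw [hl, zero_mul]
  rfl

/-- row PLANE -/
theorem np_plane [IsAlgClosed Ω] [Fact p.Prime] (hg : Good ξ D c δ)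
    (hd : Data p ξ D Ω e m Q a e0 dG s0 y0 G) :
    ∃ (F : P3 Ω) (n' : ℕ),
      Plane p (idl ξ Ω) m Q (trip Ω m s0 y0 G (e none) (fun i => e (some i))) F n' ∧ a ≤ n' := by
  have ha := hd.a3
  obtain ⟨F, n, h1, h2, h3, h4⟩ := np_eq (idl ξ Ω) (hg.prime Ω) (hg.comp Ω) m Q a (np_mpos hd)
    (by omega) (np_Qpos hd) _ (np_hom hd) (np_ncz hg hd) (by
      intro g N hw hg0 hI
      refine np_big (fun i => iota ξ Ω (trip Ω m s0 y0 G (e none) (fun i => e (some i)) i)) a e0 Q N
        (by omega) (by rw [hd.e1, Nat.mod_eq_of_lt (by omega)]) (np_ord0 hd) (np_ord1 hg hd)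
        (np_ord2 hd) g hw hg0 ?_
      have hf : Form (aeval (trip Ω m s0 y0 G (e none) (fun i => e (some i))) g) :=
        ⟨m * N, mv_aeval_hom (wt Q) 1 m _ (np_hom hd) hw⟩
      have := (hg.mem Ω _ hf).mp hI
      rwa [← AlgHom.comp_apply, comp_aeval] at this)
  obtain ⟨i, hi⟩ := hd.hm
  exact ⟨F, n, ⟨hg.prime Ω, hg.comp Ω, ⟨i + 1, hi⟩, hd.hQ, np_hom hd, np_ncz hg hd, h1, h2,
    by omega, h4⟩, h3⟩

end main

end H39c

end PartH39cNPlane36

section PartH39cNVal

set_option autoImplicit false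

open MvPolynomial

namespace H39c

universe u

theorem n_val : VAL_s.{u} := by
  classical
  intro k _ _ p _ _ ξ D c δ Ω _ _ _ e m Q a e0 dG s0 y0 G hg hd
  refine ⟨np_ord0 hd, np_ord2 hd, fun g hg0 hlt hI => ?_⟩
  have ha := hd.a3
  obtain ⟨t, ht⟩ := support_nonempty.mpr hg0
  have hw := weightedHomogeneousComponent_isWeightedHomogeneous (w := wt Q)
    (Finsupp.weight (wt Q) t) g
  have hI' := np_comp (idl ξ Ω) (hg.comp Ω) m Q (np_mpos hd) _ (np_hom hd) g hI
    (Finsupp.weight (wt Q) t)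
  have hf : Form (aeval (trip Ω m s0 y0 G (e none) (fun i => e (some i)))
      (weightedHomogeneousComponent (wt Q) (Finsupp.weight (wt Q) t) g)) :=
    ⟨m * _, mv_aeval_hom (wt Q) 1 m _ (np_hom hd) hw⟩
  have hz := (hg.mem Ω _ hf).mp hI'
  rw [← AlgHom.comp_apply, comp_aeval] at hz
  obtain ⟨t', ht', hle⟩ := np_big
    (fun i => iota ξ Ω (trip Ω m s0 y0 G (e none) (fun i => e (some i)) i)) a e0 Q _
    (by omega) (by rw [hd.e1, Nat.mod_eq_of_lt (by omega)]) (np_ord0 hd) (np_ord1 hg hd)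
    (np_ord2 hd) _ hw (by
      intro h0
      have := congrArg (coeff t) h0
      rw [coeff_weightedHomogeneousComponent, if_pos rfl] at this
      exact mem_support_iff.mp ht this) hz
  have hs : t' ∈ g.support := by
    rw [mem_support_iff] at ht' ⊢
    intro h0
    apply ht'
    rw [coeff_weightedHomogeneousComponent, h0, ite_self]
  have := monomial_le_degreeOf 2 hs
  omega

theorem n_minp : MINP_s.{u} := by
  intro K _ _ I m Q a hP hI hm hQ ha hz hind
  obtain ⟨F, n, h1, h2, h3, h4⟩ := np_eq I hP hI m Q 1 hm Nat.one_pos hQ a ha hz (by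
    intro g N _ hg0 hgI
    by_contra hcon
    push Not at hcon
    exact hind g hg0 ((degreeOf_lt_iff Nat.one_pos).2 hcon) hgI)
  have hs : Finsupp.single 2 n ∈ F.support := mem_support_iff.2 (h2 ▸ one_ne_zero)
  have hF0 : F ≠ 0 := by
    intro h0
    rw [h0, coeff_zero] at h2
    exact zero_ne_one h2
  refine ⟨F, n, h1, h2, h3, le_antisymm ?_ ?_, ?_, h4⟩
  · rw [degreeOf_le_iff]
    intro t ht
    have w1 := h1 (mem_support_iff.mp ht)
    rw [np_wt] at w1
    exact Nat.le_of_mul_le_mul_right (by omega) hQ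
  · have := monomial_le_degreeOf 2 hs
    rwa [Finsupp.single_eq_same] at this
  · rw [← Ideal.span_singleton_prime hF0]
    have e : Ideal.span {F} = I.comap (aeval a : P3 K →ₐ[K] P4 K) := by
      ext g
      rw [Ideal.mem_span_singleton, Ideal.mem_comap, h4]
    rw [e]
    exact Ideal.comap_isPrime _ _

end H39c

end PartH39cNVal
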