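import Pool.Agent.MP_b04567_ag.Cp.CB
import Pool.Agent.MP_b04567_ag.Cp.NB
import Pool.Agent.MP_b04567_ag.Cp.EC

section PartH39cMain

set_option autoImplicit false

namespace H39c

universe u

theorem main_n : N_s.{u} :=
  have hA : ACL_s.{u} := n_acl
  have hN := n_ncz hA
  have hG := n_gen hA hN
  have hT := n_tr2 hA
  n_asm n_dual hN hG n_tanu (n_tri hA hT hN hG n_tanu)
    (n_ord n_dual hA hT hN hG n_tanu (n_ds0 n_dual n_tanu)) (n_conj hA hN hG) n_pth (n_gam n_pth)
    n_val n_minp (n_phi n_val) n_comb n_num (n_loc n_dual hN) (n_fin hN)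

theorem main_loc (p : ℕ) : H62e.LOC_s.{u} p :=
  Eo.eo_loc_of Eo.eo_deh Eo.eo_aff Eo.eo_cram Eo.eo_jac Eo.eo_sepv Eo.eo_nfs Eo.eo_lodd Eo.eo_ltwo
    Eo.eo_ndv Eo.eo_vi Eo.eo_gtr Eo.eo_iter p

open H62e in
theorem main_e (p : ℕ) : E_s.{u} p :=
  e_end p (main_loc p) e_scale e_vand e_fact e_interp e_homg (e_fini p) (e_norm p) (e_finz p)
    (e_CHO1 p) (e_one p) (e_cho2 p) (e_sc1 p) (e_sc2 p) (e_all p) (e_k1 p) (e_int p) e_ker
    (e_surf1 p) (e_surf2 p) (e_sv p) (e_link1 p) (e_link2 p) (e_frob p) (e_back p)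

theorem main (p : ℕ) : Main_s.{u} p := top_part p c_part main_n (main_e p) (m_part p)

end H39c

end PartH39cMain

section PartH39cPn79

set_option autoImplicit false

open MvPolynomial

namespace H39c.Pn

universe u

theorem dim_eq {A B : Type u} [CommRing A] [CommRing B] [IsDomain B] [Algebra A B]
    [Algebra.IsIntegral A B] (hinj : Function.Injective (algebraMap A B)) :
    ringKrullDim B = ringKrullDim A := by
  have h1 : ringKrullDim B ≤ ringKrullDim A := by
    refine Order.krullDim_le_of_strictMono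
      (PrimeSpectrum.comap (algebraMap A B)) fun P Q hPQ => ?_
    exact Ideal.IsIntegral.comap_lt_comap (R := A) (I := P.asIdeal) (J := Q.asIdeal) hPQ
  have h2 : ringKrullDim A ≤ ringKrullDim B := by
    refine iSup_le fun l => ?_
    obtain ⟨Q, hQ, hQo⟩ := Ideal.exists_ideal_over_prime_of_isIntegral_of_isDomain
      (S := B) (RelSeries.head l).asIdeal (by
        intro z hz
        have : z = 0 := hinj (by rw [map_zero]; exact hz)
        rw [this]
        exact zero_mem _)
    have : Q.LiesOver (RelSeries.head l).asIdeal := ⟨hQo.symm⟩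
    obtain ⟨L, hL, -⟩ := Ideal.exists_ltSeries_of_hasGoingUp l Q
    rw [← hL]
    exact Order.LTSeries.length_le_krullDim L
  exact le_antisymm h1 h2

theorem noether {k A : Type u} [Field k] [CommRing A] [IsDomain A] [Algebra k A]
    [Algebra.FiniteType k A] (h : ringKrullDim A = 2) :
    ∃ g : MvPolynomial (Fin 2) k →ₐ[k] A, g.toRingHom.IsIntegral := by
  obtain ⟨s, g, ginj, gint⟩ := exists_integral_inj_algHom_of_fg k A
  let _ : Algebra (MvPolynomial (Fin s) k) A := g.toRingHom.toAlgebra
  have : Algebra.IsIntegral (MvPolynomial (Fin s) k) A := ⟨gint⟩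
  have hp : ringKrullDim (MvPolynomial (Fin s) k) = s := by
    rw [MvPolynomial.ringKrullDim_of_isNoetherianRing, ringKrullDim_eq_zero_of_field, zero_add]
    simp
  have h3 : ((2 : ℕ) : WithBot ℕ∞) = s := by
    rw [← hp, ← dim_eq (A := MvPolynomial (Fin s) k) (B := A) ginj, h]; rfl
  have h4 : 2 = s := by exact_mod_cast h3
  subst h4
  exact ⟨g, gint⟩

theorem card_le {k D : Type u} [Field k] [CommRing D] [IsDomain D] [Algebra k D] {m s : ℕ}
    (y : Fin m → D) (hy : AlgebraicIndependent k y) (g : MvPolynomial (Fin s) k →ₐ[k] D)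
    (hg : g.toRingHom.IsIntegral) : m ≤ s := by
  have hint : Algebra.IsIntegral g.range D := ⟨fun x => by
    obtain ⟨q, hq, hx⟩ := hg x
    refine ⟨q.map (g.rangeRestrict : MvPolynomial (Fin s) k →+* g.range), hq.map _, ?_⟩
    rw [Polynomial.eval₂_map]
    exact hx⟩
  have h1 : Algebra.trdeg k D ≤ s := by
    rw [← trdeg_add_eq k g.range (A := D), trdeg_eq_zero (R := g.range), add_zero]
    refine (trdeg_le_of_surjective g.rangeRestrict g.rangeRestrict_surjective).trans ?_
    rw [MvPolynomial.trdeg_of_isDomain]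
    simp
  have h2 := hy.lift_cardinalMk_le_trdeg
  simp only [Cardinal.mk_fin, Cardinal.lift_natCast, Cardinal.lift_uzero] at h2
  exact_mod_cast h2.trans h1

/-- A nonzero polynomial vanishing on all differences of points of a two-dimensional cone. -/
theorem secant {k : Type u} [Field k] {m : ℕ} (hm : 4 < m) (P : Ideal (MvPolynomial (Fin m) k))
    (hP : P.IsPrime) (hd : ringKrullDim (MvPolynomial (Fin m) k ⧸ P) = 2) :
    ∃ H : MvPolynomial (Fin m) k, H ≠ 0 ∧ ∀ v v' : Fin m → k, (∀ f ∈ P, eval v f = 0) →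
      (∀ f ∈ P, eval v' f = 0) → eval (fun j => v j - v' j) H = 0 := by
  classical
  obtain ⟨g, hg⟩ := noether (k := k) hd
  let T := MvPolynomial (Fin m ⊕ Fin m) k
  let α0 : MvPolynomial (Fin m) k →ₐ[k] T := rename Sum.inl
  let β0 : MvPolynomial (Fin m) k →ₐ[k] T := rename Sum.inr
  let J : Ideal T := P.map α0 ⊔ P.map β0
  let ψ : MvPolynomial (Fin m) k →ₐ[k] T := aeval fun j => X (Sum.inl j) - X (Sum.inr j)
  by_cases hex : ∃ H, H ≠ 0 ∧ ψ H ∈ J
  · obtain ⟨H, hH, hJ⟩ := hex
    refine ⟨H, hH, fun v v' hv hv' => ?_⟩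
    have hle : J ≤ RingHom.ker (eval (Sum.elim v v')) := by
      refine sup_le ?_ ?_
      · rw [Ideal.map_le_iff_le_comap]
        intro f hf
        change eval (Sum.elim v v') (rename Sum.inl f) = 0
        rw [eval_rename]; exact hv f hf
      · rw [Ideal.map_le_iff_le_comap]
        intro f hf
        change eval (Sum.elim v v') (rename Sum.inr f) = 0
        rw [eval_rename]; exact hv' f hf
    have := hle hJ
    rw [RingHom.mem_ker, H33s.eval_aeval'] at this
    simpa using this
  exfalso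
  push Not at hex
  obtain ⟨q, hq, hJq, hdis⟩ := Ideal.exists_le_prime_disjoint J
    ((nonZeroDivisors (MvPolynomial (Fin m) k)).map ψ) (by
      rw [Set.disjoint_left]
      rintro x hx ⟨H, hH, rfl⟩
      exact hex H (nonZeroDivisors.ne_zero hH) hx)
  let D := T ⧸ q
  let π : T →ₐ[k] D := Ideal.Quotient.mkₐ k q
  have hy : AlgebraicIndependent k fun j => π (X (Sum.inl j) - X (Sum.inr j)) := by
    rw [algebraicIndependent_iff]
    intro H hH
    by_contra h0
    have h1 : π (ψ H) = 0 := by
      rw [← hH, ← AlgHom.comp_apply, comp_aeval]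
    exact Set.disjoint_left.1 hdis (Ideal.Quotient.eq_zero_iff_mem.1 h1)
      ⟨H, mem_nonZeroDivisors_of_ne_zero h0, rfl⟩
  let α : (MvPolynomial (Fin m) k ⧸ P) →ₐ[k] D := Ideal.Quotient.liftₐ P (π.comp α0) fun f hf =>
    Ideal.Quotient.eq_zero_iff_mem.2 (hJq (Ideal.mem_sup_left (Ideal.mem_map_of_mem _ hf)))
  let β : (MvPolynomial (Fin m) k ⧸ P) →ₐ[k] D := Ideal.Quotient.liftₐ P (π.comp β0) fun f hf =>
    Ideal.Quotient.eq_zero_iff_mem.2 (hJq (Ideal.mem_sup_right (Ideal.mem_map_of_mem _ hf)))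
  let G : MvPolynomial (Fin 4) k →ₐ[k] D :=
    aeval ![α (g (X 0)), α (g (X 1)), β (g (X 0)), β (g (X 1))]
  have key : ∀ (γ : (MvPolynomial (Fin m) k ⧸ P) →ₐ[k] D) (ρ : Fin 2 → Fin 4),
      G.comp (rename ρ) = γ.comp g → ∀ r, G.toRingHom.IsIntegralElem (γ r) := by
    intro γ ρ hγ r
    obtain ⟨Q, hQ, hr⟩ := hg r
    refine ⟨Q.map (rename ρ : MvPolynomial (Fin 2) k →ₐ[k] MvPolynomial (Fin 4) k).toRingHom,
      hQ.map _, ?_⟩
    rw [Polynomial.eval₂_map]
    have h1 := congrArg γ.toRingHom hr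
    rw [Polynomial.hom_eval₂, map_zero] at h1
    have h2 : G.toRingHom.comp
        (rename ρ : MvPolynomial (Fin 2) k →ₐ[k] MvPolynomial (Fin 4) k).toRingHom =
        γ.toRingHom.comp g.toRingHom := congrArg AlgHom.toRingHom hγ
    rw [h2]
    exact h1
  have ha := key α ![0, 1] (MvPolynomial.algHom_ext fun i => by fin_cases i <;> simp [G])
  have hb := key β ![2, 3] (MvPolynomial.algHom_ext fun i => by fin_cases i <;> simp [G])
  have hG : G.toRingHom.IsIntegral := by
    intro x
    obtain ⟨x, rfl⟩ := Ideal.Quotient.mk_surjective x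
    induction x using MvPolynomial.induction_on with
    | C r =>
      have : Ideal.Quotient.mk q (C r : T) = G.toRingHom (C r) := by
        change π (algebraMap k T r) = G (algebraMap k _ r)
        rw [AlgHom.commutes, AlgHom.commutes]
      rw [this]
      exact RingHom.isIntegralElem_map _
    | add f f' hf hf' => rw [map_add]; exact hf.add _ hf'
    | mul_X f i hf =>
      rw [map_mul]
      refine hf.mul _ ?_
      rcases i with j | j
      · have := ha (Ideal.Quotient.mk P (X j))
        rwa [show α (Ideal.Quotient.mk P (X j)) = Ideal.Quotient.mk q (X (Sum.inl j)) from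
          congrArg π (rename_X Sum.inl j)] at this
      · have := hb (Ideal.Quotient.mk P (X j))
        rwa [show β (Ideal.Quotient.mk P (X j)) = Ideal.Quotient.mk q (X (Sum.inr j)) from
          congrArg π (rename_X Sum.inr j)] at this
  have := card_le _ hy G hG
  omega

theorem fin_quot {K : Type u} [Field K] [IsAlgClosed K] {σ ι : Type} [Fintype σ] [Fintype ι]
    (I : Ideal (MvPolynomial σ K)) (hI : ∀ h ∈ I, ∀ d, homogeneousComponent d h ∈ I)
    (b : ι → MvPolynomial σ K) (hb : ∀ j, (b j).IsHomogeneous 1)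
    (hz : ∀ v : σ → K, (∀ f ∈ I, eval v f = 0) → (∀ j, eval v (b j) = 0) → v = 0) :
    ((Ideal.Quotient.mkₐ K I).comp
      (aeval b : MvPolynomial ι K →ₐ[K] MvPolynomial σ K)).toRingHom.Finite := by
  classical
  obtain ⟨S, hS⟩ : I.FG := IsNoetherian.noetherian I
  let M : ℕ := S.sup totalDegree
  let N : ℕ := (M + 1).factorial
  have hN : 0 < N := Nat.factorial_pos _
  have heN : ∀ e : Fin (M + 1), (e : ℕ) + 1 ∣ N := fun e =>
    Nat.dvd_factorial (Nat.succ_pos _) (by have := e.2; omega)
  let a : ι ⊕ (S × Fin (M + 1) × σ) → MvPolynomial σ K := Sum.elim (fun j => b j ^ N)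
    (fun x => (homogeneousComponent (x.2.1 : ℕ) (x.1 : MvPolynomial σ K) * X x.2.2) ^
      (N / ((x.2.1 : ℕ) + 1)))
  have hpos : ∀ e : Fin (M + 1), N / ((e : ℕ) + 1) ≠ 0 := fun e =>
    (Nat.div_pos (Nat.le_of_dvd hN (heN e)) (Nat.succ_pos _)).ne'
  have hfin := H33s.finite_of_no_common_zero a hN (fun i => by
      rcases i with j | x
      · have := (hb j).pow N
        rwa [one_mul] at this
      · have := ((homogeneousComponent_isHomogeneous (x.2.1 : ℕ) (x.1 : MvPolynomial σ K)).mul
          (isHomogeneous_X K x.2.2)).pow (N / ((x.2.1 : ℕ) + 1))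
        rwa [Nat.mul_div_cancel' (heN _)] at this) (fun x hx => by
      by_contra hx0
      obtain ⟨j0, hj0⟩ : ∃ j, x j ≠ 0 := Function.ne_iff.1 hx0
      apply hx0
      refine hz x (fun f hf => ?_) (fun j => ?_)
      · have hS' : ∀ f ∈ S, eval x f = 0 := by
          intro f hf
          rw [← sum_homogeneousComponent f, map_sum]
          refine Finset.sum_eq_zero fun e he => ?_
          have hle : f.totalDegree ≤ M := Finset.le_sup (f := totalDegree) hf
          have he' : e < M + 1 := by have := Finset.mem_range.1 he; omega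
          have := hx (Sum.inr (⟨f, hf⟩, ⟨e, he'⟩, j0))
          simp only [a, Sum.elim_inr, map_pow, map_mul, eval_X] at this
          exact (mul_eq_zero.1 (pow_eq_zero_iff (hpos ⟨e, he'⟩) |>.1 this)).resolve_right hj0
        rw [← hS] at hf
        have hle : Ideal.span (S : Set (MvPolynomial σ K)) ≤ RingHom.ker (eval x) :=
          Ideal.span_le.2 fun f hf => hS' f hf
        exact hle hf
      · have := hx (Sum.inl j)
        simp only [a, Sum.elim_inl, map_pow] at this
        exact (pow_eq_zero_iff'.1 this).1)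
  let ρ : ι ⊕ (S × Fin (M + 1) × σ) → MvPolynomial ι K :=
    Sum.elim (fun j => X j ^ N) (fun _ => 0)
  have hcomp : ((Ideal.Quotient.mkₐ K I).comp
      (aeval b : MvPolynomial ι K →ₐ[K] MvPolynomial σ K)).comp (aeval ρ) =
      (Ideal.Quotient.mkₐ K I).comp (aeval a) := by
    refine MvPolynomial.algHom_ext fun i => ?_
    rcases i with j | x
    · simp [ρ, a]
    · simp only [ρ, a, AlgHom.comp_apply, aeval_X, Sum.elim_inr, map_zero,
        Ideal.Quotient.mkₐ_eq_mk]
      symm
      rw [Ideal.Quotient.eq_zero_iff_mem]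
      refine Ideal.pow_mem_of_mem _ (Ideal.mul_mem_right _ _ (hI _ ?_ _)) _
        (Nat.pos_of_ne_zero (hpos _))
      rw [← hS]
      exact Ideal.subset_span x.1.2
  have h2 : ((Ideal.Quotient.mkₐ K I).comp (aeval a)).toRingHom.Finite :=
    RingHom.Finite.comp (g := (Ideal.Quotient.mkₐ K I).toRingHom)
      (RingHom.Finite.of_surjective _ Ideal.Quotient.mk_surjective) hfin
  rw [← hcomp] at h2
  exact RingHom.Finite.of_comp_finite
    (f := (aeval ρ : MvPolynomial _ K →ₐ[K] MvPolynomial ι K).toRingHom) h2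

/-- The statement for curves in the projective space with `n + 4` coordinates. -/
def St (k : Type u) [Field k] (n : ℕ) : Prop :=
  ∀ P : Ideal (MvPolynomial (Fin (n + 4)) k), P.IsPrime →
    ringKrullDim (MvPolynomial (Fin (n + 4)) k ⧸ P) = 2 →
    (∀ h ∈ P, ∀ d, homogeneousComponent d h ∈ P) →
    ∃ f : Fin (n + 2) → MvPolynomial (Fin (n + 4)) k, (∀ i, ∃ d, (f i).IsHomogeneous d) ∧
      (Ideal.span (Set.range f)).radical = P

theorem ev_quot {k : Type u} [Field k] {σ : Type} (I : Ideal (MvPolynomial σ k))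
    (χ : (MvPolynomial σ k ⧸ I) →ₐ[k] k) (w : MvPolynomial σ k) :
    χ (Ideal.Quotient.mk I w) = eval (fun j => χ (Ideal.Quotient.mk I (X j))) w := by
  have := aeval_unique (χ.comp (Ideal.Quotient.mkₐ k I))
  exact congrArg (fun F : MvPolynomial σ k →ₐ[k] k => F w) this

theorem step {k : Type u} [Field k] [IsAlgClosed k] (p : ℕ) [Fact p.Prime] [CharP k p] (n : ℕ)
    (ih : St k n) : St k (n + 1) := by
  classical
  intro P hP hd hc
  obtain ⟨H, hH, hsec⟩ := secant (by omega) P hP hd
  obtain ⟨c, hcH⟩ : ∃ c, eval c H ≠ 0 := by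
    by_contra h
    push Not at h
    exact hH (MvPolynomial.funext fun x => by rw [h x, map_zero])
  have hscale : ∀ (v : Fin (n + 1 + 4) → k) (t : k), (∀ f ∈ P, eval v f = 0) →
      ∀ f ∈ P, eval (fun j => t * v j) f = 0 := by
    intro v t hv f hf
    rw [← sum_homogeneousComponent f, map_sum]
    refine Finset.sum_eq_zero fun e _ => ?_
    have h1 := hv _ (hc f hf e)
    have h2 := homogeneousComponent_isHomogeneous e f
    generalize homogeneousComponent e f = g at h1 h2
    have : eval (fun j => t * v j) g = t ^ e * eval v g := by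
      rw [eval_eq', eval_eq', Finset.mul_sum]
      refine Finset.sum_congr rfl fun s hs => ?_
      have h3 : ∑ i, s i = e := by
        have := h2 (mem_support_iff.1 hs)
        rw [← this, Finsupp.weight_apply, Finsupp.sum_fintype _ _ (by simp)]
        simp
      simp only [mul_pow, Finset.prod_mul_distrib, Finset.prod_pow_eq_pow_sum, h3]
      ring
    rw [this, h1, mul_zero]
  have hpt : ∃ v : Fin (n + 1 + 4) → k, ∀ f ∈ P, eval v f = 0 := by
    obtain ⟨m, hm⟩ := Ideal.exists_maximal (MvPolynomial (Fin (n + 1 + 4)) k ⧸ P)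
    obtain ⟨χ, -⟩ := H33s.point_of_maximal (k := k) m (h := hm)
    exact ⟨_, fun f hf => by rw [← ev_quot P χ, Ideal.Quotient.eq_zero_iff_mem.2 hf, map_zero]⟩
  have hline : ∀ (v v' : Fin (n + 1 + 4) → k) (t : k), (∀ f ∈ P, eval v f = 0) →
      (∀ f ∈ P, eval v' f = 0) → (∀ j, v j - v' j = t * c j) → v = v' := by
    intro v v' t hv hv' h
    by_cases ht : t = 0
    · exact funext fun j => sub_eq_zero.1 (by rw [h, ht, zero_mul])
    · exfalso
      apply hcH
      have := hsec _ _ (hscale v t⁻¹ hv) (hscale v' t⁻¹ hv')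
      rw [← this]
      congr 2
      funext j
      rw [← mul_sub, h, ← mul_assoc, inv_mul_cancel₀ ht, one_mul]
  obtain ⟨v0, hv0⟩ := hpt
  have h0 : ∀ f ∈ P, eval (0 : Fin (n + 1 + 4) → k) f = 0 := by
    have := hscale v0 0 hv0
    simp only [zero_mul] at this
    exact this
  obtain ⟨i, hi⟩ : ∃ i, c i ≠ 0 := by
    by_contra h
    push Not at h
    apply hcH
    have := hsec 0 0 h0 h0
    rw [← this]
    congr 2
    funext j
    simp [h j]
  let l : Fin (n + 4) → MvPolynomial (Fin (n + 1 + 4)) k :=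
    fun j => X (i.succAbove j) - C (c (i.succAbove j) / c i) * X i
  have hl : ∀ j, (l j).IsHomogeneous 1 := fun j =>
    (isHomogeneous_X _ _).sub ((isHomogeneous_X _ _).C_mul _)
  have hlev : ∀ (v : Fin (n + 1 + 4) → k) j,
      eval v (l j) = v (i.succAbove j) - c (i.succAbove j) / c i * v i := fun v j => by simp [l]
  have hdiff : ∀ v v' : Fin (n + 1 + 4) → k, (∀ j, eval v (l j) = eval v' (l j)) →
      ∀ j, v j - v' j = (v i - v' i) / c i * c j := by
    intro v v' h j
    refine Fin.succAboveCases i ?_ (fun j => ?_) j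
    · field_simp
    · have := h j
      rw [hlev, hlev] at this
      field_simp at this ⊢
      linear_combination this
  have hinj : ∀ v v' : Fin (n + 1 + 4) → k, (∀ f ∈ P, eval v f = 0) → (∀ f ∈ P, eval v' f = 0) →
      (∀ j, eval v (l j) = eval v' (l j)) → v = v' :=
    fun v v' hv hv' h => hline v v' _ hv hv' (hdiff v v' h)
  let φ : MvPolynomial (Fin (n + 4)) k →ₐ[k] MvPolynomial (Fin (n + 1 + 4)) k := aeval l
  have hfin := fin_quot P hc l hl fun v hv h => hinj v 0 hv h0 fun j => by
    rw [h j, hlev]; simp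
  let P' : Ideal (MvPolynomial (Fin (n + 4)) k) := P.comap φ
  have hP' : P'.IsPrime := Ideal.comap_isPrime _ _
  have hc' : ∀ h ∈ P', ∀ d, homogeneousComponent d h ∈ P' := by
    intro h hh d
    have := hc _ hh (1 * d)
    rwa [H33s.aeval_component l one_pos hl] at this
  let A := MvPolynomial (Fin (n + 4)) k ⧸ P'
  let B := MvPolynomial (Fin (n + 1 + 4)) k ⧸ P
  let θ : A →ₐ[k] B := Ideal.Quotient.liftₐ P' ((Ideal.Quotient.mkₐ k P).comp φ) fun f hf =>
    Ideal.Quotient.eq_zero_iff_mem.2 hf
  let _ : Algebra A B := θ.toRingHom.toAlgebra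
  have hmap : ∀ f, algebraMap A B (Ideal.Quotient.mk P' f) = Ideal.Quotient.mk P (φ f) :=
    fun _ => rfl
  have : IsScalarTower k A B := IsScalarTower.of_algebraMap_eq fun r => (θ.commutes r).symm
  have hθinj : Function.Injective (algebraMap A B) := by
    rw [injective_iff_map_eq_zero]
    intro a ha
    obtain ⟨f, rfl⟩ := Ideal.Quotient.mk_surjective a
    rw [hmap, Ideal.Quotient.eq_zero_iff_mem] at ha
    exact Ideal.Quotient.eq_zero_iff_mem.2 ha
  have hAB : Module.Finite A B :=
    RingHom.Finite.of_comp_finite (f := Ideal.Quotient.mk P') (g := θ.toRingHom) hfin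
  have hd' : ringKrullDim A = 2 := by rw [← dim_eq hθinj]; exact hd
  obtain ⟨f, hf, hrad⟩ := ih P' hP' hd' hc'
  have hq : ∀ χ : B →ₐ[k] k, ∀ f ∈ P, eval (fun j => χ (Ideal.Quotient.mk P (X j))) f = 0 :=
    fun χ f hf => by rw [← ev_quot P χ, Ideal.Quotient.eq_zero_iff_mem.2 hf, map_zero]
  obtain ⟨e, a, ha⟩ := H33s.move_affine (k := k) (A := A) p (Ideal.Quotient.mk P (X i))
    fun χ ψ h => by
      have := hinj _ _ (hq χ) (hq ψ) fun j => by
        have := h (Ideal.Quotient.mk P' (X j))
        rw [hmap, ev_quot P χ, ev_quot P ψ] at this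
        simpa only [φ, aeval_X] using this
      exact congrFun this i
  obtain ⟨g0, rfl⟩ := Ideal.Quotient.mk_surjective a
  rw [hmap, ← map_pow, Ideal.Quotient.eq] at ha
  have hg := hc _ ha (1 * p ^ e)
  rw [map_sub, H33s.aeval_component l one_pos hl, one_mul,
    homogeneousComponent_eq_self (isHomogeneous_X_pow i _)] at hg
  set g := homogeneousComponent (p ^ e) g0 with hgdef
  have hgh : g.IsHomogeneous (p ^ e) := homogeneousComponent_isHomogeneous _ _
  refine ⟨Fin.cons (X i ^ p ^ e - φ g) fun j => φ (f j), fun j => ?_, le_antisymm ?_ ?_⟩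
  · refine Fin.cases ?_ (fun j => ?_) j
    · refine ⟨p ^ e, (isHomogeneous_X_pow i _).sub ?_⟩
      have := hgh.aeval l hl
      rwa [one_mul] at this
    · obtain ⟨d, hd⟩ := hf j
      exact ⟨1 * d, hd.aeval l hl⟩
  · rw [hP.radical_le_iff, Ideal.span_le]
    rintro _ ⟨j, rfl⟩
    refine Fin.cases hg (fun j => ?_) j
    have : f j ∈ P' := hrad ▸ Ideal.le_radical (Ideal.subset_span ⟨j, rfl⟩)
    exact this
  · rw [← vanishingIdeal_zeroLocus_eq_radical (K := k)]
    intro h hh
    rw [mem_vanishingIdeal_iff]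
    intro x hx
    have hx0 : eval x (X i ^ p ^ e - φ g) = 0 := hx _ (Ideal.subset_span ⟨0, rfl⟩)
    have hxs : ∀ j, eval x (φ (f j)) = 0 := fun j => hx _ (Ideal.subset_span ⟨j.succ, rfl⟩)
    have hker : ∀ w ∈ P', aeval (fun j => eval x (l j)) w = 0 := by
      intro w hw
      rw [← hrad] at hw
      obtain ⟨N, hN⟩ := hw
      have hle : Ideal.span (Set.range f) ≤ RingHom.ker (eval fun j => eval x (l j)) := by
        rw [Ideal.span_le]
        rintro _ ⟨j, rfl⟩
        have := hxs j
        rw [H33s.eval_aeval'] at this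
        exact this
      have := hle hN
      rw [RingHom.mem_ker, map_pow] at this
      exact (pow_eq_zero_iff'.1 this).1
    obtain ⟨Φ, hΦ⟩ := H33s.extend_point (k := k) (C := A) (B := B) hθinj
      (Ideal.Quotient.liftₐ P' (aeval fun j => eval x (l j)) hker)
    set v : Fin (n + 1 + 4) → k := fun j => Φ (Ideal.Quotient.mk P (X j)) with hv
    have hvl : ∀ j, eval v (l j) = eval x (l j) := fun j => by
      have := hΦ (Ideal.Quotient.mk P' (X j))
      rw [hmap, ev_quot P Φ, show φ (X j) = l j from aeval_X l j] at this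
      exact this.trans (aeval_X (fun j => eval x (l j)) j)
    have hvi : v i = x i := by
      have h1 : eval v (X i ^ p ^ e - aeval l g) = 0 := hq Φ _ hg
      rw [map_sub, map_pow, eval_X, H33s.eval_aeval'] at h1 hx0
      simp only [hvl] at h1
      exact H33s.pow_q_inj p e ((sub_eq_zero.1 h1).trans (sub_eq_zero.1 hx0).symm)
    have hvx : v = x := funext fun j => sub_eq_zero.1 (by
      rw [hdiff v x hvl j, hvi, sub_self, zero_div, zero_mul])
    have := hq Φ h hh
    rw [← hv, hvx] at this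
    exact this

theorem all (p : ℕ) (H : Main_s.{u} p) (k : Type u) [Field k] [IsAlgClosed k] [Fact p.Prime]
    [CharP k p] (n : ℕ) : St k n := by
  classical
  induction n with
  | succ n ih => exact step p n ih
  | zero =>
    intro P hP hd hc
    obtain ⟨S, hS⟩ : P.FG := IsNoetherian.noetherian P
    let s : Finset (P4 k) := S.biUnion fun f =>
      (Finset.range (f.totalDegree + 1)).image fun d => homogeneousComponent d f
    obtain ⟨F, G, hF, hG, h⟩ := H k P s hP hd (fun f hf => by
        obtain ⟨g, -, hg⟩ := Finset.mem_biUnion.1 hf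
        obtain ⟨d, -, rfl⟩ := Finset.mem_image.1 hg
        exact ⟨d, homogeneousComponent_isHomogeneous _ _⟩) (le_antisymm (by
        rw [Ideal.span_le]
        intro f hf
        obtain ⟨g, hgS, hg⟩ := Finset.mem_biUnion.1 hf
        obtain ⟨d, -, rfl⟩ := Finset.mem_image.1 hg
        exact hc g (hS ▸ Ideal.subset_span hgS) d) (by
        rw [← hS, Ideal.span_le]
        intro f hf
        rw [← sum_homogeneousComponent f]
        exact Ideal.sum_mem _ fun d hd => Ideal.subset_span
          (Finset.mem_biUnion.2 ⟨f, hf, Finset.mem_image.2 ⟨d, hd, rfl⟩⟩)))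
    refine ⟨![F, G], fun i => by fin_cases i <;> assumption, ?_⟩
    rw [← h]
    congr 2
    simp [Set.pair_comm]

theorem comp_of_span {k σ : Type*} [Field k] (s : Finset (MvPolynomial σ k))
    (hs : ∀ f ∈ s, ∃ d : ℕ, f.IsHomogeneous d) (h : MvPolynomial σ k)
    (hh : h ∈ Ideal.span (s : Set (MvPolynomial σ k))) (d : ℕ) :
    homogeneousComponent d h ∈ Ideal.span (s : Set (MvPolynomial σ k)) := by
  classical
  obtain ⟨c, -, rfl⟩ := Submodule.mem_span_finset.1 hh
  rw [map_sum]
  refine Ideal.sum_mem _ fun f hf => ?_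
  obtain ⟨e, he⟩ := hs f hf
  rw [smul_eq_mul, ← sum_homogeneousComponent (c f), Finset.sum_mul, map_sum]
  refine Ideal.sum_mem _ fun j _ => ?_
  rw [homogeneousComponent_of_mem ((homogeneousComponent_isHomogeneous j (c f)).mul he)]
  split_ifs
  · exact Ideal.mul_mem_left _ _ (Ideal.subset_span hf)
  · exact zero_mem _

/-- Every irreducible curve in projective `(n+3)`-space is cut out by `n + 2` forms. -/
theorem pn (p : ℕ) (H : Main_s.{u} p) (k : Type u) [Field k] [IsAlgClosed k] [Fact p.Prime]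
    [CharP k p] (n : ℕ) (P : Ideal (MvPolynomial (Fin (n + 4)) k))
    (s : Finset (MvPolynomial (Fin (n + 4)) k)) (hP : P.IsPrime)
    (hdim : ringKrullDim (MvPolynomial (Fin (n + 4)) k ⧸ P) = 2)
    (hs : ∀ f ∈ s, ∃ d : ℕ, f.IsHomogeneous d)
    (hspan : Ideal.span (s : Set (MvPolynomial (Fin (n + 4)) k)) = P) :
    ∃ f : Fin (n + 2) → MvPolynomial (Fin (n + 4)) k, (∀ i, ∃ d : ℕ, (f i).IsHomogeneous d) ∧
      (Ideal.span (Set.range f)).radical = P :=
  all p H k n P hP hdim (hspan ▸ comp_of_span s hs)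

end H39c.Pn

end PartH39cPn79
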