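import Pool.Agent.MP_b04567_ag.Cp.Base

section PartH39cNDefs

set_option autoImplicit false
set_option linter.unusedVariables false

open MvPolynomial

namespace H39c

universe u

/-- the dual number point `v + ε W` -/
noncomputable def dp {K : Type u} [CommRing K] {σ : Type} (v W : σ → K) : σ → DualNumber K :=
  fun i => TrivSqZeroExt.inl (v i) + TrivSqZeroExt.inr (W i)

/-- derivative of `h` at `v` in the direction `W` -/
noncomputable def dd {K : Type u} [CommRing K] {σ : Type} (v W : σ → K) (h : MvPolynomial σ K) :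
    K := (aeval (dp v W) h : DualNumber K).snd

/-- elements of `Ω` algebraic over `k(S)` -/
noncomputable def acl (k : Type u) [Field k] {Ω : Type u} [Field Ω] [Algebra k Ω] (S : Set Ω) :
    IntermediateField k Ω :=
  (algebraicClosure (IntermediateField.adjoin k S) Ω).restrictScalars k

/-- `W` is the tangent vector at `v` with `W 0 = 0`, `W 3 = v 0` -/
def TanAt {k : Type u} [Field k] (ξ : Fin 4 → PowerSeries k) {Ω : Type u} [Field Ω] [Algebra k Ω]
    (v W : Fin 4 → Ω) : Prop :=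
  W 0 = 0 ∧ W 3 = v 0 ∧ dp v W ∈ cone ξ (DualNumber Ω)

/-- the triple of PART N -/
noncomputable def tr {k : Type u} [Field k] {Ω : Type u} [Field Ω] [Algebra k Ω]
    (e : Option (Fin 5) → Ω) (m : ℕ) (s0 y0 G : P4 k) : Fin 3 → P4 Ω :=
  trip Ω m s0 y0 G (e none) (fun i => e (some i))

/-- the family `x_v, x_v', τ1, τ2, τ3, τ4` -/
noncomputable def fam {Ω : Type u} [Field Ω] (e : Option (Fin 5) → Ω) (v v' : Fin 4 → Ω) :
    Fin 6 → Ω :=
  ![v 3 / v 0, v' 3 / v' 0, e (some 1), e (some 2), e (some 3), e (some 4)]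

/-- what genericity says about a pair of points with `s0 = 1` -/
structure GenPair (k : Type u) [Field k] {Ω : Type u} [Field Ω] [Algebra k Ω]
    (e : Option (Fin 5) → Ω) (m : ℕ) (G : P4 k) (v v' : Fin 4 → Ω) : Prop where
  v0 : v 0 ≠ 0
  v0' : v' 0 ≠ 0
  ind : AlgebraicIndependent k (fam e v v')
  d0 : v 0 ^ m ≠ v' 0 ^ m
  dG : aeval v G * v 0 ^ 3 ≠ aeval v' G * v' 0 ^ 3

/-- a statement about the data of PART N -/
def All (P : ∀ (k : Type u) [Field k] (ξ : Fin 4 → PowerSeries k) (D : ℕ) (δ : P4 k)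
    (Ω : Type u) [Field Ω] [Algebra k Ω] (e : Option (Fin 5) → Ω) (m Q a e0 : ℕ)
    (s0 y0 G : P4 k), Prop) : Prop :=
  ∀ (k : Type u) [Field k] [IsAlgClosed k] (p : ℕ) [Fact p.Prime] [CharP k p]
  (ξ : Fin 4 → PowerSeries k) (D c : ℕ) (δ : P4 k) (Ω : Type u) [Field Ω] [IsAlgClosed Ω]
  [Algebra k Ω] (e : Option (Fin 5) → Ω) (m Q a e0 dG : ℕ) (s0 y0 G : P4 k),
  Good ξ D c δ → Data p ξ D Ω e m Q a e0 dG s0 y0 G → P k ξ D δ Ω e m Q a e0 s0 y0 G

/-- Row DUAL: calculus of `dd`. -/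
def DUAL_s : Prop := ∀ (K : Type u) [Field K] (n : ℕ) (v W : Fin n → K),
  (∀ h : MvPolynomial (Fin n) K, (aeval (dp v W) h : DualNumber K).fst = eval v h) ∧
  (∀ h : MvPolynomial (Fin n) K, dd v W h = ∑ i, W i * eval v (pderiv i h)) ∧
  (∀ g h : MvPolynomial (Fin n) K, dd v W (g + h) = dd v W g + dd v W h) ∧
  (∀ g h : MvPolynomial (Fin n) K, dd v W (g - h) = dd v W g - dd v W h) ∧
  (∀ g h : MvPolynomial (Fin n) K,
    dd v W (g * h) = dd v W g * eval v h + eval v g * dd v W h) ∧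
  (∀ c : K, dd v W (C c) = 0) ∧ (∀ i, dd v W (X i) = W i) ∧
  (∀ (p : ℕ) [Fact p.Prime] [CharP K p] (i : ℕ) (h : MvPolynomial (Fin n) K),
    dd v W (h ^ p ^ (i + 1)) = 0) ∧
  (∀ (l : ℕ) (b : Fin l → MvPolynomial (Fin n) K) (g : MvPolynomial (Fin l) K),
    dd v W (aeval b g) = ∑ j, dd v W (b j) * eval (fun j => eval v (b j)) (pderiv j g)) ∧
  (∀ (h : MvPolynomial (Fin n) K) (d : ℕ) (μ : K), h.IsHomogeneous d →
    dd (fun i => μ * v i) (fun i => μ * W i) h = μ ^ d * dd v W h) ∧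
  (∀ (θ : K →+* K) (h : MvPolynomial (Fin n) K),
    θ (dd v W h) = dd (fun i => θ (v i)) (fun i => θ (W i)) (MvPolynomial.map θ h))

/-- Row ACL: the closure operator. -/
def ACL_s : Prop := ∀ (k : Type u) [Field k] (Ω : Type u) [Field Ω] [Algebra k Ω],
  (∀ S : Set Ω, S ⊆ (acl k S : Set Ω)) ∧
  (∀ S T : Set Ω, S ⊆ (acl k T : Set Ω) → acl k S ≤ acl k T) ∧
  (∀ (S : Set Ω) (x : Ω), IsAlgebraic (acl k S) x → x ∈ acl k S) ∧
  (∀ (S : Set Ω) (x : Ω) (n : ℕ), 0 < n → x ^ n ∈ acl k S → x ∈ acl k S) ∧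
  (∀ (S : Set Ω) (x : Ω), IsIntegral (Algebra.adjoin k S) x → x ∈ acl k S) ∧
  (∀ (S : Set Ω) (x : Ω), x ∈ acl k S → IsAlgebraic (Algebra.adjoin k S) x) ∧
  (∀ (ι κ : Type) [Fintype ι] [Fintype κ] (x : ι → Ω) (y : κ → Ω), AlgebraicIndependent k x →
    (∀ i, x i ∈ acl k (Set.range y)) → Fintype.card ι ≤ Fintype.card κ) ∧
  (∀ (ι κ : Type) [Fintype ι] [Fintype κ] (x : ι → Ω) (y : κ → Ω), AlgebraicIndependent k x →
    (∀ i, x i ∈ acl k (Set.range y)) → Fintype.card κ ≤ Fintype.card ι →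
    AlgebraicIndependent k y) ∧
  (∀ (κ : Type) (y : κ → Ω) (j : κ) (T : Set κ), AlgebraicIndependent k y → j ∉ T →
    Transcendental (acl k (y '' T)) (y j))

/-- Row TR2: two independent linear relations between the `τ_i` over `acl {x, x'}` are
impossible. -/
def TR2_s : Prop := ∀ (k : Type u) [Field k] (Ω : Type u) [Field Ω] [Algebra k Ω]
  (e : Option (Fin 5) → Ω) (x x' : Ω) (c c' H : Fin 5 → Ω) (d d' : Ω),
  AlgebraicIndependent k e → e none ∈ acl k {x, x'} → (∀ i, c i ∈ acl k {x, x'}) →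
  (∀ i, c' i ∈ acl k {x, x'}) → d ∈ acl k {x, x'} → d' ∈ acl k {x, x'} →
  ∑ i, c i * e (some i) = d → ∑ i, c' i * e (some i) = d' → c 0 ≠ 0 →
  ∑ i, c i * H i = 0 → ∑ i, c' i * H i ≠ 0 → False

/-- Row NCZ: no common zero; nodes are off `s0 = 0`; scaling of nodes; coordinates of a point
with `s0 = 1` are algebraic over its `x`-coordinate. -/
def NCZ_s : Prop := All.{u} fun k _ ξ _ _ Ω _ _ e m Q _ _ s0 y0 G =>
  (∀ i, (tr e m s0 y0 G i).IsHomogeneous (m * wt Q i)) ∧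
  (∀ v ∈ V (idl ξ Ω), eval v (tr e m s0 y0 G 0) = 0 → eval v (tr e m s0 y0 G 1) = 0 → v = 0) ∧
  (∀ v v', Node (idl ξ Ω) (tr e m s0 y0 G) v v' → eval v (tr e m s0 y0 G 0) ≠ 0) ∧
  (∀ v v', Node (idl ξ Ω) (tr e m s0 y0 G) v v' → ∃ (μ : Ω) (u u' : Fin 4 → Ω), μ ≠ 0 ∧
    v = (fun i => μ * u i) ∧ v' = (fun i => μ * u' i) ∧
    Node (idl ξ Ω) (tr e m s0 y0 G) u u' ∧ eval u (tr e m s0 y0 G 0) = 1) ∧
  (∀ v ∈ V (idl ξ Ω), ∀ μ : Ω, (fun i => μ * v i) ∈ V (idl ξ Ω)) ∧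
  (∀ v ∈ V (idl ξ Ω), eval v (tr e m s0 y0 G 0) = 1 → ∀ i, v i ∈ acl k {v 3 / v 0})

/-- Row GEN: normalised nodes are generic pairs. -/
def GEN_s : Prop := All.{u} fun k _ ξ _ _ Ω _ _ e m _ _ _ s0 y0 G =>
  ∀ v v', Node (idl ξ Ω) (tr e m s0 y0 G) v v' → eval v (tr e m s0 y0 G 0) = 1 →
    GenPair k e m G v v'

/-- Row TANU: at a point with transcendental `x`-coordinate no `k`-form off the ideal vanishes,
and the tangent vector exists, is unique, lies in every subfield containing the point, and kills the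
ideal. -/
def TANU_s : Prop := All.{u} fun k _ ξ _ δ Ω _ _ _ _ _ _ _ _ _ G =>
  ∀ v ∈ V (idl ξ Ω), v 0 ≠ 0 → Transcendental k (v 3 / v 0) →
    (∀ h : P4 k, Form h → aeval ξ h ≠ 0 → aeval v h ≠ 0) ∧ aeval v δ ≠ 0 ∧ aeval v G ≠ 0 ∧
    (∃ W, TanAt ξ v W) ∧ (∀ W W', TanAt ξ v W → TanAt ξ v W' → W = W') ∧
    (∀ W, TanAt ξ v W → ∀ L : IntermediateField k Ω, (∀ i, v i ∈ L) → ∀ i, W i ∈ L) ∧
    (∀ W, TanAt ξ v W → ∀ h ∈ idl ξ Ω, dd v W h = 0) ∧
    (∀ W, TanAt ξ v W → ∀ μ : Ω, TanAt ξ (fun i => μ * v i) (fun i => μ * W i)) ∧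
    (∀ W, TanAt ξ v W → ∀ θ : Ω →ₐ[k] Ω, TanAt ξ (fun i => θ (v i)) (fun i => θ (W i)))

/-- Row DS0: the tangent vector at a generic point does not kill `s0`. -/
def DS0_s : Prop := All.{u} fun k _ ξ _ _ Ω _ _ e m _ _ _ s0 y0 G =>
  ∀ v ∈ V (idl ξ Ω), v 0 ≠ 0 → Transcendental k (v 3 / v 0) →
    ∀ W, TanAt ξ v W → dd v W (tr e m s0 y0 G 0) ≠ 0

/-- Row TRI: no triple point. -/
def TRI_s : Prop := All.{u} fun _ _ ξ _ _ Ω _ _ e m _ _ _ s0 y0 G =>
  ∀ v v', Node (idl ξ Ω) (tr e m s0 y0 G) v v' → ∀ v'' ∈ V (idl ξ Ω),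
    val3 (tr e m s0 y0 G) v'' = val3 (tr e m s0 y0 G) v → v'' = v ∨ v'' = v'

/-- Row ORD: normalised nodes are ordinary. -/
def ORD_s : Prop := All.{u} fun _ _ ξ _ _ Ω _ _ e m _ _ _ s0 y0 G =>
  ∀ v v', Node (idl ξ Ω) (tr e m s0 y0 G) v v' → eval v (tr e m s0 y0 G 0) = 1 →
    eval v (tr e m s0 y0 G 1) ≠ 0 ∧ ∀ W W', TanAt ξ v W → TanAt ξ v' W' →
      dd v W (tr e m s0 y0 G 1) = 0 ∧
      dd v W (tr e m s0 y0 G 0) * dd v' W' (tr e m s0 y0 G 2) ≠
        dd v' W' (tr e m s0 y0 G 0) * dd v W (tr e m s0 y0 G 2)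

/-- Row UNIV: relations of a generic pair of normalised points hold for every pair. -/
def UNIV_s : Prop := ∀ (k : Type u) [Field k] (ξ : Fin 4 → PowerSeries k) (D c : ℕ) (δ : P4 k)
  (Ω : Type u) [Field Ω] [Algebra k Ω] (t : Fin 4 → Ω) (v v' u u' : Fin 4 → Ω),
  Good ξ D c δ → v ∈ cone ξ Ω → v' ∈ cone ξ Ω → u ∈ cone ξ Ω → u' ∈ cone ξ Ω →
  v 0 = 1 → v' 0 = 1 → u 0 = 1 → u' 0 = 1 →
  AlgebraicIndependent k ![v 3, v' 3, t 0, t 1, t 2, t 3] →
  ∀ h : MvPolynomial (Fin 4 ⊕ Fin 4 ⊕ Fin 4) k,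
    aeval (Sum.elim t (Sum.elim v v')) h = 0 → aeval (Sum.elim t (Sum.elim u u')) h = 0

/-- Row CONJ: normalised nodes are conjugate. -/
def CONJ_s : Prop := All.{u} fun k _ ξ _ _ Ω _ _ e m _ _ _ s0 y0 G =>
  ∀ v v' u u', Node (idl ξ Ω) (tr e m s0 y0 G) v v' → eval v (tr e m s0 y0 G 0) = 1 →
    Node (idl ξ Ω) (tr e m s0 y0 G) u u' → eval u (tr e m s0 y0 G 0) = 1 →
    ∃ θ : Ω →ₐ[k] Ω, (∀ j, θ (e j) = e j) ∧ (∀ i, θ (v i) = u i) ∧ ∀ i, θ (v' i) = u' i

/-- Row PTH: `p`-th roots, Euler, and a partial derivative prime to `F`. -/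
def PTH_s : Prop := ∀ (K : Type u) [Field K] [IsAlgClosed K] (p : ℕ) [Fact p.Prime] [CharP K p]
  (Q : ℕ), (∃ i, Q = p ^ (i + 1)) →
  (∀ (Γ : P3 K) (γ : ℕ), Γ.IsWeightedHomogeneous (wt Q) γ → (∀ i, pderiv i Γ = 0) →
    ∃ (Γ' : P3 K) (γ' : ℕ), Γ'.IsWeightedHomogeneous (wt Q) γ' ∧ Γ = Γ' ^ p ∧
      (Γ ≠ 0 → γ = p * γ')) ∧
  (∀ (Γ : P3 K) (γ : ℕ) (i : Fin 3), Γ.IsWeightedHomogeneous (wt Q) γ →
    pderiv i Γ = 0 ∨ ∃ γ', γ' + wt Q i = γ ∧ (pderiv i Γ).IsWeightedHomogeneous (wt Q) γ') ∧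
  (∀ (Γ : P3 K) (γ : ℕ) (R : Fin 3 → K) (A B A' B' : K), Γ.IsWeightedHomogeneous (wt Q) γ →
    R 1 ≠ 0 → eval R Γ = 0 → A * B' ≠ A' * B →
    A * eval R (pderiv 0 Γ) + B * eval R (pderiv 2 Γ) = 0 →
    A' * eval R (pderiv 0 Γ) + B' * eval R (pderiv 2 Γ) = 0 → ∀ i, eval R (pderiv i Γ) = 0) ∧
  (∀ (F : P3 K) (n' I0 : ℕ), F.IsWeightedHomogeneous (wt Q) (n' * Q) → Prime F →
    coeff (Finsupp.single 2 n') F = 1 → 0 < n' → F.degreeOf 1 ≤ I0 →
    ∃ G1 : P3 K, G1.IsWeightedHomogeneous (wt Q) (n' * Q) ∧ ¬ F ∣ G1 ∧ G1.degreeOf 1 ≤ I0 ∧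
      ∀ R : Fin 3 → K, (∀ i, eval R (pderiv i F) = 0) → eval R G1 = 0) ∧
  (∀ (F Γ : P3 K) (n' γ : ℕ), coeff (Finsupp.single 2 n') F = 1 →
    Γ.IsWeightedHomogeneous (wt Q) γ → Γ ≠ 0 → γ < n' * Q → ¬ F ∣ Γ)

/-- Row GAM: the curve `Γ` (all or none). -/
def GAM_s : Prop := ∀ (K : Type u) [Field K] [IsAlgClosed K] (p : ℕ) [Fact p.Prime] [CharP K p]
  (Q : ℕ) (N : Type u) [Finite N] (pt : N → Fin 3 → K) (A B : N → K) (sw : N → N)
  (Γ0 : P3 K) (γ0 : ℕ), (∃ i, Q = p ^ (i + 1)) → (∀ ν, pt ν 1 ≠ 0) →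
  (∀ ν, pt (sw ν) = pt ν) → (∀ ν, A ν * B (sw ν) ≠ A (sw ν) * B ν) →
  (∀ ν ν', ∃ θ : K →+* K, (∀ i, θ (pt ν i) = pt ν' i) ∧ θ (A ν) = A ν' ∧ θ (B ν) = B ν' ∧
    ∀ μ, ∃ μ', ∀ i, θ (pt μ i) = pt μ' i) →
  Γ0 ≠ 0 → Γ0.IsWeightedHomogeneous (wt Q) γ0 → (∀ ν, eval (pt ν) Γ0 = 0) →
  ∃ (Γ : P3 K) (γ : ℕ), γ ≤ γ0 ∧ Γ ≠ 0 ∧ Γ.IsWeightedHomogeneous (wt Q) γ ∧
    (∀ ν, eval (pt ν) Γ = 0) ∧
    ∀ ν, A ν * eval (pt ν) (pderiv 0 Γ) + B ν * eval (pt ν) (pderiv 2 Γ) ≠ 0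

/-- Row VAL: orders. No weighted form of `Y`-degree `< a` vanishes on the triple. -/
def VAL_s : Prop := All.{u} fun _ _ ξ _ _ Ω _ _ e m Q a e0 s0 y0 G =>
  (iota ξ Ω (tr e m s0 y0 G 0)).order = (a : ℕ) ∧
  (iota ξ Ω (tr e m s0 y0 G 2)).order = (e0 : ℕ) ∧
  ∀ g : P3 Ω, g ≠ 0 → g.degreeOf 2 < a → aeval (tr e m s0 y0 G) g ∉ idl ξ Ω

/-- Row MINP: the equation of the plane model. -/
def MINP_s : Prop := ∀ (K : Type u) [Field K] [IsAlgClosed K] (I : Ideal (P4 K)) (m Q : ℕ)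
  (a : Fin 3 → P4 K), I.IsPrime → (∀ h ∈ I, ∀ d, homogeneousComponent d h ∈ I) → 0 < m → 0 < Q →
  (∀ i, (a i).IsHomogeneous (m * wt Q i)) →
  (∀ v ∈ V I, eval v (a 0) = 0 → eval v (a 1) = 0 → v = 0) →
  (∀ g : P3 K, g ≠ 0 → g.degreeOf 2 < 1 → aeval a g ∉ I) →
  ∃ (F : P3 K) (n' : ℕ), F.IsWeightedHomogeneous (wt Q) (n' * Q) ∧
    coeff (Finsupp.single 2 n') F = 1 ∧ 0 < n' ∧ F.degreeOf 2 = n' ∧ Prime F ∧
    ∀ g : P3 K, aeval a g ∈ I ↔ F ∣ g

/-- Row PHI: a relation of small `Z`-degree. -/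
def PHI_s : Prop := All.{u} fun _ _ ξ D _ Ω _ _ e m Q a e0 s0 y0 G =>
  min e0 (a * Q) ≤ D * m * Q ∧
  ∃ Φ : P3 Ω, Φ ≠ 0 ∧ aeval (tr e m s0 y0 G) Φ ∈ idl ξ Ω ∧
    Φ.degreeOf 1 ≤ 2 * (D * m * Q - min e0 (a * Q))

/-- Row COMB: a combination of `F` and `G1` of small weight. -/
def COMB_s : Prop := ∀ (K : Type u) [Field K] (Q n' I0 I' J1 : ℕ) (F G1 : P3 K), 0 < Q → 0 < n' →
  F.IsWeightedHomogeneous (wt Q) (n' * Q) → G1.IsWeightedHomogeneous (wt Q) (n' * Q) →
  Prime F → coeff (Finsupp.single 2 n') F = 1 → ¬ F ∣ G1 →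
  F.degreeOf 1 ≤ I0 → G1.degreeOf 1 ≤ I0 → 2 * n' * I0 < (1 + J1) * (I0 + I' + 1) →
  ∃ Γ0 : P3 K, Γ0 ≠ 0 ∧ Γ0.IsWeightedHomogeneous (wt Q) (I0 + I' + J1 * Q) ∧
    ∀ R : Fin 3 → K, R 0 ≠ 0 → eval R F = 0 → eval R G1 = 0 → eval R Γ0 = 0

/-- Row NUM. -/
def NUM_s : Prop := ∀ p n Q a e0 n' : ℕ, 2 ≤ p → 0 < Q → 0 < n' → a ≤ n' →
  min e0 (a * Q) ≤ n * Q → 10 ^ 6 * p ^ 2 * (n * Q - min e0 (a * Q)) ≤ n * Q →
  ∃ I' J1 : ℕ, 2 * n' * (2 * (n * Q - min e0 (a * Q))) <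
      (1 + J1) * (2 * (n * Q - min e0 (a * Q)) + I' + 1) ∧
    100 * p * (2 * (n * Q - min e0 (a * Q)) + I' + J1 * Q) ≤ n' * Q

/-- Row LOC: the fields `loc` and `sep` of `Nodal` from tangent data. -/
def LOC_s : Prop := All.{u} fun _ _ ξ _ δ Ω _ _ e m Q _ _ s0 y0 G =>
  ∀ (Γ : P3 Ω) (γ : ℕ), Γ.IsWeightedHomogeneous (wt Q) γ →
  (∀ v W, v ∈ V (idl ξ Ω) → v 0 ≠ 0 → aeval v δ ≠ 0 → TanAt ξ v W →
    eval (val3 (tr e m s0 y0 G) v) Γ = 0 → dd v W (aeval (tr e m s0 y0 G) Γ) ≠ 0 →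
    ∀ g : P4 Ω, Form g → eval v g = 0 → ∃ h1 h2 : P4 Ω, Form h1 ∧ Form h2 ∧ eval v h1 ≠ 0 ∧
      h1 * g - h2 * aeval (tr e m s0 y0 G) Γ ∈ idl ξ Ω) ∧
  (∀ v W v' W', Node (idl ξ Ω) (tr e m s0 y0 G) v v' → v 0 ≠ 0 → v' 0 ≠ 0 → aeval v δ ≠ 0 →
    aeval v' δ ≠ 0 → TanAt ξ v W → TanAt ξ v' W' → eval (val3 (tr e m s0 y0 G) v) Γ = 0 →
    dd v W (aeval (tr e m s0 y0 G) Γ) ≠ 0 → dd v' W' (aeval (tr e m s0 y0 G) Γ) ≠ 0 →
    eval v (tr e m s0 y0 G 0) ≠ 0 → eval v (tr e m s0 y0 G 1) ≠ 0 →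
    dd v W (tr e m s0 y0 G 1) = 0 → dd v' W' (tr e m s0 y0 G 1) = 0 →
    dd v W (tr e m s0 y0 G 0) * dd v' W' (tr e m s0 y0 G 2) ≠
      dd v' W' (tr e m s0 y0 G 0) * dd v W (tr e m s0 y0 G 2) →
    ∃ (ε : P3 Ω) (j : ℕ) (h1 h2 h1' h2' : P4 Ω),
      ε.IsWeightedHomogeneous (wt Q) j ∧ eval v h1 ≠ 0 ∧ eval v' h1' ≠ 0 ∧
      h1 * aeval (tr e m s0 y0 G) ε - h2 * aeval (tr e m s0 y0 G) Γ ∈ idl ξ Ω ∧
      h1' * aeval (tr e m s0 y0 G) ε - h2' * aeval (tr e m s0 y0 G) Γ ∈ idl ξ Ω ∧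
      eval v h2 * eval v' h1' ≠ eval v' h2' * eval v h1)

/-- Row FIN: a weighted form off the ideal has finitely many zeros with `s0 = 1`, `x0 ≠ 0`;
endomorphisms fixing `e` fix the triple and permute the nodes. -/
def FIN_s : Prop := All.{u} fun k _ ξ _ _ Ω _ _ e m Q _ _ s0 y0 G =>
  (∀ (Γ : P3 Ω) (γ : ℕ), Γ.IsWeightedHomogeneous (wt Q) γ →
    aeval (tr e m s0 y0 G) Γ ∉ idl ξ Ω →
    {v | v ∈ V (idl ξ Ω) ∧ v 0 ≠ 0 ∧ eval v (tr e m s0 y0 G 0) = 1 ∧
      eval (val3 (tr e m s0 y0 G) v) Γ = 0}.Finite) ∧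
  (∀ θ : Ω →ₐ[k] Ω, (∀ j, θ (e j) = e j) →
    (∀ i, MvPolynomial.map (θ : Ω →+* Ω) (tr e m s0 y0 G i) = tr e m s0 y0 G i) ∧
    (∀ v i, θ (eval v (tr e m s0 y0 G i)) = eval (fun j => θ (v j)) (tr e m s0 y0 G i)) ∧
    ∀ v v', Node (idl ξ Ω) (tr e m s0 y0 G) v v' →
      Node (idl ξ Ω) (tr e m s0 y0 G) (fun j => θ (v j)) (fun j => θ (v' j)))

end H39c

end PartH39cNDefs

section PartH39cNACL

set_option autoImplicit false
set_option linter.unusedVariables false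

open MvPolynomial

namespace H39c

universe u

section
variable {k : Type u} [Field k] {Ω : Type u} [Field Ω] [Algebra k Ω]

theorem nacl_mem (S : Set Ω) (x : Ω) :
    x ∈ acl k S ↔ IsAlgebraic (Algebra.adjoin k S) x := by
  unfold acl
  rw [IntermediateField.mem_restrictScalars, mem_algebraicClosure_iff]
  exact IntermediateField.isAlgebraic_adjoin_iff

theorem nacl_closure (S : Set Ω) :
    (acl k S : Set Ω) = (AlgebraicIndependent.matroid k Ω).closure S := by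
  ext x
  rw [AlgebraicIndependent.matroid_closure_eq, SetLike.mem_coe, SetLike.mem_coe, nacl_mem,
    Subalgebra.mem_algebraicClosure]

theorem nacl_sub (S : Set Ω) : S ⊆ (acl k S : Set Ω) := by
  rw [nacl_closure]
  exact Matroid.subset_closure _ _ (Set.subset_univ _)

theorem nacl_mono (S T : Set Ω) (h : S ⊆ (acl k T : Set Ω)) : acl k S ≤ acl k T := by
  intro x hx
  have hx' : x ∈ (acl k S : Set Ω) := hx
  show x ∈ (acl k T : Set Ω)
  rw [nacl_closure] at hx' h ⊢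
  exact Matroid.closure_subset_closure_of_subset_closure h hx'

theorem nacl_alg (S : Set Ω) (x : Ω) (h : IsAlgebraic (acl k S) x) : x ∈ acl k S := by
  have h1 : IsAlgebraic (algebraicClosure (IntermediateField.adjoin k S) Ω) x := h
  have h2 : IsAlgebraic (IntermediateField.adjoin k S) x :=
    IsAlgebraic.restrictScalars (IntermediateField.adjoin k S) h1
  unfold acl
  rw [IntermediateField.mem_restrictScalars, mem_algebraicClosure_iff]
  exact h2

theorem nacl_card {ι κ : Type} [Fintype ι] [Fintype κ] (x : ι → Ω) (y : κ → Ω)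
    (hx : AlgebraicIndependent k x) (h : ∀ i, x i ∈ acl k (Set.range y)) :
    (Fintype.card ι : ℕ∞) ≤ (AlgebraicIndependent.matroid k Ω).eRk (Set.range y) := by
  have hi : (AlgebraicIndependent.matroid k Ω).Indep (Set.range x) :=
    AlgebraicIndependent.matroid_indep_iff.2 hx.to_subtype_range
  have hs : Set.range x ⊆ (AlgebraicIndependent.matroid k Ω).closure (Set.range y) := by
    rw [← nacl_closure]
    rintro _ ⟨i, rfl⟩
    exact h i
  have h1 := hi.encard_le_eRk_of_subset hs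
  rw [Matroid.eRk_closure_eq] at h1
  have h2 : (Set.range x).encard = (Fintype.card ι : ℕ∞) := by
    rw [← Set.image_univ, hx.injective.injOn.encard_image, Set.encard_univ, ENat.card_eq_coe_fintype_card]
  rw [← h2]
  exact h1

theorem nacl_range_le {κ : Type} [Fintype κ] (y : κ → Ω) :
    (Set.range y).encard ≤ (Fintype.card κ : ℕ∞) := by
  rw [← Set.image_univ]
  refine (Set.encard_image_le _ _).trans ?_
  rw [Set.encard_univ, ENat.card_eq_coe_fintype_card]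

end

theorem n_acl : ACL_s.{u} := by
  intro k _ Ω _ _
  refine ⟨nacl_sub, nacl_mono, nacl_alg, ?_, ?_, ?_, ?_, ?_, ?_⟩
  · intro S x n hn hx
    rw [nacl_mem] at hx ⊢
    exact IsAlgebraic.of_pow hn hx
  · intro S x hx
    rw [nacl_mem]
    exact hx.isAlgebraic
  · intro S x hx
    exact (nacl_mem S x).1 hx
  · intro ι κ _ _ x y hx h
    have h1 := ((nacl_card x y hx h).trans (Matroid.eRk_le_encard _ _)).trans (nacl_range_le y)
    exact_mod_cast h1
  · intro ι κ _ _ x y hx h hc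
    have h1 := nacl_card x y hx h
    have hc' : (Fintype.card κ : ℕ∞) ≤ (Fintype.card ι : ℕ∞) := by exact_mod_cast hc
    have h2 := Matroid.eRk_le_encard (AlgebraicIndependent.matroid k Ω) (Set.range y)
    have h3 := nacl_range_le y
    have hi : (AlgebraicIndependent.matroid k Ω).Indep (Set.range y) := by
      rw [Matroid.indep_iff_eRk_eq_encard_of_finite (Set.finite_range y)]
      exact le_antisymm h2 (h3.trans (hc'.trans h1))
    have hinj : Function.Injective y := by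
      rw [← Set.injOn_univ]
      apply Set.Finite.injOn_of_encard_image_eq Set.finite_univ
      rw [Set.image_univ, Set.encard_univ, ENat.card_eq_coe_fintype_card]
      exact le_antisymm h3 ((hc'.trans h1).trans h2)
    exact (algebraicIndependent_subtype_range hinj).1
      (AlgebraicIndependent.matroid_indep_iff.1 hi)
  · intro κ y j T hy hj ha
    have h1 := (nacl_mem _ _).1 (nacl_alg _ _ ha)
    exact hy.transcendental_adjoin hj h1

end H39c

end PartH39cNACL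

section PartH39cNAsm

set_option autoImplicit false

open MvPolynomial

namespace H39c

universe u

theorem nasm_eval_aeval {K : Type u} [Field K] (a : Fin 3 → P4 K) (v : Fin 4 → K) (g : P3 K) :
    eval v (aeval a g) = eval (val3 a v) g := by
  induction g using MvPolynomial.induction_on with
  | C r => simp
  | add f g hf hg => simp only [map_add, hf, hg]
  | mul_X f i hf => simp only [map_mul, hf, aeval_X, eval_X, val3]

theorem nasm_scale {K : Type u} [Field K] (h : P4 K) (d : ℕ) (hh : h.IsHomogeneous d) (μ : K)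
    (v : Fin 4 → K) : eval (fun i => μ * v i) h = μ ^ d * eval v h := by
  classical
  rw [eval_eq', eval_eq', Finset.mul_sum]
  refine Finset.sum_congr rfl fun s hs => ?_
  have h1 : ∑ i, s i = d := by
    have := hh (mem_support_iff.1 hs)
    rw [← this, Finsupp.weight_apply, Finsupp.sum_fintype _ _ (by simp)]
    simp
  simp only [mul_pow]
  rw [Finset.prod_mul_distrib, Finset.prod_pow_eq_pow_sum, h1]
  ring

theorem nasm_symm {K : Type u} [Field K] {I : Ideal (P4 K)} {a : Fin 3 → P4 K} {v v' : Fin 4 → K}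
    (h : Node I a v v') : Node I a v' v :=
  ⟨h.2.1, h.1, h.2.2.1.symm, h.2.2.2.symm⟩

theorem n_asm (hDUAL : DUAL_s.{u}) (hNCZ : NCZ_s.{u}) (hGEN : GEN_s.{u}) (hTANU : TANU_s.{u})
    (hTRI : TRI_s.{u}) (hORD : ORD_s.{u}) (hCONJ : CONJ_s.{u}) (hPTH : PTH_s.{u})
    (hGAM : GAM_s.{u}) (hVAL : VAL_s.{u}) (hMINP : MINP_s.{u}) (hPHI : PHI_s.{u})
    (hCOMB : COMB_s.{u}) (hNUM : NUM_s) (hLOC : LOC_s.{u}) (hFIN : FIN_s.{u}) : N_s.{u} := by
  intro k _ _ p hp _ ξ D c δ Ω _ _ _ e m Q a e0 dG s0 y0 G hG hD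
  classical
  have hchar : CharP Ω p := charP_of_injective_algebraMap (algebraMap k Ω).injective p
  obtain ⟨ha, hncz, ha0, hsc, hVs, -⟩ := hNCZ k p ξ D c δ Ω e m Q a e0 dG s0 y0 G hG hD
  have hgen := hGEN k p ξ D c δ Ω e m Q a e0 dG s0 y0 G hG hD
  have htan := hTANU k p ξ D c δ Ω e m Q a e0 dG s0 y0 G hG hD
  have htri := hTRI k p ξ D c δ Ω e m Q a e0 dG s0 y0 G hG hD
  have hord := hORD k p ξ D c δ Ω e m Q a e0 dG s0 y0 G hG hD
  have hconj := hCONJ k p ξ D c δ Ω e m Q a e0 dG s0 y0 G hG hD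
  obtain ⟨-, -, hval⟩ := hVAL k p ξ D c δ Ω e m Q a e0 dG s0 y0 G hG hD
  obtain ⟨hmin, Φ, hΦ0, hΦI, hΦd⟩ := hPHI k p ξ D c δ Ω e m Q a e0 dG s0 y0 G hG hD
  have hloc := hLOC k p ξ D c δ Ω e m Q a e0 dG s0 y0 G hG hD
  obtain ⟨hfin, hθ⟩ := hFIN k p ξ D c δ Ω e m Q a e0 dG s0 y0 G hG hD
  obtain ⟨-, -, htwo, hG1, hndvd⟩ := hPTH Ω p Q hD.hQ
  change ∃ (F Γ : P3 Ω) (n' γ : ℕ), Plane p (idl ξ Ω) m Q (tr e m s0 y0 G) F n' ∧
    Nodal (idl ξ Ω) Q (tr e m s0 y0 G) Γ γ ∧ a ≤ n' ∧ 100 * p * γ ≤ n' * Q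
  dsimp only at ha hncz ha0 hsc hVs hgen htan htri hord hconj hval hmin hΦI hΦd hloc hfin hθ
  generalize tr e m s0 y0 G = b at *
  have hp0 : 0 < p := hp.out.pos
  have hm0 : 0 < m := by obtain ⟨i, hi⟩ := hD.hm; rw [hi]; exact pow_pos hp0 _
  have hQ0 : 0 < Q := by obtain ⟨i, hi⟩ := hD.hQ; rw [hi]; exact pow_pos hp0 _
  have ha3 := hD.a3
  obtain ⟨F, n', hF, hmon, hn0, hFd, hFp, hker⟩ := hMINP Ω (idl ξ Ω) m Q b (hG.prime Ω)
    (hG.comp Ω) hm0 hQ0 ha hncz (fun g hg hd => hval g hg (by omega))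
  have hFI : aeval b F ∈ idl ξ Ω := (hker F).2 dvd_rfl
  have han : a ≤ n' := by
    by_contra hlt
    exact hval F hFp.ne_zero (by omega) hFI
  have hF1 : F.degreeOf 1 ≤ 2 * (D * m * Q - min e0 (a * Q)) := by
    obtain ⟨H, hH⟩ := (hker Φ).1 hΦI
    have hH0 : H ≠ 0 := fun h => hΦ0 (by rw [hH, h, mul_zero])
    rw [hH, degreeOf_mul_eq hFp.ne_zero hH0] at hΦd
    omega
  obtain ⟨G1, hG1h, hG1n, hG1d, hG1v⟩ := hG1 F n' _ hF hFp hmon hn0 hF1
  obtain ⟨I', J1, hnum1, hnum2⟩ := hNUM p (D * m) Q a e0 n' hp.out.two_le hQ0 hn0 han hmin hD.big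
  obtain ⟨Γ0, hΓ00, hΓ0h, hΓ0v⟩ :=
    hCOMB Ω Q n' _ I' J1 F G1 hQ0 hn0 hF hG1h hFp hmon hG1n hF1 hG1d hnum1
  generalize 2 * (D * m * Q - min e0 (a * Q)) + I' + J1 * Q = γ0 at hnum2 hΓ0h
  have hnotin : ∀ (Γ : P3 Ω) (γ : ℕ), γ ≤ γ0 → Γ ≠ 0 → Γ.IsWeightedHomogeneous (wt Q) γ →
      aeval b Γ ∉ idl ξ Ω := by
    intro Γ γ hγ hΓ hh hI
    refine hndvd F Γ n' γ hmon hh hΓ ?_ ((hker Γ).1 hI)
    have h1 : 0 < n' * Q := Nat.mul_pos hn0 hQ0
    have h2 : 2 * γ0 ≤ 100 * p * γ0 := Nat.mul_le_mul_right _ (by omega)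
    omega
  -- normalised nodes
  let N : Type u := {x : (Fin 4 → Ω) × (Fin 4 → Ω) //
    Node (idl ξ Ω) b x.1 x.2 ∧ eval x.1 (b 0) = 1}
  let sw : N → N := fun ν => ⟨(ν.1.2, ν.1.1), nasm_symm ν.2.1, by
    have := congrFun ν.2.1.2.2.2 0
    simp only [val3] at this
    rw [← this]; exact ν.2.2⟩
  have hv0 : ∀ ν : N, ν.1.1 0 ≠ 0 := fun ν => (hgen _ _ ν.2.1 ν.2.2).v0
  have htr : ∀ ν : N, Transcendental k (ν.1.1 3 / ν.1.1 0) := fun ν =>
    (hgen _ _ ν.2.1 ν.2.2).ind.transcendental 0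
  have hT := fun ν : N => htan ν.1.1 ν.2.1.1 (hv0 ν) (htr ν)
  choose W hW using fun ν : N => (hT ν).2.2.2.1
  let pt : N → Fin 3 → Ω := fun ν => val3 b ν.1.1
  let A : N → Ω := fun ν => dd ν.1.1 (W ν) (b 0)
  let B : N → Ω := fun ν => dd ν.1.1 (W ν) (b 2)
  have hptsw : ∀ ν, pt (sw ν) = pt ν := fun ν => ν.2.1.2.2.2.symm
  have hpt0 : ∀ ν, pt ν 0 = 1 := fun ν => ν.2.2
  have hpt1 : ∀ ν, pt ν 1 ≠ 0 := fun ν => (hord _ _ ν.2.1 ν.2.2).1
  have hd1 : ∀ ν : N, dd ν.1.1 (W ν) (b 1) = 0 := fun ν =>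
    ((hord _ _ ν.2.1 ν.2.2).2 (W ν) (W (sw ν)) (hW ν) (hW (sw ν))).1
  have hAB : ∀ ν, A ν * B (sw ν) ≠ A (sw ν) * B ν := fun ν =>
    ((hord _ _ ν.2.1 ν.2.2).2 (W ν) (W (sw ν)) (hW ν) (hW (sw ν))).2
  have hchain : ∀ (ν : N) (g : P3 Ω), dd ν.1.1 (W ν) (aeval b g) =
      A ν * eval (pt ν) (pderiv 0 g) + B ν * eval (pt ν) (pderiv 2 g) := by
    intro ν g
    rw [(hDUAL Ω 4 ν.1.1 (W ν)).2.2.2.2.2.2.2.2.1 3 b g, Fin.sum_univ_three, hd1 ν, zero_mul,
      add_zero]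
    rfl
  have hFv : ∀ ν : N, eval (pt ν) F = 0 := fun ν => by
    rw [← nasm_eval_aeval]; exact ν.2.1.1 _ hFI
  have hsing : ∀ ν : N, ∀ i, eval (pt ν) (pderiv i F) = 0 := by
    intro ν
    refine htwo F _ (pt ν) (A ν) (B ν) (A (sw ν)) (B (sw ν)) hF (hpt1 ν) (hFv ν) (hAB ν) ?_ ?_
    · rw [← hchain]; exact (hT ν).2.2.2.2.2.2.1 _ (hW ν) _ hFI
    · rw [← hptsw ν, ← hchain]; exact (hT (sw ν)).2.2.2.2.2.2.1 _ (hW (sw ν)) _ hFI
  have hΓ0n : ∀ ν : N, eval (pt ν) Γ0 = 0 := fun ν =>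
    hΓ0v _ (by rw [hpt0]; exact one_ne_zero) (hFv ν) (hG1v _ (hsing ν))
  have hNfin : Finite N := by
    have hS := hfin Γ0 γ0 hΓ0h (hnotin Γ0 γ0 le_rfl hΓ00 hΓ0h)
    have hS2 := hS.prod hS
    refine Set.Finite.to_subtype (hS2.subset ?_)
    rintro x hx
    exact ⟨⟨hx.1.1, hv0 ⟨x, hx⟩, hx.2, hΓ0n ⟨x, hx⟩⟩,
      ⟨hx.1.2.1, hv0 (sw ⟨x, hx⟩), (sw ⟨x, hx⟩).2.2, hΓ0n (sw ⟨x, hx⟩)⟩⟩
  have htrans : ∀ ν ν' : N, ∃ θ : Ω →+* Ω, (∀ i, θ (pt ν i) = pt ν' i) ∧ θ (A ν) = A ν' ∧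
      θ (B ν) = B ν' ∧ ∀ μ, ∃ μ', ∀ i, θ (pt μ i) = pt μ' i := by
    intro ν ν'
    obtain ⟨θ, hθe, hθv, -⟩ := hconj _ _ _ _ ν.2.1 ν.2.2 ν'.2.1 ν'.2.2
    obtain ⟨hθ1, hθ2, hθ3⟩ := hθ θ hθe
    have hv : (fun j => θ (ν.1.1 j)) = ν'.1.1 := funext hθv
    have hWθ : (fun j => θ (W ν j)) = W ν' := by
      refine (hT ν').2.2.2.2.1 _ _ ?_ (hW ν')
      rw [← hv]
      exact (hT ν).2.2.2.2.2.2.2.2 _ (hW ν) θ
    have hdd : ∀ i, θ (dd ν.1.1 (W ν) (b i)) = dd ν'.1.1 (W ν') (b i) := by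
      intro i
      have := (hDUAL Ω 4 ν.1.1 (W ν)).2.2.2.2.2.2.2.2.2.2 (θ : Ω →+* Ω) (b i)
      rw [hθ1 i] at this
      rw [← hv, ← hWθ]
      exact this
    refine ⟨(θ : Ω →+* Ω), fun i => ?_, hdd 0, hdd 2, fun μ => ?_⟩
    · have := hθ2 ν.1.1 i
      rw [hv] at this
      exact this
    · refine ⟨⟨(fun j => θ (μ.1.1 j), fun j => θ (μ.1.2 j)), hθ3 _ _ μ.2.1, ?_⟩, fun i => ?_⟩
      · show eval (fun j => θ (μ.1.1 j)) (b 0) = 1
        rw [← hθ2, μ.2.2, map_one]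
      · exact hθ2 μ.1.1 i
  obtain ⟨Γ, γ, hγ, hΓ0, hΓh, hΓv, hΓt⟩ :=
    hGAM Ω p Q N pt A B sw Γ0 γ0 hD.hQ hpt1 hptsw hAB htrans hΓ00 hΓ0h hΓ0n
  have hbΓ : (aeval b Γ).IsHomogeneous (m * γ) := mv_aeval_hom (wt Q) 1 m b ha hΓh
  -- data at an arbitrary node
  have hnode : ∀ (ν : N) (μ : Ω), μ ≠ 0 →
      (fun i => μ * ν.1.1 i) ∈ V (idl ξ Ω) ∧ μ * ν.1.1 0 ≠ 0 ∧
      aeval (fun i => μ * ν.1.1 i) δ ≠ 0 ∧ TanAt ξ (fun i => μ * ν.1.1 i) (fun i => μ * W ν i) ∧
      eval (val3 b (fun i => μ * ν.1.1 i)) Γ = 0 ∧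
      dd (fun i => μ * ν.1.1 i) (fun i => μ * W ν i) (aeval b Γ) ≠ 0 ∧
      ∀ j, dd (fun i => μ * ν.1.1 i) (fun i => μ * W ν i) (b j) =
        μ ^ (m * wt Q j) * dd ν.1.1 (W ν) (b j) := by
    intro ν μ hμ
    have h1 := hVs _ ν.2.1.1 μ
    have h2 : μ * ν.1.1 0 ≠ 0 := mul_ne_zero hμ (hv0 ν)
    have h3 : Transcendental k (μ * ν.1.1 3 / (μ * ν.1.1 0)) := by
      rw [mul_div_mul_left _ _ hμ]; exact htr ν
    have hsc' := (hDUAL Ω 4 ν.1.1 (W ν)).2.2.2.2.2.2.2.2.2.1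
    refine ⟨h1, h2, (htan _ h1 h2 h3).2.1, (hT ν).2.2.2.2.2.2.2.1 _ (hW ν) μ, ?_, ?_, fun j => ?_⟩
    · rw [← nasm_eval_aeval, nasm_scale _ _ hbΓ, nasm_eval_aeval, hΓv ν, mul_zero]
    · rw [hsc' _ _ μ hbΓ, hchain]
      exact mul_ne_zero (pow_ne_zero _ hμ) (hΓt ν)
    · exact hsc' _ _ μ (ha j)
  refine ⟨F, Γ, n', γ, ⟨hG.prime Ω, hG.comp Ω, ?_, hD.hQ, ha, hncz, hF, hmon, hn0, hker⟩,
    ⟨hΓh, hnotin Γ γ hγ hΓ0 hΓh, htri, ha0, ?_, ?_, ?_⟩, han,
    le_trans (Nat.mul_le_mul_left _ hγ) hnum2⟩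
  · obtain ⟨i, hi⟩ := hD.hm
    exact ⟨i + 1, hi⟩
  · intro v v' hvv
    obtain ⟨μ, u, u', hμ, rfl, rfl, huu, hu1⟩ := hsc v v' hvv
    exact (hnode ⟨(u, u'), huu, hu1⟩ μ hμ).2.2.2.2.1
  · intro v v' hvv
    obtain ⟨μ, u, u', hμ, rfl, rfl, huu, hu1⟩ := hsc v v' hvv
    obtain ⟨h1, h2, h3, h4, h5, h6, -⟩ := hnode ⟨(u, u'), huu, hu1⟩ μ hμ
    exact (hloc Γ γ hΓh).1 _ _ h1 h2 h3 h4 h5 h6
  · intro v v' hvv
    have hs0 := ha0 v v' hvv
    obtain ⟨μ, u, u', hμ, rfl, rfl, huu, hu1⟩ := hsc v v' hvv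
    let ν : N := ⟨(u, u'), huu, hu1⟩
    obtain ⟨-, h2, h3, h4, h5, h6, h7⟩ := hnode ν μ hμ
    obtain ⟨-, h2', h3', h4', -, h6', h7'⟩ := hnode (sw ν) μ hμ
    refine (hloc Γ γ hΓh).2 _ _ _ _ hvv h2 h2' h3 h3' h4 h4' h5 h6 h6' hs0 ?_ ?_ ?_ ?_
    · rw [nasm_scale _ _ (ha 1)]
      exact mul_ne_zero (pow_ne_zero _ hμ) (hpt1 ν)
    · exact (h7 1).trans (by rw [hd1 ν, mul_zero])
    · exact (h7' 1).trans (by rw [hd1 (sw ν), mul_zero])
    · intro hcon
      apply hAB ν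
      have e1 := h7 0
      have e2 := h7 2
      have e3 := h7' 0
      have e4 := h7' 2
      have hcon' : μ ^ (m * wt Q 0) * A ν * (μ ^ (m * wt Q 2) * B (sw ν)) =
          μ ^ (m * wt Q 0) * A (sw ν) * (μ ^ (m * wt Q 2) * B ν) := by
        rw [← e1, ← e2, ← e3, ← e4]; exact hcon
      have hne : μ ^ (m * wt Q 0) * μ ^ (m * wt Q 2) ≠ 0 :=
        mul_ne_zero (pow_ne_zero _ hμ) (pow_ne_zero _ hμ)
      apply mul_left_cancel₀ hne
      linear_combination hcon'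

end H39c

end PartH39cNAsm

section PartH39cNComb

set_option autoImplicit false

open MvPolynomial

namespace H39c

universe u

theorem ncomb_wt (Q : ℕ) (d : Fin 3 →₀ ℕ) :
    Finsupp.weight (wt Q) d = d 0 + d 1 + d 2 * Q := by
  rw [Finsupp.weight_apply, Finsupp.sum_fintype _ _ (by simp), Fin.sum_univ_three]
  simp [wt]

/-- the exponent of weight `N` with given `Z`- and `Y`-degree -/
noncomputable def ncombE (Q N i j : ℕ) : Fin 3 →₀ ℕ :=
  Finsupp.equivFunOnFinite.symm ![N - i - j * Q, i, j]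

theorem ncombE_0 (Q N i j : ℕ) : ncombE Q N i j 0 = N - i - j * Q := rfl
theorem ncombE_1 (Q N i j : ℕ) : ncombE Q N i j 1 = i := rfl
theorem ncombE_2 (Q N i j : ℕ) : ncombE Q N i j 2 = j := rfl

/-- forms with prescribed coefficients -/
noncomputable def ncombA {K : Type u} [Field K] (Q N a b : ℕ) (c : Fin a × Fin b → K) : P3 K :=
  ∑ x, monomial (ncombE Q N x.1 x.2) (c x)

section
variable {K : Type u} [Field K] {Q N a b : ℕ}

theorem ncombA_hom (h : a + b * Q ≤ N) (c : Fin a × Fin b → K) :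
    (ncombA Q N a b c).IsWeightedHomogeneous (wt Q) N := by
  refine IsWeightedHomogeneous.sum _ _ _ fun x _ => isWeightedHomogeneous_monomial _ _ _ ?_
  rw [ncomb_wt, ncombE_0, ncombE_1, ncombE_2]
  have h1 := x.1.2
  have h2 := Nat.mul_le_mul_right Q x.2.2.le
  omega

theorem ncombA_supp (c : Fin a × Fin b → K) {d : Fin 3 →₀ ℕ} (hd : d ∈ (ncombA Q N a b c).support) :
    d 1 < a ∧ d 2 < b := by
  obtain ⟨x, -, hx⟩ := Finset.mem_biUnion.1 (support_sum hd)
  rw [Finset.mem_singleton.1 (support_monomial_subset hx)]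
  exact ⟨x.1.2, x.2.2⟩

theorem ncombA_zero {c : Fin a × Fin b → K} (h : ncombA Q N a b c = 0) : c = 0 := by
  funext x
  have h1 := congrArg (coeff (ncombE Q N x.1 x.2)) h
  rw [ncombA, coeff_sum, Finset.sum_eq_single x, coeff_monomial, if_pos rfl] at h1
  · exact h1
  · intro y _ hy
    rw [coeff_monomial, if_neg]
    intro e
    exact hy (Prod.ext (Fin.ext (congrArg (fun d : Fin 3 →₀ ℕ => d 1) e))
      (Fin.ext (congrArg (fun d : Fin 3 →₀ ℕ => d 2) e)))
  · simp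

/-- `ncombA` as a linear map -/
noncomputable def ncombL (K : Type u) [Field K] (Q N a b : ℕ) : (Fin a × Fin b → K) →ₗ[K] P3 K where
  toFun := ncombA Q N a b
  map_add' c c' := by simp [ncombA, Finset.sum_add_distrib]
  map_smul' r c := by simp [ncombA, Finset.smul_sum, smul_monomial]

theorem ncomb_deg (hQ : 0 < Q) {n : ℕ} {F : P3 K} (h : F.IsWeightedHomogeneous (wt Q) (n * Q)) :
    F.degreeOf 2 ≤ n := by
  refine degreeOf_le_iff.2 fun d hd => ?_
  have h1 := h (mem_support_iff.1 hd)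
  rw [ncomb_wt] at h1
  exact Nat.le_of_mul_le_mul_right (by omega) hQ

end

theorem n_comb : COMB_s.{u} := by
  intro K _ Q n' I0 I' J1 F G1 hQ hn hF hG hp hc hnd dF dG hnum
  obtain ⟨W, hW⟩ : ∃ W, W = I' + 1 + n' * Q + (I0 + I' + J1 * Q) := ⟨_, rfl⟩
  let L0 : ((Fin (I' + 1) × Fin n' → K) × (Fin (I' + 1) × Fin n' → K)) →ₗ[K] P3 K :=
    (LinearMap.mulRight K F ∘ₗ ncombL K Q W (I' + 1) n').coprod
      (LinearMap.mulRight K G1 ∘ₗ ncombL K Q W (I' + 1) n')
  let L : ((Fin (I' + 1) × Fin n' → K) × (Fin (I' + 1) × Fin n' → K)) →ₗ[K]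
      (Fin (I0 + I' + 1) × Fin (2 * n' - (1 + J1)) → K) :=
    LinearMap.pi fun x => lcoeff K (ncombE Q (W + n' * Q) x.1 (x.2 + (1 + J1))) ∘ₗ L0
  have hk : LinearMap.ker L ≠ ⊥ := by
    refine LinearMap.ker_ne_bot_of_finrank_lt ?_
    simp only [Module.finrank_prod, Module.finrank_fintype_fun_eq_card, Fintype.card_prod,
      Fintype.card_fin]
    by_cases h : 1 + J1 ≤ 2 * n'
    · obtain ⟨t, ht⟩ := Nat.exists_eq_add_of_le h
      rw [ht, Nat.add_sub_cancel_left]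
      have e : (1 + J1 + t) * (I0 + I' + 1) = 2 * n' * (I0 + I' + 1) := by rw [ht]
      nlinarith
    · rw [Nat.sub_eq_zero_of_le (by omega), mul_zero]
      positivity
  obtain ⟨⟨c, c'⟩, hc0, hne⟩ := (Submodule.ne_bot_iff _).1 hk
  have hA := ncombA_hom (Q := Q) (N := W) (a := I' + 1) (b := n') (by omega) c
  have hB := ncombA_hom (Q := Q) (N := W) (a := I' + 1) (b := n') (by omega) c'
  have dA : ∀ c : Fin (I' + 1) × Fin n' → K, (ncombA Q W (I' + 1) n' c).degreeOf 1 ≤ I' ∧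
      (ncombA Q W (I' + 1) n' c).degreeOf 2 ≤ n' - 1 := fun c =>
    ⟨degreeOf_le_iff.2 fun d hd => by have := (ncombA_supp c hd).1; omega,
      degreeOf_le_iff.2 fun d hd => by have := (ncombA_supp c hd).2; omega⟩
  have hz : ∀ x : Fin (I0 + I' + 1) × Fin (2 * n' - (1 + J1)),
      coeff (ncombE Q (W + n' * Q) x.1 (x.2 + (1 + J1)))
        (ncombA Q W (I' + 1) n' c * F + ncombA Q W (I' + 1) n' c' * G1) = 0 :=
    fun x => congrFun (LinearMap.mem_ker.1 hc0) x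
  have zA : ncombA Q W (I' + 1) n' c = 0 → c = 0 := ncombA_zero
  have zB : ncombA Q W (I' + 1) n' c' = 0 → c' = 0 := ncombA_zero
  obtain ⟨a1, a2⟩ := dA c
  obtain ⟨b1, b2⟩ := dA c'
  generalize ncombA Q W (I' + 1) n' c = A at hA hz zA a1 a2
  generalize ncombA Q W (I' + 1) n' c' = B at hB hz zB b1 b2
  have hH : (A * F + B * G1).IsWeightedHomogeneous (wt Q) (W + n' * Q) :=
    (hA.mul hF).add (hB.mul hG)
  have h0 : A * F + B * G1 ≠ 0 := by
    intro h
    have h1 : F ∣ B * G1 := ⟨-A, by linear_combination h⟩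
    obtain ⟨u, hu⟩ := (hp.dvd_or_dvd h1).resolve_right hnd
    have hB0 : B = 0 := by
      by_contra hB0
      have hu0 : u ≠ 0 := fun e => hB0 (by rw [hu, e, mul_zero])
      have h2 := degreeOf_mul_eq (n := (2 : Fin 3)) hp.ne_zero hu0
      have h3 := monomial_le_degreeOf (f := F) (2 : Fin 3)
        (mem_support_iff.2 (hc ▸ one_ne_zero : coeff (Finsupp.single 2 n') F ≠ 0))
      rw [Finsupp.single_eq_same] at h3
      rw [← hu] at h2
      omega
    rw [hB0, zero_mul, add_zero] at h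
    exact hne (Prod.ext (zA ((mul_eq_zero.1 h).resolve_right hp.ne_zero)) (zB hB0))
  have d1 : (A * F + B * G1).degreeOf 1 ≤ I0 + I' :=
    (degreeOf_add_le _ _ _).trans (max_le ((degreeOf_mul_le _ _ _).trans (by omega))
      ((degreeOf_mul_le _ _ _).trans (by omega)))
  have d2 : (A * F + B * G1).degreeOf 2 ≤ n' - 1 + n' :=
    (degreeOf_add_le _ _ _).trans
      (max_le ((degreeOf_mul_le _ _ _).trans (Nat.add_le_add a2 (ncomb_deg hQ hF)))
        ((degreeOf_mul_le _ _ _).trans (Nat.add_le_add b2 (ncomb_deg hQ hG))))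
  have hv : ∀ R : Fin 3 → K, eval R F = 0 → eval R G1 = 0 → eval R (A * F + B * G1) = 0 :=
    fun R h1 h2 => by simp [h1, h2]
  generalize A * F + B * G1 = H at hz hH h0 d1 d2 hv
  obtain ⟨r, hr⟩ : ∃ r, W + n' * Q = r + (I0 + I' + J1 * Q) := ⟨I' + 1 + n' * Q + n' * Q, by omega⟩
  have hs : ∀ d ∈ H.support, r ≤ d 0 := fun d hd => by
    have e1 := degreeOf_le_iff.1 d1 d hd
    have e2 := degreeOf_le_iff.1 d2 d hd
    have e3 := hH (mem_support_iff.1 hd)
    rw [ncomb_wt] at e3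
    have e4 : d 2 ≤ J1 := by
      by_contra h
      have e5 := hz (⟨d 1, by omega⟩, ⟨d 2 - (1 + J1), by omega⟩)
      have e6 : ncombE Q (W + n' * Q) (d 1) (d 2 - (1 + J1) + (1 + J1)) = d := by
        rw [Nat.sub_add_cancel (by omega)]
        ext i
        fin_cases i
        · exact (ncombE_0 _ _ _ _).trans (show _ = d 0 by omega)
        · rfl
        · rfl
      exact mem_support_iff.1 hd (e6 ▸ e5)
    have := Nat.mul_le_mul_right Q e4
    omega
  have hm : H.modMonomial (Finsupp.single 0 r) = 0 := by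
    ext d
    by_cases h : Finsupp.single 0 r ≤ d
    · rw [coeff_modMonomial_of_le _ h, coeff_zero]
    · rw [coeff_modMonomial_of_not_le _ h, coeff_zero]
      by_contra h'
      exact h (Finsupp.single_le_iff.2 (hs d (mem_support_iff.2 h')))
  have he := divMonomial_add_modMonomial H (Finsupp.single 0 r)
  rw [hm, add_zero] at he
  refine ⟨H.divMonomial (Finsupp.single 0 r), fun h => h0 (by rw [← he, h, mul_zero]),
    fun d hd => ?_, fun R h1 h2 h3 => ?_⟩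
  · rw [coeff_divMonomial] at hd
    have e := hH hd
    rw [ncomb_wt] at e ⊢
    simp only [Finsupp.add_apply, Finsupp.single_eq_same, ne_eq, Fin.reduceEq, not_false_eq_true,
      Finsupp.single_eq_of_ne, zero_add] at e
    omega
  · have e := hv R h2 h3
    rw [← he, map_mul, ← X_pow_eq_monomial, map_pow, eval_X] at e
    exact (mul_eq_zero.1 e).resolve_left (pow_ne_zero _ h1)

end H39c

end PartH39cNComb

section PartH39cNConj40

set_option autoImplicit false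

open MvPolynomial

namespace H39c

universe u

/-- two ring maps with the same kernel differ by an endomorphism of `Ω`. -/
theorem nconj_lift {R Ω : Type u} [CommRing R] [Field Ω] [IsAlgClosed Ω] (φ1 φ2 : R →+* Ω)
    (hk : ∀ r, φ1 r = 0 ↔ φ2 r = 0) (halg : ∀ x : Ω, IsAlgebraic φ1.range x) :
    ∃ θ : Ω →+* Ω, ∀ r, θ (φ1 r) = φ2 r := by
  have hs : Function.Surjective φ1.rangeRestrict := φ1.rangeRestrict_surjective
  have hle : RingHom.ker φ1.rangeRestrict ≤ RingHom.ker φ2 := by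
    intro r hr
    rw [RingHom.mem_ker] at hr ⊢
    exact (hk r).1 (congrArg Subtype.val hr)
  let ψ : φ1.range →+* Ω := φ1.rangeRestrict.liftOfSurjective hs ⟨φ2, hle⟩
  have hψ : ∀ r, ψ (φ1.rangeRestrict r) = φ2 r := fun r =>
    φ1.rangeRestrict.liftOfRightInverse_comp_apply _ _ ⟨φ2, hle⟩ r
  have hinj : Function.Injective ψ := by
    rw [injective_iff_map_eq_zero]
    intro x hx
    obtain ⟨r, rfl⟩ := hs x
    rw [hψ] at hx
    exact Subtype.ext ((hk r).2 hx)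
  have a1 : Algebra.IsAlgebraic φ1.range Ω := ⟨halg⟩
  have t2 : @Module.IsTorsionFree φ1.range Ω _ _ ψ.toAlgebra.toModule := by
    let _ := ψ.toAlgebra
    have : FaithfulSMul φ1.range Ω := (faithfulSMul_iff_algebraMap_injective _ _).2 hinj
    infer_instance
  let θ := @IsAlgClosed.lift Ω _ _ φ1.range _ _ Ω _ _ _ ψ.toAlgebra _ t2 a1
  refine ⟨@AlgHom.toRingHom _ _ _ _ _ _ _ ψ.toAlgebra θ, fun r => ?_⟩
  have := @AlgHom.commutes _ _ _ _ _ _ _ ψ.toAlgebra θ (φ1.rangeRestrict r)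
  exact this.trans (hψ r)

theorem nconj_alg_mono {Ω : Type u} [Field Ω] {A B : Subring Ω} (h : A ≤ B) {x : Ω}
    (hx : IsAlgebraic A x) : IsAlgebraic B x := by
  obtain ⟨f, hf, h0⟩ := hx
  refine ⟨f.map (Subring.inclusion h), ?_, ?_⟩
  · exact (Polynomial.map_ne_zero_iff (Subring.inclusion_injective h)).2 hf
  · rw [Polynomial.aeval_def, Polynomial.eval₂_map]
    exact h0

variable {k : Type u} [Field k] {ξ : Fin 4 → PowerSeries k} {D c : ℕ} {δ : P4 k}

/-- the cone is stable under `k`-algebra maps -/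
theorem nconj_cone_map {R S : Type u} [CommRing R] [Algebra k R] [CommRing S] [Algebra k S]
    (θ : R →ₐ[k] S) {v : Fin 4 → R} (hv : v ∈ cone ξ R) : (fun i => θ (v i)) ∈ cone ξ S := by
  intro h hf h0
  have := congrArg θ (hv h hf h0)
  rwa [map_zero, ← AlgHom.comp_apply, comp_aeval] at this

/-- two points that are generic over `L` are conjugate over `L`. -/
theorem nconj_one (hG : Good ξ D c δ) {Ω : Type u} [Field Ω] [IsAlgClosed Ω] [Algebra k Ω]
    (L : Type u) [Field L] [Algebra k L] [Algebra L Ω] [IsScalarTower k L Ω]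
    {w1 w2 : Fin 4 → Ω} (h1 : w1 ∈ cone ξ Ω) (h2 : w2 ∈ cone ξ Ω) (n1 : w1 0 = 1) (n2 : w2 0 = 1)
    (t1 : Transcendental L (w1 3)) (t2 : Transcendental L (w2 3))
    (halg : ∀ x : Ω, IsAlgebraic (Algebra.adjoin L {w1 3}) x) :
    ∃ θ : Ω →ₐ[k] Ω, (∀ i, θ (w1 i) = w2 i) ∧ ∀ l : L, θ (algebraMap L Ω l) = algebraMap L Ω l := by
  obtain ⟨θ, hθ⟩ := nconj_lift (aeval w1 : P4 L →ₐ[L] Ω).toRingHom
    (aeval w2 : P4 L →ₐ[L] Ω).toRingHom
    (fun g => ⟨fun h => hG.spec L Ω w2 h2 n2 g (hG.inj L Ω w1 h1 n1 t1 g h),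
      fun h => hG.spec L Ω w1 h1 n1 g (hG.inj L Ω w2 h2 n2 t2 g h)⟩)
    (fun x => by
      refine nconj_alg_mono (A := (Algebra.adjoin L {w1 3}).toSubring) ?_ (halg x)
      have : Algebra.adjoin L {w1 3} ≤ (aeval w1 : P4 L →ₐ[L] Ω).range :=
        Algebra.adjoin_le (by
          rintro _ rfl
          exact ⟨X 3, by simp⟩)
      intro y hy
      exact this hy)
  have hL : ∀ l : L, θ (algebraMap L Ω l) = algebraMap L Ω l := fun l => by
    simpa using hθ (C l)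
  refine ⟨⟨θ, fun r => ?_⟩, fun i => by simpa using hθ (X i), hL⟩
  show θ (algebraMap k Ω r) = algebraMap k Ω r
  rw [IsScalarTower.algebraMap_apply k L Ω, hL]

/-- two transcendence bases are conjugate -/
theorem nconj_basis {Ω : Type u} [Field Ω] [IsAlgClosed Ω] [Algebra k Ω] {ι : Type}
    {b1 b2 : ι → Ω} (i1 : AlgebraicIndependent k b1) (i2 : AlgebraicIndependent k b2)
    (halg : ∀ x : Ω, IsAlgebraic (Algebra.adjoin k (Set.range b1)) x) :
    ∃ θ : Ω →ₐ[k] Ω, ∀ i, θ (b1 i) = b2 i := by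
  obtain ⟨θ, hθ⟩ := nconj_lift (aeval b1 : MvPolynomial ι k →ₐ[k] Ω).toRingHom
    (aeval b2 : MvPolynomial ι k →ₐ[k] Ω).toRingHom
    (fun g => ⟨fun h => by rw [algebraicIndependent_iff.1 i1 g h]; simp,
      fun h => by rw [algebraicIndependent_iff.1 i2 g h]; simp⟩)
    (fun x => by
      refine nconj_alg_mono (A := (Algebra.adjoin k (Set.range b1)).toSubring) ?_ (halg x)
      intro y hy
      have : y ∈ Algebra.adjoin k (Set.range b1) := hy
      rw [Algebra.adjoin_range_eq_range_aeval] at this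
      exact this)
  refine ⟨⟨θ, fun r => by simpa using hθ (C r)⟩, fun i => by simpa using hθ (X i)⟩

/-- the relative algebraic closure of `k(S)` as an intermediate field over `k` -/
noncomputable def nacl (k : Type u) [Field k] {Ω : Type u} [Field Ω] [Algebra k Ω] (S : Set Ω) :
    IntermediateField k Ω :=
  (algebraicClosure (IntermediateField.adjoin k S) Ω).restrictScalars k

theorem mem_nacl {Ω : Type u} [Field Ω] [Algebra k Ω] {S : Set Ω} {x : Ω} :
    x ∈ nacl k S ↔ IsAlgebraic (Algebra.adjoin k S) x := by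
  rw [← IntermediateField.isAlgebraic_adjoin_iff]
  exact mem_algebraicClosure_iff

theorem subset_nacl {Ω : Type u} [Field Ω] [Algebra k Ω] {S : Set Ω} {x : Ω} (hx : x ∈ S) :
    x ∈ nacl k S :=
  mem_nacl.2 (isAlgebraic_algebraMap (⟨x, Algebra.subset_adjoin hx⟩ : Algebra.adjoin k S))

theorem transc_nacl {Ω : Type u} [Field Ω] [Algebra k Ω] {S : Set Ω} {x : Ω}
    (hx : Transcendental (Algebra.adjoin k S) x) : Transcendental (nacl k S) x :=
  (IntermediateField.transcendental_adjoin_iff.2 hx).algebraicClosure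

theorem nacl_of_point (hG : Good ξ D c δ) {Ω : Type u} [Field Ω] [Algebra k Ω] {S : Set Ω}
    {v : Fin 4 → Ω} (hv : v ∈ cone ξ Ω) (n : v 0 = 1) (hS : v 3 ∈ S) (i : Fin 4) :
    v i ∈ nacl k S := by
  rw [mem_nacl]
  refine nconj_alg_mono (A := (Algebra.adjoin k {v 3}).toSubring)
    (B := (Algebra.adjoin k S).toSubring) ?_ (hG.alg Ω v hv n i).isAlgebraic
  intro y hy
  exact Algebra.adjoin_mono (Set.singleton_subset_iff.2 hS) hy

theorem nconj_step (hG : Good ξ D c δ) {Ω : Type u} [Field Ω] [IsAlgClosed Ω] [Algebra k Ω]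
    {ι : Type} {b : ι → Ω} (ib : AlgebraicIndependent k b)
    (halg : ∀ x : Ω, IsAlgebraic (Algebra.adjoin k (Set.range b)) x) (i0 : ι)
    {w1 w2 : Fin 4 → Ω} (h1 : w1 ∈ cone ξ Ω) (h2 : w2 ∈ cone ξ Ω) (n1 : w1 0 = 1) (n2 : w2 0 = 1)
    (e1 : w1 3 = b i0) (e2 : w2 3 = b i0) :
    ∃ θ : Ω →ₐ[k] Ω, (∀ i, θ (w1 i) = w2 i) ∧ ∀ x ∈ nacl k (b '' {i0}ᶜ), θ x = x := by
  have tr : Transcendental (nacl k (b '' {i0}ᶜ)) (b i0) :=
    transc_nacl (ib.transcendental_adjoin (by simp))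
  obtain ⟨θ, h, hL⟩ := nconj_one hG (nacl k (b '' {i0}ᶜ)) h1 h2 n1 n2 (e1 ▸ tr) (e2 ▸ tr)
    (fun x => by
      refine nconj_alg_mono (A := (Algebra.adjoin k (Set.range b)).toSubring)
        (B := (Algebra.adjoin (nacl k (b '' {i0}ᶜ)) {w1 3}).toSubring) ?_ (halg x)
      have : Algebra.adjoin k (Set.range b) ≤
          (Algebra.adjoin (nacl k (b '' {i0}ᶜ)) {w1 3}).restrictScalars k := by
        refine Algebra.adjoin_le ?_
        rintro _ ⟨i, rfl⟩
        by_cases hi : i = i0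
        · subst hi
          exact Algebra.subset_adjoin (by simp [e1])
        · exact (Algebra.adjoin (nacl k (b '' {i0}ᶜ)) {w1 3}).algebraMap_mem
            ⟨b i, subset_nacl ⟨i, hi, rfl⟩⟩
      intro y hy
      exact this hy)
  exact ⟨θ, h, fun x hx => hL ⟨x, hx⟩⟩

/-- CONJ: two generic pairs of normalised points are conjugate. `b1`, `b2` are transcendence
bases that contain the `x`-coordinates at the indices `i ≠ i'`. -/
theorem nconj (hG : Good ξ D c δ) {Ω : Type u} [Field Ω] [IsAlgClosed Ω] [Algebra k Ω]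
    {ι : Type} {b1 b2 : ι → Ω} (i1 : AlgebraicIndependent k b1) (i2 : AlgebraicIndependent k b2)
    (a1 : ∀ x : Ω, IsAlgebraic (Algebra.adjoin k (Set.range b1)) x)
    (a2 : ∀ x : Ω, IsAlgebraic (Algebra.adjoin k (Set.range b2)) x)
    {i i' : ι} (hii : i ≠ i') {u1 u1' u2 u2' : Fin 4 → Ω}
    (h1 : u1 ∈ cone ξ Ω) (h1' : u1' ∈ cone ξ Ω) (h2 : u2 ∈ cone ξ Ω) (h2' : u2' ∈ cone ξ Ω)
    (n1 : u1 0 = 1) (n1' : u1' 0 = 1) (n2 : u2 0 = 1) (n2' : u2' 0 = 1)
    (e1 : u1 3 = b1 i) (e1' : u1' 3 = b1 i') (e2 : u2 3 = b2 i) (e2' : u2' 3 = b2 i') :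
    ∃ θ : Ω →ₐ[k] Ω, (∀ j, θ (u1 j) = u2 j) ∧ (∀ j, θ (u1' j) = u2' j) ∧
      ∀ j, θ (b1 j) = b2 j := by
  obtain ⟨θ0, h0⟩ := nconj_basis i1 i2 a1
  obtain ⟨θ1, s1, f1⟩ := nconj_step hG i2 a2 i' (nconj_cone_map θ0 h1') h2'
    (by simp [n1']) n2' (by simp [e1', h0]) e2'
  have fb1 : ∀ j, θ1 (b2 j) = b2 j := fun j => by
    by_cases hj : j = i'
    · subst hj
      have := s1 3
      rwa [e1', h0, e2'] at this
    · exact f1 _ (subset_nacl ⟨j, hj, rfl⟩)
  obtain ⟨θ2, s2, f2⟩ := nconj_step hG i2 a2 i (nconj_cone_map (θ1.comp θ0) h1) h2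
    (by simp [n1]) n2 (by simp [e1, h0, fb1]) e2
  have fb2 : ∀ j, θ2 (b2 j) = b2 j := fun j => by
    by_cases hj : j = i
    · subst hj
      have := s2 3
      rwa [AlgHom.comp_apply, e1, h0, fb1, e2] at this
    · exact f2 _ (subset_nacl ⟨j, hj, rfl⟩)
  refine ⟨θ2.comp (θ1.comp θ0), fun j => s2 j, fun j => ?_, fun j => ?_⟩
  · rw [AlgHom.comp_apply, AlgHom.comp_apply, s1]
    have hm : u2' 3 ∈ b2 '' {i}ᶜ := ⟨i', hii.symm, e2'.symm⟩
    exact f2 _ (nacl_of_point hG h2' n2' hm j)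
  · rw [AlgHom.comp_apply, AlgHom.comp_apply, h0, fb1, fb2]

/-- the field `K'` fixed by all endomorphisms of `Ω` that fix `e` -/
def fixF (k : Type u) [Field k] {Ω : Type u} [Field Ω] [Algebra k Ω] {ι : Type} (e : ι → Ω) :
    IntermediateField k Ω where
  carrier := {x | ∀ θ : Ω →ₐ[k] Ω, (∀ i, θ (e i) = e i) → θ x = x}
  mul_mem' := fun ha hb θ h => by rw [map_mul, ha θ h, hb θ h]
  one_mem' := fun θ _ => map_one θ
  add_mem' := fun ha hb θ h => by rw [map_add, ha θ h, hb θ h]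
  zero_mem' := fun θ _ => map_zero θ
  algebraMap_mem' := fun r θ _ => θ.commutes r
  inv_mem' := fun x hx θ h => by rw [map_inv₀, hx θ h]

theorem mem_fixF {Ω : Type u} [Field Ω] [Algebra k Ω] {ι : Type} {e : ι → Ω} {x : Ω} :
    x ∈ fixF k e ↔ ∀ θ : Ω →ₐ[k] Ω, (∀ i, θ (e i) = e i) → θ x = x := Iff.rfl

theorem e_mem_fixF {Ω : Type u} [Field Ω] [Algebra k Ω] {ι : Type} (e : ι → Ω) (i : ι) :
    e i ∈ fixF k e := fun _ h => h i

theorem fixF_perfectRing {Ω : Type u} [Field Ω] [IsAlgClosed Ω] [Algebra k Ω] {ι : Type}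
    (e : ι → Ω) (p : ℕ) [Fact p.Prime] [CharP k p] : PerfectRing (fixF k e) p := by
  have : CharP Ω p := charP_of_injective_algebraMap (algebraMap k Ω).injective p
  refine PerfectRing.ofSurjective _ p ?_
  rintro ⟨x, hx⟩
  obtain ⟨y, rfl⟩ := IsAlgClosed.exists_pow_nat_eq x (Fact.out : p.Prime).pos
  refine ⟨⟨y, fun θ h => ?_⟩, Subtype.ext rfl⟩
  apply frobenius_inj Ω p
  have := hx θ h
  rwa [map_pow] at this

end H39c

end PartH39cNConj40

section PartH39cNConj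

set_option autoImplicit false

open MvPolynomial

namespace H39c

universe u

theorem nconj_aeval_smul {k Ω : Type u} [Field k] [Field Ω] [Algebra k Ω] {h : P4 k} {d : ℕ}
    (hh : h.IsHomogeneous d) (μ : Ω) (v : Fin 4 → Ω) :
    aeval (fun i => μ * v i) h = μ ^ d * aeval v h := by
  classical
  conv_lhs => rw [h.as_sum]
  conv_rhs => rw [h.as_sum]
  rw [map_sum, map_sum, Finset.mul_sum]
  refine Finset.sum_congr rfl fun s hs => ?_
  have hd : s 0 + s 1 + s 2 + s 3 = d := by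
    have h1 := hh.degree_eq_sum_deg_support hs
    have h2 : d = s.degree := by rw [h1, Finsupp.degree_apply]
    rw [h2, Finsupp.degree_eq_sum, Fin.sum_univ_four]
  rw [aeval_monomial, aeval_monomial, Finsupp.prod_fintype _ _ (by simp),
    Finsupp.prod_fintype _ _ (by simp), Fin.prod_univ_four, Fin.prod_univ_four, ← hd]
  simp only [mul_pow]
  ring

theorem nconj_map_aeval {k Ω : Type u} [Field k] [Field Ω] [Algebra k Ω] (θ : Ω →ₐ[k] Ω)
    {v u : Fin 4 → Ω} (h : ∀ i, θ (v i) = u i) (g : P4 k) : θ (aeval v g) = aeval u g := by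
  rw [← AlgHom.comp_apply, comp_aeval]
  congr 2
  exact funext h

section
variable {k Ω : Type u} [Field k] [Field Ω] [Algebra k Ω] (e : Option (Fin 5) → Ω) (m : ℕ)
  (s0 y0 G : P4 k) (v : Fin 4 → Ω)

theorem nconj_ev0 : eval v (tr e m s0 y0 G 0) = aeval v s0 := by
  simp [tr, trip, eval_map, aeval_def]

theorem nconj_ev1 : eval v (tr e m s0 y0 G 1) = v 3 ^ m + e none * v 0 ^ m := by
  simp [tr, trip]

theorem nconj_ev2 : eval v (tr e m s0 y0 G 2) = aeval v y0 + aeval v G *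
    (e (some 0) * v 0 ^ 3 + e (some 1) * (v 0 ^ 2 * v 3) + e (some 2) * (v 0 * v 3 ^ 2) +
      e (some 3) * v 3 ^ 3 + e (some 4) * (v 0 ^ 2 * v 1)) := by
  simp [tr, trip, cub, eval_map, aeval_def, Fin.sum_univ_five]
end

theorem n_conj (hA : ACL_s.{u}) (hN : NCZ_s.{u}) (hGen : GEN_s.{u}) : CONJ_s.{u} := by
  intro k _ _ p _ _ ξ D c δ Ω _ _ _ e m Q a e0 dG s0 y0 G hG hD
  obtain ⟨a1, a2, a3, -, -, a6, -, -, -⟩ := hA k Ω
  obtain ⟨-, -, -, -, n5, n6⟩ := hN k p ξ D c δ Ω e m Q a e0 dG s0 y0 G hG hD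
  have gen := hGen k p ξ D c δ Ω e m Q a e0 dG s0 y0 G hG hD
  have : CharP Ω p := charP_of_injective_algebraMap (algebraMap k Ω).injective p
  have hinj : ∀ x y : Ω, x ^ m = y ^ m → x = y := by
    obtain ⟨i, hi⟩ := hD.hm
    intro x y hxy
    have : (x - y) ^ p ^ (i + 1) = 0 := by rw [sub_pow_char_pow, ← hi, hxy, sub_self]
    exact sub_eq_zero.1 (pow_eq_zero_iff (pow_ne_zero _ (Fact.out : p.Prime).ne_zero) |>.1 this)
  -- the two linear equations of a node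
  have eq1 : ∀ v v', Node (idl ξ Ω) (tr e m s0 y0 G) v v' →
      e none * (v 0 ^ m - v' 0 ^ m) = v' 3 ^ m - v 3 ^ m := by
    intro v v' h
    have := congrFun h.2.2.2 1
    simp only [val3, nconj_ev1] at this
    linear_combination this
  have eq2 : ∀ v v', Node (idl ξ Ω) (tr e m s0 y0 G) v v' →
      e (some 0) * (aeval v G * v 0 ^ 3 - aeval v' G * v' 0 ^ 3) =
        aeval v' y0 + aeval v' G * (e (some 1) * (v' 0 ^ 2 * v' 3) + e (some 2) * (v' 0 * v' 3 ^ 2) +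
          e (some 3) * v' 3 ^ 3 + e (some 4) * (v' 0 ^ 2 * v' 1)) -
        (aeval v y0 + aeval v G * (e (some 1) * (v 0 ^ 2 * v 3) + e (some 2) * (v 0 * v 3 ^ 2) +
          e (some 3) * v 3 ^ 3 + e (some 4) * (v 0 ^ 2 * v 1))) := by
    intro v v' h
    have := congrFun h.2.2.2 2
    simp only [val3, nconj_ev2] at this
    linear_combination this
  have one' : ∀ v v', Node (idl ξ Ω) (tr e m s0 y0 G) v v' → eval v (tr e m s0 y0 G 0) = 1 →
      eval v' (tr e m s0 y0 G 0) = 1 := fun v v' h h1 => (congrFun h.2.2.2 0).symm.trans h1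
  -- `Ω` is algebraic over the family of a normalised node
  have alg : ∀ v v', Node (idl ξ Ω) (tr e m s0 y0 G) v v' → eval v (tr e m s0 y0 G 0) = 1 →
      ∀ x : Ω, IsAlgebraic (Algebra.adjoin k (Set.range (fam e v v'))) x := by
    intro v v' h h1 x
    have g := gen v v' h h1
    set L := acl k (Set.range (fam e v v')) with hL
    have fL : ∀ j, fam e v v' j ∈ L := fun j => a1 _ ⟨j, rfl⟩
    have vL : ∀ i, v i ∈ L := fun i =>
      a2 {v 3 / v 0} _ (Set.singleton_subset_iff.2 (fL 0)) (n6 v h.1 h1 i)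
    have vL' : ∀ i, v' i ∈ L := fun i =>
      a2 {v' 3 / v' 0} _ (Set.singleton_subset_iff.2 (fL 1)) (n6 v' h.2.1 (one' v v' h h1) i)
    have ae : ∀ (w : Fin 4 → Ω), (∀ i, w i ∈ L) → ∀ g : P4 k, aeval w g ∈ L := by
      intro w hw g
      induction g using MvPolynomial.induction_on with
      | C r => rw [aeval_C]; exact L.algebraMap_mem r
      | add f g hf hg => rw [map_add]; exact L.add_mem hf hg
      | mul_X f i hf => rw [map_mul, aeval_X]; exact L.mul_mem hf (hw i)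
    have t1 : e (some 1) ∈ L := fL 2
    have t2 : e (some 2) ∈ L := fL 3
    have t3 : e (some 3) ∈ L := fL 4
    have t4 : e (some 4) ∈ L := fL 5
    have sL : e none ∈ L := by
      rw [eq_div_of_mul_eq (sub_ne_zero.2 g.d0) (eq1 v v' h)]
      exact L.div_mem (L.sub_mem (pow_mem (vL' 3) _) (pow_mem (vL 3) _))
        (L.sub_mem (pow_mem (vL 0) _) (pow_mem (vL' 0) _))
    have cubL : ∀ (w : Fin 4 → Ω), (∀ i, w i ∈ L) → aeval w y0 + aeval w G *
        (e (some 1) * (w 0 ^ 2 * w 3) + e (some 2) * (w 0 * w 3 ^ 2) +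
          e (some 3) * w 3 ^ 3 + e (some 4) * (w 0 ^ 2 * w 1)) ∈ L := fun w hw =>
      L.add_mem (ae w hw y0) (L.mul_mem (ae w hw G) (L.add_mem (L.add_mem (L.add_mem
        (L.mul_mem t1 (L.mul_mem (pow_mem (hw 0) _) (hw 3)))
        (L.mul_mem t2 (L.mul_mem (hw 0) (pow_mem (hw 3) _))))
        (L.mul_mem t3 (pow_mem (hw 3) _)))
        (L.mul_mem t4 (L.mul_mem (pow_mem (hw 0) _) (hw 1)))))
    have t0 : e (some 0) ∈ L := by
      rw [eq_div_of_mul_eq (sub_ne_zero.2 g.dG) (eq2 v v' h)]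
      exact L.div_mem (L.sub_mem (cubL v' vL') (cubL v vL))
        (L.sub_mem (L.mul_mem (ae v vL G) (pow_mem (vL 0) _))
          (L.mul_mem (ae v' vL' G) (pow_mem (vL' 0) _)))
    have eL : ∀ j, e j ∈ L := by
      rintro (_ | j)
      · exact sL
      · fin_cases j
        exacts [t0, t1, t2, t3, t4]
    refine a6 _ x (a3 _ x ?_)
    refine nconj_alg_mono (A := (Algebra.adjoin k (Set.range e)).toSubring)
      (B := L.toSubalgebra.toSubring) ?_ (hD.algΩ.isAlgebraic x)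
    have : Algebra.adjoin k (Set.range e) ≤ L.toSubalgebra :=
      Algebra.adjoin_le (by rintro _ ⟨j, rfl⟩; exact eL j)
    intro y hy
    exact this hy
  have nrm : ∀ v ∈ V (idl ξ Ω), (fun i => (v 0)⁻¹ * v i) ∈ cone ξ Ω := fun v hv => by
    rw [hG.coneV]; exact n5 v hv _
  intro v v' u u' hv hv1 hu hu1
  have gv := gen v v' hv hv1
  have gu := gen u u' hu hu1
  obtain ⟨θ, h1, h2, h3⟩ := nconj hG gv.ind gu.ind (alg v v' hv hv1) (alg u u' hu hu1)
    (i := 0) (i' := 1) (by decide) (nrm v hv.1) (nrm v' hv.2.1) (nrm u hu.1) (nrm u' hu.2.1)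
    (inv_mul_cancel₀ gv.v0) (inv_mul_cancel₀ gv.v0') (inv_mul_cancel₀ gu.v0)
    (inv_mul_cancel₀ gu.v0') (by simp [fam, div_eq_inv_mul]) (by simp [fam, div_eq_inv_mul])
    (by simp [fam, div_eq_inv_mul]) (by simp [fam, div_eq_inv_mul])
  have back : ∀ v u : Fin 4 → Ω, v 0 ≠ 0 → u 0 ≠ 0 → eval v (tr e m s0 y0 G 0) = 1 →
      eval u (tr e m s0 y0 G 0) = 1 → (∀ j, θ ((v 0)⁻¹ * v j) = (u 0)⁻¹ * u j) →
      ∀ j, θ (v j) = u j := by
    intro v u v0 u0 e1 e2 h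
    rw [nconj_ev0] at e1 e2
    have b := nconj_map_aeval θ h s0
    rw [nconj_aeval_smul hD.hs, nconj_aeval_smul hD.hs, e1, e2, mul_one, mul_one, map_pow,
      map_inv₀] at b
    have b0 : θ (v 0) = u 0 := inv_injective (hinj _ _ b)
    intro j
    have := h j
    rw [map_mul, map_inv₀, b0] at this
    exact mul_left_cancel₀ (inv_ne_zero u0) this
  have hθv := back v u gv.v0 gu.v0 hv1 hu1 h1
  have hθv' := back v' u' gv.v0' gu.v0' (one' v v' hv hv1) (one' u u' hu hu1) h2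
  have t1 : θ (e (some 1)) = e (some 1) := h3 2
  have t2 : θ (e (some 2)) = e (some 2) := h3 3
  have t3 : θ (e (some 3)) = e (some 3) := h3 4
  have t4 : θ (e (some 4)) = e (some 4) := h3 5
  have s : θ (e none) = e none := by
    have b := congrArg θ (eq1 v v' hv)
    simp only [map_mul, map_sub, map_pow, hθv, hθv'] at b
    exact mul_right_cancel₀ (sub_ne_zero.2 gu.d0) (b.trans (eq1 u u' hu).symm)
  have t0 : θ (e (some 0)) = e (some 0) := by
    have b := congrArg θ (eq2 v v' hv)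
    simp only [map_mul, map_sub, map_add, map_pow, hθv, hθv', nconj_map_aeval θ hθv,
      nconj_map_aeval θ hθv', t1, t2, t3, t4] at b
    exact mul_right_cancel₀ (sub_ne_zero.2 gu.dG) (b.trans (eq2 u u' hu).symm)
  refine ⟨θ, ?_, hθv, hθv'⟩
  rintro (_ | j)
  · exact s
  · fin_cases j
    exacts [t0, t1, t2, t3, t4]

end H39c

end PartH39cNConj

section PartH39cNDs0

set_option autoImplicit false

open MvPolynomial

namespace H39c

universe u

theorem nds0_chain {k : Type u} [Field k] (ξ : Fin 4 → PowerSeries k) (h : P4 k) :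
    PowerSeries.derivative k (aeval ξ h) =
      ∑ i, PowerSeries.derivative k (ξ i) * aeval ξ (pderiv i h) := by
  induction h using MvPolynomial.induction_on with
  | C a => simp only [aeval_C, Derivation.map_algebraMap, pderiv_C, map_zero, mul_zero,
      Finset.sum_const_zero]
  | add f g hf hg => simp only [map_add, hf, hg, mul_add, Finset.sum_add_distrib]
  | mul_X f j hf =>
    have e : ∀ i, PowerSeries.derivative k (ξ i) * aeval ξ (pderiv i (f * X j)) =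
        ξ j * (PowerSeries.derivative k (ξ i) * aeval ξ (pderiv i f)) +
          if j = i then aeval ξ f * PowerSeries.derivative k (ξ i) else 0 := by
      intro i
      rw [pderiv_mul, map_add, map_mul, map_mul, aeval_X]
      by_cases hij : j = i
      · rw [if_pos hij, hij, pderiv_X_self, map_one]
        ring
      · rw [if_neg hij, pderiv_X_of_ne hij, map_zero]
        ring
    simp only [e, Finset.sum_add_distrib, ← Finset.mul_sum, ← hf, Finset.sum_ite_eq,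
      Finset.mem_univ, if_true]
    rw [map_mul, aeval_X, Derivation.leibniz, smul_eq_mul, smul_eq_mul, add_comm]

theorem nds0_dual {k : Type u} [Field k] (ξ : Fin 4 → PowerSeries k) (h : P4 k) :
    (aeval (fun i => (TrivSqZeroExt.inl (ξ i) +
        TrivSqZeroExt.inr (PowerSeries.derivative k (ξ i)) : DualNumber (PowerSeries k))) h) =
      TrivSqZeroExt.inl (aeval ξ h) +
        TrivSqZeroExt.inr (PowerSeries.derivative k (aeval ξ h)) := by
  induction h using MvPolynomial.induction_on with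
  | C a =>
    rw [aeval_C, aeval_C, Derivation.map_algebraMap, TrivSqZeroExt.inr_zero, add_zero]
    rfl
  | add f g hf hg =>
    rw [map_add, hf, hg, map_add, map_add, TrivSqZeroExt.inl_add, TrivSqZeroExt.inr_add]
    abel
  | mul_X f j hf =>
    rw [map_mul, hf, aeval_X, map_mul, aeval_X, Derivation.leibniz]
    refine TrivSqZeroExt.ext ?_ ?_
    · simp
    · simp [mul_comm, add_comm]

theorem nds0_const {k : Type u} [Field k] (ξ : Fin 4 → PowerSeries k) (h : P4 k) :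
    PowerSeries.constantCoeff (aeval ξ h : PowerSeries k) = eval (P1 ξ) h := by
  induction h using MvPolynomial.induction_on with
  | C a =>
    rw [aeval_C, eval_C]
    rfl
  | add f g hf hg => rw [map_add, map_add, map_add, hf, hg]
  | mul_X f j hf =>
    rw [map_mul, map_mul, map_mul, hf, aeval_X, eval_X]
    rfl

theorem nds0_iota {k : Type u} [Field k] (ξ : Fin 4 → PowerSeries k) (h : P4 k) :
    iota ξ k h = aeval ξ h := by
  unfold iota
  simp only [Algebra.algebraMap_self, PowerSeries.map_id, id]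

theorem n_ds0 (hD : DUAL_s.{u}) (hT : TANU_s.{u}) : DS0_s.{u} := by
  intro k _ _ p _ _ ξ D c δ Ω _ _ _ e m Q a e0 dG s0 y0 G hG hd v hv v0 htr W hW h0
  obtain ⟨-, -, -, -, -, -, -, hsc, -⟩ :=
    hT k p ξ D c δ Ω e m Q a e0 dG s0 y0 G hG hd v hv v0 htr
  obtain ⟨u, hu⟩ : ∃ u : Fin 4 → Ω, u = fun i => (v 0)⁻¹ * v i := ⟨_, rfl⟩
  obtain ⟨w, hw⟩ : ∃ w : Fin 4 → Ω, w = fun i => (v 0)⁻¹ * W i := ⟨_, rfl⟩
  have hW' : TanAt ξ u w := by
    rw [hu, hw]
    exact hsc W hW _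
  have u0 : u 0 = 1 := by
    rw [hu]
    exact inv_mul_cancel₀ v0
  have hTan : Tan ξ u w := ⟨hW'.1, hW'.2.1.trans u0, hW'.2.2⟩
  have h0' : dd v W (MvPolynomial.map (algebraMap k Ω) s0) = 0 := h0
  have h1 : dd u w (MvPolynomial.map (algebraMap k Ω) s0) = 0 := by
    rw [hu, hw, (hD Ω 4 v W).2.2.2.2.2.2.2.2.2.1 _ m _ (hd.hs.map _), h0', mul_zero]
  rw [(hD Ω 4 u w).2.1] at h1
  simp only [pderiv_map, eval_map, ← aeval_def] at h1
  obtain ⟨r, τ, hτ⟩ := hG.tanf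
  have h2 : aeval u (∑ i, τ i * pderiv i s0) = 0 := by
    simp only [map_sum, map_mul, ← hτ Ω u w u0 hTan, mul_assoc, ← Finset.mul_sum, h1, mul_zero]
  have hc : u ∈ cone ξ Ω := by
    intro h hf hz
    have e1 := hW'.2.2 h hf hz
    have e2 := (hD Ω 4 u w).1 (MvPolynomial.map (algebraMap k Ω) h)
    rw [aeval_map_algebraMap, e1, eval_map, ← aeval_def] at e2
    exact e2.symm
  have ht : Transcendental k (u 3) := by
    rw [hu]
    show Transcendental k ((v 0)⁻¹ * v 3)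
    rwa [← div_eq_inv_mul]
  have h3 := hG.inj k Ω u hc u0 ht _ h2
  rw [nds0_iota] at h3
  have hTξ : Tan ξ ξ fun i => PowerSeries.derivative k (ξ i) := by
    refine ⟨?_, ?_, fun h _ hz => ?_⟩
    · show PowerSeries.derivative k (ξ 0) = 0
      rw [hG.h0, Derivation.map_one_eq_zero]
    · show PowerSeries.derivative k (ξ 3) = 1
      rw [hG.h3, PowerSeries.derivative_X]
    · rw [nds0_dual, hz, map_zero, TrivSqZeroExt.inl_zero, TrivSqZeroExt.inr_zero, add_zero]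
  simp only [map_sum, map_mul, ← hτ _ ξ _ hG.h0 hTξ, mul_assoc, ← Finset.mul_sum,
    ← nds0_chain] at h3
  have hδ : (aeval ξ δ : PowerSeries k) ≠ 0 := fun z => hG.δP1 (by
    rw [← nds0_const, z, map_zero])
  have h4 := (mul_eq_zero.1 h3).resolve_left (pow_ne_zero _ hδ)
  obtain ⟨b, rfl⟩ : ∃ b, a = b + 1 := ⟨a - 1, by have := hd.a3; omega⟩
  have h5 := congrArg (PowerSeries.coeff b) h4
  rw [PowerSeries.coeff_derivative, map_zero] at h5
  rcases mul_eq_zero.1 h5 with h6 | h6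
  · exact (PowerSeries.order_eq_nat.1 hd.os).1 h6
  · exact hd.pa ((CharP.cast_eq_zero_iff k p (b + 1)).1 (by exact_mod_cast h6))

end H39c

end PartH39cNDs0

section PartH39cNDual

set_option autoImplicit false

open MvPolynomial

namespace H39c

universe u

section
variable {K : Type u} [CommRing K] {σ : Type} (v W : σ → K)

theorem ndual_fst (h : MvPolynomial σ K) : (aeval (dp v W) h : DualNumber K).fst = eval v h := by
  induction h using MvPolynomial.induction_on with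
  | C c => simp [TrivSqZeroExt.algebraMap_eq_inl]
  | add f g h1 h2 => rw [map_add, TrivSqZeroExt.fst_add, h1, h2, map_add]
  | mul_X f i h1 => rw [map_mul, TrivSqZeroExt.fst_mul, h1, map_mul]; simp [dp]

theorem ndual_add (g h : MvPolynomial σ K) : dd v W (g + h) = dd v W g + dd v W h := by
  simp only [dd, map_add, TrivSqZeroExt.snd_add]

theorem ndual_sub (g h : MvPolynomial σ K) : dd v W (g - h) = dd v W g - dd v W h := by
  simp only [dd, map_sub, TrivSqZeroExt.snd_sub]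

theorem ndual_mul (g h : MvPolynomial σ K) :
    dd v W (g * h) = dd v W g * eval v h + eval v g * dd v W h := by
  simp only [dd]
  rw [map_mul, DualNumber.snd_mul, ndual_fst, ndual_fst, add_comm]

theorem ndual_C (c : K) : dd v W (C c) = 0 := by
  simp [dd, TrivSqZeroExt.algebraMap_eq_inl]

theorem ndual_X (i : σ) : dd v W (X i) = W i := by
  simp [dd, dp]

theorem ndual_pow (h : MvPolynomial σ K) (n : ℕ) :
    dd v W (h ^ (n + 1)) = ((n + 1 : ℕ) : K) * eval v h ^ n * dd v W h := by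
  induction n with
  | zero => simp
  | succ n ih =>
    rw [pow_succ, ndual_mul, ih, map_pow]
    push_cast
    ring

theorem ndual_sum [Fintype σ] (h : MvPolynomial σ K) :
    dd v W h = ∑ i, W i * eval v (pderiv i h) := by
  classical
  induction h using MvPolynomial.induction_on with
  | C c => simp [ndual_C]
  | add f g h1 h2 => simp only [ndual_add, h1, h2, map_add, mul_add, Finset.sum_add_distrib]
  | mul_X f j h1 =>
    have h2 : ∀ i, W i * eval v (pderiv i (f * X j)) =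
        W i * eval v (pderiv i f) * v j + (if i = j then eval v f * W j else 0) := by
      intro i
      rw [Derivation.leibniz, pderiv_X]
      by_cases hij : i = j
      · subst hij
        simp
        ring
      · simp [hij, Ne.symm hij]
        ring
    rw [ndual_mul, ndual_X, eval_X, h1]
    simp only [h2, Finset.sum_add_distrib, Finset.sum_ite_eq', Finset.mem_univ, if_true,
      Finset.sum_mul]

theorem ndual_comp {τ : Type} (b : τ → MvPolynomial σ K) (g : MvPolynomial τ K) :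
    dd v W (aeval b g) = dd (fun j => eval v (b j)) (fun j => dd v W (b j)) g := by
  have h1 : (fun j => (aeval (dp v W) (b j) : DualNumber K)) =
      dp (fun j => eval v (b j)) (fun j => dd v W (b j)) := by
    funext j
    refine TrivSqZeroExt.ext ?_ ?_
    · rw [ndual_fst]; simp [dp]
    · simp [dp, dd]
  simp only [dd] at h1 ⊢
  rw [← AlgHom.comp_apply, comp_aeval, h1]

theorem ndual_scale {A : Type u} [CommRing A] [Algebra K A] [Fintype σ] (x : σ → A) (t : A)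
    (h : MvPolynomial σ K) (d : ℕ) (hh : h.IsHomogeneous d) :
    aeval (fun i => t * x i) h = t ^ d * aeval x h := by
  classical
  rw [aeval_def, aeval_def, eval₂_eq', eval₂_eq', Finset.mul_sum]
  refine Finset.sum_congr rfl fun s hs => ?_
  have h1 : ∑ i, s i = d := by
    have h2 := hh (mem_support_iff.mp hs)
    rw [← h2, Finsupp.weight_apply, Finsupp.sum_fintype _ _ (by simp)]
    simp
  simp only [mul_pow, Finset.prod_mul_distrib, Finset.prod_pow_eq_pow_sum, h1]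
  ring

theorem ndual_hom [Fintype σ] (h : MvPolynomial σ K) (d : ℕ) (μ : K) (hh : h.IsHomogeneous d) :
    dd (fun i => μ * v i) (fun i => μ * W i) h = μ ^ d * dd v W h := by
  have h1 : dp (fun i => μ * v i) (fun i => μ * W i) =
      fun i => (TrivSqZeroExt.inl μ : DualNumber K) * dp v W i := by
    funext i
    refine TrivSqZeroExt.ext ?_ ?_
    · simp [dp]
    · simp [dp]
  simp only [dd]
  rw [h1, ndual_scale _ _ h d hh, TrivSqZeroExt.inl_pow, DualNumber.snd_mul]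
  simp

theorem ndual_map [Fintype σ] (θ : K →+* K) (h : MvPolynomial σ K) :
    θ (dd v W h) = dd (fun i => θ (v i)) (fun i => θ (W i)) (MvPolynomial.map θ h) := by
  rw [ndual_sum, ndual_sum, map_sum]
  refine Finset.sum_congr rfl fun i _ => ?_
  rw [map_mul, pderiv_map, eval_map, ← eval₂_id, eval₂_comp_left]
  rfl

end

theorem n_dual : DUAL_s.{u} := by
  intro K _ n v W
  refine ⟨ndual_fst v W, ndual_sum v W, ndual_add v W, ndual_sub v W, ndual_mul v W, ndual_C v W,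
    ndual_X v W, fun p hp _ i h => ?_, fun l b g => ?_, ndual_hom v W, ndual_map v W⟩
  · obtain ⟨n, hn⟩ : ∃ n, p ^ (i + 1) = n + 1 :=
      Nat.exists_eq_succ_of_ne_zero (pow_ne_zero _ hp.out.ne_zero)
    rw [hn, ndual_pow, ← hn, Nat.cast_pow, CharP.cast_eq_zero]
    simp
  · rw [ndual_comp, ndual_sum]

end H39c

end PartH39cNDual

section PartH39cNFin

set_option autoImplicit false

open MvPolynomial

namespace H39c

universe u

/-- substituting forms of degrees `m * w i` in a `w`-weighted form of weight `j`. -/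
theorem nfin_hom {K : Type u} [Field K] (w : Fin 3 → ℕ) (m j : ℕ) (a : Fin 3 → P4 K)
    (ha : ∀ i, (a i).IsHomogeneous (m * w i)) (g : P3 K) (hg : g.IsWeightedHomogeneous w j) :
    (aeval a g : P4 K).IsHomogeneous (m * j) := by
  classical
  rw [g.as_sum, map_sum]
  refine IsHomogeneous.sum _ _ _ ?_
  intro d hd
  have hw : Finsupp.weight w d = j := hg (mem_support_iff.mp hd)
  rw [aeval_monomial, Finsupp.prod_fintype _ _ (fun i => pow_zero _)]
  have h1 : (∏ i, a i ^ d i).IsHomogeneous (∑ i, m * w i * d i) :=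
    IsHomogeneous.prod _ _ _ (fun i _ => (ha i).pow (d i))
  have h2 : ∑ i, m * w i * d i = m * j := by
    rw [← hw, Finsupp.weight_apply, Finsupp.sum_fintype _ _ (fun i => by simp), Finset.mul_sum]
    refine Finset.sum_congr rfl fun i _ => ?_
    rw [smul_eq_mul]; ring
  rw [h2] at h1
  have h3 := (isHomogeneous_C (Fin 4) (coeff d g)).mul h1
  rw [zero_add] at h3
  exact h3

theorem nfin_scale {k L : Type u} [Field k] [Field L] [Algebra k L] (h : P4 k) (d : ℕ)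
    (hh : h.IsHomogeneous d) (t : L) (v : Fin 4 → L) :
    aeval (fun i => t * v i) h = t ^ d * aeval v h := by
  classical
  conv_lhs => rw [h.as_sum]
  conv_rhs => rw [h.as_sum]
  rw [map_sum, map_sum, Finset.mul_sum]
  refine Finset.sum_congr rfl fun e he => ?_
  have hw : Finsupp.weight (1 : Fin 4 → ℕ) e = d := hh (mem_support_iff.mp he)
  rw [aeval_monomial, aeval_monomial, Finsupp.prod_fintype _ _ (fun i => pow_zero _),
    Finsupp.prod_fintype _ _ (fun i => pow_zero _)]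
  have h2 : ∑ i, e i = d := by
    rw [← hw, Finsupp.weight_apply, Finsupp.sum_fintype _ _ (fun i => by simp)]
    simp
  simp only [mul_pow, Finset.prod_mul_distrib, Finset.prod_pow_eq_pow_sum, h2]
  ring

theorem nfin_scale2 {L : Type u} [Field L] (h : P4 L) (d : ℕ)
    (hh : h.IsHomogeneous d) (t : L) (v : Fin 4 → L) :
    eval (fun i => t * v i) h = t ^ d * eval v h := by
  exact nfin_scale h d hh t v

theorem n_fin (hN : NCZ_s.{u}) : FIN_s.{u} := by
  intro k _ _ p _ _ ξ D c δ Ω _ _ _ e m Q a e0 dG s0 y0 G hG hD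
  classical
  have hhom := (hN k p ξ D c δ Ω e m Q a e0 dG s0 y0 G hG hD).1
  have : CharP Ω p := charP_of_injective_algebraMap (algebraMap k Ω).injective p
  obtain ⟨i, hi⟩ := hD.hm
  refine ⟨?_, ?_⟩
  · intro Γ γ hΓ hnot
    set b := tr e m s0 y0 G with hb
    have ha0 : (b 0).IsHomogeneous m := by simpa [wt] using hhom 0
    have hh : (aeval b Γ : P4 Ω).IsHomogeneous (m * γ) := nfin_hom (wt Q) m γ b hhom Γ hΓ
    have hne : iota ξ Ω (aeval b Γ) ≠ 0 := fun h0 => hnot ((hG.mem Ω _ ⟨_, hh⟩).mpr h0)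
    by_contra hinf
    obtain ⟨T, hT0, hcard⟩ := Set.Infinite.exists_subset_card_eq hinf (D * (m * γ) + c + 1)
    have hT : ∀ v ∈ T, v ∈ V (idl ξ Ω) ∧ v 0 ≠ 0 ∧ eval v (b 0) = 1 ∧ eval (val3 b v) Γ = 0 :=
      fun v hv => hT0 (Finset.mem_coe.2 hv)
    let N : (Fin 4 → Ω) → Fin 4 → Ω := fun v i => (v 0)⁻¹ * v i
    have hcone : ∀ v ∈ T, v ∈ cone ξ Ω := fun v hv => by rw [hG.coneV Ω]; exact (hT v hv).1
    have hinj : Set.InjOn N (T : Set (Fin 4 → Ω)) := by
      intro v hv v' hv' he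
      have e1 : eval (N v) (b 0) = (v 0)⁻¹ ^ m := by
        rw [show N v = fun i => (v 0)⁻¹ * v i from rfl, nfin_scale2 (b 0) m ha0,
          (hT v hv).2.2.1, mul_one]
      have e2 : eval (N v') (b 0) = (v' 0)⁻¹ ^ m := by
        rw [show N v' = fun i => (v' 0)⁻¹ * v' i from rfl, nfin_scale2 (b 0) m ha0,
          (hT v' hv').2.2.1, mul_one]
      have e3 : (v 0)⁻¹ ^ m = (v' 0)⁻¹ ^ m := by rw [← e1, ← e2, he]
      have e4 : (v 0)⁻¹ = (v' 0)⁻¹ := by
        rw [hi] at e3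
        have e5 : ((v 0)⁻¹ - (v' 0)⁻¹) ^ p ^ (i + 1) = 0 := by rw [sub_pow_char_pow, e3, sub_self]
        exact sub_eq_zero.mp
          (pow_eq_zero_iff (pow_ne_zero _ (Fact.out : p.Prime).ne_zero) |>.mp e5)
      funext r
      have e6 : (v 0)⁻¹ * v r = (v' 0)⁻¹ * v' r := congrFun he r
      rw [← e4] at e6
      exact mul_left_cancel₀ (inv_ne_zero (hT v hv).2.1) e6
    have hz := hG.zero Ω (aeval b Γ) (m * γ) hh hne (T.image N) (by
      intro z hz
      obtain ⟨v, hv, rfl⟩ := Finset.mem_image.mp hz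
      refine ⟨?_, ?_, ?_⟩
      · rintro h ⟨d, hd⟩ h0
        rw [show N v = fun i => (v 0)⁻¹ * v i from rfl, nfin_scale h d hd,
          hcone v hv h ⟨d, hd⟩ h0, mul_zero]
      · exact Or.inl (inv_mul_cancel₀ (hT v hv).2.1)
      · rw [show N v = fun i => (v 0)⁻¹ * v i from rfl, nfin_scale2 _ _ hh]
        have e7 : eval v (aeval b Γ : P4 Ω) = eval (val3 b v) Γ := by
          rw [← coe_aeval_eq_eval, ← coe_aeval_eq_eval]
          change aeval v (aeval b Γ) = aeval (val3 b v) Γ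
          rw [← AlgHom.comp_apply, comp_aeval]
          rfl
        rw [e7, (hT v hv).2.2.2, mul_zero])
    rw [Finset.card_image_of_injOn hinj] at hz
    omega
  · intro θ hθ
    have hc : (θ : Ω →+* Ω).comp (algebraMap k Ω) = algebraMap k Ω := θ.comp_algebraMap
    have hmap : ∀ h : P4 k, MvPolynomial.map (θ : Ω →+* Ω) (MvPolynomial.map (algebraMap k Ω) h) =
        MvPolynomial.map (algebraMap k Ω) h := fun h => by rw [MvPolynomial.map_map, hc]
    have hcub : ∀ j, MvPolynomial.map (θ : Ω →+* Ω) (cub Ω j) = cub Ω j := fun j => by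
      fin_cases j <;> simp [cub]
    have hθ' : ∀ j, (θ : Ω →+* Ω) (e j) = e j := hθ
    have h1 : ∀ j, MvPolynomial.map (θ : Ω →+* Ω) (tr e m s0 y0 G j) = tr e m s0 y0 G j := by
      intro j
      fin_cases j
      · exact hmap s0
      · change MvPolynomial.map (θ : Ω →+* Ω) (X 3 ^ m + C (e none) * X 0 ^ m : P4 Ω) =
          X 3 ^ m + C (e none) * X 0 ^ m
        simp only [map_add, map_mul, map_pow, map_X, map_C, hθ']
      · change MvPolynomial.map (θ : Ω →+* Ω) (MvPolynomial.map (algebraMap k Ω) y0 +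
            MvPolynomial.map (algebraMap k Ω) G * ∑ i, C (e (some i)) * cub Ω i : P4 Ω) =
          MvPolynomial.map (algebraMap k Ω) y0 +
            MvPolynomial.map (algebraMap k Ω) G * ∑ i, C (e (some i)) * cub Ω i
        simp only [map_add, map_mul, map_sum, map_C, hθ', hmap, hcub]
    have h2 : ∀ (v : Fin 4 → Ω) j, θ (eval v (tr e m s0 y0 G j)) =
        eval (fun j => θ (v j)) (tr e m s0 y0 G j) := fun v j => by
      have := MvPolynomial.map_eval (θ : Ω →+* Ω) v (tr e m s0 y0 G j)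
      rw [h1] at this
      exact this
    have h3 : ∀ v ∈ V (idl ξ Ω), (fun j => θ (v j)) ∈ V (idl ξ Ω) := fun v hv => by
      rw [← hG.coneV Ω] at hv ⊢
      intro h hf h0
      have := hv h hf h0
      have h4 : aeval (fun j => θ (v j)) h = θ (aeval v h) := by
        rw [← AlgHom.comp_apply, comp_aeval]
      rw [h4, this, map_zero]
    refine ⟨h1, h2, fun v v' hn => ⟨h3 v hn.1, h3 v' hn.2.1, ?_, ?_⟩⟩
    · intro h
      refine hn.2.2.1 (funext fun j => (θ : Ω →+* Ω).injective (congrFun h j))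
    · funext j
      have := congrFun hn.2.2.2 j
      simp only [val3] at this ⊢
      rw [← h2, ← h2, this]

end H39c

end PartH39cNFin

section PartH39cNGam

set_option autoImplicit false

open MvPolynomial

namespace H39c

universe u

theorem ngam_map_eval {K : Type u} [Field K] (θ : K →+* K) (R : Fin 3 → K) (h : P3 K) :
    θ (eval R h) = eval (fun i => θ (R i)) (MvPolynomial.map θ h) := by
  induction h using MvPolynomial.induction_on with
  | C c => simp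
  | add f g hf hg => simp [hf, hg]
  | mul_X f i hf => simp [hf]

theorem ngam_map_hom {K : Type u} [Field K] (θ : K →+* K) (w : Fin 3 → ℕ) (h : P3 K) (j : ℕ)
    (hh : h.IsWeightedHomogeneous w j) : (MvPolynomial.map θ h).IsWeightedHomogeneous w j := by
  intro d hd
  apply hh
  intro h0
  rw [coeff_map, h0, map_zero] at hd
  exact hd rfl

theorem ngam_wt_pos {Q : ℕ} (hQ : 0 < Q) (i : Fin 3) : 0 < wt Q i := by
  fin_cases i <;> simp [wt, hQ]

theorem ngam_const {K : Type u} [Field K] {Q : ℕ} (hQ : 0 < Q) (h : P3 K)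
    (hh : h.IsWeightedHomogeneous (wt Q) 0) : h = C (coeff 0 h) := by
  classical
  ext d
  rw [coeff_C]
  by_cases hd : (0 : Fin 3 →₀ ℕ) = d
  · rw [if_pos hd, hd]
  · rw [if_neg hd]
    by_contra hne
    have hw : Finsupp.weight (wt Q) d = 0 := hh hne
    rw [Finsupp.weight_apply, Finsupp.sum_fintype _ _ (fun i => by simp),
      Finset.sum_eq_zero_iff] at hw
    apply hd
    ext i
    have h1 := hw i (Finset.mem_univ i)
    rw [smul_eq_mul] at h1
    have h2 := ngam_wt_pos hQ i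
    rcases Nat.mul_eq_zero.mp h1 with h3 | h3
    · simp [h3]
    · omega

/-- a ring endomorphism mapping a finite set of points into itself permutes it -/
theorem ngam_surj {K : Type u} [Field K] {N : Type u} [Finite N] (pt : N → Fin 3 → K)
    (θ : K →+* K) (hθ : ∀ μ, ∃ μ', ∀ i, θ (pt μ i) = pt μ' i) (ν : N) :
    ∃ μ, ∀ i, θ (pt μ i) = pt ν i := by
  have hfin : (Set.range pt).Finite := Set.finite_range pt
  let f : (Fin 3 → K) → Fin 3 → K := fun R i => θ (R i)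
  have hmaps : Set.MapsTo f (Set.range pt) (Set.range pt) := by
    rintro _ ⟨μ, rfl⟩
    obtain ⟨μ', h⟩ := hθ μ
    exact ⟨μ', funext fun i => (h i).symm⟩
  have hinj : Set.InjOn f (Set.range pt) := by
    intro R _ R' _ h
    funext i
    exact θ.injective (congrFun h i)
  have hb := (hfin.injOn_iff_bijOn_of_mapsTo hmaps).mp hinj
  obtain ⟨_, ⟨μ, rfl⟩, h⟩ := hb.surjOn (⟨ν, rfl⟩ : pt ν ∈ Set.range pt)
  exact ⟨μ, fun i => congrFun h i⟩

theorem n_gam (hP : PTH_s.{u}) : GAM_s.{u} := by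
  intro K _ _ p _ _ Q N _ pt A B sw Γ0 γ0 hQ h1 hsw hdet hconj hΓ0 hΓ0w hΓ0v
  classical
  have hp : p.Prime := Fact.out
  have hQ0 : 0 < Q := by
    obtain ⟨i, hi⟩ := hQ
    rw [hi]
    exact pow_pos hp.pos _
  obtain ⟨P1, P2, P3', -, -⟩ := hP K p Q hQ
  rcases isEmpty_or_nonempty N with hN | hN
  · exact ⟨Γ0, γ0, le_rfl, hΓ0, hΓ0w, hΓ0v, fun ν => (hN.false ν).elim⟩
  have hex : ∃ γ : ℕ, ∃ Γ : P3 K, Γ ≠ 0 ∧ Γ.IsWeightedHomogeneous (wt Q) γ ∧
      ∀ ν, eval (pt ν) Γ = 0 := ⟨γ0, Γ0, hΓ0, hΓ0w, hΓ0v⟩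
  obtain ⟨Γ1, hΓ1, hΓ1w, hΓ1v⟩ := Nat.find_spec hex
  have hle : Nat.find hex ≤ γ0 := Nat.find_min' hex ⟨Γ0, hΓ0, hΓ0w, hΓ0v⟩
  have hmin : ∀ (γ' : ℕ) (Γ : P3 K), γ' < Nat.find hex → Γ.IsWeightedHomogeneous (wt Q) γ' →
      (∀ ν, eval (pt ν) Γ = 0) → Γ = 0 := by
    intro γ' Γ hlt hw hv
    by_contra hne
    exact Nat.find_min hex hlt ⟨Γ, hne, hw, hv⟩
  generalize Nat.find hex = γ at hΓ1w hle hmin
  -- one node with a nonzero derivative
  have hone : ∃ ν, A ν * eval (pt ν) (pderiv 0 Γ1) + B ν * eval (pt ν) (pderiv 2 Γ1) ≠ 0 := by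
    by_contra hall
    have hz : ∀ ν, A ν * eval (pt ν) (pderiv 0 Γ1) + B ν * eval (pt ν) (pderiv 2 Γ1) = 0 := by
      intro ν
      by_contra hne
      exact hall ⟨ν, hne⟩
    have hpv : ∀ ν i, eval (pt ν) (pderiv i Γ1) = 0 := by
      intro ν
      have h2 := hz (sw ν)
      rw [hsw ν] at h2
      exact P3' Γ1 γ (pt ν) (A ν) (B ν) (A (sw ν)) (B (sw ν)) hΓ1w (h1 ν) (hΓ1v ν) (hdet ν)
        (hz ν) h2
    have hp0 : ∀ i, pderiv i Γ1 = 0 := by
      intro i
      rcases P2 Γ1 γ i hΓ1w with h | ⟨γ', hγ', hw⟩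
      · exact h
      · have := ngam_wt_pos hQ0 i
        exact hmin γ' _ (by omega) hw (fun ν => hpv ν i)
    obtain ⟨Γ', γ', hw', hpow, hγ⟩ := P1 Γ1 γ hΓ1w hp0
    have hγ' := hγ hΓ1
    rcases Nat.eq_zero_or_pos γ' with h0 | h0
    · rw [h0, mul_zero] at hγ'
      rw [hγ'] at hΓ1w
      have hc := ngam_const hQ0 Γ1 hΓ1w
      obtain ⟨ν⟩ := hN
      have hv := hΓ1v ν
      rw [hc, eval_C] at hv
      rw [hv, map_zero] at hc
      exact hΓ1 hc
    · have hlt : γ' < γ := by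
        have := hp.two_le
        nlinarith
      have hz' : Γ' = 0 := hmin γ' Γ' hlt hw' (by
        intro ν
        have hv := hΓ1v ν
        rw [hpow, map_pow] at hv
        exact pow_eq_zero_iff hp.ne_zero |>.mp hv)
      rw [hz', zero_pow hp.ne_zero] at hpow
      exact hΓ1 hpow
  obtain ⟨ν0, hν0⟩ := hone
  let U : Submodule K (P3 K) :=
    { carrier := {Γ | Γ.IsWeightedHomogeneous (wt Q) γ ∧ ∀ ν, eval (pt ν) Γ = 0}
      add_mem' := by
        intro a b ha hb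
        exact ⟨ha.1.add hb.1, fun ν => by rw [map_add, ha.2 ν, hb.2 ν, add_zero]⟩
      zero_mem' := ⟨isWeightedHomogeneous_zero K (wt Q) γ, fun ν => map_zero _⟩
      smul_mem' := by
        intro c a ha
        refine ⟨(weightedHomogeneousSubmodule K (wt Q) γ).smul_mem c ha.1, fun ν => ?_⟩
        rw [smul_eval, ha.2 ν, mul_zero] }
  let L : N → Module.Dual K (P3 K) := fun ν =>
    { toFun := fun Γ => A ν * eval (pt ν) (pderiv 0 Γ) + B ν * eval (pt ν) (pderiv 2 Γ)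
      map_add' := by
        intro a b
        simp only [map_add]
        ring
      map_smul' := by
        intro c a
        simp only [Derivation.map_smul, smul_eval, RingHom.id_apply, smul_eq_mul]
        ring }
  have hall : ∀ ν, ∃ Γ ∈ U, L ν Γ ≠ 0 := by
    intro ν
    obtain ⟨θ, hθ1, hθA, hθB, hθp⟩ := hconj ν0 ν
    refine ⟨MvPolynomial.map θ Γ1, ⟨ngam_map_hom θ _ _ _ hΓ1w, fun μ' => ?_⟩, ?_⟩
    · obtain ⟨μ, hμ⟩ := ngam_surj pt θ hθp μ'
      have h2 := ngam_map_eval θ (pt μ) Γ1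
      rw [hΓ1v μ, map_zero, show (fun i => θ (pt μ i)) = pt μ' from funext hμ] at h2
      exact h2.symm
    · change A ν * eval (pt ν) (pderiv 0 (MvPolynomial.map θ Γ1)) +
        B ν * eval (pt ν) (pderiv 2 (MvPolynomial.map θ Γ1)) ≠ 0
      rw [pderiv_map, pderiv_map, ← show (fun i => θ (pt ν0 i)) = pt ν from funext hθ1,
        ← ngam_map_eval, ← ngam_map_eval, ← hθA, ← hθB, ← map_mul, ← map_mul, ← map_add]
      exact fun h => hν0 (θ.injective (by rw [h, map_zero]))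
  obtain ⟨Γ, hΓU, hΓL⟩ := Module.Dual.exists_forall_mem_ne_zero_of_forall_exists U L hall
  refine ⟨Γ, γ, hle, ?_, hΓU.1, hΓU.2, hΓL⟩
  intro h0
  exact hΓL ν0 (by rw [h0, map_zero])

end H39c

end PartH39cNGam

section PartH39cNGen

set_option autoImplicit false
set_option linter.unusedVariables false

open MvPolynomial

namespace H39c

universe u

theorem ngen_scale {k Ω : Type u} [CommRing k] [CommRing Ω] [Algebra k Ω] {h : P4 k} {d : ℕ}
    (hh : h.IsHomogeneous d) (μ : Ω) (v : Fin 4 → Ω) :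
    aeval (fun i => μ * v i) h = μ ^ d * aeval v h := by
  rw [aeval_def, aeval_def, eval₂_eq', eval₂_eq', Finset.mul_sum]
  refine Finset.sum_congr rfl fun s hs => ?_
  have hd : ∑ i, s i = d := by
    have h1 := hh (mem_support_iff.1 hs)
    rw [Finsupp.weight_apply, Finsupp.sum_fintype _ _ (by simp)] at h1
    simpa using h1
  simp only [mul_pow]
  rw [Finset.prod_mul_distrib, Finset.prod_pow_eq_pow_sum, hd]
  ring

theorem ngen_order_map {k L : Type u} [Field k] [Field L] (f : k →+* L) (φ : PowerSeries k)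
    (n : ℕ) (h : φ.order = (n : ℕ)) : (PowerSeries.map f φ).order = (n : ℕ) := by
  rw [PowerSeries.order_eq_nat] at h ⊢
  refine ⟨?_, fun i hi => ?_⟩
  · rw [PowerSeries.coeff_map]
    exact (map_ne_zero f).2 h.1
  · rw [PowerSeries.coeff_map, h.2 i hi, map_zero]

theorem ngen_iota_map {k : Type u} [Field k] (ξ : Fin 4 → PowerSeries k) (L : Type u) [Field L]
    [Algebra k L] (h : P4 k) :
    iota ξ L (MvPolynomial.map (algebraMap k L) h) =
      PowerSeries.map (algebraMap k L) (aeval ξ h) := by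
  induction h using MvPolynomial.induction_on with
  | C a =>
    rw [map_C, iota, aeval_C, aeval_C]
    simp
  | add p q hp hq => simp only [map_add, hp, hq]
  | mul_X p i hp =>
    simp only [map_mul, hp, map_X, aeval_X]
    rw [iota, aeval_X]

theorem ngen_tr0 {k Ω : Type u} [Field k] [Field Ω] [Algebra k Ω] (e : Option (Fin 5) → Ω)
    (m : ℕ) (s0 y0 G : P4 k) (v : Fin 4 → Ω) : eval v (tr e m s0 y0 G 0) = aeval v s0 := by
  simp only [tr, trip, Matrix.cons_val_zero]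
  rw [eval_map, aeval_def]

theorem ngen_tr1 {k Ω : Type u} [Field k] [Field Ω] [Algebra k Ω] (e : Option (Fin 5) → Ω)
    (m : ℕ) (s0 y0 G : P4 k) (v : Fin 4 → Ω) :
    eval v (tr e m s0 y0 G 1) = v 3 ^ m + e none * v 0 ^ m := by
  simp [tr, trip]

theorem ngen_tr2 {k Ω : Type u} [Field k] [Field Ω] [Algebra k Ω] (e : Option (Fin 5) → Ω)
    (m : ℕ) (s0 y0 G : P4 k) (v : Fin 4 → Ω) :
    eval v (tr e m s0 y0 G 2) =
      aeval v y0 + aeval v G * ∑ i, e (some i) * eval v (cub Ω i) := by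
  have : tr e m s0 y0 G 2 = MvPolynomial.map (algebraMap k Ω) y0 +
      MvPolynomial.map (algebraMap k Ω) G * ∑ i, C (e (some i)) * cub Ω i := rfl
  rw [this, map_add, map_mul, eval_map, eval_map, map_sum, aeval_def, aeval_def]
  simp only [map_mul, eval_C]

theorem ngen_aeval_mem {k Ω : Type u} [Field k] [Field Ω] [Algebra k Ω]
    (L : IntermediateField k Ω) (v : Fin 4 → Ω) (hv : ∀ i, v i ∈ L) (h : P4 k) :
    aeval v h ∈ L := by
  induction h using MvPolynomial.induction_on with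
  | C a =>
    rw [aeval_C]
    exact L.algebraMap_mem a
  | add p q hp hq =>
    rw [map_add]
    exact L.add_mem hp hq
  | mul_X p i hp =>
    rw [map_mul, aeval_X]
    exact L.mul_mem hp (hv i)

theorem ngen_cub_mem {k Ω : Type u} [Field k] [Field Ω] [Algebra k Ω]
    (L : IntermediateField k Ω) (v : Fin 4 → Ω) (hv : ∀ i, v i ∈ L) (i : Fin 5) :
    eval v (cub Ω i) ∈ L := by
  have h0 := hv 0
  have h1 := hv 1
  have h3 := hv 3
  fin_cases i
  · simpa [cub] using pow_mem h0 3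
  · simpa [cub] using mul_mem (pow_mem h0 2) h3
  · simpa [cub] using mul_mem h0 (pow_mem h3 2)
  · simpa [cub] using pow_mem h3 3
  · simpa [cub] using mul_mem (pow_mem h0 2) h1

theorem ngen_solve {k Ω : Type u} [Field k] [Field Ω] [Algebra k Ω]
    (L : IntermediateField k Ω) (c t : Fin 5 → Ω) (d : Ω) (j : Fin 5) (hc : ∀ i, c i ∈ L)
    (hd : d ∈ L) (ht : ∀ i, i ≠ j → t i ∈ L) (hj : c j ≠ 0) (h : ∑ i, c i * t i = d) :
    t j ∈ L := by
  rw [← Finset.add_sum_erase _ _ (Finset.mem_univ j)] at h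
  have e1 : t j = (d - ∑ i ∈ Finset.univ.erase j, c i * t i) / c j := by
    rw [eq_div_iff hj, ← h]
    ring
  rw [e1]
  refine div_mem (sub_mem hd (sum_mem fun i hi => ?_)) (hc j)
  exact mul_mem (hc i) (ht i (Finset.ne_of_mem_erase hi))

theorem ngen_cone_smul {k Ω : Type u} [Field k] [Field Ω] [Algebra k Ω]
    {ξ : Fin 4 → PowerSeries k} {v : Fin 4 → Ω} (hv : v ∈ cone ξ Ω) (μ : Ω) :
    (fun i => μ * v i) ∈ cone ξ Ω := by
  rintro h ⟨d, hd⟩ h0
  rw [ngen_scale hd, hv h ⟨d, hd⟩ h0, mul_zero]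

/-- `G x0^3 / s0^Q` is not constant. -/
theorem ngen_dG {k Ω : Type u} [Field k] [Field Ω] [Algebra k Ω] {ξ : Fin 4 → PowerSeries k}
    {D c : ℕ} {δ : P4 k} (hG : Good ξ D c δ) {m Q a e0 dG : ℕ} {s0 G : P4 k}
    (hs : s0.IsHomogeneous m) (hGh : G.IsHomogeneous dG) (hdG : dG + 3 = m * Q)
    (os : (aeval ξ s0 : PowerSeries k).order = (a : ℕ))
    (oG : (aeval ξ G : PowerSeries k).order = (e0 + 1 : ℕ)) (a3 : 3 ≤ a) (e1 : e0 % a = 1)
    (L : IntermediateField k Ω) {v : Fin 4 → Ω} (hv : v ∈ cone ξ Ω) (v0 : v 0 ≠ 0)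
    (ht : Transcendental L (v 3 / v 0)) (h1 : aeval v s0 = 1)
    (hg : aeval v G * v 0 ^ 3 ∈ L) : False := by
  let g : L := ⟨_, hg⟩
  have hw := ngen_cone_smul hv (v 0)⁻¹
  have hz := hG.inj L Ω (fun i => (v 0)⁻¹ * v i) hw (inv_mul_cancel₀ v0)
    (by rw [mul_comm, ← div_eq_mul_inv]; exact ht)
    (MvPolynomial.map (algebraMap k L) G * X 0 ^ 3 -
      C g * MvPolynomial.map (algebraMap k L) s0 ^ Q) (by
      rw [map_sub, map_mul, map_mul, map_pow, map_pow, aeval_map_algebraMap,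
        aeval_map_algebraMap, aeval_X, aeval_C, ngen_scale hs, ngen_scale hGh, h1,
        inv_mul_cancel₀ v0, mul_one, ← pow_mul, ← hdG]
      have : algebraMap L Ω g = aeval v G * v 0 ^ 3 := rfl
      rw [this, pow_add]
      field_simp
      ring)
  have hX : iota ξ L (X 0) = 1 := by
    rw [iota, aeval_X, hG.h0, map_one]
  have hC : iota ξ L (C g) = PowerSeries.C g := by
    rw [iota, aeval_C]
    simp
  rw [map_sub, map_mul, map_mul, map_pow, map_pow, hX, hC, ngen_iota_map, ngen_iota_map,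
    one_pow, mul_one, sub_eq_zero] at hz
  have o1 := ngen_order_map (algebraMap k L) _ _ oG
  have o2 := ngen_order_map (algebraMap k L) _ _ os
  by_cases g0 : g = 0
  · rw [hz, g0, map_zero, zero_mul, PowerSeries.order_zero] at o1
    exact ENat.top_ne_natCast _ o1
  · have oc : (PowerSeries.C g : PowerSeries L).order = (0 : ℕ) := by
      rw [PowerSeries.order_eq_nat]
      exact ⟨by simpa using g0, fun i hi => absurd hi (Nat.not_lt_zero i)⟩
    rw [hz, PowerSeries.order_mul, PowerSeries.order_pow, oc, o2] at o1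
    have o3 : Q * a = e0 + 1 := by
      have : ((Q * a : ℕ) : ℕ∞) = ((e0 + 1 : ℕ) : ℕ∞) := by
        rw [← o1]
        simp
      exact_mod_cast this
    have o4 : (e0 + 1) % a = 0 := by
      rw [← o3]
      exact Nat.mul_mod_left Q a
    rw [Nat.add_mod, e1, Nat.mod_eq_of_lt (show 1 < a by omega),
      Nat.mod_eq_of_lt (show 1 + 1 < a by omega)] at o4
    omega

/-- `δ` does not vanish at a point with transcendental `x`-coordinate. -/
theorem ngen_delta {k Ω : Type u} [Field k] [Field Ω] [Algebra k Ω] {ξ : Fin 4 → PowerSeries k}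
    {D c : ℕ} {δ : P4 k} (hG : Good ξ D c δ) {v : Fin 4 → Ω} (hv : v ∈ cone ξ Ω) (v0 : v 0 ≠ 0)
    (ht : Transcendental k (v 3 / v 0)) : aeval v δ ≠ 0 := by
  intro h0
  have hne : aeval ξ δ ≠ 0 := by
    intro h
    apply hG.δP1
    have h2 := congrArg (PowerSeries.constantCoeff (R := k)) h
    rw [map_zero, aeval_def, eval₂_comp_left] at h2
    rw [← h2, ← coe_aeval_eq_eval]
    have h3 : (PowerSeries.constantCoeff (R := k)).comp (algebraMap k (PowerSeries k)) =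
        algebraMap k k := by
      ext x
      simp
    rw [h3]
    rfl
  obtain ⟨Z, -, hZ⟩ := hG.finz δ hG.δbin.1 hne
  rcases hZ Ω v hv h0 with h | ⟨z, -, l, h⟩
  · exact v0 (by rw [h]; rfl)
  · apply ht
    have l0 : l ≠ 0 := by
      rintro rfl
      exact v0 (by rw [h]; simp)
    have : v 3 / v 0 = algebraMap k Ω (z 3 / z 0) := by
      rw [h, map_div₀]
      exact mul_div_mul_left _ _ l0
    rw [this]
    exact isAlgebraic_algebraMap _

theorem n_gen (hA : ACL_s.{u}) (hN : NCZ_s.{u}) : GEN_s.{u} := by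
  intro k _ _ p _ _ ξ D c δ Ω _ _ _ e m Q a e0 dG s0 y0 G hG hD v v' hn h1
  obtain ⟨A1, A2, -, -, -, -, -, A8, A9⟩ := hA k Ω
  obtain ⟨-, -, -, -, -, N6⟩ := hN k p ξ D c δ Ω e m Q a e0 dG s0 y0 G hG hD
  obtain ⟨hvV, hvV', hne, hval⟩ := hn
  have hv : v ∈ cone ξ Ω := by rw [hG.coneV]; exact hvV
  have hv' : v' ∈ cone ξ Ω := by rw [hG.coneV]; exact hvV'
  have E : ∀ i, eval v (tr e m s0 y0 G i) = eval v' (tr e m s0 y0 G i) := fun i => congrFun hval i
  have h1' : eval v' (tr e m s0 y0 G 0) = 1 := by rw [← E 0]; exact h1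
  have E1 := E 1
  have E2 := E 2
  rw [ngen_tr1, ngen_tr1] at E1
  rw [ngen_tr2, ngen_tr2] at E2
  have cv := N6 v hvV h1
  have cv' := N6 v' hvV' h1'
  rw [ngen_tr0] at h1 h1'
  have : CharP Ω p := charP_of_injective_algebraMap (algebraMap k Ω).injective p
  obtain ⟨i0, hm⟩ := hD.hm
  have m0 : m ≠ 0 := by
    rw [hm]
    exact pow_ne_zero _ (Fact.out : p.Prime).ne_zero
  have frob : ∀ x y : Ω, x ^ m = y ^ m → x = y := fun x y h => by
    rw [hm] at h
    exact iterateFrobenius_inj Ω p (i0 + 1) h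
  -- `d0`
  have d0 : v 0 ^ m ≠ v' 0 ^ m := by
    intro h
    apply hne
    refine hD.injS v hv v' hv' (frob _ _ h) (frob _ _ ?_) hval
    rw [h] at E1
    exact add_right_cancel E1
  -- closure facts: any `T` whose closure contains `x, x'`
  have inT : ∀ T : Set Ω, v 3 / v 0 ∈ acl k T → v' 3 / v' 0 ∈ acl k T →
      (∀ i, v i ∈ acl k T) ∧ (∀ i, v' i ∈ acl k T) ∧ e none ∈ acl k T := by
    intro T hx hx'
    have a1 : ∀ i, v i ∈ acl k T := fun i =>
      A2 _ T (Set.singleton_subset_iff.2 hx) (cv i)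
    have a2 : ∀ i, v' i ∈ acl k T := fun i =>
      A2 _ T (Set.singleton_subset_iff.2 hx') (cv' i)
    refine ⟨a1, a2, ?_⟩
    have : e none = (v' 3 ^ m - v 3 ^ m) / (v 0 ^ m - v' 0 ^ m) := by
      rw [eq_div_iff (sub_ne_zero.2 d0)]
      linear_combination E1
    rw [this]
    exact div_mem (sub_mem (pow_mem (a2 3) m) (pow_mem (a1 3) m))
      (sub_mem (pow_mem (a1 0) m) (pow_mem (a2 0) m))
  -- the linear relation between the `τ_i`
  set cc : Fin 5 → Ω := fun i => aeval v G * eval v (cub Ω i) - aeval v' G * eval v' (cub Ω i)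
    with hcc
  have rel : ∑ i, cc i * e (some i) = aeval v' y0 - aeval v y0 := by
    simp only [hcc, sub_mul, Finset.sum_sub_distrib]
    rw [Finset.mul_sum, Finset.mul_sum] at E2
    have r1 : ∀ w : Fin 4 → Ω, ∑ i, aeval w G * eval w (cub Ω i) * e (some i) =
        ∑ i, aeval w G * (e (some i) * eval w (cub Ω i)) := fun w =>
      Finset.sum_congr rfl fun i _ => by ring
    rw [r1, r1]
    linear_combination E2
  have allT : ∀ (T : Set Ω) (j : Fin 5), v 3 / v 0 ∈ acl k T → v' 3 / v' 0 ∈ acl k T →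
      (∀ i, i ≠ j → e (some i) ∈ acl k T) → cc j ≠ 0 → ∀ o, e o ∈ acl k T := by
    intro T j hx hx' ht hj o
    obtain ⟨a1, a2, a3⟩ := inT T hx hx'
    rcases o with _ | i
    · exact a3
    · by_cases hi : i = j
      · subst hi
        refine ngen_solve (acl k T) cc (fun i => e (some i)) _ i (fun l => ?_) ?_ ht hj rel
        · exact sub_mem (mul_mem (ngen_aeval_mem _ _ a1 G) (ngen_cub_mem _ _ a1 l))
            (mul_mem (ngen_aeval_mem _ _ a2 G) (ngen_cub_mem _ _ a2 l))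
        · exact sub_mem (ngen_aeval_mem _ _ a2 y0) (ngen_aeval_mem _ _ a1 y0)
      · exact ht i hi
  -- not all coefficients vanish
  have hex : ∃ j, cc j ≠ 0 := by
    by_contra hall
    push Not at hall
    have c0 := hall 0
    have c1 := hall 1
    have c4 := hall 4
    simp only [hcc, cub, Matrix.cons_val_zero, Matrix.cons_val_one, Matrix.cons_val, map_pow,
      map_mul, eval_X, sub_eq_zero] at c0 c1 c4
    by_cases hz : aeval v G * v 0 ^ 3 = 0
    · have hform : Form (G * X 0) := ⟨_, hD.hG.mul (isHomogeneous_X k 0)⟩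
      have hne0 : aeval ξ (G * X 0) ≠ 0 := by
        rw [map_mul, aeval_X, hG.h0, mul_one]
        intro h
        have := hD.oG
        rw [h, PowerSeries.order_zero] at this
        exact ENat.top_ne_natCast _ this
      obtain ⟨Z, hZ1, hZ⟩ := hG.finz _ hform hne0
      have key : ∀ w ∈ cone ξ Ω, aeval w s0 = 1 → aeval w G * w 0 ^ 3 = 0 →
          ∃ z ∈ cone ξ k, ∃ l : Ω, w = fun i => l * algebraMap k Ω (z i) := by
        intro w hw hw1 hw0
        have : aeval w (G * X 0) = 0 := by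
          rw [map_mul, aeval_X]
          rcases mul_eq_zero.1 hw0 with h | h
          · rw [h, zero_mul]
          · rw [pow_eq_zero_iff (by norm_num)] at h
            rw [h, mul_zero]
        rcases hZ Ω w hw this with h | ⟨z, hz, l, h⟩
        · exfalso
          have h2 := ngen_scale hD.hs (0 : Ω) w
          have h3 : (fun i => (0 : Ω) * w i) = w := by
            rw [h]
            funext i
            simp
          rw [h3, hw1, zero_pow m0, zero_mul] at h2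
          exact one_ne_zero h2
        · exact ⟨z, (hZ1 z hz).1, l, h⟩
      obtain ⟨z, hz1, l, hl⟩ := key v hv h1 hz
      obtain ⟨z', hz1', l', hl'⟩ := key v' hv' h1' (c0 ▸ hz)
      apply hne
      rw [hl, hl'] at hval ⊢
      exact hD.rat z hz1 z' hz1' l l' hval
    · have hz' : aeval v' G * v' 0 ^ 3 ≠ 0 := c0 ▸ hz
      have v0 : v 0 ≠ 0 := by
        intro h
        exact hz (by rw [h]; simp)
      have v0' : v' 0 ≠ 0 := by
        intro h
        exact hz' (by rw [h]; simp)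
      have hr : ∀ i, aeval v G * (v 0 ^ 2 * v i) = aeval v' G * (v' 0 ^ 2 * v' i) →
          v' 0 / v 0 * v i = v' i := by
        intro i hi
        apply mul_left_cancel₀ hz'
        have : aeval v' G * v' 0 ^ 3 * v' i = v' 0 * (aeval v' G * (v' 0 ^ 2 * v' i)) := by ring
        rw [this, ← hi, ← c0]
        field_simp
      have r0 : v' 0 / v 0 * v 0 = v' 0 := div_mul_cancel₀ _ v0
      have r3 := hr 3 c1
      have r1 := hr 1 c4
      have hxx : v' 3 / v' 0 = v 3 / v 0 := by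
        rw [← r3]
        field_simp
      have hs : e none ∈ acl k (Set.range fun _ : Unit => v 3 / v 0) :=
        (inT (Set.range fun _ : Unit => v 3 / v 0) (A1 _ ⟨(), rfl⟩)
          (A1 _ ⟨(), hxx.symm⟩)).2.2
      have hi := A8 Unit Unit (fun _ => e none) (fun _ => v 3 / v 0)
        (hD.ind.comp (fun _ : Unit => none) (Function.injective_of_subsingleton _))
        (fun _ => hs) le_rfl
      have ht : Transcendental k (v 3 / v 0) := hi.transcendental ()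
      have hd' : aeval v' δ ≠ 0 := ngen_delta hG hv' v0' (hxx ▸ ht)
      have hvv := hG.bir Ω v' hv' _ (ngen_cone_smul hv (v' 0 / v 0)) r0.symm r1.symm r3.symm hd'
      have h2 := ngen_scale hD.hs (v' 0 / v 0) v
      rw [← hvv, h1, h1', mul_one, div_pow, eq_div_iff (pow_ne_zero m v0), one_mul] at h2
      exact d0 h2
  obtain ⟨j, hj⟩ := hex
  -- `x, x'` are independent
  let y : Option (Fin 5) → Ω := fun o => match o with
    | none => v 3 / v 0
    | some i => if i = j then v' 3 / v' 0 else e (some i)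
  have yj : y (some j) = v' 3 / v' 0 := if_pos rfl
  have iy : AlgebraicIndependent k y := by
    refine A8 _ _ e y hD.ind (allT _ j (A1 _ ⟨none, rfl⟩) (A1 _ ⟨some j, yj⟩)
      (fun i hi => A1 _ ⟨some i, if_neg hi⟩) hj) le_rfl
  have v0 : v 0 ≠ 0 := by
    intro h
    apply iy.ne_zero none
    show v 3 / v 0 = 0
    rw [h, div_zero]
  have v0' : v' 0 ≠ 0 := by
    intro h
    apply iy.ne_zero (some j)
    rw [yj, h, div_zero]
  have dG' : aeval v G * v 0 ^ 3 ≠ aeval v' G * v' 0 ^ 3 := by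
    intro h
    have ht := A9 _ y (some j) {none} iy (by simp)
    rw [yj, Set.image_singleton] at ht
    refine ngen_dG hG hD.hs hD.hG hD.hdG hD.os hD.oG hD.a3 hD.e1 _ hv' v0' ht h1' ?_
    rw [← h]
    exact mul_mem (ngen_aeval_mem _ _ cv G) (pow_mem (cv 0) 3)
  refine ⟨v0, v0', ?_, d0, dG'⟩
  have c0 : cc 0 ≠ 0 := by
    simp only [hcc, cub, Matrix.cons_val_zero, map_pow, eval_X]
    exact sub_ne_zero.2 dG'
  refine A8 _ _ e (fam e v v') hD.ind (allT _ 0 (A1 _ ⟨0, rfl⟩) (A1 _ ⟨1, rfl⟩)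
    (fun i hi => A1 _ ?_) c0) (by simp)
  fin_cases i
  · exact absurd rfl hi
  · exact ⟨2, rfl⟩
  · exact ⟨3, rfl⟩
  · exact ⟨4, rfl⟩
  · exact ⟨5, rfl⟩

end H39c

end PartH39cNGen
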